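import Pool.Agent.NTA.RunDefs
import Pool.Agent.NTW.EqFun

/-!
NTA: the norms of the functionals of the monotone chains with a marked run.
-/

set_option autoImplicit false

namespace HexObs

namespace NTA

open Finset TS SDN SDN.CN NTm NTW

open scoped ENNReal

lemma runF_mono {R R' : Set (List (List Bool))} (h : R' ⊆ R) (Φ : List Bool → ℝ≥0∞) (g : List Bool) :
    runF R' Φ g ≤ runF R Φ g := by
  classical
  unfold runF
  refine ENNReal.tsum_le_tsum fun ms => ?_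
  by_cases h1 : (g :: ms) ∈ R' ∧ (g :: ms).IsChain LFold
  · rw [if_pos h1, if_pos ⟨h h1.1, h1.2⟩]
  · rw [if_neg h1]
    exact zero_le

lemma runF_add {R : Set (List (List Bool))} (Φ Ψ : List Bool → ℝ≥0∞) (g : List Bool) :
    runF R (fun s => Φ s + Ψ s) g = runF R Φ g + runF R Ψ g := by
  classical
  unfold runF
  rw [← ENNReal.tsum_add]
  refine tsum_congr fun ms => ?_
  split_ifs
  · exact mul_add _ _ _
  · rw [add_zero]

lemma vA_monoF {D : ℕ} {A : Set (List Bool)} {Φ Ψ : List Bool → ℝ≥0∞} (h : ∀ g, Φ g ≤ Ψ g) (t : List Bool) :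
    vA D A Φ t ≤ vA D A Ψ t := by
  unfold vA
  exact Rec8.sw_mono' fun g _ => h g

lemma SmR_mono {Dm : ℕ → ℝ≥0∞ → (List Bool → ℝ≥0∞) → Prop} {kc : ℕ} {R R' : Set (List (List Bool))} {δ : ℝ}
    (h : R' ⊆ R) (hS : SmR Dm kc R δ) : SmR Dm kc R' δ :=
  ⟨fun x Φ hΦ => (xT_mono fun t => vA_monoF (runF_mono h Φ) t).trans (hS.near x Φ hΦ),
    fun y x Ψ Φ hΨ hf hΦ => (Rec8.sw_mono' fun g _ => mul_le_mul_right (runF_mono h Φ g) _).trans
      (hS.free y x Ψ Φ hΨ hf hΦ)⟩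

open QF in
/-- the norms of the functionals of the monotone chains with a run, two free ends -/
theorem fun_boundR {Dm : ℕ → ℝ≥0∞ → (List Bool → ℝ≥0∞) → Prop} (hDm : DmP Dm) (hA : SsA) (h3 : Ss3) (hD : SsD) :
    ∃ Q : ℝ, 1 ≤ Q ∧ ∀ (kc J n : ℕ) (W : ℕ → Set (List Bool)) (kp : ℕ → ℕ) (R : Set (List (List Bool))) (δ x : ℝ)
      (x0 : ℝ≥0∞) (Φ : ℕ → List Bool → ℝ≥0∞), Wnd kc J n W kp → 1 ≤ n → 0 ≤ δ → 0 ≤ x → SmR Dm kc R δ →
      (∀ i, i < n → Dom (kp i) (ENNReal.ofReal x) (Φ i)) → x0 ≤ ENNReal.ofReal x → Dm kc x0 (Φ 0) →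
      Flp (2 ^ (kc + 4)) (Φ 0) → ∀ M : ℕ,
    Rec8.sw (HB (2 ^ (kc + 4))) (fun g => Φ 0 (rev g) * runF R (FX W kp n Φ M 0) g) +
      ∑ i ∈ range n, Rec8.sw (W i) (fun g => Φ i (rev g) *
        FL W kp (vA (2 ^ (kc + 4)) (HB (2 ^ (kc + 4))) (runF R (FX W kp n Φ M 0))) M i g) ≤
      ENNReal.ofReal (Q ^ (n + J + 1) * δ * Ub (kc + J) * x ^ 2) := by
  obtain ⟨C, δ0, hInp⟩ := inp_exists
  obtain ⟨K, hK1, hK⟩ := two_scale
  obtain ⟨K2, hK2, hN⟩ := nextD_of hInp hA h3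
  obtain ⟨K3, hK3, hT⟩ := two2_of hA hD
  obtain ⟨K4, hK4, hX⟩ := Dom_xT hInp
  obtain ⟨q, hq⟩ : ∃ q : ℝ, q = 128 * K + 1 := ⟨_, rfl⟩
  have hq1 : 1 ≤ q := by linarith
  have hq2 : 2 ≤ q := by linarith
  have hq0 : 0 ≤ q := by linarith
  obtain ⟨A, hAdef⟩ : ∃ A : ℝ, A = 2145 * (K2 * (K3 * K4)) := ⟨_, rfl⟩
  have hKKK : 1 ≤ K2 * (K3 * K4) := one_le_mul_of_one_le_of_one_le hK2 (one_le_mul_of_one_le_of_one_le hK3 hK4)
  have hA1 : 1 ≤ A := by linarith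
  refine ⟨A * q ^ 3, one_le_mul_of_one_le_of_one_le hA1 (one_le_pow₀ hq1), ?_⟩
  intro kc J n W kp R δ x x0 Φ hW hn hδ hx hS hΦ hx0 hΦ0 hflp M
  have hK20 : 0 ≤ K2 := by linarith
  have hK30 : 0 ≤ K3 := by linarith
  have hK40 : 0 ≤ K4 := by linarith
  have hU := Ub_pos kc
  have hUL := Ub_pos (kc + J)
  have hUJ : Ub (kc + J) ≤ 2 ^ J * Ub kc := UU_ratio_up kc J
  have hn0 : (0 : ℝ) ≤ n := Nat.cast_nonneg n
  have hn1 : (1 : ℝ) ≤ n := by exact_mod_cast hn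
  obtain ⟨r, hr⟩ : ∃ r, r = Ub (kc + J) / Ub kc := ⟨_, rfl⟩
  have hr1 : 1 ≤ r := by
    rw [hr, le_div_iff₀ hU, one_mul]
    exact Ub_mono (by omega)
  have hr0 : 0 ≤ r := by linarith
  have hrJ : r ≤ 2 ^ J := by
    rw [hr, div_le_iff₀ hU]
    exact hUJ
  have hqn : 1 ≤ q ^ n := one_le_pow₀ hq1
  -- the right functional
  obtain ⟨B, hB⟩ : ∃ B : ℝ, B = 64 * K2 * n * x * r * q ^ n := ⟨_, rfl⟩
  have hB0 : 0 ≤ B := by rw [hB]; positivity
  have hRx : xT (2 ^ (kc + 4)) kc (Rx W kp n Φ M 0) ≤ ENNReal.ofReal B := by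
    have h1 := rightX (Q := q) hK1 (by linarith) hK hK2 hN hW hx hΦ M 0
      (by rw [hW.zero]; omega)
    rw [hW.zero, Nat.sub_zero, ← hr, ← hB] at h1
    exact h1
  have hRh : HerD (2 ^ (kc + 4)) (Rx W kp n Φ M 0) := by
    have := herD_Rx (W := W) (kp := kp) (n := n) (Φ := Φ) M 0
    rwa [hW.zero] at this
  have hRD : Dm kc (xT (2 ^ (kc + 4)) kc (Rx W kp n Φ M 0)) (Rx W kp n Φ M 0) := hDm.dm kc _ hRh
  -- the special leaf
  obtain ⟨g, hg⟩ : ∃ g : ℝ, g = δ * (x + B) := ⟨_, rfl⟩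
  have hg0 : 0 ≤ g := by
    rw [hg]
    positivity
  have hrun : runF R (FX W kp n Φ M 0) = fun g => runF R (Φ 0) g + runF R (Rx W kp n Φ M 0) g := by
    funext g
    exact runF_add (Φ 0) (Rx W kp n Φ M 0) g
  have hG : xT (2 ^ (kc + 4)) kc (vA (2 ^ (kc + 4)) (HB (2 ^ (kc + 4))) (runF R (FX W kp n Φ M 0))) ≤
      ENNReal.ofReal g := by
    have e1 : ∀ t, vA (2 ^ (kc + 4)) (HB (2 ^ (kc + 4))) (runF R (FX W kp n Φ M 0)) t ≤
        vA (2 ^ (kc + 4)) (HB (2 ^ (kc + 4))) (runF R (Φ 0)) t +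
          vA (2 ^ (kc + 4)) (HB (2 ^ (kc + 4))) (runF R (Rx W kp n Φ M 0)) t := by
      intro t
      rw [hrun]
      exact (vA_add _ _ t).le
    refine (xT_mono e1).trans ((Ch.xT_add _ _ _ _).trans ((add_le_add
      ((hS.near _ _ hΦ0).trans (mul_le_mul_right hx0 _))
      ((hS.near _ _ hRD).trans (mul_le_mul_right hRx _))).trans (le_of_eq ?_)))
    rw [← ENNReal.ofReal_mul hδ, ← ENNReal.ofReal_mul hδ, ← ENNReal.ofReal_add (by positivity) (by positivity), hg]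
    congr 1
    ring
  have h1 : Rec8.sw (HB (2 ^ (kc + 4))) (fun z => Φ 0 (rev z) * runF R (FX W kp n Φ M 0) z) ≤
      ENNReal.ofReal (Ub kc * x * g) := by
    have e1 : Rec8.sw (HB (2 ^ (kc + 4))) (fun z => Φ 0 (rev z) * runF R (FX W kp n Φ M 0) z) =
        Rec8.sw (HB (2 ^ (kc + 4))) (fun z => Φ 0 (rev z) * runF R (Φ 0) z) +
          Rec8.sw (HB (2 ^ (kc + 4))) (fun z => Φ 0 (rev z) * runF R (Rx W kp n Φ M 0) z) := by
      rw [hrun]
      exact vA_mulr (fun z => Φ 0 (rev z)) (runF R (Φ 0)) (runF R (Rx W kp n Φ M 0))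
    rw [e1]
    refine (add_le_add ((hS.free _ _ _ _ hΦ0 hflp hΦ0).trans (mul_le_mul_right (mul_le_mul' hx0 hx0) _))
      ((hS.free _ _ _ _ hΦ0 hflp hRD).trans (mul_le_mul_right (mul_le_mul' hx0 hRx) _))).trans (le_of_eq ?_)
    rw [← ENNReal.ofReal_mul hx, ← ENNReal.ofReal_mul hx, ← ENNReal.ofReal_mul (by positivity),
      ← ENNReal.ofReal_mul (by positivity), ← ENNReal.ofReal_add (by positivity) (by positivity), hg]
    congr 1
    ring
  -- the left functional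
  obtain ⟨G, hGd⟩ : ∃ G, G = vA (2 ^ (kc + 4)) (HB (2 ^ (kc + 4))) (runF R (FX W kp n Φ M 0)) := ⟨_, rfl⟩
  have hGher : Hered G := by
    rw [hGd]
    exact hered_vA _ _ _
  rw [← hGd] at hG ⊢
  have hL := FB.left (Q := q) hK1 (by linarith) hg0 hK hW hGher hG
  have hpair : ∀ i, i < n → ∀ k1, k1 ≤ kp i → ∀ F : List Bool → ℝ≥0∞, Hered F → ∀ y : ℝ, 0 ≤ y →
      xT (2 ^ (k1 + 4)) k1 F ≤ ENNReal.ofReal y →
      Rec8.sw (W i) (fun z => Φ i (rev z) * F z) ≤ ENNReal.ofReal (32 * (K3 * K4) * Ub (kc + J) * x * y) := by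
    intro i hi k1 hk1 F hF y hy hFy
    have e0 : 2 ^ (k1 + 4) ≤ 2 ^ (kp i + 4) := Nat.pow_le_pow_right (by norm_num) (by omega)
    have e2 : 2 ^ (kp i + 4) ≤ 2 ^ (kp i + 5) := Nat.pow_le_pow_right (by norm_num) (by omega)
    refine (Rec8.sw_mono (hW.sub i hi) fun _ _ => le_rfl).trans ((hT (kp i) k1 _ _ _ _ (Φ i) F (hΦ i hi)
      (hX (2 ^ (k1 + 4)) k1 k1 F hF le_rfl le_rfl) le_rfl e0 e2).trans ?_)
    refine (mul_le_mul_right (mul_le_mul_right (mul_le_mul_right hFy _) _) _).trans ?_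
    rw [← ENNReal.ofReal_mul hK40, ← ENNReal.ofReal_mul hx,
      ← ENNReal.ofReal_mul (by have := Num2Aux.UU_pos (2 ^ (kp i + 5)); positivity)]
    apply ENNReal.ofReal_le_ofReal
    have h3 : UU (2 ^ (kp i + 5)) ≤ 2 ^ 5 * Ub (kp i) := UU_ratio_up (kp i) 5
    have h4 : Ub (kp i) ≤ Ub (kc + J) := Ub_mono (hW.top i hi)
    calc K3 * UU (2 ^ (kp i + 5)) * (x * (K4 * y)) ≤ K3 * (2 ^ 5 * Ub (kc + J)) * (x * (K4 * y)) := by
          gcongr
          linarith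
      _ = _ := by ring
  have h2 : ∀ i ∈ range n, Rec8.sw (W i) (fun z => Φ i (rev z) * FL W kp G M i z) ≤
      ENNReal.ofReal (32 * (K3 * K4) * Ub (kc + J) * x * (g * q ^ (i + 2))) := by
    intro i hi
    rw [Finset.mem_range] at hi
    have h0 : kc ≤ kp i := by
      rw [← hW.zero]
      exact hW.mono 0 i (Nat.zero_le i)
    have ha := hpair i hi kc h0 G hGher g hg0 hG
    cases M with
    | zero =>
      refine ha.trans ?_
      apply ENNReal.ofReal_le_ofReal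
      apply mul_le_mul_of_nonneg_left _ (by positivity)
      have : 1 ≤ q ^ (i + 2) := one_le_pow₀ hq1
      nlinarith
    | succ M =>
      have e : Rec8.sw (W i) (fun z => Φ i (rev z) * FL W kp G (M + 1) i z) =
          Rec8.sw (W i) (fun z => Φ i (rev z) * G z) +
          ∑ i' ∈ range (i + 1), Rec8.sw (W i) (fun z => Φ i (rev z) * vA (2 ^ (kp i' + 4)) (W i') (FL W kp G M i') z) := by
        rw [← Rec8.sw_sum, ← Rec8.sw_add]
        refine Rec8.sw_congr fun z _ => ?_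
        rw [← Finset.mul_sum, ← mul_add]
        rfl
      rw [e]
      have hL' := FB.left (Q := q) hK1 (by linarith) hg0 hK hW hGher hG M
      have hb : ∀ i' ∈ range (i + 1), Rec8.sw (W i) (fun z => Φ i (rev z) *
            vA (2 ^ (kp i' + 4)) (W i') (FL W kp G M i') z) ≤
          ENNReal.ofReal (32 * (K3 * K4) * Ub (kc + J) * x * (q ^ (i' + 1) * g)) := by
        intro i' hi'
        rw [Finset.mem_range] at hi'
        exact hpair i hi (kp i') (hW.mono i' i (by omega)) _ (hered_vA _ _ _) _ (by positivity) (hL' i' (by omega))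
      refine (add_le_add ha (Finset.sum_le_sum hb)).trans ?_
      rw [← ENNReal.ofReal_sum_of_nonneg (fun i' _ => by positivity),
        ← ENNReal.ofReal_add (by positivity) (by positivity)]
      apply ENNReal.ofReal_le_ofReal
      rw [← Finset.mul_sum, ← mul_add]
      apply mul_le_mul_of_nonneg_left _ (by positivity)
      rw [← Finset.sum_mul]
      have h3 := FB.geoL (Q := q) (i + 1)
      have h4 : ∑ i' ∈ range (i + 1), q ^ (i' + 1) ≤ q ^ (i + 1 + 1) - q := by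
        have h5 : 0 ≤ ∑ i' ∈ range (i + 1), q ^ (i' + 1) := Finset.sum_nonneg fun _ _ => by positivity
        nlinarith
      have h5 : 1 + ∑ i' ∈ range (i + 1), q ^ (i' + 1) ≤ q ^ (i + 2) := by linarith
      calc g + (∑ i' ∈ range (i + 1), q ^ (i' + 1)) * g = g * (1 + ∑ i' ∈ range (i + 1), q ^ (i' + 1)) := by ring
        _ ≤ g * q ^ (i + 2) := mul_le_mul_of_nonneg_left h5 hg0
  refine (add_le_add h1 (Finset.sum_le_sum h2)).trans ?_
  rw [← ENNReal.ofReal_sum_of_nonneg (fun i' _ => by positivity), ← ENNReal.ofReal_add (by positivity) (by positivity)]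
  apply ENNReal.ofReal_le_ofReal
  rw [← Finset.mul_sum, ← Finset.mul_sum]
  have h3 : ∑ i ∈ range n, q ^ (i + 2) ≤ q ^ (n + 2) := by
    have h4 := FB.geoL (Q := q) n
    have h5 : ∑ i ∈ range n, q ^ (i + 2) = q * ∑ i ∈ range n, q ^ (i + 1) := by
      rw [Finset.mul_sum]
      exact Finset.sum_congr rfl fun i _ => by ring
    have h6 : 0 ≤ ∑ i ∈ range n, q ^ (i + 1) := Finset.sum_nonneg fun _ _ => by positivity
    have h7 : ∑ i ∈ range n, q ^ (i + 1) ≤ q ^ (n + 1) := by nlinarith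
    rw [h5]
    calc q * ∑ i ∈ range n, q ^ (i + 1) ≤ q * q ^ (n + 1) := mul_le_mul_of_nonneg_left h7 hq0
      _ = q ^ (n + 2) := by ring
  have hUU : Ub kc ≤ Ub (kc + J) := Ub_mono (by omega)
  have hK34 : 1 ≤ K3 * K4 := one_le_mul_of_one_le_of_one_le hK3 hK4
  have hqn2 : 1 ≤ q ^ (n + 2) := one_le_pow₀ hq1
  have h4 : Ub kc * x * g + 32 * (K3 * K4) * Ub (kc + J) * x * (g * ∑ i ∈ range n, q ^ (i + 2)) ≤
      33 * (K3 * K4) * Ub (kc + J) * x * g * q ^ (n + 2) := by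
    have a1 : Ub kc * x * g ≤ (K3 * K4) * Ub (kc + J) * x * g * q ^ (n + 2) := by
      have b1 : Ub kc ≤ (K3 * K4) * Ub (kc + J) * q ^ (n + 2) := by
        calc Ub kc ≤ Ub (kc + J) := hUU
          _ = 1 * Ub (kc + J) * 1 := by ring
          _ ≤ (K3 * K4) * Ub (kc + J) * q ^ (n + 2) := by gcongr
      calc Ub kc * x * g ≤ ((K3 * K4) * Ub (kc + J) * q ^ (n + 2)) * x * g := by gcongr
        _ = _ := by ring
    have a2 : 32 * (K3 * K4) * Ub (kc + J) * x * (g * ∑ i ∈ range n, q ^ (i + 2)) ≤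
        32 * (K3 * K4) * Ub (kc + J) * x * (g * q ^ (n + 2)) := by gcongr
    nlinarith [a1, a2]
  have h5 : g ≤ 65 * K2 * (δ * x) * (n * r * q ^ n) := by
    have a1 : 1 ≤ (n : ℝ) * r * q ^ n :=
      one_le_mul_of_one_le_of_one_le (one_le_mul_of_one_le_of_one_le hn1 hr1) hqn
    have a2 : δ * x ≤ K2 * (δ * x) * (n * r * q ^ n) := by
      have b1 : 1 ≤ K2 * (n * r * q ^ n) := one_le_mul_of_one_le_of_one_le hK2 a1
      calc δ * x = (δ * x) * 1 := (mul_one _).symm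
        _ ≤ (δ * x) * (K2 * (n * r * q ^ n)) := mul_le_mul_of_nonneg_left b1 (by positivity)
        _ = _ := by ring
    rw [hg, hB]
    calc δ * (x + 64 * K2 * n * x * r * q ^ n) = δ * x + 64 * (K2 * (δ * x) * (n * r * q ^ n)) := by ring
      _ ≤ K2 * (δ * x) * (n * r * q ^ n) + 64 * (K2 * (δ * x) * (n * r * q ^ n)) := by linarith
      _ = _ := by ring
  have h6 : (n : ℝ) ≤ q ^ n := by
    have a1 : n < 2 ^ n := Nat.lt_two_pow_self
    have a2 : (n : ℝ) ≤ 2 ^ n := by exact_mod_cast a1.le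
    exact a2.trans (pow_le_pow_left₀ (by norm_num) hq2 n)
  have h7 : r ≤ q ^ J := hrJ.trans (pow_le_pow_left₀ (by norm_num) hq2 J)
  have h8 : (n : ℝ) * r * q ^ n * q ^ (n + 2) ≤ (q ^ 3) ^ (n + J + 1) := by
    calc (n : ℝ) * r * q ^ n * q ^ (n + 2) ≤ q ^ n * q ^ J * q ^ n * q ^ (n + 2) := by gcongr
      _ = q ^ (n + J + n + (n + 2)) := by ring
      _ ≤ q ^ (3 * (n + J + 1)) := pow_le_pow_right₀ hq1 (by omega)
      _ = _ := by rw [pow_mul]
  have h9 : A ≤ A ^ (n + J + 1) := by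
    calc A = A ^ 1 := (pow_one _).symm
      _ ≤ _ := pow_le_pow_right₀ hA1 (by omega)
  calc Ub kc * x * g + 32 * (K3 * K4) * Ub (kc + J) * x * (g * ∑ i ∈ range n, q ^ (i + 2))
      ≤ 33 * (K3 * K4) * Ub (kc + J) * x * g * q ^ (n + 2) := h4
    _ ≤ 33 * (K3 * K4) * Ub (kc + J) * x * (65 * K2 * (δ * x) * (n * r * q ^ n)) * q ^ (n + 2) := by gcongr
    _ = A * (n * r * q ^ n * q ^ (n + 2)) * (δ * Ub (kc + J) * x ^ 2) := by
        rw [hAdef]
        ring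
    _ ≤ A ^ (n + J + 1) * (q ^ 3) ^ (n + J + 1) * (δ * Ub (kc + J) * x ^ 2) := by gcongr
    _ = (A * q ^ 3) ^ (n + J + 1) * δ * Ub (kc + J) * x ^ 2 := by
        rw [← mul_pow]
        ring

end NTA

end HexObs
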