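import Pool.Agent.NTA.GeoRun
import Pool.Agent.NTA.RunEvent
import Pool.Agent.NTW.EqJ

/-!
NTA: the event theorem for runs with its hypotheses plugged in (only the kernel bound SsA remains, NTW/KernU.ssA).
-/

set_option autoImplicit false

namespace HexObs

namespace NTA

open Finset TS SDN NTW

open scoped ENNReal

/-- **the event theorem for runs** -/
theorem eventRJ (hA : SsA) : EventR DmJ := eventR_of dmP geoRun coverVR hA ss3P ssDP

end NTA

end HexObs
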