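import Pool.Agent.NTA.TailDefs
import Pool.Agent.NTW.HgtDbl
import Pool.Agent.NTW.SeqQ
import Pool.Agent.NT.SeqEx

/-!
NTA (natural time, all scales): the normalised weight of the half plane words is doubling.
-/

set_option autoImplicit false

namespace HexObs

namespace NTA

open Finset TS SDN NTW

open scoped ENNReal

lemma QL_exists (L : ℕ) : ∃ lam', QL L lam' := by
  obtain ⟨l, hl⟩ := NTm.seq_exists (θ := 1 / 4) (by norm_num) (by norm_num)
  exact ⟨l L, QL_seq hl (by norm_num) L⟩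

lemma SSt_SA {N : ℕ} {W : List Bool} (h : W ∈ SSt N) : W ∈ SA := ⟨fun _ _ _ => Set.mem_univ _, h.inj⟩

/-- **the normalised weight of the half plane words is doubling** -/
theorem xDbl : XDbl := by
  obtain ⟨D, hD, hd⟩ := hgt_dbl
  refine ⟨D, hD, fun L => ?_⟩
  obtain ⟨lam', hQ⟩ := QL_exists L
  unfold Xb
  refine iSup_le fun i => ?_
  rcases Nat.lt_or_ge i.1 (L + 1) with hi | hi
  · refine (le_Xb (by omega : i.1 ≤ L)).trans ?_
    calc Xb L = ENNReal.ofReal 1 * Xb L := by rw [ENNReal.ofReal_one, one_mul]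
      _ ≤ _ := mul_le_mul_left (ENNReal.ofReal_le_ofReal hD) _
  · have e1 : i.1 = L + 1 := by
      have := i.2
      omega
    rw [e1]
    have hU : 0 < UU (2 ^ (L + 1)) := Num2Aux.UU_pos _
    have hU0 : ENNReal.ofReal (UU (2 ^ (L + 1))) ≠ 0 := (ENNReal.ofReal_pos.2 hU).ne'
    rw [ENNReal.div_le_iff hU0 ENNReal.ofReal_ne_top]
    have h1 : BAR.HH (2 ^ (L + 1)) ≤ gf {t | t ∈ SA ∧ t ∈ SSt (2 ^ (L + 1))} := gf_mono fun t ht => ⟨SSt_SA ht, ht⟩
    refine h1.trans (gf_SA_le fun lam => ?_)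
    have h2 : gf {t | t ∈ SAL lam ∧ t ∈ SSt (2 ^ (L + 1))} ≤ HHl (2 ^ (L + 1)) lam :=
      gf_mono fun t ht => ⟨ht.2, ht.1.2⟩
    have h3 : HHl (2 ^ (L + 1)) lam / ENNReal.ofReal (UU (2 ^ (L + 1))) ≤ bl lam (L + 1) := le_bl _ le_rfl
    rw [ENNReal.div_le_iff hU0 ENNReal.ofReal_ne_top] at h3
    refine h2.trans (h3.trans (mul_le_mul_left ?_ _))
    exact (hd L lam lam' hQ).trans (mul_le_mul_right (bl_le_Xb _ _) _)

end NTA

end HexObs
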