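import Pool.Agent.NTA.RunDir
import Pool.Agent.NTA.RunJ
import Pool.Agent.NTA.XDbl
import Pool.Agent.NTW.KernU

/-!
NTA: the event theorem for runs of interior leaves, both directions, no bound of the length, no hypothesis.
-/

set_option autoImplicit false

namespace HexObs

namespace NTA

open Finset TS SDN NTW

open scoped ENNReal

/-- doubling of Xb, several scales -/
lemma Xb_pow : ∃ C : ℝ, 1 ≤ C ∧ ∀ k j : ℕ, Xb (k + j) ≤ ENNReal.ofReal (C ^ j) * Xb k := by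
  obtain ⟨C, hC, h⟩ := xDbl
  refine ⟨C, hC, fun k j => ?_⟩
  induction j with
  | zero => simp
  | succ j ih =>
    calc Xb (k + (j + 1)) ≤ ENNReal.ofReal C * Xb (k + j) := h (k + j)
      _ ≤ ENNReal.ofReal C * (ENNReal.ofReal (C ^ j) * Xb k) := mul_le_mul_right ih _
      _ = ENNReal.ofReal (C ^ (j + 1)) * Xb k := by
          rw [← mul_assoc, ← ENNReal.ofReal_mul (by linarith), pow_succ']

/-- the event theorem for runs, any length -/
theorem runX_of {Dm : ℕ → ℝ≥0∞ → (List Bool → ℝ≥0∞) → Prop} (hE : EventR Dm) : ∃ (C : ℝ) (k0 : ℕ), 1 ≤ C ∧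
    ∀ (dir : Bool) (kc J : ℕ) (R : Set (List (List Bool))) (δ : ℝ), k0 ≤ kc → 6 ≤ J → 0 < δ → SmR Dm kc R δ →
    gf (ERL dir kc (kc + J) R) ≤ ENNReal.ofReal (C ^ J * δ * Ub (kc + J)) * Xb (kc + J) ^ 2 := by
  obtain ⟨C0, k0, hC0, h0⟩ := eventRL_of hE
  obtain ⟨D, hD, hDX⟩ := Xb_pow
  have hC0' : 0 ≤ C0 := by linarith
  have hD0 : 0 ≤ D := by linarith
  refine ⟨C0 * D ^ 22, k0, ?_, fun dir kc J R δ hk hJ hδ hS => ?_⟩
  · have : 1 ≤ D ^ 22 := one_le_pow₀ hD
    nlinarith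
  · have hUp := Ub_pos (kc + J)
    obtain ⟨lam', hQ⟩ := QL_exists (kc + J + 11)
    have h1 : gf {t | t ∈ SA ∧ t ∈ ERL dir kc (kc + J) R} ≤
        ENNReal.ofReal (C0 ^ J * δ * Ub (kc + J)) * (Xb (kc + J + 11)) ^ 2 := by
      refine gf_SA_le fun lam => (h0 dir kc J lam lam' R δ hk hJ hδ hQ hS).trans ?_
      exact mul_le_mul_right (pow_le_pow_left' (bl_le_Xb _ _) 2) _
    refine (gf_mono fun t ht => ?_).trans (h1.trans ?_)
    · exact ⟨ht.1.1, ht⟩
    · calc ENNReal.ofReal (C0 ^ J * δ * Ub (kc + J)) * (Xb (kc + J + 11)) ^ 2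
          ≤ ENNReal.ofReal (C0 ^ J * δ * Ub (kc + J)) * (ENNReal.ofReal (D ^ 11) * Xb (kc + J)) ^ 2 := by
            exact mul_le_mul_right (pow_le_pow_left' (hDX (kc + J) 11) 2) _
        _ = ENNReal.ofReal (C0 ^ J * D ^ 22 * δ * Ub (kc + J)) * Xb (kc + J) ^ 2 := by
            rw [mul_pow, ← ENNReal.ofReal_pow (by positivity), ← mul_assoc, ← ENNReal.ofReal_mul (by positivity)]
            congr 2
            ring
        _ ≤ _ := by
            refine mul_le_mul_left (ENNReal.ofReal_le_ofReal ?_) _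
            have e1 : D ^ 22 ≤ (D ^ 22) ^ J := by
              calc D ^ 22 = (D ^ 22) ^ 1 := by rw [pow_one]
                _ ≤ (D ^ 22) ^ J := pow_le_pow_right₀ (one_le_pow₀ hD) (by omega)
            rw [mul_pow]
            gcongr

/-- **the event theorem for runs of interior leaves, both directions, any length** -/
theorem runX : ∃ (C : ℝ) (k0 : ℕ), 1 ≤ C ∧
    ∀ (dir : Bool) (kc J : ℕ) (R : Set (List (List Bool))) (δ : ℝ), k0 ≤ kc → 6 ≤ J → 0 < δ → SmR DmJ kc R δ →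
    gf (ERL dir kc (kc + J) R) ≤ ENNReal.ofReal (C ^ J * δ * Ub (kc + J)) * Xb (kc + J) ^ 2 := by
  obtain ⟨Ci, δi, hI⟩ := inp_exists
  exact runX_of (eventRJ (ssA hI))

end NTA

end HexObs
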