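import Pool.Agent.NTA.RunDefs
import Pool.Agent.NTW.EqSum

/-!
NTA: the sum over the monotone chains with a marked run.
-/

set_option autoImplicit false

namespace HexObs

namespace NTA

open Finset TS SDN SDN.CN NTm NTW

open scoped ENNReal

/-- a run in R beginning with g, a right part with at most M pieces -/
def MidR (W : ℕ → Set (List Bool)) (n M : ℕ) (R : Set (List (List Bool))) (Φ : ℕ → List Bool → ℝ≥0∞) (g : List Bool)
    (gs : List (List Bool)) (c : ℝ≥0∞) : Prop :=
  ∃ ms rs, gs = ms ++ rs ∧ (g :: ms) ∈ R ∧ rs.length ≤ M ∧ IncE W n Φ rs 0 ((g :: ms).getLastD []) c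

/-- windows number < i in decreasing order, a run in R, a right part with at most M pieces -/
def DecR (W : ℕ → Set (List Bool)) (n M : ℕ) (R : Set (List (List Bool))) (Φ : ℕ → List Bool → ℝ≥0∞) :
    List (List Bool) → ℕ → ℝ≥0∞ → Prop
  | [], _, _ => False
  | g :: gs, i, c => MidR W n M R Φ g gs c ∨ ∃ i', i' < i ∧ g ∈ W i' ∧ DecR W n M R Φ gs (i' + 1) c

/-- the whole chain; a = the weight of the end before the first piece -/
def TotR (W : ℕ → Set (List Bool)) (n M : ℕ) (R : Set (List (List Bool))) (Φ : ℕ → List Bool → ℝ≥0∞) :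
    List (List Bool) → ℝ≥0∞ → ℝ≥0∞ → Prop
  | [], _, _ => False
  | g :: gs, a, c => (a ≤ Φ 0 (rev g) ∧ MidR W n M R Φ g gs c) ∨
      ∃ i, i < n ∧ g ∈ W i ∧ a ≤ Φ i (rev g) ∧ DecR W n M R Φ gs (i + 1) c

namespace RF

lemma wl_append (a b : List (List Bool)) : SDN.wl (a ++ b) = SDN.wl a * SDN.wl b := by
  unfold SDN.wl
  rw [List.map_append, List.prod_append]

lemma chain_split {g : List Bool} {ms rs : List (List Bool)} (h : (g :: (ms ++ rs)).IsChain LFold) :
    (g :: ms).IsChain LFold ∧ ((g :: ms).getLastD [] :: rs).IsChain LFold := by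
  induction ms generalizing g with
  | nil => exact ⟨List.isChain_singleton g, h⟩
  | cons a ms ih =>
    rw [List.cons_append, List.isChain_cons_cons] at h
    obtain ⟨h1, h2⟩ := ih h.2
    exact ⟨List.isChain_cons_cons.2 ⟨h.1, h1⟩, h2⟩

/-- a sum over lists is at most a sum over pairs of lists -/
lemma tsum_app {F : List (List Bool) → ℝ≥0∞} {H : List (List Bool) → List (List Bool) → ℝ≥0∞}
    (h : ∀ gs, F gs = 0 ∨ ∃ ms rs, gs = ms ++ rs ∧ F gs ≤ H ms rs) :
    ∑' gs, F gs ≤ ∑' ms, ∑' rs, H ms rs := by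
  classical
  have h1 : ∀ gs, F gs ≤ ∑' ms, ∑' rs, if gs = ms ++ rs then H ms rs else 0 := by
    intro gs
    rcases h gs with h0 | ⟨ms, rs, h1, h2⟩
    · rw [h0]
      exact zero_le
    · refine h2.trans ?_
      refine le_trans ?_ (ENNReal.le_tsum ms)
      refine le_trans ?_ (ENNReal.le_tsum rs)
      rw [if_pos h1]
  refine (ENNReal.tsum_le_tsum h1).trans (le_of_eq ?_)
  rw [ENNReal.tsum_comm]
  refine tsum_congr fun ms => ?_
  rw [ENNReal.tsum_comm]
  refine tsum_congr fun rs => ?_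
  exact tsum_ite_eq (ms ++ rs) (fun _ => H ms rs)

variable {kc J n : ℕ} {W : ℕ → Set (List Bool)} {kp : ℕ → ℕ} {Φ : ℕ → List Bool → ℝ≥0∞} {R : Set (List (List Bool))}

open Classical in
/-- the runs and right parts behind g -/
lemma mid_le (hW : Wnd kc J n W kp) (hR : ∀ gs ∈ R, ∀ g ∈ gs, g ∈ HB (2 ^ (kc + 4))) (M : ℕ) (g : List Bool)
    (w : List (List Bool) → ℝ≥0∞) :
    (∑' gs : List (List Bool), if (g :: gs).IsChain LFold ∧ MidR W n M R Φ g gs (w gs) then SDN.wl gs * w gs else 0) ≤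
      runF R (FX W kp n Φ M 0) g := by
  refine (tsum_app (H := fun ms rs => if ((g :: ms) ∈ R ∧ (g :: ms).IsChain LFold) ∧ (rs.length ≤ M ∧
    ((g :: ms).getLastD [] :: rs).IsChain LFold ∧ IncE W n Φ rs 0 ((g :: ms).getLastD []) (w (ms ++ rs))) then
    SDN.wl ms * (SDN.wl rs * w (ms ++ rs)) else 0) ?_).trans ?_
  · intro gs
    by_cases h : (g :: gs).IsChain LFold ∧ MidR W n M R Φ g gs (w gs)
    · right
      obtain ⟨h1, ms, rs, rfl, h2, h3, h4⟩ := h
      obtain ⟨c1, c2⟩ := chain_split h1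
      refine ⟨ms, rs, rfl, ?_⟩
      rw [if_pos ⟨h1, ms, rs, rfl, h2, h3, h4⟩, if_pos ⟨⟨h2, c1⟩, h3, c2, h4⟩, wl_append, mul_assoc]
    · left
      rw [if_neg h]
  · unfold runF
    refine ENNReal.tsum_le_tsum fun ms => ?_
    by_cases h : (g :: ms) ∈ R ∧ (g :: ms).IsChain LFold
    · rw [if_pos h]
      have hlast : (g :: ms).getLastD [] ∈ HB (2 ^ (kc + 4)) := by
        refine hR _ h.1 _ ?_
        rw [List.getLastD_eq_getLast?, List.getLast?_eq_getLast_of_ne_nil (List.cons_ne_nil _ _), Option.getD_some]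
        exact List.getLast_mem _
      have h1 := QF.TR_leX (Φ := Φ) hW M 0 ((g :: ms).getLastD []) (fun rs => w (ms ++ rs)) (by
        rw [hW.zero]
        exact hlast)
      refine le_trans (le_of_eq ?_) (mul_le_mul_right h1 _)
      rw [← ENNReal.tsum_mul_left]
      refine tsum_congr fun rs => ?_
      by_cases h2 : rs.length ≤ M ∧ ((g :: ms).getLastD [] :: rs).IsChain LFold ∧
          IncE W n Φ rs 0 ((g :: ms).getLastD []) (w (ms ++ rs))
      · rw [if_pos ⟨h, h2⟩, if_pos h2]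
      · rw [if_neg fun h3 => h2 h3.2, if_neg h2, mul_zero]
    · rw [if_neg h]
      apply le_of_eq
      rw [ENNReal.tsum_eq_zero]
      intro rs
      rw [if_neg fun h3 => h h3.1]

lemma mid_HB (hR : ∀ gs ∈ R, ∀ g ∈ gs, g ∈ HB (2 ^ (kc + 4))) {M : ℕ} {g : List Bool} {gs : List (List Bool)}
    {c : ℝ≥0∞} (h : MidR W n M R Φ g gs c) : g ∈ HB (2 ^ (kc + 4)) := by
  obtain ⟨ms, rs, -, h2, -⟩ := h
  exact hR _ h2 g List.mem_cons_self

open Classical in
/-- left chains, a run in R and right chains behind the leaf g -/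
lemma TL_leR (hW : Wnd kc J n W kp) (hR : ∀ gs ∈ R, ∀ g ∈ gs, g ∈ HB (2 ^ (kc + 4))) (M M' : ℕ) :
    ∀ (i : ℕ) (g : List Bool) (w : List (List Bool) → ℝ≥0∞), i < n → g ∈ HB (2 ^ (kp i + 4)) →
    (∑' gs : List (List Bool), if gs.length ≤ M' + 1 ∧ (g :: gs).IsChain LFold ∧ DecR W n M R Φ gs (i + 1) (w gs) then
      SDN.wl gs * w gs else 0) ≤
      FL W kp (vA (2 ^ (kc + 4)) (HB (2 ^ (kc + 4))) (runF R (FX W kp n Φ M 0))) M' i g := by
  have hmono : ∀ (i i' : ℕ) (g : List Bool), i' ≤ i → g ∈ HB (2 ^ (kp i + 4)) → g ∈ HB (2 ^ (kp i' + 4)) := by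
    rintro i i' g hi ⟨h, a1, a2⟩
    exact ⟨h, (Nat.pow_le_pow_right (by norm_num) (Nat.add_le_add_right (hW.mono i' i hi) 4)).trans a1, a2⟩
  induction M' with
  | zero =>
    intro i g w hi hg
    have hg0 : g ∈ HB (2 ^ (kc + 4)) := by
      have := hmono i 0 g (Nat.zero_le i) hg
      rwa [hW.zero] at this
    refine (CCh.tsum_list _ ?_).trans ?_
    · rw [if_neg]
      rintro ⟨-, -, h⟩
      exact h
    · refine (QF.sum_consW (range 1) (fun _ => {g' | g' ∈ HB (2 ^ (kc + 4)) ∧ RT (2 ^ (kc + 4)) LFold g g'})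
        (fun _ => runF R (FX W kp n Φ M 0)) w
        (fun gs => gs.length ≤ 0 + 1 ∧ (g :: gs).IsChain LFold ∧ DecR W n M R Φ gs (i + 1) (w gs))
        (fun _ g' gs => (g' :: gs).IsChain LFold ∧ MidR W n M R Φ g' gs (w (g' :: gs))) ?_ ?_).trans ?_
      · rintro g' gs ⟨h1, h2, h3⟩
        rw [List.isChain_cons_cons] at h2
        rw [List.length_cons] at h1
        have h0 : gs = [] := List.length_eq_zero_iff.1 (by omega)
        rcases h3 with h4 | ⟨i', h4, h5, h6⟩
        · exact ⟨0, Finset.mem_range.2 (by omega), ⟨mid_HB hR h4, RT_of hg0 h2.1⟩, h2.2, h4⟩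
        · rw [h0] at h6
          exact h6.elim
      · rintro _ _ g' -
        exact mid_le hW hR M g' (fun gs => w (g' :: gs))
      · rw [Finset.sum_range_one]
        exact le_rfl
  | succ M' ih =>
    intro i g w hi hg
    have hg0 : g ∈ HB (2 ^ (kc + 4)) := by
      have := hmono i 0 g (Nat.zero_le i) hg
      rwa [hW.zero] at this
    refine (CCh.tsum_list _ ?_).trans ?_
    · rw [if_neg]
      rintro ⟨-, -, h⟩
      exact h
    · refine (QF.sum_consW (range (i + 1 + 1)) (fun j => if j = 0 then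
          {g' | g' ∈ HB (2 ^ (kc + 4)) ∧ RT (2 ^ (kc + 4)) LFold g g'} else
          {g' | g' ∈ W (j - 1) ∧ RT (2 ^ (kp (j - 1) + 4)) LFold g g'})
        (fun j => if j = 0 then runF R (FX W kp n Φ M 0) else
          FL W kp (vA (2 ^ (kc + 4)) (HB (2 ^ (kc + 4))) (runF R (FX W kp n Φ M 0))) M' (j - 1)) w
        (fun gs => gs.length ≤ M' + 1 + 1 ∧ (g :: gs).IsChain LFold ∧ DecR W n M R Φ gs (i + 1) (w gs))
        (fun j g' gs => if j = 0 then (g' :: gs).IsChain LFold ∧ MidR W n M R Φ g' gs (w (g' :: gs)) else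
          gs.length ≤ M' + 1 ∧ (g' :: gs).IsChain LFold ∧ DecR W n M R Φ gs (j - 1 + 1) (w (g' :: gs))) ?_ ?_).trans ?_
      · rintro g' gs ⟨h1, h2, h3⟩
        rw [List.isChain_cons_cons] at h2
        rw [List.length_cons] at h1
        rcases h3 with h4 | ⟨i', h4, h5, h6⟩
        · refine ⟨0, Finset.mem_range.2 (by omega), ?_, ?_⟩
          · rw [if_pos rfl]
            exact ⟨mid_HB hR h4, RT_of hg0 h2.1⟩
          · rw [if_pos rfl]
            exact ⟨h2.2, h4⟩
        · refine ⟨i' + 1, Finset.mem_range.2 (by omega), ?_, ?_⟩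
          · rw [if_neg (by omega), Nat.add_sub_cancel]
            exact ⟨h5, RT_of (hmono i i' g (by omega) hg) h2.1⟩
          · rw [if_neg (by omega), Nat.add_sub_cancel]
            exact ⟨by omega, h2.2, h6⟩
      · rintro j hj g' h5
        rcases Nat.eq_zero_or_pos j with h0 | h0
        · rw [if_pos h0] at h5 ⊢
          simp only [if_pos h0]
          exact mid_le hW hR M g' (fun gs => w (g' :: gs))
        · rw [if_neg (by omega)] at h5 ⊢
          simp only [if_neg (show j ≠ 0 by omega)]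
          have hjn : j - 1 < n := by
            have := Finset.mem_range.1 hj
            omega
          obtain ⟨h, a1, a2, a3⟩ := hW.sub (j - 1) hjn h5.1
          exact ih (j - 1) g' (fun gs => w (g' :: gs)) hjn ⟨h, a1, a3⟩
      · rw [Finset.sum_range_succ', if_pos rfl, if_pos rfl, add_comm]
        refine add_le_add le_rfl (le_of_eq (Finset.sum_congr rfl fun j _ => ?_))
        rw [if_neg (Nat.succ_ne_zero j), if_neg (Nat.succ_ne_zero j), Nat.add_sub_cancel]
        rfl

end RF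

open RF in
open Classical in
/-- **the sum over the chains** -/
theorem chain_massR {kc J n : ℕ} {W : ℕ → Set (List Bool)} {kp : ℕ → ℕ} {Φ : ℕ → List Bool → ℝ≥0∞} (hW : Wnd kc J n W kp)
    {R : Set (List (List Bool))} (hR : ∀ gs ∈ R, ∀ g ∈ gs, g ∈ HB (2 ^ (kc + 4))) (M : ℕ)
    (w0 w1 : List (List Bool) → ℝ≥0∞) (h0 : ∀ g gs, w0 (g :: gs) = w0 [g]) :
    (∑' gs : List (List Bool), if gs.length ≤ M ∧ gs.IsChain LFold ∧ TotR W n M R Φ gs (w0 gs) (w1 gs) then
      SDN.wl gs * (w0 gs * w1 gs) else 0) ≤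
      Rec8.sw (HB (2 ^ (kc + 4))) (fun g => Φ 0 (rev g) * runF R (FX W kp n Φ M 0) g) +
        ∑ i ∈ range n, Rec8.sw (W i) (fun g => Φ i (rev g) *
          FL W kp (vA (2 ^ (kc + 4)) (HB (2 ^ (kc + 4))) (runF R (FX W kp n Φ M 0))) M i g) := by
  refine (CCh.tsum_list _ ?_).trans ?_
  · rw [if_neg]
    rintro ⟨-, -, h⟩
    exact h
  · refine (QF.sum_consW (range (n + 1)) (fun j => if j = 0 then HB (2 ^ (kc + 4)) else W (j - 1))
      (fun j => if j = 0 then (fun g => Φ 0 (rev g) * runF R (FX W kp n Φ M 0) g) else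
        (fun g => Φ (j - 1) (rev g) *
          FL W kp (vA (2 ^ (kc + 4)) (HB (2 ^ (kc + 4))) (runF R (FX W kp n Φ M 0))) M (j - 1) g))
      (fun gs => w0 gs * w1 gs)
      (fun gs => gs.length ≤ M ∧ gs.IsChain LFold ∧ TotR W n M R Φ gs (w0 gs) (w1 gs))
      (fun j g' gs => if j = 0 then w0 [g'] ≤ Φ 0 (rev g') ∧ (g' :: gs).IsChain LFold ∧
          MidR W n M R Φ g' gs (w1 (g' :: gs)) else
        w0 [g'] ≤ Φ (j - 1) (rev g') ∧ gs.length ≤ M + 1 ∧ (g' :: gs).IsChain LFold ∧
          DecR W n M R Φ gs (j - 1 + 1) (w1 (g' :: gs))) ?_ ?_).trans ?_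
    · rintro g' gs ⟨h1, h2, h3⟩
      rw [List.length_cons] at h1
      rcases h3 with ⟨h7, h4⟩ | ⟨i', h4, h5, h7, h6⟩
      · refine ⟨0, Finset.mem_range.2 (by omega), ?_, ?_⟩
        · rw [if_pos rfl]
          exact mid_HB hR h4
        · rw [if_pos rfl]
          rw [h0] at h7
          exact ⟨h7, h2, h4⟩
      · refine ⟨i' + 1, Finset.mem_range.2 (by omega), ?_, ?_⟩
        · rw [if_neg (by omega), Nat.add_sub_cancel]
          exact h5
        · rw [if_neg (by omega), Nat.add_sub_cancel]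
          rw [h0] at h7
          exact ⟨h7, by omega, h2, h6⟩
    · rintro j hj g' h5
      rcases Nat.eq_zero_or_pos j with hj0 | hj0
      · rw [if_pos hj0] at h5 ⊢
        simp only [if_pos hj0]
        have hT := mid_le (Φ := Φ) hW hR M g' (fun gs => w1 (g' :: gs))
        by_cases hw : w0 [g'] ≤ Φ 0 (rev g')
        · refine le_trans ?_ (mul_le_mul' hw hT)
          rw [← ENNReal.tsum_mul_left]
          refine ENNReal.tsum_le_tsum fun gs => ?_
          by_cases hc : (g' :: gs).IsChain LFold ∧ MidR W n M R Φ g' gs (w1 (g' :: gs))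
          · rw [if_pos ⟨hw, hc⟩, if_pos hc, h0]
            apply le_of_eq
            ring
          · rw [if_neg fun h => hc h.2]
            exact zero_le
        · refine le_trans (le_of_eq ?_) zero_le
          rw [ENNReal.tsum_eq_zero]
          intro gs
          rw [if_neg fun h => hw h.1]
      · rw [if_neg (by omega)] at h5 ⊢
        simp only [if_neg (show j ≠ 0 by omega)]
        have hjn : j - 1 < n := by
          have := Finset.mem_range.1 hj
          omega
        obtain ⟨h, a1, a2, a3⟩ := hW.sub (j - 1) hjn h5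
        have hT := TL_leR (Φ := Φ) hW hR M M (j - 1) g' (fun gs => w1 (g' :: gs)) hjn ⟨h, a1, a3⟩
        by_cases hw : w0 [g'] ≤ Φ (j - 1) (rev g')
        · refine le_trans ?_ (mul_le_mul' hw hT)
          rw [← ENNReal.tsum_mul_left]
          refine ENNReal.tsum_le_tsum fun gs => ?_
          by_cases hc : gs.length ≤ M + 1 ∧ (g' :: gs).IsChain LFold ∧ DecR W n M R Φ gs (j - 1 + 1) (w1 (g' :: gs))
          · rw [if_pos ⟨hw, hc⟩, if_pos hc, h0]
            apply le_of_eq
            ring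
          · rw [if_neg fun h => hc h.2]
            exact zero_le
        · refine le_trans (le_of_eq ?_) zero_le
          rw [ENNReal.tsum_eq_zero]
          intro gs
          rw [if_neg fun h => hw h.1]
    · rw [Finset.sum_range_succ', if_pos rfl, if_pos rfl, add_comm]
      refine add_le_add le_rfl (le_of_eq (Finset.sum_congr rfl fun j _ => ?_))
      rw [if_neg (Nat.succ_ne_zero j), if_neg (Nat.succ_ne_zero j), Nat.add_sub_cancel]

end NTA

end HexObs
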