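import Pool.Agent.NTW.Scales
import Pool.Agent.NT.Quant

/-!
NTA (natural time, all scales): the literal statements. The sequence m is the mean length of the bridges of the scale k.
-/

set_option autoImplicit false

namespace HexObs

namespace NTA

open Finset TS SDN NTW

open scoped ENNReal

/-- normalised weight of the half plane words, largest value up to the scale L, no bound of the length -/
noncomputable def Xb (L : ℕ) : ℝ≥0∞ := ⨆ i : Fin (L + 1), BAR.HH (2 ^ i.1) / ENNReal.ofReal (UU (2 ^ i.1))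

/-- tail of the lengths of the words of the box -/
def TA (m : ℕ → ℝ) : Prop := ∀ Q : ℕ, ∃ A : ℝ, 0 < A ∧ ∀ (k : ℕ) (lam : ℝ), 1 ≤ lam →
  gf {t | t ∈ WL k ∧ lam * m k ≤ (t.length : ℝ)} ≤ ENNReal.ofReal (A / lam ^ Q * Ub k) * Xb k ^ 2

/-- tail of the lengths of the bridges -/
def TB (m : ℕ → ℝ) : Prop := ∀ Q : ℕ, ∃ A : ℝ, 0 < A ∧ ∀ (k : ℕ) (lam : ℝ), 1 ≤ lam →
  NTm.TL (2 ^ k) (lam * m k) ≤ ENNReal.ofReal (A / lam ^ Q * Ub k)

/-- the sequence grows at least like 2 ^ (5 k / 4) -/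
structure MLow (m : ℕ → ℝ) : Prop where
  pos : ∀ k, 0 < m k
  low : ∀ k j : ℕ, (2 : ℝ) ^ (5 / 4 * (j : ℝ)) * m k ≤ m (k + j)

/-- the sequence is doubling -/
def MUp (m : ℕ → ℝ) : Prop := ∃ C : ℝ, 1 ≤ C ∧ ∀ k, m (k + 1) ≤ C * m k

/-- the normalised half plane weight is doubling -/
def XDbl : Prop := ∃ C : ℝ, 1 ≤ C ∧ ∀ L, Xb (L + 1) ≤ ENNReal.ofReal C * Xb L

/-- a proportion of the bridges has at least c m k letters -/
def C1 (m : ℕ → ℝ) : Prop := ∃ c c' : ℝ, 0 < c ∧ 0 < c' ∧ ∀ k, ENNReal.ofReal (c' * Ub k) ≤ NTm.TL (2 ^ k) (c * m k)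

/-! ### Elementary properties of Xb -/

lemma le_Xb {i L : ℕ} (h : i ≤ L) : BAR.HH (2 ^ i) / ENNReal.ofReal (UU (2 ^ i)) ≤ Xb L :=
  le_iSup (fun i : Fin (L + 1) => BAR.HH (2 ^ i.1) / ENNReal.ofReal (UU (2 ^ i.1))) ⟨i, by omega⟩

lemma Xb_mono {i j : ℕ} (h : i ≤ j) : Xb i ≤ Xb j := iSup_le fun q => le_Xb (by have := q.2; omega)

lemma bl_le_Xb (lam L : ℕ) : bl lam L ≤ Xb L :=
  iSup_le fun i => (ENNReal.div_le_div_right (Sc.HHl_le_HH _ _) _).trans (le_Xb (by have := i.2; omega))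

lemma HH_le_Xb {i L : ℕ} (h : i ≤ L) : BAR.HH (2 ^ i) ≤ ENNReal.ofReal (UU (2 ^ i)) * Xb L := by
  have h1 := le_Xb h
  rw [ENNReal.div_le_iff (by simpa using Num2Aux.UU_pos _) ENNReal.ofReal_ne_top] at h1
  rwa [mul_comm] at h1

lemma Xb_ne_zero (L : ℕ) : Xb L ≠ 0 := fun h => Sc.bl_ne_zero 0 L (le_antisymm (h ▸ bl_le_Xb 0 L) zero_le)

lemma Xb_ne_top (L : ℕ) : Xb L ≠ ⊤ := by
  obtain ⟨A, B, hA, hB, h⟩ := BAR.HH_poly
  obtain ⟨i, hi⟩ : ∃ i : Fin (L + 1), Xb L = BAR.HH (2 ^ i.1) / ENNReal.ofReal (UU (2 ^ i.1)) := by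
    obtain ⟨i, hi⟩ := Finite.exists_max fun i : Fin (L + 1) => BAR.HH (2 ^ i.1) / ENNReal.ofReal (UU (2 ^ i.1))
    exact ⟨i, le_antisymm (iSup_le hi) (le_Xb (by have := i.2; omega))⟩
  rw [hi]
  refine ENNReal.div_ne_top (ne_top_of_le_ne_top ENNReal.ofReal_ne_top (h _ Nat.one_le_two_pow)) ?_
  simpa using Num2Aux.UU_pos _

/-- no bound of the length -/
lemma gf_SA_le {E : Set (List Bool)} {c : ℝ≥0∞} (h : ∀ lam : ℕ, gf {t | t ∈ SAL lam ∧ t ∈ E} ≤ c) :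
    gf {t | t ∈ SA ∧ t ∈ E} ≤ c := by
  have h1 : ∀ s : Finset (List Bool), ↑s ⊆ {t | t ∈ SA ∧ t ∈ E} → gf ↑s ≤ c := by
    intro s hs
    refine (gf_mono fun t ht => ?_).trans (h (s.sup List.length))
    obtain ⟨h2, h3⟩ := hs ht
    exact ⟨⟨h2, Finset.le_sup (f := List.length) ht⟩, h3⟩
  unfold gf
  rw [ENNReal.tsum_eq_iSup_sum]
  refine iSup_le fun s => ?_
  have h2 := h1 (s.map (Function.Embedding.subtype _)) (by
    intro t ht
    rw [Finset.mem_coe, Finset.mem_map] at ht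
    obtain ⟨x, -, rfl⟩ := ht
    exact x.2)
  refine le_trans (le_of_eq ?_) h2
  unfold gf
  rw [Finset.tsum_subtype' (s.map (Function.Embedding.subtype _)) wE, Finset.sum_map]
  rfl

end NTA

end HexObs
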