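import Pool.Agent.NTA.TailEns
import Pool.Agent.T2.Infix
import Pool.Agent.T2.PowS
import Pool.Agent.NT.Exps

/-!
NTA: the deep events (a wide end, an infix with too many letters) have a weight smaller than every power.
-/

set_option autoImplicit false

namespace HexObs

namespace NTA

open Finset TS SDN NTW T2

open scoped ENNReal

/-- **the weights of the deep events** -/
theorem deepN : DeepN := by
  intro η β Q hη hη8 hβ hQ
  obtain ⟨e, he⟩ : ∃ e : ℝ, e = (β - 4 / 3) / 2 := ⟨_, rfl⟩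
  have he0 : 0 < e := by
    rw [he]
    linarith
  obtain ⟨C, hC, hM⟩ := NTm.ExpsA.meanLen he0
  obtain ⟨Cp, hCp, hpoly⟩ := SAL_poly
  obtain ⟨Q1, hQ1⟩ : ∃ Q1 : ℝ, Q1 = Q + 2 + 4 * Cp := ⟨_, rfl⟩
  have hQ10 : 0 < Q1 := by
    rw [hQ1]
    linarith
  obtain ⟨L1, h1⟩ := near_box (κ := 1 / 4) hη hη8 (by norm_num) hQ10
  obtain ⟨L2, h2⟩ := pow_small (β := β) (Q := 4 * Q1) (by linarith : (1 : ℝ) ≤ 4 / 3 + e) hC hM (by linarith)
    (by linarith)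
  obtain ⟨D, hD⟩ : ∃ D : ℕ, 2 * Cp ^ 2 * (2 : ℝ) ^ (14 * Cp) ≤ (2 : ℝ) ^ D := by
    obtain ⟨D, hD⟩ := pow_unbounded_of_one_lt (2 * Cp ^ 2 * (2 : ℝ) ^ (14 * Cp)) (one_lt_two (α := ℝ))
    exact ⟨D, hD.le⟩
  refine ⟨max (max L1 (4 * L2)) (D + 1), fun k hk => ?_⟩
  have k1 : L1 ≤ k := (le_max_left _ _).trans ((le_max_left _ _).trans hk)
  have k2 : 4 * L2 ≤ k := (le_max_right _ _).trans ((le_max_left _ _).trans hk)
  have k3 : D + 1 ≤ k := (le_max_right _ _).trans hk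
  have hkR : (0 : ℝ) ≤ k := Nat.cast_nonneg k
  obtain ⟨A, hA⟩ : ∃ A : ℕ → Set (List Bool), ∀ b, A b =
    {v | ∃ h X, X ∈ Brd h ∧ h ≤ 2 ^ (ee η b) ∧ ¬ InBox X (2 ^ (ff η b)) ∧ v = X.dropLast} ∪
      {v | v ∈ WL b ∧ (2 : ℝ) ^ (β * b) ≤ v.length} := ⟨_, fun _ => rfl⟩
  have hAb : ∀ b ∈ (Finset.range (k + 1)).filter (fun b => k ≤ 4 * b),
      gf (A b) ≤ ENNReal.ofReal (2 * (2 : ℝ) ^ (-(Q1 * k))) := by
    intro b hb
    rw [Finset.mem_filter, Finset.mem_range] at hb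
    have hbR : (k : ℝ) ≤ 4 * b := by exact_mod_cast hb.2
    have a1 := h1 k b k1 (by linarith) (by omega)
    have a2 := h2 b (by omega)
    have a3 : (2 : ℝ) ^ (-(4 * Q1 * b)) ≤ (2 : ℝ) ^ (-(Q1 * k)) := by
      apply Real.rpow_le_rpow_of_exponent_le (by norm_num)
      nlinarith
    rw [hA]
    refine (gf_union_le _ _).trans ((add_le_add a1 (a2.trans (ENNReal.ofReal_le_ofReal a3))).trans ?_)
    rw [← ENNReal.ofReal_add (by positivity) (by positivity), ← two_mul]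
  have hsub : Deep η β k ⊆ ⋃ b ∈ (Finset.range (k + 1)).filter (fun b => k ≤ 4 * b),
      {t | t ∈ WL k ∧ ∃ w ∈ A b, w <:+: t} := by
    rintro t ⟨ht, b, hb1, hb2, hor⟩
    rw [Set.mem_iUnion₂]
    refine ⟨b, by rw [Finset.mem_filter, Finset.mem_range]; exact ⟨by omega, hb1⟩, ht, ?_⟩
    rcases hor with ⟨X, h, hX, hh, hin, hbox⟩ | ⟨v, hv1, hv2, hv3⟩
    · refine ⟨X.dropLast, ?_, hin⟩
      rw [hA]
      exact Or.inl ⟨h, X, hX, hh, hbox, rfl⟩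
    · refine ⟨v, ?_, hv1⟩
      rw [hA]
      exact Or.inr ⟨hv2, hv3⟩
  have hterm : ∀ b ∈ (Finset.range (k + 1)).filter (fun b => k ≤ 4 * b), gf {t | t ∈ WL k ∧ ∃ w ∈ A b, w <:+: t} ≤
      ENNReal.ofReal ((((100 * 4 ^ k : ℕ) : ℝ) ^ Cp * Cp) ^ 2 * (2 * (2 : ℝ) ^ (-(Q1 * k)))) := by
    intro b hb
    refine (gf_infix k (A b)).trans ?_
    rw [ENNReal.ofReal_mul (by positivity), ENNReal.ofReal_pow (by positivity)]
    refine mul_le_mul' (pow_le_pow_left' (hpoly _ ?_) 2) (hAb b hb)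
    have : 1 ≤ 4 ^ k := Nat.one_le_pow _ _ (by norm_num)
    omega
  refine (gf_mono hsub).trans ((ENNReal.tsum_biUnion_le wE _ _).trans ((Finset.sum_le_sum hterm).trans ?_))
  rw [Finset.sum_const, nsmul_eq_mul]
  have hcard : (((Finset.range (k + 1)).filter (fun b => k ≤ 4 * b)).card : ℝ≥0∞) ≤ ENNReal.ofReal ((2 : ℝ) ^ (k : ℝ)) := by
    have e1 : ((Finset.range (k + 1)).filter (fun b => k ≤ 4 * b)).card ≤ 2 ^ k := by
      refine (Finset.card_filter_le _ _).trans ?_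
      rw [Finset.card_range]
      exact Nat.lt_two_pow_self
    rw [Real.rpow_natCast, ENNReal.ofReal_pow (by norm_num), show ENNReal.ofReal 2 = 2 by norm_num]
    exact_mod_cast e1
  refine (mul_le_mul_left hcard _).trans ?_
  rw [← ENNReal.ofReal_mul (by positivity)]
  apply ENNReal.ofReal_le_ofReal
  have e2 : ((100 * 4 ^ k : ℕ) : ℝ) ≤ (2 : ℝ) ^ (7 + 2 * (k : ℝ)) := by
    rw [Real.rpow_add (by norm_num), Real.rpow_mul (by norm_num), Real.rpow_natCast]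
    push_cast
    have : (0 : ℝ) < 4 ^ k := by positivity
    norm_num
  have e3 : ((100 * 4 ^ k : ℕ) : ℝ) ^ Cp ≤ (2 : ℝ) ^ ((7 + 2 * (k : ℝ)) * Cp) := by
    rw [Real.rpow_mul (by norm_num)]
    exact Real.rpow_le_rpow (by positivity) e2 hCp.le
  have e4 : (((100 * 4 ^ k : ℕ) : ℝ) ^ Cp * Cp) ^ 2 ≤ (2 : ℝ) ^ (14 * Cp) * (2 : ℝ) ^ (4 * Cp * k) * Cp ^ 2 := by
    rw [mul_pow]
    refine mul_le_mul_of_nonneg_right ?_ (by positivity)
    calc (((100 * 4 ^ k : ℕ) : ℝ) ^ Cp) ^ 2 ≤ ((2 : ℝ) ^ ((7 + 2 * (k : ℝ)) * Cp)) ^ 2 := by gcongr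
      _ = (2 : ℝ) ^ (14 * Cp) * (2 : ℝ) ^ (4 * Cp * k) := by
          rw [← Real.rpow_natCast, ← Real.rpow_mul (by norm_num), ← Real.rpow_add (by norm_num)]
          congr 1
          push_cast
          ring
  have e5 : (2 : ℝ) ^ D ≤ (2 : ℝ) ^ (k : ℝ) := by
    rw [Real.rpow_natCast]
    exact pow_le_pow_right₀ (by norm_num) (by omega)
  calc (2 : ℝ) ^ (k : ℝ) * ((((100 * 4 ^ k : ℕ) : ℝ) ^ Cp * Cp) ^ 2 * (2 * (2 : ℝ) ^ (-(Q1 * k))))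
      ≤ (2 : ℝ) ^ (k : ℝ) * (((2 : ℝ) ^ (14 * Cp) * (2 : ℝ) ^ (4 * Cp * k) * Cp ^ 2) * (2 * (2 : ℝ) ^ (-(Q1 * k)))) := by
        gcongr
    _ = (2 * Cp ^ 2 * (2 : ℝ) ^ (14 * Cp)) * ((2 : ℝ) ^ (k : ℝ) * (2 : ℝ) ^ (4 * Cp * k) * (2 : ℝ) ^ (-(Q1 * k))) := by
        ring
    _ ≤ (2 : ℝ) ^ (k : ℝ) * ((2 : ℝ) ^ (k : ℝ) * (2 : ℝ) ^ (4 * Cp * k) * (2 : ℝ) ^ (-(Q1 * k))) :=
        mul_le_mul_of_nonneg_right (hD.trans e5) (by positivity)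
    _ = (2 : ℝ) ^ (-(Q * k)) := by
        rw [← Real.rpow_add (by norm_num), ← Real.rpow_add (by norm_num), ← Real.rpow_add (by norm_num)]
        congr 1
        rw [hQ1]
        ring

end NTA

end HexObs
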