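import Pool.Agent.NTA.RunDefs
import Pool.Agent.NTW.CrdC
import Pool.Agent.NTW.DmJ
import Pool.Agent.NTW.EventJ
import Pool.Agent.NTW.KernU

/-!
NTA: the runs with many leaves and few block pairs are a class of runs of small norm.
-/

set_option autoImplicit false

namespace HexObs

namespace NTA

open Finset TS SDN NTW

open scoped ENNReal

open NTW.CrB in
/-- the sum over the chains behind the leaf g is bounded by a dominated functional of small norm -/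
theorem crowd_core (hA : SsA) (h3 : Ss3) (Λ : ℕ) : ∃ (k0 w0 Q : ℕ) (C0 : ℝ), w0 ≤ k0 ∧ 2 ≤ Q ∧ 0 < C0 ∧
    ∀ (k N m n : ℕ) (y : ℝ≥0∞) (Φ : List Bool → ℝ≥0∞), k0 ≤ k → 4 ≤ m → 2 * Q * (n + 1) ≤ m → Dom k y Φ →
    ∃ F : List Bool → ℝ≥0∞, Dom k (ENNReal.ofReal (C0 / 4 ^ m) * y) F ∧ ∀ g ∈ HB (2 ^ (k + 4)),
      ∑' ms : {ms : List (List Bool) // (g :: ms) ∈ CS (2 ^ (k + 4)) N (k + 2) (2 ^ (k - w0)) n m ∧
        dbl (2 ^ (k + 4)) (g :: ms) ≤ Λ * m}, SDN.wl ms.1 * Φ (ms.1.getLastD g) ≤ F g := by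
  classical
  obtain ⟨C, δ, hI⟩ := inp_exists
  obtain ⟨K, c, hN⟩ := nrm_exists
  obtain ⟨Cs, hCs, hP⟩ := pairCap
  obtain ⟨K1, hK1, htA⟩ := xtA_of hI hA h3
  obtain ⟨K3, hK3, hdom⟩ := Dom_xT hI
  have hK := hN.one_le
  have hK0 : 0 ≤ K := by linarith
  obtain ⟨r, hr⟩ : ∃ r, r = 2 * Λ + 6 := ⟨_, rfl⟩
  obtain ⟨a, a', w0, K0, ha, hK00, hpar⟩ := params1 K c Cs ((1 / 2) ^ (4 * r)) hK hN.pos hCs (by positivity)
  obtain ⟨Q0, hQ0⟩ := pow_unbounded_of_one_lt K (by norm_num : (1 : ℝ) < 2)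
  obtain ⟨Q, hQ⟩ : ∃ Q, Q = max Q0 2 := ⟨_, rfl⟩
  have hKQ : K ≤ 2 ^ Q := by
    refine hQ0.le.trans (pow_le_pow_right₀ (by norm_num) ?_)
    rw [hQ]
    exact le_max_left _ _
  have hQ2 : 2 ≤ Q := by
    rw [hQ]
    exact le_max_right _ _
  refine ⟨a + a' + w0, w0, Q, K3 * (K ^ 3 * K1) * 2 ^ (10 * r), by omega, hQ2, by positivity,
    fun k N m n y Φ hk hm hn hΦ => ?_⟩
  obtain ⟨w, hw⟩ : ∃ w, w = 2 ^ (k - w0) := ⟨_, rfl⟩
  have hw1 : 1 ≤ w := by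
    rw [hw]
    exact Nat.one_le_two_pow
  have hw2 : w ≤ 2 ^ k := by
    rw [hw]
    exact Nat.pow_le_pow_right (by norm_num) (by omega)
  rw [← hw]
  have hpar' := hpar k hk
  have hPC := hP N k (k - a) (k - a - a') w K0 hw1 hw2 hK00
  obtain ⟨κ, hκ⟩ : ∃ κ : ℝ, κ = Cs * (K0 * w * 2 ^ k / 4 ^ (k - a - a') + 1 / K0) := ⟨_, rfl⟩
  rw [← hκ] at hPC
  rw [← hw, ← hκ] at hpar'
  have hκ0 : 0 ≤ κ := by
    rw [hκ]
    positivity
  obtain ⟨lam, hlam⟩ : ∃ lam : ℝ, lam = (1 / 2) ^ (4 * r) := ⟨_, rfl⟩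
  have hlam0 : 0 ≤ lam := by
    rw [hlam]
    positivity
  have hlam1 : lam ≤ 1 := by
    rw [hlam]
    exact pow_le_one₀ (by norm_num) (by norm_num)
  rw [← hlam] at hpar'
  obtain ⟨j, hj⟩ : ∃ j, j = (m - 4) / 2 := ⟨_, rfl⟩
  obtain ⟨ℓ, hℓ⟩ : ∃ ℓ, ℓ = m - 1 - 2 * ((m - 4) / 2) := ⟨_, rfl⟩
  obtain ⟨ℓ', hℓ', hℓ3⟩ : ∃ ℓ', ℓ = ℓ' + 1 ∧ ℓ' ≤ 3 := ⟨ℓ - 1, by omega, by omega⟩
  obtain ⟨B, hB⟩ : ∃ B, B = (tA (2 ^ (k + 4)) N LFold)^[m - 1 - 2 * ((m - 4) / 2)] Φ := ⟨_, rfl⟩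
  have hUk := (Ub_pos k).le
  have hKE : (1 : ℝ≥0∞) ≤ ENNReal.ofReal K := by
    rw [← ENNReal.ofReal_one]
    exact ENNReal.ofReal_le_ofReal hK
  -- the base
  have hBn : xT (2 ^ (k + 4)) k B ≤ ENNReal.ofReal (K ^ 3 * K1) * y := by
    rw [hB, ← hℓ, hℓ', Function.iterate_succ_apply]
    refine (CrA.x_iter (fun Φ hΦ => hN.tA k N Φ hΦ) (Ch.hered_tA _ _ _ _) ℓ').trans ?_
    refine (mul_le_mul' (pow_le_pow_right₀ hKE hℓ3) (htA k N y Φ hΦ)).trans (le_of_eq ?_)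
    rw [← mul_assoc, ← ENNReal.ofReal_pow hK0, ← ENNReal.ofReal_mul (by positivity)]
  have hBh : Hered B := by
    rw [hB]
    exact CrA.hered_iter _ _ hΦ.her _
  -- the chain
  obtain ⟨F, hF⟩ : ∃ F, F = FB (2 ^ (k + 4)) N k (k - a) (k - a - a') (ENNReal.ofReal κ) B n j := ⟨_, rfl⟩
  have hFh : Hered F := by
    rw [hF]
    exact CrA.hered_FB _ _ _ _ _ _ hBh _ _
  have hFn : xT (2 ^ (k + 4)) k F ≤ ENNReal.ofReal (K ^ 3 * K1 * (2 ^ j * K ^ (2 * n) * lam ^ (j - n))) * y := by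
    rw [hF]
    refine (CrA.x_FB (K := ENNReal.ofReal K) (lam := ENNReal.ofReal lam) hBh hKE
      (by rw [← ENNReal.ofReal_one]; exact ENNReal.ofReal_le_ofReal hlam1)
      (fun Φ hΦ => hN.tA k N Φ hΦ)
      (fun Φ hΦ => PE.two_norm hN (by omega : k - a + 3 ≤ k) (by omega : k - a - a' ≤ k - a) hκ0 hpar' Φ hΦ)
      j n).trans ?_
    refine (mul_le_mul_left hBn _).trans (le_of_eq ?_)
    have e2 : (2 : ℝ≥0∞) = ENNReal.ofReal 2 := by norm_num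
    rw [e2, ← ENNReal.ofReal_pow (by norm_num), ← ENNReal.ofReal_pow hK0, ← ENNReal.ofReal_pow hlam0,
      ← ENNReal.ofReal_mul (by positivity), ← ENNReal.ofReal_mul (by positivity), mul_right_comm,
      ← ENNReal.ofReal_mul (by positivity)]
  have hFd := hdom (2 ^ (k + 4)) k k F hFh le_rfl le_rfl
  have h3n := PE.pow_num Λ (m := m) (n := n + 1) (j := j) hK hKQ hn hQ2 hj hm
  rw [Nat.add_sub_cancel, ← hr, ← hlam] at h3n
  have e4 : (4 : ℝ≥0∞) ^ (Λ * m) = ENNReal.ofReal (4 ^ (Λ * m)) := by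
    rw [ENNReal.ofReal_pow (by norm_num)]
    norm_num
  refine ⟨fun g => 4 ^ (Λ * m) * F g, ⟨fun s hs t => mul_le_mul_right (hFh s hs t) _, fun r1 P hP => ?_⟩, fun g hg => ?_⟩
  · rw [Rec8.sw_mul_left]
    refine (mul_le_mul_right (hFd.bd r1 P hP) _).trans ?_
    rw [← mul_assoc]
    refine mul_le_mul_left ?_ _
    calc 4 ^ (Λ * m) * (ENNReal.ofReal K3 * xT (2 ^ (k + 4)) k F)
        ≤ ENNReal.ofReal (4 ^ (Λ * m)) * (ENNReal.ofReal K3 *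
          (ENNReal.ofReal (K ^ 3 * K1 * (2 ^ j * K ^ (2 * n) * lam ^ (j - n))) * y)) := by
          rw [e4]
          gcongr
      _ = ENNReal.ofReal (K3 * (K ^ 3 * K1) * (4 ^ (Λ * m) * (2 ^ j * K ^ (2 * n) * lam ^ (j - n)))) * y := by
          have e5 : K3 * (K ^ 3 * K1) * (4 ^ (Λ * m) * (2 ^ j * K ^ (2 * n) * lam ^ (j - n))) =
              4 ^ (Λ * m) * (K3 * (K ^ 3 * K1 * (2 ^ j * K ^ (2 * n) * lam ^ (j - n)))) := by ring
          rw [e5, ENNReal.ofReal_mul (p := 4 ^ (Λ * m)) (by positivity), ENNReal.ofReal_mul (p := K3) (by positivity)]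
          ring
      _ ≤ ENNReal.ofReal (K3 * (K ^ 3 * K1) * 2 ^ (10 * r) / 4 ^ m) * y := by
          refine mul_le_mul_left (ENNReal.ofReal_le_ofReal ?_) _
          calc K3 * (K ^ 3 * K1) * (4 ^ (Λ * m) * (2 ^ j * K ^ (2 * n) * lam ^ (j - n)))
              ≤ K3 * (K ^ 3 * K1) * (2 ^ (10 * r) / 4 ^ m) := by gcongr
            _ = _ := by ring
  · -- from the weight to the tilted weight
    have h1 := CrA.chain_absB (N := N) (w := w) (ℓ := m - 1 - 2 * ((m - 4) / 2)) (Φ := Φ) (B := B) hPC hBh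
      (fun g hg => by
        rw [hB]
        exact CrA.base_le _ N Φ _ g hg) ((m - 4) / 2) n ∅ 0 0 g hg
    rw [← hj, ← hF] at h1
    refine le_trans ?_ (mul_le_mul_right h1 (4 ^ (Λ * m)))
    rw [← ENNReal.tsum_mul_left]
    have hmem : ∀ ms : List (List Bool), (g :: ms) ∈ CS (2 ^ (k + 4)) N (k + 2) w n m →
        ms ∈ CB (2 ^ (k + 4)) N (k + 2) w (m - 1 - 2 * j) ∅ n j 0 0 g := by
      intro ms hms
      obtain ⟨g1, hg1, rest, hrest, e⟩ := CS_cons hm hms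
      rw [List.cons.injEq] at e
      rw [e.1, e.2, hj]
      exact hrest
    calc ∑' ms : {ms : List (List Bool) // (g :: ms) ∈ CS (2 ^ (k + 4)) N (k + 2) w n m ∧
          dbl (2 ^ (k + 4)) (g :: ms) ≤ Λ * m}, SDN.wl ms.1 * Φ (ms.1.getLastD g)
        ≤ ∑' ms : {ms : List (List Bool) // (g :: ms) ∈ CS (2 ^ (k + 4)) N (k + 2) w n m ∧
          dbl (2 ^ (k + 4)) (g :: ms) ≤ Λ * m}, 4 ^ (Λ * m) * CrA.VV (2 ^ (k + 4)) Φ g ms.1 := by
          refine ENNReal.tsum_le_tsum fun ms => ?_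
          unfold CrA.VV
          rw [wl_eq_wt (2 ^ (k + 4)) ms.1, ← mul_assoc]
          have h5 : dbl (2 ^ (k + 4)) ms.1 ≤ Λ * m := by
            refine le_trans ?_ ms.2.2
            unfold dbl
            rw [List.map_cons, List.sum_cons]
            omega
          gcongr
          norm_num
      _ ≤ _ := by
          exact ENNReal.tsum_comp_le_tsum_of_injective
            (f := fun ms : {ms : List (List Bool) // (g :: ms) ∈ CS (2 ^ (k + 4)) N (k + 2) w n m ∧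
              dbl (2 ^ (k + 4)) (g :: ms) ≤ Λ * m} =>
              (⟨ms.1, hmem ms.1 ms.2.1⟩ : {gs // gs ∈ CB (2 ^ (k + 4)) N (k + 2) w (m - 1 - 2 * j) ∅ n j 0 0 g}))
            (fun a b hab => Subtype.ext (congrArg (fun p => p.1) hab))
            (fun gs : {gs // gs ∈ CB (2 ^ (k + 4)) N (k + 2) w (m - 1 - 2 * j) ∅ n j 0 0 g} =>
              4 ^ (Λ * m) * CrA.VV (2 ^ (k + 4)) Φ g gs.1)

namespace RCr

open NTW.CrC

open Classical in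
/-- the run functional of a crowded class -/
lemma runF_le {kc N m n w q Λ : ℕ} (hb : ∀ gs ∈ CS (2 ^ (kc + 4)) N q w n m, dbl (2 ^ (kc + 4)) gs ≤ Λ * m)
    {Φ F : List Bool → ℝ≥0∞} (hF : ∀ g ∈ HB (2 ^ (kc + 4)),
      ∑' ms : {ms : List (List Bool) // (g :: ms) ∈ CS (2 ^ (kc + 4)) N q w n m ∧
        dbl (2 ^ (kc + 4)) (g :: ms) ≤ Λ * m}, SDN.wl ms.1 * Φ (ms.1.getLastD g) ≤ F g) {g : List Bool}
    (hg : g ∈ HB (2 ^ (kc + 4))) :
    runF (CS (2 ^ (kc + 4)) N q w n m) Φ g ≤ if g ∈ BrR (2 ^ (kc + 4)) N then F g else 0 := by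
  have hmem : ∀ ms : List (List Bool), (g :: ms) ∈ CS (2 ^ (kc + 4)) N q w n m → g ∈ BrR (2 ^ (kc + 4)) N :=
    fun ms h => h.2.2.1 g List.mem_cons_self
  split_ifs with h0
  · refine le_trans ?_ (hF g hg)
    unfold runF
    refine le_trans ?_ (le_of_eq (tsum_subtype {ms : List (List Bool) | (g :: ms) ∈ CS (2 ^ (kc + 4)) N q w n m ∧
        dbl (2 ^ (kc + 4)) (g :: ms) ≤ Λ * m} (fun ms => SDN.wl ms * Φ (ms.getLastD g))).symm)
    refine ENNReal.tsum_le_tsum fun ms => ?_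
    by_cases h1 : (g :: ms) ∈ CS (2 ^ (kc + 4)) N q w n m ∧ (g :: ms).IsChain LFold
    · rw [if_pos h1, List.getLastD_cons, Set.indicator_of_mem]
      exact ⟨h1.1, hb _ h1.1⟩
    · rw [if_neg h1]
      exact zero_le
  · unfold runF
    refine le_of_eq (ENNReal.tsum_eq_zero.2 fun ms => ?_)
    rw [if_neg]
    rintro ⟨h1, -⟩
    exact h0 (hmem ms h1)

end RCr

open RCr NTW.CrC in
/-- **the crowded runs are a class of runs of small norm** -/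
theorem smR_crowd (mu : ℕ) : ∃ (k0 w0 Q : ℕ) (C0 : ℝ), w0 ≤ k0 ∧ 2 ≤ Q ∧ 0 < C0 ∧ ∀ kc m n : ℕ, k0 ≤ kc → 4 ≤ m →
    2 * Q * (n + 1) ≤ m →
    SmR DmJ kc (CS (2 ^ (kc + 4)) (2 ^ (kc + 5 + mu)) (kc + 2) (2 ^ (kc - w0)) n m) (C0 / 4 ^ m) := by
  obtain ⟨C, δ0, hI⟩ := inp_exists
  have hA := ssA hI
  obtain ⟨k0, w0, Q, C1, hw, hQ, hC1, hcore⟩ := crowd_core hA ss3P (mu + 3)
  obtain ⟨K2, hK2, h2⟩ := two2_of hA ssDP
  obtain ⟨K3, hK3, h3⟩ := nextD_of hI hA ss3P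
  refine ⟨k0, w0, Q, (K2 + K3) * 2 ^ (mu + 5) * C1, hw, hQ, by positivity, fun kc m n hk hm hn => ?_⟩
  have hU := Ub_pos kc
  have hUN : UU (2 ^ (kc + 5 + mu)) ≤ 2 ^ (mu + 5) * Ub kc := by
    have := UU_ratio_up kc (mu + 5)
    rwa [show kc + (mu + 5) = kc + 5 + mu by ring] at this
  have hb : ∀ gs ∈ CS (2 ^ (kc + 4)) (2 ^ (kc + 5 + mu)) (kc + 2) (2 ^ (kc - w0)) n m,
      dbl (2 ^ (kc + 4)) gs ≤ (mu + 3) * m := by
    intro gs hgs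
    refine (dbl_box Nat.one_le_two_pow gs hgs.2.2.1).trans ?_
    rw [hgs.1, mul_comm]
    refine Nat.mul_le_mul_right _ ?_
    have := log_box kc (mu + 3)
    rwa [show kc + (mu + 3) + 2 = kc + 5 + mu by ring] at this
  have hbox : 2 ^ (kc + 4) ≤ 2 ^ (kc + 5 + mu) := Nat.pow_le_pow_right (by norm_num) (by omega)
  have hnum : ∀ (K a : ℝ), 1 ≤ K → K ≤ K2 + K3 → a ≤ 2 ^ (mu + 5) → 0 ≤ a →
      K * a * (C1 / 4 ^ m) ≤ (K2 + K3) * 2 ^ (mu + 5) * C1 / 4 ^ m := by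
    intro K a h4 h5 h6 h7
    rw [← mul_div_assoc]
    gcongr
  refine ⟨fun x Φ hΦ => ?_, fun y x Ψ Φ hΨ hf hΦ => ?_⟩
  · obtain ⟨F, hFd, hF⟩ := hcore kc (2 ^ (kc + 5 + mu)) m n x Φ hk hm hn hΦ.dom
    have h4 : ∀ t, vA (2 ^ (kc + 4)) (HB (2 ^ (kc + 4))) (runF (CS (2 ^ (kc + 4)) (2 ^ (kc + 5 + mu)) (kc + 2)
        (2 ^ (kc - w0)) n m) Φ) t ≤ vA (2 ^ (kc + 4)) (BrR (2 ^ (kc + 4)) (2 ^ (kc + 5 + mu))) F t := by
      intro t
      unfold vA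
      rw [Rec8.sw_ind, Rec8.sw_ind]
      refine ENNReal.tsum_le_tsum fun g => ?_
      by_cases hg : g ∈ {g' | g' ∈ HB (2 ^ (kc + 4)) ∧ RT (2 ^ (kc + 4)) LFold t g'}
      · rw [if_pos hg]
        have h5 := runF_le hb hF hg.1
        by_cases h0 : g ∈ BrR (2 ^ (kc + 4)) (2 ^ (kc + 5 + mu))
        · rw [if_pos (show g ∈ {g' | g' ∈ BrR (2 ^ (kc + 4)) (2 ^ (kc + 5 + mu)) ∧ RT (2 ^ (kc + 4)) LFold t g'} from
            ⟨h0, hg.2⟩)]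
          rw [if_pos h0] at h5
          exact mul_le_mul_right h5 _
        · rw [if_neg h0, nonpos_iff_eq_zero] at h5
          rw [h5, mul_zero]
          exact zero_le
      · rw [if_neg hg]
        exact zero_le
    refine (xT_mono h4).trans ?_
    refine (h3 (2 ^ (kc + 4)) kc kc (2 ^ (kc + 4)) (2 ^ (kc + 5 + mu)) _ F hFd le_rfl le_rfl le_rfl hbox).trans ?_
    rw [← mul_assoc, ← ENNReal.ofReal_mul (mul_nonneg (by linarith) (div_nonneg (Num2Aux.UU_pos _).le hU.le))]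
    refine mul_le_mul_left (ENNReal.ofReal_le_ofReal ?_) _
    refine hnum K3 _ hK3 (by linarith) ?_ (div_nonneg (Num2Aux.UU_pos _).le hU.le)
    rwa [div_le_iff₀ hU]
  · obtain ⟨F, hFd, hF⟩ := hcore kc (2 ^ (kc + 5 + mu)) m n x Φ hk hm hn hΦ.dom
    have h4 : Rec8.sw (HB (2 ^ (kc + 4))) (fun g => Ψ (rev g) * runF (CS (2 ^ (kc + 4)) (2 ^ (kc + 5 + mu)) (kc + 2)
        (2 ^ (kc - w0)) n m) Φ g) ≤ Rec8.sw (BrR (2 ^ (kc + 4)) (2 ^ (kc + 5 + mu))) (fun g => Ψ (rev g) * F g) := by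
      rw [Rec8.sw_ind, Rec8.sw_ind]
      refine ENNReal.tsum_le_tsum fun g => ?_
      by_cases hg : g ∈ HB (2 ^ (kc + 4))
      · rw [if_pos hg]
        have h5 := runF_le hb hF hg
        by_cases h0 : g ∈ BrR (2 ^ (kc + 4)) (2 ^ (kc + 5 + mu))
        · rw [if_pos h0] at h5 ⊢
          exact mul_le_mul_right (mul_le_mul_right h5 _) _
        · rw [if_neg h0, nonpos_iff_eq_zero] at h5
          rw [h5, mul_zero, mul_zero]
          exact zero_le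
      · rw [if_neg hg]
        exact zero_le
    refine h4.trans ?_
    refine (h2 kc kc (2 ^ (kc + 4)) (2 ^ (kc + 5 + mu)) y _ Ψ F hΨ.dom hFd le_rfl le_rfl hbox).trans ?_
    have hC4 : 0 ≤ C1 / 4 ^ m := by positivity
    rw [mul_left_comm y, ← mul_assoc, ← ENNReal.ofReal_mul (mul_nonneg (by linarith) (Num2Aux.UU_pos _).le)]
    refine mul_le_mul_left (ENNReal.ofReal_le_ofReal ?_) _
    calc K2 * UU (2 ^ (kc + 5 + mu)) * (C1 / 4 ^ m) ≤ K2 * (2 ^ (mu + 5) * Ub kc) * (C1 / 4 ^ m) := by gcongr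
      _ = K2 * 2 ^ (mu + 5) * (C1 / 4 ^ m) * Ub kc := by ring
      _ ≤ _ := mul_le_mul_of_nonneg_right (hnum K2 _ hK2 (by linarith) le_rfl (by positivity)) hU.le

end NTA

end HexObs
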