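import Pool.Agent.NTA.RunDefs
import Pool.Agent.NTW.ChainS
import Pool.Agent.NTW.Event2
import Pool.Agent.NTW.EventJ
import Pool.Agent.NTW.KernU

/-!
NTA: the runs of few leaves with many leaves in a class of small norm are a class of runs of small norm.
-/

set_option autoImplicit false

namespace HexObs

namespace NTA

open Finset TS SDN SDN.CN NTW

open scoped ENNReal

open Classical in
/-- the runs of at most m1 leaves of a height at most 2 ^ (kc + mu + 2), at least J0 of them after the first in S -/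
def RFill (kc mu m1 J0 : ℕ) (S : Set (List Bool)) : Set (List (List Bool)) :=
  {ms | ms.length ≤ m1 ∧ (∀ g ∈ ms, g ∈ BrR (2 ^ (kc + 4)) (2 ^ (kc + mu + 2))) ∧
    J0 ≤ (ms.tail.filter (fun g => decide (g ∈ S))).length}

namespace RFl

variable {S : Set (List Bool)} {Ψ Φ0 : List Bool → ℝ≥0∞} {Dm : ℝ≥0∞ → (List Bool → ℝ≥0∞) → Prop} {y : ℝ≥0∞}

/-- the sum over the next n leaves, s of them in S, then the functional Φ0 of the last leaf -/
noncomputable def FS (Φ0 : List Bool → ℝ≥0∞) (D N : ℕ) (S : Set (List Bool)) : ℕ → ℕ → List Bool → ℝ≥0∞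
  | 0, 0 => Φ0
  | 0, _ + 1 => fun _ => 0
  | n + 1, 0 => vA D (BrR D N) (FS Φ0 D N S n 0)
  | n + 1, s + 1 => fun t => vA D S (FS Φ0 D N S n s) t + vA D (BrR D N) (FS Φ0 D N S n (s + 1)) t

lemma herD_FS {D : ℕ} (hD : 1 ≤ D) (N n s : ℕ) : HerD D (FS Φ0 D N S (n + 1) s) := by
  cases s with
  | zero => exact NTm.herD_vA hD _ _
  | succ s =>
    exact ⟨fun s' hs t => add_le_add ((NTm.herD_vA hD S _).her s' hs t) ((NTm.herD_vA hD _ _).her s' hs t),
      fun s' t h1 h2 => add_le_add ((NTm.herD_vA hD S _).suf s' t h1 h2) ((NTm.herD_vA hD _ _).suf s' t h1 h2)⟩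

lemma Dm_FS {k N : ℕ} {Q δ : ℝ} (hQ : 1 ≤ Q) (hδ : 0 ≤ δ) (h : TS2.AllG Ψ y Dm k N Q)
    (hS : ∀ (x : ℝ≥0∞) (Φ : List Bool → ℝ≥0∞), Dm x Φ → xT (2 ^ (k + 4)) k (vA (2 ^ (k + 4)) S Φ) ≤ ENNReal.ofReal δ * x)
    {x : ℝ≥0∞} (hx : Dm x Φ0) (n : ℕ) : ∀ s : ℕ,
    ∃ x' : ℝ≥0∞, x' ≤ ENNReal.ofReal ((2 * Q) ^ n * δ ^ s) * x ∧ Dm x' (FS Φ0 (2 ^ (k + 4)) N S n s) := by
  have hQ0 : 0 ≤ Q := by linarith
  induction n with
  | zero =>
    intro s
    cases s with
    | zero =>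
      refine ⟨x, ?_, hx⟩
      rw [pow_zero, pow_zero, mul_one, ENNReal.ofReal_one, one_mul]
    | succ s =>
      refine ⟨xT (2 ^ (k + 4)) k (FS Φ0 (2 ^ (k + 4)) N S 0 (s + 1)), ?_, h.dm _
        ⟨fun _ _ _ => le_rfl, fun _ _ _ _ => le_rfl⟩⟩
      refine xT_le fun b I _ _ => ?_
      show Rec8.sw (Fld.BrB b) (fun M => (0 : ℝ≥0∞)) ≤ _
      rw [Rec8.sw_zero]
      exact zero_le
  | succ n ih =>
    intro s
    refine ⟨xT (2 ^ (k + 4)) k (FS Φ0 (2 ^ (k + 4)) N S (n + 1) s), ?_, h.dm _ (herD_FS Nat.one_le_two_pow N n s)⟩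
    cases s with
    | zero =>
      obtain ⟨x', h1, h2⟩ := ih 0
      refine (h.near x' _ h2).trans ((mul_le_mul_right h1 _).trans ?_)
      rw [← mul_assoc, ← ENNReal.ofReal_mul hQ0]
      refine mul_le_mul_left (ENNReal.ofReal_le_ofReal ?_) x
      rw [pow_zero, mul_one, mul_one, pow_succ]
      have : 0 ≤ (2 * Q) ^ n := by positivity
      nlinarith
    | succ s =>
      obtain ⟨x1, h1, h2⟩ := ih s
      obtain ⟨x2, h3, h4⟩ := ih (s + 1)
      refine (xT_add _ _ _ _).trans ?_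
      refine (add_le_add ((hS x1 _ h2).trans (mul_le_mul_right h1 _))
        ((h.near x2 _ h4).trans (mul_le_mul_right h3 _))).trans ?_
      rw [← mul_assoc, ← mul_assoc, ← add_mul, ← ENNReal.ofReal_mul hδ, ← ENNReal.ofReal_mul hQ0,
        ← ENNReal.ofReal_add (by positivity) (by positivity)]
      refine mul_le_mul_left (ENNReal.ofReal_le_ofReal ?_) x
      have e1 : (0 : ℝ) ≤ (2 * Q) ^ n * δ ^ (s + 1) := by positivity
      calc δ * ((2 * Q) ^ n * δ ^ s) + Q * ((2 * Q) ^ n * δ ^ (s + 1))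
          = (1 + Q) * ((2 * Q) ^ n * δ ^ (s + 1)) := by ring
        _ ≤ (2 * Q) * ((2 * Q) ^ n * δ ^ (s + 1)) := mul_le_mul_of_nonneg_right (by linarith) e1
        _ = _ := by ring

open Classical in
/-- chains behind the leaf g with s leaves in S -/
noncomputable def TF (Φ0 : List Bool → ℝ≥0∞) (D N : ℕ) (S : Set (List Bool)) (n s : ℕ) (g : List Bool) : ℝ≥0∞ :=
  ∑' gs : List (List Bool), if gs.length = n ∧ (g :: gs).IsChain LFold ∧ (∀ u ∈ gs, u ∈ BrR D N) ∧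
    s ≤ (gs.filter (fun u => decide (u ∈ S))).length then SDN.wl gs * Φ0 (gs.getLastD g) else 0

lemma TF_le (D N : ℕ) (n : ℕ) : ∀ s : ℕ, ∀ g ∈ HB D, TF Φ0 D N S n s g ≤ FS Φ0 D N S n s g := by
  classical
  induction n with
  | zero =>
    intro s g _
    unfold TF
    rw [tsum_eq_single []]
    · cases s with
      | zero =>
        split_ifs
        · rw [NTm.wl_nil, one_mul]
          exact le_rfl
        · exact zero_le
      | succ s =>
        rw [if_neg]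
        · exact zero_le
        · rintro ⟨-, -, -, h⟩
          simp at h
    · intro gs hgs
      rw [if_neg]
      rintro ⟨h, -⟩
      exact hgs (List.length_eq_zero_iff.1 h)
  | succ n ih =>
    intro s g hg
    unfold TF
    refine (CCh.tsum_list _ ?_).trans ?_
    · rw [if_neg]
      rintro ⟨h, -⟩
      simp at h
    -- all leaves
    have hall : ∀ s' : ℕ, ∀ g', g' ∈ BrR D N ∧ LFold g g' → ∑' gs : List (List Bool), (if (g' :: gs).length = n + 1 ∧
        (g :: g' :: gs).IsChain LFold ∧ (∀ u ∈ g' :: gs, u ∈ BrR D N) ∧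
        s' ≤ (gs.filter (fun u => decide (u ∈ S))).length then
        SDN.wl (g' :: gs) * Φ0 ((g' :: gs).getLastD g) else 0) ≤ wE g' * FS Φ0 D N S n s' g' := by
      intro s' g' h2
      have hg' : g' ∈ HB D := by
        obtain ⟨h, a1, a2, a3⟩ := h2.1
        exact ⟨h, a1, a3⟩
      refine le_trans ?_ (mul_le_mul_right (ih s' g' hg') _)
      unfold TF
      rw [← ENNReal.tsum_mul_left]
      refine ENNReal.tsum_le_tsum fun gs => ?_
      by_cases h5 : (g' :: gs).length = n + 1 ∧ (g :: g' :: gs).IsChain LFold ∧ (∀ u ∈ g' :: gs, u ∈ BrR D N) ∧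
        s' ≤ (gs.filter (fun u => decide (u ∈ S))).length
      · rw [if_pos h5, if_pos, NTm.wl_cons, List.getLastD_cons, mul_assoc]
        refine ⟨?_, ?_, ?_, h5.2.2.2⟩
        · have := h5.1
          rw [List.length_cons] at this
          omega
        · exact (List.isChain_cons_cons.1 h5.2.1).2
        · exact fun u hu => h5.2.2.1 u (List.mem_cons_of_mem _ hu)
      · rw [if_neg h5]
        exact zero_le
    have hno : ∀ g', ¬ (g' ∈ BrR D N ∧ LFold g g') → ∑' gs : List (List Bool), (if (g' :: gs).length = n + 1 ∧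
        (g :: g' :: gs).IsChain LFold ∧ (∀ u ∈ g' :: gs, u ∈ BrR D N) ∧
        s ≤ ((g' :: gs).filter (fun u => decide (u ∈ S))).length then
        SDN.wl (g' :: gs) * Φ0 ((g' :: gs).getLastD g) else 0) = 0 := by
      intro g' h2
      refine ENNReal.tsum_eq_zero.2 fun gs => ?_
      rw [if_neg]
      rintro ⟨-, h4, h5, -⟩
      exact h2 ⟨h5 g' List.mem_cons_self, (List.isChain_cons_cons.1 h4).1⟩
    cases s with
    | zero =>
      show _ ≤ Rec8.sw {g' | g' ∈ BrR D N ∧ RT D LFold g g'} (FS Φ0 D N S n 0)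
      rw [Rec8.sw_ind]
      refine ENNReal.tsum_le_tsum fun g' => ?_
      by_cases h2 : g' ∈ BrR D N ∧ LFold g g'
      · rw [if_pos (show g' ∈ {g' | g' ∈ BrR D N ∧ RT D LFold g g'} from ⟨h2.1, RT_of hg h2.2⟩)]
        refine le_trans (ENNReal.tsum_le_tsum fun gs => ?_) (hall 0 g' h2)
        by_cases h5 : (g' :: gs).length = n + 1 ∧ (g :: g' :: gs).IsChain LFold ∧ (∀ u ∈ g' :: gs, u ∈ BrR D N) ∧
            0 ≤ ((g' :: gs).filter (fun u => decide (u ∈ S))).length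
        · rw [if_pos h5, if_pos ⟨h5.1, h5.2.1, h5.2.2.1, Nat.zero_le _⟩]
        · rw [if_neg h5]
          exact zero_le
      · rw [hno g' h2]
        exact zero_le
    | succ s =>
      show _ ≤ Rec8.sw {g' | g' ∈ S ∧ RT D LFold g g'} (FS Φ0 D N S n s) +
        Rec8.sw {g' | g' ∈ BrR D N ∧ RT D LFold g g'} (FS Φ0 D N S n (s + 1))
      rw [Rec8.sw_ind, Rec8.sw_ind, ← ENNReal.tsum_add]
      refine ENNReal.tsum_le_tsum fun g' => ?_
      by_cases h2 : g' ∈ BrR D N ∧ LFold g g'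
      · by_cases hS : g' ∈ S
        · refine le_trans ?_ le_self_add
          rw [if_pos (show g' ∈ {g' | g' ∈ S ∧ RT D LFold g g'} from ⟨hS, RT_of hg h2.2⟩)]
          refine le_trans (ENNReal.tsum_le_tsum fun gs => ?_) (hall s g' h2)
          by_cases h5 : (g' :: gs).length = n + 1 ∧ (g :: g' :: gs).IsChain LFold ∧ (∀ u ∈ g' :: gs, u ∈ BrR D N) ∧
            s + 1 ≤ ((g' :: gs).filter (fun u => decide (u ∈ S))).length
          · rw [if_pos h5, if_pos]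
            refine ⟨h5.1, h5.2.1, h5.2.2.1, ?_⟩
            have := h5.2.2.2
            rw [List.filter_cons_of_pos (by simpa using hS), List.length_cons] at this
            omega
          · rw [if_neg h5]
            exact zero_le
        · refine le_trans ?_ le_add_self
          rw [if_pos (show g' ∈ {g' | g' ∈ BrR D N ∧ RT D LFold g g'} from ⟨h2.1, RT_of hg h2.2⟩)]
          refine le_trans (ENNReal.tsum_le_tsum fun gs => ?_) (hall (s + 1) g' h2)
          by_cases h5 : (g' :: gs).length = n + 1 ∧ (g :: g' :: gs).IsChain LFold ∧ (∀ u ∈ g' :: gs, u ∈ BrR D N) ∧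
            s + 1 ≤ ((g' :: gs).filter (fun u => decide (u ∈ S))).length
          · rw [if_pos h5, if_pos]
            refine ⟨h5.1, h5.2.1, h5.2.2.1, ?_⟩
            have := h5.2.2.2
            rwa [List.filter_cons_of_neg (by simpa using hS)] at this
          · rw [if_neg h5]
            exact zero_le
      · rw [hno g' h2]
        exact zero_le

open Classical in
/-- the run functional -/
lemma runF_le {kc mu m1 J0 : ℕ} {g : List Bool} (hg : g ∈ HB (2 ^ (kc + 4))) (Φ : List Bool → ℝ≥0∞) :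
    runF (RFill kc mu m1 J0 S) Φ g ≤ if g ∈ BrR (2 ^ (kc + 4)) (2 ^ (kc + mu + 2)) then
      ∑ n ∈ range m1, FS Φ (2 ^ (kc + 4)) (2 ^ (kc + mu + 2)) S n J0 g else 0 := by
  classical
  split_ifs with h0
  · refine le_trans ?_ (Finset.sum_le_sum fun n _ => TF_le (Φ0 := Φ) (S := S) (2 ^ (kc + 4)) (2 ^ (kc + mu + 2)) n J0 g hg)
    unfold runF TF
    rw [← Summable.tsum_finsetSum (fun _ _ => ENNReal.summable)]
    refine ENNReal.tsum_le_tsum fun ms => ?_
    by_cases h1 : (g :: ms) ∈ RFill kc mu m1 J0 S ∧ (g :: ms).IsChain LFold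
    · rw [if_pos h1]
      have h2 := h1.1.1
      rw [List.length_cons] at h2
      refine le_trans (le_of_eq ?_) (Finset.single_le_sum (fun _ _ => zero_le) (Finset.mem_range.2 (show ms.length < m1 by omega)))
      rw [if_pos ⟨rfl, h1.2, fun u hu => h1.1.2.1 u (List.mem_cons_of_mem _ hu), h1.1.2.2⟩, List.getLastD_cons]
    · rw [if_neg h1]
      exact zero_le
  · unfold runF
    refine le_of_eq (ENNReal.tsum_eq_zero.2 fun ms => ?_)
    rw [if_neg]
    rintro ⟨h1, -⟩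
    exact h0 (h1.2.1 g List.mem_cons_self)

lemma sum_geo {a : ℝ} (ha : 2 ≤ a) (n : ℕ) : ∑ i ∈ range n, a ^ i ≤ a ^ n := by
  induction n with
  | zero => simp
  | succ n ih =>
    rw [Finset.sum_range_succ, pow_succ]
    have : 0 ≤ a ^ n := by positivity
    nlinarith

lemma vA_sumr {D : ℕ} {A : Set (List Bool)} (m : ℕ) (F : ℕ → List Bool → ℝ≥0∞) (t : List Bool) :
    vA D A (fun g => ∑ n ∈ range m, F n g) t = ∑ n ∈ range m, vA D A (F n) t := by
  unfold vA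
  rw [Rec8.sw_sum]

end RFl

open RFl in
/-- the fill runs, for a predicate Dm -/
theorem smR_fill_of {Dm : ℕ → ℝ≥0∞ → (List Bool → ℝ≥0∞) → Prop} {kc mu : ℕ} {Q : ℝ} (hQ : 1 ≤ Q)
    (hall : ∀ (y : ℝ≥0∞) (Ψ : List Bool → ℝ≥0∞), Dm kc y Ψ → TS2.AllG Ψ y (Dm kc) kc (2 ^ (kc + mu + 2)) Q)
    (hz : ∃ (y : ℝ≥0∞) (Ψ : List Bool → ℝ≥0∞), Dm kc y Ψ) {S : Set (List Bool)} {δ : ℝ} (hδ : 0 ≤ δ)
    (hS : SmD Dm kc S δ) (m1 J0 : ℕ) : SmR Dm kc (RFill kc mu m1 J0 S) (Q * (2 * Q) ^ m1 * δ ^ J0) := by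
  classical
  have hQ0 : 0 ≤ Q := by linarith
  have hUk := (Ub_pos kc).le
  -- the numbers
  have hnum : ∀ (x : ℝ≥0∞) (c : ℝ), 0 ≤ c → ∑ n ∈ range m1, ENNReal.ofReal c *
      (ENNReal.ofReal ((2 * Q) ^ n * δ ^ J0) * x) ≤ ENNReal.ofReal (c * ((2 * Q) ^ m1 * δ ^ J0)) * x := by
    intro x c hc
    rw [← Finset.mul_sum, ← Finset.sum_mul, ← mul_assoc, ← ENNReal.ofReal_sum_of_nonneg (fun n _ => by positivity),
      ← ENNReal.ofReal_mul hc, ← Finset.sum_mul]
    refine mul_le_mul_left (ENNReal.ofReal_le_ofReal ?_) x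
    have := sum_geo (by linarith : 2 ≤ 2 * Q) m1
    gcongr
  refine ⟨fun x Φ hΦ => ?_, fun y x Ψ Φ hΨ hf hΦ => ?_⟩
  · obtain ⟨y, Ψ, hΨ⟩ := hz
    have hag := hall y Ψ hΨ
    have h1 : ∀ t, vA (2 ^ (kc + 4)) (HB (2 ^ (kc + 4))) (runF (RFill kc mu m1 J0 S) Φ) t ≤
        ∑ n ∈ range m1, vA (2 ^ (kc + 4)) (BrR (2 ^ (kc + 4)) (2 ^ (kc + mu + 2)))
          (FS Φ (2 ^ (kc + 4)) (2 ^ (kc + mu + 2)) S n J0) t := by
      intro t
      rw [← vA_sumr]
      unfold vA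
      rw [Rec8.sw_ind, Rec8.sw_ind]
      refine ENNReal.tsum_le_tsum fun g => ?_
      by_cases hg : g ∈ {g' | g' ∈ HB (2 ^ (kc + 4)) ∧ RT (2 ^ (kc + 4)) LFold t g'}
      · rw [if_pos hg]
        by_cases h0 : g ∈ BrR (2 ^ (kc + 4)) (2 ^ (kc + mu + 2))
        · rw [if_pos (show g ∈ {g' | g' ∈ BrR (2 ^ (kc + 4)) (2 ^ (kc + mu + 2)) ∧ RT (2 ^ (kc + 4)) LFold t g'} from
            ⟨h0, hg.2⟩)]
          refine mul_le_mul_right ((runF_le hg.1 Φ).trans ?_) _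
          rw [if_pos h0]
        · have := runF_le (S := S) (kc := kc) (mu := mu) (m1 := m1) (J0 := J0) hg.1 Φ
          rw [if_neg h0, nonpos_iff_eq_zero] at this
          rw [this, mul_zero]
          exact zero_le
      · rw [if_neg hg]
        exact zero_le
    refine (xT_mono h1).trans ?_
    have h2 : xT (2 ^ (kc + 4)) kc (fun t => ∑ n ∈ range m1, vA (2 ^ (kc + 4)) (BrR (2 ^ (kc + 4)) (2 ^ (kc + mu + 2)))
        (FS Φ (2 ^ (kc + 4)) (2 ^ (kc + mu + 2)) S n J0) t) ≤ ∑ n ∈ range m1, xT (2 ^ (kc + 4)) kc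
        (vA (2 ^ (kc + 4)) (BrR (2 ^ (kc + 4)) (2 ^ (kc + mu + 2))) (FS Φ (2 ^ (kc + 4)) (2 ^ (kc + mu + 2)) S n J0)) := by
      generalize m1 = m
      induction m with
      | zero =>
        simp only [Finset.range_zero, Finset.sum_empty]
        refine xT_le fun b I _ _ => ?_
        rw [Rec8.sw_zero]
        exact zero_le
      | succ m ih =>
        simp only [Finset.sum_range_succ]
        exact (xT_add _ _ _ _).trans (add_le_add ih le_rfl)
    refine h2.trans ?_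
    refine (Finset.sum_le_sum fun n _ => ?_).trans ((hnum x Q hQ0).trans (le_of_eq ?_))
    · obtain ⟨x', h3, h4⟩ := Dm_FS (S := S) hQ hδ hag hS.near hΦ n J0
      exact (hag.near x' _ h4).trans (mul_le_mul_right h3 _)
    · rw [← mul_assoc]
  · have hag := hall y Ψ hΨ
    have h1 : Rec8.sw (HB (2 ^ (kc + 4))) (fun g => Ψ (rev g) * runF (RFill kc mu m1 J0 S) Φ g) ≤
        ∑ n ∈ range m1, Rec8.sw (BrR (2 ^ (kc + 4)) (2 ^ (kc + mu + 2)))
          (fun g => Ψ (rev g) * FS Φ (2 ^ (kc + 4)) (2 ^ (kc + mu + 2)) S n J0 g) := by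
      rw [← Rec8.sw_sum, Rec8.sw_ind, Rec8.sw_ind]
      refine ENNReal.tsum_le_tsum fun g => ?_
      by_cases hg : g ∈ HB (2 ^ (kc + 4))
      · rw [if_pos hg]
        have h5 := runF_le (S := S) (kc := kc) (mu := mu) (m1 := m1) (J0 := J0) hg Φ
        by_cases h0 : g ∈ BrR (2 ^ (kc + 4)) (2 ^ (kc + mu + 2))
        · rw [if_pos h0] at h5 ⊢
          rw [← Finset.mul_sum]
          exact mul_le_mul_right (mul_le_mul_right h5 _) _
        · rw [if_neg h0, nonpos_iff_eq_zero] at h5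
          rw [h5, mul_zero, mul_zero]
          exact zero_le
      · rw [if_neg hg]
        exact zero_le
    refine h1.trans ?_
    have h6 : ∀ n ∈ range m1, Rec8.sw (BrR (2 ^ (kc + 4)) (2 ^ (kc + mu + 2)))
          (fun g => Ψ (rev g) * FS Φ (2 ^ (kc + 4)) (2 ^ (kc + mu + 2)) S n J0 g) ≤
        ENNReal.ofReal (Q * Ub kc) * (ENNReal.ofReal ((2 * Q) ^ n * δ ^ J0) * (y * x)) := by
      intro n _
      obtain ⟨x', h3, h4⟩ := Dm_FS (S := S) hQ hδ hag hS.near hΦ n J0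
      refine (hag.free x' _ h4).trans (mul_le_mul_right ?_ _)
      calc y * x' ≤ y * (ENNReal.ofReal ((2 * Q) ^ n * δ ^ J0) * x) := mul_le_mul_right h3 _
        _ = _ := by ring
    refine (Finset.sum_le_sum h6).trans ((hnum (y * x) _ (mul_nonneg hQ0 hUk)).trans (le_of_eq ?_))
    congr 2
    ring

/-- **the fill runs are a class of runs of small norm** -/
theorem smR_fill : ∃ K : ℝ, 1 ≤ K ∧ ∀ (kc mu m1 J0 : ℕ) (S : Set (List Bool)) (δ : ℝ), 0 ≤ δ →
    SmD DmJ kc S δ → SmR DmJ kc (RFill kc mu m1 J0 S) ((K * 2 ^ mu) ^ (m1 + 1) * δ ^ J0) := by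
  obtain ⟨C, δ0, hI⟩ := inp_exists
  obtain ⟨K, hK, h⟩ := EX.allG dmP (ssA hI) ss3P ssDP
  refine ⟨2 * K * 4, by linarith, fun kc mu m1 J0 S δ hδ hS => ?_⟩
  have h2 : (1 : ℝ) ≤ 2 ^ (mu + 2) := one_le_pow₀ (by norm_num)
  have hQ : 1 ≤ K * 2 ^ (mu + 2) := by nlinarith
  have h0 : HerD (2 ^ (kc + 4)) (fun _ => (0 : ℝ≥0∞)) := ⟨fun _ _ _ => le_rfl, fun _ _ _ _ => le_rfl⟩
  have h1 := smR_fill_of (Dm := DmJ) (kc := kc) (mu := mu) hQ (fun y Ψ hΨ => h kc mu Ψ y hΨ)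
    ⟨_, _, dmP.dm kc _ h0⟩ hδ hS m1 J0
  have e1 : K * 2 ^ (mu + 2) * (2 * (K * 2 ^ (mu + 2))) ^ m1 * δ ^ J0 ≤ (2 * K * 4 * 2 ^ mu) ^ (m1 + 1) * δ ^ J0 := by
    refine mul_le_mul_of_nonneg_right ?_ (by positivity)
    have e2 : 2 * K * 4 * 2 ^ mu = 2 * (K * 2 ^ (mu + 2)) := by ring
    rw [e2]
    obtain ⟨q, hq⟩ : ∃ q, q = K * 2 ^ (mu + 2) := ⟨_, rfl⟩
    rw [← hq] at hQ ⊢
    rw [pow_succ, mul_comm]
    have : 0 ≤ (2 * q) ^ m1 := by positivity
    nlinarith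
  have hU := (Ub_pos kc).le
  refine ⟨fun x Φ hΦ => (h1.near x Φ hΦ).trans (mul_le_mul_left (ENNReal.ofReal_le_ofReal e1) _), fun y x Ψ Φ hΨ hf hΦ =>
    (h1.free y x Ψ Φ hΨ hf hΦ).trans (mul_le_mul_left (ENNReal.ofReal_le_ofReal (mul_le_mul_of_nonneg_right e1 hU)) _)⟩

end NTA

end HexObs
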