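import Pool.Agent.NTA.RunCs
import Pool.Agent.NTA.RunFill

/-!
NTA (natural time, all scales): one step with the leaves of t, final form. Either t has a bad run (m0 leaves in the box, or
less with at least J0 + 1 long ones behind the first) in one of the two directions, or the time spent in the box is small.
-/

set_option autoImplicit false

namespace HexObs

namespace NTA

open Finset TS SDN NTW

open scoped ENNReal

/-- t has, in the direction dir at the scale kc + 5, a run of interior leaves in R -/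
def HasRun (dir : Bool) (kc : ℕ) (R : Set (List (List Bool))) (t : List Bool) : Prop :=
  ∃ (m u : ℕ) (e : ℕ → ℕ), Lf dir (kc + 5) t m u e ∧ ∃ l d : ℕ, 2 ≤ l ∧ 1 ≤ d ∧ l + d + 1 ≤ m ∧ lws t e l d ∈ R

/-- the long leaves -/
def LongL (kc mu : ℕ) (h : ℝ) : Set (List Bool) := {g | g ∈ BrR (2 ^ (kc + 4)) (2 ^ (kc + mu + 2)) ∧ h ≤ g.length}

lemma card_filter_le_length {α : Type} (f : ℕ → α) (P : α → Bool) (n : ℕ) :
    (((List.range n).map f).tail.filter P).length = ((Finset.range n).filter fun i => 1 ≤ i ∧ P (f i) = true).card := by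
  rcases Nat.eq_zero_or_pos n with rfl | hn
  · simp
  obtain ⟨k, rfl⟩ : ∃ k, n = k + 1 := ⟨n - 1, by omega⟩
  have h1 : ((List.range (k + 1)).map f).tail = (List.range k).map (fun i => f (i + 1)) := by
    rw [List.range_succ_eq_map, List.map_cons, List.tail_cons, List.map_map]
    rfl
  rw [h1, T2.card_filter_range]
  refine Finset.card_bij (fun i _ => i + 1) ?_ ?_ ?_
  · intro i hi
    rw [Finset.mem_filter, Finset.mem_range] at hi ⊢
    exact ⟨by omega, by omega, hi.2⟩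
  · intro i _ j _ h
    omega
  · intro i hi
    rw [Finset.mem_filter, Finset.mem_range] at hi
    refine ⟨i - 1, ?_, by omega⟩
    rw [Finset.mem_filter, Finset.mem_range]
    refine ⟨by omega, ?_⟩
    rw [Nat.sub_add_cancel hi.2.1]
    exact hi.2.2

/-- a bad run or a partition in the direction dir -/
theorem run_or_part : ∃ Cc : ℕ, 1 ≤ Cc ∧ ∀ (dir : Bool) (kc w0 μ n m0 J0 x y : ℕ) (h : ℝ) (t : List Bool), t ∈ SA →
    w0 ≤ kc → Bx (kc + 5 + μ) t x y → x < y → 6 ≤ m0 → Cc * 2 ^ w0 * 4 ^ μ ≤ n →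
    HasRun dir kc (CS (2 ^ (kc + 4)) (2 ^ (kc + 5 + μ)) (kc + 2) (2 ^ (kc - w0)) n m0) t ∨
      HasRun dir kc (RFill kc (μ + 3) m0 (J0 + 1) (LongL kc (μ + 3) h)) t ∨
      Part (fun i => lvl dir (vx oo up t i)) x y (RR (kc + 5)) (m0 + 5) (J0 + 6) (h + 1) := by
  classical
  obtain ⟨Cc, hCc, hcs⟩ := run_cs
  refine ⟨Cc, hCc, fun dir kc w0 μ n m0 J0 x y h t ht hw0 hbx hxy hm0 hn => ?_⟩
  obtain ⟨m, u, e, hF⟩ := lf_exists dir (kc + 5) t
  obtain ⟨l, d, hld, hP⟩ := part_run hF hxy hbx.2.1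
  by_cases hd : m0 < d
  · -- the crowd
    left
    obtain ⟨l1, l2, l3, l4⟩ : 2 ≤ l ∧ l + d + 1 ≤ m ∧ x ≤ e l ∧ e (l + d) ≤ y := by
      rcases hld with h0 | h0
      · omega
      · exact h0
    refine ⟨m, u, e, hF, l, m0, l1, by omega, by omega, ?_⟩
    exact hcs dir kc w0 μ m u l m0 n x y t e ht hw0 hF hbx l3 ((lf_mono hF (by omega) (by omega)).trans l4) (by omega)
      (by omega) hm0 hn
  right
  rw [not_lt] at hd
  by_cases hJ : ((range d).filter (fun i => 1 ≤ i ∧ lw t (e (l + i)) (e (l + i + 1)) ∈ {g : List Bool | h ≤ g.length})).card ≤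
      J0
  · right
    refine hP m0 J0 {g : List Bool | h ≤ g.length} h ?_ hd hJ
    intro g hg
    rw [Set.mem_ofPred_eq, not_le] at hg
    exact hg.le
  · left
    rw [not_le] at hJ
    have hd1 : 1 ≤ d := by
      rcases Nat.eq_zero_or_pos d with h0 | h0
      · rw [h0] at hJ
        simp at hJ
      · exact h0
    obtain ⟨l1, l2, l3, l4⟩ : 2 ≤ l ∧ l + d + 1 ≤ m ∧ x ≤ e l ∧ e (l + d) ≤ y := by
      rcases hld with h0 | h0
      · omega
      · exact h0
    have hbr := run_box ht hF hbx l3 l4 (by omega) l2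
    have hbr' : ∀ g ∈ lws t e l d, g ∈ BrR (2 ^ (kc + 4)) (2 ^ (kc + (μ + 3) + 2)) := by
      intro g hg
      obtain ⟨a, a1, a2, a3⟩ := hbr g hg
      refine ⟨a, a1, a2.trans ?_, a3⟩
      rw [show kc + (μ + 3) + 2 = kc + 5 + μ by ring]
    refine ⟨m, u, e, hF, l, d, l1, hd1, l2, ?_, hbr', ?_⟩
    · rw [PE.lws_length]
      exact hd
    · have h1 : ((lws t e l d).tail.filter (fun g => decide (g ∈ LongL kc (μ + 3) h))).length =
          ((range d).filter (fun i => 1 ≤ i ∧ lw t (e (l + i)) (e (l + i + 1)) ∈ {g : List Bool | h ≤ g.length})).card := by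
        unfold lws
        rw [card_filter_le_length]
        apply congrArg
        apply Finset.filter_congr
        intro i hi
        rw [Finset.mem_range] at hi
        rw [decide_eq_true_eq]
        refine and_congr_right fun _ => ?_
        constructor
        · intro h2
          exact h2.2
        · intro h2
          refine ⟨hbr' _ ?_, h2⟩
          unfold lws
          exact List.mem_map.2 ⟨i, List.mem_range.2 hi, rfl⟩
      rw [h1]
      omega

/-- **one step of the descent** -/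
theorem step_all : ∃ Cc : ℕ, 1 ≤ Cc ∧ ∀ (kc w0 μ n m0 J0 x y : ℕ) (h S1 : ℝ) (t : List Bool), t ∈ SA →
    w0 ≤ kc → 6 ≤ m0 → Cc * 2 ^ w0 * 4 ^ μ ≤ n → 0 ≤ h → 0 ≤ S1 →
    (∀ dir, ¬ HasRun dir kc (CS (2 ^ (kc + 4)) (2 ^ (kc + 5 + μ)) (kc + 2) (2 ^ (kc - w0)) n m0) t) →
    (∀ dir, ¬ HasRun dir kc (RFill kc (μ + 3) m0 (J0 + 1) (LongL kc (μ + 3) h)) t) →
    (∀ x' y', Bx (kc + 6) t x' y' → (y' : ℝ) - x' ≤ S1) → Bx (kc + 5 + μ) t x y →
    (y : ℝ) - x ≤ 2 * (m0 + 5) * (h + 1) + (J0 + 6) ^ 2 * (2 ^ (μ + 5) * (S1 + 1)) := by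
  obtain ⟨Cc, hCc, hrp⟩ := run_or_part
  refine ⟨Cc, hCc, fun kc w0 μ n m0 J0 x y h S1 t ht hw0 hm0 hn hh hS1 hc hf hS hbx => ?_⟩
  rcases Nat.lt_or_ge x y with hxy | hxy
  · have hP : ∀ dir, Part (fun i => lvl dir (vx oo up t i)) x y (RR (kc + 5)) (m0 + 5) (J0 + 6) (h + 1) := by
      intro dir
      rcases hrp dir kc w0 μ n m0 J0 x y h t ht hw0 hbx hxy hm0 hn with h1 | h1 | h1
      · exact absurd h1 (hc dir)
      · exact absurd h1 (hf dir)
      · exact h1
    have := step_box (b := kc + 5) (by omega) hbx (by linarith) hS1 (fun x' y' _ _ hb => hS x' y' hb) (hP false) (hP true)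
    push_cast at this
    exact this
  · have h1 : (y : ℝ) ≤ x := by exact_mod_cast hxy
    have h2 : (0 : ℝ) ≤ 2 * (m0 + 5) * (h + 1) := by positivity
    have h3 : (0 : ℝ) ≤ (J0 + 6) ^ 2 * (2 ^ (μ + 5) * (S1 + 1)) := by positivity
    linarith

/-- the whole walk -/
lemma bx_all {k : ℕ} {t : List Bool} (ht : t ∈ WL k) : Bx (k + 2) t 0 t.length := by
  refine ⟨Nat.zero_le _, le_rfl, ?_⟩
  intro dir i j _ hi _ hj
  have h1 := ht.2 i hi dir
  have h2 := ht.2 j hj dir
  unfold row at h1 h2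
  rw [abs_le] at h1 h2
  have hp : (1 : ℤ) ≤ 2 ^ k := by exact_mod_cast Nat.one_le_two_pow
  have h3 : (2 : ℤ) ^ (k + 2) = 4 * 2 ^ k := by rw [pow_add]; ring
  rw [h3]
  omega

/-- the number of the steps in a box -/
lemma bx_len {q x y : ℕ} {t : List Bool} (ht : t ∈ SA) (hb : Bx q t x y) : (y : ℝ) - x ≤ 100 * 4 ^ (q + 3) := by
  have h1 : (t.drop x).take (y - x) ∈ WL (q + 1 + 2) := by
    apply T2.infix_WL ht hb.1 hb.2.1
    intro dir i j hi hi' hj hj'
    have := hb.2.2 dir i j hi hi' hj hj'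
    unfold row
    have hp : (1 : ℤ) ≤ 2 ^ q := by exact_mod_cast Nat.one_le_two_pow
    rw [pow_succ]
    omega
  have h2 := WL_length h1
  have h3 : ((t.drop x).take (y - x)).length = y - x := by
    rw [List.length_take, List.length_drop]
    have := hb.1
    have := hb.2.1
    omega
  rw [h3] at h2
  have h4 : ((y - x : ℕ) : ℝ) ≤ 100 * 4 ^ (q + 3) := by
    have : y - x ≤ 100 * 4 ^ (q + 3) := h2
    exact_mod_cast this
  rwa [Nat.cast_sub hb.1] at h4

end NTA

end HexObs
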