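import Pool.Agent.NTA.TailDefs
import Pool.Agent.NTA.StepA
import Pool.Agent.NTA.RunX
import Pool.Agent.NTA.RunCrd
import Pool.Agent.NTA.RunFill
import Pool.Agent.NTW.Ext
import Pool.Agent.NTW.EqJ
import Pool.Agent.T2.Defs

/-!
NTA: ensembles of words (all words of the box, bridges of the box) and the literal statements of the induction over the
scales.
-/

set_option autoImplicit false

namespace HexObs

namespace NTA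

open Finset TS SDN NTW

open scoped ENNReal

/-- an ensemble E of words of the boxes 2 ^ K with the normalisation nu: the event theorem for runs holds -/
structure Ens (E : ℕ → Set (List Bool)) (nu : ℕ → ℝ≥0∞) : Prop where
  sub : ∀ K, E K ⊆ WL K
  run : ∃ (C : ℝ) (k0 : ℕ), 1 ≤ C ∧ ∀ (dir : Bool) (kc J : ℕ) (R : Set (List (List Bool))) (δ : ℝ), k0 ≤ kc → 6 ≤ J →
    0 < δ → SmR DmJ kc R δ → gf {t | t ∈ E (kc + J) ∧ HasRun dir kc R t} ≤ ENNReal.ofReal (C ^ J * δ) * nu (kc + J)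
  tot : ∃ C : ℝ, 1 ≤ C ∧ ∀ k, gf (E k) ≤ ENNReal.ofReal C * nu k
  low : ∃ c : ℝ, 0 < c ∧ ∀ k, ENNReal.ofReal c ≤ nu k

/-- tail of the lengths of the ensemble at the scales below K -/
def TAk (m : ℕ → ℝ) (E : ℕ → Set (List Bool)) (nu : ℕ → ℝ≥0∞) (Q : ℕ) (A : ℝ) (K : ℕ) : Prop :=
  ∀ (k : ℕ) (lam : ℝ), k < K → 1 ≤ lam →
    gf {t | t ∈ E k ∧ lam * m k ≤ (t.length : ℝ)} ≤ ENNReal.ofReal (A / lam ^ Q) * nu k

/-- tail of the lengths of the bridges, with the scale of the box -/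
def TBk (m : ℕ → ℝ) (Q r0 : ℕ) (CQ C4 c5 A : ℝ) (K : ℕ) : Prop :=
  ∀ j s : ℕ, j + s + r0 ≤ K → ∀ y : ℝ, 1 ≤ y →
    NTm.TL (2 ^ j) (y * m j) ≤
      ENNReal.ofReal ((CQ ^ (s + 1) * A / y ^ Q + C4 * (4 : ℝ) ^ (-(c5 * 2 ^ s : ℝ))) * Ub j)

/-- from the tail of the ensemble to the tail of the bridges -/
def TBof (m : ℕ → ℝ) (E : ℕ → Set (List Bool)) (nu : ℕ → ℝ≥0∞) : Prop :=
  ∀ Q : ℕ, ∃ (r0 : ℕ) (CQ C4 c5 : ℝ), 1 ≤ CQ ∧ 0 < C4 ∧ 0 < c5 ∧ ∀ (A : ℝ) (K : ℕ), 1 ≤ A → TAk m E nu Q A K →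
    TBk m Q r0 CQ C4 c5 A K

/-- the long leaves are a class of small norm -/
def LongN (m : ℕ → ℝ) : Prop := ∃ c2 η ε : ℝ, 0 < c2 ∧ 0 < η ∧ η ≤ 1 / 8 ∧ 0 < ε ∧ ∃ Q1 : ℕ, ∀ Q : ℕ, Q1 ≤ Q →
  ∀ (mu r0 : ℕ) (CQ C4 c5 : ℝ), 1 ≤ CQ → 0 < C4 → 0 < c5 → ∃ (y0 : ℝ) (b1 : ℕ), ∀ b : ℕ, b1 ≤ b → ∀ A y : ℝ, 0 < A →
    y0 ≤ y → y ≤ (2 : ℝ) ^ (ε * b) → A ≤ y ^ ((1 + ε) * Q) → TBk m Q r0 CQ C4 c5 A b →
    SmD DmJ (b - 5) (BrR (2 ^ (b - 1)) (2 ^ (b + mu + 2)) ∩ T2.Sp (T2.ee η b) (y * m b)) (y ^ (-c2))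

/-- lower bound of the mean length, up to powers -/
def MPow (m : ℕ → ℝ) : Prop := ∀ ε : ℝ, 0 < ε → ∃ l0 : ℕ, ∀ l : ℕ, l0 ≤ l → (2 : ℝ) ^ ((4 / 3 - ε) * l) ≤ m l

/-- the deep events: a wide end or an infix with too many letters -/
def Deep (η β : ℝ) (k : ℕ) : Set (List Bool) :=
  {t | t ∈ WL k ∧ ∃ b : ℕ, k ≤ 4 * b ∧ b ≤ k ∧
    ((∃ (X : List Bool) (h : ℕ), X ∈ Brd h ∧ h ≤ 2 ^ (T2.ee η b) ∧ X.dropLast <:+: t ∧ ¬ InBox X (2 ^ (T2.ff η b))) ∨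
      ∃ v : List Bool, v <:+: t ∧ v ∈ WL b ∧ (2 : ℝ) ^ (β * b) ≤ v.length)}

/-- the weights of the deep events -/
def DeepN : Prop := ∀ η β Q : ℝ, 0 < η → η ≤ 1 / 8 → 4 / 3 < β → 0 < Q → ∃ K0 : ℕ, ∀ k : ℕ, K0 ≤ k →
  gf (Deep η β k) ≤ ENNReal.ofReal ((2 : ℝ) ^ (-(Q * k)))

/-- long leaves are special, no deep event -/
def LongSp : Prop := ∀ η β : ℝ, 0 < η → η ≤ 1 / 8 → 4 / 3 < β → ∃ K0 : ℕ, ∀ (k kc mu m0 J : ℕ) (dir : Bool) (y : ℝ)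
  (t : List Bool), K0 ≤ k → k ≤ 3 * (kc + 5) → kc + 5 ≤ k → 0 ≤ y → t ∈ WL k → t ∉ Deep η β k →
  HasRun dir kc (RFill kc mu m0 J (LongL kc mu (y + 2 * (2 : ℝ) ^ (β * ((T2.ff η (kc + 5) + 2 : ℕ) : ℝ)) + 4))) t →
  HasRun dir kc (RFill kc mu m0 J (BrR (2 ^ (kc + 4)) (2 ^ (kc + mu + 2)) ∩ T2.Sp (T2.ee η (kc + 5)) y)) t

/-! ### the ensemble of all words of the box -/

/-- total weight of the words of the box -/
theorem tot_WL : ∃ C : ℝ, 1 ≤ C ∧ ∀ k, gf (WL k) ≤ ENNReal.ofReal C * (ENNReal.ofReal (Ub k) * Xb k ^ 2) := by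
  obtain ⟨Ci, δi, hI⟩ := inp_exists
  obtain ⟨K, hK, hext⟩ := ext_of (ssA hI) ssDP coverTwoR pivotEx
  obtain ⟨D, hD, hDX⟩ := Xb_pow
  refine ⟨K * 4 * D ^ 4, ?_, fun k => ?_⟩
  · have : 1 ≤ D ^ 4 := one_le_pow₀ hD
    nlinarith
  obtain ⟨lam', hQ⟩ := QL_exists (k + 2)
  have hUk := Ub_pos k
  have hU : Ub (k + 2) ≤ 4 * Ub k := by
    have a1 := Ub_succ k
    have a2 := Ub_succ (k + 1)
    rw [show k + 2 = k + 1 + 1 by ring]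
    linarith
  have hD0 : 0 ≤ D := by linarith
  have h1 : gf {t | t ∈ SA ∧ t ∈ WL k} ≤ ENNReal.ofReal (K * Ub (k + 2)) * Xb (k + 2) ^ 2 := by
    refine gf_SA_le fun lam => ?_
    refine (gf_mono fun t ht => ?_).trans ((hext (k + 2) lam lam' hQ).trans
      (mul_le_mul_right (pow_le_pow_left' (bl_le_Xb _ _) 2) _))
    refine ⟨ht.1, fun i i' hi hi' => ?_⟩
    exact (bx_all ht.2).2.2 false i i' (Nat.zero_le _) hi (Nat.zero_le _) hi'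
  have h2 : gf (WL k) ≤ gf {t | t ∈ SA ∧ t ∈ WL k} := gf_mono fun t ht => ⟨ht.1, ht⟩
  refine h2.trans (h1.trans ?_)
  calc ENNReal.ofReal (K * Ub (k + 2)) * Xb (k + 2) ^ 2
      ≤ ENNReal.ofReal (K * (4 * Ub k)) * (ENNReal.ofReal (D ^ 2) * Xb k) ^ 2 := by
        refine mul_le_mul' (ENNReal.ofReal_le_ofReal ?_) (pow_le_pow_left' (hDX k 2) 2)
        exact mul_le_mul_of_nonneg_left hU (by linarith)
    _ = ENNReal.ofReal (K * 4 * D ^ 4) * (ENNReal.ofReal (Ub k) * Xb k ^ 2) := by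
        rw [mul_pow, ← ENNReal.ofReal_pow (by positivity), ← mul_assoc, ← ENNReal.ofReal_mul (by positivity),
          ← mul_assoc (ENNReal.ofReal (K * 4 * D ^ 4)), ← ENNReal.ofReal_mul (show 0 ≤ K * 4 * D ^ 4 by positivity)]
        congr 2
        ring

/-- **the words of the box are an ensemble** -/
theorem ens_WL : Ens WL (fun k => ENNReal.ofReal (Ub k) * Xb k ^ 2) := by
  refine ⟨fun K => subset_rfl, ?_, tot_WL, ?_⟩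
  · obtain ⟨C, k0, hC, h⟩ := runX
    refine ⟨C, k0, hC, fun dir kc J R δ hk hJ hδ hS => ?_⟩
    refine (h dir kc J R δ hk hJ hδ hS).trans (le_of_eq ?_)
    rw [ENNReal.ofReal_mul (by positivity), mul_assoc]
  · obtain ⟨x, hx0, hx⟩ : ∃ x : ℝ, 0 < x ∧ Xb 0 = ENNReal.ofReal x :=
      ⟨(Xb 0).toReal, ENNReal.toReal_pos (Xb_ne_zero 0) (Xb_ne_top 0), (ENNReal.ofReal_toReal (Xb_ne_top 0)).symm⟩
    refine ⟨Ub 0 * x ^ 2, by have := Ub_pos 0; positivity, fun k => ?_⟩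
    rw [ENNReal.ofReal_mul (Ub_pos 0).le, ENNReal.ofReal_pow hx0.le, ← hx]
    exact mul_le_mul' (ENNReal.ofReal_le_ofReal (Ub_mono (Nat.zero_le k))) (pow_le_pow_left' (Xb_mono (Nat.zero_le k)) 2)

end NTA

end HexObs
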