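import Pool.Agent.NTA.LongNC
import Pool.Agent.NTA.TailEns

/-!
NTA (A4, long leaves): LongN of TailEns.
-/

set_option autoImplicit false

namespace HexObs

namespace NTA

theorem long_n {m : ℕ → ℝ} (hlow : MLow m) (hup : MUp m) (hM : M1 m) : LongN m := long_nc hlow hup hM

end NTA

end HexObs
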