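import Pool.Agent.NTA.TailEns
import Pool.Agent.T2.NotSp
import Pool.Agent.T2.Defs

/-!
NTA (natural time, all scales): long leaves are special leaves (T2.Sp: every middle part between two small ends is long), off
the deep events.
-/

set_option autoImplicit false

namespace HexObs

namespace NTA

open Finset TS SDN NTW

open scoped ENNReal

/-- a run with long leaves is a run with special leaves -/
theorem long_sp {dir : Bool} {kc mu m0 J e f : ℕ} {y S2 h : ℝ} {t : List Bool} (ht : t ∈ SA) (hef : e ≤ f)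
    (hbox : ∀ X h, X ∈ Brd h → h ≤ 2 ^ e → X.dropLast <:+: t → InBox X (2 ^ f))
    (hS2 : ∀ v, v <:+: t → v ∈ WL (f + 2) → (v.length : ℝ) ≤ S2) (hS : 0 ≤ S2) (hh : 2 * S2 + y + 4 ≤ h)
    (hR : HasRun dir kc (RFill kc mu m0 J (LongL kc mu h)) t) :
    HasRun dir kc (RFill kc mu m0 J (BrR (2 ^ (kc + 4)) (2 ^ (kc + mu + 2)) ∩ T2.Sp e y)) t := by
  classical
  obtain ⟨m, u, fo, hL, l, d, l1, l2, l3, r1, r2, r3⟩ := hR
  refine ⟨m, u, fo, hL, l, d, l1, l2, l3, r1, r2, r3.trans ?_⟩
  have hL' := hL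
  unfold Lf at hL'
  -- a long leaf of the run is special
  have key : ∀ i, i < d → lw t (fo (l + i)) (fo (l + i + 1)) ∈ LongL kc mu h →
      lw t (fo (l + i)) (fo (l + i + 1)) ∈ BrR (2 ^ (kc + 4)) (2 ^ (kc + mu + 2)) ∩ T2.Sp e y := by
    intro i hi hlong
    refine ⟨hlong.1, ?_⟩
    by_contra hcon
    have h1 := T2.not_special ht (by omega : 1 ≤ kc + 5) hL (i := l + i) (by omega) (by omega) hcon hef hbox hS2 hS
    have h2 := hlong.2
    have h3 : (lw t (fo (l + i)) (fo (l + i + 1))).length < fo (l + i + 1) - fo (l + i) := by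
      have h4 := hL'.lt (l + i) (by omega)
      have h5 := hL'.big (l + i) (by omega)
      unfold lw
      rw [List.length_append, List.length_take, List.length_drop, List.length_singleton]
      have h6 : fo (l + i) + 2 ≤ fo (l + i + 1) := by
        by_contra h7
        have h8 : fo (l + i + 1) = fo (l + i) + 1 := by omega
        have h9 : ∀ (g : ℕ → ℤ) (k : ℕ), Tight.sg k (g 1) - Tight.sg k (g 0) ≤ |g 1 - g 0| := by
          intro g k
          unfold Tight.sg
          split_ifs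
          · linarith [neg_abs_le (g 1 - g 0)]
          · exact le_abs_self _
        have h10 := h9 (fun q => lvl dir (vx oo up t (fo (l + i) + q))) (u + (l + i))
        simp only [add_zero] at h10
        rw [h8] at h5
        have h11 : |lvl dir (vx oo up t (fo (l + i) + 1)) - lvl dir (vx oo up t (fo (l + i)))| ≤ 2 := by
          rw [vx_succ]
          have h12 := dx_mem up_dirs t (fo (l + i))
          simp only [dirs, mem_insert, mem_singleton] at h12
          rcases h12 with h13 | h13 | h13 | h13 | h13 | h13 <;> rw [h13] <;> cases dir <;>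
            simp only [lvl, hd, ip, up, Bool.false_eq_true, if_false, if_true, Prod.fst_add, Prod.snd_add] <;>
            rw [abs_le] <;> constructor <;> omega
        have h12 : (1 : ℤ) ≤ 2 ^ kc := by exact_mod_cast Nat.one_le_two_pow
        have h13 : (2 : ℤ) ^ (kc + 5) = 32 * 2 ^ kc := by rw [pow_add]; ring
        unfold RR at h5
        rw [h13] at h5
        omega
      omega
    have h4 := (hL'.lt (l + i) (by omega)).le
    have h5 : ((lw t (fo (l + i)) (fo (l + i + 1))).length : ℝ) < fo (l + i + 1) - fo (l + i) := by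
      rw [← Nat.cast_sub h4]
      exact_mod_cast h3
    linarith
  have h1 : ∀ P : List Bool → Bool, ((lws t fo l d).tail.filter P).length =
      ((range d).filter (fun i => 1 ≤ i ∧ P (lw t (fo (l + i)) (fo (l + i + 1))) = true)).card := by
    intro P
    unfold lws
    exact card_filter_le_length _ _ _
  rw [h1, h1]
  apply Finset.card_le_card
  intro i hi
  rw [Finset.mem_filter, Finset.mem_range] at hi ⊢
  exact ⟨hi.1, hi.2.1, @decide_eq_true _ (Classical.propDecidable _)
    (key i hi.1 (@of_decide_eq_true _ (Classical.propDecidable _) hi.2.2))⟩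

/-- **long leaves are special off the deep events** -/
theorem longSp : LongSp := by
  intro η β hη hη1 hβ
  obtain ⟨K0, hK0⟩ := exists_nat_ge (6 / η)
  refine ⟨K0 + 1, fun k kc mu m0 J dir y t hk hk3 hkk hy ht hD hR => ?_⟩
  obtain ⟨b, hb⟩ : ∃ b, b = kc + 5 := ⟨_, rfl⟩
  rw [← hb] at hk3 hkk hR ⊢
  have hkR : 6 / η ≤ (k : ℝ) := hK0.trans (by exact_mod_cast (by omega : K0 ≤ k))
  rw [div_le_iff₀ hη] at hkR
  have hk3R : (k : ℝ) ≤ 3 * b := by exact_mod_cast hk3
  have hηb : 2 ≤ η * b := by nlinarith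
  have hfl1 : 2 ≤ ⌊η * b⌋₊ := Nat.le_floor (by exact_mod_cast hηb)
  have hfl2 : (⌊η * b⌋₊ : ℝ) ≤ η * b := Nat.floor_le (by positivity)
  have hfl3 : 8 * ⌊η * b⌋₊ ≤ b := by
    have h1 : (8 : ℝ) * (⌊η * b⌋₊ : ℝ) ≤ b := by
      have hb0 : (0 : ℝ) ≤ b := Nat.cast_nonneg b
      nlinarith
    exact_mod_cast h1
  have hfl4 : ⌊η * b⌋₊ ≤ ⌊2 * η * b⌋₊ := by
    apply Nat.floor_le_floor
    have hb0 : (0 : ℝ) ≤ b := Nat.cast_nonneg b
    nlinarith
  have hff : T2.ff η b = b - ⌊η * b⌋₊ := rfl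
  have hee : T2.ee η b = b - 5 - ⌊2 * η * b⌋₊ := rfl
  refine long_sp (e := T2.ee η b) (f := T2.ff η b) (S2 := (2 : ℝ) ^ (β * ((T2.ff η b + 2 : ℕ) : ℝ)))
    (h := y + 2 * (2 : ℝ) ^ (β * ((T2.ff η b + 2 : ℕ) : ℝ)) + 4) ht.1 (by rw [hff, hee]; omega) ?_ ?_ (by positivity)
    (by linarith) hR
  · intro X h hX hh hXt
    by_contra hcon
    exact hD ⟨ht, b, by omega, hkk, Or.inl ⟨X, h, hX, hh, hXt, hcon⟩⟩
  · intro v hv hvW
    by_contra hcon
    rw [not_le] at hcon
    exact hD ⟨ht, T2.ff η b + 2, by rw [hff]; omega, by rw [hff]; omega, Or.inr ⟨v, hv, hvW, hcon.le⟩⟩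

end NTA

end HexObs
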