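import Pool.Agent.NTA.MPow
import Pool.Agent.PW.ZtM
import Pool.Agent.NUF.MeanUp

/-!
NTA, (M1): the mean length of the bridges up to the height N is at most C mZ N; the sequence m k = mZ (2 ^ k) is a
scale of lengths.
-/

set_option autoImplicit false

namespace HexObs

namespace NTA

open Finset TS SDN NTW

open scoped ENNReal

lemma MM_UU : ∃ c : ℝ, 0 < c ∧ ∀ N : ℕ, 1 ≤ N → c * (N : ℝ) ^ (3 / 4 : ℝ) ≤ UU N := by
  obtain ⟨c, hc, h⟩ := T2.bT_quarter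
  refine ⟨c, hc, fun N hN => ?_⟩
  have hN0 : (0 : ℝ) < N := by exact_mod_cast hN
  have hne : ∀ i, BT i ≠ ⊤ := by
    intro i
    have h1 := T2.Amp.ofReal_UU i
    intro h2
    rw [Finset.sum_range_succ, h2, add_top] at h1
    exact ENNReal.ofReal_ne_top h1
  have h1 : UU N = ∑ i ∈ Finset.range (N + 1), (BT i).toReal := by
    have h2 := congrArg ENNReal.toReal (T2.Amp.ofReal_UU N)
    rw [ENNReal.toReal_ofReal (Num2Aux.UU_pos N).le, ENNReal.toReal_sum (fun i _ => hne i)] at h2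
    exact h2
  rw [h1, Finset.sum_range_succ']
  have h2 : ∀ i ∈ Finset.range N, c * (N : ℝ) ^ (-(1 / 4) : ℝ) ≤ (BT (i + 1)).toReal := by
    intro i hi
    rw [Finset.mem_range] at hi
    refine le_trans ?_ (h (i + 1) (by omega))
    refine mul_le_mul_of_nonneg_left ?_ hc.le
    refine Real.rpow_le_rpow_of_nonpos (by positivity) ?_ (by norm_num)
    exact_mod_cast hi
  have h3 := Finset.sum_le_sum h2
  rw [Finset.sum_const, Finset.card_range, nsmul_eq_mul] at h3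
  have h4 : (N : ℝ) * (c * (N : ℝ) ^ (-(1 / 4) : ℝ)) = c * (N : ℝ) ^ (3 / 4 : ℝ) := by
    have e1 : (N : ℝ) * (N : ℝ) ^ (-(1 / 4) : ℝ) = (N : ℝ) ^ (3 / 4 : ℝ) := by
      nth_rewrite 1 [← Real.rpow_one (N : ℝ)]
      rw [← Real.rpow_add hN0]
      norm_num
    rw [← e1]
    ring
  rw [h4] at h3
  have h5 : 0 ≤ (BT 0).toReal := ENNReal.toReal_nonneg
  linarith

/-- **(M1)**: the mean of the number of letters of the bridges up to the height N -/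
theorem mean_mZ : ∃ C : ℝ, 0 < C ∧ ∀ N : ℕ, 1 ≤ N →
    ∑ h ∈ Finset.range (N + 1), ∑' t : Brd h, (t.1.length : ℝ≥0∞) * wE t.1 ≤
      ENNReal.ofReal (C * UU N * PW.mZ N) := by
  obtain ⟨c, hc, hU⟩ := MM_UU
  refine ⟨6 / c, by positivity, fun N hN => ?_⟩
  have hN0 : (0 : ℝ) < N := by exact_mod_cast hN
  have hZ := PW.Zt_pos N
  rw [Finset.sum_range_succ']
  have h0 : ∑' t : Brd 0, (t.1.length : ℝ≥0∞) * wE t.1 = 0 := by
    refine ENNReal.tsum_eq_zero.2 fun t => ?_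
    have h1 : t.1 = [] := by
      have h2 := (mem_Brd.1 t.2).1
      by_contra hne
      have h3 : 1 ≤ t.1.length := List.length_pos_iff.2 hne
      have h4 := h2 1 le_rfl h3
      push_cast at h4
      omega
    rw [h1]
    simp
  rw [h0, add_zero]
  have h1 : ∀ h ∈ Finset.range N, ∑' t : Brd (h + 1), (t.1.length : ℝ≥0∞) * wE t.1 ≤
      ENNReal.ofReal (6 * N * PW.Zt N) := by
    intro h hh
    rw [Finset.mem_range] at hh
    refine (LP.mean_len_NF (by omega) fun M => PW.NF_le_Zt (h + 1) M).trans (ENNReal.ofReal_le_ofReal ?_)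
    have e1 : ((h + 1 : ℕ) : ℝ) ≤ N := by exact_mod_cast hh
    have e2 := PW.Zt_mono (show h + 1 ≤ N from hh)
    have e3 := PW.Zt_pos (h + 1)
    gcongr
  refine (Finset.sum_le_sum h1).trans ?_
  rw [Finset.sum_const, Finset.card_range, nsmul_eq_mul, ← ENNReal.ofReal_natCast,
    ← ENNReal.ofReal_mul (by positivity)]
  apply ENNReal.ofReal_le_ofReal
  have h2 : (N : ℝ) * N = (N : ℝ) ^ (3 / 4 : ℝ) * (N : ℝ) ^ (5 / 4 : ℝ) := by
    rw [← Real.rpow_add hN0, show (3 / 4 + 5 / 4 : ℝ) = ((2 : ℕ) : ℝ) by norm_num, Real.rpow_natCast]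
    ring
  have h3 := hU N hN
  have h4 : 0 ≤ PW.mZ N := PW.mZ_nonneg N
  calc (N : ℝ) * (6 * N * PW.Zt N) = 6 * ((N : ℝ) * N) * PW.Zt N := by ring
    _ = 6 / c * (c * (N : ℝ) ^ (3 / 4 : ℝ)) * PW.mZ N := by
        rw [h2]
        unfold PW.mZ
        field_simp
    _ ≤ 6 / c * UU N * PW.mZ N := by gcongr

/-- (M1) at the scales -/
theorem mean_M : ∃ C : ℝ, 0 < C ∧ ∀ k : ℕ,
    ∑ h ∈ Finset.range (2 ^ k + 1), ∑' t : Brd h, (t.1.length : ℝ≥0∞) * wE t.1 ≤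
      ENNReal.ofReal (C * Ub k * (fun k => PW.mZ (2 ^ k)) k) := by
  obtain ⟨C, hC, h⟩ := mean_mZ
  exact ⟨C, hC, fun k => h (2 ^ k) Nat.one_le_two_pow⟩

/-- Markov's inequality at the scales -/
theorem markov_M : ∃ C : ℝ, 0 < C ∧ ∀ (k : ℕ) (y : ℝ), 0 < y →
    NTm.TL (2 ^ k) y ≤ ENNReal.ofReal (C * (fun k => PW.mZ (2 ^ k)) k / y * Ub k) :=
  markov_of_mean mean_M

/-- the power lower bound -/
theorem mpow_M : ∀ ε : ℝ, 0 < ε → ∃ l0 : ℕ, ∀ l : ℕ, l0 ≤ l →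
    (2 : ℝ) ^ ((4 / 3 - ε) * (l : ℝ)) ≤ (fun k => PW.mZ (2 ^ k)) l :=
  mpow_of markov_M

/-- the slope -/
theorem mlow_M : MLow (fun k => PW.mZ (2 ^ k)) := by
  refine ⟨fun k => PW.mZ_pos Nat.one_le_two_pow, fun k j => ?_⟩
  have h := PW.mZ_slope (b := 2 ^ j) (N := 2 ^ k) Nat.one_le_two_pow
  have e1 : (((2 ^ j : ℕ) : ℝ)) ^ (5 / 4 : ℝ) = (2 : ℝ) ^ (5 / 4 * (j : ℝ)) := by
    push_cast
    rw [← Real.rpow_natCast, ← Real.rpow_mul (by norm_num), mul_comm]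
  rw [e1] at h
  have e2 : 2 ^ j * 2 ^ k = 2 ^ (k + j) := by rw [← pow_add, add_comm]
  rw [e2] at h
  exact h

/-- the doubling -/
theorem mup_M : MUp (fun k => PW.mZ (2 ^ k)) := by
  obtain ⟨a, C, ha, hC, h⟩ := PW.mZ_growth_32
  refine ⟨C * 4, by linarith, fun k => ?_⟩
  have h1 := h (2 ^ k) (2 ^ (k + 1)) Nat.one_le_two_pow (Nat.pow_le_pow_right (by norm_num) (Nat.le_succ k))
  have e1 : ((2 ^ (k + 1) : ℕ) : ℝ) / ((2 ^ k : ℕ) : ℝ) = 2 := by
    push_cast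
    rw [pow_succ]
    field_simp
  rw [e1] at h1
  have h2 : (2 : ℝ) ^ a ≤ 4 := by
    calc (2 : ℝ) ^ a ≤ (2 : ℝ) ^ (2 : ℝ) := Real.rpow_le_rpow_of_exponent_le (by norm_num) (by linarith)
      _ = 4 := by norm_num
  have h3 := PW.mZ_nonneg (2 ^ k)
  have h4 : 0 ≤ C := by linarith
  refine h1.trans ?_
  gcongr

end NTA

end HexObs
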