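import Pool.Agent.NTA.TailTB

/-!
NTA: the tail of the lengths of all words of the box, from the tail of the bridges.
-/

set_option autoImplicit false

namespace HexObs

namespace NTA

open Finset TS SDN NTW

open scoped ENNReal

/-- with the tail of the bridges the interface of every ensemble is free -/
theorem tbof_of_tb {m : ℕ → ℝ} (hB : TB m) (E : ℕ → Set (List Bool)) (nu : ℕ → ℝ≥0∞) : TBof m E nu := by
  intro Q
  obtain ⟨A0, hA0, h⟩ := hB Q
  refine ⟨0, max 1 A0, 1, 1, le_max_left _ _, one_pos, one_pos, fun A K hA _ j s _ y hy => ?_⟩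
  refine (h j y hy).trans (ENNReal.ofReal_le_ofReal ?_)
  refine mul_le_mul_of_nonneg_right ?_ (Ub_pos j).le
  have h1 : (1 : ℝ) ≤ max 1 A0 := le_max_left _ _
  have h2 : A0 ≤ (max 1 A0) ^ (s + 1) * A := by
    calc A0 ≤ max 1 A0 := le_max_right _ _
      _ = (max 1 A0) ^ 1 * 1 := by ring
      _ ≤ (max 1 A0) ^ (s + 1) * A := by
          refine mul_le_mul (pow_le_pow_right₀ h1 (by omega)) hA zero_le_one (by positivity)
  have hyQ : 0 < y ^ Q := by positivity
  calc A0 / y ^ Q ≤ (max 1 A0) ^ (s + 1) * A / y ^ Q := by gcongr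
    _ ≤ _ := by
        have : (0 : ℝ) ≤ 1 * (4 : ℝ) ^ (-(1 * 2 ^ s : ℝ)) := by positivity
        linarith

/-- **the tail of the lengths of all words of the box** -/
theorem ta_of {m : ℕ → ℝ} (hm : MLow m) (hu : MUp m) (hp : MPow m) (hL : LongN m) (hB : TB m) (hD : DeepN)
    (hS : LongSp) : TA m := by
  intro Q
  obtain ⟨A, hA, h⟩ := tail_of hm hu hp hL ens_WL (tbof_of_tb hB _ _) hD hS Q
  refine ⟨A, by linarith, fun k lam hlam => ?_⟩
  refine (h (k + 1) k lam (Nat.lt_succ_self k) hlam).trans (le_of_eq ?_)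
  rw [ENNReal.ofReal_mul (by positivity), mul_assoc]

end NTA

end HexObs
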