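import Pool.Agent.NTA.EnsBL
import Pool.Agent.NTA.TailTA
import Pool.Agent.NTA.LongN
import Pool.Agent.NTA.LongSp
import Pool.Agent.NTA.Deep
import Pool.Agent.NTA.MeanM

/-!
NTA: the tail of the lengths at every scale for the mean length of the bridges, without hypothesis.
-/

set_option autoImplicit false

namespace HexObs

namespace NTA

open Finset TS SDN NTW

open scoped ENNReal

/-- the mean length of the bridges of the scale k -/
lemma m1_M : M1 (fun k => PW.mZ (2 ^ k)) := by
  obtain ⟨C, -, h⟩ := mean_M
  exact ⟨C, h⟩

theorem longN_M : LongN (fun k => PW.mZ (2 ^ k)) := long_n mlow_M mup_M m1_M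

/-- **the tail of the lengths of the bridges at every scale** -/
theorem tb_M : TB (fun k => PW.mZ (2 ^ k)) :=
  tb_of (tail_of mlow_M mup_M mpow_M longN_M ens_BL (tbof_BL mlow_M mup_M) deepN longSp) (tbof_BL mlow_M mup_M)

/-- **the tail of the lengths of all words of the box at every scale** -/
theorem ta_M : TA (fun k => PW.mZ (2 ^ k)) := ta_of mlow_M mup_M mpow_M longN_M tb_M deepN longSp

end NTA

end HexObs
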