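import Pool.Agent.NTA.TailDefs
import Pool.Agent.NTW.DmJ
import Pool.Agent.NTW.EventDefs

/-!
NTA (natural time, all scales): the literal statements about the long leaves and the long half plane words.
-/

set_option autoImplicit false

namespace HexObs

namespace NTA

open Finset TS SDN NTW

open scoped ENNReal

/-- the long leaves (plain class) have a small norm -/
def LongQ (m : ℕ → ℝ) : Prop := ∀ q : ℕ, ∃ A : ℝ, 0 < A ∧ ∀ (k : ℕ) (y : ℝ), 1 ≤ y →
  SmD DmJ k {g | g ∈ BrR (2 ^ (k + 4)) (2 ^ (k + 8)) ∧ y * m k ≤ (g.length : ℝ)} (A / y ^ q)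

/-- tail of the lengths of the half plane words -/
def HT (m : ℕ → ℝ) : Prop := ∀ q : ℕ, ∃ A : ℝ, 0 < A ∧ ∀ (k : ℕ) (lam : ℝ), 1 ≤ lam →
  gf {W | W ∈ SSt (2 ^ k) ∧ lam * m k ≤ (W.length : ℝ)} ≤ ENNReal.ofReal (A / lam ^ q * Ub k) * Xb k

end NTA

end HexObs
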