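import Pool.Agent.NTA.Quan
import Pool.Agent.NTA.HalfDefs
import Pool.Agent.NTA.XDbl

/-!
NTA: natural time at every scale, the scales from the tail of the lengths of the bridges and of the half plane words.
-/

set_option autoImplicit false

namespace HexObs

namespace NTA

open Finset BAR TS SDN NTW

open scoped ENNReal

variable {m : ℕ → ℝ}

/-- the last cut of a half plane word of a smaller height -/
lemma SSt_le_NA {i k : ℕ} (hik : i ≤ k) (p : ℕ → Prop) (hp : ∀ a b, a ≤ b → p b → p a) :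
    gf {W | W ∈ SSt (2 ^ i) ∧ p W.length} ≤ ENNReal.ofReal (Ub i) * gf {W | W ∈ BAR.NA (2 ^ k) ∧ p W.length} := by
  have h1 : {W | W ∈ SSt (2 ^ i) ∧ p W.length} ⊆
      ⋃ r ∈ range (2 ^ i + 1), {w | ∃ c ∈ Brd r, ∃ s ∈ {W | W ∈ BAR.NA (2 ^ k) ∧ p W.length}, w = c ++ s} := by
    rintro W ⟨hW, hl⟩
    obtain ⟨r, hr, c, hc, s, hs, rfl⟩ := last_cut hW (2 ^ i)
    rw [Set.mem_iUnion₂]
    refine ⟨r, mem_range.2 (by omega), c, hc, s,
      ⟨⟨SSt_mono (Nat.pow_le_pow_right (by norm_num) hik) hs.1, fun j hj hcut => ?_⟩, ?_⟩, rfl⟩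
    · by_cases h : j ≤ 2 ^ i - r
      · exact hs.2 j hj h hcut
      · obtain ⟨c', s', hc', hs', rfl⟩ := hcut
        have h2 := Brd_height_le (Brd_append hc hc') (s := s') (by rwa [List.append_assoc])
        omega
    · exact hp _ _ (by rw [List.length_append]; omega) hl
  refine (gf_mono h1).trans ((gf_bi_le _ _).trans ?_)
  show _ ≤ ENNReal.ofReal (UU (2 ^ i)) * _
  rw [← sum_BT, sum_mul]
  refine sum_le_sum fun r _ => ?_
  rw [← gf_Brd]
  refine gf_le_mul fun t ht => ?_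
  obtain ⟨c, hc, s, hs, h⟩ := ht
  exact ⟨c, hc, s, hs, h⟩

/-- the largest value is reached -/
lemma Xb_reach (k : ℕ) : ∃ i, i ≤ k ∧ ENNReal.ofReal (Ub i) * Xb k = gf (SSt (2 ^ i)) := by
  obtain ⟨i, hi⟩ := Finite.exists_max fun i : Fin (k + 1) => BAR.HH (2 ^ i.1) / ENNReal.ofReal (UU (2 ^ i.1))
  refine ⟨i.1, by have := i.2; omega, ?_⟩
  have h : Xb k = BAR.HH (2 ^ i.1) / ENNReal.ofReal (UU (2 ^ i.1)) :=
    le_antisymm (iSup_le hi) (le_Xb (by have := i.2; omega))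
  rw [h]
  show ENNReal.ofReal (UU (2 ^ i.1)) * (BAR.HH (2 ^ i.1) / ENNReal.ofReal (UU (2 ^ i.1))) = _
  rw [ENNReal.mul_div_cancel (by simpa using Num2Aux.UU_pos _) ENNReal.ofReal_ne_top]
  rfl

/-- half of the half plane words are not long -/
theorem half_shortH (hm : MLow m) (hH : HT m) : ∃ lam : ℝ, 0 < lam ∧ ∀ k : ℕ,
    ENNReal.ofReal (1 / 2) * Xb k ≤ gf {W | W ∈ BAR.NA (2 ^ k) ∧ (W.length : ℝ) ≤ lam * m k} := by
  obtain ⟨A, hA, h⟩ := hH 1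
  obtain ⟨lam, hlam⟩ : ∃ lam : ℝ, lam = max 1 (2 * A) := ⟨_, rfl⟩
  have hl1 : 1 ≤ lam := by rw [hlam]; exact le_max_left _ _
  have hl2 : 2 * A ≤ lam := by rw [hlam]; exact le_max_right _ _
  have hl0 : 0 < lam := by linarith
  refine ⟨lam, hl0, fun k => ?_⟩
  obtain ⟨i, hik, hi⟩ := Xb_reach k
  have hU := Ub_pos i
  have h1 : gf {W | W ∈ SSt (2 ^ i) ∧ (W.length : ℝ) ≤ lam * m k} ≤
      ENNReal.ofReal (Ub i) * gf {W | W ∈ BAR.NA (2 ^ k) ∧ (W.length : ℝ) ≤ lam * m k} := by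
    refine SSt_le_NA hik (fun n => (n : ℝ) ≤ lam * m k) fun a b hab hb => ?_
    have : (a : ℝ) ≤ b := by exact_mod_cast hab
    linarith
  have h2 : gf {W | W ∈ SSt (2 ^ i) ∧ lam * m k ≤ (W.length : ℝ)} ≤
      ENNReal.ofReal (Ub i) * (ENNReal.ofReal (1 / 2) * Xb k) := by
    calc gf {W | W ∈ SSt (2 ^ i) ∧ lam * m k ≤ (W.length : ℝ)}
        ≤ gf {W | W ∈ SSt (2 ^ i) ∧ lam * m i ≤ (W.length : ℝ)} := by
          refine gf_mono ?_
          rintro W ⟨hW, hl⟩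
          exact ⟨hW, (mul_le_mul_of_nonneg_left (hm.mono hik) hl0.le).trans hl⟩
      _ ≤ ENNReal.ofReal (A / lam ^ 1 * Ub i) * Xb i := h i lam hl1
      _ ≤ ENNReal.ofReal (Ub i * (1 / 2)) * Xb k := by
          refine mul_le_mul' (ENNReal.ofReal_le_ofReal ?_) (Xb_mono hik)
          rw [pow_one, mul_comm (Ub i)]
          refine mul_le_mul_of_nonneg_right ?_ hU.le
          rw [div_le_iff₀ hl0]
          linarith
      _ = _ := by rw [ENNReal.ofReal_mul hU.le, mul_assoc]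
  have h3 : ENNReal.ofReal (Ub i) * Xb k ≤ ENNReal.ofReal (Ub i) *
      (gf {W | W ∈ BAR.NA (2 ^ k) ∧ (W.length : ℝ) ≤ lam * m k} + ENNReal.ofReal (1 / 2) * Xb k) := by
    rw [hi, mul_add]
    refine ((gf_mono ?_).trans (gf_union_le _ _)).trans (add_le_add h1 h2)
    intro W hW
    rcases le_total (W.length : ℝ) (lam * m k) with h | h
    · exact Or.inl ⟨hW, h⟩
    · exact Or.inr ⟨hW, h⟩
  have h4 := (ENNReal.mul_le_mul_iff_right (by simpa using hU) ENNReal.ofReal_ne_top).1 h3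
  have h5 : Xb k = ENNReal.ofReal (1 / 2) * Xb k + ENNReal.ofReal (1 / 2) * Xb k := by
    rw [← add_mul, ← ENNReal.ofReal_add (by norm_num) (by norm_num), add_halves, ENNReal.ofReal_one, one_mul]
  have h6 : ENNReal.ofReal (1 / 2) * Xb k + ENNReal.ofReal (1 / 2) * Xb k ≤
      gf {W | W ∈ BAR.NA (2 ^ k) ∧ (W.length : ℝ) ≤ lam * m k} + ENNReal.ofReal (1 / 2) * Xb k := h5 ▸ h4
  exact (ENNReal.add_le_add_iff_right (ENNReal.mul_ne_top ENNReal.ofReal_ne_top (Xb_ne_top k))).1 h6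

/-- the sequence is comparable to the quantiles: the exponents of growth are the same -/
lemma gck_univ {l : ℕ → ℕ} {C c a K : ℝ} (hC : 0 < C) (hc : 0 < c)
    (hu : ∀ k, (l k : ℝ) ≤ C * m k) (hlo : ∀ k, c * m k ≤ l k)
    (hg : ∀ k j : ℕ, m (k + j) ≤ K * (2 : ℝ) ^ (a * j) * m k) : NTm.GCK (max 1 (C * K / c)) a l = Set.univ := by
  refine Set.eq_univ_of_forall fun L j hj => ?_
  have h1 := hg (L - j) j
  rw [Nat.sub_add_cancel hj] at h1
  have h2 := hlo (L - j)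
  have hp : (0 : ℝ) < (2 : ℝ) ^ (a * j) := Real.rpow_pos_of_pos two_pos _
  have hl0 : (0 : ℝ) ≤ l (L - j) := Nat.cast_nonneg _
  rcases lt_or_ge K 0 with hK | hK
  · have h3 : (l L : ℝ) ≤ 0 := by
      refine (hu L).trans ?_
      rcases le_or_gt (m L) 0 with h | h
      · exact mul_nonpos_of_nonneg_of_nonpos hC.le h
      · exfalso
        have h4 := hg L 0
        rw [Nat.add_zero, Nat.cast_zero, mul_zero, Real.rpow_zero, mul_one] at h4
        nlinarith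
    exact h3.trans (by positivity)
  · calc (l L : ℝ) ≤ C * m L := hu L
      _ ≤ C * (K * (2 : ℝ) ^ (a * j) * m (L - j)) := mul_le_mul_of_nonneg_left h1 hC.le
      _ = C * K / c * (2 : ℝ) ^ (a * j) * (c * m (L - j)) := by field_simp
      _ ≤ C * K / c * (2 : ℝ) ^ (a * j) * l (L - j) := mul_le_mul_of_nonneg_left h2 (by positivity)
      _ ≤ max 1 (C * K / c) * (2 : ℝ) ^ (a * j) * l (L - j) := by
          refine mul_le_mul_of_nonneg_right (mul_le_mul_of_nonneg_right (le_max_right _ _) hp.le) hl0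

/-- **natural time at every scale: the scales, from the tails of the bridges and of the half plane words** -/
theorem scaleH (hm : MLow m) (hd : MUp m) (hB : TB m) (h1 : C1 m) (hH : HT m) :
    ∃ θ0 : ℝ, 0 < θ0 ∧ θ0 ≤ 1 / 2 ∧ ∀ (θ : ℝ) (l : ℕ → ℕ), NTm.Seq θ l → 0 < θ → θ ≤ θ0 →
      ScaleP l Set.univ ∧ NTm.Good l Set.univ ∧ (∃ C c : ℝ, 0 < C ∧ 0 < c ∧ ∀ k, c * m k ≤ l k ∧ (l k : ℝ) ≤ C * m k) ∧
      (∃ C : ℝ, ∀ k, (l (k + 1) : ℝ) ≤ C * l k) ∧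
      (∃ b : ℝ, 0 < b ∧ ∀ k j : ℕ, b * (2 : ℝ) ^ (5 / 4 * (j : ℝ)) * l k ≤ l (k + j)) ∧
      (∀ a K : ℝ, (∀ k j : ℕ, m (k + j) ≤ K * (2 : ℝ) ^ (a * j) * m k) → ∃ K' : ℝ, 1 ≤ K' ∧ NTm.GCK K' a l = Set.univ) ∧
      ∀ c e : ℝ, 4 / 3 < c → 0 < e → ∃ K : ℝ, 1 ≤ K ∧ NTm.Dense (1 - (c - 4 / 3) / (c - 5 / 4) + e) (NTm.GCK K c l) := by
  obtain ⟨c, c', hc, hc', h1⟩ := h1
  obtain ⟨lam, hlam, hS⟩ := half_shortH hm hH
  refine ⟨min (c' / 2) (1 / 2), lt_min (by positivity) (by norm_num), min_le_right _ _, fun θ l hl h0 hθ => ?_⟩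
  have hθ1 : θ < c' := lt_of_le_of_lt (hθ.trans (min_le_left _ _)) (by linarith)
  have hθ2 : θ ≤ 1 / 2 := hθ.trans (min_le_right _ _)
  obtain ⟨C, hC, hu⟩ := quan_up hl hm hd hB
  have hlo := quan_low (m := m) hl h0.le h1 hθ1
  have hlo' : ∀ k, c / 2 * m k ≤ l k := fun k => by
    have := hlo k
    linarith
  refine ⟨scaleP_univ hm xDbl hl hθ2 hc hu hlo (by norm_num : (0 : ℝ) < 1 / 2) hlam hS, good_univ hd hC hc hu hlo,
    ⟨C, c / 2, hC, by positivity, fun k => ⟨hlo' k, hu k⟩⟩, ?_, ?_, fun a K hg => ⟨_, le_max_left _ _,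
      gck_univ hC (by positivity : 0 < c / 2) hu hlo' hg⟩, fun c3 e hc3 he => dense_mean hm hl hC hc hu hlo hc3 he⟩
  · obtain ⟨D, hD, hd⟩ := hd
    refine ⟨2 * C * D / c, fun k => ?_⟩
    calc (l (k + 1) : ℝ) ≤ C * m (k + 1) := hu (k + 1)
      _ ≤ C * (D * m k) := mul_le_mul_of_nonneg_left (hd k) hC.le
      _ = 2 * C * D / c * (c / 2 * m k) := by field_simp
      _ ≤ 2 * C * D / c * l k := mul_le_mul_of_nonneg_left (hlo' k) (by positivity)
  · refine ⟨c / (2 * C), by positivity, fun k j => ?_⟩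
    have hp : (0 : ℝ) < (2 : ℝ) ^ (5 / 4 * (j : ℝ)) := Real.rpow_pos_of_pos two_pos _
    calc c / (2 * C) * (2 : ℝ) ^ (5 / 4 * (j : ℝ)) * l k ≤ c / (2 * C) * (2 : ℝ) ^ (5 / 4 * (j : ℝ)) * (C * m k) :=
          mul_le_mul_of_nonneg_left (hu k) (by positivity)
      _ = c / 2 * ((2 : ℝ) ^ (5 / 4 * (j : ℝ)) * m k) := by field_simp
      _ ≤ c / 2 * m (k + j) := mul_le_mul_of_nonneg_left (hm.low k j) (by positivity)
      _ ≤ l (k + j) := hlo' (k + j)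

end NTA

end HexObs
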