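import Pool.Agent.NTA.RunDefs
import Pool.Agent.NTW.FoldEx
import Pool.Agent.NTW.DomE
import Pool.Agent.NTW.Dir
import Pool.Agent.SDN.AltLe
import Pool.Agent.SDN.LeafW

/-!
NTA: the event theorem for runs of interior leaves in both directions.
-/

set_option autoImplicit false

namespace HexObs

namespace NTA

open Finset TS SDN NTW

open scoped ENNReal

/-- walks of the box 2 ^ K with a marked run of interior leaves in R, direction dir -/
def ERL (dir : Bool) (kc K : ℕ) (R : Set (List (List Bool))) : Set (List Bool) :=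
  {t | t ∈ WL K ∧ ∃ (m u : ℕ) (e : ℕ → ℕ), Lf dir (kc + 5) t m u e ∧ ∃ l d : ℕ, 2 ≤ l ∧ 1 ≤ d ∧ l + d + 1 ≤ m ∧
    lws t e l d ∈ R}

/-- the same with one leaf less before the run, direction false -/
def ERM (kc K : ℕ) (R : Set (List (List Bool))) : Set (List Bool) :=
  {t | t ∈ WL K ∧ ∃ (m u : ℕ) (e : ℕ → ℕ), Lf false (kc + 5) t m u e ∧ ∃ l d : ℕ, 1 ≤ l ∧ 1 ≤ d ∧ l + d + 1 ≤ m ∧
    lws t e l d ∈ R}

namespace RD

/-- a leaf with the free parts before and behind it -/
lemma ext_piece {g : ℕ → ℤ} {R : ℤ} {p0 p q q1 : ℕ} (h0 : p0 ≤ p) (hpq : p < q) (h1 : q ≤ q1)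
    (hlo : ∀ i, p < i → i ≤ q → g p < g i) (hbig : R ≤ g q - g p)
    (hsm : ∀ i i', p ≤ i → i ≤ i' → i' ≤ q → g i - g i' < R)
    (hhi : ∀ i, p ≤ i → i ≤ q → g i ≤ g q)
    (hL : ∀ i i', p0 ≤ i → i ≤ p → p0 ≤ i' → i' ≤ p → g i - g i' < R)
    (hR : ∀ i i', q ≤ i → i ≤ q1 → q ≤ i' → i' ≤ q1 → g i - g i' < R)
    (hp0 : ∀ i, p0 ≤ i → i ≤ q → g p0 ≤ g i) (hq1 : ∀ i, p ≤ i → i ≤ q1 → g i ≤ g q1) :
    (∀ i, p0 ≤ i → i ≤ q1 → g p0 ≤ g i) ∧ (∀ i, p0 ≤ i → i ≤ q1 → g i ≤ g q1) ∧ R ≤ g q1 - g p0 ∧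
    (∀ i i', p0 ≤ i → i ≤ i' → i' ≤ q1 → g i - g i' < R) ∧ (∀ i, p < i → i ≤ q1 → g p < g i) := by
  have a3 : g p0 ≤ g p := hp0 p h0 hpq.le
  have a4 : g q ≤ g q1 := hq1 q hpq.le h1
  have a5 : ∀ i, p ≤ i → i ≤ q1 → g p ≤ g i := by
    intro i h2 h3
    rcases Nat.lt_or_ge q i with h4 | h4
    · have := hR q i le_rfl h1 h4.le h3
      omega
    · rcases Nat.eq_or_lt_of_le h2 with h5 | h5
      · rw [h5]
      · exact (hlo i h5 h4).le
  have a6 : ∀ i, p0 ≤ i → i ≤ q → g i ≤ g q := by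
    intro i h2 h3
    rcases Nat.lt_or_ge i p with h4 | h4
    · have := hL i p h2 h4.le h0 le_rfl
      omega
    · exact hhi i h4 h3
  refine ⟨?_, ?_, by omega, ?_, ?_⟩
  · intro i h2 h3
    rcases Nat.lt_or_ge i p with h4 | h4
    · exact hp0 i h2 (by omega)
    · exact a3.trans (a5 i h4 h3)
  · intro i h2 h3
    rcases Nat.lt_or_ge i p with h4 | h4
    · exact (a6 i h2 (by omega)).trans a4
    · exact hq1 i h4 h3
  · intro i i' h2 h3 h4
    rcases Nat.lt_or_ge q i with h5 | h5
    · exact hR i i' h5.le (by omega) (by omega) h4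
    · rcases Nat.lt_or_ge q i' with h6 | h6
      · have b1 := hR q i' le_rfl h1 h6.le h4
        have b2 := a6 i h2 h5
        omega
      · rcases Nat.lt_or_ge i p with h7 | h7
        · rcases Nat.lt_or_ge i' p with h8 | h8
          · exact hL i i' h2 h7.le (by omega) h8.le
          · have b1 := hL i p h2 h7.le h0 le_rfl
            have b2 := a5 i' h8 h4
            omega
        · exact hsm i i' h7 h3 h6
  · intro i h2 h3
    rcases Nat.lt_or_ge q i with h4 | h4
    · have := hR q i le_rfl h1 h4.le h3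
      omega
    · exact hlo i h2 h4

/-- folds with extremal ends from folds with hysteresis -/
lemma fd_of_lf {b m u : ℕ} {t : List Bool} {e : ℕ → ℕ} (hb : 1 ≤ b) (hm : 1 ≤ m) (h : Lf false b t m u e) :
    ∃ e' : ℕ → ℕ, Fd b t m u e' ∧ ∀ j, 1 ≤ j → j < m → e' j = e j := by
  have H : Hyst (fun i => lev t i) t.length (RR b) m u e := h
  obtain ⟨a, a1, a2, a3⟩ := FoldA.first_min (fun i => Tight.sg u (lev t i)) (e 1)
  obtain ⟨z', z1, z2, z3⟩ := FoldA.last_max (fun i => Tight.sg (u + (m - 1)) (lev t (e (m - 1) + i)))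
    (t.length - e (m - 1))
  have hmon : ∀ i j, i ≤ j → j ≤ m → e i ≤ e j := fun i j h1 h2 => H.monoA h1 h2
  have hle := H.le
  have e01 : e 0 < e 1 := H.lt 0 (by omega)
  have em1 : e (m - 1) < e m := by
    have := H.lt (m - 1) (by omega)
    rwa [show m - 1 + 1 = m by omega] at this
  obtain ⟨z, hz⟩ : ∃ z, z = e (m - 1) + z' := ⟨_, rfl⟩
  have hzn : z ≤ t.length := by omega
  have hz2 : ∀ i, e (m - 1) ≤ i → i ≤ t.length → Tight.sg (u + (m - 1)) (lev t i) ≤ Tight.sg (u + (m - 1)) (lev t z) := by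
    intro i h1 h2
    have := z2 (i - e (m - 1)) (by omega)
    rwa [show e (m - 1) + (i - e (m - 1)) = i by omega, ← hz] at this
  have hz3 : ∀ i, z < i → i ≤ t.length → Tight.sg (u + (m - 1)) (lev t i) < Tight.sg (u + (m - 1)) (lev t z) := by
    intro i h1 h2
    have := z3 (i - e (m - 1)) (by omega) (by omega)
    rwa [show e (m - 1) + (i - e (m - 1)) = i by omega, ← hz] at this
  -- the first minimum is not behind the first fold, the last maximum not before the last fold
  have ha0 : a ≤ e 0 := by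
    by_contra hc
    have b1 := H.lo 0 (by omega) a (by omega) a1
    have b2 := a2 (e 0) e01.le
    simp only [add_zero] at b1 b2
    omega
  have hzm : e m ≤ z := by
    by_contra hc
    have b1 := H.hi (m - 1) (by omega) z (by omega) (by rw [show m - 1 + 1 = m by omega]; omega)
    have b2 := hz3 (e m) (by omega) hle
    rw [show m - 1 + 1 = m by omega] at b1
    omega
  have hR4 : (4 : ℤ) ≤ RR b := by
    unfold RR
    have h1 : (2 : ℤ) ^ 1 ≤ 2 ^ b := pow_le_pow_right₀ (by norm_num) hb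
    rw [pow_one] at h1
    omega
  have hRp : 0 < RR b := by omega
  obtain ⟨E, hE⟩ : ∃ E : ℕ → ℕ, E = fun j => if j = 0 then a else if j = m then z else e j := ⟨_, rfl⟩
  have hE0 : E 0 = a := by
    rw [hE]
    simp
  have hEm : E m = z := by
    rw [hE]
    show (if m = 0 then a else if m = m then z else e m) = z
    rw [if_neg (by omega), if_pos rfl]
  have hEj : ∀ j, 1 ≤ j → j < m → E j = e j := by
    intro j h1 h2
    rw [hE]
    show (if j = 0 then a else if j = m then z else e j) = e j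
    rw [if_neg (by omega), if_neg (by omega)]
  -- the pieces
  have hpiece : ∀ j, j < m → (∀ i, E j ≤ i → i ≤ E (j + 1) → Tight.sg (u + j) (lev t (E j)) ≤ Tight.sg (u + j) (lev t i)) ∧
      (∀ i, E j ≤ i → i ≤ E (j + 1) → Tight.sg (u + j) (lev t i) ≤ Tight.sg (u + j) (lev t (E (j + 1)))) ∧
      RR b ≤ Tight.sg (u + j) (lev t (E (j + 1))) - Tight.sg (u + j) (lev t (E j)) ∧
      (∀ i i', E j ≤ i → i ≤ i' → i' ≤ E (j + 1) → Tight.sg (u + j) (lev t i) - Tight.sg (u + j) (lev t i') < RR b) ∧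
      (1 ≤ j → ∀ i, E j < i → i ≤ E (j + 1) → Tight.sg (u + j) (lev t (E j)) < Tight.sg (u + j) (lev t i)) ∧
      E j ≤ e j ∧ e (j + 1) ≤ E (j + 1) := by
    intro j hj
    have hjj : e j < e (j + 1) := H.lt j hj
    have hl : E j ≤ e j ∧ (1 ≤ j → E j = e j) ∧ ∀ i i', E j ≤ i → i ≤ e j → E j ≤ i' → i' ≤ e j →
        Tight.sg (u + j) (lev t i) - Tight.sg (u + j) (lev t i') < RR b := by
      rcases Nat.eq_zero_or_pos j with h0 | h0
      · subst h0
        rw [hE0]
        refine ⟨ha0, fun h => by omega, fun i i' _ h2 _ h4 => ?_⟩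
        exact H.start_sg (u + 0) h4 h2
      · rw [hEj j h0 hj]
        refine ⟨le_rfl, fun _ => rfl, fun i i' h1 h2 h3 h4 => ?_⟩
        have : i = i' := by omega
        rw [this, sub_self]
        exact hRp
    have hr : e (j + 1) ≤ E (j + 1) ∧ (∀ i i', e (j + 1) ≤ i → i ≤ E (j + 1) → e (j + 1) ≤ i' → i' ≤ E (j + 1) →
        Tight.sg (u + j) (lev t i) - Tight.sg (u + j) (lev t i') < RR b) ∧
        (∀ i, e j ≤ i → i ≤ E (j + 1) → Tight.sg (u + j) (lev t i) ≤ Tight.sg (u + j) (lev t (E (j + 1)))) := by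
      rcases Nat.lt_or_ge (j + 1) m with h0 | h0
      · rw [hEj (j + 1) (by omega) h0]
        refine ⟨le_rfl, fun i i' h1 h2 h3 h4 => ?_, fun i h1 h2 => H.hi j hj i h1 h2⟩
        have : i = i' := by omega
        rw [this, sub_self]
        exact hRp
      · have h1 : j + 1 = m := by omega
        have h2 : j = m - 1 := by omega
        rw [h1, hEm]
        refine ⟨hzm, fun i i' h3 h4 h5 h6 => ?_, fun i h3 h4 => ?_⟩
        · exact H.fin_sg (u + j) h5 (by omega) h3 (by omega)
        · rw [h2]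
          rw [h2] at h3
          exact hz2 i h3 (by omega)
    have hp0 : ∀ i, E j ≤ i → i ≤ e (j + 1) → Tight.sg (u + j) (lev t (E j)) ≤ Tight.sg (u + j) (lev t i) := by
      intro i h1 h2
      rcases Nat.eq_zero_or_pos j with h0 | h0
      · subst h0
        rw [hE0]
        exact a2 i h2
      · rw [hEj j h0 hj] at h1 ⊢
        rcases Nat.eq_or_lt_of_le h1 with h3 | h3
        · rw [h3]
        · exact (H.lo j hj i h3 h2).le
    obtain ⟨c1, c2, c3, c4, c5⟩ := ext_piece (g := fun i => Tight.sg (u + j) (lev t i)) (R := RR b) hl.1 hjj hr.1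
      (H.lo j hj) (H.big j hj) (H.small j hj) (H.hi j hj) hl.2.2 hr.2.1 hp0 hr.2.2
    refine ⟨c1, c2, c3, c4, ?_, hl.1, hr.1⟩
    intro h1 i h2 h3
    rw [hl.2.1 h1] at h2 ⊢
    exact c5 i h2 h3
  refine ⟨E, ⟨hm, ⟨?_, ?_, ?_, ?_, ?_, ?_, ?_, ?_⟩, ?_, ?_, ?_, ?_⟩, hEj⟩
  · intro j hj
    have h1 := (hpiece j hj).2.2.2.2.2
    have h2 := H.lt j hj
    omega
  · rw [hEm]
    exact hzn
  · intro i h1 h2
    exact (hpiece 0 (by omega)).1 i h1 h2
  · intro j h1 hj i h2 h3
    exact (hpiece j hj).2.2.2.2.1 h1 i h2 h3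
  · intro j hj i h1 h2
    exact (hpiece j hj).2.1 i h1 h2
  · intro j hj
    exact hR4.trans (hpiece j hj).2.2.1
  · intro i hi
    rw [hE0] at hi ⊢
    exact a3 i hi
  · intro i h1 h2
    rw [hEm] at h1 ⊢
    exact hz3 i h1 h2
  · intro j hj
    exact (hpiece j hj).2.2.1
  · intro j hj i i' h1 h2 h3
    exact (hpiece j hj).2.2.2.1 i i' h1 h2 h3
  · intro i i' h1 h2
    rw [hE0] at h1 h2
    exact H.start i i' (by omega) (by omega)
  · intro i i' h1 h2 h3 h4
    rw [hEm] at h1 h3
    exact H.fin i i' (by omega) h2 (by omega) h4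

/-- the walks with a marked run of interior leaves, in the form of the event theorem -/
lemma erm_sub {kc J : ℕ} {R : Set (List (List Bool))} : ERM kc (kc + J) R ⊆ ER kc J R := by
  rintro t ⟨ht, m, u, e, hL, l, d, h1, h2, h3, h4⟩
  obtain ⟨e', hF, he⟩ := fd_of_lf (show 1 ≤ kc + 5 by omega) (by omega) hL
  refine ⟨ht, m, u, e', hF, l, d, h2, by omega, fun ms hms _ hmid _ _ => ?_⟩
  have h5 : ms = lws t e l d := by
    apply List.ext_getElem
    · rw [hms]
      simp [lws]
    · intro i hi hi'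
      rw [hmid i hi (by omega) (by omega), he (l + i) (by omega) (by omega), he (l + i + 1) (by omega) (by omega)]
      simp [lws]
  rw [h5]
  exact h4

section

variable {F f : ℕ → ℤ} {n m u q : ℕ} {R : ℤ} {e : ℕ → ℕ}

/-- the folds behind the time q, the first leaf kept -/
lemma tail0 (h : Hyst F n R m u e) (hm : 1 ≤ m) {p : ℕ} (hqp : q ≤ p) (h0 : e 0 ≤ p) (hp : p < e 1)
    (hlo : ∀ i, p < i → i ≤ e 1 → Tight.sg u (F p) < Tight.sg u (F i))
    (hbig : R ≤ Tight.sg u (F (e 1)) - Tight.sg u (F p))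
    (hst : ∀ i i', q ≤ i → i ≤ p → q ≤ i' → i' ≤ p → F i - F i' < R) :
    Hyst (fun i => F (q + i)) (n - q) R m u (fun j => (if j = 0 then p else e j) - q) := by
  obtain ⟨E, hE⟩ : ∃ E : ℕ → ℕ, E = fun j => if j = 0 then p else e j := ⟨_, rfl⟩
  have hE0 : E 0 = p := by
    rw [hE]
    rfl
  have hEj : ∀ j, 1 ≤ j → E j = e j := by
    intro j h1
    rw [hE]
    show (if j = 0 then p else e j) = e j
    rw [if_neg (by omega)]
  have hmon := fun i j (h1 : i ≤ j) (h2 : j ≤ m) => h.monoA h1 h2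
  have hEq : ∀ j, j ≤ m → q ≤ E j := by
    intro j hj
    rcases Nat.eq_zero_or_pos j with h1 | h1
    · rw [h1, hE0]
      exact hqp
    · rw [hEj j h1]
      have := hmon 1 j h1 hj
      omega
  have hEl : ∀ j, j < m → E j < E (j + 1) := by
    intro j hj
    rw [hEj (j + 1) (by omega)]
    rcases Nat.eq_zero_or_pos j with h1 | h1
    · subst h1
      rw [hE0]
      exact hp
    · rw [hEj j h1]
      exact h.lt j hj
  have hge : ∀ j, j ≤ m → e j ≤ E j := by
    intro j hj
    rcases Nat.eq_zero_or_pos j with h1 | h1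
    · rw [h1, hE0]
      exact h0
    · rw [hEj j h1]
  have hEm : E m ≤ n := by
    rw [hEj m hm]
    exact h.le
  have hEe : (fun j => (if j = 0 then p else e j) - q) = fun j => E j - q := by
    rw [hE]
  rw [hEe]
  have hadd : ∀ j, j ≤ m → q + (E j - q) = E j := fun j hj => by
    have := hEq j hj
    omega
  constructor
  · intro j hj
    have h1 := hEl j hj
    have h2 := hEq j hj.le
    show E j - q < E (j + 1) - q
    omega
  · show E m - q ≤ n - q
    omega
  · intro j hj i h1 h2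
    have a1 := hEq j hj.le
    have a2 := hEq (j + 1) hj
    show Tight.sg (u + j) (F (q + (E j - q))) < Tight.sg (u + j) (F (q + i))
    rw [hadd j hj.le]
    rcases Nat.eq_zero_or_pos j with h3 | h3
    · subst h3
      rw [hE0] at h1 a1 ⊢
      rw [zero_add, hEj 1 le_rfl] at h2 a2
      exact hlo (q + i) (by omega) (by omega)
    · rw [hEj j h3] at h1 a1 ⊢
      rw [hEj (j + 1) (by omega)] at h2 a2
      exact h.lo j hj (q + i) (by omega) (by omega)
  · intro j hj i h1 h2
    have a1 := hEq j hj.le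
    have a2 := hEq (j + 1) hj
    have a3 := hge j hj.le
    show Tight.sg (u + j) (F (q + i)) ≤ Tight.sg (u + j) (F (q + (E (j + 1) - q)))
    rw [hadd (j + 1) hj]
    rw [hEj (j + 1) (by omega)] at h2 a2 ⊢
    exact h.hi j hj (q + i) (by omega) (by omega)
  · intro j hj
    show R ≤ Tight.sg (u + j) (F (q + (E (j + 1) - q))) - Tight.sg (u + j) (F (q + (E j - q)))
    rw [hadd (j + 1) hj, hadd j hj.le, hEj (j + 1) (by omega)]
    rcases Nat.eq_zero_or_pos j with h3 | h3
    · subst h3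
      rw [hE0]
      exact hbig
    · rw [hEj j h3]
      exact h.big j hj
  · intro j hj i i' h1 h2 h3
    have a1 := hEq j hj.le
    have a2 := hEq (j + 1) hj
    have a3 := hge j hj.le
    rw [hEj (j + 1) (by omega)] at h3 a2
    exact h.small j hj (q + i) (q + i') (by omega) (by omega) (by omega)
  · intro i i' h1 h2
    simp only [hE0] at h1 h2
    exact hst (q + i) (q + i') (by omega) (by omega) (by omega) (by omega)
  · intro i i' h1 h2 h3 h4
    have a1 := hEq m le_rfl
    rw [hEj m hm] at h1 h3 a1 hEm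
    exact h.fin (q + i) (q + i') (by omega) (by omega) (by omega) (by omega)

/-- the folds behind the time q, the first leaf dropped -/
lemma tail1 (h : Hyst F n R (m + 1) u e) (hq : q ≤ e 1)
    (hst : ∀ i i', q ≤ i → i ≤ e 1 → q ≤ i' → i' ≤ e 1 → F i - F i' < R) :
    Hyst (fun i => F (q + i)) (n - q) R m (u + 1) (fun j => e (j + 1) - q) := by
  have hmon := fun i j (h1 : i ≤ j) (h2 : j ≤ m + 1) => h.monoA h1 h2
  have hEq : ∀ j, j ≤ m → q ≤ e (j + 1) := by
    intro j hj
    have := hmon 1 (j + 1) (by omega) (by omega)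
    omega
  have hadd : ∀ j, j ≤ m → q + (e (j + 1) - q) = e (j + 1) := fun j hj => by
    have := hEq j hj
    omega
  constructor
  · intro j hj
    have h1 := h.lt (j + 1) (by omega)
    have h2 := hEq j hj.le
    show e (j + 1) - q < e (j + 1 + 1) - q
    omega
  · have := h.le
    show e (m + 1) - q ≤ n - q
    omega
  · intro j hj i h1 h2
    have a1 := hEq j hj.le
    have a2 := hEq (j + 1) hj
    show Tight.sg (u + 1 + j) (F (q + (e (j + 1) - q))) < Tight.sg (u + 1 + j) (F (q + i))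
    rw [hadd j hj.le, show u + 1 + j = u + (j + 1) by omega]
    exact h.lo (j + 1) (by omega) (q + i) (by omega) (by omega)
  · intro j hj i h1 h2
    have a1 := hEq j hj.le
    have a2 := hEq (j + 1) hj
    show Tight.sg (u + 1 + j) (F (q + i)) ≤ Tight.sg (u + 1 + j) (F (q + (e (j + 1 + 1) - q)))
    rw [hadd (j + 1) hj, show u + 1 + j = u + (j + 1) by omega]
    exact h.hi (j + 1) (by omega) (q + i) (by omega) (by omega)
  · intro j hj
    show R ≤ Tight.sg (u + 1 + j) (F (q + (e (j + 1 + 1) - q))) - Tight.sg (u + 1 + j) (F (q + (e (j + 1) - q)))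
    rw [hadd (j + 1) hj, hadd j hj.le, show u + 1 + j = u + (j + 1) by omega]
    exact h.big (j + 1) (by omega)
  · intro j hj i i' h1 h2 h3
    have a1 := hEq j hj.le
    have a2 := hEq (j + 1) hj
    show Tight.sg (u + 1 + j) (F (q + i)) - Tight.sg (u + 1 + j) (F (q + i')) < R
    rw [show u + 1 + j = u + (j + 1) by omega]
    exact h.small (j + 1) (by omega) (q + i) (q + i') (by omega) (by omega) (by omega)
  · intro i i' h1 h2
    simp only [zero_add] at h1 h2
    have a1 := hEq 0 (by omega)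
    rw [zero_add] at a1
    exact hst (q + i) (q + i') (by omega) (by omega) (by omega) (by omega)
  · intro i i' h1 h2 h3 h4
    have a1 := hEq m le_rfl
    have a2 := h.le
    exact h.fin (q + i) (q + i') (by omega) (by omega) (by omega) (by omega)

/-- the folds behind a time q before which the sequence hardly moves -/
lemma hyst_tail (hR : 4 < R) (hos : ∀ i, i ≤ q → |F i - F q| ≤ 2) (h : Hyst F n R (m + 1) u e) :
    ∃ (c : ℕ) (e' : ℕ → ℕ), c ≤ 1 ∧ Hyst (fun i => F (q + i)) (n - q) R (m + 1 - c) (u + c) e' ∧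
      ∀ j, 1 ≤ j → j + c ≤ m + 1 → e (j + c) = q + e' j := by
  have e01 : e 0 < e 1 := h.lt 0 (by omega)
  have hmon := fun i j (h1 : i ≤ j) (h2 : j ≤ m + 1) => h.monoA h1 h2
  rcases Nat.lt_or_ge (e 0) q with h0 | h0
  · -- the first fold is before q
    have hq1 : q < e 1 := by
      by_contra hc
      have b1 := h.big 0 (by omega)
      have b2 := hos (e 0) h0.le
      have b3 := hos (e 1) (by omega)
      rw [abs_le] at b2 b3
      unfold Tight.sg at b1
      rw [zero_add] at b1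
      split_ifs at b1 <;> omega
    obtain ⟨p', p1, p2, p3⟩ := Crs.last_min (fun i => Tight.sg u (F (q + i))) (e 1 - q)
    obtain ⟨p, hp⟩ : ∃ p, p = q + p' := ⟨_, rfl⟩
    have hp2 : ∀ i, q ≤ i → i ≤ e 1 → Tight.sg u (F p) ≤ Tight.sg u (F i) := by
      intro i h1 h2
      have := p2 (i - q) (by omega)
      rwa [show q + (i - q) = i by omega, ← hp] at this
    have hp3 : ∀ i, p < i → i ≤ e 1 → Tight.sg u (F p) < Tight.sg u (F i) := by
      intro i h1 h2
      have := p3 (i - q) (by omega) (by omega)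
      rwa [show q + (i - q) = i by omega, ← hp] at this
    have hlo := h.lo 0 (by omega)
    have hhi := h.hi 0 (by omega)
    have hsm := h.small 0 (by omega)
    simp only [add_zero, zero_add] at hlo hhi hsm
    have hbd : ∀ i i', q ≤ i → i ≤ p → q ≤ i' → i' ≤ p → Tight.sg u (F i) - Tight.sg u (F i') < R := by
      intro i i' h1 h2 h3 h4
      have b1 := hsm i p (by omega) h2 (by omega)
      have b2 := hp2 i' h3 (by omega)
      omega
    rcases le_or_gt R (Tight.sg u (F (e 1)) - Tight.sg u (F p)) with hc | hc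
    · have hp1 : p < e 1 := by
        rcases Nat.eq_or_lt_of_le (show p ≤ e 1 by omega) with h1 | h1
        · rw [h1, sub_self] at hc
          omega
        · exact h1
      refine ⟨0, _, by omega, tail0 h (by omega) (by omega) (by omega) hp1 hp3 hc ?_, ?_⟩
      · intro i i' h1 h2 h3 h4
        have b1 := hbd i i' h1 h2 h3 h4
        have b2 := hbd i' i h3 h4 h1 h2
        unfold Tight.sg at b1 b2
        split_ifs at b1 b2 <;> omega
      · intro j h1 h2
        have := hmon 1 j h1 (by omega)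
        show e (j + 0) = q + ((if j = 0 then p else e j) - q)
        rw [if_neg (by omega), add_zero]
        omega
    · refine ⟨1, _, le_rfl, tail1 h hq1.le ?_, ?_⟩
      · intro i i' h1 h2 h3 h4
        have b1 := hhi i (by omega) h2
        have b2 := hhi i' (by omega) h4
        have b3 := hp2 i h1 h2
        have b4 := hp2 i' h3 h4
        unfold Tight.sg at b1 b2 b3 b4 hc
        split_ifs at b1 b2 b3 b4 hc <;> omega
      · intro j h1 h2
        have := hmon 1 (j + 1) (by omega) (by omega)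
        show e (j + 1) = q + (e (j + 1) - q)
        omega
  · refine ⟨0, _, by omega, tail0 h (by omega) h0 le_rfl e01 ?_ ?_ ?_, ?_⟩
    · intro i h1 h2
      exact h.lo 0 (by omega) i h1 h2
    · exact h.big 0 (by omega)
    · intro i i' _ h2 _ h4
      exact h.start i i' h2 h4
    · intro j h1 h2
      have := hmon 0 j (by omega) (by omega)
      show e (j + 0) = q + ((if j = 0 then e 0 else e j) - q)
      rw [if_neg (by omega), add_zero]
      omega

/-- a change of the sign and of the origin -/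
lemma hyst_sgn {c s : ℤ} (hs : s = 1 ∨ s = -1) (hF : ∀ i, i ≤ n → F i = c + s * f i) (h : Hyst F n R m u e) :
    ∃ u' : ℕ, Hyst f n R m u' e := by
  have hmon := fun i j (h1 : i ≤ j) (h2 : j ≤ m) => h.monoA h1 h2
  have hle := h.le
  obtain ⟨u', hu'⟩ : ∃ u' : ℕ, ∀ j i i', i ≤ n → i' ≤ n → Tight.sg (u' + j) (f i) - Tight.sg (u' + j) (f i') =
      Tight.sg (u + j) (F i) - Tight.sg (u + j) (F i') := by
    rcases hs with rfl | rfl
    · refine ⟨u, fun j i i' h1 h2 => ?_⟩
      rw [hF i h1, hF i' h2]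
      unfold Tight.sg
      split_ifs <;> ring
    · refine ⟨u + 1, fun j i i' h1 h2 => ?_⟩
      rw [hF i h1, hF i' h2, show u + 1 + j = u + j + 1 by omega, Tight.sg_succ, Tight.sg_succ]
      unfold Tight.sg
      split_ifs <;> ring
  refine ⟨u', h.lt, h.le, ?_, ?_, ?_, ?_, ?_, ?_⟩
  · intro j hj i h1 h2
    have a1 := h.lo j hj i h1 h2
    have a2 := hmon (j + 1) m hj le_rfl
    have a3 := hu' j (e j) i (by omega) (by omega)
    omega
  · intro j hj i h1 h2
    have a1 := h.hi j hj i h1 h2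
    have a2 := hmon (j + 1) m hj le_rfl
    have a3 := hu' j i (e (j + 1)) (by omega) (by omega)
    omega
  · intro j hj
    have a1 := h.big j hj
    have a2 := hmon (j + 1) m hj le_rfl
    have a4 := h.lt j hj
    have a3 := hu' j (e (j + 1)) (e j) (by omega) (by omega)
    omega
  · intro j hj i i' h1 h2 h3
    have a1 := h.small j hj i i' h1 h2 h3
    have a2 := hmon (j + 1) m hj le_rfl
    have a3 := hu' j i i' (by omega) (by omega)
    omega
  · intro i i' h1 h2
    have a1 := h.start i i' h1 h2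
    have a2 := h.start i' i h2 h1
    have a3 := hmon 0 m (by omega) le_rfl
    rw [hF i (by omega), hF i' (by omega)] at a1 a2
    rcases hs with rfl | rfl <;> omega
  · intro i i' h1 h2 h3 h4
    have a1 := h.fin i i' h1 h2 h3 h4
    have a2 := h.fin i' i h3 h4 h1 h2
    rw [hF i (by omega), hF i' (by omega)] at a1 a2
    rcases hs with rfl | rfl <;> omega

end

lemma lw_dropQ {t : List Bool} {q a b : ℕ} (hb : 1 ≤ b) : lw t (q + a) (q + b) = lw (t.drop q) a b := by
  unfold lw
  rw [List.drop_drop, tf_drop, show q + b - (q + a) - 2 = b - a - 2 by omega, show q + a + 1 = q + (a + 1) by omega,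
    show q + b - 1 = q + (b - 1) by omega]

/-- the part behind a vertical step, in its own frame -/
lemma drop_dir {t : List Bool} {q : ℕ} (hq : q ≤ t.length) (hv : DirA.vert (dx up t q)) :
    ∃ σ : ℤ, (σ = 1 ∨ σ = -1) ∧ (∀ j, lvl true (vx oo up t (q + j)) = lvl true (vx oo up t q) + σ * lev (t.drop q) j) ∧
      (∀ j, |lvl true (vx oo up (t.drop q) j)| ≤ |lvl true (vx oo up t (q + j)) - lvl true (vx oo up t q)| +
        |lvl false (vx oo up t (q + j)) - lvl false (vx oo up t q)|) ∧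
      ∀ i j, vx oo up (t.drop q) i = vx oo up (t.drop q) j → vx oo up t (q + i) = vx oo up t (q + j) := by
  obtain ⟨s, hs⟩ : ∃ s, s = t.take q := ⟨_, rfl⟩
  obtain ⟨r, hr⟩ : ∃ r, r = t.drop q := ⟨_, rfl⟩
  have ht : t = s ++ r := by
    rw [hs, hr, List.take_append_drop]
  have hl : s.length = q := by
    rw [hs, List.length_take]
    omega
  have h1 : ∀ j, vx oo up t (q + j) = vx (vx oo up t q) (dx up t q) r j := by
    intro j
    rw [ht, ← hl]
    unfold vx dx
    rw [vs_shift]
    apply vs_congr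
    intro k _
    exact tf_append_right k
  rw [← hr]
  obtain ⟨u, σ, hσ, hu, hip, hip2⟩ : ∃ (u : Pt) (σ : ℤ), (σ = 1 ∨ σ = -1) ∧ mulE u up = dx up t q ∧
      (∀ p, lvl true (mulE u p) = σ * ip p up) ∧
      ∀ p, lvl true p = -σ * (lvl true (mulE u p) + lvl false (mulE u p)) := by
    rcases hv with h | h
    · refine ⟨(-1, 1), 1, Or.inl rfl, ?_, ?_, ?_⟩
      · rw [h]
        decide
      · intro p
        simp only [lvl, hd, mulE, ip, up, if_true]
        ring
      · intro p
        simp only [lvl, hd, mulE, ip, up, if_true]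
        simp
        ring
    · refine ⟨(1, -1), -1, Or.inr rfl, ?_, ?_, ?_⟩
      · rw [h]
        decide
      · intro p
        simp only [lvl, hd, mulE, ip, up, if_true]
        ring
      · intro p
        simp only [lvl, hd, mulE, ip, up, if_true]
        simp
        ring
  have h2 : ∀ j, vx oo up t (q + j) = vx oo up t q + mulE u (vx oo up r j) := by
    intro j
    rw [h1, ← hu, vx_mulE u oo]
    congr 2
    exact sub_zero _
  refine ⟨σ, hσ, ?_, ?_, ?_⟩
  · intro j
    rw [h2, lvl_add, hip]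
    rfl
  · intro j
    have h3 : ∀ dir, lvl dir (mulE u (vx oo up r j)) = lvl dir (vx oo up t (q + j)) - lvl dir (vx oo up t q) := by
      intro dir
      rw [h2, lvl_add]
      ring
    rw [hip2, h3, h3]
    have h4 : |-σ| = 1 := by
      rcases hσ with h | h <;> rw [h] <;> norm_num
    rw [abs_mul, h4, one_mul]
    exact abs_add_le _ _
  · intro i j h
    rw [h2, h2, h]

/-- the box of the part behind a vertical step -/
lemma drop_WL {t : List Bool} {q K : ℕ} (ht : t ∈ WL K) (hq : q ≤ t.length) (hv : DirA.vert (dx up t q)) :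
    t.drop q ∈ WL (K + 3) := by
  obtain ⟨σ, hσ, h1, h2, h3⟩ := drop_dir hq hv
  refine ⟨⟨fun _ _ _ => Set.mem_univ _, ?_⟩, ?_⟩
  · intro i k hik hk heq
    rw [List.length_drop] at hk
    exact ht.1.inj (q + i) (q + k) (by omega) (by omega) (h3 i k heq)
  · intro i hi dir
    rw [List.length_drop] at hi
    have hX : (1 : ℤ) ≤ 2 ^ K := one_le_pow₀ (by norm_num)
    have a1 := ht.2 (q + i) (by omega) true
    have a2 := ht.2 (q + i) (by omega) false
    have a3 := ht.2 q hq true
    have a4 := ht.2 q hq false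
    have b1 := h1 i
    have b2 := h2 i
    have e3 : (2 : ℤ) ^ (K + 3) = 8 * 2 ^ K := by ring
    rw [e3]
    unfold row at a1 a2 a3 a4 ⊢
    rw [abs_le] at a1 a2 a3 a4 ⊢
    obtain ⟨X, hXX⟩ : ∃ X : ℤ, X = 2 ^ K := ⟨_, rfl⟩
    rw [← hXX] at a1 a2 a3 a4 hX ⊢
    cases dir
    · have e4 : lvl false (vx oo up (t.drop q) i) = lev (t.drop q) i := rfl
      rw [e4]
      rcases hσ with rfl | rfl <;> omega
    · have c1 : |lvl true (vx oo up t (q + i)) - lvl true (vx oo up t q)| ≤ 6 * X + 2 := by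
        rw [abs_le]
        omega
      have c2 : |lvl false (vx oo up t (q + i)) - lvl false (vx oo up t q)| ≤ 6 * X + 2 := by
        rw [abs_le]
        omega
      have c3 : |lvl true (vx oo up (t.drop q) i)| ≤ 12 * X + 4 := by linarith
      rw [abs_le] at c3
      omega

/-- the reduction of the direction true to the direction false -/
theorem gf_true {kc K N : ℕ} {R : Set (List (List Bool))} :
    gf {t | t ∈ SAL N ∧ t ∈ ERL true kc K R} ≤ ENNReal.ofReal DirA.CD * gf {t | t ∈ SAL N ∧ t ∈ ERM kc (K + 3) R} := by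
  classical
  refine (gf_mono ?_).trans (DirA.gf_zz _)
  rintro t ⟨⟨ht, htl⟩, hW, m, u, e, hL, l, d, hl, hd, hm, hR⟩
  have hRR : (4 : ℤ) < RR (kc + 5) := by
    unfold RR
    have h1 : (2 : ℤ) ^ 5 ≤ 2 ^ (kc + 5) := pow_le_pow_right₀ (by norm_num) (by omega)
    norm_num at h1
    omega
  have hbig := hL.big 0 (by omega)
  have hmon : ∀ j, j ≤ m → e j ≤ t.length := fun j hj => (hL.monoA hj le_rfl).trans hL.le
  have hex : ∃ q, q ≤ t.length ∧ DirA.vert (dx up t q) := by
    by_contra hc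
    push Not at hc
    have h1 : ∀ i, i < t.length → ¬ DirA.vert (dx up t i) := fun i hi => hc i hi.le
    have h2 := DirA.zz_lvl h1 (e 0) (hmon 0 (by omega))
    have h3 := DirA.zz_lvl h1 (e 1) (hmon 1 (by omega))
    simp only [zero_add, add_zero] at hbig
    rw [h2, h3] at hbig
    unfold Tight.sg at hbig
    split_ifs at hbig <;> omega
  obtain ⟨hq, hv⟩ := Nat.find_spec hex
  have hmin : ∀ i, i < Nat.find hex → ¬ DirA.vert (dx up t i) := fun i hi h => Nat.find_min hex hi ⟨by omega, h⟩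
  set q := Nat.find hex
  have hWd := drop_WL hW hq hv
  obtain ⟨σ, hσ, h1, h2, h3⟩ := drop_dir hq hv
  refine ⟨q, t.drop q, ?_, by rw [← DirA.take_eq hq hmin hv, List.take_append_drop]⟩
  refine ⟨⟨hWd.1, by rw [List.length_drop]; omega⟩, hWd, ?_⟩
  -- the folds
  obtain ⟨m', rfl⟩ : ∃ m', m = m' + 1 := ⟨m - 1, by omega⟩
  obtain ⟨c, e', hc, hH, he⟩ := hyst_tail (q := q) hRR (fun i hi => by
    have b1 := DirA.zz_lvl hmin i hi
    have b2 := DirA.zz_lvl hmin q le_rfl
    show |lvl true (vx oo up t i) - lvl true (vx oo up t q)| ≤ 2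
    rw [b1, b2, abs_le]
    split_ifs <;> constructor <;> omega) hL
  obtain ⟨u', hH'⟩ := hyst_sgn (f := fun i => lvl false (vx oo up (t.drop q) i)) (c := lvl true (vx oo up t q)) hσ
    (fun i _ => h1 i) hH
  rw [← List.length_drop] at hH'
  refine ⟨m' + 1 - c, u', e', hH', l - c, d, by omega, hd, by omega, ?_⟩
  have h4 : lws (t.drop q) e' (l - c) d = lws t e l d := by
    unfold lws
    apply List.map_congr_left
    intro i hi
    rw [List.mem_range] at hi
    have e1 := he (l - c + i) (by omega) (by omega)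
    have e2 := he (l - c + i + 1) (by omega) (by omega)
    rw [show l - c + i + c = l + i by omega] at e1
    rw [show l - c + i + 1 + c = l + i + 1 by omega] at e2
    have e3 : e' (l - c + i) < e' (l - c + i + 1) := hH.lt (l - c + i) (by omega)
    rw [e1, e2, lw_dropQ (by omega)]
  rw [h4]
  exact hR

end RD

open RD in
/-- **the event theorem for runs of interior leaves, both directions** -/
theorem eventRL_of {Dm : ℕ → ℝ≥0∞ → (List Bool → ℝ≥0∞) → Prop} (hE : EventR Dm) : ∃ (C : ℝ) (k0 : ℕ), 1 ≤ C ∧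
    ∀ (dir : Bool) (kc J lam lam' : ℕ) (R : Set (List (List Bool))) (δ : ℝ), k0 ≤ kc → 6 ≤ J → 0 < δ →
    QL (kc + J + 11) lam' → SmR Dm kc R δ →
    gf {t | t ∈ SAL lam ∧ t ∈ ERL dir kc (kc + J) R} ≤
      ENNReal.ofReal (C ^ J * δ * Ub (kc + J)) * (bl (lam + lam' + 40) (kc + J + 11)) ^ 2 := by
  obtain ⟨C0, k0, hC0, h0⟩ := hE
  have hCD := DirA.CD_ge
  have hCp : 0 < C0 := by linarith
  have hCD0 : 0 < DirA.CD := by linarith
  obtain ⟨C, hC⟩ : ∃ C, C = 8 * DirA.CD * C0 ^ 4 := ⟨_, rfl⟩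
  have hC1 : 1 ≤ C := by
    rw [hC]
    have : 1 ≤ C0 ^ 4 := one_le_pow₀ hC0
    nlinarith
  refine ⟨C, k0, hC1, fun dir kc J lam lam' R δ hk hJ hδ hQ hS => ?_⟩
  have h1 := h0 kc (J + 3) lam lam' R δ hk (by omega) hδ (by rwa [show kc + (J + 3) + 8 = kc + J + 11 by omega]) hS
  rw [show kc + (J + 3) + 8 = kc + J + 11 by omega] at h1
  have hU : Ub (kc + (J + 3)) ≤ 8 * Ub (kc + J) := by
    have a1 := Ub_succ (kc + J)
    have a2 := Ub_succ (kc + J + 1)
    have a3 := Ub_succ (kc + J + 2)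
    rw [show kc + (J + 3) = kc + J + 2 + 1 by omega]
    linarith
  have hUp := Ub_pos (kc + J)
  have hM : gf {t | t ∈ SAL lam ∧ t ∈ ERM kc (kc + (J + 3)) R} ≤ gf {t | t ∈ SAL lam ∧ t ∈ ER kc (J + 3) R} :=
    gf_mono fun t ht => ⟨ht.1, erm_sub ht.2⟩
  have hfin : ENNReal.ofReal DirA.CD * (ENNReal.ofReal (C0 ^ (J + 3) * δ * Ub (kc + (J + 3))) *
      (bl (lam + lam' + 40) (kc + J + 11)) ^ 2) ≤
      ENNReal.ofReal (C ^ J * δ * Ub (kc + J)) * (bl (lam + lam' + 40) (kc + J + 11)) ^ 2 := by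
    rw [← mul_assoc, ← ENNReal.ofReal_mul hCD0.le]
    refine mul_le_mul_left (ENNReal.ofReal_le_ofReal ?_) _
    have e1 : C0 ^ (J + 3) ≤ (C0 ^ 4) ^ J := by
      rw [← pow_mul]
      exact pow_le_pow_right₀ hC0 (by omega)
    have e2 : DirA.CD * 8 ≤ (8 * DirA.CD) ^ J := by
      calc DirA.CD * 8 = (8 * DirA.CD) ^ 1 := by ring
        _ ≤ (8 * DirA.CD) ^ J := pow_le_pow_right₀ (by linarith) (by omega)
    have e3 : C ^ J = (8 * DirA.CD) ^ J * (C0 ^ 4) ^ J := by
      rw [hC, mul_pow]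
    rw [e3]
    calc DirA.CD * (C0 ^ (J + 3) * δ * Ub (kc + (J + 3))) ≤ DirA.CD * (C0 ^ (J + 3) * δ * (8 * Ub (kc + J))) := by gcongr
      _ = (DirA.CD * 8) * C0 ^ (J + 3) * δ * Ub (kc + J) := by ring
      _ ≤ (8 * DirA.CD) ^ J * (C0 ^ 4) ^ J * δ * Ub (kc + J) := by gcongr
  cases dir
  · have hsub : {t | t ∈ SAL lam ∧ t ∈ ERL false kc (kc + J) R} ⊆ {t | t ∈ SAL lam ∧ t ∈ ERM kc (kc + (J + 3)) R} := by
      rintro t ⟨t1, t2, m, u, e, hL, l, d, a1, a2, a3, a4⟩
      refine ⟨t1, ⟨t2.1, fun i hi dir => (t2.2 i hi dir).trans (pow_le_pow_right₀ (by norm_num) (by omega))⟩, m, u, e, hL,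
        l, d, by omega, a2, a3, a4⟩
    refine ((gf_mono hsub).trans (hM.trans h1)).trans (le_trans ?_ hfin)
    have : (1 : ℝ≥0∞) ≤ ENNReal.ofReal DirA.CD := by
      rw [← ENNReal.ofReal_one]
      exact ENNReal.ofReal_le_ofReal hCD
    calc _ = 1 * (ENNReal.ofReal (C0 ^ (J + 3) * δ * Ub (kc + (J + 3))) * (bl (lam + lam' + 40) (kc + J + 11)) ^ 2) := by
          rw [one_mul]
      _ ≤ _ := mul_le_mul_left this _
  · refine (gf_true (kc := kc) (K := kc + J) (N := lam) (R := R)).trans (le_trans (mul_le_mul_right ?_ _) hfin)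
    rw [show kc + J + 3 = kc + (J + 3) by omega]
    exact hM.trans h1

end NTA

end HexObs
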