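import Pool.Agent.NTW.DmJ
import Pool.Agent.NTW.EventDefs
import Pool.Agent.PHW.Rotate
import Pool.Agent.SDN.XT
import Pool.Agent.SDN.Chain2
import Pool.Agent.SDN.CleanNorm

/-!
NTA: crude norm of a class of leaves: its weight times a power of the scale (helper14, for PLAN3 section 2 of helper10).
-/

set_option autoImplicit false

namespace HexObs

namespace NTA

open Finset TS SDN NTW

open scoped ENNReal

variable {C δ : ℝ}

namespace CR

/-- the last irreducible piece of a bridge -/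
lemma last_piece {T : ℕ} {t : List Bool} (ht : t ∈ Brd T) (hT : 1 ≤ T) :
    ∃ (r : ℕ) (s u : List Bool), s ∈ BU ∧ u ∈ Irr r ∧ t = s ++ u := by
  obtain ⟨r, s, u, -, -, h3, h4, h5⟩ := Brd_first (Brd_rev ht) hT
  exact ⟨r, rev u, rev s, ⟨T - r, Brd_rev h4⟩, Irr_rev h3, rev_eq_append h5⟩

lemma grow {a l : ℕ} (h : a ≤ l) : (2 : ℝ) ^ (kap0 / 4 * ((l : ℝ) - a)) * Ub a ≤ 2 * Ub l := by
  have h1 := Ub_growth h
  have h2 : (0 : ℝ) ≤ (l : ℝ) - a := by
    have : (a : ℝ) ≤ l := by exact_mod_cast h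
    linarith
  have h3 : (2 : ℝ) ^ (kap0 / 4 * ((l : ℝ) - a)) ≤ (2 : ℝ) ^ (kap0 * ((l : ℝ) - a)) := by
    refine Real.rpow_le_rpow_of_exponent_le (by norm_num) ?_
    have := mul_nonneg kap0_pos.le h2
    linarith
  have h4 := (Ub_pos a).le
  calc (2 : ℝ) ^ (kap0 / 4 * ((l : ℝ) - a)) * Ub a ≤ (2 : ℝ) ^ (kap0 * ((l : ℝ) - a)) * Ub a :=
        mul_le_mul_of_nonneg_right h3 h4
    _ = Ub a * (2 : ℝ) ^ (kap0 * ((l : ℝ) - a)) := mul_comm _ _
    _ ≤ _ := h1

lemma Sw_le (h : Inp C δ) {j b : ℕ} (hb : b ≤ j) (P : List Bool) :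
    Sw (2 ^ (j + 4)) j b P ≤ ENNReal.ofReal (6 * C * (j + 2) * Ub j) := by
  have hC := h.one_le
  have hU := (Ub_pos j).le
  have h1 : ∑ a ∈ Icc b (j + 1), ENNReal.ofReal ((2 : ℝ) ^ (kap0 / 4 * ((j : ℝ) + 1 - a))) * EE (2 ^ (j + 4)) b a (rev P) ≤
      ∑ _a ∈ Icc b (j + 1), ENNReal.ofReal (4 * C * Ub j) := by
    refine Finset.sum_le_sum fun a ha => ?_
    rw [Finset.mem_Icc] at ha
    calc ENNReal.ofReal ((2 : ℝ) ^ (kap0 / 4 * ((j : ℝ) + 1 - a))) * EE (2 ^ (j + 4)) b a (rev P)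
        ≤ ENNReal.ofReal ((2 : ℝ) ^ (kap0 / 4 * ((j : ℝ) + 1 - a))) * ENNReal.ofReal (C * Ub a) :=
          mul_le_mul_right (h.cu _ _ _ ha.1 (Nat.pow_le_pow_right (by norm_num) (by omega)) _) _
      _ = ENNReal.ofReal (C * ((2 : ℝ) ^ (kap0 / 4 * (((j + 1 : ℕ) : ℝ) - a)) * Ub a)) := by
          rw [← ENNReal.ofReal_mul (Real.rpow_pos_of_pos two_pos _).le]
          congr 1
          push_cast
          ring
      _ ≤ _ := by
          refine ENNReal.ofReal_le_ofReal ?_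
          have h2 := grow ha.2
          have h3 := Ub_succ j
          nlinarith
  have hcard : (Icc b (j + 1)).card ≤ j + 2 := by
    rw [Nat.card_Icc]
    omega
  unfold Sw
  refine (add_le_add (ENNReal.ofReal_le_ofReal (grow hb)) h1).trans ?_
  rw [Finset.sum_const, nsmul_eq_mul]
  calc ENNReal.ofReal (2 * Ub j) + ((Icc b (j + 1)).card : ℝ≥0∞) * ENNReal.ofReal (4 * C * Ub j)
      ≤ ENNReal.ofReal (2 * Ub j) + ((j + 2 : ℕ) : ℝ≥0∞) * ENNReal.ofReal (4 * C * Ub j) := by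
        gcongr
    _ = ENNReal.ofReal (2 * Ub j + (j + 2) * (4 * C * Ub j)) := by
        rw [ENNReal.ofReal_add (by positivity) (by positivity), ENNReal.ofReal_mul (by positivity : (0 : ℝ) ≤ (j : ℝ) + 2)]
        congr 2
        rw [← ENNReal.ofReal_natCast]
        push_cast
        rfl
    _ ≤ _ := by
        refine ENNReal.ofReal_le_ofReal ?_
        have h2 : (0 : ℝ) ≤ j := Nat.cast_nonneg j
        have h3 : 2 * Ub j ≤ (j + 2) * (2 * C * Ub j) := by
          have : 2 * Ub j ≤ 2 * (2 * C * Ub j) := by nlinarith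
          refine this.trans (mul_le_mul_of_nonneg_right (by linarith) (by positivity))
        nlinarith

/-- the universal weight of a piece -/
lemma SS_le (h : Inp C δ) (k : ℕ) (P : List Bool) : NTW.SS k P ≤ ENNReal.ofReal (6 * C * (k + 2) ^ 3 * Ub k) := by
  have hC := h.one_le
  have hU := (Ub_pos k).le
  unfold NTW.SS
  calc ∑ j ∈ range (k + 1), ∑ b ∈ range (j + 1), Sw (2 ^ (j + 4)) j b P
      ≤ ∑ _j ∈ range (k + 1), ∑ _b ∈ range (k + 1), ENNReal.ofReal (6 * C * (k + 2) * Ub k) := by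
        refine Finset.sum_le_sum fun j hj => ?_
        rw [Finset.mem_range] at hj
        refine (Finset.sum_le_sum fun b hb => ?_).trans (Finset.sum_le_sum_of_subset (Finset.range_mono (by omega)))
        rw [Finset.mem_range] at hb
        refine (Sw_le h (by omega) P).trans (ENNReal.ofReal_le_ofReal ?_)
        have h1 : (j : ℝ) ≤ k := by exact_mod_cast (by omega : j ≤ k)
        have h2 : Ub j ≤ Ub k := Ub_mono (by omega)
        have h3 := (Ub_pos j).le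
        gcongr
    _ = ENNReal.ofReal ((k + 1) * ((k + 1) * (6 * C * (k + 2) * Ub k))) := by
        have e : ((k + 1 : ℕ) : ℝ≥0∞) = ENNReal.ofReal ((k : ℝ) + 1) := by
          rw [← ENNReal.ofReal_natCast]
          push_cast
          rfl
        rw [Finset.sum_const, Finset.sum_const, Finset.card_range, nsmul_eq_mul, nsmul_eq_mul, e,
          ← ENNReal.ofReal_mul (by positivity), ← ENNReal.ofReal_mul (by positivity)]
    _ ≤ _ := by
        refine ENNReal.ofReal_le_ofReal ?_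
        have h1 : (0 : ℝ) ≤ k := Nat.cast_nonneg k
        have h2 : (0 : ℝ) ≤ 6 * C * (k + 2) * Ub k := by positivity
        have h3 : ((k : ℝ) + 1) * ((k + 1) * (6 * C * (k + 2) * Ub k)) = (k + 1) ^ 2 * (6 * C * (k + 2) * Ub k) := by ring
        have h4 : 6 * C * (k + 2) ^ 3 * Ub k = ((k : ℝ) + 2) ^ 2 * (6 * C * (k + 2) * Ub k) := by ring
        rw [h3, h4]
        refine mul_le_mul_of_nonneg_right ?_ h2
        gcongr
        linarith

/-- a dominated functional at a leaf -/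
lemma phi_le (h : Inp C δ) {k : ℕ} {x : ℝ≥0∞} {Φ : List Bool → ℝ≥0∞} (hΦ : Dom k x Φ) {g : List Bool}
    (hg : g ∈ HB (2 ^ (k + 4))) : Φ g ≤ x * ENNReal.ofReal (6 * C * (k + 2) ^ 3 * Ub k) := by
  obtain ⟨T, hT, hg⟩ := hg
  have h16 : 1 ≤ 2 ^ (k + 4) := Nat.one_le_two_pow
  obtain ⟨r, s, u, hs, hu, rfl⟩ := last_piece hg (by omega)
  refine (hΦ.her s hs u).trans (le_trans ?_ ((hΦ.bd r u hu).trans (mul_le_mul_right (SS_le h k u) _)))
  have hn : ([] : List Bool) ∈ {M : List Bool | ∃ m, m < 2 ^ (k + 1) ∧ M ∈ Brd m} :=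
    ⟨0, Nat.two_pow_pos _, nil_mem_Brd⟩
  unfold Rec8.sw
  refine le_trans (le_of_eq ?_) (ENNReal.le_tsum ⟨[], hn⟩)
  show Φ u = wE [] * Φ (u ++ [])
  rw [List.append_nil]
  unfold wE
  simp

lemma six {k : ℕ} : ((k : ℝ) + 2) ^ 6 ≤ 256 * 4 ^ k := by
  induction k with
  | zero => norm_num
  | succ n ih =>
    rcases Nat.lt_or_ge n 2 with hn | hn
    · interval_cases n <;> norm_num
    · have h1 : (2 : ℝ) ≤ n := by exact_mod_cast hn
      have h2 : ((n + 1 : ℕ) : ℝ) + 2 ≤ 5 / 4 * ((n : ℝ) + 2) := by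
        push_cast
        linarith
      have h0 : (0 : ℝ) ≤ ((n + 1 : ℕ) : ℝ) + 2 := by positivity
      calc (((n + 1 : ℕ) : ℝ) + 2) ^ 6 ≤ (5 / 4 * ((n : ℝ) + 2)) ^ 6 := pow_le_pow_left₀ h0 h2 6
        _ = (5 / 4) ^ 6 * ((n : ℝ) + 2) ^ 6 := mul_pow _ _ _
        _ ≤ 4 * ((n : ℝ) + 2) ^ 6 := by
            refine mul_le_mul_of_nonneg_right (by norm_num) (by positivity)
        _ ≤ 4 * (256 * 4 ^ n) := mul_le_mul_of_nonneg_left ih (by norm_num)
        _ = _ := by ring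

lemma Ub_le (k : ℕ) : Ub k ≤ Ub 0 * 2 ^ k := by
  induction k with
  | zero => simp
  | succ n ih =>
    have h1 := Ub_succ n
    calc Ub (n + 1) ≤ 2 * Ub n := h1
      _ ≤ 2 * (Ub 0 * 2 ^ n) := by linarith
      _ = _ := by ring

end CR

open CR in
/-- **the crude norm**: a class of leaves of weight at most a has the norm at most K 16^k a, near and two sided -/
theorem crude_of (h : Inp C δ) : ∃ K : ℝ, 1 ≤ K ∧ ∀ (k : ℕ) (S : Set (List Bool)) (a : ℝ), 0 ≤ a →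
    S ⊆ HB (2 ^ (k + 4)) → gf S ≤ ENNReal.ofReal a → SmD DmJ k S (K * 16 ^ k * a) := by
  have hC := h.one_le
  have hU0 : 1 ≤ Ub 0 := SDN.Ch.one_le_Ub 0
  obtain ⟨M, hM⟩ : ∃ M : ℝ, M = (6 * C) ^ 2 * 256 * (2 * Ub 0) := ⟨_, rfl⟩
  have hM1 : 1 ≤ M := by
    rw [hM]
    nlinarith [mul_le_mul hC hC (by norm_num) (by linarith : (0 : ℝ) ≤ C)]
  refine ⟨M, hM1, fun k S a ha hS hg => ?_⟩
  obtain ⟨q, hq⟩ : ∃ q : ℝ, q = 6 * C * ((k : ℝ) + 2) ^ 3 * Ub k := ⟨_, rfl⟩
  have hk0 : (0 : ℝ) ≤ k := Nat.cast_nonneg k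
  have hUk := SDN.Ch.one_le_Ub k
  have hq1 : 1 ≤ q := by
    rw [hq]
    have h1 : (1 : ℝ) ≤ ((k : ℝ) + 2) ^ 3 := one_le_pow₀ (by linarith)
    have h2 : (1 : ℝ) ≤ 6 * C := by linarith
    calc (1 : ℝ) = 1 * 1 * 1 := by norm_num
      _ ≤ 6 * C * ((k : ℝ) + 2) ^ 3 * Ub k := by gcongr
  have hq2 : 2 * q ^ 2 ≤ M * 16 ^ k * Ub k := by
    have h1 : 2 * q ^ 2 = 2 * (6 * C) ^ 2 * ((k : ℝ) + 2) ^ 6 * Ub k * Ub k := by
      rw [hq]
      ring
    rw [h1]
    refine mul_le_mul_of_nonneg_right ?_ (by linarith)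
    calc 2 * (6 * C) ^ 2 * ((k : ℝ) + 2) ^ 6 * Ub k
        ≤ 2 * (6 * C) ^ 2 * (256 * 4 ^ k) * (Ub 0 * 2 ^ k) := by
          have := CR.six (k := k)
          have := CR.Ub_le k
          gcongr
      _ = M * 8 ^ k := by
          have e8 : (8 : ℝ) ^ k = 4 ^ k * 2 ^ k := by rw [← mul_pow]; norm_num
          rw [hM, e8]
          ring
      _ ≤ M * 16 ^ k := by
          have : (8 : ℝ) ^ k ≤ 16 ^ k := pow_le_pow_left₀ (by norm_num) (by norm_num) k
          exact mul_le_mul_of_nonneg_left this (by linarith)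
  have hq3 : 2 * q ≤ M * 16 ^ k := by
    have hr : q ≤ q ^ 2 / Ub k := by
      rw [le_div_iff₀ (by linarith)]
      have : Ub k ≤ q := by
        rw [hq]
        have h1 : (1 : ℝ) ≤ ((k : ℝ) + 2) ^ 3 := one_le_pow₀ (by linarith)
        have h2 : (1 : ℝ) ≤ 6 * C := by linarith
        calc Ub k = 1 * 1 * Ub k := by ring
          _ ≤ 6 * C * ((k : ℝ) + 2) ^ 3 * Ub k := by gcongr
      nlinarith
    have : 2 * q ^ 2 / Ub k ≤ M * 16 ^ k := by
      rw [div_le_iff₀ (by linarith)]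
      exact hq2
    calc 2 * q ≤ 2 * (q ^ 2 / Ub k) := by linarith
      _ = 2 * q ^ 2 / Ub k := by ring
      _ ≤ _ := this
  refine ⟨fun x Φ hΦ => ?_, fun y x Ψ Φ hΨ _ hΦ => ?_⟩
  · have h1 : ∀ t, vA (2 ^ (k + 4)) S Φ t ≤ ENNReal.ofReal (a * q) * x := by
      intro t
      unfold vA
      calc Rec8.sw {g' | g' ∈ S ∧ RT (2 ^ (k + 4)) LFold t g'} Φ
          ≤ Rec8.sw S (fun _ => x * ENNReal.ofReal q) :=
            Rec8.sw_mono (fun g hg => hg.1) fun g hg => by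
              rw [hq]
              exact phi_le h hΦ.dom (hS hg.1)
        _ = gf S * (x * ENNReal.ofReal q) := by
            rw [← Rec8.sw_one, ← Rec8.sw_mul_right]
            exact Rec8.sw_congr fun _ _ => (one_mul _).symm
        _ ≤ ENNReal.ofReal a * (x * ENNReal.ofReal q) := mul_le_mul_left hg _
        _ = _ := by
            rw [ENNReal.ofReal_mul ha]
            ring
    calc xT (2 ^ (k + 4)) k (vA (2 ^ (k + 4)) S Φ) ≤ xT (2 ^ (k + 4)) k (fun _ => ENNReal.ofReal (a * q) * x) :=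
          xT_mono h1
      _ ≤ 2 * (ENNReal.ofReal (a * q) * x) := SDN.CN.xT_const _ _ _
      _ = ENNReal.ofReal (a * (2 * q)) * x := by
          rw [show a * (2 * q) = 2 * (a * q) by ring, ENNReal.ofReal_mul (by norm_num : (0 : ℝ) ≤ 2),
            ENNReal.ofReal_ofNat, mul_assoc]
      _ ≤ _ := by
          refine mul_le_mul_left (ENNReal.ofReal_le_ofReal ?_) _
          calc a * (2 * q) ≤ a * (M * 16 ^ k) := mul_le_mul_of_nonneg_left hq3 ha
            _ = _ := mul_comm _ _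
  · have hrev : ∀ g ∈ S, rev g ∈ HB (2 ^ (k + 4)) := by
      intro g hg
      obtain ⟨T, hT, h1⟩ := hS hg
      exact ⟨T, hT, Brd_rev h1⟩
    calc Rec8.sw S (fun g => Ψ (rev g) * Φ g)
        ≤ Rec8.sw S (fun _ => (y * ENNReal.ofReal q) * (x * ENNReal.ofReal q)) :=
          Rec8.sw_mono' fun g hg => by
            rw [hq]
            exact mul_le_mul' (phi_le h hΨ.dom (hrev g hg)) (phi_le h hΦ.dom (hS hg))
      _ = gf S * ((y * ENNReal.ofReal q) * (x * ENNReal.ofReal q)) := by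
          rw [← Rec8.sw_one, ← Rec8.sw_mul_right]
          exact Rec8.sw_congr fun _ _ => (one_mul _).symm
      _ ≤ ENNReal.ofReal a * ((y * ENNReal.ofReal q) * (x * ENNReal.ofReal q)) := mul_le_mul_left hg _
      _ = ENNReal.ofReal (a * q ^ 2) * (y * x) := by
          rw [ENNReal.ofReal_mul ha, pow_two, ENNReal.ofReal_mul (by linarith)]
          ring
      _ ≤ _ := by
          refine mul_le_mul_left (ENNReal.ofReal_le_ofReal ?_) _
          have h1 : q ^ 2 ≤ M * 16 ^ k * Ub k := by nlinarith [sq_nonneg q]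
          calc a * q ^ 2 ≤ a * (M * 16 ^ k * Ub k) := mul_le_mul_of_nonneg_left h1 ha
            _ = _ := by ring

/-- the same without hypothesis -/
theorem crude : ∃ K : ℝ, 1 ≤ K ∧ ∀ (k : ℕ) (S : Set (List Bool)) (a : ℝ), 0 ≤ a →
    S ⊆ HB (2 ^ (k + 4)) → gf S ≤ ENNReal.ofReal a → SmD DmJ k S (K * 16 ^ k * a) := by
  obtain ⟨C, δ, h⟩ := inp_exists
  exact crude_of h

end NTA

end HexObs
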