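import Pool.Agent.NTA.LQSum
import Pool.Agent.NTA.SpWin
import Pool.Agent.NTA.HalfDefs
import Pool.Agent.NTA.Crude

/-!
NTA, long leaves (plain class): the numbers. From the tail of the lengths of the bridges (TB) the leaves with at least
y m k letters are a class of norm A / y ^ q, for every q.
-/

set_option autoImplicit false

namespace HexObs

namespace NTA

open Finset TS SDN NTW

open scoped ENNReal

namespace LQ

lemma EZ_mono {D N e : ℕ} {W W' : Set (List Bool)} {a : ℝ} (h : W' ⊆ W) (hW : EZ D N e W a) : EZ D N e W' a := by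
  intro M hM P1 hP1 P2 hP2 Q hQ h1 h2
  refine le_trans (ENNReal.tsum_le_tsum fun z => gf_mono fun Z hZ => ?_) (hW M hM P1 hP1 P2 hP2 Q hQ h1 h2)
  exact ⟨hZ.1, h hZ.2.1, hZ.2.2⟩

lemma EZ_le {D N e : ℕ} {W : Set (List Bool)} {a a' : ℝ} (h : a ≤ a') (hW : EZ D N e W a) : EZ D N e W a' := by
  intro M hM P1 hP1 P2 hP2 Q hQ h1 h2
  exact (hW M hM P1 hP1 P2 hP2 Q hQ h1 h2).trans (ENNReal.ofReal_le_ofReal h)

lemma UU8 (k : ℕ) : UU (2 ^ (k + 8)) ≤ 256 * Ub k := by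
  have := Sc.Ub_shift k 8
  norm_num at this
  exact this

lemma Ub_le (k : ℕ) : Ub k ≤ 2 ^ (k + 1) := by
  have h1 := CuLogAux.UU_le_succ (2 ^ k)
  have h2 : (1 : ℝ) ≤ 2 ^ k := one_le_pow₀ (by norm_num)
  unfold Ub
  push_cast at h1
  rw [pow_succ]
  linarith

/-- every class of leaves of heights in [2^(k+4), 2^(k+8)] -/
theorem SmD_all : ∃ K : ℝ, 1 ≤ K ∧ ∀ k : ℕ, SmD DmJ k (BrR (2 ^ (k + 4)) (2 ^ (k + 8))) K := by
  obtain ⟨C, δ, h⟩ := inp_exists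
  obtain ⟨K1, hK1, h1⟩ := nextD_of h (ssA h) (ssThree h)
  obtain ⟨K2, hK2, h2⟩ := DmJ_pair (ssA h) (ssBoth h)
  refine ⟨256 * (K1 + K2), by linarith, fun k => ?_⟩
  have hU := Ub_pos k
  have hN := UU8 k
  have hk : 2 ^ (k + 4) ≤ 2 ^ (k + 8) := Nat.pow_le_pow_right (by norm_num) (by omega)
  refine ⟨fun x Φ hΦ => ?_, fun y x Ψ Φ hΨ hF hΦ => ?_⟩
  · refine (h1 (2 ^ (k + 4)) k k (2 ^ (k + 4)) (2 ^ (k + 8)) x Φ hΦ.dom le_rfl le_rfl le_rfl hk).trans ?_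
    refine mul_le_mul_left (ENNReal.ofReal_le_ofReal ?_) _
    have h3 : UU (2 ^ (k + 8)) / Ub k ≤ 256 := by
      rw [div_le_iff₀ hU]
      exact hN
    have h4 : K1 * (UU (2 ^ (k + 8)) / Ub k) ≤ K1 * 256 := mul_le_mul_of_nonneg_left h3 (by linarith)
    linarith
  · refine (h2 k x y Ψ Φ hΨ hΦ (2 ^ (k + 8))).trans (mul_le_mul_left (ENNReal.ofReal_le_ofReal ?_) _)
    have h3 : K2 * UU (2 ^ (k + 8)) ≤ K2 * (256 * Ub k) := mul_le_mul_of_nonneg_left hN (by linarith)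
    have h4 : 0 ≤ K1 * Ub k := by positivity
    nlinarith

lemma r1 {y : ℝ} (hy : 1 ≤ y) {a b q : ℕ} (h : a + q ≤ b) : y ^ a / y ^ b ≤ 1 / y ^ q := by
  have h0 : 0 < y := by linarith
  rw [div_le_div_iff₀ (by positivity) (by positivity), one_mul, ← pow_add]
  exact pow_le_pow_right₀ hy h

/-- one window class, the numbers -/
theorem win_i : ∃ (K : ℝ) (c0 : ℕ), 1 ≤ K ∧ 1 ≤ c0 ∧ ∀ (k q b i : ℕ) (y A : ℝ) (W : Set (List Bool)), (2 : ℝ) ^ b ≤ y →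
    y < 2 ^ (b + 1) → (i + 1) + (c0 * (3 * (i + 1) + q * (b + 1)) + 3) ≤ k → 0 ≤ A →
    W ⊆ BrR (2 ^ (k + 4)) (2 ^ (k + 8)) → EZ (2 ^ (k + 4)) (2 ^ (k + 8)) (k - 1 - i) W (A * Ub k) →
    SmD DmJ k W (K * ((1 / 2) ^ i / y ^ q + (4 ^ (3 * c0 + 1)) ^ i * (2 * y) ^ (2 * (c0 * q)) * A)) := by
  obtain ⟨K1, c, hK1, hc, hsp⟩ := sp_win
  obtain ⟨c1, hc1⟩ := exists_nat_ge (1 / c)
  obtain ⟨c0, hc0⟩ : ∃ c0, c0 = c1 + 1 := ⟨_, rfl⟩
  have hcc : 1 ≤ c * c0 := by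
    have h1 : 1 / c ≤ (c0 : ℝ) := by
      rw [hc0]
      push_cast
      linarith
    rw [div_le_iff₀ hc] at h1
    linarith
  obtain ⟨G, hG⟩ : ∃ G : ℝ, G = 4 ^ (3 * c0 + 4) := ⟨_, rfl⟩
  have hG1 : 1 ≤ G := by rw [hG]; exact one_le_pow₀ (by norm_num)
  refine ⟨K1 * 257 ^ 2 * G, c0, by nlinarith, by omega, fun k q b i y A W hb1 hb2 hk hA hW hEZ => ?_⟩
  have hU := Ub_pos k
  have hy : 1 ≤ y := le_trans (one_le_pow₀ (by norm_num)) hb1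
  obtain ⟨s, hs⟩ : ∃ s, s = c0 * (3 * (i + 1) + q * (b + 1)) + 3 := ⟨_, rfl⟩
  rw [← hs] at hk
  have h1 := hsp k (2 ^ (k + 8)) (k - 1 - i) (k - 1 - i - s) (A * Ub k) W (by omega) (by omega) (by positivity) hW hEZ
  refine SmD_le ?_ h1
  have e1 : k - (k - 1 - i) = i + 1 := by omega
  have e2 : k - (k - 1 - i - s) = i + 1 + s := by omega
  have e3 : ((k - 1 - i : ℕ) : ℝ) - ((k - 1 - i - s : ℕ) : ℝ) = s := by
    have e4 : ((k - 1 - i : ℕ) : ℝ) = ((k - 1 - i - s : ℕ) : ℝ) + s := by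
      exact_mod_cast (by omega : k - 1 - i = (k - 1 - i - s) + s)
    linarith
  rw [e1, e2, e3, mul_div_assoc, div_self hU.ne', mul_one]
  have h2 : 1 + UU (2 ^ (k + 8)) / Ub k ≤ 257 := by
    have : UU (2 ^ (k + 8)) / Ub k ≤ 256 := by
      rw [div_le_iff₀ hU]
      exact UU8 k
    linarith
  have h3 : (0 : ℝ) ≤ 1 + UU (2 ^ (k + 8)) / Ub k := by
    have : 0 ≤ UU (2 ^ (k + 8)) / Ub k := div_nonneg (Num2Aux.UU_pos _).le hU.le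
    linarith
  have h4 : K1 * (1 + UU (2 ^ (k + 8)) / Ub k) ^ 2 ≤ K1 * 257 ^ 2 :=
    mul_le_mul_of_nonneg_left (pow_le_pow_left₀ h3 h2 2) (by linarith)
  -- the first number
  have h5 : (4 : ℝ) ^ (i + 1) * (2 : ℝ) ^ (-(c * (s : ℝ))) ≤ (1 / 2) ^ i / y ^ q := by
    have a1 : ((3 * (i + 1) + q * (b + 1) : ℕ) : ℝ) ≤ c * s := by
      rw [hs]
      push_cast
      have a2 : (0 : ℝ) ≤ 3 * ((i : ℝ) + 1) + q * ((b : ℝ) + 1) := by positivity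
      nlinarith
    have a3 : (2 : ℝ) ^ (-(c * (s : ℝ))) ≤ (2 : ℝ) ^ (-((3 * (i + 1) + q * (b + 1) : ℕ) : ℝ)) :=
      Real.rpow_le_rpow_of_exponent_le (by norm_num) (by linarith)
    have a6 : (2 : ℝ) ^ (-((3 * (i + 1) + q * (b + 1) : ℕ) : ℝ)) = (((2 : ℝ) ^ 3) ^ (i + 1) * ((2 : ℝ) ^ (b + 1)) ^ q)⁻¹ := by
      rw [Real.rpow_neg (by norm_num), Real.rpow_natCast, pow_add, mul_comm q, pow_mul, pow_mul]
    rw [a6] at a3
    have a4 : y ^ q ≤ ((2 : ℝ) ^ (b + 1)) ^ q := pow_le_pow_left₀ (by linarith) hb2.le q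
    have a5 : (0 : ℝ) < y ^ q := by positivity
    calc (4 : ℝ) ^ (i + 1) * (2 : ℝ) ^ (-(c * (s : ℝ)))
        ≤ (4 : ℝ) ^ (i + 1) * (((2 : ℝ) ^ 3) ^ (i + 1) * ((2 : ℝ) ^ (b + 1)) ^ q)⁻¹ :=
          mul_le_mul_of_nonneg_left a3 (by positivity)
      _ = (1 / 2) ^ (i + 1) * (((2 : ℝ) ^ (b + 1)) ^ q)⁻¹ := by
          rw [mul_inv, ← mul_assoc, ← inv_pow, ← mul_pow]
          norm_num
      _ ≤ (1 / 2) ^ i * (y ^ q)⁻¹ := by
          apply mul_le_mul _ (inv_anti₀ a5 a4) (by positivity) (by positivity)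
          exact pow_le_pow_of_le_one (by norm_num) (by norm_num) (by omega)
      _ = _ := (div_eq_mul_inv _ _).symm
  -- the second number
  have h6 : (4 : ℝ) ^ (i + 1 + s) ≤ G * ((4 ^ (3 * c0 + 1)) ^ i * (2 * y) ^ (2 * (c0 * q))) := by
    have a1 : i + 1 + s = (3 * c0 + 4) + (3 * c0 + 1) * i + (b + 1) * (c0 * q) := by
      rw [hs]
      ring
    have a2 : ((4 : ℝ) ^ (b + 1)) ^ (c0 * q) ≤ (2 * y) ^ (2 * (c0 * q)) := by
      have a3 : (4 : ℝ) ^ (b + 1) = (2 ^ (b + 1)) ^ 2 := by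
        rw [← pow_mul, mul_comm, pow_mul]
        norm_num
      rw [a3, ← pow_mul]
      apply pow_le_pow_left₀ (by positivity)
      rw [pow_succ]
      linarith
    rw [a1, pow_add, pow_add, pow_mul, pow_mul, hG, mul_assoc]
    exact mul_le_mul_of_nonneg_left (mul_le_mul_of_nonneg_left a2 (by positivity)) (by positivity)
  have h7 : (0 : ℝ) ≤ (1 / 2) ^ i / y ^ q := by positivity
  have h8 : (0 : ℝ) ≤ (4 ^ (3 * c0 + 1)) ^ i * (2 * y) ^ (2 * (c0 * q)) := by positivity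
  calc K1 * (1 + UU (2 ^ (k + 8)) / Ub k) ^ 2 * ((4 : ℝ) ^ (i + 1) * (2 : ℝ) ^ (-(c * (s : ℝ))) + 4 ^ (i + 1 + s) * A)
      ≤ K1 * 257 ^ 2 * (G * ((1 / 2) ^ i / y ^ q) + G * ((4 ^ (3 * c0 + 1)) ^ i * (2 * y) ^ (2 * (c0 * q))) * A) := by
        refine mul_le_mul h4 (add_le_add ?_ (mul_le_mul_of_nonneg_right h6 hA)) (by positivity) (by positivity)
        calc _ ≤ 1 * ((1 / 2) ^ i / y ^ q) := by rw [one_mul]; exact h5
          _ ≤ G * ((1 / 2) ^ i / y ^ q) := mul_le_mul_of_nonneg_right hG1 h7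
    _ = _ := by ring

/-- antitone in the number of letters -/
lemma TL_anti {N : ℕ} {x x' : ℝ} (h : x' ≤ x) : NTm.TL N x ≤ NTm.TL N x' :=
  Finset.sum_le_sum fun _ _ => gf_mono fun _ hZ => ⟨hZ.1, h.trans hZ.2⟩

/-- the tail at the level k - 1 - i -/
lemma tl_lev {m : ℕ → ℝ} (hm : MLow m) {Q : ℕ} {A0 : ℝ} (hA0 : 0 < A0) (hB : ∀ (k : ℕ) (lam : ℝ), 1 ≤ lam →
    NTm.TL (2 ^ k) (lam * m k) ≤ ENNReal.ofReal (A0 / lam ^ Q * Ub k)) {k i r : ℕ} {y z : ℝ} (hQ : Q = 16 * r)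
    (hi : i + 1 ≤ k) (hy : 6 ≤ y) (hz : y / 6 * (1 / 2) ^ i * m k ≤ z) :
    NTm.TL (2 ^ (k - 1 - i)) z ≤
      ENNReal.ofReal (A0 * ((6 / y) ^ (4 * r) * (1 / 2) ^ (r * i)) ^ 4 * Ub (k - 1 - i)) := by
  have hk : k - 1 - i + (i + 1) = k := by omega
  have h1 := hm.low (k - 1 - i) (i + 1)
  rw [hk] at h1
  have hp := hm.pos (k - 1 - i)
  have hy0 : 0 < y := by linarith
  obtain ⟨lam, hlam⟩ : ∃ lam : ℝ, lam = y / 6 * (2 : ℝ) ^ ((i : ℝ) / 4) := ⟨_, rfl⟩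
  have h2 : (1 : ℝ) ≤ (2 : ℝ) ^ ((i : ℝ) / 4) := Real.one_le_rpow (by norm_num) (by positivity)
  have hlam1 : 1 ≤ lam := by
    rw [hlam]
    have : 1 ≤ y / 6 := by linarith
    nlinarith
  have h3 : lam * m (k - 1 - i) ≤ z := by
    refine le_trans ?_ hz
    have h4 : (2 : ℝ) ^ ((i : ℝ) / 4) * m (k - 1 - i) ≤ (1 / 2) ^ i * m k := by
      have h5 : (2 : ℝ) ^ ((i : ℝ) / 4) ≤ (1 / 2) ^ i * (2 : ℝ) ^ (5 / 4 * ((i + 1 : ℕ) : ℝ)) := by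
        have h6 : ((1 : ℝ) / 2) ^ i = (2 : ℝ) ^ (-(i : ℝ)) := by
          rw [Real.rpow_neg (by norm_num), Real.rpow_natCast, one_div, inv_pow]
        rw [h6, ← Real.rpow_add (by norm_num)]
        apply Real.rpow_le_rpow_of_exponent_le (by norm_num)
        push_cast
        linarith
      calc (2 : ℝ) ^ ((i : ℝ) / 4) * m (k - 1 - i)
          ≤ ((1 / 2) ^ i * (2 : ℝ) ^ (5 / 4 * ((i + 1 : ℕ) : ℝ))) * m (k - 1 - i) :=
            mul_le_mul_of_nonneg_right h5 hp.le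
        _ = (1 / 2) ^ i * ((2 : ℝ) ^ (5 / 4 * ((i + 1 : ℕ) : ℝ)) * m (k - 1 - i)) := by ring
        _ ≤ (1 / 2) ^ i * m k := mul_le_mul_of_nonneg_left h1 (by positivity)
    calc lam * m (k - 1 - i) = y / 6 * ((2 : ℝ) ^ ((i : ℝ) / 4) * m (k - 1 - i)) := by rw [hlam]; ring
      _ ≤ y / 6 * ((1 / 2) ^ i * m k) := mul_le_mul_of_nonneg_left h4 (by positivity)
      _ = _ := by ring
  refine (TL_anti h3).trans ((hB _ lam hlam1).trans (ENNReal.ofReal_le_ofReal (le_of_eq ?_)))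
  congr 1
  have h7 : ((2 : ℝ) ^ ((i : ℝ) / 4)) ^ (16 * r) = 2 ^ (4 * (r * i)) := by
    rw [← Real.rpow_natCast, ← Real.rpow_mul (by norm_num), ← Real.rpow_natCast]
    congr 1
    push_cast
    ring
  rw [hQ, hlam, mul_pow, h7]
  rw [mul_pow, ← pow_mul, ← pow_mul, show 4 * r * 4 = 16 * r by ring, show r * i * 4 = 4 * (r * i) by ring, div_pow,
    div_pow, div_pow, one_pow]
  field_simp

/-- weight of the long leaves -/
lemma gf_long (D N : ℕ) (x : ℝ) : gf {g | g ∈ BrR D N ∧ x ≤ (g.length : ℝ)} ≤ NTm.TL N x := by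
  classical
  unfold NTm.TL
  simp only [gf_ind]
  rw [← Summable.tsum_finsetSum (fun _ _ => ENNReal.summable)]
  refine ENNReal.tsum_le_tsum fun t => ?_
  by_cases ht : t ∈ {g | g ∈ BrR D N ∧ x ≤ (g.length : ℝ)}
  · rw [if_pos ht]
    obtain ⟨⟨h, -, hN, hh⟩, hx⟩ := ht
    refine le_trans (le_of_eq ?_) (Finset.single_le_sum (fun _ _ => zero_le)
      (Finset.mem_range.2 (show h < N + 1 by omega)))
    exact (if_pos ⟨hh, hx⟩).symm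
  · rw [if_neg ht]
    exact zero_le

/-- weight of the deep tails -/
lemma gf_Suf_le (D N L : ℕ) (x : ℝ) : gf {g | g ∈ BrR D N ∧ g ∈ SufL L x} ≤ NTm.TL L x * ENNReal.ofReal (UU N) := by
  classical
  have hR : NTm.TL L x * gf {Z | ∃ h, h ≤ N ∧ Z ∈ Brd h} = ∑' y : ℕ × (List Bool × List Bool),
      (if (y.1 ∈ Finset.range (L + 1) ∧ y.2.1 ∈ Brd y.1 ∧ x ≤ (y.2.1.length : ℝ)) ∧
        (∃ h, h ≤ N ∧ y.2.2 ∈ Brd h) then wE y.2.1 * wE y.2.2 else 0) := by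
    unfold NTm.TL
    rw [ENNReal.tsum_prod', Finset.sum_mul]
    have e1 : ∀ l : ℕ, (∑' y : List Bool × List Bool,
        (if (l ∈ Finset.range (L + 1) ∧ y.1 ∈ Brd l ∧ x ≤ (y.1.length : ℝ)) ∧ (∃ h, h ≤ N ∧ y.2 ∈ Brd h) then
          wE y.1 * wE y.2 else 0)) = if l ∈ Finset.range (L + 1) then
          gf {Z | Z ∈ Brd l ∧ x ≤ (Z.length : ℝ)} * gf {Z | ∃ h, h ≤ N ∧ Z ∈ Brd h} else 0 := by
      intro l
      by_cases hl : l ∈ Finset.range (L + 1)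
      · rw [if_pos hl, ENNReal.tsum_prod', gf_ind, ← ENNReal.tsum_mul_right]
        refine tsum_congr fun B => ?_
        by_cases hB : B ∈ {Z | Z ∈ Brd l ∧ x ≤ (Z.length : ℝ)}
        · rw [if_pos hB, gf_ind, ← ENNReal.tsum_mul_left]
          refine tsum_congr fun V => ?_
          by_cases hV : ∃ h, h ≤ N ∧ V ∈ Brd h
          · rw [if_pos ⟨⟨hl, hB⟩, hV⟩, if_pos (show V ∈ {Z | ∃ h, h ≤ N ∧ Z ∈ Brd h} from hV)]
          · rw [if_neg (show V ∉ {Z | ∃ h, h ≤ N ∧ Z ∈ Brd h} from hV), mul_zero, if_neg]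
            exact fun h => hV h.2
        · rw [if_neg hB, zero_mul, ENNReal.tsum_eq_zero]
          intro V
          exact if_neg fun h => hB h.1.2
      · rw [if_neg hl, ENNReal.tsum_eq_zero]
        intro y
        exact if_neg fun h => hl h.1.1
    rw [tsum_congr e1, tsum_eq_sum (s := Finset.range (L + 1))]
    · exact Finset.sum_congr rfl fun l hl => (if_pos hl).symm
    · intro l hl
      exact if_neg hl
  refine le_trans ?_ (mul_le_mul' le_rfl (gf_BU_le N))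
  rw [hR]
  have h1 : gf {g | g ∈ BrR D N ∧ g ∈ SufL L x} = Rec8.sw {g | g ∈ BrR D N ∧ g ∈ SufL L x} (fun _ => 1) := by
    rw [NX_const, mul_one]
  rw [h1]
  refine Rec8.sw_cover _ _ _ (fun y => y.2.2 ++ y.2.1) ?_
  rintro g ⟨⟨H, hH1, hH2, hH⟩, V, B, ⟨v, hV⟩, ⟨b, hB⟩, he, hBL, hx⟩
  rw [hgt_eq hB] at hBL
  refine ⟨(b, (B, V)), he.symm, ?_⟩
  have hvN : v ≤ N := by
    have := Brd_height hH (he ▸ Brd_append hV hB)
    omega
  rw [if_pos ⟨⟨Finset.mem_range.2 (by omega), hB, hx⟩, v, hvN, hV⟩, he, wE_append, mul_one, mul_comm]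

lemma BrR_HB {D N : ℕ} {g : List Bool} (h : g ∈ BrR D N) : g ∈ HB D := by
  obtain ⟨a, h1, -, h3⟩ := h
  exact ⟨a, h1, h3⟩

/-- the whole class by the crude norm -/
lemma caseB {m : ℕ → ℝ} (hm : MLow m) {Cm : ℝ} (hCm : 1 ≤ Cm) (hmu : ∀ k, m (k + 1) ≤ Cm * m k) {Q : ℕ} {A0 : ℝ}
    (hA0 : 0 < A0) (hB : ∀ (k : ℕ) (lam : ℝ), 1 ≤ lam → NTm.TL (2 ^ k) (lam * m k) ≤ ENNReal.ofReal (A0 / lam ^ Q * Ub k))
    {Cc : ℝ} (hCc : 1 ≤ Cc) (hcr : ∀ (k : ℕ) (S : Set (List Bool)) (a : ℝ), 0 ≤ a → S ⊆ HB (2 ^ (k + 4)) →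
      gf S ≤ ENNReal.ofReal a → SmD DmJ k S (Cc * 16 ^ k * a)) {k c0 q b a1 : ℕ} {y : ℝ} (hb1 : (2 : ℝ) ^ b ≤ y) (hy : Cm ^ 8 ≤ y)
    (hk : k < 2 * a1 ∨ k < 2 * (c0 * (q * (b + 1)) + 3)) (hQ : 10 * (c0 * q) + q ≤ Q) :
    SmD DmJ k {g | g ∈ BrR (2 ^ (k + 4)) (2 ^ (k + 8)) ∧ y * m k ≤ (g.length : ℝ)}
      ((Cc * A0 * (Cm ^ 8) ^ Q * 512 * 2 ^ (10 * a1 + 30) * 2 ^ (10 * (c0 * q))) / y ^ q) := by
  obtain ⟨C8, hC8⟩ : ∃ C8 : ℝ, C8 = Cm ^ 8 := ⟨_, rfl⟩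
  have hC81 : 1 ≤ C8 := by rw [hC8]; exact one_le_pow₀ hCm
  rw [← hC8] at hy ⊢
  have hy1 : 1 ≤ y := hC81.trans hy
  have hU := Ub_pos k
  have hp := hm.pos k
  have hp8 := hm.pos (k + 8)
  -- doubling
  have h8 : ∀ j : ℕ, m (k + j) ≤ Cm ^ j * m k := by
    intro j
    induction j with
    | zero => simp
    | succ j ih =>
      calc m (k + j + 1) ≤ Cm * m (k + j) := hmu _
        _ ≤ Cm * (Cm ^ j * m k) := mul_le_mul_of_nonneg_left ih (by linarith)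
        _ = Cm ^ (j + 1) * m k := by ring
  have h1 : y / C8 * m (k + 8) ≤ y * m k := by
    have h2 := h8 8
    rw [← hC8] at h2
    calc y / C8 * m (k + 8) ≤ y / C8 * (C8 * m k) := mul_le_mul_of_nonneg_left h2 (by positivity)
      _ = y * m k := by field_simp
  have h2 : 1 ≤ y / C8 := (one_le_div (by linarith)).2 hy
  have h3 : gf {g | g ∈ BrR (2 ^ (k + 4)) (2 ^ (k + 8)) ∧ y * m k ≤ (g.length : ℝ)} ≤
      ENNReal.ofReal (A0 / (y / C8) ^ Q * Ub (k + 8)) :=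
    (gf_long _ _ _).trans ((TL_anti h1).trans (hB _ _ h2))
  have h4 := hcr k _ _ (mul_nonneg (by positivity) (Ub_pos _).le) (fun g hg => BrR_HB hg.1) h3
  refine SmD_le ?_ h4
  have h6 : Ub (k + 8) ≤ 512 * 2 ^ k := by
    have a1 := UU8 k
    have a2 := Ub_le k
    unfold Ub at a1 a2 ⊢
    rw [pow_succ] at a2
    linarith
  have h7 : (2 : ℝ) ^ (5 * k) ≤ 2 ^ (10 * a1 + 30) * (2 * y) ^ (10 * (c0 * q)) := by
    have e1 : (1 : ℝ) ≤ (2 * y) ^ (10 * (c0 * q)) := one_le_pow₀ (by linarith)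
    have e2 : (1 : ℝ) ≤ 2 ^ (10 * a1) := one_le_pow₀ (by norm_num)
    rcases hk with hk | hk
    · calc (2 : ℝ) ^ (5 * k) ≤ 2 ^ (10 * a1 + 30) := pow_le_pow_right₀ (by norm_num) (by omega)
        _ = 2 ^ (10 * a1 + 30) * 1 := (mul_one _).symm
        _ ≤ _ := mul_le_mul_of_nonneg_left e1 (by positivity)
    · have e3 : (2 : ℝ) ^ (5 * k) ≤ 2 ^ (30 + (b + 1) * (10 * (c0 * q))) := by
        apply pow_le_pow_right₀ (by norm_num)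
        have e4 : (b + 1) * (10 * (c0 * q)) = 10 * (c0 * (q * (b + 1))) := by ring
        omega
      have e4 : ((2 : ℝ) ^ (b + 1)) ^ (10 * (c0 * q)) ≤ (2 * y) ^ (10 * (c0 * q)) := by
        apply pow_le_pow_left₀ (by positivity)
        rw [pow_succ]
        linarith
      calc (2 : ℝ) ^ (5 * k) ≤ 2 ^ (30 + (b + 1) * (10 * (c0 * q))) := e3
        _ = 2 ^ 30 * ((2 : ℝ) ^ (b + 1)) ^ (10 * (c0 * q)) := by rw [pow_add, pow_mul]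
        _ ≤ 2 ^ 30 * (2 * y) ^ (10 * (c0 * q)) := mul_le_mul_of_nonneg_left e4 (by positivity)
        _ = 1 * 2 ^ 30 * (2 * y) ^ (10 * (c0 * q)) := by ring
        _ ≤ 2 ^ (10 * a1) * 2 ^ 30 * (2 * y) ^ (10 * (c0 * q)) := by gcongr
        _ = _ := by rw [pow_add]
  have h9 : y ^ (10 * (c0 * q)) / y ^ Q ≤ 1 / y ^ q := r1 hy1 hQ
  have h10 : (16 : ℝ) ^ k * 2 ^ k = 2 ^ (5 * k) := by
    rw [← mul_pow, pow_mul]
    norm_num
  calc Cc * 16 ^ k * (A0 / (y / C8) ^ Q * Ub (k + 8))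
      ≤ Cc * 16 ^ k * (A0 / (y / C8) ^ Q * (512 * 2 ^ k)) := by
        refine mul_le_mul_of_nonneg_left ?_ (by positivity)
        exact mul_le_mul_of_nonneg_left h6 (by positivity)
    _ = Cc * A0 * C8 ^ Q * 512 * (2 ^ (5 * k)) / y ^ Q := by
        rw [← h10, div_pow]
        field_simp
    _ ≤ Cc * A0 * C8 ^ Q * 512 * (2 ^ (10 * a1 + 30) * (2 * y) ^ (10 * (c0 * q))) / y ^ Q := by
        gcongr
    _ = Cc * A0 * C8 ^ Q * 512 * 2 ^ (10 * a1 + 30) * 2 ^ (10 * (c0 * q)) * (y ^ (10 * (c0 * q)) / y ^ Q) := by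
        rw [mul_pow]
        ring
    _ ≤ Cc * A0 * C8 ^ Q * 512 * 2 ^ (10 * a1 + 30) * 2 ^ (10 * (c0 * q)) * (1 / y ^ q) :=
        mul_le_mul_of_nonneg_left h9 (by positivity)
    _ = _ := by ring

/-- the deep heads and tails by the crude norm -/
lemma deep {m : ℕ → ℝ} (hm : MLow m) {Q : ℕ} {A0 : ℝ} (hA0 : 0 < A0)
    (hB : ∀ (k : ℕ) (lam : ℝ), 1 ≤ lam → NTm.TL (2 ^ k) (lam * m k) ≤ ENNReal.ofReal (A0 / lam ^ Q * Ub k))
    {Cc : ℝ} (hCc : 1 ≤ Cc) (hcr : ∀ (k : ℕ) (S : Set (List Bool)) (a : ℝ), 0 ≤ a → S ⊆ HB (2 ^ (k + 4)) →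
      gf S ≤ ENNReal.ofReal a → SmD DmJ k S (Cc * 16 ^ k * a)) {k r n q a1 : ℕ} {y z : ℝ} (hQ : Q = 16 * r) (hn : n + 1 ≤ k)
    (hy : 6 ≤ y) (hz : y / 6 * (1 / 2) ^ n * m k ≤ z) (hk : k ≤ 2 * (a1 * (n + 2))) (hr : 3 * a1 ≤ r) (hq : q ≤ r)
    {W : Set (List Bool)} (hW : W ⊆ BrR (2 ^ (k + 4)) (2 ^ (k + 8)))
    (hgf : gf W ≤ NTm.TL (2 ^ (k - 1 - n)) z * ENNReal.ofReal (UU (2 ^ (k + 8)))) :
    SmD DmJ k W ((Cc * A0 * 6 ^ (16 * r) * 1024 * 2 ^ (24 * a1)) / y ^ q) := by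
  have hU := Ub_pos k
  have hy0 : 0 < y := by linarith
  obtain ⟨ρ, hρ⟩ : ∃ ρ : ℝ, ρ = A0 * ((6 / y) ^ (4 * r) * (1 / 2) ^ (r * n)) ^ 4 := ⟨_, rfl⟩
  have hρ0 : 0 < ρ := by rw [hρ]; positivity
  have h1 := tl_lev hm hA0 hB hQ hn hy hz
  rw [← hρ] at h1
  have h2 : gf W ≤ ENNReal.ofReal (ρ * (2 * 2 ^ k) * (512 * 2 ^ k)) := by
    refine hgf.trans ?_
    rw [ENNReal.ofReal_mul (by positivity)]
    refine mul_le_mul' (h1.trans (ENNReal.ofReal_le_ofReal ?_)) (ENNReal.ofReal_le_ofReal ?_)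
    · refine mul_le_mul_of_nonneg_left ?_ hρ0.le
      refine (Ub_le _).trans ?_
      rw [← pow_succ']
      exact pow_le_pow_right₀ (by norm_num) (by omega)
    · have a1 := UU8 k
      have a2 := Ub_le k
      rw [pow_succ] at a2
      linarith
  have h3 := hcr k W _ (by positivity) (fun g hg => BrR_HB (hW hg)) h2
  refine SmD_le ?_ h3
  have h5 : (16 : ℝ) ^ k * 2 ^ k * 2 ^ k = 2 ^ (6 * k) := by
    rw [← mul_pow, ← mul_pow, pow_mul]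
    norm_num
  have h6 : (2 : ℝ) ^ (6 * k) * (1 / 2) ^ (4 * (r * n)) ≤ 2 ^ (24 * a1) := by
    have e1 : (2 : ℝ) ^ (6 * k) ≤ 2 ^ (24 * a1 + 4 * (r * n)) := by
      apply pow_le_pow_right₀ (by norm_num)
      have e2 : 3 * a1 * n ≤ r * n := Nat.mul_le_mul_right n hr
      nlinarith
    calc (2 : ℝ) ^ (6 * k) * (1 / 2) ^ (4 * (r * n)) ≤ 2 ^ (24 * a1 + 4 * (r * n)) * (1 / 2) ^ (4 * (r * n)) :=
          mul_le_mul_of_nonneg_right e1 (by positivity)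
      _ = 2 ^ (24 * a1) * (2 ^ (4 * (r * n)) * (1 / 2) ^ (4 * (r * n))) := by rw [pow_add]; ring
      _ = 2 ^ (24 * a1) := by
          rw [← mul_pow]
          norm_num
  have h7 : 1 / y ^ (16 * r) ≤ 1 / y ^ q := by
    apply one_div_le_one_div_of_le (by positivity)
    exact pow_le_pow_right₀ (by linarith) (by omega)
  calc Cc * 16 ^ k * (ρ * (2 * 2 ^ k) * (512 * 2 ^ k))
      = Cc * 1024 * ρ * (16 ^ k * 2 ^ k * 2 ^ k) := by ring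
    _ = Cc * 1024 * A0 * 6 ^ (16 * r) * (1 / y ^ (16 * r)) * (2 ^ (6 * k) * (1 / 2) ^ (4 * (r * n))) := by
        rw [h5, hρ, mul_pow, ← pow_mul, ← pow_mul, show 4 * r * 4 = 16 * r by ring,
          show r * n * 4 = 4 * (r * n) by ring, div_pow 6 y]
        ring
    _ ≤ Cc * 1024 * A0 * 6 ^ (16 * r) * (1 / y ^ q) * 2 ^ (24 * a1) := by gcongr
    _ = _ := by ring

/-- one head (or tail) class, the numbers -/
lemma ring_num {c0 q r a1 i : ℕ} {y K2 Ch A0 M1 δ qi : ℝ} (hy : 6 ≤ y) (hK2 : 1 ≤ K2) (hCh : 1 ≤ Ch) (hA0 : 0 < A0)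
    (hM1 : M1 = max 1 A0) (ha1 : a1 = 3 * c0 + 1) (hr : r = 3 * a1 + c0 * q + q + 1)
    (hqi : qi = A0 * ((6 / y) ^ (4 * r) * (1 / 2) ^ (r * i)) ^ 4)
    (hδ : δ = K2 * ((1 / 2) ^ (i + 1) / y ^ q + (4 ^ (3 * c0 + 1)) ^ (i + 1) * (2 * y) ^ (2 * (c0 * q)) *
      (Ch * qi ^ (1 / 4 : ℝ) * 256))) :
    δ ≤ (K2 * (1 + 4 ^ a1 * Ch * 256 * M1 * 2 ^ (2 * (c0 * q)) * 6 ^ (4 * r))) * (1 / 2) ^ i / y ^ q := by
  have hy0 : 0 < y := by linarith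
  have hM : 1 ≤ M1 := by rw [hM1]; exact le_max_left _ _
  have h1 : qi ^ (1 / 4 : ℝ) ≤ M1 * ((6 / y) ^ (4 * r) * (1 / 2) ^ (r * i)) := by
    rw [hqi, Real.mul_rpow hA0.le (by positivity)]
    have e1 : (((6 / y) ^ (4 * r) * (1 / 2) ^ (r * i)) ^ 4 : ℝ) ^ (1 / 4 : ℝ) = (6 / y) ^ (4 * r) * (1 / 2) ^ (r * i) := by
      rw [← Real.rpow_natCast (((6 / y) ^ (4 * r) * (1 / 2) ^ (r * i))) 4, ← Real.rpow_mul (by positivity)]
      norm_num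
    rw [e1]
    refine mul_le_mul_of_nonneg_right ?_ (by positivity)
    rcases le_total A0 1 with h | h
    · exact (Real.rpow_le_one hA0.le h (by norm_num)).trans hM
    · calc A0 ^ (1 / 4 : ℝ) ≤ A0 ^ (1 : ℝ) := Real.rpow_le_rpow_of_exponent_le h (by norm_num)
        _ = A0 := Real.rpow_one _
        _ ≤ M1 := by rw [hM1]; exact le_max_right _ _
  have h2 : ((4 : ℝ) ^ a1) ^ i * (1 / 2) ^ (r * i) ≤ (1 / 2) ^ i := by
    rw [pow_mul, ← mul_pow]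
    apply pow_le_pow_left₀ (by positivity)
    have e1 : (4 : ℝ) ^ a1 = 2 ^ (2 * a1) := by
      rw [pow_mul]
      norm_num
    obtain ⟨s, hs⟩ : ∃ s, r = 2 * a1 + s + 1 := ⟨r - 2 * a1 - 1, by omega⟩
    have e3 : (2 : ℝ) ^ (2 * a1) * (1 / 2) ^ (2 * a1) = 1 := by
      rw [← mul_pow]
      norm_num
    have e4 : ((1 : ℝ) / 2) ^ s ≤ 1 := pow_le_one₀ (by norm_num) (by norm_num)
    calc (4 : ℝ) ^ a1 * (1 / 2) ^ r = (2 ^ (2 * a1) * (1 / 2) ^ (2 * a1)) * ((1 / 2) ^ s * (1 / 2)) := by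
          rw [e1, hs, pow_succ, pow_add]
          ring
      _ = (1 / 2) ^ s * (1 / 2) := by rw [e3, one_mul]
      _ ≤ 1 * (1 / 2) := mul_le_mul_of_nonneg_right e4 (by norm_num)
      _ = 1 / 2 := one_mul _
  have h3 : y ^ (2 * (c0 * q)) / y ^ (4 * r) ≤ 1 / y ^ q := by
    refine r1 (by linarith) ?_
    have : c0 * q ≤ r := by omega
    omega
  have h4 : ((1 : ℝ) / 2) ^ (i + 1) ≤ (1 / 2) ^ i := pow_le_pow_of_le_one (by norm_num) (by norm_num) (by omega)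
  have h5 : (4 ^ (3 * c0 + 1)) ^ (i + 1) * (2 * y) ^ (2 * (c0 * q)) * (Ch * qi ^ (1 / 4 : ℝ) * 256) ≤
      4 ^ a1 * Ch * 256 * M1 * 2 ^ (2 * (c0 * q)) * 6 ^ (4 * r) * ((1 / 2) ^ i / y ^ q) := by
    rw [← ha1]
    calc (4 ^ a1) ^ (i + 1) * (2 * y) ^ (2 * (c0 * q)) * (Ch * qi ^ (1 / 4 : ℝ) * 256)
        ≤ (4 ^ a1) ^ (i + 1) * (2 * y) ^ (2 * (c0 * q)) *
          (Ch * (M1 * ((6 / y) ^ (4 * r) * (1 / 2) ^ (r * i))) * 256) := by gcongr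
      _ = 4 ^ a1 * Ch * 256 * M1 * 2 ^ (2 * (c0 * q)) * 6 ^ (4 * r) *
          ((((4 : ℝ) ^ a1) ^ i * (1 / 2) ^ (r * i)) * (y ^ (2 * (c0 * q)) / y ^ (4 * r))) := by
          rw [mul_pow 2 y, div_pow 6 y, pow_succ]
          ring
      _ ≤ 4 ^ a1 * Ch * 256 * M1 * 2 ^ (2 * (c0 * q)) * 6 ^ (4 * r) * ((1 / 2) ^ i * (1 / y ^ q)) := by
          gcongr
      _ = _ := by ring
  rw [hδ]
  calc K2 * ((1 / 2) ^ (i + 1) / y ^ q + (4 ^ (3 * c0 + 1)) ^ (i + 1) * (2 * y) ^ (2 * (c0 * q)) *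
      (Ch * qi ^ (1 / 4 : ℝ) * 256))
      ≤ K2 * ((1 / 2) ^ i / y ^ q +
        4 ^ a1 * Ch * 256 * M1 * 2 ^ (2 * (c0 * q)) * 6 ^ (4 * r) * ((1 / 2) ^ i / y ^ q)) := by
        gcongr
    _ = _ := by ring

lemma geo_sum (D : ℝ) (hD : 0 ≤ D) (Y : ℝ) (hY : 0 < Y) (n : ℕ) :
    ∑ i ∈ range n, D * (1 / 2) ^ i / Y ≤ 2 * D / Y := by
  have h1 : ∑ i ∈ range n, ((1 : ℝ) / 2) ^ i ≤ 2 := by
    have := Summable.sum_le_tsum (range n) (fun i _ => by positivity) (summable_geometric_two)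
    rw [tsum_geometric_two] at this
    exact this
  calc ∑ i ∈ range n, D * (1 / 2) ^ i / Y = D / Y * ∑ i ∈ range n, ((1 : ℝ) / 2) ^ i := by
        rw [Finset.mul_sum]
        exact Finset.sum_congr rfl fun i _ => by ring
    _ ≤ D / Y * 2 := mul_le_mul_of_nonneg_left h1 (by positivity)
    _ = _ := by ring

end LQ

open LQ in
/-- **the long leaves have a small norm** -/
theorem longQ {m : ℕ → ℝ} (hm : MLow m) (hu : MUp m) (hB : TB m) : LongQ m := by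
  intro q
  obtain ⟨K2, c0, hK2, hc0, hwin⟩ := win_i
  obtain ⟨Ch, hCh, hh⟩ := ez_hd
  obtain ⟨Ct, hCt, ht⟩ := ez_tl
  obtain ⟨Ka, hKa, hall⟩ := SmD_all
  obtain ⟨Cc, hCc, hcr⟩ := crude
  obtain ⟨Cm, hCm, hmu⟩ := hu
  obtain ⟨a1, ha1⟩ : ∃ a1 : ℕ, a1 = 3 * c0 + 1 := ⟨_, rfl⟩
  obtain ⟨r, hr⟩ : ∃ r : ℕ, r = 3 * a1 + c0 * q + q + 1 := ⟨_, rfl⟩
  obtain ⟨Q, hQ⟩ : ∃ Q : ℕ, Q = 16 * r := ⟨_, rfl⟩
  obtain ⟨A0, hA0, hB0⟩ := hB Q
  obtain ⟨M1, hM1⟩ : ∃ M1 : ℝ, M1 = max 1 A0 := ⟨_, rfl⟩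
  have hM11 : 1 ≤ M1 := by rw [hM1]; exact le_max_left _ _
  have hM1A : A0 ≤ M1 := by rw [hM1]; exact le_max_right _ _
  obtain ⟨C8, hC8⟩ : ∃ C8 : ℝ, C8 = Cm ^ 8 := ⟨_, rfl⟩
  have hC81 : 1 ≤ C8 := by rw [hC8]; exact one_le_pow₀ hCm
  obtain ⟨y0, hy0⟩ : ∃ y0 : ℝ, y0 = 6 * M1 + 3 * C8 := ⟨_, rfl⟩
  -- the constants
  obtain ⟨D1, hD1⟩ : ∃ D1 : ℝ, D1 = K2 * (1 + 2 ^ (2 * (c0 * q)) * A0 * (3 * C8) ^ Q * 256) := ⟨_, rfl⟩
  obtain ⟨D2, hD2⟩ : ∃ D2 : ℝ, D2 = K2 * (1 + 4 ^ a1 * Ch * 256 * M1 * 2 ^ (2 * (c0 * q)) * 6 ^ (4 * r)) := ⟨_, rfl⟩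
  obtain ⟨D2', hD2'⟩ : ∃ D2' : ℝ, D2' = K2 * (1 + 4 ^ a1 * Ct * 256 * M1 * 2 ^ (2 * (c0 * q)) * 6 ^ (4 * r)) := ⟨_, rfl⟩
  obtain ⟨D3, hD3⟩ : ∃ D3 : ℝ, D3 = Cc * A0 * 6 ^ (16 * r) * 1024 * 2 ^ (24 * a1) := ⟨_, rfl⟩
  obtain ⟨D4, hD4⟩ : ∃ D4 : ℝ, D4 = Cc * A0 * (Cm ^ 8) ^ Q * 512 * 2 ^ (10 * a1 + 30) * 2 ^ (10 * (c0 * q)) := ⟨_, rfl⟩
  obtain ⟨D5, hD5⟩ : ∃ D5 : ℝ, D5 = Ka * y0 ^ q := ⟨_, rfl⟩
  have p1 : 0 ≤ D1 := by rw [hD1]; positivity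
  have p2 : 0 ≤ D2 := by rw [hD2]; positivity
  have p2' : 0 ≤ D2' := by rw [hD2']; positivity
  have p3 : 0 ≤ D3 := by rw [hD3]; positivity
  have p4 : 0 ≤ D4 := by rw [hD4]; positivity
  have hy01 : 1 ≤ y0 := by rw [hy0]; linarith
  have p5 : 0 < D5 := by rw [hD5]; positivity
  refine ⟨D1 + (2 * D2 + D3) + (2 * D2' + D3) + D4 + D5, by positivity, fun k y hy1 => ?_⟩
  have hyp : 0 < y := by linarith
  have hyq : (0 : ℝ) < y ^ q := by positivity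
  rcases lt_or_ge y y0 with hy | hy
  · -- small y
    refine SmD_le ?_ (QF.SmD_mono (fun g hg => hg.1) (hall k))
    rw [le_div_iff₀ hyq]
    have h1 : y ^ q ≤ y0 ^ q := pow_le_pow_left₀ hyp.le hy.le q
    have h2 : Ka * y ^ q ≤ D5 := by
      rw [hD5]
      exact mul_le_mul_of_nonneg_left h1 (by linarith)
    linarith
  have hy6 : 6 ≤ y := by
    rw [hy0] at hy
    linarith
  have hyC : 3 * C8 ≤ y := by
    rw [hy0] at hy
    linarith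
  have hyM : 6 * M1 ≤ y := by
    rw [hy0] at hy
    linarith
  obtain ⟨b, hb1, hb2⟩ := exists_nat_pow_near hy1 (show (1 : ℝ) < 2 by norm_num)
  by_cases hk : k < 2 * a1 ∨ k < 2 * (c0 * (q * (b + 1)) + 3)
  · -- the whole class by the crude norm
    refine SmD_le ?_ (caseB (a1 := a1) hm hCm hmu hA0 hB0 hCc hcr hb1 (by rw [← hC8]; linarith) hk (by omega))
    rw [← hD4]
    gcongr
    linarith
  push Not at hk
  obtain ⟨hk1, hk2⟩ := hk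
  obtain ⟨n, hn⟩ : ∃ n : ℕ, n = (k - 3 - c0 * (q * (b + 1))) / a1 - 1 := ⟨_, rfl⟩
  obtain ⟨X, hX⟩ : ∃ X : ℕ, X = c0 * (q * (b + 1)) := ⟨_, rfl⟩
  rw [← hX] at hk2 hn
  have ha1p : 0 < a1 := by omega
  have hn1 : 1 ≤ (k - 3 - X) / a1 := by
    rw [Nat.one_le_div_iff ha1p]
    omega
  have hn2 : (n + 1) * a1 ≤ k - 3 - X := by
    have : n + 1 = (k - 3 - X) / a1 := by omega
    rw [this]
    exact Nat.div_mul_le_self _ _
  have hn3 : k - 3 - X < (n + 2) * a1 := by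
    have e1 : n + 2 = (k - 3 - X) / a1 + 1 := by omega
    rw [e1, add_mul, one_mul]
    have := Nat.lt_div_mul_add (a := k - 3 - X) ha1p
    linarith
  -- room for the windows
  have hroom : ∀ i, i ≤ n → (i + 1) + (c0 * (3 * (i + 1) + q * (b + 1)) + 3) ≤ k := by
    intro i hi
    have e1 : (i + 1) + (c0 * (3 * (i + 1) + q * (b + 1)) + 3) = (i + 1) * a1 + X + 3 := by
      rw [ha1, hX]
      ring
    rw [e1]
    have e2 : (i + 1) * a1 ≤ (n + 1) * a1 := Nat.mul_le_mul_right _ (by omega)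
    omega
  have hnk : n + 1 ≤ k := by
    have := hroom n le_rfl
    omega
  have hkn : k ≤ 2 * (a1 * (n + 2)) := by
    have e1 : a1 * (n + 2) = (n + 2) * a1 := mul_comm _ _
    omega
  have hmk := hm.pos k
  have hU := Ub_pos k
  obtain ⟨xs, hxs⟩ : ∃ xs : ℕ → ℝ, ∀ i, xs i = y * m k / 3 * (1 / 2) ^ i := ⟨_, fun _ => rfl⟩
  have hN4 : 2 ^ (k + 4) ≤ 2 ^ (k + 8) := Nat.pow_le_pow_right (by norm_num) (by omega)
  -- the numbers q_i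
  obtain ⟨qi, hqi⟩ : ∃ qi : ℕ → ℝ, ∀ i, qi i = A0 * ((6 / y) ^ (4 * r) * (1 / 2) ^ (r * i)) ^ 4 := ⟨_, fun _ => rfl⟩
  have hqi0 : ∀ i, 0 < qi i := fun i => by rw [hqi]; positivity
  have hqi1 : ∀ i, qi i ≤ 1 := by
    intro i
    rw [hqi]
    have e1 : (6 / y) ^ (4 * r) ≤ 6 / y := by
      calc (6 / y) ^ (4 * r) ≤ (6 / y) ^ 1 :=
            pow_le_pow_of_le_one (by positivity) ((div_le_one hyp).2 hy6) (by omega)
        _ = 6 / y := pow_one _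
    have e2 : ((1 : ℝ) / 2) ^ (r * i) ≤ 1 := pow_le_one₀ (by norm_num) (by norm_num)
    have e3 : (6 / y) ^ (4 * r) * (1 / 2) ^ (r * i) ≤ 6 / y := by
      calc _ ≤ (6 / y) * 1 := mul_le_mul e1 e2 (by positivity) (by positivity)
        _ = _ := mul_one _
    have e4 : 6 / y ≤ 1 / M1 := by
      rw [div_le_div_iff₀ hyp (by linarith)]
      linarith
    have e5 : ((6 / y) ^ (4 * r) * (1 / 2) ^ (r * i)) ^ 4 ≤ 1 / M1 := by
      calc ((6 / y) ^ (4 * r) * (1 / 2) ^ (r * i)) ^ 4 ≤ (1 / M1) ^ 4 :=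
            pow_le_pow_left₀ (by positivity) (e3.trans e4) 4
        _ ≤ (1 / M1) ^ 1 := pow_le_pow_of_le_one (by positivity) ((div_le_one (by linarith)).2 hM11) (by norm_num)
        _ = 1 / M1 := pow_one _
    calc A0 * ((6 / y) ^ (4 * r) * (1 / 2) ^ (r * i)) ^ 4 ≤ M1 * (1 / M1) :=
          mul_le_mul hM1A e5 (by positivity) (by linarith)
      _ = 1 := by field_simp
  have htl : ∀ i, i ≤ n → ∀ z, y / 6 * (1 / 2) ^ i * m k ≤ z →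
      NTm.TL (2 ^ (k - 1 - i)) z ≤ ENNReal.ofReal (qi i * UU (2 ^ (k - 1 - i))) := by
    intro i hi z hz
    have := tl_lev hm hA0 hB0 hQ (by omega) hy6 hz
    rw [hqi]
    exact this
  have hdiff : ∀ i, xs i - xs (i + 1) = y / 6 * (1 / 2) ^ i * m k := by
    intro i
    rw [hxs, hxs, pow_succ]
    ring
  have hxmono : ∀ i, xs (i + 1) ≤ xs i := by
    intro i
    have : 0 ≤ xs i - xs (i + 1) := by rw [hdiff]; positivity
    linarith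
  -- the ring classes
  have hring : ∀ (Cx : ℝ) (W : ℕ → Set (List Bool)), 1 ≤ Cx → (∀ i < n,
      EZ (2 ^ (k + 4)) (2 ^ (k + 8)) (k - 1 - (i + 1)) (W i) (Cx * (qi i) ^ (1 / 4 : ℝ) * UU (2 ^ (k + 8)))) →
      ∀ i < n, SmD DmJ k (BrR (2 ^ (k + 4)) (2 ^ (k + 8)) ∩ W i)
        ((K2 * (1 + 4 ^ a1 * Cx * 256 * M1 * 2 ^ (2 * (c0 * q)) * 6 ^ (4 * r))) * (1 / 2) ^ i / y ^ q) := by
    intro Cx W hCx hEZ i hi
    have e1 : EZ (2 ^ (k + 4)) (2 ^ (k + 8)) (k - 1 - (i + 1)) (BrR (2 ^ (k + 4)) (2 ^ (k + 8)) ∩ W i)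
        ((Cx * (qi i) ^ (1 / 4 : ℝ) * 256) * Ub k) := by
      refine EZ_mono Set.inter_subset_right (EZ_le ?_ (hEZ i hi))
      have e2 : 0 ≤ Cx * (qi i) ^ (1 / 4 : ℝ) := mul_nonneg (by linarith) (Real.rpow_nonneg (hqi0 i).le _)
      calc Cx * (qi i) ^ (1 / 4 : ℝ) * UU (2 ^ (k + 8)) ≤ Cx * (qi i) ^ (1 / 4 : ℝ) * (256 * Ub k) :=
            mul_le_mul_of_nonneg_left (UU8 k) e2
        _ = _ := by ring
    have e3 := hwin k q b (i + 1) y _ _ hb1 hb2 (hroom (i + 1) (by omega))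
      (mul_nonneg (mul_nonneg (by linarith) (Real.rpow_nonneg (hqi0 i).le _)) (by norm_num)) Set.inter_subset_left e1
    exact SmD_le (ring_num hy6 hK2 hCx hA0 hM1 ha1 hr (hqi i) rfl) e3
  -- the middle class
  have hmid : SmD DmJ k (BrR (2 ^ (k + 4)) (2 ^ (k + 8)) ∩ Mid (2 ^ (k - 1 - 0)) (y * m k / 3)) (D1 / y ^ q) := by
    have h8 : ∀ j : ℕ, m (k + j) ≤ Cm ^ j * m k := by
      intro j
      induction j with
      | zero => simp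
      | succ j ih =>
        calc m (k + j + 1) ≤ Cm * m (k + j) := hmu _
          _ ≤ Cm * (Cm ^ j * m k) := mul_le_mul_of_nonneg_left ih (by linarith)
          _ = Cm ^ (j + 1) * m k := by ring
    have e1 : y / (3 * C8) * m (k + 8) ≤ y * m k / 3 := by
      have h2 := h8 8
      rw [← hC8] at h2
      calc y / (3 * C8) * m (k + 8) ≤ y / (3 * C8) * (C8 * m k) := mul_le_mul_of_nonneg_left h2 (by positivity)
        _ = y * m k / 3 := by field_simp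
    have e2 : 1 ≤ y / (3 * C8) := (one_le_div (by linarith)).2 hyC
    have e3 : NTm.TL (2 ^ (k + 8)) (y * m k / 3) ≤ ENNReal.ofReal ((A0 / (y / (3 * C8)) ^ Q * 256) * Ub k) := by
      refine (TL_anti e1).trans ((hB0 _ _ e2).trans (ENNReal.ofReal_le_ofReal ?_))
      have e4 : Ub (k + 8) ≤ 256 * Ub k := UU8 k
      calc A0 / (y / (3 * C8)) ^ Q * Ub (k + 8) ≤ A0 / (y / (3 * C8)) ^ Q * (256 * Ub k) :=
            mul_le_mul_of_nonneg_left e4 (by positivity)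
        _ = _ := by ring
    have e5 := hwin k q b 0 y _ _ hb1 hb2 (hroom 0 (by omega)) (by positivity) Set.inter_subset_left
      (EZ_mono Set.inter_subset_right (ez_mid (D := 2 ^ (k + 4)) (e := k - 1 - 0) e3))
    refine SmD_le ?_ e5
    have e6 : y ^ (2 * (c0 * q)) / y ^ Q ≤ 1 / y ^ q := r1 hy1 (by omega)
    calc K2 * ((1 / 2) ^ 0 / y ^ q + (4 ^ (3 * c0 + 1)) ^ 0 * (2 * y) ^ (2 * (c0 * q)) *
          (A0 / (y / (3 * C8)) ^ Q * 256))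
        = K2 * (1 / y ^ q + 2 ^ (2 * (c0 * q)) * A0 * (3 * C8) ^ Q * 256 * (y ^ (2 * (c0 * q)) / y ^ Q)) := by
          rw [pow_zero, pow_zero, mul_pow 2 y, div_pow y]
          field_simp
      _ ≤ K2 * (1 / y ^ q + 2 ^ (2 * (c0 * q)) * A0 * (3 * C8) ^ Q * 256 * (1 / y ^ q)) := by gcongr
      _ = D1 / y ^ q := by rw [hD1]; ring
  -- deep classes
  have hz : y / 6 * (1 / 2) ^ n * m k ≤ xs n := by
    rw [hxs]
    have : 0 ≤ y * m k * (1 / 2) ^ n := by positivity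
    nlinarith
  have hdh : SmD DmJ k {g | g ∈ BrR (2 ^ (k + 4)) (2 ^ (k + 8)) ∧ g ∈ PreL (2 ^ (k - 1 - n)) (xs n)} (D3 / y ^ q) := by
    rw [hD3]
    exact deep hm hA0 hB0 hCc hcr hQ hnk hy6 hz hkn (by omega) (by omega) (fun g hg => hg.1) (gf_Pre_le _ _ _ _)
  have hdt : SmD DmJ k {g | g ∈ BrR (2 ^ (k + 4)) (2 ^ (k + 8)) ∧ g ∈ SufL (2 ^ (k - 1 - n)) (xs n)} (D3 / y ^ q) := by
    rw [hD3]
    exact deep hm hA0 hB0 hCc hcr hQ hnk hy6 hz hkn (by omega) (by omega) (fun g hg => hg.1) (gf_Suf_le _ _ _ _)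
  -- the sum
  have hH := hring Ch (fun i => Hd (2 ^ (k - 1 - i)) (2 ^ (k - 1 - (i + 1))) (xs i) (xs (i + 1))) hCh (fun i hi => by
    refine hh (2 ^ (k + 8)) (k - 1 - i) (k - 1 - (i + 1)) k (xs i) (xs (i + 1)) (qi i) (by omega) (by omega) hN4
      (hxmono i) (hqi0 i) (hqi1 i) ?_
    rw [hdiff]
    exact htl i (by omega) _ le_rfl)
  have hT := hring Ct (fun i => Tl (2 ^ (k - 1 - i)) (2 ^ (k - 1 - (i + 1))) (xs i) (xs (i + 1))) hCt (fun i hi => by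
    refine ht (2 ^ (k + 8)) (k - 1 - i) (k - 1 - (i + 1)) k (xs i) (xs (i + 1)) (qi i) (by omega) (by omega) hN4
      (hxmono i) (hqi0 i) (hqi1 i) ?_
    rw [hdiff]
    exact htl i (by omega) _ le_rfl)
  rw [← hD2] at hH
  rw [← hD2'] at hT
  have hfin := sum_cls (Dm := DmJ) (kc := k) (D := 2 ^ (k + 4)) (N := 2 ^ (k + 8)) (n := n)
    (e := fun i => k - 1 - i) (x := y * m k) (xs := xs) (d := fun i => D2 * (1 / 2) ^ i / y ^ q)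
    (d' := fun i => D2' * (1 / 2) ^ i / y ^ q) (dm := D1 / y ^ q) (dh := D3 / y ^ q) (dt := D3 / y ^ q)
    (by rw [hxs, pow_zero, mul_one]) (by positivity) (by positivity) (by positivity) (fun i _ => by positivity)
    (fun i _ => by positivity) hmid hH hdh hT hdt
  refine SmD_le ?_ hfin
  have g1 := geo_sum D2 p2 (y ^ q) hyq n
  have g2 := geo_sum D2' p2' (y ^ q) hyq n
  have g3 : 0 ≤ (D4 + D5) / y ^ q := by positivity
  calc D1 / y ^ q + ((∑ i ∈ range n, D2 * (1 / 2) ^ i / y ^ q) + D3 / y ^ q) +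
        ((∑ i ∈ range n, D2' * (1 / 2) ^ i / y ^ q) + D3 / y ^ q)
      ≤ D1 / y ^ q + (2 * D2 / y ^ q + D3 / y ^ q) + (2 * D2' / y ^ q + D3 / y ^ q) + (D4 + D5) / y ^ q := by
        linarith
    _ = _ := by ring

end NTA

end HexObs
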