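import Pool.Agent.NTW.LowM
import Pool.Agent.SDN.Defs

/-!
NTA: two half plane words without cuts of given classes and a bridge of a given class between them.
-/

set_option autoImplicit false

namespace HexObs

namespace NTA

open Finset ENNReal BAR TS SDN NTW

/-- the joined words of the classes N0, Z, N1 -/
def JC (N0 Z N1 : Set (List Bool)) : Set (List Bool) :=
  {t | ∃ (D : List Bool) (b : Bool) (X W : List Bool), D ++ [b] ∈ N0 ∧ X ∈ Z ∧ W ∈ N1 ∧ t = LM.jj D b (X ++ W)}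

namespace LC

/-- a bridge and a word without cuts, classes -/
def XW (Z N1 : Set (List Bool)) : Set (List Bool) := {M | ∃ X ∈ Z, ∃ W ∈ N1, M = X ++ W}

lemma gf_XW {n : ℕ} {Z N1 : Set (List Bool)} (hZ : ∀ X ∈ Z, ∃ h, X ∈ Brd h) (h1 : N1 ⊆ NA n) :
    gf Z * gf N1 ≤ gf (XW Z N1) := by
  refine mul_le_gf (fun a ha b hb => ⟨a, ha, b, hb, rfl⟩) ?_
  intro a ha b hb a' ha' b' hb' he
  obtain ⟨i, hi⟩ := hZ a ha
  obtain ⟨j, hj⟩ := hZ a' ha'
  have key : ∀ (i j : ℕ) (a b a' b' : List Bool), a ∈ Brd i → a' ∈ Brd j → b ∈ NA n → b' ∈ NA n → i ≤ j →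
      a ++ b = a' ++ b' → a = a' := by
    intro i j a b a' b' hi hj hb hb' hij he
    obtain ⟨v, hv, h3, h4⟩ := BAR.nested hi hj (pos_SSt hb.1) (pos_SSt hb'.1) hij he
    have h5 : j - i = 0 := by
      by_contra hne
      exact hb.2 (j - i) (by omega) ⟨v, b', hv, pos_SSt hb'.1, h4⟩
    rw [h5] at hv
    rw [h3, brd_zero_nil hv, List.append_nil]
  rcases Nat.le_total i j with hij | hij
  · exact key i j a b a' b' hi hj (h1 hb) (h1 hb') hij he
  · exact (key j i a' b' a b hj hi (h1 hb') (h1 hb) hij he.symm).symm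

lemma XW_SSt {n : ℕ} {Z N1 : Set (List Bool)} (hZ : ∀ X ∈ Z, ∃ h, X ∈ Brd h) (h1 : N1 ⊆ NA n) {M : List Bool}
    (h : M ∈ XW Z N1) : ∃ m, M ∈ SSt m := by
  obtain ⟨X, hX, W, hW, rfl⟩ := h
  obtain ⟨i, hi⟩ := hZ X hX
  exact ⟨_, SSt_cat hi (h1 hW).1⟩

/-- the words of the class whose last edge has the direction δ -/
def NB (N0 : Set (List Bool)) (δ : Pt) : Set (List Bool) :=
  {N | ∃ D b, N = D ++ [b] ∧ N ∈ N0 ∧ dx up D D.length = δ}

/-- the reversed words with the step through the foot -/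
def NP (N0 : Set (List Bool)) (δ : Pt) : Set (List Bool) :=
  {a | ∃ D b, D ++ [b] ∈ N0 ∧ dx up D D.length = δ ∧ a = rev D ++ [b, !b]}

lemma gf_NB (N0 : Set (List Bool)) (δ : Pt) : gf (NB N0 δ) ≤ ENNReal.ofReal (1 / xc) * gf (NP N0 δ) := by
  have hx : 0 < xc := xc_pos
  refine gf_le_of_inj (fun N => rev N.dropLast ++ [N.getLastD false, !(N.getLastD false)]) ?_ ?_ _ ?_
  · rintro N ⟨D, b, rfl, h1, h2⟩
    refine ⟨D, b, h1, h2, ?_⟩
    simp
  · rintro N ⟨D, b, rfl, -⟩ N' ⟨D', b', rfl, -⟩ he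
    simp only [List.dropLast_concat, List.getLastD_concat] at he
    have hl : (rev D).length = (rev D').length := by
      have := congrArg List.length he
      simp only [List.length_append, List.length_cons, List.length_nil] at this
      omega
    obtain ⟨h1, h2⟩ := List.append_inj he hl
    have h3 : rev (rev D) = rev (rev D') := by rw [h1]
    rw [rev_rev, rev_rev] at h3
    rw [List.cons.injEq] at h2
    rw [h3, h2.1]
  · rintro N ⟨D, b, rfl, -⟩
    simp only [List.dropLast_concat, List.getLastD_concat]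
    unfold wE
    rw [← ENNReal.ofReal_mul (by positivity)]
    apply ENNReal.ofReal_le_ofReal
    simp only [List.length_append, List.length_cons, List.length_nil, rev_length]
    rw [show D.length + (0 + 1 + 1) = D.length + (0 + 1) + 1 by ring, pow_succ _ (D.length + (0 + 1)),
      div_mul_eq_mul_div, one_mul, mul_div_assoc, div_self hx.ne', mul_one]

lemma NP_mul {n : ℕ} {N0 MM : Set (List Bool)} {δ : Pt} (h0 : N0 ⊆ NA n) (hM : ∀ M ∈ MM, ∃ m, M ∈ SSt m) :
    gf (NP N0 δ) * gf MM ≤ gf {t | ∃ (D : List Bool) (b : Bool) (M : List Bool), D ++ [b] ∈ N0 ∧ M ∈ MM ∧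
      t = LM.jj D b M} := by
  have e : ∀ (D : List Bool) (b : Bool) (M : List Bool), rev D ++ [b, !b] ++ M = LM.jj D b M := by
    intro D b M
    unfold LM.jj
    rw [List.append_assoc]
    rfl
  refine mul_le_gf ?_ ?_
  · rintro a ⟨D, b, h1, h2, rfl⟩ M hMM
    exact ⟨D, b, M, h1, hMM, e D b M⟩
  · rintro a ⟨D, b, h1, h2, rfl⟩ M hMM a' ⟨D', b', h1', h2', rfl⟩ M' hMM' he
    obtain ⟨m, hm⟩ := hM M hMM
    obtain ⟨m', hm'⟩ := hM M' hMM'
    rw [e, e] at he
    obtain ⟨e1, e2, -⟩ := LM.jj_inj (h0 h1) hm (h0 h1') hm' (h2.trans h2'.symm) he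
    rw [e1, e2]

end LC

open LC

/-- **lower bound with classes** -/
theorem gf_JC {n m : ℕ} {N0 Z N1 : Set (List Bool)} (h0 : N0 ⊆ NA n) (hne : [] ∉ N0) (hZ : ∀ X ∈ Z, ∃ h, X ∈ Brd h)
    (h1 : N1 ⊆ NA m) : gf N0 * (gf Z * gf N1) ≤ ENNReal.ofReal (6 / xc) * gf (JC N0 Z N1) := by
  have hx : 0 < xc := xc_pos
  have h2 : N0 ⊆ ⋃ δ ∈ dirs, NB N0 δ := by
    intro N hN
    have h3 : N ≠ [] := fun h => hne (h ▸ hN)
    rw [Set.mem_iUnion₂]
    exact ⟨dx up N.dropLast N.dropLast.length, dx_mem upd _ _, N.dropLast, N.getLast h3,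
      (List.dropLast_append_getLast h3).symm, hN, rfl⟩
  have h3 : gf N0 ≤ ∑ δ ∈ dirs, ENNReal.ofReal (1 / xc) * gf (NP N0 δ) :=
    (gf_mono h2).trans ((gf_bi_le _ _).trans (sum_le_sum fun δ _ => gf_NB N0 δ))
  have h4 : ∀ δ, gf (NP N0 δ) * (gf Z * gf N1) ≤ gf (JC N0 Z N1) := by
    intro δ
    refine (mul_le_mul_right (gf_XW hZ h1) _).trans ((NP_mul h0 fun M hM => XW_SSt hZ h1 hM).trans (gf_mono ?_))
    rintro t ⟨D, b, M, hD, ⟨X, hX, W, hW, rfl⟩, rfl⟩
    exact ⟨D, b, X, W, hD, hX, hW, rfl⟩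
  calc gf N0 * (gf Z * gf N1) ≤ (∑ δ ∈ dirs, ENNReal.ofReal (1 / xc) * gf (NP N0 δ)) * (gf Z * gf N1) :=
        mul_le_mul_left h3 _
    _ = ∑ δ ∈ dirs, ENNReal.ofReal (1 / xc) * (gf (NP N0 δ) * (gf Z * gf N1)) := by
        rw [sum_mul]
        exact sum_congr rfl fun δ _ => mul_assoc _ _ _
    _ ≤ ∑ _δ ∈ dirs, ENNReal.ofReal (1 / xc) * gf (JC N0 Z N1) := sum_le_sum fun δ _ => mul_le_mul_right (h4 δ) _
    _ = ENNReal.ofReal (6 / xc) * gf (JC N0 Z N1) := by
        rw [sum_const, nsmul_eq_mul, ← mul_assoc]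
        have hc : dirs.card = 6 := by decide
        rw [hc]
        have e : ((6 : ℕ) : ℝ≥0∞) = ENNReal.ofReal 6 := by
          rw [show (6 : ℝ) = ((6 : ℕ) : ℝ) by norm_num, ENNReal.ofReal_natCast]
        rw [e, ← ENNReal.ofReal_mul (by norm_num)]
        congr 2
        ring

/-- the words without cuts: the empty word does not matter -/
theorem gf_NA_le {n : ℕ} (hn : 1 ≤ n) : gf (NA n) ≤ ENNReal.ofReal (1 + 1 / xc) * gf (NA n \ {[]}) := by
  have hx : 0 < xc := xc_pos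
  have h1 : NA n ⊆ {[]} ∪ (NA n \ {[]}) := by
    intro W h1
    by_cases h : W = []
    · exact Or.inl h
    · exact Or.inr ⟨h1, h⟩
  have h2 : gf {([] : List Bool)} ≤ ENNReal.ofReal (1 / xc) * gf (NA n \ {[]}) := by
    refine gf_le_of_inj (fun _ => [false]) ?_ ?_ _ ?_
    · rintro t -
      exact ⟨LM.sing_NA hn false, by simp⟩
    · rintro a ha b hb -
      rw [Set.mem_singleton_iff] at ha hb
      rw [ha, hb]
    · rintro t ht
      rw [Set.mem_singleton_iff] at ht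
      rw [ht]
      unfold wE
      rw [← ENNReal.ofReal_mul (by positivity)]
      apply ENNReal.ofReal_le_ofReal
      rw [List.length_nil, List.length_singleton, pow_zero, pow_one]
      apply le_of_eq
      field_simp
  calc gf (NA n) ≤ gf ({[]} ∪ (NA n \ {[]})) := gf_mono h1
    _ ≤ ENNReal.ofReal (1 / xc) * gf (NA n \ {[]}) + gf (NA n \ {[]}) := (gf_union_le _ _).trans (add_le_add h2 le_rfl)
    _ = ENNReal.ofReal (1 + 1 / xc) * gf (NA n \ {[]}) := by
        rw [add_comm, ENNReal.ofReal_add zero_le_one (by positivity), add_mul, ENNReal.ofReal_one, one_mul]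

/-- the joined words are self-avoiding -/
theorem JC_SA {n m : ℕ} {N0 Z N1 : Set (List Bool)} (h0 : N0 ⊆ NA n) (hZ : ∀ X ∈ Z, ∃ h, X ∈ Brd h)
    (h1 : N1 ⊆ NA m) {t : List Bool} (h : t ∈ JC N0 Z N1) : t ∈ SA := by
  obtain ⟨D, b, X, W, hD, hX, hW, rfl⟩ := h
  obtain ⟨m', hm'⟩ := XW_SSt hZ h1 (M := X ++ W) ⟨X, hX, W, hW, rfl⟩
  exact LM.jj_mem (h0 hD).1 hm'

lemma JC_length (D : List Bool) (b : Bool) (X W : List Bool) :
    (LM.jj D b (X ++ W)).length = (D ++ [b]).length + 1 + X.length + W.length := by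
  rw [LM.jj_len, List.length_append, List.length_append, List.length_singleton]
  ring

/-! ### Boxes -/

namespace LC

/-- all levels are at most c -/
def BB (p : Pt) (c : ℤ) : Prop := ∀ d ∈ dirs, |ip p d| ≤ c

lemma BB_add {p q : Pt} {a b : ℤ} (hp : BB p a) (hq : BB q b) : BB (p + q) (a + b) := by
  intro d hd
  rw [ip_add_left]
  exact (abs_add_le _ _).trans (add_le_add (hp d hd) (hq d hd))

lemma BB_sub {p q : Pt} {a b : ℤ} (hp : BB p a) (hq : BB q b) : BB (p - q) (a + b) := by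
  intro d hd
  rw [ip_sub_left]
  exact (abs_sub _ _).trans (add_le_add (hp d hd) (hq d hd))

lemma BB_mono {p : Pt} {a b : ℤ} (hp : BB p a) (h : a ≤ b) : BB p b := fun d hd => (hp d hd).trans h

lemma BB_lvl {p : Pt} {a : ℤ} (h : ∀ dir, |lvl dir p| ≤ a) : BB p (2 * a) := by
  have h1 := h false
  have h2 := h true
  rw [abs_le] at h1 h2
  simp only [lvl, hd, if_true, Bool.false_eq_true, if_false, ip, up] at h1 h2
  intro d hd
  rw [abs_le]
  have h3 : d = (1, 0) ∨ d = (0, 1) ∨ d = (-1, 1) ∨ d = (-1, 0) ∨ d = (0, -1) ∨ d = (1, -1) := by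
    simpa [dirs] using hd
  rcases h3 with rfl | rfl | rfl | rfl | rfl | rfl <;> simp only [ip] <;> constructor <;> omega

lemma lvl_BB {p : Pt} {a : ℤ} (h : BB p a) (dir : Bool) : |lvl dir p| ≤ a := by
  cases dir
  · exact h up (by decide)
  · exact h (-1, 0) (by decide)

lemma BB_mulE {u p : Pt} {a : ℤ} (hu : nrm u = 1) (h : BB p a) : BB (mulE u p) a := by
  have hu' : u ∈ dirs := mem_dirs.2 hu
  have h1 : ∀ u ∈ dirs, ∀ d ∈ dirs, ∃ d' ∈ dirs, mulE u d' = d := by decide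
  intro d hd
  obtain ⟨d', hd', h2⟩ := h1 u hu' d hd
  rw [← h2, ip_mulE, hu, one_mul]
  exact h d' hd'

lemma BB_of_mulE {u p : Pt} {a : ℤ} (hu : nrm u = 1) (h : BB (mulE u p) a) : BB p a := by
  have hu' : u ∈ dirs := mem_dirs.2 hu
  have h1 : ∀ u ∈ dirs, ∀ d ∈ dirs, mulE u d ∈ dirs := by decide
  intro d hd
  have h2 := h (mulE u d) (h1 u hu' d hd)
  rwa [ip_mulE, hu, one_mul] at h2

lemma lvl_of_row {R : ℤ} {v : Pt} {dir : Bool} (h : |row dir v| ≤ R) : |lvl dir v| ≤ 3 * R + 2 := by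
  unfold row at h
  rw [abs_le] at h ⊢
  constructor <;> omega

lemma row_of_lvl {R : ℤ} {v : Pt} {dir : Bool} (h : |lvl dir v| ≤ 3 * R) : |row dir v| ≤ R := by
  unfold row
  rw [abs_le] at h ⊢
  constructor <;> omega

end LC

/-- the word stays in the box of radius R -/
def BX (R : ℤ) (t : List Bool) : Prop := ∀ i, i ≤ t.length → ∀ dir, |row dir (vx oo up t i)| ≤ R

lemma WL_iff {L : ℕ} {t : List Bool} : t ∈ WL L ↔ t ∈ SA ∧ BX (2 ^ L) t := Iff.rfl

/-- the box of a joined word -/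
theorem JC_BX {R : ℤ} {h : ℕ} {D : List Bool} {b : Bool} {X W : List Bool} (hD : BX R (D ++ [b])) (hX : X ∈ Brd h)
    (hXR : BX R X) (hWR : BX R W) : BX (6 * R + 5) (LM.jj D b (X ++ W)) := by
  obtain ⟨c, hc⟩ : ∃ c : ℤ, c = 2 * (3 * R + 2) := ⟨_, rfl⟩
  have bD : ∀ k, k ≤ D.length + 1 → BB (vx oo up D k) c := by
    intro k hk
    rw [hc]
    refine BB_lvl fun dir => lvl_of_row ?_
    have h1 := hD k (by rw [List.length_append, List.length_singleton]; exact hk) dir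
    rwa [vx_append hk] at h1
  have bX : ∀ k, k ≤ X.length → BB (vx oo up X k) c := fun k hk => by
    rw [hc]
    exact BB_lvl fun dir => lvl_of_row (hXR k hk dir)
  have bW : ∀ k, k ≤ W.length → BB (vx oo up W k) c := fun k hk => by
    rw [hc]
    exact BB_lvl fun dir => lvl_of_row (hWR k hk dir)
  have hR : 0 ≤ R := (abs_nonneg _).trans (hXR 0 (Nat.zero_le _) false)
  have hc0 : 0 ≤ c := by rw [hc]; omega
  have bM : ∀ k, k ≤ X.length + W.length → BB (vx oo up (X ++ W) k) (2 * c) := by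
    intro k hk
    rcases Nat.lt_or_ge X.length k with h1 | h1
    · obtain ⟨j, rfl⟩ : ∃ j, k = X.length + j := ⟨k - X.length, by omega⟩
      rw [vx_cat (mem_Brd.1 hX).2.2.1]
      exact BB_mono (BB_add (bX _ le_rfl) (bW j (by omega))) (by omega)
    · rw [vx_append (by omega)]
      exact BB_mono (bX k h1) (by omega)
  obtain ⟨u, hu, -, hf⟩ := LM.VV_frame D (LM.jj D b (X ++ W))
  have bt : BB (tip oo up D) c := bD _ le_rfl
  have bV : ∀ i, i ≤ (LM.jj D b (X ++ W)).length → BB (LM.VV D (LM.jj D b (X ++ W)) i) (2 * c + 2) := by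
    intro i hi
    rw [LM.jj_len, List.length_append] at hi
    rcases Nat.lt_or_ge (D.length + 1) i with h1 | h1
    · obtain ⟨k, rfl⟩ : ∃ k, i = D.length + 2 + k := ⟨i - (D.length + 2), by omega⟩
      rw [LM.VV_high]
      have h2 : BB (turn b (-up)) 2 := by
        cases b <;> unfold BB <;> decide
      exact BB_mono (BB_sub h2 (bM k (by omega))) (by omega)
    · rw [LM.VV_low h1]
      exact BB_mono (bD _ (by omega)) (by omega)
  intro i hi dir
  refine row_of_lvl ((lvl_BB (BB_of_mulE hu (?_ : BB _ (3 * c + 2))) dir).trans (by rw [hc]; omega))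
  have h3 : mulE u (vx oo up (LM.jj D b (X ++ W)) i) = LM.VV D (LM.jj D b (X ++ W)) i - tip oo up D := by
    rw [hf i, add_sub_cancel_left]
    congr 1
    exact (sub_zero _).symm
  rw [h3]
  exact BB_mono (BB_sub (bV i hi) bt) (by omega)

/-- the joined words of the box -/
theorem JC_WL {n m L : ℕ} {N0 Z N1 : Set (List Bool)} (h0 : N0 ⊆ NA n) (hZ : ∀ X ∈ Z, ∃ h, X ∈ Brd h)
    (h1 : N1 ⊆ NA m) (b0 : ∀ t ∈ N0, BX (2 ^ L) t) (bZ : ∀ t ∈ Z, BX (2 ^ L) t) (b1 : ∀ t ∈ N1, BX (2 ^ L) t) :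
    JC N0 Z N1 ⊆ WL (L + 4) := by
  intro t ht
  refine WL_iff.2 ⟨JC_SA h0 hZ h1 ht, ?_⟩
  obtain ⟨D, b, X, W, hD, hX, hW, rfl⟩ := ht
  obtain ⟨i, hi⟩ := hZ X hX
  have h2 := JC_BX (b0 _ hD) hi (bZ X hX) (b1 W hW)
  intro i hi dir
  refine (h2 i hi dir).trans ?_
  have h3 : (1 : ℤ) ≤ 2 ^ L := one_le_pow₀ (by norm_num)
  rw [pow_add]
  omega

end NTA

end HexObs
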