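import Pool.Agent.NTA.TailDefs
import Pool.Agent.NTA.LowC
import Pool.Agent.NTW.ScalesF

/-!
NTA: from the tail of the lengths to the quantiles and to the estimate ScaleP at every scale.
-/

set_option autoImplicit false

namespace HexObs

namespace NTA

open Finset TS SDN NTW

open scoped ENNReal Classical

variable {m : ℕ → ℝ}

lemma MUp.pow (hd : MUp m) : ∃ C : ℝ, 1 ≤ C ∧ ∀ k j : ℕ, m (k + j) ≤ C ^ j * m k := by
  obtain ⟨C, hC, h⟩ := hd
  refine ⟨C, hC, fun k j => ?_⟩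
  induction j with
  | zero => simp
  | succ j ih =>
    calc m (k + (j + 1)) ≤ C * m (k + j) := h (k + j)
      _ ≤ C * (C ^ j * m k) := mul_le_mul_of_nonneg_left ih (by linarith)
      _ = C ^ (j + 1) * m k := by ring

lemma MLow.mono (hm : MLow m) {i j : ℕ} (h : i ≤ j) : m i ≤ m j := by
  obtain ⟨d, rfl⟩ := Nat.exists_eq_add_of_le h
  refine le_trans ?_ (hm.low i d)
  have h1 : (1 : ℝ) ≤ (2 : ℝ) ^ (5 / 4 * (d : ℝ)) := Real.one_le_rpow (by norm_num) (by positivity)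
  have := hm.pos i
  nlinarith

lemma XDbl.pow (hX : XDbl) : ∃ C : ℝ, 1 ≤ C ∧ ∀ k j : ℕ, Xb (k + j) ≤ ENNReal.ofReal (C ^ j) * Xb k := by
  obtain ⟨C, hC, h⟩ := hX
  refine ⟨C, hC, fun k j => ?_⟩
  induction j with
  | zero => simp
  | succ j ih =>
    calc Xb (k + (j + 1)) ≤ ENNReal.ofReal C * Xb (k + j) := h (k + j)
      _ ≤ ENNReal.ofReal C * (ENNReal.ofReal (C ^ j) * Xb k) := mul_le_mul_right ih _
      _ = ENNReal.ofReal (C ^ (j + 1)) * Xb k := by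
          rw [← mul_assoc, ← ENNReal.ofReal_mul (by linarith), pow_succ']

lemma TS'_mono (N : ℕ) {x y : ℝ} (h : x ≤ y) : NTm.TS' N x ≤ NTm.TS' N y :=
  sum_le_sum fun _ _ => gf_mono fun _ hZ => ⟨hZ.1, lt_of_lt_of_le hZ.2 h⟩

/-- the quantiles are at most a multiple of the mean -/
theorem quan_up {θ : ℝ} {l : ℕ → ℕ} (hl : NTm.Seq θ l) (hm : MLow m) (hd : MUp m) (hB : TB m) :
    ∃ C : ℝ, 0 < C ∧ ∀ k, (l k : ℝ) ≤ C * m k := by
  obtain ⟨C0, hC0, has⟩ := hl.as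
  obtain ⟨J, hJ⟩ := Ub_small (show (0 : ℝ) < 1 / (4 * C0) by positivity)
  obtain ⟨A, hA, hT⟩ := hB 1
  obtain ⟨C, hC, hp⟩ := hd.pow
  obtain ⟨lam, hlam⟩ : ∃ lam : ℝ, lam = max 1 (2 * A) := ⟨_, rfl⟩
  have h1 : 1 ≤ lam := by rw [hlam]; exact le_max_left _ _
  have h2 : 2 * A ≤ lam := by rw [hlam]; exact le_max_right _ _
  refine ⟨lam * C ^ J, by positivity, fun k => ?_⟩
  have hU := Ub_pos (k + J)
  have hk := hm.pos k
  have h3 : (l k : ℝ) + 1 < lam * m (k + J) := by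
    by_contra hcon
    push Not at hcon
    have e1 := NTm.TL_TS (2 ^ (k + J)) (lam * m (k + J))
    have e2 : NTm.TL (2 ^ (k + J)) (lam * m (k + J)) ≤ ENNReal.ofReal (1 / 2 * Ub (k + J)) := by
      refine (hT (k + J) lam h1).trans (ENNReal.ofReal_le_ofReal ?_)
      refine mul_le_mul_of_nonneg_right ?_ hU.le
      rw [pow_one, div_le_iff₀ (by linarith)]
      linarith
    have e3 : NTm.TS' (2 ^ (k + J)) (lam * m (k + J)) ≤ ENNReal.ofReal (1 / 4 * Ub (k + J)) := by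
      refine (TS'_mono _ hcon).trans ((has k _).trans (ENNReal.ofReal_le_ofReal ?_))
      have h4 := hJ (k + J) (by omega)
      rw [Nat.add_sub_cancel] at h4
      calc C0 * Ub k ≤ C0 * (1 / (4 * C0) * Ub (k + J)) := mul_le_mul_of_nonneg_left h4 (by linarith)
        _ = 1 / 4 * Ub (k + J) := by
            field_simp
    have e4 : ENNReal.ofReal (Ub (k + J)) ≤ ENNReal.ofReal (1 / 2 * Ub (k + J) + 1 / 4 * Ub (k + J)) := by
      rw [ENNReal.ofReal_add (by positivity) (by positivity)]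
      exact e1.trans (add_le_add e2 e3)
    rw [ENNReal.ofReal_le_ofReal_iff (by positivity)] at e4
    linarith
  have h4 := hp k J
  have h5 : lam * m (k + J) ≤ lam * (C ^ J * m k) := mul_le_mul_of_nonneg_left h4 (by linarith)
  linarith

/-- the quantiles are at least a multiple of the mean -/
theorem quan_low {θ : ℝ} {l : ℕ → ℕ} (hl : NTm.Seq θ l) (h0 : 0 ≤ θ) {c c' : ℝ}
    (h1 : ∀ k, ENNReal.ofReal (c' * Ub k) ≤ NTm.TL (2 ^ k) (c * m k)) (hθ : θ < c') (k : ℕ) : c * m k ≤ 2 * l k := by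
  have hU := Ub_pos k
  by_contra hcon
  push Not at hcon
  have h2 : (1 : ℝ) ≤ l k := by exact_mod_cast hl.one k
  have h3 : NTm.TL (2 ^ k) (c * m k) ≤ NTm.TL (2 ^ k) ((l k : ℝ) + 1) :=
    sum_le_sum fun _ _ => gf_mono fun _ hZ => ⟨hZ.1, le_trans (by linarith) hZ.2⟩
  have h4 := (h1 k).trans (h3.trans (hl.tail k))
  rw [ENNReal.ofReal_le_ofReal_iff (mul_nonneg h0 hU.le)] at h4
  nlinarith

/-- every scale is good -/
theorem good_univ {l : ℕ → ℕ} (hd : MUp m) {C c : ℝ} (hC : 0 < C) (hc : 0 < c)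
    (hu : ∀ k, (l k : ℝ) ≤ C * m k) (hlo : ∀ k, c * m k ≤ 2 * l k) : NTm.Good l Set.univ := by
  obtain ⟨D, hD, hp⟩ := hd.pow
  refine ⟨fun j => c / (2 * C * D ^ j), fun j => by positivity, fun L _ j hj => ?_⟩
  have h1 := hp (L - j) j
  rw [Nat.sub_add_cancel hj] at h1
  have h2 := hu L
  have h3 := hlo (L - j)
  have hD0 : 0 < D ^ j := by positivity
  have h4 : (l L : ℝ) ≤ C * (D ^ j * m (L - j)) := h2.trans (mul_le_mul_of_nonneg_left h1 hC.le)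
  calc c / (2 * C * D ^ j) * (l L : ℝ) ≤ c / (2 * C * D ^ j) * (C * (D ^ j * m (L - j))) :=
        mul_le_mul_of_nonneg_left h4 (by positivity)
    _ = c * m (L - j) / 2 := by
        field_simp
    _ ≤ l (L - j) := by linarith

/-- half plane words without cuts in a box -/
def Narrow : Prop := ∃ (s : ℕ) (c : ℝ), 0 < c ∧ ∀ k : ℕ,
  ENNReal.ofReal c * Xb k ≤ gf {W | W ∈ BAR.NA (2 ^ k) ∧ BX (2 ^ (k + s)) W}

/-- the bridges of a box -/
lemma brd_box : ∃ s : ℕ, ∀ k : ℕ, ENNReal.ofReal (1 / 2 * Ub k) ≤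
    gf {X | (∃ h, h ≤ 2 ^ k ∧ X ∈ Brd h) ∧ BX (2 ^ (k + s)) X} := by
  obtain ⟨C, c, hC, hc, h⟩ := NTm.far_lat
  obtain ⟨f, hf⟩ : ∃ f : ℕ, C * Real.exp (-(c * ((2 ^ f : ℕ) : ℝ))) ≤ 1 / 2 := by
    obtain ⟨x, hx⟩ := exists_nat_ge ((2 * C) / c)
    refine ⟨x, ?_⟩
    have h1 : (x : ℝ) ≤ ((2 ^ x : ℕ) : ℝ) := by exact_mod_cast Nat.lt_two_pow_self.le
    have h2 : 2 * C ≤ c * ((2 ^ x : ℕ) : ℝ) := by
      rw [div_le_iff₀ hc] at hx
      nlinarith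
    have h3 : 2 * C ≤ Real.exp (c * ((2 ^ x : ℕ) : ℝ)) := by
      have := Real.add_one_le_exp (c * ((2 ^ x : ℕ) : ℝ))
      linarith
    rw [Real.exp_neg, ← div_eq_mul_inv, div_le_iff₀ (Real.exp_pos _)]
    linarith
  refine ⟨f + 2, fun k => ?_⟩
  have hU := Ub_pos k
  have h1 := h k (2 ^ f) Nat.one_le_two_pow
  have h2 : ENNReal.ofReal (Ub k) ≤ gf {X | (∃ h, h ≤ 2 ^ k ∧ X ∈ Brd h) ∧ BX (2 ^ (k + (f + 2))) X} +
      gf {t | ∃ h, h ≤ 2 ^ k ∧ t ∈ Brd h ∧ ¬ InBox t (2 ^ f * 2 ^ k)} := by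
    have e1 : ENNReal.ofReal (Ub k) = gf {X | ∃ h, h ≤ 2 ^ k ∧ X ∈ Brd h} := by
      have e2 : ENNReal.ofReal (UU (2 ^ k)) = ∑ h ∈ range (2 ^ k + 1), gf (Brd h) := by
        rw [T2.Amp.ofReal_UU]
        exact sum_congr rfl fun h _ => (gf_Brd h).symm
      show ENNReal.ofReal (UU (2 ^ k)) = _
      rw [e2]
      refine le_antisymm ((BAR.gf_bi_eq _ _ ?_).trans (gf_mono ?_)) ?_
      · intro i j w hi hj
        exact Brd_height hi hj
      · intro w hw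
        rw [Set.mem_iUnion₂] at hw
        obtain ⟨i, hi, hw'⟩ := hw
        exact ⟨i, by have := mem_range.1 hi; omega, hw'⟩
      · refine (gf_mono ?_).trans (BAR.gf_bi_le _ _)
        rintro w ⟨i, hi, hw⟩
        rw [Set.mem_iUnion₂]
        exact ⟨i, mem_range.2 (by omega), hw⟩
    rw [e1]
    refine (gf_mono ?_).trans (gf_union_le _ _)
    rintro X ⟨h, hh, hX⟩
    by_cases hb : InBox X (2 ^ f * 2 ^ k)
    · left
      refine ⟨⟨h, hh, hX⟩, ?_⟩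
      have h3 := NTm.brd_BL hX hh (show k ≤ k + f by omega) (by
        have e : 2 ^ (k + f) = 2 ^ f * 2 ^ k := by rw [pow_add, mul_comm]
        rw [e]
        exact hb)
      exact h3.2.2
    · exact Or.inr ⟨h, hh, hX, hb⟩
  have h3 : ENNReal.ofReal (Ub k) ≤ gf {X | (∃ h, h ≤ 2 ^ k ∧ X ∈ Brd h) ∧ BX (2 ^ (k + (f + 2))) X} +
      ENNReal.ofReal (1 / 2 * Ub k) :=
    h2.trans (add_le_add le_rfl (h1.trans (ENNReal.ofReal_le_ofReal (mul_le_mul_of_nonneg_right hf hU.le))))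
  have h4 : ENNReal.ofReal (Ub k) = ENNReal.ofReal (1 / 2 * Ub k) + ENNReal.ofReal (1 / 2 * Ub k) := by
    rw [← ENNReal.ofReal_add (by positivity) (by positivity)]
    congr 1
    ring
  rw [h4] at h3
  exact (ENNReal.add_le_add_iff_right ENNReal.ofReal_ne_top).1 h3

/-- tail of the lengths of the half plane words without cuts of a box -/
theorem half_tail (hm : MLow m) (hd : MUp m) (hX : XDbl) (hA : TA m) {s : ℕ} {c : ℝ} (hc : 0 < c)
    (hN : ∀ k : ℕ, ENNReal.ofReal c * Xb k ≤ gf {W | W ∈ BAR.NA (2 ^ k) ∧ BX (2 ^ (k + s)) W}) (Q : ℕ) :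
    ∃ A lam0 : ℝ, 0 < A ∧ 1 ≤ lam0 ∧ ∀ (k : ℕ) (lam : ℝ), lam0 ≤ lam →
      gf {W | (W ∈ BAR.NA (2 ^ k) ∧ BX (2 ^ (k + s)) W) ∧ lam * m k ≤ (W.length : ℝ)} ≤
        ENNReal.ofReal (A / lam ^ Q) * Xb k := by
  obtain ⟨s', hs'⟩ := brd_box
  obtain ⟨C, hC, hp⟩ := hd.pow
  obtain ⟨D, hD, hq⟩ := hX.pow
  obtain ⟨A, hA0, hT⟩ := hA Q
  obtain ⟨r, hr⟩ : ∃ r, r = max s s' + 4 := ⟨_, rfl⟩
  have hxc : 0 < xc := xc_pos
  have hC0 : 0 < C := by linarith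
  have hD0 : 0 < D := by linarith
  obtain ⟨B, hB⟩ : ∃ B : ℝ, B = 6 / xc * (A * (C ^ r) ^ Q * 2 ^ r * (D ^ r) ^ 2) * (2 / c) := ⟨_, rfl⟩
  have hB0 : 0 < B := by rw [hB]; positivity
  refine ⟨B, C ^ r, hB0, one_le_pow₀ hC, fun k lam hlam => ?_⟩
  have hU := Ub_pos k
  have hk := hm.pos k
  have hCr : 1 ≤ C ^ r := one_le_pow₀ hC
  have hlam0 : 0 < lam := by linarith
  obtain ⟨N0, hN0⟩ : ∃ N0, N0 = {W | (W ∈ BAR.NA (2 ^ k) ∧ BX (2 ^ (k + s)) W) ∧ lam * m k ≤ (W.length : ℝ)} := ⟨_, rfl⟩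
  obtain ⟨N1, hN1⟩ : ∃ N1, N1 = {W | W ∈ BAR.NA (2 ^ k) ∧ BX (2 ^ (k + s)) W} := ⟨_, rfl⟩
  obtain ⟨Z, hZ⟩ : ∃ Z, Z = {X | (∃ h, h ≤ 2 ^ k ∧ X ∈ Brd h) ∧ BX (2 ^ (k + s')) X} := ⟨_, rfl⟩
  have a0 : N0 ⊆ BAR.NA (2 ^ k) := by
    rw [hN0]
    exact fun W hW => hW.1.1
  have a1 : N1 ⊆ BAR.NA (2 ^ k) := by
    rw [hN1]
    exact fun W hW => hW.1
  have aZ : ∀ X ∈ Z, ∃ h, X ∈ Brd h := by
    rw [hZ]
    rintro X ⟨⟨h, -, hX⟩, -⟩
    exact ⟨h, hX⟩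
  have ane : [] ∉ N0 := by
    rw [hN0]
    rintro ⟨-, h⟩
    rw [List.length_nil, Nat.cast_zero] at h
    have := mul_pos hlam0 hk
    linarith
  have bmono : ∀ {a b : ℕ} {t : List Bool}, a ≤ b → BX (2 ^ (k + a)) t → BX (2 ^ (k + b)) t := by
    intro a b t hab h i hi dir
    exact (h i hi dir).trans (pow_le_pow_right₀ (by norm_num) (by omega))
  have b0 : ∀ t ∈ N0, BX (2 ^ (k + max s s')) t := by
    rw [hN0]
    exact fun t ht => bmono (le_max_left _ _) ht.1.2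
  have b1 : ∀ t ∈ N1, BX (2 ^ (k + max s s')) t := by
    rw [hN1]
    exact fun t ht => bmono (le_max_left _ _) ht.2
  have bZ : ∀ t ∈ Z, BX (2 ^ (k + max s s')) t := by
    rw [hZ]
    exact fun t ht => bmono (le_max_right _ _) ht.2
  have h1 := gf_JC a0 ane aZ a1
  have h2 := JC_WL a0 aZ a1 b0 bZ b1
  have h3 : gf (JC N0 Z N1) ≤ ENNReal.ofReal (A / (lam / C ^ r) ^ Q * Ub (k + r)) * Xb (k + r) ^ 2 := by
    refine le_trans (gf_mono ?_) (hT (k + r) (lam / C ^ r) (by rwa [le_div_iff₀ (by positivity), one_mul]))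
    intro t ht
    refine ⟨by rw [hr, ← add_assoc]; exact h2 ht, ?_⟩
    obtain ⟨E, b, X, W, hE, -, -, rfl⟩ := ht
    have h4 : lam * m k ≤ ((E ++ [b]).length : ℝ) := by
      rw [hN0] at hE
      exact hE.2
    have h5 : ((E ++ [b]).length : ℝ) ≤ ((LM.jj E b (X ++ W)).length : ℝ) := by
      rw [JC_length]
      push_cast
      have e1 : (0 : ℝ) ≤ X.length := Nat.cast_nonneg _
      have e2 : (0 : ℝ) ≤ W.length := Nat.cast_nonneg _
      linarith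
    have h6 : lam / C ^ r * m (k + r) ≤ lam * m k := by
      calc lam / C ^ r * m (k + r) ≤ lam / C ^ r * (C ^ r * m k) :=
            mul_le_mul_of_nonneg_left (hp k r) (by positivity)
        _ = lam * m k := by
            field_simp
    linarith
  have h7 : gf (JC N0 Z N1) ≤ ENNReal.ofReal (A * (C ^ r) ^ Q * 2 ^ r * (D ^ r) ^ 2 / lam ^ Q * Ub k) * Xb k ^ 2 := by
    refine h3.trans ?_
    have e1 : Xb (k + r) ^ 2 ≤ ENNReal.ofReal ((D ^ r) ^ 2) * Xb k ^ 2 := by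
      calc Xb (k + r) ^ 2 ≤ (ENNReal.ofReal (D ^ r) * Xb k) ^ 2 := by
            gcongr
            exact hq k r
        _ = _ := by rw [mul_pow, ← ENNReal.ofReal_pow (by positivity)]
    refine (mul_le_mul' (ENNReal.ofReal_le_ofReal (mul_le_mul_of_nonneg_left (Sc.Ub_shift k r) (by positivity))) e1).trans
      (le_of_eq ?_)
    rw [← mul_assoc, ← ENNReal.ofReal_mul (by positivity)]
    congr 2
    rw [div_pow]
    field_simp
  have h8 : ENNReal.ofReal (1 / 2 * Ub k) * (ENNReal.ofReal c * Xb k) ≤ gf Z * gf N1 := by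
    rw [hZ, hN1]
    exact mul_le_mul' (hs' k) (hN k)
  have h9 : gf N0 * (ENNReal.ofReal (1 / 2 * Ub k) * (ENNReal.ofReal c * Xb k)) ≤
      ENNReal.ofReal (6 / xc) * (ENNReal.ofReal (A * (C ^ r) ^ Q * 2 ^ r * (D ^ r) ^ 2 / lam ^ Q * Ub k) * Xb k ^ 2) :=
    (mul_le_mul_right h8 _).trans (h1.trans (mul_le_mul_right h7 _))
  rw [← hN0]
  have hY0 : ENNReal.ofReal (1 / 2 * Ub k) * (ENNReal.ofReal c * Xb k) ≠ 0 := by
    refine mul_ne_zero ?_ (mul_ne_zero ?_ (Xb_ne_zero k))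
    · rw [Ne, ENNReal.ofReal_eq_zero, not_le]
      positivity
    · rw [Ne, ENNReal.ofReal_eq_zero, not_le]
      exact hc
  have hYt : ENNReal.ofReal (1 / 2 * Ub k) * (ENNReal.ofReal c * Xb k) ≠ ⊤ :=
    ENNReal.mul_ne_top ENNReal.ofReal_ne_top (ENNReal.mul_ne_top ENNReal.ofReal_ne_top (Xb_ne_top k))
  rw [← ENNReal.mul_le_mul_iff_left hY0 hYt]
  refine h9.trans (le_of_eq ?_)
  rw [sq (Xb k), ← mul_assoc, ← ENNReal.ofReal_mul (by positivity)]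
  have e3 : ENNReal.ofReal (B / lam ^ Q) * Xb k * (ENNReal.ofReal (1 / 2 * Ub k) * (ENNReal.ofReal c * Xb k)) =
      ENNReal.ofReal (B / lam ^ Q * (1 / 2 * Ub k) * c) * (Xb k * Xb k) := by
    rw [ENNReal.ofReal_mul (show 0 ≤ B / lam ^ Q * (1 / 2 * Ub k) by positivity),
      ENNReal.ofReal_mul (show 0 ≤ B / lam ^ Q by positivity)]
    ring
  rw [e3, hB]
  congr 2
  field_simp

/-- a positive proportion of the half plane words is not long -/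
theorem half_short (hm : MLow m) (hd : MUp m) (hX : XDbl) (hA : TA m) (hN : Narrow) :
    ∃ c lam : ℝ, 0 < c ∧ 0 < lam ∧ ∀ k : ℕ,
      ENNReal.ofReal c * Xb k ≤ gf {W | W ∈ BAR.NA (2 ^ k) ∧ (W.length : ℝ) ≤ lam * m k} := by
  obtain ⟨s, c, hc, hN⟩ := hN
  obtain ⟨A, lam0, hA0, hlam0, h⟩ := half_tail hm hd hX hA hc hN 1
  obtain ⟨lam, hlam⟩ : ∃ lam : ℝ, lam = max lam0 (2 * A / c) := ⟨_, rfl⟩
  have h1 : lam0 ≤ lam := by rw [hlam]; exact le_max_left _ _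
  have h2 : 2 * A / c ≤ lam := by rw [hlam]; exact le_max_right _ _
  have h3 : 0 < lam := by linarith
  refine ⟨c / 2, lam, by positivity, h3, fun k => ?_⟩
  have h4 : gf {W | (W ∈ BAR.NA (2 ^ k) ∧ BX (2 ^ (k + s)) W) ∧ lam * m k ≤ (W.length : ℝ)} ≤
      ENNReal.ofReal (c / 2) * Xb k := by
    refine (h k lam h1).trans (mul_le_mul_left (ENNReal.ofReal_le_ofReal ?_) _)
    rw [pow_one, div_le_iff₀ h3]
    rw [div_le_iff₀ hc] at h2
    linarith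
  have h5 : ENNReal.ofReal c * Xb k ≤ gf {W | W ∈ BAR.NA (2 ^ k) ∧ (W.length : ℝ) ≤ lam * m k} +
      ENNReal.ofReal (c / 2) * Xb k := by
    refine (hN k).trans (((gf_mono ?_).trans (gf_union_le _ _)).trans (add_le_add le_rfl h4))
    rintro W ⟨hW, hb⟩
    rcases le_total (W.length : ℝ) (lam * m k) with h | h
    · exact Or.inl ⟨hW, h⟩
    · exact Or.inr ⟨⟨hW, hb⟩, h⟩
  have h6 : ENNReal.ofReal c * Xb k = ENNReal.ofReal (c / 2) * Xb k + ENNReal.ofReal (c / 2) * Xb k := by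
    rw [← add_mul, ← ENNReal.ofReal_add (by positivity) (by positivity), add_halves]
  rw [h6] at h5
  exact (ENNReal.add_le_add_iff_right (ENNReal.mul_ne_top ENNReal.ofReal_ne_top (Xb_ne_top k))).1 h5

/-- **every scale is a typical scale** -/
theorem scaleP_univ (hm : MLow m) (hX : XDbl) {θ : ℝ} {l : ℕ → ℕ} (hl : NTm.Seq θ l) (hθ : θ ≤ 1 / 2)
    {C c : ℝ} (hc : 0 < c) (hu : ∀ k, (l k : ℝ) ≤ C * m k) (hlo : ∀ k, c * m k ≤ 2 * l k)
    {c' lam : ℝ} (hc' : 0 < c') (hlam : 0 < lam) (hS : ∀ k : ℕ,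
      ENNReal.ofReal c' * Xb k ≤ gf {W | W ∈ BAR.NA (2 ^ k) ∧ (W.length : ℝ) ≤ lam * m k}) :
    ScaleP l Set.univ := by
  obtain ⟨c1, hc1, h1⟩ := lowM1
  obtain ⟨D, hD, hq⟩ := hX.pow
  have hm0 := hm.pos 0
  -- the shift
  obtain ⟨s, hs⟩ : ∃ s : ℕ, 2 * (2 * lam + C + 12 / m 0) / c ≤ (2 : ℝ) ^ (5 / 4 * (s : ℝ)) := by
    obtain ⟨s, hs⟩ := pow_unbounded_of_one_lt (2 * (2 * lam + C + 12 / m 0) / c) (show (1 : ℝ) < 2 by norm_num)
    refine ⟨s, hs.le.trans ?_⟩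
    rw [← Real.rpow_natCast]
    apply Real.rpow_le_rpow_of_exponent_le (by norm_num)
    have : (0 : ℝ) ≤ s := Nat.cast_nonneg _
    linarith
  intro q
  refine ⟨2 ^ s * (D ^ (q + s)) ^ 2 / (c1 * c' ^ 2), s, by positivity, fun L _ hL => ?_⟩
  obtain ⟨k, rfl⟩ : ∃ k, L = k + s := ⟨L - s, by omega⟩
  have hk := hm.pos k
  have hU := Ub_pos k
  have hmk : m 0 ≤ m k := hm.mono (Nat.zero_le k)
  obtain ⟨n, hn⟩ : ∃ n : ℕ, n = ⌈lam * m k⌉₊ := ⟨_, rfl⟩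
  have hn1 : lam * m k ≤ n := by rw [hn]; exact Nat.le_ceil _
  have hn2 : (n : ℝ) < lam * m k + 1 := by rw [hn]; exact Nat.ceil_lt_add_one (by positivity)
  have hlen : 2 * n + l k + 10 ≤ l (k + s) := by
    have e1 : 12 ≤ 12 / m 0 * m k := by
      calc (12 : ℝ) = 12 / m 0 * m 0 := by field_simp
        _ ≤ 12 / m 0 * m k := mul_le_mul_of_nonneg_left hmk (by positivity)
    have e2 : (2 * (n : ℝ) + l k + 10) ≤ (2 * lam + C + 12 / m 0) * m k := by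
      have := hu k
      have : (2 * lam + C + 12 / m 0) * m k = 2 * (lam * m k) + C * m k + 12 / m 0 * m k := by ring
      linarith
    have e3 : (2 * lam + C + 12 / m 0) * m k ≤ c / 2 * ((2 : ℝ) ^ (5 / 4 * (s : ℝ)) * m k) := by
      rw [div_le_iff₀ hc] at hs
      nlinarith
    have e4 : c / 2 * ((2 : ℝ) ^ (5 / 4 * (s : ℝ)) * m k) ≤ c / 2 * m (k + s) :=
      mul_le_mul_of_nonneg_left (hm.low k s) (by positivity)
    have e5 := hlo (k + s)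
    have e6 : (2 * (n : ℝ) + l k + 10) ≤ l (k + s) := by linarith
    exact_mod_cast e6
  have h2 : ENNReal.ofReal (c1 * UU (2 ^ k)) * (ENNReal.ofReal c' * Xb k) ^ 2 ≤ gf (SAL (l (k + s))) := by
    have e1 : ENNReal.ofReal c' * Xb k ≤ gf {W | W ∈ BAR.NA (2 ^ k) ∧ W.length ≤ n} := by
      refine (hS k).trans (gf_mono ?_)
      rintro W ⟨hW, h⟩
      exact ⟨hW, by exact_mod_cast h.trans hn1⟩
    calc ENNReal.ofReal (c1 * UU (2 ^ k)) * (ENNReal.ofReal c' * Xb k) ^ 2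
        ≤ ENNReal.ofReal (c1 * UU (2 ^ k)) * (gf {W | W ∈ BAR.NA (2 ^ k) ∧ W.length ≤ n}) ^ 2 := by gcongr
      _ ≤ gf (SAL (2 * n + l k + 10)) := h1 k n (l k) (QL_seq hl hθ k)
      _ ≤ gf (SAL (l (k + s))) := gf_mono fun t ht => ⟨ht.1, ht.2.trans hlen⟩
  have h3 : bl (2 * l (k + s + q)) (k + s + q) ≤ ENNReal.ofReal (D ^ (q + s)) * Xb k := by
    have e : k + s + q = k + (q + s) := by ring
    rw [e]
    exact (bl_le_Xb _ _).trans (hq k (q + s))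
  show ENNReal.ofReal (Ub (k + s)) * (bl (2 * l (k + s + q)) (k + s + q)) ^ 2 ≤ _
  calc ENNReal.ofReal (Ub (k + s)) * (bl (2 * l (k + s + q)) (k + s + q)) ^ 2
      ≤ ENNReal.ofReal (2 ^ s * Ub k) * (ENNReal.ofReal (D ^ (q + s)) * Xb k) ^ 2 := by
        gcongr
        exact Sc.Ub_shift k s
    _ = ENNReal.ofReal (2 ^ s * (D ^ (q + s)) ^ 2 / (c1 * c' ^ 2)) *
          (ENNReal.ofReal (c1 * UU (2 ^ k)) * (ENNReal.ofReal c' * Xb k) ^ 2) := by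
        have hUU : UU (2 ^ k) = Ub k := rfl
        rw [hUU, mul_pow, mul_pow, ← ENNReal.ofReal_pow (by positivity), ← ENNReal.ofReal_pow (by positivity),
          ← mul_assoc, ← mul_assoc, ← mul_assoc, ← ENNReal.ofReal_mul (by positivity),
          ← ENNReal.ofReal_mul (by positivity), ← ENNReal.ofReal_mul (by positivity)]
        congr 2
        field_simp
    _ ≤ _ := mul_le_mul_right h2 _

/-- the scales with the growth of the quantiles of the exponent c: the quantiles grow at least like 2 ^ (5 j / 4) -/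
theorem dense_mean (hm : MLow m) {θ : ℝ} {l : ℕ → ℕ} (hl : NTm.Seq θ l) {C c0 : ℝ} (hC : 0 < C) (hc0 : 0 < c0)
    (hu : ∀ k, (l k : ℝ) ≤ C * m k) (hlo : ∀ k, c0 * m k ≤ 2 * l k) {c e : ℝ} (hc : 4 / 3 < c) (he : 0 < e) :
    ∃ K : ℝ, 1 ≤ K ∧ NTm.Dense (1 - (c - 4 / 3) / (c - 5 / 4) + e) (NTm.GCK K c l) := by
  obtain ⟨f, hf⟩ : ∃ f : ℕ → ℝ, ∀ L, f L = Real.logb 2 (m L) := ⟨_, fun _ => rfl⟩
  have hstep : ∀ L, f L + 5 / 4 ≤ f (L + 1) := by
    intro L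
    have h1 := hm.low L 1
    have h0 := hm.pos L
    have h2 := Real.logb_le_logb_of_le (b := 2) (by norm_num) (by positivity) h1
    rw [Real.logb_mul (by positivity) h0.ne', Real.logb_rpow (by norm_num) (by norm_num)] at h2
    rw [hf, hf]
    push_cast at h2
    linarith
  have hmf : ∀ L, f 0 ≤ f L := by
    intro L
    rw [hf, hf]
    exact Real.logb_le_logb_of_le (by norm_num) (hm.pos 0) (hm.mono (Nat.zero_le L))
  have hup : ∀ r : ℝ, 0 < r → ∃ B : ℝ, ∀ L : ℕ, f L ≤ (4 / 3 + r) * L + B := by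
    intro r hr
    obtain ⟨C1, hC1, h1⟩ := hl.up r hr
    refine ⟨Real.logb 2 (2 * C1 / c0), fun L => ?_⟩
    have h0 := hm.pos L
    have h2 : m L ≤ 2 * C1 / c0 * (2 : ℝ) ^ ((4 / 3 + r) * L) := by
      have h3 := hlo L
      have h4 := h1 L
      rw [div_mul_eq_mul_div, le_div_iff₀ hc0]
      linarith
    have h3 := Real.logb_le_logb_of_le (b := 2) (by norm_num) h0 h2
    rw [Real.logb_mul (by positivity) (by positivity), Real.logb_rpow (by norm_num) (by norm_num)] at h3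
    rw [hf]
    linarith
  have hlow : ∀ r : ℝ, 0 < r → r ≤ 1 / 3 → ∃ B : ℝ, ∀ L : ℕ, (4 / 3 - r) * L - B ≤ f L := by
    intro r hr hr1
    obtain ⟨k0, h1⟩ := hl.low r hr
    refine ⟨|Real.logb 2 C| + 4 / 3 * k0 + |f 0|, fun L => ?_⟩
    have h0 := hm.pos L
    have e1 := abs_nonneg (Real.logb 2 C)
    have e2 := abs_nonneg (f 0)
    have e3 : (0 : ℝ) ≤ k0 := Nat.cast_nonneg _
    rcases le_or_gt k0 L with h | h
    · have h2 : (2 : ℝ) ^ ((4 / 3 - r) * L) ≤ C * m L := (h1 L h).trans (hu L)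
      have h3 := Real.logb_le_logb_of_le (b := 2) (by norm_num) (by positivity) h2
      rw [Real.logb_mul hC.ne' h0.ne', Real.logb_rpow (by norm_num) (by norm_num)] at h3
      have e4 := le_abs_self (Real.logb 2 C)
      rw [hf L]
      linarith
    · have h2 : (L : ℝ) ≤ k0 := by exact_mod_cast h.le
      have h3 := hmf L
      have h4 := neg_abs_le (f 0)
      have h5 : (0 : ℝ) ≤ L := Nat.cast_nonneg _
      nlinarith
  refine ⟨max 1 (2 * C / c0), le_max_left _ _, fun δ hδ => ?_⟩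
  obtain ⟨x0, hx0⟩ := NTm.dense_abs (f := f) (s := 5 / 4) (c := c) (e := e) (by linarith) hc hstep hup hlow he hδ
  refine ⟨x0, fun x hx => ?_⟩
  have h1 := hx0 x hx
  have e1 : (1 - (1 - (c - 4 / 3) / (c - 5 / 4) + e)) = (c - 4 / 3) / (c - 5 / 4) - e := by ring
  rw [e1]
  refine h1.trans ?_
  refine Nat.cast_le.2 (Finset.card_le_card fun L hL => ?_)
  rw [Finset.mem_filter, Finset.mem_Ioc] at hL
  rw [Finset.mem_filter, Finset.mem_Icc]
  refine ⟨⟨hL.1.1.le, hL.1.2⟩, fun j hj => ?_⟩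
  have h2 := hL.2 j hj
  rw [Nat.cast_sub hj, hf, hf] at h2
  have h0 := hm.pos L
  have h0' := hm.pos (L - j)
  have h3 : m L ≤ (2 : ℝ) ^ (c * j) * m (L - j) := by
    have h4 : Real.logb 2 (m L) ≤ Real.logb 2 ((2 : ℝ) ^ (c * j) * m (L - j)) := by
      rw [Real.logb_mul (by positivity) h0'.ne', Real.logb_rpow (by norm_num) (by norm_num)]
      linarith
    exact (Real.logb_le_logb (by norm_num) h0 (by positivity)).1 h4
  have h5 := hlo (L - j)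
  have h6 := hu L
  have hp : 0 < (2 : ℝ) ^ (c * j) := by positivity
  calc (l L : ℝ) ≤ C * ((2 : ℝ) ^ (c * j) * m (L - j)) := h6.trans (mul_le_mul_of_nonneg_left h3 hC.le)
    _ = C * (2 : ℝ) ^ (c * j) / c0 * (c0 * m (L - j)) := by
        field_simp
    _ ≤ C * (2 : ℝ) ^ (c * j) / c0 * (2 * l (L - j)) := mul_le_mul_of_nonneg_left h5 (by positivity)
    _ = 2 * C / c0 * (2 : ℝ) ^ (c * j) * l (L - j) := by ring
    _ ≤ max 1 (2 * C / c0) * (2 : ℝ) ^ (c * j) * l (L - j) := by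
        gcongr
        exact le_max_right _ _

/-- **natural time at every scale: the scales** -/
theorem scaleU (hm : MLow m) (hd : MUp m) (hX : XDbl) (hA : TA m) (hB : TB m) (h1 : C1 m) (hN : Narrow) :
    ∃ θ0 : ℝ, 0 < θ0 ∧ θ0 ≤ 1 / 2 ∧ ∀ (θ : ℝ) (l : ℕ → ℕ), NTm.Seq θ l → 0 < θ → θ ≤ θ0 →
      ScaleP l Set.univ ∧ NTm.Good l Set.univ ∧ (∃ C c : ℝ, 0 < C ∧ 0 < c ∧ ∀ k, c * m k ≤ l k ∧ (l k : ℝ) ≤ C * m k) ∧
      ∀ c e : ℝ, 4 / 3 < c → 0 < e → ∃ K : ℝ, 1 ≤ K ∧ NTm.Dense (1 - (c - 4 / 3) / (c - 5 / 4) + e) (NTm.GCK K c l) := by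
  obtain ⟨c, c', hc, hc', h1⟩ := h1
  obtain ⟨c2, lam, hc2, hlam, hS⟩ := half_short hm hd hX hA hN
  refine ⟨min (c' / 2) (1 / 2), lt_min (by positivity) (by norm_num), min_le_right _ _, fun θ l hl h0 hθ => ?_⟩
  have hθ1 : θ < c' := lt_of_le_of_lt (hθ.trans (min_le_left _ _)) (by linarith)
  have hθ2 : θ ≤ 1 / 2 := hθ.trans (min_le_right _ _)
  obtain ⟨C, hC, hu⟩ := quan_up hl hm hd hB
  have hlo := quan_low (m := m) hl h0.le h1 hθ1
  refine ⟨scaleP_univ hm hX hl hθ2 hc hu hlo hc2 hlam hS, good_univ hd hC hc hu hlo,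
    ⟨C, c / 2, hC, by positivity, fun k => ⟨?_, hu k⟩⟩, fun c3 e hc3 he => dense_mean hm hl hC hc hu hlo hc3 he⟩
  have := hlo k
  linarith

end NTA

end HexObs
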