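import Pool.Agent.NTA.C1Of
import Pool.Agent.PW.LowAvg

/-!
NTA: **C1** for the sequence m k = mZ (2 ^ k), from the tail of the bridges (helper59).
-/

set_option autoImplicit false

namespace HexObs

namespace NTA

open Finset TS SDN NTW

open scoped ENNReal

theorem lowAvg_mZ : LowAvg (fun k => PW.mZ (2 ^ k)) := PW.lowAvg

/-- **C1** for the mean lengths mZ (2 ^ k) -/
theorem c1_mZ (hm : MLow (fun k => PW.mZ (2 ^ k))) (hu : MUp (fun k => PW.mZ (2 ^ k)))
    (hB : TB (fun k => PW.mZ (2 ^ k))) : C1 (fun k => PW.mZ (2 ^ k)) := c1_of hm hu hB lowAvg_mZ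

end NTA

end HexObs
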