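import Pool.Agent.NTA.TailDefs
import Pool.Agent.PW.IndexD
import Pool.Agent.PW.IndexG
import Pool.Agent.PW.ZtM
import Pool.Agent.PW.RenI

/-!
NTA: both indices of the number of bridges by the length, from the size of the bridges at every scale (TB and C1 for the
mean lengths mZ (2 ^ k)); bridges with exactly 2 n letters, every n, two sided (helper59).
-/

set_option autoImplicit false

namespace HexObs

namespace NTA

open Finset TS SDN NTW T2 BrL

open scoped ENNReal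

/-- the tail of the bridges in the form of PWIdx -/
lemma tail_of_TB {m : ℕ → ℝ} (hB : TB (fun k => m (2 ^ k))) : ∃ A : ℝ, 0 < A ∧ ∀ (k : ℕ) (lam : ℝ), 1 ≤ lam →
    Tail (2 ^ k) (lam * m (2 ^ k)) (A / lam ^ 2) := by
  obtain ⟨A, hA, h⟩ := hB 2
  exact ⟨A, hA, fun k lam hlam => h k lam hlam⟩

/-- the lower mean, from C1 -/
lemma lowMean_of_C1 {m : ℕ → ℝ} (hm : ∀ k, 0 < m k) (h1 : C1 m) : ∃ c : ℝ, 0 < c ∧ ∀ k : ℕ,
    ENNReal.ofReal (c * m k * HexObs.UU (2 ^ k)) ≤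
      ∑ h ∈ range (2 ^ k + 1), ∑' t : Brd h, (t.1.length : ℝ≥0∞) * wE t.1 := by
  obtain ⟨c, c', hc, hc', h⟩ := h1
  refine ⟨c * c', by positivity, fun k => ?_⟩
  have hU := Ub_pos k
  have hmk := hm k
  have h2 := h k
  calc ENNReal.ofReal (c * c' * m k * HexObs.UU (2 ^ k))
      = ENNReal.ofReal (c * m k) * ENNReal.ofReal (c' * Ub k) := by
        rw [← ENNReal.ofReal_mul (by positivity)]
        congr 1
        unfold Ub
        ring
    _ ≤ ENNReal.ofReal (c * m k) * NTm.TL (2 ^ k) (c * m k) := mul_le_mul' le_rfl h2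
    _ ≤ _ := by
        unfold NTm.TL
        rw [Finset.mul_sum]
        refine Finset.sum_le_sum fun h _ => ?_
        calc ENNReal.ofReal (c * m k) * gf {Z | Z ∈ Brd h ∧ c * m k ≤ (Z.length : ℝ)}
            = Rec8.sw {Z | Z ∈ Brd h ∧ c * m k ≤ (Z.length : ℝ)} (fun _ => ENNReal.ofReal (c * m k) * 1) := by
              rw [Rec8.sw_mul_left, Rec8.sw_one]
          _ ≤ Rec8.sw (Brd h) (fun t => (t.length : ℝ≥0∞)) := by
              refine Rec8.sw_mono (fun Z hZ => hZ.1) fun Z hZ => ?_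
              rw [mul_one, ← ENNReal.ofReal_natCast]
              exact ENNReal.ofReal_le_ofReal hZ.2
          _ ≤ _ := ENNReal.tsum_le_tsum fun t => (mul_comm _ _).le

/-- **both indices of the number of bridges by the length** -/
theorem indB_of (hB : TB (fun k => PW.mZ (2 ^ k))) (h1 : C1 (fun k => PW.mZ (2 ^ k))) : BrL.IndB := by
  obtain ⟨K, hK⟩ := PW.scale_mZ
  obtain ⟨A, hA, hT⟩ := tail_of_TB hB
  obtain ⟨c, hc, hL⟩ := lowMean_of_C1 (fun k => PW.mZ_pos Nat.one_le_two_pow) h1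
  exact PWIdx.index_dyadic hK hA hc hT hL

/-- both indices, every lower index below its value 3 / (4 a) -/
theorem indB2_of {a : ℝ} (ha : 5 / 4 + 5 * Real.sqrt 3 / 36 < a) (hB : TB (fun k => PW.mZ (2 ^ k)))
    (h1 : C1 (fun k => PW.mZ (2 ^ k))) : BrL.IndB2 (3 / (4 * a)) := by
  obtain ⟨K, hK⟩ := PW.scale_mZ
  obtain ⟨A, hA, hT⟩ := tail_of_TB hB
  obtain ⟨c, hc, hL⟩ := lowMean_of_C1 (fun k => PW.mZ_pos Nat.one_le_two_pow) h1
  obtain ⟨Cg, hCg, hg⟩ := PW.mZ_growth ha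
  obtain ⟨⟨l0, hl0, h2⟩, c1, q, hc1, hq, h3⟩ := PWIdx.inputs hK hA hc hT hL
  have ha0 : 0 < a := by
    have := Real.sqrt_nonneg 3
    linarith
  exact PWIdx.index_ub_G hK ha0 hCg hg hl0 hc1 hq h2 h3

/-- an exponent above 1 / 2 -/
theorem indB2_half (hB : TB (fun k => PW.mZ (2 ^ k))) (h1 : C1 (fun k => PW.mZ (2 ^ k))) :
    ∃ a1 : ℝ, 1 / 2 < a1 ∧ a1 ≤ 3 / 5 ∧ BrL.IndB2 a1 := by
  have hs : Real.sqrt 3 < 9 / 5 := by
    rw [Real.sqrt_lt' (by norm_num)]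
    norm_num
  have hs0 := Real.sqrt_nonneg 3
  obtain ⟨a, ha1, ha2⟩ := exists_between (show 5 / 4 + 5 * Real.sqrt 3 / 36 < 3 / 2 by linarith)
  have ha0 : 0 < a := by linarith
  refine ⟨3 / (4 * a), ?_, ?_, indB2_of ha1 hB h1⟩
  · rw [div_lt_div_iff₀ (by norm_num) (by positivity)]
    linarith
  · rw [div_le_div_iff₀ (by positivity) (by norm_num)]
    linarith

/-- **bridges with exactly 2 n letters, every n ≥ 1, two sided** -/
theorem ub_two_of (hB : TB (fun k => PW.mZ (2 ^ k))) (h1 : C1 (fun k => PW.mZ (2 ^ k))) :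
    ∃ c C : ℝ, 0 < c ∧ 0 < C ∧ ∀ n : ℕ, 1 ≤ n →
      c * ((∑ j ∈ range n, ub j) / n) ≤ ub n ∧ ub n ≤ C * ((∑ j ∈ range n, ub j) / n) := by
  obtain ⟨a1, h2, h3, h4⟩ := indB2_half hB h1
  exact BrL.ub_two h2 h3 h4

end NTA

end HexObs
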