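import Pool.Agent.NTA.HeadEZ
import Pool.Agent.NTW.EqEvent
import Pool.Agent.NTW.DmJ
import Pool.Agent.NTW.KernU

/-!
NTA, long leaves (plain class): algebra of the classes of small norm, the cover of the long leaves by the classes
middle / head number i / tail number i / deep head / deep tail.
-/

set_option autoImplicit false

namespace HexObs

namespace NTA

open Finset TS SDN NTW

open scoped ENNReal

namespace LQ

/-- the free middle part of the leaf between the levels E from the foot and E from the top has at least x letters -/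
def Mid (E : ℕ) (x : ℝ) : Set (List Bool) :=
  {g | ∀ B Z T : List Bool, B ∈ BU → Z ∈ BU → T ∈ BU → g = B ++ (Z ++ T) → hgt B ≤ E → hgt T ≤ E → x ≤ (Z.length : ℝ)}

/-- a long prefix bridge of height at most E, the prefix bridges of height at most E' are not long -/
def Hd (E E' : ℕ) (x x' : ℝ) : Set (List Bool) := PreL E x \ PreL E' x'

/-- a long suffix bridge of height at most E, the suffix bridges of height at most E' are not long -/
def Tl (E E' : ℕ) (x x' : ℝ) : Set (List Bool) := SufL E x \ SufL E' x'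

variable {Dm : ℕ → ℝ≥0∞ → (List Bool → ℝ≥0∞) → Prop} {kc : ℕ} {S S' : Set (List Bool)} {δ δ' : ℝ}

lemma SmD_le (h : δ ≤ δ') (hS : SmD Dm kc S δ) : SmD Dm kc S δ' := by
  refine ⟨fun x Φ hΦ => (hS.near x Φ hΦ).trans ?_, fun y x Ψ Φ hΨ hF hΦ => (hS.free y x Ψ Φ hΨ hF hΦ).trans ?_⟩
  · exact mul_le_mul_left (ENNReal.ofReal_le_ofReal h) _
  · refine mul_le_mul_left (ENNReal.ofReal_le_ofReal ?_) _
    have := (Ub_pos kc).le
    gcongr

lemma SmD_union (h0 : 0 ≤ δ) (h0' : 0 ≤ δ') (h : SmD Dm kc S δ) (h' : SmD Dm kc S' δ') :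
    SmD Dm kc (S ∪ S') (δ + δ') := by
  refine ⟨fun x Φ hΦ => ?_, fun y x Ψ Φ hΨ hF hΦ => ?_⟩
  · have h1 : ∀ t, vA (2 ^ (kc + 4)) (S ∪ S') Φ t ≤ vA (2 ^ (kc + 4)) S Φ t + vA (2 ^ (kc + 4)) S' Φ t := by
      intro t
      refine TN5b_sw_union ?_ Φ
      rintro g ⟨h1 | h1, h2⟩
      · exact Or.inl ⟨h1, h2⟩
      · exact Or.inr ⟨h1, h2⟩
    refine (xT_mono h1).trans ((xT_add _ _ _ _).trans ?_)
    rw [ENNReal.ofReal_add h0 h0', add_mul]
    exact add_le_add (h.near x Φ hΦ) (h'.near x Φ hΦ)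
  · refine (TN5b_sw_union (B := S) (C := S') (fun g hg => hg) _).trans ?_
    have hU := (Ub_pos kc).le
    rw [add_mul, ENNReal.ofReal_add (by positivity) (by positivity), add_mul]
    exact add_le_add (h.free y x Ψ Φ hΨ hF hΦ) (h'.free y x Ψ Φ hΨ hF hΦ)

lemma SmD_empty : SmD Dm kc ∅ 0 := by
  refine ⟨fun x Φ hΦ => ?_, fun y x Ψ Φ hΨ hF hΦ => ?_⟩
  · refine xT_le fun b I hb hI => ?_
    refine le_trans (le_of_eq ?_) zero_le
    have h1 : ∀ t, vA (2 ^ (kc + 4)) ∅ Φ t = 0 := by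
      intro t
      unfold vA Rec8.sw
      rw [ENNReal.tsum_eq_zero]
      rintro ⟨g, hg, -⟩
      exact absurd hg (Set.notMem_empty g)
    unfold Rec8.sw
    rw [ENNReal.tsum_eq_zero]
    intro t
    show wE t.1 * vA (2 ^ (kc + 4)) ∅ Φ (I ++ t.1) = 0
    rw [h1, mul_zero]
  · refine le_trans (le_of_eq ?_) zero_le
    unfold Rec8.sw
    rw [ENNReal.tsum_eq_zero]
    rintro ⟨g, hg⟩
    exact absurd hg (Set.notMem_empty g)

lemma SmD_sum (n : ℕ) (C : ℕ → Set (List Bool)) (d : ℕ → ℝ) (hd : ∀ i < n, 0 ≤ d i)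
    (h : ∀ i < n, SmD Dm kc (C i) (d i)) : SmD Dm kc {g | ∃ i < n, g ∈ C i} (∑ i ∈ range n, d i) := by
  induction n with
  | zero =>
    have : {g : List Bool | ∃ i < 0, g ∈ C i} = ∅ := by
      ext g
      constructor
      · rintro ⟨i, hi, -⟩
        omega
      · exact fun h => absurd h (Set.notMem_empty g)
    rw [this]
    exact SmD_empty
  | succ n ih =>
    rw [Finset.sum_range_succ]
    refine QF.SmD_mono ?_ (SmD_union (Finset.sum_nonneg fun i hi => hd i (by rw [Finset.mem_range] at hi; omega))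
      (hd n (by omega)) (ih (fun i hi => hd i (by omega)) fun i hi => h i (by omega)) (h n (by omega)))
    rintro g ⟨i, hi, hg⟩
    rcases Nat.lt_or_ge i n with h1 | h1
    · exact Or.inl ⟨i, h1, hg⟩
    · have : i = n := by omega
      exact Or.inr (this ▸ hg)

/-- cover by levels -/
lemma lev_cov (A : ℕ → Set (List Bool)) (n : ℕ) {g : List Bool} (h0 : g ∈ A 0) :
    (∃ i < n, g ∈ A i \ A (i + 1)) ∨ g ∈ A n := by
  induction n with
  | zero => exact Or.inr h0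
  | succ n ih =>
    rcases ih with ⟨i, hi, hg⟩ | hg
    · exact Or.inl ⟨i, by omega, hg⟩
    · by_cases h : g ∈ A (n + 1)
      · exact Or.inr h
      · exact Or.inl ⟨n, by omega, hg, h⟩

/-- long leaves: middle, head or tail -/
lemma long_cov {x : ℝ} {E : ℕ} {g : List Bool} (hx : x ≤ (g.length : ℝ)) :
    g ∈ Mid E (x / 3) ∨ g ∈ PreL E (x / 3) ∨ g ∈ SufL E (x / 3) := by
  by_cases h1 : g ∈ Mid E (x / 3)
  · exact Or.inl h1
  right
  have h2 : ∃ B Z T : List Bool, B ∈ BU ∧ Z ∈ BU ∧ T ∈ BU ∧ g = B ++ (Z ++ T) ∧ hgt B ≤ E ∧ hgt T ≤ E ∧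
      (Z.length : ℝ) < x / 3 := by
    by_contra hcon
    apply h1
    intro B Z T hB hZ hT he h3 h4
    by_contra h5
    exact hcon ⟨B, Z, T, hB, hZ, hT, he, h3, h4, not_le.1 h5⟩
  obtain ⟨B, Z, T, hB, hZ, hT, he, h3, h4, h5⟩ := h2
  have h6 : (g.length : ℝ) = B.length + (Z.length + T.length) := by
    rw [he, List.length_append, List.length_append]
    push_cast
    ring
  obtain ⟨b, hb⟩ := hB
  obtain ⟨z, hz⟩ := hZ
  obtain ⟨t, ht⟩ := hT
  by_cases h7 : x / 3 ≤ (B.length : ℝ)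
  · left
    exact ⟨B, Z ++ T, ⟨b, hb⟩, ⟨z + t, Brd_append hz ht⟩, he, h3, h7⟩
  · right
    rw [not_le] at h7
    refine ⟨B ++ Z, T, ⟨b + z, Brd_append hb hz⟩, ⟨t, ht⟩, by rw [he, List.append_assoc], h4, ?_⟩
    linarith

/-- weight of the deep heads -/
lemma gf_Pre_le (D N L : ℕ) (x : ℝ) : gf {g | g ∈ BrR D N ∧ g ∈ PreL L x} ≤ NTm.TL L x * ENNReal.ofReal (UU N) := by
  classical
  have hR : NTm.TL L x * gf {Z | ∃ h, h ≤ N ∧ Z ∈ Brd h} = ∑' y : ℕ × (List Bool × List Bool),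
      (if (y.1 ∈ Finset.range (L + 1) ∧ y.2.1 ∈ Brd y.1 ∧ x ≤ (y.2.1.length : ℝ)) ∧
        (∃ h, h ≤ N ∧ y.2.2 ∈ Brd h) then wE y.2.1 * wE y.2.2 else 0) := by
    unfold NTm.TL
    rw [ENNReal.tsum_prod', Finset.sum_mul]
    have e1 : ∀ l : ℕ, (∑' y : List Bool × List Bool,
        (if (l ∈ Finset.range (L + 1) ∧ y.1 ∈ Brd l ∧ x ≤ (y.1.length : ℝ)) ∧ (∃ h, h ≤ N ∧ y.2 ∈ Brd h) then
          wE y.1 * wE y.2 else 0)) = if l ∈ Finset.range (L + 1) then
          gf {Z | Z ∈ Brd l ∧ x ≤ (Z.length : ℝ)} * gf {Z | ∃ h, h ≤ N ∧ Z ∈ Brd h} else 0 := by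
      intro l
      by_cases hl : l ∈ Finset.range (L + 1)
      · rw [if_pos hl, ENNReal.tsum_prod', gf_ind, ← ENNReal.tsum_mul_right]
        refine tsum_congr fun B => ?_
        by_cases hB : B ∈ {Z | Z ∈ Brd l ∧ x ≤ (Z.length : ℝ)}
        · rw [if_pos hB, gf_ind, ← ENNReal.tsum_mul_left]
          refine tsum_congr fun V => ?_
          by_cases hV : ∃ h, h ≤ N ∧ V ∈ Brd h
          · rw [if_pos ⟨⟨hl, hB⟩, hV⟩, if_pos (show V ∈ {Z | ∃ h, h ≤ N ∧ Z ∈ Brd h} from hV)]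
          · rw [if_neg (show V ∉ {Z | ∃ h, h ≤ N ∧ Z ∈ Brd h} from hV), mul_zero, if_neg]
            exact fun h => hV h.2
        · rw [if_neg hB, zero_mul, ENNReal.tsum_eq_zero]
          intro V
          exact if_neg fun h => hB h.1.2
      · rw [if_neg hl, ENNReal.tsum_eq_zero]
        intro y
        exact if_neg fun h => hl h.1.1
    rw [tsum_congr e1, tsum_eq_sum (s := Finset.range (L + 1))]
    · exact Finset.sum_congr rfl fun l hl => (if_pos hl).symm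
    · intro l hl
      exact if_neg hl
  refine le_trans ?_ (mul_le_mul' le_rfl (gf_BU_le N))
  rw [hR]
  have h1 : gf {g | g ∈ BrR D N ∧ g ∈ PreL L x} = Rec8.sw {g | g ∈ BrR D N ∧ g ∈ PreL L x} (fun _ => 1) := by
    rw [NX_const, mul_one]
  rw [h1]
  refine Rec8.sw_cover _ _ _ (fun y => y.2.1 ++ y.2.2) ?_
  rintro g ⟨⟨H, hH1, hH2, hH⟩, B, V, ⟨b, hB⟩, ⟨v, hV⟩, he, hBL, hx⟩
  rw [hgt_eq hB] at hBL
  refine ⟨(b, (B, V)), he.symm, ?_⟩
  have hvN : v ≤ N := by
    have := Brd_height hH (he ▸ Brd_append hB hV)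
    omega
  rw [if_pos ⟨⟨Finset.mem_range.2 (by omega), hB, hx⟩, v, hvN, hV⟩, he, wE_append, mul_one]

end LQ

end NTA

end HexObs
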