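import Pool.Agent.NTA.LongCore
import Pool.Agent.NTA.LQCov
import Pool.Agent.NTA.Crude
import Pool.Agent.NTA.TailDefs

/-!
NTA: if the bridges with at least c' m k letters have a small proportion of the weight of the scale k, then the leaves of
the scale k with at least c m k letters are a class of small norm.
-/

set_option autoImplicit false

namespace HexObs

namespace NTA

open Finset TS SDN NTW

open scoped ENNReal

/-- few bridges with c' m k letters: the leaves with c m k letters have a small norm -/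
def LongC (m : ℕ → ℝ) : Prop := ∀ e c : ℝ, 0 < e → 0 < c → ∃ c' ε' : ℝ, 0 < c' ∧ 0 < ε' ∧ ∃ k0 : ℕ, ∀ k : ℕ, k0 ≤ k →
  NTm.TL (2 ^ (k + 8)) (c' * m k) ≤ ENNReal.ofReal (ε' * Ub k) →
    SmD DmJ k {g | g ∈ BrR (2 ^ (k + 4)) (2 ^ (k + 8)) ∧ c * m k ≤ (g.length : ℝ)} e

namespace LQC

/-- weight of the deep tails -/
lemma gf_Suf (D N L : ℕ) (x : ℝ) : gf {g | g ∈ BrR D N ∧ g ∈ SufL L x} ≤ NTm.TL L x * ENNReal.ofReal (UU N) := by
  classical
  have hR : NTm.TL L x * gf {Z | ∃ h, h ≤ N ∧ Z ∈ Brd h} = ∑' y : ℕ × (List Bool × List Bool),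
      (if (y.1 ∈ Finset.range (L + 1) ∧ y.2.1 ∈ Brd y.1 ∧ x ≤ (y.2.1.length : ℝ)) ∧
        (∃ h, h ≤ N ∧ y.2.2 ∈ Brd h) then wE y.2.1 * wE y.2.2 else 0) := by
    unfold NTm.TL
    rw [ENNReal.tsum_prod', Finset.sum_mul]
    have e1 : ∀ l : ℕ, (∑' y : List Bool × List Bool,
        (if (l ∈ Finset.range (L + 1) ∧ y.1 ∈ Brd l ∧ x ≤ (y.1.length : ℝ)) ∧ (∃ h, h ≤ N ∧ y.2 ∈ Brd h) then
          wE y.1 * wE y.2 else 0)) = if l ∈ Finset.range (L + 1) then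
          gf {Z | Z ∈ Brd l ∧ x ≤ (Z.length : ℝ)} * gf {Z | ∃ h, h ≤ N ∧ Z ∈ Brd h} else 0 := by
      intro l
      by_cases hl : l ∈ Finset.range (L + 1)
      · rw [if_pos hl, ENNReal.tsum_prod', gf_ind, ← ENNReal.tsum_mul_right]
        refine tsum_congr fun B => ?_
        by_cases hB : B ∈ {Z | Z ∈ Brd l ∧ x ≤ (Z.length : ℝ)}
        · rw [if_pos hB, gf_ind, ← ENNReal.tsum_mul_left]
          refine tsum_congr fun V => ?_
          by_cases hV : ∃ h, h ≤ N ∧ V ∈ Brd h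
          · rw [if_pos ⟨⟨hl, hB⟩, hV⟩, if_pos (show V ∈ {Z | ∃ h, h ≤ N ∧ Z ∈ Brd h} from hV)]
          · rw [if_neg (show V ∉ {Z | ∃ h, h ≤ N ∧ Z ∈ Brd h} from hV), mul_zero, if_neg]
            exact fun h => hV h.2
        · rw [if_neg hB, zero_mul, ENNReal.tsum_eq_zero]
          intro V
          exact if_neg fun h => hB h.1.2
      · rw [if_neg hl, ENNReal.tsum_eq_zero]
        intro y
        exact if_neg fun h => hl h.1.1
    rw [tsum_congr e1, tsum_eq_sum (s := Finset.range (L + 1))]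
    · exact Finset.sum_congr rfl fun l hl => (if_pos hl).symm
    · intro l hl
      exact if_neg hl
  refine le_trans ?_ (mul_le_mul' le_rfl (gf_BU_le N))
  rw [hR]
  have h1 : gf {g | g ∈ BrR D N ∧ g ∈ SufL L x} = Rec8.sw {g | g ∈ BrR D N ∧ g ∈ SufL L x} (fun _ => 1) := by
    rw [NX_const, mul_one]
  rw [h1]
  refine Rec8.sw_cover _ _ _ (fun y => y.2.2 ++ y.2.1) ?_
  rintro g ⟨⟨H, hH1, hH2, hH⟩, V, B, ⟨v, hV⟩, ⟨b, hB⟩, he, hBL, hx⟩
  rw [hgt_eq hB] at hBL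
  refine ⟨(b, (B, V)), he.symm, ?_⟩
  have hvN : v ≤ N := by
    have := Brd_height hH (he ▸ Brd_append hV hB)
    omega
  rw [if_pos ⟨⟨Finset.mem_range.2 (by omega), hB, hx⟩, v, hvN, hV⟩, he, wE_append, mul_one, mul_comm]

/-- fourth powers: the ratio of the threshold to the scale of the level -/
lemma ratio {u X Y D : ℝ} (hu : 0 < u) {n : ℕ} (hD : D = n) (hX : 0 < X) (hXY : (2 : ℝ) ^ (5 / 4 * D) * X ≤ Y)
    (hu2 : 1 ≤ u * 2 ^ n) : (2 : ℝ) ^ n ≤ (u * Y / X) ^ 4 := by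
  have h1 : (2 : ℝ) ^ (5 / 4 * D) ≤ Y / X := by
    rw [le_div_iff₀ hX]
    exact hXY
  have h2 : u * (2 : ℝ) ^ (5 / 4 * D) ≤ u * Y / X := by
    rw [mul_div_assoc]
    exact mul_le_mul_of_nonneg_left h1 hu.le
  have h3 : ((2 : ℝ) ^ (5 / 4 * D)) ^ 4 = 2 ^ (5 * n) := by
    rw [← Real.rpow_natCast, ← Real.rpow_mul (by norm_num), hD]
    rw [show (5 / 4 * (n : ℝ) * (4 : ℕ) : ℝ) = ((5 * n : ℕ) : ℝ) by push_cast; ring, Real.rpow_natCast]
  calc (2 : ℝ) ^ n = 1 ^ 4 * 2 ^ n := by ring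
    _ ≤ (u * 2 ^ n) ^ 4 * 2 ^ n := by gcongr
    _ = (u * (2 : ℝ) ^ (5 / 4 * D)) ^ 4 := by
        rw [mul_pow, mul_pow, h3]
        ring
    _ ≤ (u * Y / X) ^ 4 := by
        refine pow_le_pow_left₀ (by positivity) h2 4

end LQC

open LQC in
/-- **LongC** from the tail of the bridges -/
theorem longC_of {m : ℕ → ℝ} (hm : MLow m) (hB : TB m) : LongC m := by
  obtain ⟨K1, c1, hK1, hc1, hcore⟩ := long_core
  obtain ⟨K2, hK2, hcr⟩ := crude
  intro e c he hc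
  obtain ⟨a, ha⟩ : ∃ a : ℕ, 3 / c1 ≤ a := exists_nat_ge _
  have ha3 : 3 ≤ c1 * a := by
    rw [div_le_iff₀ hc1] at ha
    linarith
  have ha1 : 1 ≤ a := by
    by_contra hcon
    have : a = 0 := by omega
    rw [this] at ha3
    norm_num at ha3
  obtain ⟨Q', hQ'⟩ : ∃ Q' : ℕ, Q' = 4 * (2 * a + 3) := ⟨_, rfl⟩
  obtain ⟨A, hA0, hTB⟩ := hB (4 * Q')
  obtain ⟨A4, hA4⟩ : ∃ A4 : ℝ, A4 = max 1 A := ⟨_, rfl⟩
  have hA41 : 1 ≤ A4 := by rw [hA4]; exact le_max_left _ _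
  have hAA : A ≤ A4 ^ 4 := by
    calc A ≤ A4 := by rw [hA4]; exact le_max_right _ _
      _ = A4 ^ 1 := (pow_one _).symm
      _ ≤ A4 ^ 4 := pow_le_pow_right₀ hA41 (by norm_num)
  -- the tail at the depth n
  have tail : ∀ (u : ℝ) (k n : ℕ), 0 < u → n ≤ k → 1 ≤ u * 2 ^ n →
      NTm.TL (2 ^ (k - n)) (u * m k) ≤ ENNReal.ofReal (A * (1 / 2) ^ (Q' * n) * Ub (k - n)) := by
    intro u k n hu hn h1
    have hp := hm.pos (k - n)
    have h2 := hm.low (k - n) n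
    rw [Nat.sub_add_cancel hn] at h2
    have h3 := ratio (D := (n : ℝ)) hu rfl hp h2 h1
    have h4 : 1 ≤ u * m k / m (k - n) := by
      have h5 : (1 : ℝ) ≤ (u * m k / m (k - n)) ^ 4 := (one_le_pow₀ (by norm_num)).trans h3
      by_contra hcon
      rw [not_le] at hcon
      have h6 : 0 ≤ u * m k / m (k - n) := by have := hm.pos k; positivity
      have : (u * m k / m (k - n)) ^ 4 < 1 := pow_lt_one₀ h6 hcon (by norm_num)
      linarith
    have h5 := hTB (k - n) _ h4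
    rw [div_mul_cancel₀ _ hp.ne'] at h5
    refine h5.trans (ENNReal.ofReal_le_ofReal ?_)
    refine mul_le_mul_of_nonneg_right ?_ (Ub_pos _).le
    rw [pow_mul, div_eq_mul_inv]
    refine mul_le_mul_of_nonneg_left ?_ hA0.le
    rw [one_div, inv_pow, inv_le_inv₀ (by positivity) (by positivity), mul_comm Q' n, pow_mul]
    exact pow_le_pow_left₀ (by positivity) h3 _
  -- the constants
  obtain ⟨T, hT⟩ : ∃ T : ℝ, T = K1 * 257 ^ 3 * (3 + 2 * (4 ^ (a + 1) * A4)) := ⟨_, rfl⟩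
  have hT0 : 0 < T := by rw [hT]; positivity
  obtain ⟨D0, hD0⟩ : ∃ D0 : ℕ, max (max (6 * T / e) A4) (max (18 / c) 8) < 2 ^ D0 := pow_unbounded_of_one_lt _ (by norm_num)
  rw [max_lt_iff, max_lt_iff, max_lt_iff] at hD0
  obtain ⟨⟨hd1, hd2⟩, hd3, hd4⟩ := hD0
  have hD3 : 3 ≤ D0 := by
    by_contra hcon
    have : (2 : ℝ) ^ D0 ≤ 2 ^ 3 := pow_le_pow_right₀ (by norm_num) (by omega)
    linarith
  rw [div_lt_iff₀ he] at hd1
  rw [div_lt_iff₀ hc] at hd3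
  obtain ⟨ε', hε'⟩ : ∃ ε' : ℝ, ε' = e / (6 * (K1 * 257 ^ 3 * 4 ^ ((a + 1) * D0))) := ⟨_, rfl⟩
  have hε0 : 0 < ε' := by rw [hε']; positivity
  have hU0 := Ub_pos 0
  obtain ⟨G, hG⟩ : ∃ G : ℝ, G = K2 * A * 256 * Ub 0 ^ 2 * 256 ^ a := ⟨_, rfl⟩
  have hG0 : 0 < G := by rw [hG]; positivity
  obtain ⟨k1, hk1⟩ : ∃ k1 : ℕ, 3 * G / e < 4 ^ k1 := pow_unbounded_of_one_lt _ (by norm_num)
  rw [div_lt_iff₀ he] at hk1
  refine ⟨c / 9, ε', by positivity, hε0, max k1 ((a + 1) * D0), fun k hk hTL => ?_⟩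
  have hkk1 : k1 ≤ k := (le_max_left _ _).trans hk
  have hkD : (a + 1) * D0 ≤ k := (le_max_right _ _).trans hk
  obtain ⟨M, hM⟩ : ∃ M : ℕ, M = k / (a + 1) := ⟨_, rfl⟩
  have hM1 : (a + 1) * M ≤ k := by
    rw [hM]
    exact Nat.mul_div_le _ _
  have hM2 : k ≤ (a + 1) * M + a := by
    have h1 := Nat.lt_mul_div_succ k (show 0 < a + 1 by omega)
    rw [← hM] at h1
    have h2 : (a + 1) * (M + 1) = (a + 1) * M + (a + 1) := by ring
    omega
  have hMD : D0 ≤ M := by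
    rw [hM]
    exact (Nat.le_div_iff_mul_le (by omega)).2 (by rw [mul_comm]; exact hkD)
  have hUk := Ub_pos k
  have hUN : UU (2 ^ (k + 8)) ≤ 256 * Ub k := by
    have := Ub_add k 8
    norm_num at this
    exact this
  have hUN0 := Num2Aux.UU_pos (2 ^ (k + 8))
  have hUNk : Ub k ≤ UU (2 ^ (k + 8)) := Ub_mono (by omega : k ≤ k + 8)
  -- level n: position
  have hpos : ∀ n, n ≤ M → (a + 1) * n ≤ k := fun n hn => (Nat.mul_le_mul_left _ hn).trans hM1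
  obtain ⟨r, hr⟩ : ∃ r : ℕ, r = M - D0 := ⟨_, rfl⟩
  -- the middle class
  have hmid : SmD DmJ k (BrR (2 ^ (k + 4)) (2 ^ (k + 8)) ∩ T2.Sp (k - (D0 + r)) (c / 3 * m k)) (e / 3) := by
    have h1 := hcore k (2 ^ (k + 8)) r (fun i => k - (D0 + i)) (fun i => k - (a + 1) * (D0 + i)) (c / 3 * m k) ε'
      (fun i => (A4 * (1 / 2) ^ ((2 * a + 3) * (D0 + i))) ^ 4)
      (fun i _ => by show k - (D0 + (i + 1)) ≤ k - (D0 + i); omega) (by show k - (D0 + 0) ≤ k; omega)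
      (fun i hi => by
        show k - (a + 1) * (D0 + i) + 3 ≤ k - (D0 + i)
        have b1 := hpos (D0 + i) (by omega)
        have b2 : (a + 1) * (D0 + i) = a * (D0 + i) + (D0 + i) := by ring
        have b3 : 1 * (D0 + i) ≤ a * (D0 + i) := Nat.mul_le_mul_right _ ha1
        omega)
      (Nat.pow_le_pow_right (by norm_num) (by show k - (D0 + 0) ≤ k + 8; omega)) hε0.le
      (by
        rw [show c / 3 * m k / 3 = c / 9 * m k by ring]
        refine hTL.trans (ENNReal.ofReal_le_ofReal ?_)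
        exact mul_le_mul_of_nonneg_left hUNk hε0.le)
      (fun i hi => by
        have b0 : 0 < A4 * (1 / 2) ^ ((2 * a + 3) * (D0 + i)) := by positivity
        refine ⟨by positivity, pow_le_one₀ b0.le ?_, ?_⟩
        · have b1 : D0 ≤ (2 * a + 3) * (D0 + i) := by nlinarith
          have b2 : ((1 : ℝ) / 2) ^ ((2 * a + 3) * (D0 + i)) ≤ (1 / 2) ^ D0 :=
            pow_le_pow_of_le_one (by norm_num) (by norm_num) b1
          have b3 : A4 * (1 / 2) ^ D0 ≤ 1 := by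
            rw [one_div, inv_pow, ← div_eq_mul_inv, div_le_one (by positivity)]
            exact hd2.le
          exact (mul_le_mul_of_nonneg_left b2 (by positivity)).trans b3
        · show NTm.TL (2 ^ (k - (D0 + i))) (c / 3 * m k / 6 * (1 / 2) ^ i) ≤ _
          have b1 : c / 3 * m k / 6 * (1 / 2) ^ i = (c / 18 * (1 / 2) ^ i) * m k := by ring
          rw [b1]
          have b2 : (1 : ℝ) ≤ c / 18 * (1 / 2) ^ i * 2 ^ (D0 + i) := by
            have b3 : c / 18 * (1 / 2) ^ i * 2 ^ (D0 + i) = 2 ^ D0 * c / 18 * ((1 / 2) ^ i * 2 ^ i) := by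
              rw [pow_add]
              ring
            rw [b3, ← mul_pow]
            norm_num
            linarith
          have b4 := hpos (D0 + i) (by omega)
          have b5 : D0 + i ≤ k := by nlinarith
          refine (tail _ k (D0 + i) (by positivity) b5 b2).trans (ENNReal.ofReal_le_ofReal ?_)
          refine mul_le_mul_of_nonneg_right ?_ (Ub_pos _).le
          have b6 : (A4 * (1 / 2) ^ ((2 * a + 3) * (D0 + i))) ^ 4 = A4 ^ 4 * (1 / 2) ^ (Q' * (D0 + i)) := by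
            rw [mul_pow, ← pow_mul, hQ']
            congr 2
            ring
          rw [b6]
          exact mul_le_mul_of_nonneg_right hAA (by positivity))
    refine LQ.SmD_le ?_ h1
    have hfac : (1 + UU (2 ^ (k + 8)) / Ub k) ^ 3 ≤ 257 ^ 3 := by
      have : UU (2 ^ (k + 8)) / Ub k ≤ 256 := by rw [div_le_iff₀ hUk]; exact hUN
      gcongr
      linarith
    -- the window norm
    have hwin : ∀ n, n ≤ M → (4 : ℝ) ^ (k - (k - n)) * (2 : ℝ) ^ (-(c1 * (((k - n : ℕ) : ℝ) - ((k - (a + 1) * n : ℕ) : ℝ)))) ≤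
        (1 / 2) ^ n := by
      intro n hn
      have b1 := hpos n hn
      have b2 : n ≤ k := by nlinarith
      rw [Nat.cast_sub b2, Nat.cast_sub b1, Nat.sub_sub_self b2]
      have b3 : (2 : ℝ) ^ (-(c1 * ((k : ℝ) - n - (k - ((a + 1) * n : ℕ))))) ≤ (1 / 8) ^ n := by
        have b4 : ((1 : ℝ) / 8) ^ n = (2 : ℝ) ^ (-(3 * n : ℝ)) := by
          rw [Real.rpow_neg (by norm_num), Real.rpow_mul (by norm_num), Real.rpow_natCast, one_div, inv_pow]
          norm_num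
        rw [b4]
        refine Real.rpow_le_rpow_of_exponent_le (by norm_num) ?_
        push_cast
        have b5 : (0 : ℝ) ≤ n := Nat.cast_nonneg _
        nlinarith
      calc (4 : ℝ) ^ n * (2 : ℝ) ^ (-(c1 * ((k : ℝ) - n - (k - ((a + 1) * n : ℕ))))) ≤ 4 ^ n * (1 / 8) ^ n := by gcongr
        _ = (1 / 2) ^ n := by
          rw [← mul_pow]
          norm_num
    have hsum : ∀ n : ℕ, ∑ i ∈ range n, ((1 : ℝ) / 2) ^ (D0 + i) ≤ 2 * (1 / 2) ^ D0 := by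
      intro n
      have b1 : ∑ i ∈ range n, ((1 : ℝ) / 2) ^ (D0 + i) = (1 / 2) ^ D0 * ∑ i ∈ range n, ((1 : ℝ) / 2) ^ i := by
        rw [Finset.mul_sum]
        exact Finset.sum_congr rfl fun i _ => pow_add _ _ _
      have b2 : ∑ i ∈ range n, ((1 : ℝ) / 2) ^ i ≤ 2 := by
        rw [geom_sum_eq (by norm_num)]
        have : (0 : ℝ) ≤ (1 / 2) ^ n := by positivity
        norm_num
        linarith
      rw [b1]
      nlinarith [show (0 : ℝ) < (1 / 2) ^ D0 by positivity]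
    have hterm : ∀ i ∈ range r, (4 : ℝ) ^ (k - (k - (D0 + (i + 1)))) *
        (2 : ℝ) ^ (-(c1 * (((k - (D0 + (i + 1)) : ℕ) : ℝ) - ((k - (a + 1) * (D0 + (i + 1)) : ℕ) : ℝ)))) +
        4 ^ (k - (k - (a + 1) * (D0 + (i + 1)))) * ((A4 * (1 / 2) ^ ((2 * a + 3) * (D0 + i))) ^ 4) ^ (1 / 4 : ℝ) ≤
        (1 + 4 ^ (a + 1) * A4) * (1 / 2) ^ (D0 + i) := by
      intro i hi
      rw [mem_range] at hi
      have b1 := hwin (D0 + (i + 1)) (by omega)
      have b2 := hpos (D0 + (i + 1)) (by omega)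
      have b3 : ((A4 * (1 / 2) ^ ((2 * a + 3) * (D0 + i))) ^ 4) ^ (1 / 4 : ℝ) = A4 * (1 / 2) ^ ((2 * a + 3) * (D0 + i)) := by
        rw [show (1 / 4 : ℝ) = ((4 : ℕ) : ℝ)⁻¹ by norm_num]
        exact Real.pow_rpow_inv_natCast (by positivity) (by norm_num)
      rw [b3, Nat.sub_sub_self b2]
      have b4 : (4 : ℝ) ^ ((a + 1) * (D0 + (i + 1))) * (A4 * (1 / 2) ^ ((2 * a + 3) * (D0 + i))) =
          4 ^ (a + 1) * A4 * (1 / 2) ^ (D0 + i) := by
        have b5 : (2 * a + 3) * (D0 + i) = 2 * ((a + 1) * (D0 + i)) + (D0 + i) := by ring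
        rw [b5, show (a + 1) * (D0 + (i + 1)) = (a + 1) * (D0 + i) + (a + 1) by ring, pow_add (4 : ℝ) ((a + 1) * (D0 + i)),
          pow_add (1 / 2 : ℝ) (2 * ((a + 1) * (D0 + i))), pow_mul (1 / 2 : ℝ) 2]
        have b6 : (4 : ℝ) ^ ((a + 1) * (D0 + i)) * ((1 / 2 : ℝ) ^ 2) ^ ((a + 1) * (D0 + i)) = 1 := by
          rw [← mul_pow]
          norm_num
        linear_combination (4 ^ (a + 1) * A4 * (1 / 2) ^ (D0 + i)) * b6
      rw [b4]
      have b7 : ((1 : ℝ) / 2) ^ (D0 + (i + 1)) ≤ (1 / 2) ^ (D0 + i) :=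
        pow_le_pow_of_le_one (by norm_num) (by norm_num) (by omega)
      nlinarith
    have hS := (Finset.sum_le_sum hterm).trans_eq (Finset.mul_sum _ _ _).symm
    have h0 := hwin (D0 + 0) (by omega)
    have hb : (a + 1) * (D0 + 0) ≤ k := hpos _ (by omega)
    rw [add_zero] at h0 hb
    have hfin : (4 : ℝ) ^ (k - (k - (D0 + 0))) * (2 : ℝ) ^ (-(c1 * (((k - (D0 + 0) : ℕ) : ℝ) - ((k - (a + 1) * (D0 + 0) : ℕ) : ℝ)))) +
        4 ^ (k - (k - (a + 1) * (D0 + 0))) * ε' + ∑ i ∈ range r, ((4 : ℝ) ^ (k - (k - (D0 + (i + 1)))) *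
        (2 : ℝ) ^ (-(c1 * (((k - (D0 + (i + 1)) : ℕ) : ℝ) - ((k - (a + 1) * (D0 + (i + 1)) : ℕ) : ℝ)))) +
        4 ^ (k - (k - (a + 1) * (D0 + (i + 1)))) * ((A4 * (1 / 2) ^ ((2 * a + 3) * (D0 + i))) ^ 4) ^ (1 / 4 : ℝ)) ≤
        (1 / 2) ^ D0 * (3 + 2 * (4 ^ (a + 1) * A4)) + 4 ^ ((a + 1) * D0) * ε' := by
      rw [add_zero, Nat.sub_sub_self hb]
      have b8 := mul_le_mul_of_nonneg_left (hsum r) (show (0 : ℝ) ≤ 1 + 4 ^ (a + 1) * A4 by positivity)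
      nlinarith
    have hεe : K1 * 257 ^ 3 * (4 ^ ((a + 1) * D0) * ε') = e / 6 := by
      rw [hε']
      field_simp
    have hTe : K1 * 257 ^ 3 * ((1 / 2) ^ D0 * (3 + 2 * (4 ^ (a + 1) * A4))) ≤ e / 6 := by
      have b9 : K1 * 257 ^ 3 * ((1 / 2) ^ D0 * (3 + 2 * (4 ^ (a + 1) * A4))) = T / 2 ^ D0 := by
        rw [hT, one_div, inv_pow]
        field_simp
      rw [b9, div_le_iff₀ (by positivity)]
      linarith
    have hX0 : (0 : ℝ) ≤ (1 / 2) ^ D0 * (3 + 2 * (4 ^ (a + 1) * A4)) + 4 ^ ((a + 1) * D0) * ε' := by positivity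
    calc K1 * (1 + UU (2 ^ (k + 8)) / Ub k) ^ 3 * _ ≤ K1 * 257 ^ 3 *
          ((1 / 2) ^ D0 * (3 + 2 * (4 ^ (a + 1) * A4)) + 4 ^ ((a + 1) * D0) * ε') := by
          refine mul_le_mul (mul_le_mul_of_nonneg_left hfac (by linarith)) hfin ?_ (by positivity)
          refine add_nonneg (by positivity) (Finset.sum_nonneg fun i _ => by positivity)
      _ = K1 * 257 ^ 3 * ((1 / 2) ^ D0 * (3 + 2 * (4 ^ (a + 1) * A4))) + K1 * 257 ^ 3 * (4 ^ ((a + 1) * D0) * ε') := by ring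
      _ ≤ e / 6 + e / 6 := add_le_add hTe hεe.le
      _ = e / 3 := by ring
  -- the deep classes
  have hMk : M ≤ k := by nlinarith
  have hDr : D0 + r = M := by omega
  rw [hDr] at hmid
  have hdeepW := tail (c / 3) k M (by positivity) hMk (by
    have b1 : (2 : ℝ) ^ D0 ≤ 2 ^ M := pow_le_pow_right₀ (by norm_num) hMD
    nlinarith)
  obtain ⟨w, hw⟩ : ∃ w : ℝ, w = A * (1 / 2) ^ (Q' * M) * Ub (k - M) * UU (2 ^ (k + 8)) := ⟨_, rfl⟩
  have hw0 : 0 ≤ w := by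
    rw [hw]
    have := Ub_pos (k - M)
    positivity
  have hdn : K2 * 16 ^ k * w ≤ e / 3 := by
    have b1 : Ub (k - M) ≤ 2 ^ k * Ub 0 := by
      refine (Ub_mono (Nat.sub_le k M)).trans ?_
      have := Ub_add 0 k
      rwa [zero_add] at this
    have b2 : UU (2 ^ (k + 8)) ≤ 256 * (2 ^ k * Ub 0) := by
      refine hUN.trans ?_
      have := Ub_add 0 k
      rw [zero_add] at this
      linarith
    have b3 : ((1 : ℝ) / 2) ^ (Q' * M) ≤ 256 ^ a * (1 / 256) ^ k := by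
      have c1 : 8 * k ≤ Q' * M + 8 * a := by
        rw [hQ']
        nlinarith
      have c2 : ((1 : ℝ) / 2) ^ (Q' * M + 8 * a) ≤ (1 / 2) ^ (8 * k) :=
        pow_le_pow_of_le_one (by norm_num) (by norm_num) c1
      rw [pow_add, pow_mul (1 / 2 : ℝ) 8 a, pow_mul (1 / 2 : ℝ) 8 k] at c2
      have c3 : ((1 / 2 : ℝ) ^ 8) ^ a * 256 ^ a = 1 := by
        rw [← mul_pow]
        norm_num
      calc ((1 : ℝ) / 2) ^ (Q' * M) = ((1 : ℝ) / 2) ^ (Q' * M) * (((1 / 2 : ℝ) ^ 8) ^ a * 256 ^ a) := by rw [c3, mul_one]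
        _ = 256 ^ a * (((1 : ℝ) / 2) ^ (Q' * M) * ((1 / 2 : ℝ) ^ 8) ^ a) := by ring
        _ ≤ 256 ^ a * (((1 / 2 : ℝ) ^ 8) ^ k) := by gcongr
        _ = _ := by norm_num
    have b4 : w ≤ A * (256 ^ a * (1 / 256) ^ k) * (2 ^ k * Ub 0) * (256 * (2 ^ k * Ub 0)) := by
      rw [hw]
      gcongr
      · exact (Ub_pos _).le
    have b5 : K2 * 16 ^ k * (A * (256 ^ a * (1 / 256) ^ k) * (2 ^ k * Ub 0) * (256 * (2 ^ k * Ub 0))) = G / 4 ^ k := by
      rw [hG]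
      have c1 : (16 : ℝ) ^ k = 4 ^ k * 4 ^ k := by rw [← mul_pow]; norm_num
      have c2 : ((1 : ℝ) / 256) ^ k = ((4 : ℝ) ^ k)⁻¹ * (4 ^ k)⁻¹ * (4 ^ k)⁻¹ * (4 ^ k)⁻¹ := by
        rw [← mul_inv, ← mul_inv, ← mul_inv, ← mul_pow, ← mul_pow, ← mul_pow, ← inv_pow]
        norm_num
      have c3 : (4 : ℝ) ^ k = 2 ^ k * 2 ^ k := by rw [← mul_pow]; norm_num
      rw [c1, c2]
      field_simp
      rw [c3]
      ring
    have b6 : G / 4 ^ k ≤ e / 3 := by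
      have c1 : (4 : ℝ) ^ k1 ≤ 4 ^ k := pow_le_pow_right₀ (by norm_num) hkk1
      rw [div_le_iff₀ (by positivity)]
      nlinarith
    calc K2 * 16 ^ k * w ≤ K2 * 16 ^ k * (A * (256 ^ a * (1 / 256) ^ k) * (2 ^ k * Ub 0) * (256 * (2 ^ k * Ub 0))) := by
          gcongr
      _ = G / 4 ^ k := b5
      _ ≤ e / 3 := b6
  have hweight : NTm.TL (2 ^ (k - M)) (c / 3 * m k) * ENNReal.ofReal (UU (2 ^ (k + 8))) ≤ ENNReal.ofReal w := by
    refine (mul_le_mul' hdeepW le_rfl).trans (le_of_eq ?_)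
    rw [← ENNReal.ofReal_mul (by have := Ub_pos (k - M); positivity), hw]
  have hhead : SmD DmJ k {g | g ∈ BrR (2 ^ (k + 4)) (2 ^ (k + 8)) ∧ g ∈ PreL (2 ^ (k - M)) (c / 3 * m k)} (e / 3) := by
    refine LQ.SmD_le hdn (hcr k _ w hw0 (fun g hg => BrR_HB hg.1) ?_)
    exact (LQ.gf_Pre_le _ _ _ _).trans hweight
  have htail : SmD DmJ k {g | g ∈ BrR (2 ^ (k + 4)) (2 ^ (k + 8)) ∧ g ∈ SufL (2 ^ (k - M)) (c / 3 * m k)} (e / 3) := by
    refine LQ.SmD_le hdn (hcr k _ w hw0 (fun g hg => BrR_HB hg.1) ?_)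
    exact (gf_Suf _ _ _ _).trans hweight
  have hall := LQ.SmD_union (by positivity) (by positivity) hmid (LQ.SmD_union (by positivity) (by positivity) hhead htail)
  rw [show e / 3 + (e / 3 + e / 3) = e by ring] at hall
  refine QF.SmD_mono ?_ hall
  rintro g ⟨hg, hl⟩
  rcases LQ.long_cov (E := 2 ^ (k - M)) hl with b | b | b
  · left
    refine ⟨hg, fun X hX Z hZ Y hY h1 h2 h3 => ?_⟩
    have := b X Z Y hX hZ hY h1 h2 h3
    linarith
  · right
    left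
    rw [show c * m k / 3 = c / 3 * m k by ring] at b
    exact ⟨hg, b⟩
  · right
    right
    rw [show c * m k / 3 = c / 3 * m k by ring] at b
    exact ⟨hg, b⟩

end NTA

end HexObs
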