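import Pool.Agent.NTA.C1A
import Pool.Agent.NTA.LongC
import Pool.Agent.NTA.LongQ
import Pool.Agent.PW.LowArc2
import Pool.Agent.NTW.KernU

/-!
NTA: **C1**, a proportion of the bridges of the scale k has at least c m k letters, from the lower mean (LowAvg), the arcs
(PW.ArcS) and the norms of the long leaves (helper59).
-/

set_option autoImplicit false

namespace HexObs

namespace NTA

open Finset TS SDN NTW

open scoped ENNReal

/-- the lower mean at the scale k: arcs and bridges of the heights up to 2 ^ (k + 8) -/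
def LowAvg (m : ℕ → ℝ) : Prop := ∃ c : ℝ, 0 < c ∧ ∀ k : ℕ, ENNReal.ofReal (c * Ub k * m k) ≤
  2 ^ (k + 5) * ∑ T ∈ Icc (2 ^ (k + 5)) (2 ^ (k + 8)), PW.ArcS T +
    ∑ T ∈ Icc 1 (2 ^ (k + 8)), ∑' t : Brd T, (t.1.length : ℝ≥0∞) * wE t.1

namespace C1

/-- weight of a pair (height, bridge) -/
noncomputable def bw (N : ℕ) (x : ℕ × List Bool) : ℝ≥0∞ :=
  open Classical in if x.1 ∈ range (N + 1) ∧ x.2 ∈ Brd x.1 then wE x.2 else 0

lemma bw_sum (N : ℕ) (f : List Bool → ℝ≥0∞) :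
    ∑ h ∈ range (N + 1), Rec8.sw (Brd h) f = ∑' x : ℕ × List Bool, bw N x * f x.2 := by
  classical
  rw [ENNReal.tsum_prod', tsum_eq_sum (s := range (N + 1))]
  · refine Finset.sum_congr rfl fun h hh => ?_
    rw [Rec8.sw_ind]
    refine tsum_congr fun t => ?_
    unfold bw
    by_cases ht : t ∈ Brd h
    · rw [if_pos ht, if_pos ⟨hh, ht⟩]
    · rw [if_neg ht, if_neg (fun h => ht h.2), zero_mul]
  · intro h hh
    refine ENNReal.tsum_eq_zero.2 fun t => ?_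
    unfold bw
    rw [if_neg (fun h => hh h.1), zero_mul]

lemma bw_tail (N : ℕ) (y : ℝ) : ∑' x : ℕ × List Bool, (if y ≤ (x.2.length : ℝ) then bw N x else 0) = NTm.TL N y := by
  classical
  have h1 := bw_sum N (fun t => if y ≤ (t.length : ℝ) then 1 else 0)
  have h2 : ∀ x : ℕ × List Bool, (if y ≤ (x.2.length : ℝ) then bw N x else 0) =
      bw N x * (if y ≤ (x.2.length : ℝ) then 1 else 0) := by
    intro x
    split_ifs
    · rw [mul_one]
    · rw [mul_zero]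
  simp only [h2]
  rw [← h1]
  unfold NTm.TL
  refine Finset.sum_congr rfl fun h _ => ?_
  rw [← Rec8.sw_and (Brd h) (fun t => y ≤ (t.length : ℝ)) (fun _ => 1)]
  exact Rec8.sw_one _

lemma bw_mass (N : ℕ) : ∑' x : ℕ × List Bool, bw N x = ENNReal.ofReal (UU N) := by
  have h1 := bw_sum N (fun _ => 1)
  simp only [mul_one] at h1
  rw [← h1, T2.Amp.ofReal_UU]
  refine Finset.sum_congr rfl fun h _ => ?_
  rw [Rec8.sw_one, gf_Brd]

lemma MUp_iter {m : ℕ → ℝ} {Cu : ℝ} (hC : 1 ≤ Cu) (h : ∀ k, m (k + 1) ≤ Cu * m k) (k j : ℕ) : m (k + j) ≤ Cu ^ j * m k := by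
  induction j with
  | zero => simp
  | succ j ih =>
    calc m (k + (j + 1)) ≤ Cu * m (k + j) := h (k + j)
      _ ≤ Cu * (Cu ^ j * m k) := mul_le_mul_of_nonneg_left ih (by linarith)
      _ = _ := by ring

lemma TL_le_UU (N : ℕ) (y : ℝ) : NTm.TL N y ≤ ENNReal.ofReal (UU N) := by
  rw [← bw_tail, ← bw_mass]
  refine ENNReal.tsum_le_tsum fun x => ?_
  split_ifs
  · exact le_rfl
  · exact zero_le

/-- the tail of the bridges of height up to 2 ^ (k + 8) at the level lam m k -/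
lemma TL_tail {m : ℕ → ℝ} (hm : MLow m) (hu : MUp m) (hB : TB m) (Q : ℕ) : ∃ A : ℝ, 0 < A ∧ ∀ (k : ℕ) (lam : ℝ),
    1 ≤ lam → NTm.TL (2 ^ (k + 8)) (lam * m k) ≤ ENNReal.ofReal (A / lam ^ Q * Ub k) := by
  obtain ⟨Cu, hCu, hup⟩ := hu
  obtain ⟨A0, hA0, hB0⟩ := hB Q
  have hs : 1 ≤ Cu ^ 8 := one_le_pow₀ hCu
  refine ⟨256 * (Cu ^ 8) ^ Q * (A0 + 1), by positivity, fun k lam hlam => ?_⟩
  have hUk := Ub_pos k
  have hmk := hm.pos k
  have h1 := MUp_iter hCu hup k 8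
  have h2 := LQ.UU8 k
  have hl0 : 0 < lam := by linarith
  have hs0 : 0 < Cu ^ 8 := by linarith
  rcases le_or_gt (Cu ^ 8) lam with h3 | h3
  · have h4 : 1 ≤ lam / Cu ^ 8 := (one_le_div hs0).2 h3
    have h5 : lam / Cu ^ 8 * m (k + 8) ≤ lam * m k := by
      rw [div_mul_eq_mul_div, div_le_iff₀ hs0]
      calc lam * m (k + 8) ≤ lam * (Cu ^ 8 * m k) := mul_le_mul_of_nonneg_left h1 hl0.le
        _ = _ := by ring
    refine (LQ.TL_anti h5).trans ((hB0 (k + 8) _ h4).trans (ENNReal.ofReal_le_ofReal ?_))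
    rw [div_pow, div_div_eq_mul_div]
    calc A0 * (Cu ^ 8) ^ Q / lam ^ Q * Ub (k + 8) ≤ A0 * (Cu ^ 8) ^ Q / lam ^ Q * (256 * Ub k) :=
          mul_le_mul_of_nonneg_left h2 (by positivity)
      _ = 256 * (Cu ^ 8) ^ Q * A0 / lam ^ Q * Ub k := by ring
      _ ≤ _ := by
          refine mul_le_mul_of_nonneg_right ?_ hUk.le
          refine div_le_div_of_nonneg_right ?_ (by positivity)
          exact mul_le_mul_of_nonneg_left (by linarith) (by positivity)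
  · refine (TL_le_UU _ _).trans (ENNReal.ofReal_le_ofReal (h2.trans ?_))
    refine mul_le_mul_of_nonneg_right ?_ hUk.le
    rw [le_div_iff₀ (by positivity)]
    have h6 : lam ^ Q ≤ (Cu ^ 8) ^ Q := pow_le_pow_left₀ hl0.le h3.le Q
    calc 256 * lam ^ Q ≤ 256 * (Cu ^ 8) ^ Q := mul_le_mul_of_nonneg_left h6 (by norm_num)
      _ = 256 * (Cu ^ 8) ^ Q * 1 := by ring
      _ ≤ _ := mul_le_mul_of_nonneg_left (by linarith) (by positivity)

/-- crude bound, first leaf -/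
lemma crude1 {E N : ℕ} (hE : 1 ≤ E) (y : ℝ) :
    ∑' x : ℕ × (List Bool × List Bool), (if y ≤ (x.2.1.length : ℝ) then pw E N x else 0) ≤ NTm.TL N y := by
  classical
  have h1 := pw_first E N {g : List Bool | y ≤ (g.length : ℝ)}
  refine le_trans (le_of_eq h1) ?_
  unfold NTm.TL
  calc ∑ T ∈ Icc E N, Rec8.sw {g | g ∈ Brd T ∧ g ∈ {g : List Bool | y ≤ (g.length : ℝ)}}
        (fun g => Rec8.sw {g' | g' ∈ Brd T ∧ LFold g g'} (fun _ => 1))
      ≤ ∑ T ∈ Icc E N, gf {Z | Z ∈ Brd T ∧ y ≤ (Z.length : ℝ)} := by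
        refine Finset.sum_le_sum fun T hT => ?_
        rw [mem_Icc] at hT
        rw [← Rec8.sw_one]
        refine Rec8.sw_mono (fun g hg => hg) fun g _ => ?_
        calc Rec8.sw {g' | g' ∈ Brd T ∧ LFold g g'} (fun _ => 1) ≤ Rec8.sw (Brd T) (fun _ => 1) :=
              Rec8.sw_mono (fun g' hg' => hg'.1) fun _ _ => le_rfl
          _ = BT T := by rw [Rec8.sw_one, gf_Brd]
          _ ≤ 1 := BT_le_one (by omega)
    _ ≤ _ := by
        refine Finset.sum_le_sum_of_subset ?_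
        intro T hT
        rw [mem_Icc] at hT
        rw [mem_range]
        omega

/-- crude bound, second leaf -/
lemma crude2 {E N : ℕ} (hE : 1 ≤ E) (y : ℝ) :
    ∑' x : ℕ × (List Bool × List Bool), (if y ≤ (x.2.2.length : ℝ) then pw E N x else 0) ≤ NTm.TL N y := by
  classical
  have h1 := pw_second E N {g : List Bool | y ≤ (g.length : ℝ)}
  refine le_trans (le_of_eq h1) ?_
  unfold NTm.TL
  calc ∑ T ∈ Icc E N, Rec8.sw (Brd T) (fun g => Rec8.sw {g' | g' ∈ Brd T ∧ g' ∈ {g : List Bool | y ≤ (g.length : ℝ)} ∧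
        LFold g g'} (fun _ => 1))
      ≤ ∑ T ∈ Icc E N, gf {Z | Z ∈ Brd T ∧ y ≤ (Z.length : ℝ)} := by
        refine Finset.sum_le_sum fun T hT => ?_
        rw [mem_Icc] at hT
        calc _ ≤ Rec8.sw (Brd T) (fun _ => gf {Z | Z ∈ Brd T ∧ y ≤ (Z.length : ℝ)}) := by
              refine Rec8.sw_mono' fun g _ => ?_
              rw [← Rec8.sw_one]
              exact Rec8.sw_mono (fun g' hg' => ⟨hg'.1, hg'.2.1⟩) fun _ _ => le_rfl
          _ = BT T * gf {Z | Z ∈ Brd T ∧ y ≤ (Z.length : ℝ)} := by rw [NX_const, gf_Brd]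
          _ ≤ 1 * gf {Z | Z ∈ Brd T ∧ y ≤ (Z.length : ℝ)} := mul_le_mul' (BT_le_one (by omega)) le_rfl
          _ = _ := one_mul _
    _ ≤ _ := by
        refine Finset.sum_le_sum_of_subset ?_
        intro T hT
        rw [mem_Icc] at hT
        rw [mem_range]
        omega

/-- 2 ^ (3 k / 4) is at most C Ub k -/
lemma Ub_low34 : ∃ C : ℝ, 1 ≤ C ∧ ∀ k : ℕ, (2 : ℝ) ^ k * (2 : ℝ) ^ (-((k : ℝ) / 4)) ≤ C * Ub k := by
  obtain ⟨C, hC, h⟩ := PW.AFS.Ub_inv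
  refine ⟨C, hC, fun k => ?_⟩
  have h1 := h k
  have hU := Ub_pos k
  rw [div_le_iff₀ hU] at h1
  have h2 : (2 : ℝ) ^ k * (2 : ℝ) ^ (-((k : ℝ) / 4)) = (2 : ℝ) ^ (3 / 4 * (k : ℝ)) := by
    rw [← Real.rpow_natCast, ← Real.rpow_add (by norm_num)]
    congr 1
    ring
  have h3 : (2 : ℝ) ^ (3 / 4 * (k : ℝ)) * (2 : ℝ) ^ (-(3 / 4 * (k : ℝ))) = 1 := by
    rw [← Real.rpow_add (by norm_num), add_neg_cancel, Real.rpow_zero]
  rw [h2]
  have h4 : (0 : ℝ) < (2 : ℝ) ^ (3 / 4 * (k : ℝ)) := by positivity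
  calc (2 : ℝ) ^ (3 / 4 * (k : ℝ)) = (2 : ℝ) ^ (3 / 4 * (k : ℝ)) * 1 := (mul_one _).symm
    _ ≤ (2 : ℝ) ^ (3 / 4 * (k : ℝ)) * (C * (2 : ℝ) ^ (-(3 / 4 * (k : ℝ))) * Ub k) := mul_le_mul_of_nonneg_left h1 h4.le
    _ = C * Ub k * ((2 : ℝ) ^ (3 / 4 * (k : ℝ)) * (2 : ℝ) ^ (-(3 / 4 * (k : ℝ)))) := by ring
    _ = _ := by rw [h3, mul_one]

/-- Ub k is at most C 2 ^ (3 k / 4) -/
lemma Ub_up34 : ∃ C : ℝ, 1 ≤ C ∧ ∀ k : ℕ, Ub k ≤ C * ((2 : ℝ) ^ k * (2 : ℝ) ^ (-((k : ℝ) / 4))) := by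
  obtain ⟨C, hC, hu⟩ := T2.uu_le_quarter
  have hW : 0 < 6 + CW := by
    have := Num2Aux.CW_pos
    linarith
  refine ⟨(6 + CW) * C + 1, by nlinarith, fun k => ?_⟩
  have h1 := UU_le_mul (T := 2 ^ k) Nat.one_le_two_pow
  have h2 := hu (2 ^ k) Nat.one_le_two_pow
  have h3 : ((2 ^ k : ℕ) : ℝ) ^ (-(1 / 4 : ℝ)) = (2 : ℝ) ^ (-((k : ℝ) / 4)) := by
    push_cast
    rw [← Real.rpow_natCast, ← Real.rpow_mul (by norm_num)]
    congr 1
    ring
  rw [h3] at h2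
  push_cast at h1
  have h4 : (0 : ℝ) < (2 : ℝ) ^ k * (2 : ℝ) ^ (-((k : ℝ) / 4)) := by positivity
  calc Ub k ≤ (6 + CW) * (2 ^ k * uu (2 ^ k)) := h1
    _ ≤ (6 + CW) * (2 ^ k * (C * (2 : ℝ) ^ (-((k : ℝ) / 4)))) := by gcongr
    _ = (6 + CW) * C * ((2 : ℝ) ^ k * (2 : ℝ) ^ (-((k : ℝ) / 4))) := by ring
    _ ≤ _ := mul_le_mul_of_nonneg_right (by linarith) h4.le

/-- a level for lam -/
lemma lev8 {lam : ℝ} (h : 1 ≤ lam) : ∃ i : ℕ, lam ^ 8 ≤ 2 ^ i ∧ (2 : ℝ) ^ i ≤ 2 * lam ^ 8 := by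
  obtain ⟨n, h1, h2⟩ := exists_nat_pow_near (one_le_pow₀ h (n := 8)) one_lt_two
  exact ⟨n + 1, h2.le, by rw [pow_succ]; linarith⟩

lemma lev_quarter {lam : ℝ} (h : 1 ≤ lam) {i : ℕ} (h1 : lam ^ 8 ≤ 2 ^ i) (h2 : (2 : ℝ) ^ i ≤ 2 * lam ^ 8) :
    (2 : ℝ) ^ ((i : ℝ) / 4) ≤ 2 * lam ^ 2 ∧ (2 : ℝ) ^ (-((i : ℝ) / 4)) ≤ 1 / lam ^ 2 := by
  have hl : 0 < lam := by linarith
  have e1 : (2 : ℝ) ^ ((i : ℝ) / 4) = ((2 : ℝ) ^ i) ^ (1 / 4 : ℝ) := by
    rw [← Real.rpow_natCast, ← Real.rpow_mul (by norm_num)]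
    congr 1
    ring
  have e2 : ((2 * lam ^ 2) ^ 4) ^ (1 / 4 : ℝ) = 2 * lam ^ 2 := by
    rw [← Real.rpow_natCast (2 * lam ^ 2) 4, ← Real.rpow_mul (by positivity)]
    norm_num
  have e3 : ((lam ^ 2) ^ 4) ^ (1 / 4 : ℝ) = lam ^ 2 := by
    rw [← Real.rpow_natCast (lam ^ 2) 4, ← Real.rpow_mul (by positivity)]
    norm_num
  constructor
  · rw [e1, ← e2]
    refine Real.rpow_le_rpow (by positivity) (h2.trans ?_) (by norm_num)
    have : (2 * lam ^ 2) ^ 4 = 16 * lam ^ 8 := by ring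
    rw [this]
    nlinarith [pow_pos hl 8]
  · rw [Real.rpow_neg (by norm_num), ← one_div]
    refine one_div_le_one_div_of_le (by positivity) ?_
    rw [e1, ← e3]
    refine Real.rpow_le_rpow (by positivity) ?_ (by norm_num)
    have : (lam ^ 2) ^ 4 = lam ^ 8 := by ring
    rw [this]
    exact h1

lemma pw_class1 {k : ℕ} (y : ℝ) (x : ℕ × (List Bool × List Bool)) [Decidable (x.2.1 ∈ {g |
    g ∈ BrR (2 ^ (k + 4)) (2 ^ (k + 8)) ∧ y ≤ (g.length : ℝ)})] :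
    (if y ≤ (x.2.1.length : ℝ) then pw (2 ^ (k + 5)) (2 ^ (k + 8)) x else 0) ≤
      (if x.2.1 ∈ {g | g ∈ BrR (2 ^ (k + 4)) (2 ^ (k + 8)) ∧ y ≤ (g.length : ℝ)} then
        pw (2 ^ (k + 5)) (2 ^ (k + 8)) x else 0) := by
  by_cases hy : y ≤ (x.2.1.length : ℝ)
  · rw [if_pos hy]
    by_cases hx : (2 ^ (k + 5) ≤ x.1 ∧ x.1 ≤ 2 ^ (k + 8)) ∧ x.2.1 ∈ Brd x.1 ∧ x.2.2 ∈ Brd x.1 ∧ LFold x.2.1 x.2.2
    · rw [if_pos]
      refine ⟨⟨x.1, ?_, hx.1.2, hx.2.1⟩, hy⟩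
      exact (Nat.pow_le_pow_right (by norm_num) (by omega)).trans hx.1.1
    · unfold pw
      rw [if_neg hx]
      exact zero_le
  · rw [if_neg hy]
    exact zero_le

lemma pw_class2 {k : ℕ} (y : ℝ) (x : ℕ × (List Bool × List Bool)) [Decidable (x.2.2 ∈ {g |
    g ∈ BrR (2 ^ (k + 4)) (2 ^ (k + 8)) ∧ y ≤ (g.length : ℝ)})] :
    (if y ≤ (x.2.2.length : ℝ) then pw (2 ^ (k + 5)) (2 ^ (k + 8)) x else 0) ≤
      (if x.2.2 ∈ {g | g ∈ BrR (2 ^ (k + 4)) (2 ^ (k + 8)) ∧ y ≤ (g.length : ℝ)} then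
        pw (2 ^ (k + 5)) (2 ^ (k + 8)) x else 0) := by
  by_cases hy : y ≤ (x.2.2.length : ℝ)
  · rw [if_pos hy]
    by_cases hx : (2 ^ (k + 5) ≤ x.1 ∧ x.1 ≤ 2 ^ (k + 8)) ∧ x.2.1 ∈ Brd x.1 ∧ x.2.2 ∈ Brd x.1 ∧ LFold x.2.1 x.2.2
    · rw [if_pos]
      refine ⟨⟨x.1, ?_, hx.1.2, hx.2.2.1⟩, hy⟩
      exact (Nat.pow_le_pow_right (by norm_num) (by omega)).trans hx.1.1
    · unfold pw
      rw [if_neg hx]
      exact zero_le
  · rw [if_neg hy]
    exact zero_le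

/-- arcs with a leaf of at least y letters, from the norm of the class: both leaves -/
lemma arc_cls : ∃ K : ℝ, 1 ≤ K ∧ ∀ (k i : ℕ) (y e : ℝ), i ≤ k → 0 ≤ e →
    SmD DmJ k {g | g ∈ BrR (2 ^ (k + 4)) (2 ^ (k + 8)) ∧ y ≤ (g.length : ℝ)} e →
    (∑' x : ℕ × (List Bool × List Bool), (if y ≤ (x.2.1.length : ℝ) then pw (2 ^ (k + 5)) (2 ^ (k + 8)) x else 0) ≤
      ENNReal.ofReal (K * (2 : ℝ) ^ (-((k : ℝ) / 4)) * ((2 : ℝ) ^ ((i : ℝ) / 4) * e + (2 : ℝ) ^ (-((i : ℝ) / 4))))) ∧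
    ∑' x : ℕ × (List Bool × List Bool), (if y ≤ (x.2.2.length : ℝ) then pw (2 ^ (k + 5)) (2 ^ (k + 8)) x else 0) ≤
      ENNReal.ofReal (K * (2 : ℝ) ^ (-((k : ℝ) / 4)) * ((2 : ℝ) ^ ((i : ℝ) / 4) * e + (2 : ℝ) ^ (-((i : ℝ) / 4)))) := by
  classical
  obtain ⟨C, δ, h⟩ := inp_exists
  obtain ⟨K1, hK1, h1⟩ := PW.arc_first h (ssA h) (ssThree h)
  obtain ⟨K2, hK2, h2⟩ := PW.arc_second h (ssA h) (ssThree h)
  refine ⟨(K1 + K2) * 256 ^ 2, by nlinarith, fun k i y e hik he hS => ?_⟩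
  have hU := Ub_pos k
  have hUN := Num2Aux.UU_pos (2 ^ (k + 8))
  have hr : UU (2 ^ (k + 8)) / Ub k ≤ 256 := (div_le_iff₀ hU).2 (LQ.UU8 k)
  have hr2 : (UU (2 ^ (k + 8)) / Ub k) ^ 2 ≤ 256 ^ 2 := pow_le_pow_left₀ (by positivity) hr 2
  have hp : 2 ^ (k + 5) ≤ 2 ^ (k + 8) := Nat.pow_le_pow_right (by norm_num) (by omega)
  have num : ∀ K0 : ℝ, 0 ≤ K0 → K0 ≤ K1 + K2 → K0 * (UU (2 ^ (k + 8)) / Ub k) ^ 2 * (2 : ℝ) ^ (-((k : ℝ) / 4)) *
      ((2 : ℝ) ^ ((i : ℝ) / 4) * e + (2 : ℝ) ^ (-((i : ℝ) / 4))) ≤ (K1 + K2) * 256 ^ 2 * (2 : ℝ) ^ (-((k : ℝ) / 4)) *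
      ((2 : ℝ) ^ ((i : ℝ) / 4) * e + (2 : ℝ) ^ (-((i : ℝ) / 4))) := by
    intro K0 hK0 hK0'
    refine mul_le_mul_of_nonneg_right (mul_le_mul_of_nonneg_right ?_ (by positivity)) (by positivity)
    exact mul_le_mul hK0' hr2 (by positivity) (by linarith)
  constructor
  · refine (ENNReal.tsum_le_tsum fun x => pw_class1 y x).trans ?_
    rw [pw_first]
    exact (h1 k i (2 ^ (k + 8)) _ e hik hp he hS).trans (ENNReal.ofReal_le_ofReal (num K1 (by linarith) (by linarith)))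
  · refine (ENNReal.tsum_le_tsum fun x => pw_class2 y x).trans ?_
    rw [pw_second]
    exact (h2 k i (2 ^ (k + 8)) _ e hik hp he hS).trans (ENNReal.ofReal_le_ofReal (num K2 (by linarith) (by linarith)))

/-- the tails of the two leaves of an arc -/
lemma arc_tail {m : ℕ → ℝ} (hm : MLow m) (hu : MUp m) (hB : TB m) (hQ : LongQ m) : ∃ R : ℝ, 0 < R ∧
    ∀ (k : ℕ) (lam : ℝ), 1 ≤ lam →
    (∑' x : ℕ × (List Bool × List Bool), (if lam * m k ≤ (x.2.1.length : ℝ) then pw (2 ^ (k + 5)) (2 ^ (k + 8)) x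
      else 0) ≤ ENNReal.ofReal (R * (2 : ℝ) ^ (-((k : ℝ) / 4)) / lam ^ 2)) ∧
    ∑' x : ℕ × (List Bool × List Bool), (if lam * m k ≤ (x.2.2.length : ℝ) then pw (2 ^ (k + 5)) (2 ^ (k + 8)) x
      else 0) ≤ ENNReal.ofReal (R * (2 : ℝ) ^ (-((k : ℝ) / 4)) / lam ^ 2) := by
  obtain ⟨K, hK, h1⟩ := arc_cls
  obtain ⟨A, hA, h2⟩ := hQ 6
  obtain ⟨B, hB0, h3⟩ := TL_tail hm hu hB 10
  obtain ⟨C, hC, h4⟩ := Ub_up34
  refine ⟨K * (2 * A + 1) + B * C, by positivity, fun k lam hlam => ?_⟩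
  have hl : 0 < lam := by linarith
  obtain ⟨i, hi1, hi2⟩ := lev8 hlam
  obtain ⟨q1, q2⟩ := lev_quarter hlam hi1 hi2
  obtain ⟨p, hp⟩ : ∃ p, p = (2 : ℝ) ^ (-((k : ℝ) / 4)) := ⟨_, rfl⟩
  have hp0 : 0 < p := by rw [hp]; positivity
  have hl2 : (1 : ℝ) ≤ lam ^ 2 := one_le_pow₀ hlam
  rcases le_or_gt i k with hik | hik
  · obtain ⟨r1, r2⟩ := h1 k i (lam * m k) (A / lam ^ 6) hik (by positivity) (h2 k lam hlam)
    have num : K * (2 : ℝ) ^ (-((k : ℝ) / 4)) * ((2 : ℝ) ^ ((i : ℝ) / 4) * (A / lam ^ 6) + (2 : ℝ) ^ (-((i : ℝ) / 4))) ≤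
        (K * (2 * A + 1) + B * C) * (2 : ℝ) ^ (-((k : ℝ) / 4)) / lam ^ 2 := by
      rw [← hp]
      have e1 : (2 : ℝ) ^ ((i : ℝ) / 4) * (A / lam ^ 6) ≤ 2 * A / lam ^ 2 := by
        calc (2 : ℝ) ^ ((i : ℝ) / 4) * (A / lam ^ 6) ≤ 2 * lam ^ 2 * (A / lam ^ 6) :=
              mul_le_mul_of_nonneg_right q1 (by positivity)
          _ = 2 * A / lam ^ 2 / lam ^ 2 := by field_simp
          _ ≤ 2 * A / lam ^ 2 := div_le_self (by positivity) hl2
      calc K * p * ((2 : ℝ) ^ ((i : ℝ) / 4) * (A / lam ^ 6) + (2 : ℝ) ^ (-((i : ℝ) / 4)))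
          ≤ K * p * (2 * A / lam ^ 2 + 1 / lam ^ 2) := mul_le_mul_of_nonneg_left (add_le_add e1 q2) (by positivity)
        _ = K * (2 * A + 1) * p / lam ^ 2 := by ring
        _ ≤ _ := by
            refine div_le_div_of_nonneg_right ?_ (by positivity)
            refine mul_le_mul_of_nonneg_right ?_ hp0.le
            have : 0 ≤ B * C := by positivity
            linarith
    exact ⟨r1.trans (ENNReal.ofReal_le_ofReal num), r2.trans (ENNReal.ofReal_le_ofReal num)⟩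
  · have h5 := h3 k lam hlam
    have h6 := h4 k
    rw [← hp] at h6
    have h7 : (2 : ℝ) ^ k ≤ lam ^ 8 := by
      have : (2 : ℝ) ^ (k + 1) ≤ 2 ^ i := pow_le_pow_right₀ (by norm_num) (by omega)
      rw [pow_succ] at this
      linarith
    have num : B / lam ^ 10 * Ub k ≤ (K * (2 * A + 1) + B * C) * (2 : ℝ) ^ (-((k : ℝ) / 4)) / lam ^ 2 := by
      rw [← hp]
      calc B / lam ^ 10 * Ub k ≤ B / lam ^ 10 * (C * (2 ^ k * p)) := mul_le_mul_of_nonneg_left h6 (by positivity)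
        _ ≤ B / lam ^ 10 * (C * (lam ^ 8 * p)) := by gcongr
        _ = B * C * p / lam ^ 2 := by field_simp
        _ ≤ _ := by
            refine div_le_div_of_nonneg_right ?_ (by positivity)
            refine mul_le_mul_of_nonneg_right ?_ hp0.le
            have : 0 ≤ K * (2 * A + 1) := by positivity
            linarith
    exact ⟨(crude1 Nat.one_le_two_pow _).trans (h5.trans (ENNReal.ofReal_le_ofReal num)),
      (crude2 Nat.one_le_two_pow _).trans (h5.trans (ENNReal.ofReal_le_ofReal num))⟩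

/-- the mass of the arcs -/
lemma arc_mass : ∃ K : ℝ, 1 ≤ K ∧ ∀ k : ℕ, ∑' x : ℕ × (List Bool × List Bool), pw (2 ^ (k + 5)) (2 ^ (k + 8)) x ≤
    ENNReal.ofReal (K * (2 : ℝ) ^ (-((k : ℝ) / 4))) := by
  obtain ⟨C, δ, h⟩ := inp_exists
  obtain ⟨K1, hK1, h1⟩ := PW.arc_all h (ssA h) (ssThree h)
  refine ⟨K1 * 256 ^ 2, by nlinarith, fun k => ?_⟩
  have hU := Ub_pos k
  have hUN := Num2Aux.UU_pos (2 ^ (k + 8))
  have hr : UU (2 ^ (k + 8)) / Ub k ≤ 256 := (div_le_iff₀ hU).2 (LQ.UU8 k)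
  have hr2 : (UU (2 ^ (k + 8)) / Ub k) ^ 2 ≤ 256 ^ 2 := pow_le_pow_left₀ (by positivity) hr 2
  have hp : 2 ^ (k + 5) ≤ 2 ^ (k + 8) := Nat.pow_le_pow_right (by norm_num) (by omega)
  have h2 := pw_sum (2 ^ (k + 5)) (2 ^ (k + 8)) (fun _ _ => 1)
  simp only [mul_one] at h2
  rw [← h2]
  refine (h1 k (2 ^ (k + 8)) hp).trans (ENNReal.ofReal_le_ofReal ?_)
  exact mul_le_mul_of_nonneg_right (mul_le_mul_of_nonneg_left hr2 (by linarith)) (by positivity)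

/-- the two halves of the lengths of the arcs -/
lemma arcS_sum (E N : ℕ) : ∑ T ∈ Icc E N, PW.ArcS T =
    ∑' x : ℕ × (List Bool × List Bool), pw E N x * (x.2.1.length : ℝ≥0∞) +
      ∑' x : ℕ × (List Bool × List Bool), pw E N x * (x.2.2.length : ℝ≥0∞) := by
  have h1 := pw_sum E N (fun g g' => ((g.length + g'.length : ℕ) : ℝ≥0∞))
  have h2 : ∑ T ∈ Icc E N, PW.ArcS T = ∑ T ∈ Icc E N, Rec8.sw (Brd T) (fun g => Rec8.sw {g' | g' ∈ Brd T ∧ LFold g g'}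
      (fun g' => ((g.length + g'.length : ℕ) : ℝ≥0∞))) := rfl
  rw [h2, h1, ← ENNReal.tsum_add]
  refine tsum_congr fun x => ?_
  push_cast
  ring

lemma brd_sum (N : ℕ) : ∑ T ∈ Icc 1 N, ∑' t : Brd T, (t.1.length : ℝ≥0∞) * wE t.1 ≤
    ∑' x : ℕ × List Bool, bw N x * (x.2.length : ℝ≥0∞) := by
  rw [← bw_sum N (fun t => (t.length : ℝ≥0∞))]
  refine le_trans ?_ (Finset.sum_le_sum_of_subset (s := Icc 1 N) ?_)
  · refine Finset.sum_le_sum fun T _ => ?_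
    refine ENNReal.tsum_le_tsum fun t => ?_
    rw [mul_comm]
  · intro T hT
    rw [mem_Icc] at hT
    rw [mem_range]
    omega

lemma Brd1_len {Z : List Bool} (h : Z ∈ Brd 1) : 1 ≤ Z.length := by
  rcases Nat.eq_zero_or_pos Z.length with h0 | h0
  · rw [List.length_eq_zero_iff] at h0
    subst h0
    have := Brd_height h nil_mem_Brd
    omega
  · exact h0

end C1

open C1 in
/-- the large scales -/
lemma c1_large {m : ℕ → ℝ} (hm : MLow m) (hu : MUp m) (hB : TB m) (hQ : LongQ m) (hC : LongC m) (hL : LowAvg m) :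
    ∃ (c ε : ℝ) (n : ℕ), 0 < c ∧ 0 < ε ∧ ∀ k : ℕ, n ≤ k →
      ENNReal.ofReal (ε * Ub k) ≤ NTm.TL (2 ^ (k + 8)) (c * m k) := by
  obtain ⟨c, hc, hlow⟩ := hL
  obtain ⟨K0, hK0, hmass⟩ := arc_mass
  obtain ⟨R, hR, htail⟩ := arc_tail hm hu hB hQ
  obtain ⟨K, hK, hcls⟩ := arc_cls
  obtain ⟨A2, hA2, hTL⟩ := TL_tail hm hu hB 2
  obtain ⟨C3, hC3, h34⟩ := Ub_low34
  obtain ⟨a1, ha1⟩ : ∃ a1, a1 = 64 * C3 * K0 + 256 := ⟨_, rfl⟩
  have ha10 : 0 < a1 := by rw [ha1]; positivity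
  obtain ⟨c1, hc1⟩ : ∃ c1, c1 = c / (4 * a1) := ⟨_, rfl⟩
  have hc10 : 0 < c1 := by rw [hc1]; positivity
  obtain ⟨Lam, hLam⟩ : ∃ Lam, Lam = 1 + 4 * (256 * C3 * R + 4 * A2) / c := ⟨_, rfl⟩
  have hLam1 : 1 ≤ Lam := by
    rw [hLam]
    have : 0 ≤ 4 * (256 * C3 * R + 4 * A2) / c := by positivity
    linarith
  have hLam0 : 0 < Lam := by linarith
  have hLamc : (256 * C3 * R + 4 * A2) / Lam ≤ c / 4 := by
    rw [div_le_iff₀ hLam0, hLam]
    have : c / 4 * (1 + 4 * (256 * C3 * R + 4 * A2) / c) = c / 4 + (256 * C3 * R + 4 * A2) := by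
      field_simp
    rw [this]
    linarith
  obtain ⟨η, hη⟩ : ∃ η, η = c / (8 * (64 * C3 * K * Lam)) := ⟨_, rfl⟩
  have hη0 : 0 < η := by rw [hη]; positivity
  obtain ⟨n, hn⟩ := exists_pow_lt_of_lt_one (show 0 < η / 2 by positivity) (show (1 / 2 : ℝ) < 1 by norm_num)
  obtain ⟨e, he⟩ : ∃ e, e = η / (2 * 2 ^ n) := ⟨_, rfl⟩
  have he0 : 0 < e := by rw [he]; positivity
  obtain ⟨c', ε', hc', hε', k0, hsm⟩ := hC e c1 he0 hc10
  refine ⟨min c1 c', min (c / (8 * Lam)) ε', max k0 (4 * n), lt_min hc10 hc', lt_min (by positivity) hε',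
    fun k hk => ?_⟩
  by_contra hcon
  rw [not_le] at hcon
  have hUk := Ub_pos k
  have hM := hm.pos k
  obtain ⟨M, hMe⟩ : ∃ M, M = m k := ⟨_, rfl⟩
  obtain ⟨p, hp⟩ : ∃ p, p = (2 : ℝ) ^ (-((k : ℝ) / 4)) := ⟨_, rfl⟩
  have hp0 : 0 < p := by rw [hp]; positivity
  rw [← hMe] at hM hcon
  have q34 := h34 k
  rw [← hp] at q34
  -- the tails at the two thresholds
  have t1 : NTm.TL (2 ^ (k + 8)) (c' * m k) ≤ ENNReal.ofReal (ε' * Ub k) := by
    rw [← hMe]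
    refine (LQ.TL_anti (mul_le_mul_of_nonneg_right (min_le_right c1 c') hM.le)).trans (hcon.le.trans ?_)
    exact ENNReal.ofReal_le_ofReal (mul_le_mul_of_nonneg_right (min_le_right _ _) hUk.le)
  have t2 : NTm.TL (2 ^ (k + 8)) (c1 * M) ≤ ENNReal.ofReal (c / (8 * Lam) * Ub k) := by
    refine (LQ.TL_anti (mul_le_mul_of_nonneg_right (min_le_left c1 c') hM.le)).trans (hcon.le.trans ?_)
    exact ENNReal.ofReal_le_ofReal (mul_le_mul_of_nonneg_right (min_le_left _ _) hUk.le)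
  have t3 := hsm k ((le_max_left _ _).trans hk) t1
  have hik : 4 * n ≤ k := (le_max_right _ _).trans hk
  obtain ⟨r1, r2⟩ := hcls k (4 * n) (c1 * m k) e hik he0.le t3
  have e1 : (2 : ℝ) ^ (((4 * n : ℕ) : ℝ) / 4) = 2 ^ n := by
    rw [← Real.rpow_natCast]
    congr 1
    push_cast
    ring
  have e2 : (2 : ℝ) ^ (-(((4 * n : ℕ) : ℝ) / 4)) = (1 / 2) ^ n := by
    rw [Real.rpow_neg (by norm_num), e1, one_div, inv_pow]
  have e3 : (2 : ℝ) ^ (((4 * n : ℕ) : ℝ) / 4) * e + (2 : ℝ) ^ (-(((4 * n : ℕ) : ℝ) / 4)) ≤ η := by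
    rw [e1, e2, he]
    have : (2 : ℝ) ^ n * (η / (2 * 2 ^ n)) = η / 2 := by field_simp
    rw [this]
    linarith
  rw [← hMe, ← hp] at r1 r2
  have e4 : K * p * ((2 : ℝ) ^ (((4 * n : ℕ) : ℝ) / 4) * e + (2 : ℝ) ^ (-(((4 * n : ℕ) : ℝ) / 4))) ≤ K * p * η :=
    mul_le_mul_of_nonneg_left e3 (by positivity)
  have r1' := r1.trans (ENNReal.ofReal_le_ofReal e4)
  have r2' := r2.trans (ENNReal.ofReal_le_ofReal e4)
  -- the means
  have hmass' := hmass k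
  rw [← hp] at hmass'
  have hUU : UU (2 ^ (k + 8)) ≤ 256 * Ub k := LQ.UU8 k
  have s1 : ∑' x : ℕ × (List Bool × List Bool), pw (2 ^ (k + 5)) (2 ^ (k + 8)) x * (x.2.1.length : ℝ≥0∞) ≤
      ENNReal.ofReal (c1 * M * (K0 * p) + Lam * M * (K * p * η) + 4 * M * (R * p) / Lam) := by
    refine (mean_split (pw (2 ^ (k + 5)) (2 ^ (k + 8))) (fun x => x.2.1.length) (R := R * p) hM (by positivity) hc10
      hLam1 fun lam hlam => ?_).trans ?_
    · have := (htail k lam (hLam1.trans hlam)).1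
      rw [← hMe, ← hp] at this
      exact this
    · refine (add_le_add (add_le_add (mul_le_mul' le_rfl hmass') (mul_le_mul' le_rfl r1')) le_rfl).trans (le_of_eq ?_)
      rw [← ENNReal.ofReal_mul (by positivity), ← ENNReal.ofReal_mul (by positivity),
        ← ENNReal.ofReal_add (by positivity) (by positivity), ← ENNReal.ofReal_add (by positivity) (by positivity)]
  have s2 : ∑' x : ℕ × (List Bool × List Bool), pw (2 ^ (k + 5)) (2 ^ (k + 8)) x * (x.2.2.length : ℝ≥0∞) ≤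
      ENNReal.ofReal (c1 * M * (K0 * p) + Lam * M * (K * p * η) + 4 * M * (R * p) / Lam) := by
    refine (mean_split (pw (2 ^ (k + 5)) (2 ^ (k + 8))) (fun x => x.2.2.length) (R := R * p) hM (by positivity) hc10
      hLam1 fun lam hlam => ?_).trans ?_
    · have := (htail k lam (hLam1.trans hlam)).2
      rw [← hMe, ← hp] at this
      exact this
    · refine (add_le_add (add_le_add (mul_le_mul' le_rfl hmass') (mul_le_mul' le_rfl r2')) le_rfl).trans (le_of_eq ?_)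
      rw [← ENNReal.ofReal_mul (by positivity), ← ENNReal.ofReal_mul (by positivity),
        ← ENNReal.ofReal_add (by positivity) (by positivity), ← ENNReal.ofReal_add (by positivity) (by positivity)]
  have s3 : ∑' x : ℕ × List Bool, bw (2 ^ (k + 8)) x * (x.2.length : ℝ≥0∞) ≤
      ENNReal.ofReal (c1 * M * (256 * Ub k) + Lam * M * (c / (8 * Lam) * Ub k) + 4 * M * (A2 * Ub k) / Lam) := by
    refine (mean_split (bw (2 ^ (k + 8))) (fun x => x.2.length) (R := A2 * Ub k) hM (by positivity) hc10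
      hLam1 fun lam hlam => ?_).trans ?_
    · rw [bw_tail, hMe]
      refine (hTL k lam (hLam1.trans hlam)).trans (ENNReal.ofReal_le_ofReal (le_of_eq ?_))
      ring
    · rw [bw_tail, bw_mass]
      refine (add_le_add (add_le_add (mul_le_mul' le_rfl (ENNReal.ofReal_le_ofReal hUU)) (mul_le_mul' le_rfl t2))
        le_rfl).trans (le_of_eq ?_)
      rw [← ENNReal.ofReal_mul (by positivity), ← ENNReal.ofReal_mul (by positivity),
        ← ENNReal.ofReal_add (by positivity) (by positivity), ← ENNReal.ofReal_add (by positivity) (by positivity)]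
  have s4 : ENNReal.ofReal (c * Ub k * M) ≤ ENNReal.ofReal ((2 : ℝ) ^ (k + 5) *
      ((c1 * M * (K0 * p) + Lam * M * (K * p * η) + 4 * M * (R * p) / Lam) +
        (c1 * M * (K0 * p) + Lam * M * (K * p * η) + 4 * M * (R * p) / Lam)) +
      (c1 * M * (256 * Ub k) + Lam * M * (c / (8 * Lam) * Ub k) + 4 * M * (A2 * Ub k) / Lam)) := by
    have v1 : 0 ≤ c1 * M * (K0 * p) + Lam * M * (K * p * η) + 4 * M * (R * p) / Lam := by positivity
    have v2 : 0 ≤ c1 * M * (256 * Ub k) + Lam * M * (c / (8 * Lam) * Ub k) + 4 * M * (A2 * Ub k) / Lam := by positivity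
    generalize c1 * M * (K0 * p) + Lam * M * (K * p * η) + 4 * M * (R * p) / Lam = V at s1 s2 v1 ⊢
    generalize c1 * M * (256 * Ub k) + Lam * M * (c / (8 * Lam) * Ub k) + 4 * M * (A2 * Ub k) / Lam = V' at s3 v2 ⊢
    have v3 : ENNReal.ofReal ((2 : ℝ) ^ (k + 5) * (V + V) + V') =
        2 ^ (k + 5) * (ENNReal.ofReal V + ENNReal.ofReal V) + ENNReal.ofReal V' := by
      rw [ENNReal.ofReal_add (by positivity) v2, ENNReal.ofReal_mul (by positivity),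
        ENNReal.ofReal_add v1 v1, ENNReal.ofReal_pow (by norm_num), ENNReal.ofReal_ofNat]
    rw [v3]
    have h0 := hlow k
    rw [← hMe] at h0
    refine h0.trans (add_le_add (mul_le_mul' le_rfl ?_) ((brd_sum _).trans s3))
    rw [arcS_sum]
    exact add_le_add s1 s2
  have s5 := (ENNReal.ofReal_le_ofReal_iff (by positivity)).1 s4
  have s6 : (2 : ℝ) ^ (k + 5) * p ≤ 32 * (C3 * Ub k) := by
    rw [pow_add]
    linarith
  obtain ⟨z, hz⟩ : ∃ z, z = c1 * K0 + Lam * (K * η) + 4 * R / Lam := ⟨_, rfl⟩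
  have hz0 : 0 < z := by rw [hz]; positivity
  have s7 : (2 : ℝ) ^ (k + 5) * ((c1 * M * (K0 * p) + Lam * M * (K * p * η) + 4 * M * (R * p) / Lam) +
        (c1 * M * (K0 * p) + Lam * M * (K * p * η) + 4 * M * (R * p) / Lam)) ≤ 64 * (C3 * Ub k) * M * z := by
    calc _ = ((2 : ℝ) ^ (k + 5) * p) * (2 * M * z) := by
          rw [hz]
          ring
      _ ≤ (32 * (C3 * Ub k)) * (2 * M * z) := mul_le_mul_of_nonneg_right s6 (by positivity)
      _ = _ := by ring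
  have s8 : 64 * (C3 * Ub k) * M * z + (c1 * M * (256 * Ub k) + Lam * M * (c / (8 * Lam) * Ub k) +
      4 * M * (A2 * Ub k) / Lam) = (Ub k * M) * (c1 * a1 + 64 * C3 * K * Lam * η + c / 8 +
        (256 * C3 * R + 4 * A2) / Lam) := by
    rw [hz, ha1]
    field_simp
    ring
  have s9 : c1 * a1 = c / 4 := by
    rw [hc1]
    field_simp
  have s10 : 64 * C3 * K * Lam * η = c / 8 := by
    rw [hη]
    field_simp
  have s11 : c * Ub k * M ≤ (Ub k * M) * (c1 * a1 + 64 * C3 * K * Lam * η + c / 8 +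
        (256 * C3 * R + 4 * A2) / Lam) := by
    rw [← s8]
    linarith
  rw [s9, s10] at s11
  have s12 : 0 < Ub k * M := by positivity
  have s13 : c * Ub k * M = (Ub k * M) * c := by ring
  rw [s13] at s11
  have s14 := le_of_mul_le_mul_left s11 s12
  linarith

open C1 in
/-- **C1** -/
theorem c1_of' {m : ℕ → ℝ} (hm : MLow m) (hu : MUp m) (hB : TB m) (hQ : LongQ m) (hC : LongC m) (hL : LowAvg m) :
    C1 m := by
  obtain ⟨c, ε, n, hc, hε, hbig⟩ := c1_large hm hu hB hQ hC hL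
  obtain ⟨Cu, hCu, hup⟩ := hu
  have hCu8 : 0 < Cu ^ 8 := by positivity
  have hmn := hm.pos (n + 8)
  have hu1 := uu_pos 1
  have hmono : ∀ K : ℕ, K ≤ n + 8 → m K ≤ m (n + 8) := by
    intro K hK
    have h1 := hm.low K (n + 8 - K)
    have h2 : (1 : ℝ) ≤ (2 : ℝ) ^ (5 / 4 * ((n + 8 - K : ℕ) : ℝ)) := Real.one_le_rpow (by norm_num) (by positivity)
    have h3 := hm.pos K
    rw [show K + (n + 8 - K) = n + 8 by omega] at h1
    nlinarith
  refine ⟨min (c / Cu ^ 8) (1 / m (n + 8)), min (ε / 256) (uu 1 / 2 ^ (n + 9)), lt_min (by positivity) (by positivity),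
    lt_min (by positivity) (by positivity), fun K => ?_⟩
  have hUK := Ub_pos K
  rcases le_or_gt (n + 8) K with hK | hK
  · obtain ⟨k, rfl⟩ : ∃ k, K = k + 8 := ⟨K - 8, by omega⟩
    have h1 := hbig k (by omega)
    have h2 := MUp_iter hCu hup k 8
    have hmk := hm.pos k
    have hmK := hm.pos (k + 8)
    have h3 : min (c / Cu ^ 8) (1 / m (n + 8)) * m (k + 8) ≤ c * m k := by
      calc min (c / Cu ^ 8) (1 / m (n + 8)) * m (k + 8) ≤ c / Cu ^ 8 * (Cu ^ 8 * m k) :=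
            mul_le_mul (min_le_left _ _) h2 hmK.le (by positivity)
        _ = _ := by field_simp
    refine le_trans (ENNReal.ofReal_le_ofReal ?_) (h1.trans (LQ.TL_anti h3))
    have h4 : Ub (k + 8) ≤ 256 * Ub k := LQ.UU8 k
    calc min (ε / 256) (uu 1 / 2 ^ (n + 9)) * Ub (k + 8) ≤ ε / 256 * (256 * Ub k) :=
          mul_le_mul (min_le_left _ _) h4 hUK.le (by positivity)
      _ = _ := by ring
  · have h1 := hmono K hK.le
    have hmK := hm.pos K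
    have h2 : min (c / Cu ^ 8) (1 / m (n + 8)) * m K ≤ 1 := by
      calc min (c / Cu ^ 8) (1 / m (n + 8)) * m K ≤ 1 / m (n + 8) * m (n + 8) :=
            mul_le_mul (min_le_right _ _) h1 hmK.le (by positivity)
        _ = 1 := by field_simp
    have h3 : ENNReal.ofReal (uu 1) ≤ NTm.TL (2 ^ K) (min (c / Cu ^ 8) (1 / m (n + 8)) * m K) := by
      unfold NTm.TL
      have h4 : (1 : ℕ) ∈ range (2 ^ K + 1) := by
        rw [mem_range]
        have := Nat.one_le_two_pow (n := K)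
        omega
      refine le_trans ?_ (Finset.single_le_sum (f := fun h => gf {Z | Z ∈ Brd h ∧
        min (c / Cu ^ 8) (1 / m (n + 8)) * m K ≤ (Z.length : ℝ)}) (fun _ _ => zero_le) h4)
      rw [← PW.AT.BT_uu', ← gf_Brd]
      refine gf_mono fun Z hZ => ⟨hZ, h2.trans ?_⟩
      exact_mod_cast Brd1_len hZ
    refine le_trans (ENNReal.ofReal_le_ofReal ?_) h3
    have h5 : Ub K ≤ 2 ^ (n + 9) := by
      refine (LQ.Ub_le K).trans ?_
      exact pow_le_pow_right₀ (by norm_num) (by omega)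
    calc min (ε / 256) (uu 1 / 2 ^ (n + 9)) * Ub K ≤ uu 1 / 2 ^ (n + 9) * 2 ^ (n + 9) :=
          mul_le_mul (min_le_right _ _) h5 hUK.le (by positivity)
      _ = _ := by field_simp

/-- **C1** from the tail of the bridges and the lower mean -/
theorem c1_of {m : ℕ → ℝ} (hm : MLow m) (hu : MUp m) (hB : TB m) (hL : LowAvg m) : C1 m :=
  c1_of' hm hu hB (longQ hm hu hB) (longC_of hm hB) hL

end NTA

end HexObs
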