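import Pool.Agent.NTA.TailInd
import Pool.Agent.NTA.LongSp
import Pool.Agent.T2.Infix
import Pool.Agent.T2.PowS
import Pool.Agent.NT.Exps

/-!
NTA: the tail of the lengths of the infixes: ensembles with an abstract norm of the runs, deep events at all scales.
-/

set_option autoImplicit false

namespace HexObs

namespace NTA

open Finset TS SDN NTW

open scoped ENNReal

/-- ensembles E a of words of the boxes 2 ^ K with the normalisation nu; SR kc R δ: the class R of runs has the norm δ at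
the scale kc + 5; the constants do not depend on a -/
structure EnsR {ι : Type} (E : ι → ℕ → Set (List Bool)) (nu : ℕ → ℝ≥0∞) (SR : ℕ → Set (List (List Bool)) → ℝ → Prop) :
    Prop where
  sub : ∀ a K, E a K ⊆ WL K
  run : ∃ (C : ℝ) (k0 : ℕ), 1 ≤ C ∧ ∀ (a : ι) (dir : Bool) (kc J : ℕ) (R : Set (List (List Bool))) (δ : ℝ), k0 ≤ kc →
    6 ≤ J → 0 < δ → SR kc R δ → gf {t | t ∈ E a (kc + J) ∧ HasRun dir kc R t} ≤ ENNReal.ofReal (C ^ J * δ) * nu (kc + J)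
  mono : ∀ (kc : ℕ) (R : Set (List (List Bool))) (δ δ' : ℝ), SR kc R δ → δ ≤ δ' → SR kc R δ'
  crowd : ∀ mu : ℕ, ∃ (k0 w0 Q : ℕ) (C0 : ℝ), w0 ≤ k0 ∧ 0 < C0 ∧ ∀ kc m n : ℕ, k0 ≤ kc → Q * (n + 1) ≤ m →
    SR kc (CS (2 ^ (kc + 4)) (2 ^ (kc + 5 + mu)) (kc + 2) (2 ^ (kc - w0)) n m) (C0 / 4 ^ m)
  fill : ∃ (K : ℝ) (a0 a1 k0 : ℕ), 1 ≤ K ∧ ∀ (kc mu m1 J : ℕ) (S : Set (List Bool)) (δ : ℝ), k0 ≤ kc → 0 ≤ δ →
    SmD DmJ kc S δ → SR kc (RFill kc mu m1 (J + a0) S) ((K * 2 ^ mu) ^ (m1 + a1) * δ ^ J)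
  crude : ∃ C : ℝ, 1 ≤ C ∧ ∀ (a : ι) (K : ℕ), gf (E a K) ≤ ENNReal.ofReal (C ^ (K + 1)) * nu K
  low : ∃ C : ℝ, 1 ≤ C ∧ ∀ K, ENNReal.ofReal (1 / C ^ (K + 1)) ≤ nu K

/-- the deep events at the scales b with k ≤ M b -/
def DeepM (η β : ℝ) (M k : ℕ) : Set (List Bool) :=
  {t | t ∈ WL k ∧ ∃ b : ℕ, k ≤ M * b ∧ b ≤ k + 5 ∧
    ((∃ (X : List Bool) (h : ℕ), X ∈ Brd h ∧ h ≤ 2 ^ (T2.ee η b) ∧ X.dropLast <:+: t ∧ ¬ InBox X (2 ^ (T2.ff η b))) ∨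
      ∃ v : List Bool, v <:+: t ∧ v ∈ WL b ∧ (2 : ℝ) ^ (β * b) ≤ v.length)}

open T2 in
/-- the weights of the deep events -/
theorem deepM {η β Q : ℝ} {M : ℕ} (hη : 0 < η) (hη8 : η ≤ 1 / 8) (hβ : 4 / 3 < β) (hQ : 0 < Q) (hM : 1 ≤ M) :
    ∃ K0 : ℕ, ∀ k : ℕ, K0 ≤ k → gf (DeepM η β M k) ≤ ENNReal.ofReal ((2 : ℝ) ^ (-(Q * k))) := by
  obtain ⟨e, he⟩ : ∃ e : ℝ, e = (β - 4 / 3) / 2 := ⟨_, rfl⟩
  have he0 : 0 < e := by
    rw [he]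
    linarith
  obtain ⟨C, hC, hMl⟩ := NTm.ExpsA.meanLen he0
  obtain ⟨Cp, hCp, hpoly⟩ := SAL_poly
  obtain ⟨Q1, hQ1⟩ : ∃ Q1 : ℝ, Q1 = Q + 3 + 4 * Cp := ⟨_, rfl⟩
  have hQ10 : 0 < Q1 := by
    rw [hQ1]
    linarith
  have hMr : (1 : ℝ) ≤ M := by exact_mod_cast hM
  obtain ⟨L1, h1⟩ := near_box (κ := 1 / (2 * M)) hη hη8 (by positivity) hQ10
  obtain ⟨L2, h2⟩ := pow_small (β := β) (Q := M * Q1) (by linarith : (1 : ℝ) ≤ 4 / 3 + e) hC hMl (by linarith)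
    (by positivity)
  obtain ⟨D, hD⟩ : ∃ D : ℕ, 2 * Cp ^ 2 * (2 : ℝ) ^ (14 * Cp) ≤ (2 : ℝ) ^ D := by
    obtain ⟨D, hD⟩ := pow_unbounded_of_one_lt (2 * Cp ^ 2 * (2 : ℝ) ^ (14 * Cp)) (one_lt_two (α := ℝ))
    exact ⟨D, hD.le⟩
  refine ⟨L1 + M * L2 + D + 8, fun k hk => ?_⟩
  have k1 : L1 ≤ k := by have := Nat.zero_le (M * L2); omega
  have k2 : M * L2 ≤ k := by omega
  have k3 : D + 8 ≤ k := by have := Nat.zero_le (M * L2); omega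
  have hkR : (0 : ℝ) ≤ k := Nat.cast_nonneg k
  obtain ⟨A, hA⟩ : ∃ A : ℕ → Set (List Bool), ∀ b, A b =
    {v | ∃ h X, X ∈ Brd h ∧ h ≤ 2 ^ (ee η b) ∧ ¬ InBox X (2 ^ (ff η b)) ∧ v = X.dropLast} ∪
      {v | v ∈ WL b ∧ (2 : ℝ) ^ (β * b) ≤ v.length} := ⟨_, fun _ => rfl⟩
  have hAb : ∀ b ∈ (Finset.range (k + 6)).filter (fun b => k ≤ M * b),
      gf (A b) ≤ ENNReal.ofReal (2 * (2 : ℝ) ^ (-(Q1 * k))) := by
    intro b hb
    rw [Finset.mem_filter, Finset.mem_range] at hb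
    have hbR : (k : ℝ) ≤ M * b := by exact_mod_cast hb.2
    have hb5 : (b : ℝ) ≤ k + 5 := by exact_mod_cast (by omega : b ≤ k + 5)
    have hL2 : L2 ≤ b := by
      have h5 : M * L2 ≤ M * b := k2.trans hb.2
      exact Nat.le_of_mul_le_mul_left h5 hM
    have a1 := h1 (k + 5) b (by omega) (by
      push_cast
      rw [div_mul_eq_mul_div, div_le_iff₀ (by positivity)]
      have h6 : (8 : ℝ) ≤ k := by exact_mod_cast (by omega : 8 ≤ k)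
      nlinarith) (by omega)
    have a2 := h2 b hL2
    have a3 : (2 : ℝ) ^ (-(M * Q1 * b)) ≤ (2 : ℝ) ^ (-(Q1 * k)) := by
      apply Real.rpow_le_rpow_of_exponent_le (by norm_num)
      nlinarith
    have a4 : (2 : ℝ) ^ (-(Q1 * ((k + 5 : ℕ) : ℝ))) ≤ (2 : ℝ) ^ (-(Q1 * k)) := by
      apply Real.rpow_le_rpow_of_exponent_le (by norm_num)
      push_cast
      nlinarith
    rw [hA]
    refine (gf_union_le _ _).trans ((add_le_add (a1.trans (ENNReal.ofReal_le_ofReal a4))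
      (a2.trans (ENNReal.ofReal_le_ofReal a3))).trans ?_)
    rw [← ENNReal.ofReal_add (by positivity) (by positivity), ← two_mul]
  have hsub : DeepM η β M k ⊆ ⋃ b ∈ (Finset.range (k + 6)).filter (fun b => k ≤ M * b),
      {t | t ∈ WL k ∧ ∃ w ∈ A b, w <:+: t} := by
    rintro t ⟨ht, b, hb1, hb2, hor⟩
    rw [Set.mem_iUnion₂]
    refine ⟨b, by rw [Finset.mem_filter, Finset.mem_range]; exact ⟨by omega, hb1⟩, ht, ?_⟩
    rcases hor with ⟨X, h, hX, hh, hin, hbox⟩ | ⟨v, hv1, hv2, hv3⟩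
    · refine ⟨X.dropLast, ?_, hin⟩
      rw [hA]
      exact Or.inl ⟨h, X, hX, hh, hbox, rfl⟩
    · refine ⟨v, ?_, hv1⟩
      rw [hA]
      exact Or.inr ⟨hv2, hv3⟩
  have hterm : ∀ b ∈ (Finset.range (k + 6)).filter (fun b => k ≤ M * b), gf {t | t ∈ WL k ∧ ∃ w ∈ A b, w <:+: t} ≤
      ENNReal.ofReal ((((100 * 4 ^ k : ℕ) : ℝ) ^ Cp * Cp) ^ 2 * (2 * (2 : ℝ) ^ (-(Q1 * k)))) := by
    intro b hb
    refine (gf_infix k (A b)).trans ?_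
    rw [ENNReal.ofReal_mul (by positivity), ENNReal.ofReal_pow (by positivity)]
    refine mul_le_mul' (pow_le_pow_left' (hpoly _ ?_) 2) (hAb b hb)
    have : 1 ≤ 4 ^ k := Nat.one_le_pow _ _ (by norm_num)
    omega
  refine (gf_mono hsub).trans ((ENNReal.tsum_biUnion_le wE _ _).trans ((Finset.sum_le_sum hterm).trans ?_))
  rw [Finset.sum_const, nsmul_eq_mul]
  have hcard : (((Finset.range (k + 6)).filter (fun b => k ≤ M * b)).card : ℝ≥0∞) ≤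
      ENNReal.ofReal ((2 : ℝ) ^ (2 * (k : ℝ))) := by
    have e1 : ((Finset.range (k + 6)).filter (fun b => k ≤ M * b)).card ≤ 2 ^ (2 * k) := by
      refine (Finset.card_filter_le _ _).trans ?_
      rw [Finset.card_range]
      have e2 : k < 2 ^ k := Nat.lt_two_pow_self
      have e3 : 2 ^ (2 * k) = 2 ^ k * 2 ^ k := by rw [← pow_add]; congr 1; ring
      nlinarith
    rw [show (2 : ℝ) * (k : ℝ) = ((2 * k : ℕ) : ℝ) by push_cast; ring, Real.rpow_natCast,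
      ENNReal.ofReal_pow (by norm_num), show ENNReal.ofReal 2 = 2 by norm_num]
    exact_mod_cast e1
  refine (mul_le_mul_left hcard _).trans ?_
  rw [← ENNReal.ofReal_mul (by positivity)]
  apply ENNReal.ofReal_le_ofReal
  have e2 : ((100 * 4 ^ k : ℕ) : ℝ) ≤ (2 : ℝ) ^ (7 + 2 * (k : ℝ)) := by
    rw [Real.rpow_add (by norm_num), Real.rpow_mul (by norm_num), Real.rpow_natCast]
    push_cast
    have : (0 : ℝ) < 4 ^ k := by positivity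
    norm_num
  have e3 : ((100 * 4 ^ k : ℕ) : ℝ) ^ Cp ≤ (2 : ℝ) ^ ((7 + 2 * (k : ℝ)) * Cp) := by
    rw [Real.rpow_mul (by norm_num)]
    exact Real.rpow_le_rpow (by positivity) e2 hCp.le
  have e4 : (((100 * 4 ^ k : ℕ) : ℝ) ^ Cp * Cp) ^ 2 ≤ (2 : ℝ) ^ (14 * Cp) * (2 : ℝ) ^ (4 * Cp * k) * Cp ^ 2 := by
    rw [mul_pow]
    refine mul_le_mul_of_nonneg_right ?_ (by positivity)
    calc (((100 * 4 ^ k : ℕ) : ℝ) ^ Cp) ^ 2 ≤ ((2 : ℝ) ^ ((7 + 2 * (k : ℝ)) * Cp)) ^ 2 := by gcongr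
      _ = (2 : ℝ) ^ (14 * Cp) * (2 : ℝ) ^ (4 * Cp * k) := by
          rw [← Real.rpow_natCast, ← Real.rpow_mul (by norm_num), ← Real.rpow_add (by norm_num)]
          congr 1
          push_cast
          ring
  have e5 : (2 : ℝ) ^ D ≤ (2 : ℝ) ^ (k : ℝ) := by
    rw [Real.rpow_natCast]
    exact pow_le_pow_right₀ (by norm_num) (by omega)
  calc (2 : ℝ) ^ (2 * (k : ℝ)) * ((((100 * 4 ^ k : ℕ) : ℝ) ^ Cp * Cp) ^ 2 * (2 * (2 : ℝ) ^ (-(Q1 * k))))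
      ≤ (2 : ℝ) ^ (2 * (k : ℝ)) * (((2 : ℝ) ^ (14 * Cp) * (2 : ℝ) ^ (4 * Cp * k) * Cp ^ 2) *
          (2 * (2 : ℝ) ^ (-(Q1 * k)))) := by
        gcongr
    _ = (2 * Cp ^ 2 * (2 : ℝ) ^ (14 * Cp)) * ((2 : ℝ) ^ (2 * (k : ℝ)) * (2 : ℝ) ^ (4 * Cp * k) *
          (2 : ℝ) ^ (-(Q1 * k))) := by
        ring
    _ ≤ (2 : ℝ) ^ (k : ℝ) * ((2 : ℝ) ^ (2 * (k : ℝ)) * (2 : ℝ) ^ (4 * Cp * k) * (2 : ℝ) ^ (-(Q1 * k))) :=
        mul_le_mul_of_nonneg_right (hD.trans e5) (by positivity)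
    _ = (2 : ℝ) ^ (-(Q * k)) := by
        rw [← Real.rpow_add (by norm_num), ← Real.rpow_add (by norm_num), ← Real.rpow_add (by norm_num)]
        congr 1
        rw [hQ1]
        ring

/-- long leaves are special off the deep events -/
theorem longSpM {η β : ℝ} {M : ℕ} (hη : 0 < η) (hη1 : η ≤ 1 / 8) : ∃ K0 : ℕ,
    ∀ (k kc mu m0 J : ℕ) (dir : Bool) (y : ℝ) (t : List Bool), K0 ≤ k → k ≤ M * (kc + 5) → kc + 5 ≤ k + 5 →
    t ∈ WL k → t ∉ DeepM η β (2 * M) k →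
    HasRun dir kc (RFill kc mu m0 J (LongL kc mu (y + 2 * (2 : ℝ) ^ (β * ((T2.ff η (kc + 5) + 2 : ℕ) : ℝ)) + 4))) t →
    HasRun dir kc (RFill kc mu m0 J (BrR (2 ^ (kc + 4)) (2 ^ (kc + mu + 2)) ∩ T2.Sp (T2.ee η (kc + 5)) y)) t := by
  obtain ⟨K0, hK0⟩ := exists_nat_ge ((2 * M : ℝ) / η)
  refine ⟨K0 + 1, fun k kc mu m0 J dir y t hk hk3 hkk ht hD hR => ?_⟩
  obtain ⟨b, hb⟩ : ∃ b, b = kc + 5 := ⟨_, rfl⟩
  rw [← hb] at hk3 hkk hR ⊢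
  have hkR : (2 * M : ℝ) / η ≤ (k : ℝ) := hK0.trans (by exact_mod_cast (by omega : K0 ≤ k))
  rw [div_le_iff₀ hη] at hkR
  have hk3R : (k : ℝ) ≤ M * b := by exact_mod_cast hk3
  have hM1 : 1 ≤ M := by
    rcases Nat.eq_zero_or_pos M with h0 | h0
    · rw [h0, zero_mul] at hk3
      omega
    · exact h0
  have hMr : (1 : ℝ) ≤ M := by exact_mod_cast hM1
  have hηb : 2 ≤ η * b := by
    have h1 : (M : ℝ) * 2 ≤ M * (η * b) := by nlinarith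
    exact le_of_mul_le_mul_left h1 (by linarith)
  have hfl1 : 2 ≤ ⌊η * b⌋₊ := Nat.le_floor (by exact_mod_cast hηb)
  have hfl2 : (⌊η * b⌋₊ : ℝ) ≤ η * b := Nat.floor_le (by positivity)
  have hfl3 : 8 * ⌊η * b⌋₊ ≤ b := by
    have h1 : (8 : ℝ) * (⌊η * b⌋₊ : ℝ) ≤ b := by
      have hb0 : (0 : ℝ) ≤ b := Nat.cast_nonneg b
      nlinarith
    exact_mod_cast h1
  have hfl4 : ⌊η * b⌋₊ ≤ ⌊2 * η * b⌋₊ := by
    apply Nat.floor_le_floor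
    have hb0 : (0 : ℝ) ≤ b := Nat.cast_nonneg b
    nlinarith
  have hff : T2.ff η b = b - ⌊η * b⌋₊ := rfl
  have hee : T2.ee η b = b - 5 - ⌊2 * η * b⌋₊ := rfl
  refine long_sp (e := T2.ee η b) (f := T2.ff η b) (S2 := (2 : ℝ) ^ (β * ((T2.ff η b + 2 : ℕ) : ℝ)))
    (h := y + 2 * (2 : ℝ) ^ (β * ((T2.ff η b + 2 : ℕ) : ℝ)) + 4) ht.1 (by rw [hff, hee]; omega) ?_ ?_ (by positivity)
    (by linarith) hR
  · intro X h hX hh hXt
    by_contra hcon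
    refine hD ⟨ht, b, hk3.trans ?_, hkk, Or.inl ⟨X, h, hX, hh, hXt, hcon⟩⟩
    nlinarith
  · intro v hv hvW
    by_contra hcon
    rw [not_le] at hcon
    refine hD ⟨ht, T2.ff η b + 2, hk3.trans ?_, by rw [hff]; omega, Or.inr ⟨v, hv, hvW, hcon.le⟩⟩
    have h1 : b ≤ 2 * (T2.ff η b + 2) := by rw [hff]; omega
    calc M * b ≤ M * (2 * (T2.ff η b + 2)) := Nat.mul_le_mul_left _ h1
      _ = _ := by ring

namespace TIx

open TI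

variable {ι : Type}

/-- the words with a box 2 ^ (l + 2) of at least x letters -/
def LB (E : Set (List Bool)) (l : ℕ) (x : ℝ) : Set (List Bool) :=
  {t | t ∈ E ∧ ∃ u z, Bx (l + 2) t u z ∧ x ≤ (z : ℝ) - u}

/-- the bad runs at the scale kc + 5 -/
def BadR (E : Set (List Bool)) (m : ℕ → ℝ) (η : ℝ) (Q ν J0 w0 nb kc q : ℕ) : Set (List Bool) :=
  ({t | t ∈ E ∧ HasRun false kc (CS (2 ^ (kc + 4)) (2 ^ (kc + 5 + (8 * ν + 1))) (kc + 2) (2 ^ (kc - w0)) nb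
      ((Q + 1) * q)) t} ∪
    {t | t ∈ E ∧ HasRun true kc (CS (2 ^ (kc + 4)) (2 ^ (kc + 5 + (8 * ν + 1))) (kc + 2) (2 ^ (kc - w0)) nb
      ((Q + 1) * q)) t}) ∪
  ({t | t ∈ E ∧ HasRun false kc (RFill kc (8 * ν + 1 + 3) ((Q + 1) * q) (J0 + 1)
      (BrR (2 ^ (kc + 4)) (2 ^ (kc + (8 * ν + 1 + 3) + 2)) ∩ T2.Sp (T2.ee η (kc + 5)) (yy m ν Q kc q * m (kc + 5)))) t} ∪
    {t | t ∈ E ∧ HasRun true kc (RFill kc (8 * ν + 1 + 3) ((Q + 1) * q) (J0 + 1)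
      (BrR (2 ^ (kc + 4)) (2 ^ (kc + (8 * ν + 1 + 3) + 2)) ∩ T2.Sp (T2.ee η (kc + 5)) (yy m ν Q kc q * m (kc + 5)))) t})

/-- the covering of the long infixes by the bad runs and the deep events -/
lemma coverI {m : ℕ → ℝ} {E : Set (List Bool)} {η β : ℝ} {Cc Q ν J0 w0 nb k l p I M : ℕ}
    (hstep : ∀ {ν J0 w0 nb N q kc : ℕ} {y S2 : ℝ} {t : List Bool},
      t ∈ SA → w0 ≤ kc → 6 ≤ N → Cc * 2 ^ w0 * 4 ^ (8 * ν + 1) ≤ nb → (512 : ℝ) * (J0 + 6) ^ 2 ≤ 2 ^ ν →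
      y = 2 ^ q * m (kc + 4 + 8 * ν) / (32 * (N + 5) * m (kc + 5)) → 0 ≤ S2 → 2 * S2 + 5 ≤ y * m (kc + 5) →
      1 ≤ 2 ^ ν * 2 ^ q * m (kc + 4) →
      (∀ dir, ¬ HasRun dir kc (CS (2 ^ (kc + 4)) (2 ^ (kc + 5 + (8 * ν + 1))) (kc + 2) (2 ^ (kc - w0)) nb N) t) →
      (∀ dir, ¬ HasRun dir kc (RFill kc (8 * ν + 1 + 3) N (J0 + 1) (LongL kc (8 * ν + 1 + 3)
        (y * m (kc + 5) + 2 * S2 + 4))) t) →
      ∀ x z, Bx (kc + 5 + (8 * ν + 1)) t x z → 2 ^ q * m (kc + 4 + 8 * ν) ≤ (z : ℝ) - x →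
      ∃ x1 z1, Bx (kc + 6) t x1 z1 ∧ 2 ^ (q + ν) * m (kc + 4) ≤ (z1 : ℝ) - x1)
    (hν : 1 ≤ ν) (hnb : Cc * 2 ^ w0 * 4 ^ (8 * ν + 1) ≤ nb) (hJ : (512 : ℝ) * (J0 + 6) ^ 2 ≤ 2 ^ ν) (hlk : l ≤ k)
    (hI : ∀ i, i < I → 8 * ν * (i + 1) + 4 ≤ l)
    (hsc : ∀ i kc q, i < I → l = kc + 4 + 8 * ν * (i + 1) → q = p + ν * i → w0 ≤ kc ∧ 6 ≤ (Q + 1) * q ∧
      k ≤ M * (kc + 5) ∧ 1 ≤ 2 ^ ν * 2 ^ q * m (kc + 4) ∧
      2 * (2 : ℝ) ^ (β * ((T2.ff η (kc + 5) + 2 : ℕ) : ℝ)) + 5 ≤ yy m ν Q kc q * m (kc + 5))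
    (hls : ∀ (kc mu m0 J : ℕ) (dir : Bool) (y : ℝ) (t : List Bool), k ≤ M * (kc + 5) → kc + 5 ≤ k + 5 →
      t ∈ WL k → t ∉ DeepM η β (2 * M) k →
      HasRun dir kc (RFill kc mu m0 J (LongL kc mu (y + 2 * (2 : ℝ) ^ (β * ((T2.ff η (kc + 5) + 2 : ℕ) : ℝ)) + 4))) t →
      HasRun dir kc (RFill kc mu m0 J (BrR (2 ^ (kc + 4)) (2 ^ (kc + mu + 2)) ∩ T2.Sp (T2.ee η (kc + 5)) y)) t)
    (hE : E ⊆ WL k)
    (hend : 8 * ν * I ≤ l ∧ k ≤ 2 * M * (l - 8 * ν * I + 5) ∧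
      (2 : ℝ) ^ (β * ((l - 8 * ν * I + 5 : ℕ) : ℝ)) ≤ 2 ^ (p + ν * I) * m (l - 8 * ν * I)) :
    LB E l (2 ^ p * m l) ⊆
      (⋃ i ∈ range I, BadR E m η Q ν J0 w0 nb (l - 8 * ν * (i + 1) - 4) (p + ν * i)) ∪ DeepM η β (2 * M) k := by
  rintro t ⟨htE, x0, z0, hb0, hlen⟩
  by_contra hcon
  rw [Set.mem_union, not_or] at hcon
  obtain ⟨hnb', hnd⟩ := hcon
  have ht := hE htE
  have hP : ∀ i, i ≤ I → ∃ x z, Bx (l - 8 * ν * i + 2) t x z ∧ 2 ^ (p + ν * i) * m (l - 8 * ν * i) ≤ (z : ℝ) - x := by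
    intro i
    induction i with
    | zero =>
      intro _
      refine ⟨x0, z0, hb0, ?_⟩
      simpa using hlen
    | succ i ih =>
      intro hi
      obtain ⟨x, z, hb, hxz⟩ := ih (by omega)
      obtain ⟨kc, hkc⟩ : ∃ kc, kc = l - 8 * ν * (i + 1) - 4 := ⟨_, rfl⟩
      have hIi := hI i (by omega)
      have hk : l = kc + 4 + 8 * ν * (i + 1) := by omega
      have hki : l - 8 * ν * i = kc + 4 + 8 * ν := by
        have : 8 * ν * (i + 1) = 8 * ν * i + 8 * ν := by ring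
        omega
      have hki1 : l - 8 * ν * (i + 1) = kc + 4 := by omega
      obtain ⟨q, hq⟩ : ∃ q, q = p + ν * i := ⟨_, rfl⟩
      obtain ⟨a1, a2, a3, a4, a6⟩ := hsc i kc q (by omega) hk hq
      rw [hki1]
      rw [hki, ← hq] at hxz
      rw [hki] at hb
      have hq1 : p + ν * (i + 1) = q + ν := by rw [hq]; ring
      rw [hq1]
      have hnot : t ∉ BadR E m η Q ν J0 w0 nb kc q := by
        intro hmem
        apply hnb'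
        rw [Set.mem_iUnion₂]
        refine ⟨i, Finset.mem_range.2 (by omega), ?_⟩
        rw [← hkc, ← hq]
        exact hmem
      have hnc : ∀ dir, ¬ HasRun dir kc (CS (2 ^ (kc + 4)) (2 ^ (kc + 5 + (8 * ν + 1))) (kc + 2) (2 ^ (kc - w0)) nb
          ((Q + 1) * q)) t := by
        intro dir hr
        apply hnot
        left
        cases dir
        · exact Or.inl ⟨htE, hr⟩
        · exact Or.inr ⟨htE, hr⟩
      have hnf : ∀ dir, ¬ HasRun dir kc (RFill kc (8 * ν + 1 + 3) ((Q + 1) * q) (J0 + 1) (LongL kc (8 * ν + 1 + 3)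
          (yy m ν Q kc q * m (kc + 5) + 2 * (2 : ℝ) ^ (β * ((T2.ff η (kc + 5) + 2 : ℕ) : ℝ)) + 4))) t := by
        intro dir hr
        have hr' := hls kc (8 * ν + 1 + 3) ((Q + 1) * q) (J0 + 1) dir (yy m ν Q kc q * m (kc + 5)) t a3 (by
          have : 8 ≤ 8 * ν * (i + 1) := TI.a3 hν
          omega) ht hnd hr
        apply hnot
        right
        cases dir
        · exact Or.inl ⟨htE, hr'⟩
        · exact Or.inr ⟨htE, hr'⟩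
      rw [show kc + 4 + 8 * ν + 2 = kc + 5 + (8 * ν + 1) by ring] at hb
      exact hstep (N := (Q + 1) * q) (q := q) (kc := kc) (y := yy m ν Q kc q)
        (S2 := (2 : ℝ) ^ (β * ((T2.ff η (kc + 5) + 2 : ℕ) : ℝ))) ht.1 a1 a2 hnb hJ rfl (by positivity) a6 a4 hnc hnf
        x z hb hxz
  obtain ⟨x, z, hb, hxz⟩ := hP I le_rfl
  obtain ⟨b1, b2, b3⟩ := hend
  apply hnd
  refine ⟨ht, l - 8 * ν * I + 5, b2, by omega, Or.inr ⟨(t.drop x).take (z - x), ?_, ?_, ?_⟩⟩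
  · exact (List.take_prefix _ _).isInfix.trans (List.drop_suffix _ _).isInfix
  · obtain ⟨l', hl'⟩ : ∃ l', l' = l - 8 * ν * I := ⟨_, rfl⟩
    rw [← hl'] at hb ⊢
    have h3 : (t.drop x).take (z - x) ∈ WL (l' + 3 + 2) := by
      apply T2.infix_WL ht.1 hb.1 hb.2.1
      intro dir i j hi hi' hj hj'
      have := hb.2.2 dir i j hi hi' hj hj'
      unfold row
      have hp : (1 : ℤ) ≤ 2 ^ (l' + 2) := by exact_mod_cast Nat.one_le_two_pow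
      rw [show l' + 3 = l' + 2 + 1 by ring, pow_succ]
      omega
    exact h3
  · have h4 : ((t.drop x).take (z - x)).length = z - x := by
      rw [List.length_take, List.length_drop]
      have := hb.1
      have := hb.2.1
      omega
    rw [h4, Nat.cast_sub hb.1]
    exact b3.trans hxz

/-- the weight of the bad runs -/
lemma bad_gfR {E : ι → ℕ → Set (List Bool)} {nu : ℕ → ℝ≥0∞} {SR : ℕ → Set (List (List Bool)) → ℝ → Prop} {m : ℕ → ℝ}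
    {η Ce C0 : ℝ} {Q ν J0 w0 nb k kc J q : ℕ} {a : ι} (hCe : 0 ≤ Ce) (hC0 : 0 < C0) (hk : k = kc + J)
    (hrun : ∀ (dir : Bool) (R : Set (List (List Bool))) (δ : ℝ), 0 < δ → SR kc R δ →
      gf {t | t ∈ E a (kc + J) ∧ HasRun dir kc R t} ≤ ENNReal.ofReal (Ce ^ J * δ) * nu (kc + J))
    (hc : SR kc (CS (2 ^ (kc + 4)) (2 ^ (kc + 5 + (8 * ν + 1))) (kc + 2) (2 ^ (kc - w0)) nb ((Q + 1) * q))
      (C0 / 4 ^ ((Q + 1) * q)))
    (hf : SR kc (RFill kc (8 * ν + 1 + 3) ((Q + 1) * q) (J0 + 1)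
      (BrR (2 ^ (kc + 4)) (2 ^ (kc + (8 * ν + 1 + 3) + 2)) ∩ T2.Sp (T2.ee η (kc + 5)) (yy m ν Q kc q * m (kc + 5))))
      (1 / 4 ^ ((Q + 1) * q))) :
    gf (BadR (E a k) m η Q ν J0 w0 nb kc q) ≤ ENNReal.ofReal (2 * (C0 + 1) * Ce ^ J / 4 ^ ((Q + 1) * q)) * nu k := by
  subst hk
  have h1 := fun dir => hrun dir _ _ (by positivity) hc
  have h2 := fun dir => hrun dir _ _ (by positivity) hf
  refine (gf_union_le _ _).trans ((add_le_add (gf_union_le _ _) (gf_union_le _ _)).trans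
    ((add_le_add (add_le_add (h1 false) (h1 true)) (add_le_add (h2 false) (h2 true))).trans (le_of_eq ?_)))
  rw [← add_mul, ← add_mul, ← add_mul, ← ENNReal.ofReal_add (by positivity) (by positivity),
    ← ENNReal.ofReal_add (by positivity) (by positivity), ← ENNReal.ofReal_add (by positivity) (by positivity)]
  congr 2
  ring

end TIx

end NTA

end HexObs
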