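import Pool.Agent.BAR.TypB

/-!
NTA: word without a cut (reversed), bridge of height at least r0, word without a cut: the joined words by the number of
letters.  The joined word has a displacement of at least r0 rows.
-/

set_option autoImplicit false

namespace HexObs

open Complex Finset ENNReal

namespace BAR

/-- half plane words with m letters whose last position has at least the level h -/
def HpF (m : ℕ) (h : ℤ) : Set (List Bool) := {v | v ∈ HpN m ∧ h ≤ lev v m}

/-- words with n letters whose last position is at least h away in one of the six directions -/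
def SawF (n : ℕ) (h : ℤ) : Set (List Bool) := {t | t ∈ SawN n ∧ ∃ d ∈ dirs, h ≤ ip (vx oo up t n) d}

lemma HpF_fin (m : ℕ) (h : ℤ) : (HpF m h).Finite := (HpN_fin m).subset fun _ h => h.1

lemma SawF_fin (n : ℕ) (h : ℤ) : (SawF n h).Finite := (PHWDict.SawN_fin n).subset fun _ h => h.1

/-- the joined word goes at least as far as its second part -/
theorem glue_far {k l : ℕ} {s v : List Bool} {x : Bool} {h : ℤ} (hs : s ++ [x] ∈ HpN (k + 1)) (hv : v ∈ HpF l h) :
    rev s ++ v ∈ SawF (k + l) h := by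
  refine ⟨glue_mem hs hv.1, jd s, jd_dirs s, ?_⟩
  obtain ⟨s1, s2, s3⟩ := HpN_iff.1 hs
  rw [List.length_append, List.length_singleton] at s1
  have hsl : s.length = k := by omega
  have h1 : 0 < lev s (k + 1) := by
    have h3 := s2 (k + 1) (by omega) (by rw [List.length_append, List.length_singleton]; omega)
    unfold lev at h3 ⊢
    rwa [vx_append (by omega)] at h3
  have h2 := lev_pos_two h1
  have h3 := jlev_snd s v l
  rw [hsl] at h3
  have h4 := jlev_fst s v (i := k) (by omega)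
  rw [hsl, show k + 1 - k = 1 by omega, lev_one] at h4
  have h5 := hv.2
  omega

/-- **The joined words with a large displacement.** -/
theorem count_far (n : ℕ) (h : ℤ) :
    ∑ k ∈ Finset.range (n + 1), cI (k + 1) * (HpF (n - k) h).ncard ≤ 12 * (SawF n h).ncard := by
  classical
  obtain ⟨A, hA⟩ : ∃ A : ℕ → Finset (List Bool), A = fun k => (HiN_fin k).toFinset := ⟨_, rfl⟩
  obtain ⟨B, hB⟩ : ∃ B : ℕ → Finset (List Bool), B = fun k => (HpF_fin k h).toFinset := ⟨_, rfl⟩
  have hA1 : ∀ k, (A k).card = cI k := fun k => by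
    rw [hA]
    exact (Set.ncard_eq_toFinset_card _ (HiN_fin k)).symm
  have hB1 : ∀ k, (B k).card = (HpF k h).ncard := fun k => by
    rw [hB]
    exact (Set.ncard_eq_toFinset_card _ (HpF_fin k h)).symm
  have hAm : ∀ k t, t ∈ A k ↔ t ∈ HiN k := fun k t => by
    rw [hA]
    exact Set.Finite.mem_toFinset _
  have hBm : ∀ k t, t ∈ B k ↔ t ∈ HpF k h := fun k t => by
    rw [hB]
    exact Set.Finite.mem_toFinset _
  obtain ⟨X, hX⟩ : ∃ X : Finset ((_ : ℕ) × (List Bool × List Bool)),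
    X = (Finset.range (n + 1)).sigma fun k => A (k + 1) ×ˢ B (n - k) := ⟨_, rfl⟩
  have hXm : ∀ q, q ∈ X ↔ q.1 ≤ n ∧ q.2.1 ∈ HiN (q.1 + 1) ∧ q.2.2 ∈ HpF (n - q.1) h := fun q => by
    rw [hX, Finset.mem_sigma, Finset.mem_product, Finset.mem_range, hAm, hBm, Nat.lt_succ_iff]
  have hcard : X.card = ∑ k ∈ Finset.range (n + 1), cI (k + 1) * (HpF (n - k) h).ncard := by
    rw [hX, Finset.card_sigma]
    exact Finset.sum_congr rfl fun k _ => by rw [Finset.card_product, hA1, hB1]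
  obtain ⟨F, hF⟩ : ∃ F : (_ : ℕ) × (List Bool × List Bool) → Bool × Pt × List Bool,
    F = fun q => (q.2.1.getLastD true, jd q.2.1.dropLast, rev q.2.1.dropLast ++ q.2.2) := ⟨_, rfl⟩
  obtain ⟨Y, hY⟩ : ∃ Y : Finset (Bool × Pt × List Bool),
    Y = Finset.univ ×ˢ dirs ×ˢ (SawF_fin n h).toFinset := ⟨_, rfl⟩
  have hYc : Y.card = 12 * (SawF n h).ncard := by
    rw [hY, Finset.card_product, Finset.card_product]
    have h1 : (Finset.univ : Finset Bool).card = 2 := by decide
    have h2 : dirs.card = 6 := by decide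
    have h3 : (SawF_fin n h).toFinset.card = (SawF n h).ncard := (Set.ncard_eq_toFinset_card _ (SawF_fin n h)).symm
    rw [h1, h2, h3]
    ring
  rw [← hcard, ← hYc]
  apply Finset.card_le_card_of_injOn F
  · rintro ⟨k, a, v⟩ hq
    obtain ⟨h1, h2, h3⟩ := (hXm _).1 hq
    rw [hF, hY, Finset.mem_coe, Finset.mem_product, Finset.mem_product, Set.Finite.mem_toFinset]
    refine ⟨Finset.mem_univ _, jd_dirs _, ?_⟩
    have h4 := last_form h2.1.1
    have h5 := glue_far (s := a.dropLast) (x := a.getLastD true) (v := v) (k := k) (l := n - k) (h := h)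
      (by rw [← h4]; exact h2.1) h3
    rwa [show k + (n - k) = n by simp only at h1; omega] at h5
  · have key : ∀ (k k' : ℕ) (a v a' v' : List Bool), k ≤ n → a ∈ HiN (k + 1) → v ∈ HpN (n - k) →
        a' ∈ HiN (k' + 1) → v' ∈ HpN (n - k') → jd a.dropLast = jd a'.dropLast →
        rev a.dropLast ++ v = rev a'.dropLast ++ v' → ¬ k < k' := by
      intro k k' a v a' v' hk h1 h2 h3 h4 h5 h6 hlt
      have e1 := last_form h1.1.1
      have e3 := last_form h3.1.1
      have h7 := glue_cut (s := a.dropLast) (x := a.getLastD true) (v := v) (k := k) (l := n - k)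
        (s' := a'.dropLast) (x' := a'.getLastD true) (v' := v') (k' := k') (l' := n - k')
        (by rw [← e1]; exact h1.1) h2 (by rw [← e3]; exact h3.1) h4 h6 h5 hlt
      rw [← e3, h3.2] at h7
      exact Finset.not_nonempty_empty h7
    rintro ⟨k, a, v⟩ hq ⟨k', a', v'⟩ hq' he
    obtain ⟨h1, h2, h3⟩ := (hXm _).1 hq
    obtain ⟨h1', h2', h3'⟩ := (hXm _).1 hq'
    simp only at h1 h2 h3 h1' h2' h3'
    rw [hF] at he
    simp only [Prod.mk.injEq] at he
    obtain ⟨he1, he2, he3⟩ := he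
    have hk : k = k' := by
      rcases Nat.lt_trichotomy k k' with h | h | h
      · exact absurd h (key k k' a v a' v' h1 h2 h3.1 h2' h3'.1 he2 he3)
      · exact h
      · exact absurd h (key k' k a' v' a v h1' h2' h3'.1 h2 h3.1 he2.symm he3.symm)
    subst hk
    have l1 : a.length = k + 1 := h2.1.1
    have l2 : a'.length = k + 1 := h2'.1.1
    obtain ⟨e4, e5⟩ := List.append_inj he3 (by
      rw [rev_length, rev_length, List.length_dropLast, List.length_dropLast, l1, l2])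
    have e6 : a.dropLast = a'.dropLast := by rw [← rev_rev a.dropLast, e4, rev_rev]
    have e7 : a = a' := by rw [last_form l1, last_form l2, e6, he1]
    subst e7
    subst e5
    rfl

/-! ### Bridges of height at least r0 -/

/-- bridges of height at least r0 with n letters -/
def BLF (r0 n : ℕ) : Set (List Bool) := {w | (∃ r, r0 ≤ r ∧ w ∈ Brd r) ∧ w.length = n}

/-- their weight, 2 j letters -/
noncomputable def ubF (r0 j : ℕ) : ℝ := (gf (BLF r0 (2 * j))).toReal

lemma BLF_ne_top (r0 n : ℕ) : gf (BLF r0 n) ≠ ⊤ :=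
  ne_top_of_le_ne_top (BrL.BLs_ne_top n) (gf_mono fun _ h => ⟨⟨h.1.choose, h.1.choose_spec.2⟩, h.2⟩)

lemma ubF_nonneg (r0 j : ℕ) : 0 ≤ ubF r0 j := ENNReal.toReal_nonneg

lemma gf_ncard {B : Set (List Bool)} {n : ℕ} (hf : B.Finite) (hB : ∀ t ∈ B, t.length = n) :
    gf B = ENNReal.ofReal (B.ncard * xc ^ n) := by
  have h1 : (hf.toFinset : Set (List Bool)) = B := Set.Finite.coe_toFinset _
  have h2 : ∀ t ∈ hf.toFinset, xc ^ t.length = xc ^ n := by
    intro t ht
    rw [Set.Finite.mem_toFinset] at ht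
    rw [hB t ht]
  have h3 : gf (hf.toFinset : Set (List Bool)) = ENNReal.ofReal ((hf.toFinset.card : ℝ) * xc ^ n) := by
    rw [gf_finset, Finset.sum_congr rfl h2, Finset.sum_const, nsmul_eq_mul]
  rw [h1] at h3
  rw [h3, Set.ncard_eq_toFinset_card _ hf]

/-- **high bridges in front of words without a cut** -/
theorem conv_cHF (r0 m : ℕ) : ∑ j ∈ (Finset.range (m + 1)).filter (fun j => 2 * j ≤ m),
    ubF r0 j * ((cI (m - 2 * j) : ℝ) * xc ^ (m - 2 * j)) ≤ ((HpF m (3 * r0)).ncard : ℝ) * xc ^ m := by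
  have hx := xc_pos
  obtain ⟨P, hP⟩ : ∃ P : ℕ → Set (List Bool), P = fun j =>
    {w | ∃ c ∈ BLF r0 (2 * j), ∃ s ∈ HiN (m - 2 * j), w = c ++ s} := ⟨_, rfl⟩
  have key : ∀ r r' i j : ℕ, ∀ c s c' s' : List Bool, r ≤ r' → c ∈ Brd r → c' ∈ Brd r' → c.length = 2 * i →
      c'.length = 2 * j → s ∈ HiN (m - 2 * i) → s' ∈ HiN (m - 2 * j) → c ++ s = c' ++ s' → c = c' ∧ s = s' := by
    intro r r' i j c s c' s' hr hc hc' hl hl' hs hs' h
    obtain ⟨v, hv, h2, h3⟩ := nested hc hc' (HpN_iff.1 hs.1).2.1 (HpN_iff.1 hs'.1).2.1 hr h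
    rcases Nat.eq_zero_or_pos (r' - r) with h0 | h0
    · rw [h0, Brd_zero] at hv
      have h4 : v = [] := hv
      rw [h4, List.append_nil] at h2
      rw [h4, List.nil_append] at h3
      exact ⟨h2.symm, h3⟩
    · exfalso
      have h5 := cutP_cat h0 hv (HpN_iff.1 hs'.1).2.1
      rw [← h3, ← mem_cuts, hs.2] at h5
      exact absurd h5 (Finset.notMem_empty _)
  have key' : ∀ i j : ℕ, ∀ c s c' s' : List Bool, c ∈ BLF r0 (2 * i) → c' ∈ BLF r0 (2 * j) →
      s ∈ HiN (m - 2 * i) → s' ∈ HiN (m - 2 * j) → c ++ s = c' ++ s' → c = c' ∧ s = s' := by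
    rintro i j c s c' s' ⟨⟨r, -, hc⟩, hl⟩ ⟨⟨r', -, hc'⟩, hl'⟩ hs hs' h
    rcases Nat.le_total r r' with hr | hr
    · exact key r r' i j c s c' s' hr hc hc' hl hl' hs hs' h
    · obtain ⟨h1, h2⟩ := key r' r j i c' s' c s hr hc' hc hl' hl hs' hs h.symm
      exact ⟨h1.symm, h2.symm⟩
  have h1 : ∀ j, gf (BLF r0 (2 * j)) * gf (HiN (m - 2 * j)) ≤ gf (P j) := by
    intro j
    rw [hP]
    refine mul_le_gf (fun a ha b hb => ⟨a, ha, b, hb, rfl⟩) ?_
    intro a ha b hb a' ha' b' hb' h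
    exact (key' j j a b a' b' ha ha' hb hb' h).1
  have h2 : ∑ j ∈ (Finset.range (m + 1)).filter (fun j => 2 * j ≤ m), gf (BLF r0 (2 * j)) * gf (HiN (m - 2 * j)) ≤
      gf (HpF m (3 * r0)) := by
    refine (Finset.sum_le_sum fun j _ => h1 j).trans ((gf_bi_eq _ _ ?_).trans (gf_mono ?_))
    · intro i j w hi hj
      rw [hP] at hi hj
      obtain ⟨c, hc, s, hs, hw⟩ := hi
      obtain ⟨c', hc', s', hs', hw'⟩ := hj
      have h3 := (key' i j c s c' s' hc hc' hs hs' (hw ▸ hw')).1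
      have h4 := hc.2
      have h5 := hc'.2
      rw [← h3] at h5
      omega
    · intro w hw
      rw [Set.mem_iUnion₂] at hw
      obtain ⟨j, hj, hw⟩ := hw
      rw [hP] at hw
      obtain ⟨c, ⟨⟨r, hr, hc⟩, hl⟩, s, hs, hw⟩ := hw
      rw [Finset.mem_filter] at hj
      have h3 := cat_HpN hc hl hs.1
      have h6 : 2 * j + (m - 2 * j) = m := by omega
      have hsl := (HpN_iff.1 hs.1).1
      refine ⟨?_, ?_⟩
      · rw [hw]
        rwa [h6] at h3
      · obtain ⟨_, _, c3, c4⟩ := mem_Brd.1 hc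
        have h7 := lev_cat (t := s) c3 (m - 2 * j)
        rw [c4, show c.length + (m - 2 * j) = m by omega] at h7
        rw [hw, h7]
        have h8 : 0 ≤ lev s (m - 2 * j) := by
          rcases Nat.eq_zero_or_pos (m - 2 * j) with h0 | h0
          · rw [h0, lev_zero]
          · exact ((HpN_iff.1 hs.1).2.1 _ h0 (by omega)).le
        have h9 : (r0 : ℤ) ≤ r := by exact_mod_cast hr
        linarith
  have h3 : ∀ j, gf (BLF r0 (2 * j)) * gf (HiN (m - 2 * j)) =
      ENNReal.ofReal (ubF r0 j * ((cI (m - 2 * j) : ℝ) * xc ^ (m - 2 * j))) := by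
    intro j
    rw [ENNReal.ofReal_mul (ubF_nonneg _ _), gf_HiN]
    congr 1
    unfold ubF
    exact (ENNReal.ofReal_toReal (BLF_ne_top _ _)).symm
  rw [Finset.sum_congr rfl fun j _ => h3 j, gf_ncard (HpF_fin m _) (fun t ht => ht.1.1),
    ← ENNReal.ofReal_sum_of_nonneg] at h2
  · rw [ENNReal.ofReal_le_ofReal_iff (by positivity)] at h2
    exact h2
  · intro j _
    exact mul_nonneg (ubF_nonneg _ _) (by positivity)

/-- **the triple convolution, with a large displacement** -/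
theorem conv_far (r0 n : ℕ) (F : Finset (ℕ × ℕ × ℕ)) (hF : ∀ p ∈ F, p.1 + 2 * p.2.1 + p.2.2 = n) :
    ∑ p ∈ F, ((cI (p.1 + 1) : ℝ) * xc ^ (p.1 + 1)) * (ubF r0 p.2.1 * ((cI p.2.2 : ℝ) * xc ^ p.2.2)) ≤
      12 * (((SawF n (3 * r0)).ncard : ℝ) * xc ^ n) := by
  classical
  have hx := xc_pos
  have hub : ∀ j, 0 ≤ ubF r0 j := ubF_nonneg r0
  obtain ⟨g, hg⟩ : ∃ g : ℕ × ℕ → ℝ, g = fun q => ((cI (q.1 + 1) : ℝ) * xc ^ (q.1 + 1)) *
    (ubF r0 q.2 * ((cI (n - q.1 - 2 * q.2) : ℝ) * xc ^ (n - q.1 - 2 * q.2))) := ⟨_, rfl⟩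
  obtain ⟨T, hT⟩ : ∃ T : Finset (ℕ × ℕ), T = (Finset.range (n + 1) ×ˢ Finset.range (n + 1)).filter
    (fun q => 2 * q.2 ≤ n - q.1) := ⟨_, rfl⟩
  have h1 : ∑ p ∈ F, ((cI (p.1 + 1) : ℝ) * xc ^ (p.1 + 1)) * (ubF r0 p.2.1 * ((cI p.2.2 : ℝ) * xc ^ p.2.2)) =
      ∑ q ∈ F.image (fun p => (p.1, p.2.1)), g q := by
    rw [Finset.sum_image]
    · refine Finset.sum_congr rfl fun p hp => ?_
      have h2 := hF p hp
      rw [hg]
      show _ = ((cI (p.1 + 1) : ℝ) * xc ^ (p.1 + 1)) *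
        (ubF r0 p.2.1 * ((cI (n - p.1 - 2 * p.2.1) : ℝ) * xc ^ (n - p.1 - 2 * p.2.1)))
      rw [show n - p.1 - 2 * p.2.1 = p.2.2 by omega]
    · intro p hp p' hp' h
      have h2 := hF p hp
      have h3 := hF p' hp'
      have e1 := congrArg Prod.fst h
      have e2 := congrArg Prod.snd h
      simp only at e1 e2
      refine Prod.ext e1 (Prod.ext e2 ?_)
      omega
  have h2 : ∑ q ∈ F.image (fun p => (p.1, p.2.1)), g q ≤ ∑ q ∈ T, g q := by
    refine Finset.sum_le_sum_of_subset_of_nonneg ?_ fun q _ _ => ?_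
    · intro q hq
      obtain ⟨p, hp, rfl⟩ := Finset.mem_image.1 hq
      have h3 := hF p hp
      rw [hT, Finset.mem_filter, Finset.mem_product, Finset.mem_range, Finset.mem_range]
      refine ⟨⟨?_, ?_⟩, ?_⟩ <;> simp only <;> omega
    · rw [hg]
      exact mul_nonneg (by positivity) (mul_nonneg (hub _) (by positivity))
  have h3 : ∑ q ∈ T, g q = ∑ k ∈ Finset.range (n + 1), ((cI (k + 1) : ℝ) * xc ^ (k + 1)) *
      ∑ j ∈ (Finset.range (n + 1)).filter (fun j => 2 * j ≤ n - k),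
        ubF r0 j * ((cI (n - k - 2 * j) : ℝ) * xc ^ (n - k - 2 * j)) := by
    rw [hT, Finset.sum_filter, Finset.sum_product]
    refine Finset.sum_congr rfl fun k _ => ?_
    rw [← Finset.sum_filter, Finset.mul_sum]
    exact Finset.sum_congr rfl fun j _ => by rw [hg]
  have h4 : ∀ k ∈ Finset.range (n + 1), ∑ j ∈ (Finset.range (n + 1)).filter (fun j => 2 * j ≤ n - k),
      ubF r0 j * ((cI (n - k - 2 * j) : ℝ) * xc ^ (n - k - 2 * j)) ≤
        ((HpF (n - k) (3 * r0)).ncard : ℝ) * xc ^ (n - k) := by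
    intro k _
    refine le_trans (le_of_eq ?_) (conv_cHF r0 (n - k))
    refine Finset.sum_congr ?_ fun _ _ => rfl
    ext j
    rw [Finset.mem_filter, Finset.mem_filter, Finset.mem_range, Finset.mem_range]
    omega
  have h5 : ∑ k ∈ Finset.range (n + 1), (cI (k + 1) : ℝ) * ((HpF (n - k) (3 * r0)).ncard : ℝ) ≤
      12 * (SawF n (3 * r0)).ncard := by
    exact_mod_cast count_far n (3 * r0)
  rw [h1]
  refine h2.trans (h3.le.trans ?_)
  calc ∑ k ∈ Finset.range (n + 1), ((cI (k + 1) : ℝ) * xc ^ (k + 1)) *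
        ∑ j ∈ (Finset.range (n + 1)).filter (fun j => 2 * j ≤ n - k),
          ubF r0 j * ((cI (n - k - 2 * j) : ℝ) * xc ^ (n - k - 2 * j)) ≤
      ∑ k ∈ Finset.range (n + 1), (cI (k + 1) : ℝ) * ((HpF (n - k) (3 * r0)).ncard : ℝ) * xc ^ (n + 1) := by
        refine Finset.sum_le_sum fun k hk => ?_
        have h6 := h4 k hk
        rw [Finset.mem_range] at hk
        calc _ ≤ ((cI (k + 1) : ℝ) * xc ^ (k + 1)) * (((HpF (n - k) (3 * r0)).ncard : ℝ) * xc ^ (n - k)) :=
              mul_le_mul_of_nonneg_left h6 (by positivity)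
          _ = (cI (k + 1) : ℝ) * ((HpF (n - k) (3 * r0)).ncard : ℝ) * (xc ^ (k + 1) * xc ^ (n - k)) := by ring
          _ = _ := by rw [← pow_add, show k + 1 + (n - k) = n + 1 by omega]
    _ = (∑ k ∈ Finset.range (n + 1), (cI (k + 1) : ℝ) * ((HpF (n - k) (3 * r0)).ncard : ℝ)) * xc ^ (n + 1) := by
        rw [Finset.sum_mul]
    _ ≤ 12 * (SawF n (3 * r0)).ncard * xc ^ (n + 1) := mul_le_mul_of_nonneg_right h5 (by positivity)
    _ = 12 * (((SawF n (3 * r0)).ncard : ℝ) * xc ^ n) * xc := by ring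
    _ ≤ 12 * (((SawF n (3 * r0)).ncard : ℝ) * xc ^ n) * 1 := by
        apply mul_le_mul_of_nonneg_left _ (by positivity)
        linarith [xc_le]
    _ = _ := mul_one _

end BAR

end HexObs
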