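import Pool.Agent.NTA.FinX
import Pool.Agent.EN.FactsZ
import Pool.Agent.NTS.ResultOut

/-!
# NTA/FinXAll: the result for EVERY step number, no hypothesis (helper83)

* `NTSF.finX_b` : `ConclE b` from `b → LowX MZ`;
* **`NTSF.finE`** : `ConclE False`.
-/

set_option autoImplicit false

open HexObs HexObs.NTW HexObs.EN

namespace NTSF

theorem finX_b {b : Prop} (hL : b → LowX MZ) : ConclE b :=
  finX_of factsX_M (fun _ ha h => holdX_M (VF.mLow VF.sharpZ) (VF.mUp VF.sharpZ) ha h) hL

/-- **the natural time of the self-avoiding walk, every step number** -/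
theorem finE : ConclE False := finX_b fun h => h.elim

end NTSF
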