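import Pool.Agent.NTW.JoinL

/-!
NTA: half plane words of a height in (N0, N] with a number of letters in [L, lam]: a leaf of a height in [N0, N] and a
half plane word that hangs at its end; the lower bound L of the number of letters stays up to two letters.
-/

set_option autoImplicit false

namespace HexObs

namespace NTW

open Finset TS SDN

open scoped ENNReal

namespace LTop

/-- the words with at least L and at most lam letters that belong to the leaf g -/
def LTA (T L lam : ℕ) (g : List Bool) : Set (List Bool) := {t | L ≤ t.length ∧ t ∈ JLA T lam g}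

/-- the words that hang at the end of g, number of letters in a window -/
noncomputable def LTg (m L lam : ℕ) (g : List Bool) : ℝ≥0∞ :=
  gf {W1 | W1 ∈ SSt m ∧ LFold g W1 ∧ L ≤ g.length + W1.length + 2 ∧ g.length + W1.length ≤ lam}

/-- the weight of the leaf and of the words that hang at its end -/
noncomputable def LTF (m L lam : ℕ) (g : List Bool) : ℝ≥0∞ :=
  (if L ≤ g.length + 2 ∧ g.length ≤ lam then 1 else 0) + LTg m L lam g

lemma LT_gf (T L lam : ℕ) (g : List Bool) : gf (LTA T L lam g) ≤ wE g * (4 * LTF (T - 1) L lam g) := by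
  have h00 : gf (∅ : Set (List Bool)) = 0 := by
    unfold gf
    rw [_root_.tsum_subtype]
    simp
  rcases List.eq_nil_or_concat g with h | ⟨s, b, h⟩
  · have h1 : LTA T L lam g ⊆ ∅ := by
      rintro t ⟨_, _, s, b, hg, _⟩
      rw [h] at hg
      simp at hg
    exact (gf_mono h1).trans (by rw [h00]; exact zero_le)
  have hg : g = s ++ [b] := by rw [h, List.concat_eq_append]
  have hgl : g.length = s.length + 1 := by
    rw [hg, List.length_append]
    rfl
  have huniq : ∀ s' b', g = s' ++ [b'] → s' = s ∧ b' = b := by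
    intro s' b' h2
    rw [hg] at h2
    have h3 := List.append_inj' h2 rfl
    exact ⟨h3.1.symm, by simpa using h3.2.symm⟩
  obtain ⟨R, hR⟩ : ∃ R : Set (List Bool), R = {r | r ∈ SSt (T - 1) ∧ LFold g r ∧ L ≤ g.length + r.length + 2 ∧
      g.length + r.length ≤ lam} := ⟨_, rfl⟩
  have hRg : gf R = LTg (T - 1) L lam g := by rw [hR]; rfl
  have w1 : ∀ c, wE (s ++ [c]) = wE g := by
    intro c
    apply B2b_wE_length
    rw [hg]
    simp
  have w2 : ∀ c c', wE (s ++ [c, c']) ≤ wE g := by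
    intro c c'
    have e1 : s ++ [c, c'] = (s ++ [c]) ++ [c'] := by simp
    rw [e1, wE_append, w1]
    exact mul_le_of_le_one_right' (B2b_wE_le_one _)
  have h3 : gf {t | ∃ a ∈ ({s ++ [!b, !b]} : Set (List Bool)), ∃ q ∈ {q | ∃ r ∈ R,
      ∃ e ∈ {e : List Bool | e.length ≤ 1}, q = r ++ e}, t = a ++ q} ≤ wE g * (gf R * 3) := by
    refine (gf_le_mul (Q := {s ++ [!b, !b]}) (R := {q | ∃ r ∈ R, ∃ e ∈ {e : List Bool | e.length ≤ 1}, q = r ++ e})
      (fun t ht => ht)).trans ?_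
    rw [B2b_gf_singleton]
    apply mul_le_mul' (w2 _ _)
    refine (gf_le_mul (Q := R) (R := {e : List Bool | e.length ≤ 1}) (fun t ht => ht)).trans ?_
    exact mul_le_mul' le_rfl B2b_gf_short
  by_cases hw : L ≤ g.length + 2 ∧ g.length ≤ lam
  · have h1 : LTA T L lam g ⊆ ({s ++ [true]} ∪ {s ++ [false]}) ∪ ({s ++ [!b, b]} ∪
        {t | ∃ a ∈ ({s ++ [!b, !b]} : Set (List Bool)), ∃ q ∈ {q | ∃ r ∈ R,
          ∃ e ∈ {e : List Bool | e.length ≤ 1}, q = r ++ e}, t = a ++ q}) := by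
      rintro t ⟨htL, htl, s', b', h2, ht⟩
      obtain ⟨rfl, rfl⟩ := huniq s' b' h2
      rcases ht with ⟨c, rfl⟩ | ⟨r, e, hr, he, hh, ht⟩
      · cases c
        · exact Or.inl (Or.inr rfl)
        · exact Or.inl (Or.inl rfl)
      · rcases ht with rfl | ⟨rfl, rfl⟩
        · right
          right
          refine ⟨_, rfl, r ++ e, ⟨r, ?_, e, he, rfl⟩, by simp⟩
          rw [hR]
          simp only [List.length_append, List.length_cons] at htl htL
          refine ⟨hr, ?_, by omega, by omega⟩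
          unfold LFold
          rw [hg, JL_lst]
          exact hh
        · exact Or.inr (Or.inl rfl)
    calc gf (LTA T L lam g) ≤ _ := gf_mono h1
      _ ≤ _ := gf_union_le _ _
      _ ≤ (wE g + wE g) + (wE g + wE g * (gf R * 3)) := by
          apply add_le_add
          · refine (gf_union_le _ _).trans ?_
            rw [B2b_gf_singleton, B2b_gf_singleton, w1, w1]
          · refine (gf_union_le _ _).trans ?_
            rw [B2b_gf_singleton]
            exact add_le_add (w2 _ _) h3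
      _ = wE g * (3 * 1 + 3 * gf R) := by ring
      _ ≤ wE g * (4 * 1 + 4 * gf R) := by
          gcongr <;> norm_num
      _ = wE g * (4 * LTF (T - 1) L lam g) := by
          unfold LTF
          rw [if_pos hw, hRg]
          ring
  · have h1 : LTA T L lam g ⊆ {t | ∃ a ∈ ({s ++ [!b, !b]} : Set (List Bool)), ∃ q ∈ {q | ∃ r ∈ R,
          ∃ e ∈ {e : List Bool | e.length ≤ 1}, q = r ++ e}, t = a ++ q} := by
      rintro t ⟨htL, htl, s', b', h2, ht⟩
      obtain ⟨rfl, rfl⟩ := huniq s' b' h2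
      rcases ht with ⟨c, rfl⟩ | ⟨r, e, hr, he, hh, ht⟩
      · exfalso
        simp only [List.length_append, List.length_cons, List.length_nil] at htl htL
        omega
      · rcases ht with rfl | ⟨rfl, rfl⟩
        · refine ⟨_, rfl, r ++ e, ⟨r, ?_, e, he, rfl⟩, by simp⟩
          rw [hR]
          simp only [List.length_append, List.length_cons] at htl htL
          refine ⟨hr, ?_, by omega, by omega⟩
          unfold LFold
          rw [hg, JL_lst]
          exact hh
        · exfalso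
          simp only [List.length_append, List.length_cons, List.length_nil] at htl htL
          omega
    calc gf (LTA T L lam g) ≤ _ := gf_mono h1
      _ ≤ wE g * (gf R * 3) := h3
      _ = wE g * (3 * gf R) := by ring
      _ ≤ wE g * (4 * gf R) := by
          gcongr
          norm_num
      _ = wE g * (4 * LTF (T - 1) L lam g) := by
          unfold LTF
          rw [if_neg hw, hRg]
          ring

theorem topLT {P : Set (List Bool)} (hP : PrefC P) (hL : LastC P) {T : ℕ} (hT : 1 ≤ T) (L lam : ℕ) :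
    gf (HT T ∩ {t | t ∈ P ∧ L ≤ t.length ∧ t.length ≤ lam}) ≤
      4 * ∑' g : {g : List Bool // g ∈ Brd T ∧ g ∈ P}, wE g.1 * LTF (T - 1) L lam g.1 := by
  have h1 : HT T ∩ {t | t ∈ P ∧ L ≤ t.length ∧ t.length ≤ lam} ⊆
      ⋃ g : {g : List Bool // g ∈ Brd T ∧ g ∈ P}, LTA T L lam g.1 := by
    rintro t ⟨ht, htP, htL, htl⟩
    obtain ⟨s, b, hs, hcase⟩ := HT_split hT ht
    have hsP : s ++ [b] ∈ P := by
      rcases hcase with ⟨c, rfl⟩ | ⟨r, e, _, _, _, h | ⟨_, h⟩⟩
      · exact hL _ _ _ htP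
      · have e1 : t = (s ++ [!b]) ++ ((!b) :: (r ++ e)) := by rw [h]; simp
        rw [e1] at htP
        exact hL _ _ _ (hP _ _ htP)
      · have e1 : t = (s ++ [!b]) ++ [b] := by rw [h]; simp
        rw [e1] at htP
        exact hL _ _ _ (hP _ _ htP)
    rw [Set.mem_iUnion]
    refine ⟨⟨s ++ [b], hs, hsP⟩, htL, htl, s, b, rfl, ?_⟩
    rcases hcase with h | ⟨r, e, hr, he, hh, h⟩
    · exact Or.inl h
    · exact Or.inr ⟨r, e, hr, he, hh [] (Or.inl rfl), h⟩
  calc gf (HT T ∩ {t | t ∈ P ∧ L ≤ t.length ∧ t.length ≤ lam})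
      ≤ gf (⋃ g : {g : List Bool // g ∈ Brd T ∧ g ∈ P}, LTA T L lam g.1) := gf_mono h1
    _ ≤ ∑' g : {g : List Bool // g ∈ Brd T ∧ g ∈ P}, gf (LTA T L lam g.1) := ENNReal.tsum_iUnion_le_tsum wE _
    _ ≤ ∑' g : {g : List Bool // g ∈ Brd T ∧ g ∈ P}, wE g.1 * (4 * LTF (T - 1) L lam g.1) :=
        ENNReal.tsum_le_tsum (fun g => LT_gf T L lam g.1)
    _ = _ := by
        rw [← ENNReal.tsum_mul_left]
        exact tsum_congr fun g => by ring

end LTop

open LTop

/-- half plane words with a number of letters in [L, lam], height in (N0, N], by the first leaf of the full height -/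
theorem lenTop : ∃ (K : ℝ) (c0 : ℕ), 1 ≤ K ∧ ∀ (P : Set (List Bool)), PrefC P → LastC P →
    ∀ N0 N L lam : ℕ, 1 ≤ N0 → N0 ≤ N →
      gf {W | W ∈ SSt N ∧ W ∉ SSt N0 ∧ W ∈ P ∧ L ≤ W.length ∧ W.length ≤ lam} ≤
        ENNReal.ofReal K * Rec8.sw {g | g ∈ BrR N0 N ∧ g ∈ P} (fun g =>
          (if L ≤ g.length + c0 ∧ g.length ≤ lam then 1 else 0) +
          gf {W1 | W1 ∈ SSt (hgt g - 1) ∧ LFold g W1 ∧ L ≤ g.length + W1.length + c0 ∧
            g.length + W1.length ≤ lam}) := by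
  refine ⟨6, 2, by norm_num, fun P hP hL N0 N L lam hD hDN => ?_⟩
  obtain ⟨Q, hQ⟩ : ∃ Q : Set (List Bool), Q = {g | g ∈ P ∧ L ≤ g.length + 2 ∧ g.length ≤ lam} := ⟨_, rfl⟩
  have hadd : ∀ (c : Bool) (T : ℕ), gf ({t | ∃ g ∈ Brd T ∩ Q, t = g ++ [c]}) ≤ gf (Brd T ∩ Q) := by
    intro c T
    have h1 := gf_le_mul (P := {t | ∃ g ∈ Brd T ∩ Q, t = g ++ [c]}) (Q := Brd T ∩ Q) (R := {[c]}) (by
      rintro t ⟨g, hg, rfl⟩
      exact ⟨g, hg, [c], rfl, rfl⟩)
    refine h1.trans ?_
    have h2 : gf ({[c]} : Set (List Bool)) ≤ 1 := by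
      rw [B2b_gf_singleton]
      exact B2b_wE_le_one _
    calc gf (Brd T ∩ Q) * gf {[c]} ≤ gf (Brd T ∩ Q) * 1 := by gcongr
      _ = gf (Brd T ∩ Q) := mul_one _
  have hsub : {W | W ∈ SSt N ∧ W ∉ SSt N0 ∧ W ∈ P ∧ L ≤ W.length ∧ W.length ≤ lam} ⊆
      (⋃ T ∈ Finset.Icc N0 N, HT (T : ℕ) ∩ {W | W ∈ P ∧ L ≤ W.length ∧ W.length ≤ lam}) ∪
      ((⋃ T ∈ Finset.Icc N0 N, {t | ∃ g ∈ Brd T ∩ Q, t = g ++ [true]}) ∪
       (⋃ T ∈ Finset.Icc N0 N, {t | ∃ g ∈ Brd T ∩ Q, t = g ++ [false]})) := by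
    rintro W ⟨hW, hWD, hWP, hWL, hWl⟩
    rcases SSt_cases hW with ⟨T, hT, h⟩ | ⟨T, hT, g, hg, c, rfl⟩
    · left
      rw [Set.mem_iUnion₂]
      have hDT : N0 ≤ T := by
        by_contra hcon
        exact hWD (Jo_SSt_mono (by omega) h.1)
      exact ⟨T, Finset.mem_Icc.2 ⟨hDT, hT⟩, h, hWP, hWL, hWl⟩
    · right
      have hgP : g ∈ P := hP g [c] hWP
      have hgQ : g ∈ Q := by
        rw [hQ]
        rw [List.length_append, List.length_singleton] at hWl hWL
        exact ⟨hgP, by omega, by omega⟩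
      have hDT : N0 ≤ T := by
        by_contra hcon
        refine hWD ⟨fun i h1 h2 => ?_, hW.inj⟩
        rw [mem_St]
        have h3 := (mem_St.1 (hW.mem i h1 h2)).1
        rw [List.length_append, List.length_singleton] at h2
        rcases Nat.lt_or_ge g.length i with h4 | h4
        · have h5 : i = g.length + 1 := by omega
          have h6 : lev (g ++ [c]) i = lev g (g.length + 1) := by
            unfold lev
            rw [h5, vx_append le_rfl]
          have h7 := lev_succ g g.length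
          rw [(mem_Brd.1 hg).2.2.1, (mem_Brd.1 hg).2.2.2] at h7
          have h8 : ip up up = 2 := by decide
          rw [h8] at h7
          rw [h6, h7]
          omega
        · have h6 : lev (g ++ [c]) i = lev g i := by
            unfold lev
            rw [vx_append (by omega)]
          have h7 := (mem_Brd.1 hg).1 i h1 h4
          rw [h6]
          omega
      cases c
      · right
        rw [Set.mem_iUnion₂]
        exact ⟨T, Finset.mem_Icc.2 ⟨hDT, hT.le⟩, g, ⟨hg, hgQ⟩, rfl⟩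
      · left
        rw [Set.mem_iUnion₂]
        exact ⟨T, Finset.mem_Icc.2 ⟨hDT, hT.le⟩, g, ⟨hg, hgQ⟩, rfl⟩
  have hun : ∀ (I : Finset ℕ) (Q : ℕ → Set (List Bool)), gf (⋃ T ∈ I, Q T) ≤ ∑ T ∈ I, gf (Q T) := by
    classical
    intro I Q
    induction I using Finset.induction_on with
    | empty =>
      simp [gf]
    | insert a s ha ih =>
      rw [Finset.set_biUnion_insert, Finset.sum_insert ha]
      exact (gf_union_le _ _).trans (add_le_add le_rfl ih)
  obtain ⟨F, hF⟩ : ∃ F : List Bool → ℝ≥0∞, F = fun g => LTF (hgt g - 1) L lam g := ⟨_, rfl⟩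
  have hgoal : (fun g => (if L ≤ g.length + 2 ∧ g.length ≤ lam then 1 else 0) +
      gf {W1 | W1 ∈ SSt (hgt g - 1) ∧ LFold g W1 ∧ L ≤ g.length + W1.length + 2 ∧
        g.length + W1.length ≤ lam}) = F := by
    rw [hF]
    rfl
  rw [hgoal]
  obtain ⟨X, hX⟩ : ∃ X : ℝ≥0∞, X = Rec8.sw {g | g ∈ BrR N0 N ∧ g ∈ P} F := ⟨_, rfl⟩
  rw [← hX]
  have h4 : ∑ T ∈ Finset.Icc N0 N, gf (HT T ∩ {W | W ∈ P ∧ L ≤ W.length ∧ W.length ≤ lam}) ≤ 4 * X := by
    have h1 : ∀ T ∈ Finset.Icc N0 N, gf (HT T ∩ {W | W ∈ P ∧ L ≤ W.length ∧ W.length ≤ lam}) ≤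
        4 * ∑' g : {g : List Bool // g ∈ Brd T ∧ g ∈ P}, wE g.1 * F g.1 := by
      intro T hT
      rw [Finset.mem_Icc] at hT
      refine (topLT hP hL (by omega) L lam).trans (le_of_eq ?_)
      congr 1
      refine tsum_congr fun g => ?_
      rw [hF]
      show _ = wE g.1 * LTF (hgt g.1 - 1) L lam g.1
      rw [hgt_eq g.2.1]
    refine (Finset.sum_le_sum h1).trans ?_
    rw [← Finset.mul_sum, hX]
    gcongr
    exact Jo_BrR P F
  have h5 : ∑ T ∈ Finset.Icc N0 N, gf (Brd T ∩ Q) ≤ X := by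
    classical
    have h1 : ∀ T ∈ Finset.Icc N0 N, gf (Brd T ∩ Q) ≤
        ∑' g : {g : List Bool // g ∈ Brd T ∧ g ∈ P}, wE g.1 * F g.1 := by
      intro T hT
      have h2 : (∑' g : {g : List Bool // g ∈ Brd T ∧ g ∈ P}, wE g.1 * F g.1) =
          ∑' g : List Bool, ({g | g ∈ Brd T ∧ g ∈ P} : Set (List Bool)).indicator (fun g => wE g * F g) g :=
        _root_.tsum_subtype ({g | g ∈ Brd T ∧ g ∈ P} : Set (List Bool)) (fun g => wE g * F g)
      have h3 : gf (Brd T ∩ Q) = ∑' g : List Bool, (Brd T ∩ Q).indicator wE g := _root_.tsum_subtype (Brd T ∩ Q) wE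
      rw [h2, h3]
      refine ENNReal.tsum_le_tsum fun g => ?_
      by_cases hg : g ∈ Brd T ∩ Q
      · have hg2 := hg.2
        rw [hQ] at hg2
        rw [Set.indicator_of_mem hg, Set.indicator_of_mem (show g ∈ {g | g ∈ Brd T ∧ g ∈ P} from ⟨hg.1, hg2.1⟩), hF]
        calc wE g = wE g * 1 := (mul_one _).symm
          _ ≤ wE g * LTF (hgt g - 1) L lam g := by
              unfold LTF
              rw [if_pos hg2.2]
              gcongr
              exact le_self_add
      · rw [Set.indicator_of_notMem hg]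
        exact zero_le
    refine (Finset.sum_le_sum h1).trans ?_
    rw [hX]
    exact Jo_BrR P F
  have h6 : gf {W | W ∈ SSt N ∧ W ∉ SSt N0 ∧ W ∈ P ∧ L ≤ W.length ∧ W.length ≤ lam} ≤ 4 * X + (X + X) := by
    refine (gf_mono hsub).trans ((gf_union_le _ _).trans (add_le_add ((hun _ _).trans h4)
      ((gf_union_le _ _).trans (add_le_add ?_ ?_))))
    · exact ((hun _ _).trans (Finset.sum_le_sum (fun T _ => hadd true T))).trans h5
    · exact ((hun _ _).trans (Finset.sum_le_sum (fun T _ => hadd false T))).trans h5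
  refine h6.trans (le_of_eq ?_)
  have h7 : ENNReal.ofReal (6 : ℝ) = 6 := by
    rw [show (6 : ℝ) = ((6 : ℕ) : ℝ) by norm_num, ENNReal.ofReal_natCast]
    norm_num
  rw [h7]
  ring

/-- the same with a real lower bound of the number of letters -/
theorem lenTopR : ∃ (K : ℝ) (c0 : ℕ), 1 ≤ K ∧ ∀ (P : Set (List Bool)), PrefC P → LastC P →
    ∀ (N0 N lam : ℕ) (L : ℝ), 1 ≤ N0 → N0 ≤ N →
      gf {W | W ∈ SSt N ∧ W ∉ SSt N0 ∧ W ∈ P ∧ L ≤ (W.length : ℝ) ∧ W.length ≤ lam} ≤
        ENNReal.ofReal K * Rec8.sw {g | g ∈ BrR N0 N ∧ g ∈ P} (fun g =>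
          (if L ≤ (g.length : ℝ) + c0 ∧ g.length ≤ lam then 1 else 0) +
          gf {W1 | W1 ∈ SSt (hgt g - 1) ∧ LFold g W1 ∧ L ≤ (g.length : ℝ) + W1.length + c0 ∧
            g.length + W1.length ≤ lam}) := by
  obtain ⟨K, c0, hK, h⟩ := lenTop
  refine ⟨K, c0, hK, fun P hP hL N0 N lam L hD hDN => ?_⟩
  have e0 : ∀ n : ℕ, L ≤ (n : ℝ) ↔ ⌈L⌉₊ ≤ n := fun n => (Nat.ceil_le).symm
  have e1 : ∀ n : ℕ, L ≤ (n : ℝ) + c0 ↔ ⌈L⌉₊ ≤ n + c0 := fun n => by rw [← e0, Nat.cast_add]
  have e2 : ∀ n k : ℕ, L ≤ (n : ℝ) + k + c0 ↔ ⌈L⌉₊ ≤ n + k + c0 := fun n k => by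
    rw [← e0, Nat.cast_add, Nat.cast_add]
  simp only [e0, e1, e2]
  exact h P hP hL N0 N ⌈L⌉₊ lam hD hDN

end NTW

end HexObs
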