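import Pool.Agent.NTA.HalfV
import Pool.Agent.NTA.LenTop

/-!
NTA: tails of the lengths of the half plane words, all scales (PLAN3, section 5).
-/

set_option autoImplicit false

namespace HexObs

namespace NTA

open Finset TS SDN NTW

open scoped ENNReal

theorem lenTopP : LenTop := by
  obtain ⟨K, c0, hK, h⟩ := lenTopR
  exact ⟨K, c0, hK, h⟩

lemma Xb_add {D : ℝ} (hD : 1 ≤ D) (h : ∀ L, Xb (L + 1) ≤ ENNReal.ofReal D * Xb L) (L n : ℕ) :
    Xb (L + n) ≤ ENNReal.ofReal (D ^ n) * Xb L := by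
  induction n with
  | zero => rw [pow_zero, ENNReal.ofReal_one, one_mul, add_zero]
  | succ n ih =>
    rw [← add_assoc]
    refine (h _).trans ((mul_le_mul_right ih _).trans (le_of_eq ?_))
    rw [← mul_assoc, ← ENNReal.ofReal_mul (by linarith), pow_succ']

lemma one_le_Xb (k : ℕ) : 1 ≤ 2 * Xb k := by
  obtain ⟨lam', hQ⟩ := QL_exists k
  exact (HD.one_le_bl hQ le_rfl).trans (mul_le_mul_right (bl_le_Xb _ _) _)

lemma one_le_Ub (k : ℕ) : 1 ≤ Ub k := HD.one_le_UU _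

lemma MLow.two {m : ℕ → ℝ} (h : MLow m) (k j : ℕ) : (2 : ℝ) ^ j * m k ≤ m (k + j) := by
  refine le_trans ?_ (h.low k j)
  refine mul_le_mul_of_nonneg_right ?_ (h.pos k).le
  rw [← Real.rpow_natCast]
  refine Real.rpow_le_rpow_of_exponent_le (by norm_num) ?_
  have : (0 : ℝ) ≤ j := Nat.cast_nonneg j
  linarith

lemma MLow.mn {m : ℕ → ℝ} (h : MLow m) {k l : ℕ} (hkl : k ≤ l) : m k ≤ m l := by
  have h1 := h.two k (l - k)
  rw [Nat.add_sub_cancel' hkl] at h1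
  refine le_trans ?_ h1
  have h2 : (1 : ℝ) ≤ 2 ^ (l - k) := one_le_pow₀ (by norm_num)
  have h3 := h.pos k
  nlinarith

namespace HF

variable {C δ : ℝ}

/-- one scale -/
theorem St_scale (h : Inp C δ) {m : ℕ → ℝ} (hm : MLow m) (hQ : LongQ m) :
    ∃ (s : ℕ) (C1 : ℝ), 6 ≤ s ∧ 1 ≤ C1 ∧ ∀ q : ℕ, ∃ B : ℝ, 0 < B ∧ ∀ (k lam : ℕ) (y : ℝ≥0∞), s ≤ k →
      St q k (2 ^ (k + 5)) lam y →
      St q (k + 1) (2 ^ (k + 1 + 5)) lam (ENNReal.ofReal C1 * (y + ENNReal.ofReal (B * m k ^ q) * Xb k)) := by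
  obtain ⟨s, hs6, hs⟩ := St_win h lenTopP (m := m) ⟨m 0, hm.pos 0, fun k => hm.mn (Nat.zero_le k)⟩ hQ
  obtain ⟨Cu, hCu, hup⟩ := dom_up
  obtain ⟨Dx, hDx, hx⟩ := xDbl
  refine ⟨s, Cu * 4 ^ (2 ^ (s + 5)), hs6, ?_, fun q => ?_⟩
  · have : (1 : ℝ) ≤ 4 ^ (2 ^ (s + 5)) := one_le_pow₀ (by norm_num)
    nlinarith
  obtain ⟨B, hB, hw⟩ := hs q
  refine ⟨B * Dx ^ 6, by positivity, fun k lam y hk hy => ?_⟩
  obtain ⟨B', hB'⟩ : ∃ B', B' = ENNReal.ofReal (B * m k ^ q) * Xb (k + 6) := ⟨_, rfl⟩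
  have hMq : 0 < m k ^ q := pow_pos (hm.pos k) q
  have hB2 : B' ≤ ENNReal.ofReal (B * Dx ^ 6 * m k ^ q) * Xb k := by
    rw [hB']
    refine (mul_le_mul_right (Xb_add hDx hx k 6) _).trans (le_of_eq ?_)
    rw [← mul_assoc, ← ENNReal.ofReal_mul (by positivity)]
    congr 2
    ring
  have e0 : 2 ^ (s + 5) * 2 ^ (k - s) = 2 ^ (k + 5) := by
    rw [← pow_add]
    congr 1
    omega
  have key : ∀ i : ℕ, i ≤ 2 ^ (s + 5) → St q k (2 ^ (k + 5) + i * 2 ^ (k - s)) lam (4 ^ i * (y + B')) := by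
    intro i
    induction i with
    | zero =>
      intro _
      rw [pow_zero, one_mul, zero_mul, add_zero]
      exact hy.mono le_self_add
    | succ i ih =>
      intro hi
      have e1 : (i + 1) * 2 ^ (k - s) ≤ 2 ^ (k + 5) := by
        rw [← e0]
        exact Nat.mul_le_mul_right _ hi
      have e2 : 2 ^ (k + 6) = 2 * 2 ^ (k + 5) := by ring
      have e3 : (i + 1) * 2 ^ (k - s) = i * 2 ^ (k - s) + 2 ^ (k - s) := by ring
      have e4 : 2 ^ (k + 4) ≤ 2 ^ (k + 5) := Nat.pow_le_pow_right (by norm_num) (by omega)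
      have h1 := hw k (2 ^ (k + 5) + i * 2 ^ (k - s)) lam _ hk (by omega) (by omega) (ih (by omega))
      rw [e3, ← add_assoc]
      refine h1.mono ?_
      rw [← hB']
      have h2 : B' ≤ 4 ^ i * (y + B') := by
        calc B' = 1 * B' := (one_mul _).symm
          _ ≤ 4 ^ i * (y + B') := mul_le_mul' (one_le_pow₀ (by norm_num)) le_add_self
      calc 2 * (4 ^ i * (y + B') + B') ≤ 2 * (4 ^ i * (y + B') + 4 ^ i * (y + B')) := by gcongr
        _ = 4 ^ (i + 1) * (y + B') := by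
            rw [pow_succ]
            ring
  have h2 := key (2 ^ (s + 5)) le_rfl
  have e2 : 2 ^ (k + 5) + 2 ^ (k + 5) = 2 ^ (k + 1 + 5) := by ring
  rw [e0, e2] at h2
  intro L hL
  have h3 := (hup k _ _ (h2 L hL)).le (T_her (2 ^ (k + 1 + 4)) (2 ^ (k + 1 + 5)) lam L)
    (fun t => T_anti (Nat.pow_le_pow_right (by norm_num) (by omega)) L t)
  refine h3.mono ?_
  have h4 : (4 : ℝ≥0∞) ^ 2 ^ (s + 5) = ENNReal.ofReal (4 ^ 2 ^ (s + 5)) := by
    rw [ENNReal.ofReal_pow (by norm_num), ENNReal.ofReal_ofNat]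
  calc ENNReal.ofReal Cu * (4 ^ 2 ^ (s + 5) * (y + B') * ENNReal.ofReal (1 / L ^ q))
      = ENNReal.ofReal (Cu * 4 ^ 2 ^ (s + 5)) * (y + B') * ENNReal.ofReal (1 / L ^ q) := by
        rw [ENNReal.ofReal_mul (by linarith), h4]
        ring
    _ ≤ _ := by gcongr

/-- all scales, large powers -/
theorem St_all (h : Inp C δ) {m : ℕ → ℝ} (hm : MLow m) (hQ : LongQ m) :
    ∃ (s q0 : ℕ), 6 ≤ s ∧ ∀ q : ℕ, q0 ≤ q → ∃ A : ℝ, 0 < A ∧ ∀ (k lam : ℕ), s ≤ k →
      St q k (2 ^ (k + 5)) lam (ENNReal.ofReal (A * m k ^ q) * Xb k) := by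
  obtain ⟨s, C1, hs6, hC1, hs⟩ := St_scale h hm hQ
  obtain ⟨q0, hq0⟩ := pow_unbounded_of_one_lt (2 * C1) (show (1 : ℝ) < 2 by norm_num)
  refine ⟨s, q0, hs6, fun q hq => ?_⟩
  obtain ⟨B, hB, hst⟩ := hs q
  obtain ⟨A0, hA0, hb⟩ := base_tail (2 ^ (s + 5)) q
  have hms : 0 < m s ^ q := pow_pos (hm.pos s) q
  obtain ⟨A, hA⟩ : ∃ A : ℝ, A = B + 4 * A0 / m s ^ q := ⟨_, rfl⟩
  have hA1 : B ≤ A := by
    rw [hA]
    have : 0 < 4 * A0 / m s ^ q := by positivity
    linarith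
  have hApos : 0 < A := hB.trans_le hA1
  have hA2 : 4 * A0 ≤ A * m s ^ q := by
    rw [hA, add_mul, div_mul_cancel₀ _ hms.ne']
    have : 0 < B * m s ^ q := by positivity
    linarith
  have h2q : 2 * C1 ≤ 2 ^ q := hq0.le.trans (pow_le_pow_right₀ (by norm_num) hq)
  refine ⟨A, hApos, fun k lam hk => ?_⟩
  induction k, hk using Nat.le_induction with
  | base =>
    intro L hL
    have hLq : 0 < L ^ q := by positivity
    refine ((Dom_const s (ENNReal.ofReal (A0 / L ^ q))).le (T_her _ _ _ _) fun t =>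
      (T_le_gf _ _ _ _ _).trans (hb L hL)).mono ?_
    have h1 := one_le_Xb s
    calc 2 * ENNReal.ofReal (A0 / L ^ q) = ENNReal.ofReal (2 * (A0 / L ^ q)) * 1 := by
          rw [ENNReal.ofReal_mul (by norm_num), ENNReal.ofReal_ofNat, mul_one]
      _ ≤ ENNReal.ofReal (2 * (A0 / L ^ q)) * (2 * Xb s) := mul_le_mul_right h1 _
      _ = ENNReal.ofReal (4 * A0 / L ^ q) * Xb s := by
          rw [← mul_assoc]
          congr 1
          rw [← ENNReal.ofReal_ofNat 2, ← ENNReal.ofReal_mul (by positivity)]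
          congr 1
          ring
      _ ≤ ENNReal.ofReal (A * m s ^ q * (1 / L ^ q)) * Xb s := by
          refine mul_le_mul_left (ENNReal.ofReal_le_ofReal ?_) _
          rw [mul_one_div]
          exact div_le_div_of_nonneg_right hA2 hLq.le
      _ = _ := by
          rw [ENNReal.ofReal_mul (by positivity)]
          ring
  | succ k hk ih =>
    refine (hst k lam _ hk ih).mono ?_
    have hmk : 0 < m k ^ q := pow_pos (hm.pos k) q
    rw [← add_mul, ← mul_assoc, ← ENNReal.ofReal_add (by positivity) (by positivity),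
      ← ENNReal.ofReal_mul (by linarith)]
    refine mul_le_mul' (ENNReal.ofReal_le_ofReal ?_) (Xb_mono (Nat.le_succ k))
    have h1 : 2 * m k ≤ m (k + 1) := by
      have := hm.two k 1
      rwa [pow_one] at this
    have h2 : 2 ^ q * m k ^ q ≤ m (k + 1) ^ q := by
      rw [← mul_pow]
      exact pow_le_pow_left₀ (by linarith [hm.pos k]) h1 q
    calc C1 * (A * m k ^ q + B * m k ^ q) ≤ C1 * (A * m k ^ q + A * m k ^ q) := by gcongr
      _ = A * (2 * C1 * m k ^ q) := by ring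
      _ ≤ A * (2 ^ q * m k ^ q) := by gcongr
      _ ≤ A * m (k + 1) ^ q := by gcongr

lemma DmJ_one (k : ℕ) : DmJ k 2 (fun _ => 1) := by
  have h := DomJ_const k 1
  rw [mul_one] at h
  exact ⟨⟨fun _ _ _ => le_rfl, fun _ _ _ _ => le_rfl⟩, h⟩

/-- the words of the heights in (2 ^ i, 2 ^ (i + 1)] -/
theorem block (h : Inp C δ) {m : ℕ → ℝ} (hm : MLow m) (hQ : LongQ m) :
    ∃ (k1 q0 : ℕ), ∀ q : ℕ, q0 ≤ q → ∃ E : ℝ, 0 < E ∧ ∀ (k i lam : ℕ) (L : ℝ), k1 ≤ i → i < k → m k ≤ L →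
      gf {W | W ∈ SSt (2 ^ (i + 1)) ∧ W ∉ SSt (2 ^ i) ∧ L ≤ (W.length : ℝ) ∧ W.length ≤ lam} ≤
        ENNReal.ofReal (E * (m k / L) ^ q * (1 / 2) ^ (k - i) * Ub k) * Xb k := by
  obtain ⟨s, q0, hs6, hs⟩ := St_all h hm hQ
  obtain ⟨K0, c0, hK0, htop⟩ := lenTopR
  obtain ⟨K3, hK3, h3⟩ := two2_of (ssA h) ssDP
  obtain ⟨Kf, hKf, hf⟩ := dmP.fin
  obtain ⟨Dx, hDx, hx⟩ := xDbl
  obtain ⟨n0, hn0⟩ := pow_unbounded_of_one_lt (4 * (c0 : ℝ) / m 0) (show (1 : ℝ) < 2 by norm_num)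
  refine ⟨s + 4 + n0, q0 + 1, fun q hq => ?_⟩
  obtain ⟨A, hA, hst⟩ := hs q (by omega)
  obtain ⟨A2, hA2, hlong⟩ := hQ q
  obtain ⟨E1, hE1⟩ : ∃ E1 : ℝ, E1 = A2 * 4 ^ q * (2 * Kf * Dx) := ⟨_, rfl⟩
  obtain ⟨E2, hE2⟩ : ∃ E2 : ℝ, E2 = K3 * (2 * A * 2 ^ q) := ⟨_, rfl⟩
  have hE10 : 0 < E1 := by
    rw [hE1]
    positivity
  have hE20 : 0 < E2 := by
    rw [hE2]
    positivity
  refine ⟨K0 * (E1 + E2), by positivity, fun k i lam L hi hik hL => ?_⟩
  obtain ⟨κ, hκ⟩ : ∃ κ, i = κ + 4 := ⟨i - 4, by omega⟩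
  subst hκ
  have hMk : 0 < m k := hm.pos k
  have hL0 : 0 < L := hMk.trans_le hL
  have hLq : 0 < L ^ q := by positivity
  have hM : 0 < m κ := hm.pos κ
  -- the number of letters is large
  have hc4 : 4 * (c0 : ℝ) ≤ L := by
    have h1 : (2 : ℝ) ^ n0 * m 0 ≤ m k := by
      have h2 := hm.two 0 n0
      rw [zero_add] at h2
      exact h2.trans (hm.mn (by omega))
    rw [div_lt_iff₀ (hm.pos 0)] at hn0
    linarith
  have hMκ : (2 : ℝ) ^ (k - κ) * m κ ≤ m k := by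
    have h2 := hm.two κ (k - κ)
    rwa [Nat.add_sub_cancel' (by omega)] at h2
  have hrat : (m κ) ^ q ≤ (1 / 2) ^ (k - (κ + 4)) * m k ^ q := by
    have h1 : m κ ≤ (1 / 2) ^ (k - (κ + 4)) * m k := by
      have h2 : (2 : ℝ) ^ (k - (κ + 4)) * m κ ≤ m k := by
        refine le_trans ?_ hMκ
        refine mul_le_mul_of_nonneg_right ?_ hM.le
        exact pow_le_pow_right₀ (by norm_num) (by omega)
      calc m κ = (1 / 2) ^ (k - (κ + 4)) * ((2 : ℝ) ^ (k - (κ + 4)) * m κ) := by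
            rw [← mul_assoc, ← mul_pow]
            norm_num
        _ ≤ _ := mul_le_mul_of_nonneg_left h2 (by positivity)
    have h3 : ((1 / 2 : ℝ) ^ (k - (κ + 4))) ^ q ≤ (1 / 2) ^ (k - (κ + 4)) := by
      refine pow_le_of_le_one (by positivity) (pow_le_one₀ (by norm_num) (by norm_num)) (by omega)
    calc (m κ) ^ q ≤ ((1 / 2) ^ (k - (κ + 4)) * m k) ^ q := pow_le_pow_left₀ hM.le h1 q
      _ = ((1 / 2 : ℝ) ^ (k - (κ + 4))) ^ q * m k ^ q := mul_pow _ _ _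
      _ ≤ _ := mul_le_mul_of_nonneg_right h3 (by positivity)
  have hUk : Ub κ ≤ Ub k := Num2Aux.UU_mono (Nat.pow_le_pow_right (by norm_num) (by omega))
  have hUk0 := Ub_pos k
  have hUκ0 := Ub_pos κ
  obtain ⟨D, hD⟩ : ∃ D, D = 2 ^ (κ + 4) := ⟨_, rfl⟩
  obtain ⟨N, hN⟩ : ∃ N, N = 2 ^ (κ + 5) := ⟨_, rfl⟩
  have hDN : D < N := by
    rw [hD, hN]
    exact Nat.pow_lt_pow_right (by norm_num) (by omega)
  have hD1 : 1 ≤ D := by
    rw [hD]
    exact Nat.one_le_two_pow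
  rw [show κ + 4 + 1 = κ + 5 by omega, ← hD, ← hN]
  have hset : {W | W ∈ SSt N ∧ W ∉ SSt D ∧ L ≤ (W.length : ℝ) ∧ W.length ≤ lam} =
      {W | W ∈ SSt N ∧ W ∉ SSt D ∧ W ∈ (Set.univ : Set (List Bool)) ∧ L ≤ (W.length : ℝ) ∧ W.length ≤ lam} := by
    ext W
    constructor
    · rintro ⟨a, b, c, d⟩
      exact ⟨a, b, Set.mem_univ _, c, d⟩
    · rintro ⟨a, b, -, c, d⟩
      exact ⟨a, b, c, d⟩
  rw [hset]
  refine (htop Set.univ (fun _ _ _ => Set.mem_univ _) (fun _ _ _ _ => Set.mem_univ _) D N lam L hD1 hDN.le).trans ?_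
  have hs1 : Rec8.sw {g | g ∈ BrR D N ∧ g ∈ (Set.univ : Set (List Bool))} (fun g =>
        (if L ≤ (g.length : ℝ) + c0 ∧ g.length ≤ lam then (1 : ℝ≥0∞) else 0) +
        gf {W1 | W1 ∈ SSt (hgt g - 1) ∧ LFold g W1 ∧ L ≤ (g.length : ℝ) + W1.length + c0 ∧
          g.length + W1.length ≤ lam}) ≤
      Rec8.sw (BrR D N) (fun g => (if 1 / 2 * L ≤ (g.length : ℝ) + c0 then HD.FN D N lam g else 0) +
        T D N lam ((1 - 1 / 2) * L) g) := by
    refine Rec8.sw_mono (fun g hg => hg.1) fun g hg => ?_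
    obtain ⟨⟨u, hu1, hu2, hu⟩, -⟩ := hg
    exact F_le (by norm_num) hL0.le ⟨u, hu1, hu⟩ (by rw [hgt_eq hu]; exact hu2)
  refine (mul_le_mul_right hs1 _).trans ?_
  rw [Rec8.sw_add]
  -- the long leaves
  obtain ⟨y, hy⟩ : ∃ y : ℝ, y = L / (4 * m κ) := ⟨_, rfl⟩
  have hy1 : 1 ≤ y := by
    rw [hy, one_le_div (by positivity)]
    have h1 : (2 : ℝ) ^ 4 ≤ 2 ^ (k - κ) := pow_le_pow_right₀ (by norm_num) (by omega)
    nlinarith
  have hym : y * m κ = L / 4 := by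
    rw [hy]
    field_simp
  obtain ⟨lam', hQl⟩ := QL_exists (κ + 4)
  have hF := hf (κ + 4) N lam lam' (by omega) (by rw [← hD]; exact hDN)
    (by rw [hN]; exact Nat.pow_le_pow_right (by norm_num) (by omega)) hQl
  rw [show κ + 4 - 4 = κ by omega, show κ + 4 + 2 = κ + 6 by omega, ← hD] at hF
  have hXk : Xb (κ + 6) ≤ ENNReal.ofReal Dx * Xb k := by
    refine (Xb_mono (by omega : κ + 6 ≤ k + 1)).trans (hx k)
  have hF' : DmJ κ (ENNReal.ofReal Kf * (ENNReal.ofReal Dx * Xb k)) (HD.FN D N lam) :=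
    DmJ.mono hF (mul_le_mul_right ((bl_le_Xb _ _).trans hXk) _)
  have a1 : Rec8.sw (BrR D N) (fun g => if 1 / 2 * L ≤ (g.length : ℝ) + c0 then HD.FN D N lam g else 0) ≤
      ENNReal.ofReal (E1 * (m k / L) ^ q * (1 / 2) ^ (k - (κ + 4)) * Ub k) * Xb k := by
    have b1 := (hlong κ y hy1).free 2 _ (fun _ => 1) _ (DmJ_one κ) (fun _ _ _ _ _ => le_rfl) hF'
    obtain ⟨S, hS⟩ : ∃ S : Set (List Bool), S = {g | g ∈ BrR (2 ^ (κ + 4)) (2 ^ (κ + 8)) ∧
      y * m κ ≤ (g.length : ℝ)} := ⟨_, rfl⟩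
    rw [← hS] at b1
    have b2 : Rec8.sw (BrR D N) (fun g => if 1 / 2 * L ≤ (g.length : ℝ) + c0 then HD.FN D N lam g else 0) ≤
        Rec8.sw S (fun g => (fun _ => 1) (rev g) * HD.FN D N lam g) := by
      classical
      simp only [Rec8.sw_ind, one_mul]
      refine ENNReal.tsum_le_tsum fun g => ?_
      by_cases hg : g ∈ BrR D N
      · rw [if_pos hg]
        by_cases h2 : 1 / 2 * L ≤ (g.length : ℝ) + c0
        · rw [if_pos h2, if_pos (show g ∈ S from ?_)]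
          rw [hS]
          obtain ⟨u, hu1, hu2, hu⟩ := hg
          refine ⟨⟨u, hD ▸ hu1, hu2.trans ?_, hu⟩, ?_⟩
          · rw [hN]
            exact Nat.pow_le_pow_right (by norm_num) (by omega)
          · rw [hym]
            linarith
        · rw [if_neg h2, mul_zero]
          exact zero_le
      · rw [if_neg hg]
        exact zero_le
    refine b2.trans (b1.trans ?_)
    have b3 : ENNReal.ofReal (A2 / y ^ q * Ub κ) * (2 * (ENNReal.ofReal Kf * (ENNReal.ofReal Dx * Xb k))) =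
        ENNReal.ofReal (A2 / y ^ q * Ub κ * (2 * Kf * Dx)) * Xb k := by
      rw [ENNReal.ofReal_mul (q := 2 * Kf * Dx) (by positivity), ENNReal.ofReal_mul (q := Dx) (by positivity),
        ENNReal.ofReal_mul (q := Kf) (by norm_num), ENNReal.ofReal_ofNat]
      ring
    rw [b3]
    refine mul_le_mul_left (ENNReal.ofReal_le_ofReal ?_) _
    have b4 : A2 / y ^ q = A2 * 4 ^ q * m κ ^ q / L ^ q := by
      rw [hy, div_pow, mul_pow]
      field_simp
    rw [b4, hE1, div_pow]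
    calc A2 * 4 ^ q * m κ ^ q / L ^ q * Ub κ * (2 * Kf * Dx)
        ≤ A2 * 4 ^ q * ((1 / 2) ^ (k - (κ + 4)) * m k ^ q) / L ^ q * Ub k * (2 * Kf * Dx) := by gcongr
      _ = _ := by ring
  -- the long hanging walks
  have a2 : Rec8.sw (BrR D N) (fun g => T D N lam ((1 - 1 / 2) * L) g) ≤
      ENNReal.ofReal (E2 * (m k / L) ^ q * (1 / 2) ^ (k - (κ + 4)) * Ub k) * Xb k := by
    have b1 := hst κ lam (by omega) ((1 - 1 / 2) * L) (by linarith)
    rw [← hD, ← hN] at b1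
    have b2 := h3 κ κ D N (2 * 1) _ (fun _ => 1) (T D N lam ((1 - 1 / 2) * L)) (Dom_const κ 1) b1 (by rw [hD])
      (by rw [hD]) hDN.le
    simp only [one_mul] at b2
    refine b2.trans ?_
    have hUN : UU N ≤ Ub k := by
      rw [hN]
      exact Num2Aux.UU_mono (Nat.pow_le_pow_right (by norm_num) (by omega))
    have hUN0 := Num2Aux.UU_pos N
    calc ENNReal.ofReal (K3 * UU N) * (2 * 1 * (ENNReal.ofReal (A * m κ ^ q) * Xb κ *
          ENNReal.ofReal (1 / ((1 - 1 / 2) * L) ^ q)))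
        ≤ ENNReal.ofReal (K3 * Ub k) * (2 * 1 * (ENNReal.ofReal (A * ((1 / 2) ^ (k - (κ + 4)) * m k ^ q)) * Xb k *
          ENNReal.ofReal (1 / ((1 - 1 / 2) * L) ^ q))) := by
          gcongr
          exact Xb_mono (by omega)
      _ = ENNReal.ofReal (K3 * Ub k * (2 * (A * ((1 / 2) ^ (k - (κ + 4)) * m k ^ q) *
          (1 / ((1 - 1 / 2) * L) ^ q)))) * Xb k := by
          rw [ENNReal.ofReal_mul (p := K3 * Ub k) (by positivity), ENNReal.ofReal_mul (p := 2) (by norm_num),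
            ENNReal.ofReal_mul (p := A * ((1 / 2) ^ (k - (κ + 4)) * m k ^ q)) (by positivity), ENNReal.ofReal_ofNat]
          ring
      _ = _ := by
          congr 2
          rw [hE2, mul_pow, show (1 - 1 / 2 : ℝ) = 1 / 2 by norm_num, one_div_pow 2 q, div_pow (m k) L q]
          field_simp
  refine (mul_le_mul_right (add_le_add a1 a2) _).trans (le_of_eq ?_)
  have hr0 : 0 ≤ (m k / L) ^ q * (1 / 2) ^ (k - (κ + 4)) * Ub k := by positivity
  rw [← add_mul, ← ENNReal.ofReal_add (by positivity) (by positivity), ← mul_assoc,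
    ← ENNReal.ofReal_mul (by linarith)]
  congr 2
  ring

end HF

open HF in
/-- **tail of the lengths of the half plane words, every scale and every power** -/
theorem halfT {m : ℕ → ℝ} (hm : MLow m) (hQ : LongQ m) : HT m := by
  obtain ⟨C, δ, h⟩ := inp_exists
  obtain ⟨k1, q0, hblk⟩ := block h hm hQ
  intro q'
  obtain ⟨q, hq⟩ : ∃ q, q = q' + q0 := ⟨_, rfl⟩
  obtain ⟨E, hE, hb⟩ := hblk q (by omega)
  obtain ⟨A0, hA0, h0⟩ := base_tail (2 ^ k1) q
  have hm0 : 0 < m 0 ^ q := pow_pos (hm.pos 0) q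
  obtain ⟨A, hA⟩ : ∃ A : ℝ, A = 2 * (A0 / m 0 ^ q) + E := ⟨_, rfl⟩
  have hA1 : 0 < A := by
    rw [hA]
    positivity
  refine ⟨A, hA1, fun k lam hlam => ?_⟩
  have hlam0 : 0 < lam := by linarith
  obtain ⟨L, hL⟩ : ∃ L : ℝ, L = lam * m k := ⟨_, rfl⟩
  have hMk := hm.pos k
  have hL0 : 0 < L := by
    rw [hL]
    positivity
  have hmL : m k ≤ L := by
    rw [hL]
    nlinarith
  have hlq : lam ^ q' ≤ lam ^ q := pow_le_pow_right₀ hlam (by omega)
  have hUb1 := one_le_Ub k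
  -- the low words
  have hlow : gf {W | W ∈ SSt (2 ^ k1) ∧ L ≤ (W.length : ℝ)} ≤
      ENNReal.ofReal (2 * (A0 / m 0 ^ q) / lam ^ q' * Ub k) * Xb k := by
    refine (h0 L hL0).trans ?_
    have e1 : A0 / L ^ q ≤ A0 / m 0 ^ q / lam ^ q' * Ub k := by
      have e2 : A0 / L ^ q ≤ A0 / m 0 ^ q / lam ^ q' := by
        rw [div_div]
        refine div_le_div_of_nonneg_left hA0.le (by positivity) ?_
        rw [hL, mul_pow, mul_comm]
        refine mul_le_mul hlq ?_ hm0.le (by positivity)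
        exact pow_le_pow_left₀ (hm.pos 0).le (hm.mn (Nat.zero_le k)) q
      have e3 : 0 ≤ A0 / m 0 ^ q / lam ^ q' := by positivity
      nlinarith
    calc ENNReal.ofReal (A0 / L ^ q) = ENNReal.ofReal (A0 / L ^ q) * 1 := (mul_one _).symm
      _ ≤ ENNReal.ofReal (A0 / m 0 ^ q / lam ^ q' * Ub k) * (2 * Xb k) :=
          mul_le_mul' (ENNReal.ofReal_le_ofReal e1) (one_le_Xb k)
      _ = _ := by
          rw [← mul_assoc, ← ENNReal.ofReal_ofNat 2, ← ENNReal.ofReal_mul (by positivity)]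
          congr 2
          ring
  have hmain : ∀ lam1 : ℕ, gf {W | W ∈ SAL lam1 ∧ W ∈ {W | W ∈ SSt (2 ^ k) ∧ L ≤ (W.length : ℝ)}} ≤
      ENNReal.ofReal (A / lam ^ q' * Ub k) * Xb k := by
    intro lam1
    have hsub : {W | W ∈ SAL lam1 ∧ W ∈ {W | W ∈ SSt (2 ^ k) ∧ L ≤ (W.length : ℝ)}} ⊆
        {W | W ∈ SSt (2 ^ k1) ∧ L ≤ (W.length : ℝ)} ∪
        ⋃ i ∈ Finset.Ico k1 k, {W | W ∈ SSt (2 ^ (i + 1)) ∧ W ∉ SSt (2 ^ i) ∧ L ≤ (W.length : ℝ) ∧
          W.length ≤ lam1} := by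
      rintro W ⟨⟨-, hWl⟩, hW, hWL⟩
      by_cases h1 : W ∈ SSt (2 ^ k1)
      · exact Or.inl ⟨h1, hWL⟩
      · right
        have hex : ∃ i, W ∈ SSt (2 ^ i) := ⟨k, hW⟩
        classical
        obtain ⟨n, hn1, hn2⟩ : ∃ n, W ∈ SSt (2 ^ n) ∧ ∀ j < n, W ∉ SSt (2 ^ j) :=
          ⟨Nat.find hex, Nat.find_spec hex, fun j hj => Nat.find_min hex hj⟩
        have hnk : n ≤ k := by
          by_contra hcon
          exact hn2 k (by omega) hW
        have hk1n : k1 < n := by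
          by_contra hcon
          exact h1 (SSt_mo (Nat.pow_le_pow_right (by norm_num) (by omega)) hn1)
        rw [Set.mem_iUnion₂]
        refine ⟨n - 1, Finset.mem_Ico.2 ⟨by omega, by omega⟩, ?_, hn2 _ (by omega), hWL, hWl⟩
        rw [show n - 1 + 1 = n by omega]
        exact hn1
    have hun : ∀ (I : Finset ℕ) (Q : ℕ → Set (List Bool)), gf (⋃ T ∈ I, Q T) ≤ ∑ T ∈ I, gf (Q T) := by
      classical
      intro I Q
      induction I using Finset.induction_on with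
      | empty =>
        simp [gf]
      | insert a s ha ih =>
        rw [Finset.set_biUnion_insert, Finset.sum_insert ha]
        exact (gf_union_le _ _).trans (add_le_add le_rfl ih)
    have hsum : ∑ i ∈ Finset.Ico k1 k, gf {W | W ∈ SSt (2 ^ (i + 1)) ∧ W ∉ SSt (2 ^ i) ∧ L ≤ (W.length : ℝ) ∧
        W.length ≤ lam1} ≤ ENNReal.ofReal (E / lam ^ q' * Ub k) * Xb k := by
      have g1 : ∀ i ∈ Finset.Ico k1 k, gf {W | W ∈ SSt (2 ^ (i + 1)) ∧ W ∉ SSt (2 ^ i) ∧ L ≤ (W.length : ℝ) ∧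
          W.length ≤ lam1} ≤ ENNReal.ofReal (E / lam ^ q' * Ub k * (1 / 2) ^ (k - i)) * Xb k := by
        intro i hi
        rw [Finset.mem_Ico] at hi
        refine (hb k i lam1 L hi.1 hi.2 hmL).trans (mul_le_mul_left (ENNReal.ofReal_le_ofReal ?_) _)
        have g2 : (m k / L) ^ q ≤ 1 / lam ^ q' := by
          have g3 : m k / L = 1 / lam := by
            rw [hL]
            field_simp
          rw [g3, one_div_pow]
          exact one_div_le_one_div_of_le (by positivity) hlq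
        have g4 : 0 < Ub k := by linarith
        calc E * (m k / L) ^ q * (1 / 2) ^ (k - i) * Ub k ≤ E * (1 / lam ^ q') * (1 / 2) ^ (k - i) * Ub k := by gcongr
          _ = _ := by ring
      refine (Finset.sum_le_sum g1).trans ?_
      rw [← Finset.sum_mul]
      refine mul_le_mul_left ?_ _
      have g4 : 0 < Ub k := by linarith
      rw [← ENNReal.ofReal_sum_of_nonneg (fun i _ => by positivity)]
      refine ENNReal.ofReal_le_ofReal ?_
      rw [← Finset.mul_sum]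
      have g5 : ∑ i ∈ Finset.Ico k1 k, (1 / 2 : ℝ) ^ (k - i) ≤ 1 := by
        have g6 : ∀ n : ℕ, ∑ i ∈ range n, (1 / 2 : ℝ) ^ (n - i) ≤ 1 - (1 / 2) ^ n := by
          intro n
          induction n with
          | zero => simp
          | succ n ih =>
            rw [Finset.sum_range_succ, show n + 1 - n = 1 by omega, pow_one]
            have g7 : ∑ i ∈ range n, (1 / 2 : ℝ) ^ (n + 1 - i) = 1 / 2 * ∑ i ∈ range n, (1 / 2 : ℝ) ^ (n - i) := by
              rw [Finset.mul_sum]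
              refine Finset.sum_congr rfl fun i hi => ?_
              rw [Finset.mem_range] at hi
              rw [show n + 1 - i = (n - i) + 1 by omega, pow_succ]
              ring
            rw [g7, pow_succ]
            linarith
        have g8 : ∑ i ∈ Finset.Ico k1 k, (1 / 2 : ℝ) ^ (k - i) ≤ ∑ i ∈ range k, (1 / 2 : ℝ) ^ (k - i) :=
          Finset.sum_le_sum_of_subset_of_nonneg (fun i hi => by
            rw [Finset.mem_Ico] at hi
            exact Finset.mem_range.2 hi.2) fun _ _ _ => by positivity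
        have g9 : (0 : ℝ) < (1 / 2) ^ k := by positivity
        linarith [g6 k]
      have g10 : 0 ≤ E / lam ^ q' * Ub k := by positivity
      calc E / lam ^ q' * Ub k * ∑ i ∈ Finset.Ico k1 k, (1 / 2 : ℝ) ^ (k - i) ≤ E / lam ^ q' * Ub k * 1 :=
            mul_le_mul_of_nonneg_left g5 g10
        _ = _ := mul_one _
    refine (gf_mono hsub).trans ((gf_union_le _ _).trans ((add_le_add hlow ((hun _ _).trans hsum)).trans (le_of_eq ?_)))
    have g4 : 0 < Ub k := by linarith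
    rw [← add_mul, ← ENNReal.ofReal_add (by positivity) (by positivity)]
    congr 2
    rw [hA]
    ring
  rw [← hL]
  refine le_trans (gf_mono fun W hW => ?_) (gf_SA_le hmain)
  exact ⟨SSt_SA hW.1, hW⟩

end NTA

end HexObs
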