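import Pool.Agent.NTA.PtFar
import Pool.Agent.NTW.ScalesF
import Pool.Agent.NTW.FactsA
import Pool.Agent.PHW.FirstCut

/-!
NTA: the first cut of a bridge at or above the height s: with a positive probability it is not long; bridges of height
at least s with an exact number of letters, from below.
-/

set_option autoImplicit false

namespace HexObs

namespace PtC

open Finset TS SDN NTW

open NTm (Seq)

open scoped ENNReal

/-- first cuts at or above s -/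
def FPs (s : ℕ) : Set (List Bool) := {a | ∃ j, a ∈ FC s j}

lemma gf_BU_le (S : ℕ) : gf {X | ∃ n, n ≤ S ∧ X ∈ Brd n} ≤ ENNReal.ofReal (UU S) := by
  have h1 : {X | ∃ n, n ≤ S ∧ X ∈ Brd n} ⊆ ⋃ n ∈ range (S + 1), Brd n := by
    rintro X ⟨n, hn, hX⟩
    rw [Set.mem_iUnion₂]
    exact ⟨n, Finset.mem_range.2 (by omega), hX⟩
  refine (gf_mono h1).trans ((BAR.gf_bi_le _ _).trans (le_of_eq ?_))
  rw [← BAR.sum_BT]
  exact sum_congr rfl fun n _ => gf_Brd n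

/-- bridges against first cuts -/
lemma fp_mass (s S N : ℕ) : gf {X | (∃ n, n ≤ S ∧ X ∈ Brd n) ∧ X.length ≤ N} ≤
    ENNReal.ofReal (UU s) + gf {a | a ∈ FPs s ∧ a.length ≤ N} * ENNReal.ofReal (UU S) := by
  have h1 : {X | (∃ n, n ≤ S ∧ X ∈ Brd n) ∧ X.length ≤ N} ⊆ {X | ∃ n, n ≤ s ∧ X ∈ Brd n} ∪
      {X | ∃ a ∈ {a | a ∈ FPs s ∧ a.length ≤ N}, ∃ u ∈ {u | ∃ n, n ≤ S ∧ u ∈ Brd n}, X = a ++ u} := by
    rintro X ⟨⟨n, hn, hX⟩, hl⟩
    rcases Nat.le_total n s with h | h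
    · exact Or.inl ⟨n, h, hX⟩
    · obtain ⟨j, a, u, hsj, hjn, ha, hu, e⟩ := FC_dec h hX
      refine Or.inr ⟨a, ⟨⟨j, ha⟩, ?_⟩, u, ⟨n - j, by omega, hu⟩, e⟩
      rw [e, List.length_append] at hl
      omega
  refine (gf_mono h1).trans ((gf_union_le _ _).trans (add_le_add (gf_BU_le s) ?_))
  exact (gf_le_mul fun t ht => ht).trans (mul_le_mul_right (gf_BU_le S) _)

/-- with probability 1/4 the first cut at or above s has at most N letters -/
theorem fp_gen {s S N : ℕ} (h1 : ENNReal.ofReal (UU S) ≤ 2 * gf {X | (∃ n, n ≤ S ∧ X ∈ Brd n) ∧ X.length ≤ N})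
    (h3 : UU s ≤ 1 / 4 * UU S) : ENNReal.ofReal (1 / 4) ≤ gf {c | c ∈ FPs s ∧ c.length ≤ N} := by
  have h2 := fp_mass s S N
  by_contra hc
  rw [not_le] at hc
  have hfin := ne_top_of_lt hc
  obtain ⟨p, hp⟩ : ∃ p, p = (gf {c | c ∈ FPs s ∧ c.length ≤ N}).toReal := ⟨_, rfl⟩
  have hp0 : 0 ≤ p := by rw [hp]; exact ENNReal.toReal_nonneg
  have hpe : gf {c | c ∈ FPs s ∧ c.length ≤ N} = ENNReal.ofReal p := by
    rw [hp, ENNReal.ofReal_toReal hfin]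
  have hp1 : p < 1 / 4 := by
    rw [hpe] at hc
    exact (ENNReal.ofReal_lt_ofReal_iff (by norm_num)).1 hc
  have hU : 0 < UU S := Num2Aux.UU_pos _
  have hU' : 0 < UU s := Num2Aux.UU_pos _
  rw [hpe, ← ENNReal.ofReal_mul hp0, ← ENNReal.ofReal_add hU'.le (by positivity)] at h2
  have h4 := h1.trans (mul_le_mul_right h2 2)
  rw [show (2 : ℝ≥0∞) = ENNReal.ofReal 2 by norm_num, ← ENNReal.ofReal_mul (by norm_num),
    ENNReal.ofReal_le_ofReal_iff (by positivity)] at h4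
  have h5 : p * UU S < 1 / 4 * UU S := mul_lt_mul_of_pos_right hp1 hU
  linarith

/-- **with probability 1/4 the first cut at or above 2 ^ j has at most l (j + a) letters** -/
theorem fp_low {θ : ℝ} {l : ℕ → ℕ} (hl : Seq θ l) (hθ : θ ≤ 1 / 2) : ∃ a : ℕ, ∀ j : ℕ,
    ENNReal.ofReal (1 / 4) ≤ gf {c | c ∈ FPs (2 ^ j) ∧ c.length ≤ l (j + a)} := by
  obtain ⟨J, hJ⟩ := Ub_small (ε := 1 / 4) (by norm_num)
  refine ⟨J, fun j => ?_⟩
  have h3 := hJ (j + J) (by omega)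
  rw [Nat.add_sub_cancel] at h3
  exact fp_gen (QL_seq hl hθ (j + J) (j + J) le_rfl) h3

/-- the lengths -/
lemma FPs_even {s : ℕ} {c : List Bool} (h : c ∈ FPs s) : Even c.length := by
  obtain ⟨j, hj⟩ := h
  exact BrL.even_length hj.1

/-- **high bridges with 2 m letters**: a first cut at or above s with at most 2 N letters, then a bridge -/
theorem ubF_low {s N m : ℕ} {v : ℝ} (hN : N ≤ m) (h : ∀ i, i ≤ N → v ≤ BrL.ub (m - i)) :
    gf {c | c ∈ FPs s ∧ c.length ≤ 2 * N} * ENNReal.ofReal v ≤ ENNReal.ofReal (BAR.ubF s m) := by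
  classical
  have h1 : {c | c ∈ FPs s ∧ c.length ≤ 2 * N} ⊆ ⋃ i ∈ range (N + 1), {c | c ∈ FPs s ∧ c.length = 2 * i} := by
    rintro c ⟨hc, hl⟩
    obtain ⟨r, hr⟩ := FPs_even hc
    rw [Set.mem_iUnion₂]
    exact ⟨r, Finset.mem_range.2 (by omega), hc, by omega⟩
  have h2 : ∀ i ∈ range (N + 1), gf {c | c ∈ FPs s ∧ c.length = 2 * i} * ENNReal.ofReal v ≤
      gf {w | ∃ c ∈ {c | c ∈ FPs s ∧ c.length = 2 * i}, ∃ u ∈ BrL.BLs (2 * (m - i)), w = c ++ u} := by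
    intro i hi
    rw [Finset.mem_range] at hi
    have h3 : ENNReal.ofReal v ≤ gf (BrL.BLs (2 * (m - i))) := by
      refine (ENNReal.ofReal_le_ofReal (h i (by omega))).trans (le_of_eq ?_)
      unfold BrL.ub
      exact ENNReal.ofReal_toReal (BrL.BLs_ne_top _)
    refine (mul_le_mul_right h3 _).trans ?_
    refine mul_le_gf (fun a ha b hb => ⟨a, ha, b, hb, rfl⟩) ?_
    rintro a ⟨⟨j, ha⟩, -⟩ b ⟨⟨r, hb⟩, -⟩ a' ⟨⟨j', ha'⟩, -⟩ b' ⟨⟨r', hb'⟩, -⟩ hab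
    exact (FC_unique ha ha' hb hb' hab).1
  calc gf {c | c ∈ FPs s ∧ c.length ≤ 2 * N} * ENNReal.ofReal v ≤
      (∑ i ∈ range (N + 1), gf {c | c ∈ FPs s ∧ c.length = 2 * i}) * ENNReal.ofReal v := by
        gcongr
        exact (gf_mono h1).trans (BAR.gf_bi_le _ _)
    _ = ∑ i ∈ range (N + 1), gf {c | c ∈ FPs s ∧ c.length = 2 * i} * ENNReal.ofReal v := sum_mul _ _ _
    _ ≤ ∑ i ∈ range (N + 1), gf {w | ∃ c ∈ {c | c ∈ FPs s ∧ c.length = 2 * i},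
          ∃ u ∈ BrL.BLs (2 * (m - i)), w = c ++ u} := sum_le_sum h2
    _ ≤ gf (⋃ i ∈ range (N + 1), {w | ∃ c ∈ {c | c ∈ FPs s ∧ c.length = 2 * i},
          ∃ u ∈ BrL.BLs (2 * (m - i)), w = c ++ u}) := by
        refine BAR.gf_bi_eq _ _ ?_
        rintro i j w ⟨a, ⟨⟨x, ha⟩, hla⟩, b, ⟨⟨y, hb⟩, -⟩, e⟩ ⟨a', ⟨⟨x', ha'⟩, hla'⟩, b', ⟨⟨y', hb'⟩, -⟩, e'⟩
        have h3 := (FC_unique ha ha' hb hb' (e ▸ e')).1
        rw [← h3] at hla'
        omega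
    _ ≤ gf (BAR.BLF s (2 * m)) := by
        refine gf_mono ?_
        intro w hw
        rw [Set.mem_iUnion₂] at hw
        obtain ⟨i, hi, a, ⟨⟨x, ha⟩, hla⟩, b, ⟨⟨y, hb⟩, hlb⟩, e⟩ := hw
        rw [Finset.mem_range] at hi
        refine ⟨⟨x + y, ?_, ?_⟩, ?_⟩
        · exact le_trans ha.2.1 (Nat.le_add_right _ _)
        · rw [e]
          exact Brd_append ha.1 hb
        · rw [e, List.length_append, hla, hlb]
          omega
    _ = ENNReal.ofReal (BAR.ubF s m) := by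
        unfold BAR.ubF
        exact (ENNReal.ofReal_toReal (BAR.BLF_ne_top _ _)).symm

end PtC

end HexObs
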