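import Pool.Agent.NTS.FinAll
import Pool.Agent.NTW.FinA

/-!
NTA (natural time, all scales): the assembly from the typical scales (every scale) and the regularity of the quantiles.
-/

set_option autoImplicit false

namespace NTSF

open Finset

open HexObs hiding pos

open HexObs.TS HexObs.SDN HexObs.NTW

open HexObs.NTm (Seq Good GCK seq_exists)

open scoped ENNReal

/-- doubling of the mass -/
lemma mass_dbl {l : ℕ → ℕ} (hl : Monotone l) (hT : TailP l) (hE : ExtP l) (hS : ScaleP l Set.univ) :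
    ∃ (C : ℝ) (L0 : ℕ), 1 ≤ C ∧ ∀ k, L0 ≤ k → gf (SAL (l (k + 1))) ≤ ENNReal.ofReal C * gf (SAL (l k)) := by
  obtain ⟨K, q, L0, hK, h1⟩ := tot_le hl hT hE
  obtain ⟨C, L1, hC, h2⟩ := hS (q + 1)
  refine ⟨max 1 (2 * K * C), max L0 L1, le_max_left _ _, fun k hk => ?_⟩
  have a1 := h1 (k + 1) (by have := le_max_left L0 L1; omega)
  have a2 := h2 k (Set.mem_univ _) ((le_max_right _ _).trans hk)
  have a3 : BB l (k + 1) q ≤ BB l k (q + 1) := BB_mono hl (by omega)
  have hU : Ub (k + 1) ≤ 2 * Ub k := Ub_succ k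
  have hUk := Ub_pos k
  calc gf (SAL (l (k + 1))) ≤ ENNReal.ofReal (K * Ub (k + 1)) * BB l (k + 1) q := a1
    _ ≤ ENNReal.ofReal (2 * K * Ub k) * BB l k (q + 1) := by
        refine mul_le_mul' (ENNReal.ofReal_le_ofReal ?_) a3
        nlinarith
    _ = ENNReal.ofReal (2 * K) * (ENNReal.ofReal (Ub k) * BB l k (q + 1)) := by
        rw [ENNReal.ofReal_mul (by positivity), mul_assoc]
    _ ≤ ENNReal.ofReal (2 * K) * (ENNReal.ofReal C * gf (SAL (l k))) := mul_le_mul_right a2 _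
    _ = ENNReal.ofReal (2 * K * C) * gf (SAL (l k)) := by
        rw [ENNReal.ofReal_mul (p := 2 * K) (q := C) (by positivity), mul_assoc]
    _ ≤ _ := mul_le_mul_left (ENNReal.ofReal_le_ofReal (le_max_right _ _)) _

/-- **the assembly at every scale** -/
theorem finAll_of {θ : ℝ} {l : ℕ → ℕ} (hl : Seq θ l) (h0 : 0 < θ) (h1 : θ ≤ 1 / 2) (hS : ScaleP l Set.univ)
    (hup1 : ∃ C : ℝ, ∀ k, (l (k + 1) : ℝ) ≤ C * l k)
    (hlo : ∃ b : ℝ, 0 < b ∧ ∀ k j : ℕ, b * (2 : ℝ) ^ (5 / 4 * (j : ℝ)) * l k ≤ l (k + j)) :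
    ∃ a₀ : NNReal, 0 < a₀ ∧ ∀ ε : ℝ, 0 < ε → ε < 1 → ConclAll a₀ ε := by
  obtain ⟨Ci, δi, hI⟩ := inp_exists
  have hA : SsA := ssA hI
  have hl0 : ∀ k, (0 : ℝ) < l k := fun k => by exact_mod_cast hl.one k
  have hG : Good l Set.univ := by
    obtain ⟨C, hC⟩ := hup1
    have hC' : ∀ k, (l (k + 1) : ℝ) ≤ max 1 C * l k := fun k => (hC k).trans
      (mul_le_mul_of_nonneg_right (le_max_right _ _) (hl0 k).le)
    have hC1 : (1 : ℝ) ≤ max 1 C := le_max_left _ _
    refine ⟨fun j => ((max 1 C) ^ j)⁻¹, fun j => by positivity, fun L _ j hj => ?_⟩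
    have h2 : ∀ j : ℕ, j ≤ L → (l L : ℝ) ≤ (max 1 C) ^ j * l (L - j) := by
      intro j
      induction j with
      | zero => intro _; simp
      | succ j ih =>
        intro hj
        have h2 := hC' (L - (j + 1))
        rw [show L - (j + 1) + 1 = L - j by omega] at h2
        calc (l L : ℝ) ≤ (max 1 C) ^ j * l (L - j) := ih (by omega)
          _ ≤ (max 1 C) ^ j * (max 1 C * l (L - (j + 1))) := mul_le_mul_of_nonneg_left h2 (by positivity)
          _ = _ := by ring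
    rw [inv_mul_le_iff₀ (by positivity)]
    exact h2 j hj
  have hT : TailP l := tailP' hA rep_two hl h0 h1
  have hE : ExtP l := extP_of hl h0 h1 hA ssDP (coverTwo rep_two) pivotEx
  have hFF : FactsF l Set.univ := factsF_A hA rep_two hl h0 h1 hG hS
  refine result_all hl.one hl.mono hl.up hl.low (factsS_of dirRed hFF) (fun a c K ha hc hac hK => ?_) hup1 hlo
    (mass_dbl hl.mono hT hE hS)
  have ha1 : a < 3 / 4 := by nlinarith
  have hFH : FactFH a l (GCK K c l) := factFH_of dispQ2 hl h0 h1 K hc ha hac (le_refl _) hT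
    (ScaleP.mono hS (Set.subset_univ _))
  exact factSH_of dirRed hl.one hl.up ha ha1 hFH

end NTSF
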