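import Pool.Agent.NTA.QuanH
import Pool.Agent.NTA.HalfT
import Pool.Agent.NTA.LongQ
import Pool.Agent.NTA.FinAllOf
import Pool.Agent.NT.SeqEx

/-!
NTA (natural time, all scales): the final assembly from the facts about the mean length m k of the bridges of height 2 ^ k:
the tail of the lengths of the bridges (TB) and the lower bound (C1).
-/

set_option autoImplicit false

namespace NTSF

open HexObs.NTA

open HexObs.NTm (Seq seq_exists)

/-- **the final theorem from TB and C1** -/
theorem finAll_m {m : ℕ → ℝ} (hm : MLow m) (hd : MUp m) (hB : TB m) (h1 : C1 m) :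
    ∃ a₀ : NNReal, 0 < a₀ ∧ ∀ ε : ℝ, 0 < ε → ε < 1 → ConclAll a₀ ε := by
  obtain ⟨θ, hθ0, hθ1, h⟩ := scaleH hm hd hB h1 (halfT hm (longQ hm hd hB))
  obtain ⟨l, hl⟩ := seq_exists hθ0 (by linarith : θ < 1)
  obtain ⟨hS, -, -, hup, hlo, -⟩ := h θ l hl hθ0 le_rfl
  exact finAll_of hl hθ0 hθ1 hS hup hlo

end NTSF
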