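import Pool.Agent.NTA.TailDefs
import Pool.Agent.NT.Far
import Pool.Agent.NT.Disp
import Pool.Agent.BAR.HCut

/-!
NTA: from the tail of the lengths of the bridges of the box to the tail of the lengths of all bridges.
-/

set_option autoImplicit false

namespace HexObs

namespace NTA

open Finset TS SDN NTW

open scoped ENNReal

/-- total weight of the bridges of the box -/
lemma tot_BL (k : ℕ) : gf (BL k) ≤ ENNReal.ofReal (Ub k) := by
  refine (gf_mono ?_).trans (gf_BU_le (2 ^ k))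
  rintro t ⟨⟨h, ht⟩, hw⟩
  exact ⟨h, NTm.row_top ht hw, ht⟩

lemma TL_le_set (N : ℕ) (x : ℝ) : NTm.TL N x ≤ gf {Z | (∃ h, h ≤ N ∧ Z ∈ Brd h) ∧ x ≤ (Z.length : ℝ)} := by
  refine (BAR.gf_bi_eq (range (N + 1)) (fun h => {Z | Z ∈ Brd h ∧ x ≤ (Z.length : ℝ)}) ?_).trans (gf_mono ?_)
  · intro i j w hi hj
    exact Brd_height hi.1 hj.1
  · intro w hw
    rw [Set.mem_iUnion₂] at hw
    obtain ⟨i, hi, hw1, hw2⟩ := hw
    exact ⟨⟨i, by have := mem_range.1 hi; omega, hw1⟩, hw2⟩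

lemma TL_le_Ub (k : ℕ) (x : ℝ) : NTm.TL (2 ^ k) x ≤ ENNReal.ofReal (Ub k) :=
  (TL_le_set _ _).trans ((gf_mono fun _ hZ => hZ.1).trans (gf_BU_le (2 ^ k)))

/-- **from the box to all bridges** -/
theorem tb_box {m : ℕ → ℝ} (hm : ∀ k, 0 < m k) (hd : MUp m) : ∀ Q : ℕ, ∃ (r0 : ℕ) (CQ C4 c5 : ℝ), 1 ≤ CQ ∧ 0 < C4 ∧ 0 < c5 ∧
    ∀ (A : ℝ) (K : ℕ), 1 ≤ A → (∀ (k : ℕ) (lam : ℝ), k < K → 1 ≤ lam →
      gf {t | t ∈ BL k ∧ lam * m k ≤ (t.length : ℝ)} ≤ ENNReal.ofReal (A / lam ^ Q) * ENNReal.ofReal (Ub k)) →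
    ∀ j s : ℕ, j + s + r0 ≤ K → ∀ y : ℝ, 1 ≤ y →
      NTm.TL (2 ^ j) (y * m j) ≤
        ENNReal.ofReal ((CQ ^ (s + 1) * A / y ^ Q + C4 * (4 : ℝ) ^ (-(c5 * 2 ^ s : ℝ))) * Ub j) := by
  intro Q
  obtain ⟨D, hD, hup⟩ : ∃ D : ℝ, 1 ≤ D ∧ ∀ k j : ℕ, m (k + j) ≤ D ^ j * m k := by
    obtain ⟨D, hD, h⟩ := hd
    refine ⟨D, hD, fun k j => ?_⟩
    induction j with
    | zero => simp
    | succ j ih =>
      calc m (k + (j + 1)) ≤ D * m (k + j) := h (k + j)
        _ ≤ D * (D ^ j * m k) := mul_le_mul_of_nonneg_left ih (by linarith)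
        _ = D ^ (j + 1) * m k := by ring
  obtain ⟨C, c, hC, hc, hlat⟩ := NTm.far_lat
  have h4 : 0 < Real.log 4 := Real.log_pos (by norm_num)
  have hDQ : 1 ≤ D ^ Q := one_le_pow₀ hD
  refine ⟨3, (2 * D ^ Q) ^ 2, C, c / Real.log 4, one_le_pow₀ (by linarith), hC, by positivity, ?_⟩
  intro A K hA hT j s hK y hy
  have hU := Ub_pos j
  have hmj := hm j
  obtain ⟨k, hk⟩ : ∃ k, k = j + (s + 2) := ⟨_, rfl⟩
  have hmk := hm k
  have hUk := Ub_pos k
  have hy0 : 0 < y := by linarith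
  have hyQ : 0 < y ^ Q := by positivity
  have hX0 : 0 ≤ C * (4 : ℝ) ^ (-(c / Real.log 4 * 2 ^ s : ℝ)) := by positivity
  have hmle : m k ≤ D ^ (s + 2) * m j := by rw [hk]; exact hup j (s + 2)
  have hpow : (2 * D ^ Q) ^ (s + 2) ≤ ((2 * D ^ Q) ^ 2) ^ (s + 1) := by
    rw [← pow_mul]
    exact pow_le_pow_right₀ (by linarith) (by omega)
  rcases le_or_gt (m k) (y * m j) with hcase | hcase
  · -- a long bridge of the box k
    obtain ⟨lam, hlam⟩ : ∃ lam : ℝ, lam = y * m j / m k := ⟨_, rfl⟩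
    have hlam1 : 1 ≤ lam := by rwa [hlam, le_div_iff₀ hmk, one_mul]
    have hlm : lam * m k = y * m j := by
      rw [hlam]
      field_simp
    have h1 := hT k lam (by omega) hlam1
    rw [hlm, ← ENNReal.ofReal_mul (by positivity)] at h1
    have h2 : NTm.TL (2 ^ j) (y * m j) ≤ gf {t | t ∈ BL k ∧ y * m j ≤ (t.length : ℝ)} +
        gf {t | ∃ h, h ≤ 2 ^ j ∧ t ∈ Brd h ∧ ¬ InBox t (2 ^ s * 2 ^ j)} := by
      refine (TL_le_set _ _).trans ((gf_mono ?_).trans (gf_union_le _ _))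
      rintro Z ⟨⟨h, hh, hZ⟩, hl⟩
      by_cases hb : InBox Z (2 ^ s * 2 ^ j)
      · left
        refine ⟨?_, hl⟩
        have h3 := NTm.brd_BL hZ hh (show j ≤ j + s by omega) (by
          have e : 2 ^ (j + s) = 2 ^ s * 2 ^ j := by rw [pow_add, mul_comm]
          rw [e]
          exact hb)
        rw [hk, show j + (s + 2) = j + s + 2 by ring]
        exact h3
      · exact Or.inr ⟨h, hh, hZ, hb⟩
    have h3 := hlat j (2 ^ s) Nat.one_le_two_pow
    refine h2.trans ((add_le_add h1 h3).trans ?_)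
    rw [← ENNReal.ofReal_add (by positivity) (by positivity)]
    apply ENNReal.ofReal_le_ofReal
    rw [add_mul]
    refine add_le_add ?_ ?_
    · have e1 : A / lam ^ Q ≤ (D ^ Q) ^ (s + 2) * A / y ^ Q := by
        rw [hlam, div_pow, mul_pow]
        have e2 : m k ^ Q ≤ (D ^ (s + 2) * m j) ^ Q := pow_le_pow_left₀ hmk.le hmle Q
        rw [mul_pow] at e2
        have e3 : (D ^ (s + 2)) ^ Q = (D ^ Q) ^ (s + 2) := by
          rw [← pow_mul, ← pow_mul, mul_comm]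
        rw [e3] at e2
        rw [div_div_eq_mul_div, div_le_div_iff₀ (by positivity) hyQ]
        calc A * m k ^ Q * y ^ Q ≤ A * ((D ^ Q) ^ (s + 2) * m j ^ Q) * y ^ Q := by gcongr
          _ = (D ^ Q) ^ (s + 2) * A * (y ^ Q * m j ^ Q) := by ring
      have e4 : Ub k ≤ 2 ^ (s + 2) * Ub j := by
        rw [hk]
        exact UU_ratio_up j (s + 2)
      calc A / lam ^ Q * Ub k ≤ (D ^ Q) ^ (s + 2) * A / y ^ Q * (2 ^ (s + 2) * Ub j) :=
            mul_le_mul e1 e4 hUk.le (by positivity)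
        _ = (2 * D ^ Q) ^ (s + 2) * A / y ^ Q * Ub j := by
            rw [mul_pow]
            ring
        _ ≤ ((2 * D ^ Q) ^ 2) ^ (s + 1) * A / y ^ Q * Ub j := by gcongr
    · apply mul_le_mul_of_nonneg_right _ hU.le
      apply mul_le_mul_of_nonneg_left _ hC.le
      rw [Real.rpow_def_of_pos (by norm_num)]
      apply Real.exp_le_exp.2
      apply le_of_eq
      push_cast
      field_simp
  · -- trivial bound
    refine (TL_le_Ub j _).trans (ENNReal.ofReal_le_ofReal ?_)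
    have h1 : y ≤ D ^ (s + 2) := by
      have := hcase.le.trans hmle
      exact le_of_mul_le_mul_right this hmj
    have h2 : y ^ Q ≤ (D ^ Q) ^ (s + 2) := by
      have := pow_le_pow_left₀ hy0.le h1 Q
      rwa [← pow_mul, mul_comm, pow_mul] at this
    have h3 : (D ^ Q) ^ (s + 2) ≤ ((2 * D ^ Q) ^ 2) ^ (s + 1) :=
      (pow_le_pow_left₀ (by positivity) (by linarith) _).trans hpow
    have h5 : 1 ≤ ((2 * D ^ Q) ^ 2) ^ (s + 1) * A / y ^ Q := by
      rw [le_div_iff₀ hyQ, one_mul]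
      have h6 : 0 ≤ ((2 * D ^ Q) ^ 2) ^ (s + 1) := by positivity
      nlinarith
    nlinarith

end NTA

end HexObs

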