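import Pool.Agent.NTA.SpWin

/-!
NTA: window classes, refined. The weight of the free middle part of the leaf is needed only for ends that pass over the
levels 2 ^ j (head and tail).
-/

set_option autoImplicit false

namespace HexObs

namespace NTA

open Finset TS SDN SDN.T2 NTW

open scoped ENNReal

open Rec8 (mb)

variable {C δ : ℝ}

/-- the weight of the middle part between two ends of heights between 2 ^ j and 2 ^ e -/
def EZW (D N e j : ℕ) (W : Set (List Bool)) (A : ℝ) : Prop := ∀ M ∈ BU, ∀ P1 ∈ IU, ∀ P2 ∈ IU, ∀ Q ∈ BU,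
  2 ^ j < hgt M + hgt P1 → hgt M + hgt P1 ≤ 2 ^ e → 2 ^ j < hgt P2 + hgt Q → hgt P2 + hgt Q ≤ 2 ^ e →
  ∑' h : ℕ, gf {Z | Z ∈ Brd h ∧ M ++ (P1 ++ (Z ++ (P2 ++ Q))) ∈ W ∧ M ++ (P1 ++ (Z ++ (P2 ++ Q))) ∈ BrR D N} ≤
    ENNReal.ofReal A

namespace SP

open KJ SH DW DO TG SE

/-- the rest of a leaf of W behind the head X and the piece P -/
theorem rest_spR (h : Inp C δ) (hA : SsA) : ∃ K c : ℝ, 1 ≤ K ∧ 0 < c ∧ ∀ (k e j N n r : ℕ) (A : ℝ) (x : ℝ≥0∞)
    (Φ : List Bool → ℝ≥0∞) (X P : List Bool) (W : Set (List Bool)), DomJ k x Φ → j + 3 ≤ e → e ≤ k → 0 ≤ A →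
    W ⊆ BrR (2 ^ (k + 4)) N → EZW (2 ^ (k + 4)) N e j W A → 2 ^ j < n + r → n ≤ 2 ^ (e - 1) → X ∈ Brd n → P ∈ Irr r →
    Rec8.sw {Z | Z ∈ BU ∧ X ++ (P ++ Z) ∈ W} (fun Z => Φ (P ++ Z)) ≤
      x * ((if 2 ^ k < r then SS k P else 0) + ((if 2 ^ (e - 1) < r then ENNReal.ofReal (K * UU N) else 0) +
        ENNReal.ofReal (K * (2 ^ (k - e) * (2 : ℝ) ^ (-(c * ((e : ℝ) - j)))) * UU N + K * 2 ^ (k - j) * A))) := by
  classical
  obtain ⟨K1, c, hK1, hc, hgi⟩ := giE h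
  obtain ⟨K2, hK2, hend⟩ := endsJ hA
  obtain ⟨K3, hK3, hrD⟩ := restD_of hA
  refine ⟨K1 + K2 + K3, c, by linarith, hc, fun k e j N n r A x Φ X P W hΦ hj he hA0 hWN hW hnr hn hX hP => ?_⟩
  have hp4 : 2 ^ (k + 4) = 16 * 2 ^ k := by ring
  have hp1 : 2 ^ (k + 1) = 2 * 2 ^ k := by ring
  have hp0 : 1 ≤ 2 ^ k := Nat.one_le_two_pow
  have hpe : 2 ^ e ≤ 2 ^ k := Nat.pow_le_pow_right (by norm_num) he
  have hpe1 : 2 ^ e = 2 * 2 ^ (e - 1) := by
    rw [← pow_succ']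
    congr 1
    omega
  have hpj : 2 ^ (j + 1) ≤ 2 ^ (e - 1) := Nat.pow_le_pow_right (by norm_num) (by omega)
  have hPb : P ∈ Brd r := hP.1
  have hUN : 0 < UU N := Num2Aux.UU_pos N
  have hsub : {Z | Z ∈ BU ∧ X ++ (P ++ Z) ∈ W} ⊆ {Z | Z ∈ BU ∧ ∃ Y ∈ Brd n, Y ++ (P ++ Z) ∈ BrR (2 ^ (k + 4)) N} :=
    fun Z hZ => ⟨hZ.1, X, hX, hWN hZ.2⟩
  by_cases hr : 2 ^ (e - 1) < r
  · rw [if_pos hr]
    refine (Rec8.sw_mono hsub fun _ _ => le_rfl).trans ((hrD (2 ^ (k + 4)) N k n r x Φ P hΦ.dom (by omega) hP).trans ?_)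
    refine mul_le_mul_right (add_le_add ?_ ((ENNReal.ofReal_le_ofReal ?_).trans le_self_add)) x
    · by_cases h1 : 2 ^ (k + 4) ≤ n + r + 2 ^ (k + 1)
      · rw [if_pos h1, if_pos (by omega)]
      · rw [if_neg h1]
        exact zero_le
    · have : 0 ≤ (K1 + K2) * UU N := by positivity
      nlinarith
  rw [if_neg hr, zero_add]
  refine le_trans ?_ (mul_le_mul_right le_add_self x)
  -- the function of the rest
  obtain ⟨G, hG⟩ : ∃ G : List Bool → ℝ≥0∞, G = fun Z => if X ++ (P ++ Z) ∈ W then Φ (P ++ Z) else 0 := ⟨_, rfl⟩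
  have hGv : ∀ Z, G Z = if X ++ (P ++ Z) ∈ W then Φ (P ++ Z) else 0 := fun Z => by rw [hG]
  have hGle : ∀ Z, G Z ≤ Φ (P ++ Z) := by
    intro Z
    rw [hGv]
    split_ifs
    · exact le_rfl
    · exact zero_le
  have s0 : Rec8.sw {Z | Z ∈ BU ∧ X ++ (P ++ Z) ∈ W} (fun Z => Φ (P ++ Z)) ≤
      Rec8.sw {Z | Z ∈ BU ∧ ∃ Y ∈ Brd n, Y ++ (P ++ Z) ∈ BrR (2 ^ (k + 4)) N} G := by
    rw [Rec8.sw_ind, Rec8.sw_ind]
    refine ENNReal.tsum_le_tsum fun Z => ?_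
    by_cases hZ : Z ∈ {Z | Z ∈ BU ∧ X ++ (P ++ Z) ∈ W}
    · rw [if_pos hZ, if_pos (hsub hZ), hGv, if_pos hZ.2]
    · rw [if_neg hZ]
      exact zero_le
  refine s0.trans ?_
  refine (outR (k := j) (by omega) hP G).trans ?_
  have hz : ∑' m : ℕ, mu j m r * Rec8.sw {M | M ∈ Brd m ∧ ∃ Y ∈ Brd n, Y ++ (P ++ M) ∈ BrR (2 ^ (k + 4)) N} G = 0 := by
    rw [ENNReal.tsum_eq_zero]
    intro m
    rcases Nat.lt_or_ge m (2 ^ (j + 1)) with hm | hm
    · have e : {M : List Bool | M ∈ Brd m ∧ ∃ Y ∈ Brd n, Y ++ (P ++ M) ∈ BrR (2 ^ (k + 4)) N} = ∅ := by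
        rw [Set.eq_empty_iff_forall_notMem]
        rintro M ⟨hM, Y, hY, H, h1, -, h3⟩
        have := Brd_height h3 (Brd_append hY (Brd_append hP.1 hM))
        omega
      rw [e]
      unfold Rec8.sw
      rw [tsum_empty, mul_zero]
    · rw [mu_eq_zero hm, zero_mul]
  rw [hz, zero_add]
  -- the two kinds of pieces near the tail
  have hT : ∀ m r' : ℕ, mu j m r' * Rec8.sw {Z | ∃ h, h ≤ N ∧ Z ∈ Brd h} (fun Z => Rec8.sw (Irr r') (fun P' =>
      Rec8.sw {M | M ∈ Brd m ∧ ∃ Y ∈ Brd n, Y ++ (P ++ (Z ++ (P' ++ M))) ∈ BrR (2 ^ (k + 4)) N}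
        (fun M => G (Z ++ (P' ++ M))))) ≤
      (ENNReal.ofReal (UU N) * (if 2 ^ (e - 1) < r' then mu j m r' * Rec8.sw (Irr r') (fun P' =>
        Rec8.sw (Brd m) (fun M => Φ (P' ++ M))) else 0)) +
      ENNReal.ofReal A * (mu j m r' * Rec8.sw (Irr r') (fun P' => Rec8.sw (Brd m) (fun M => Φ (P' ++ M)))) := by
    intro m r'
    by_cases hr' : 2 ^ (e - 1) < r'
    · rw [if_pos hr']
      refine le_trans ?_ le_self_add
      rw [mul_left_comm]
      refine mul_le_mul_right ?_ _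
      calc Rec8.sw {Z | ∃ h, h ≤ N ∧ Z ∈ Brd h} (fun Z => Rec8.sw (Irr r') (fun P' =>
            Rec8.sw {M | M ∈ Brd m ∧ ∃ Y ∈ Brd n, Y ++ (P ++ (Z ++ (P' ++ M))) ∈ BrR (2 ^ (k + 4)) N}
              (fun M => G (Z ++ (P' ++ M)))))
          ≤ Rec8.sw {Z | ∃ h, h ≤ N ∧ Z ∈ Brd h} (fun _ =>
            1 * Rec8.sw (Irr r') (fun P' => Rec8.sw (Brd m) (fun M => Φ (P' ++ M)))) := by
            refine Rec8.sw_mono' fun Z hZ => ?_
            obtain ⟨z, hz0, hZ⟩ := hZ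
            rw [one_mul]
            refine Rec8.sw_mono' fun P' hP' => ?_
            refine Rec8.sw_mono (fun t ht => ht.1) fun M hM => ?_
            refine (hGle _).trans ?_
            rw [← List.append_assoc]
            exact hΦ.her _ ⟨_, Brd_append hPb hZ⟩ _
        _ = gf {Z | ∃ h, h ≤ N ∧ Z ∈ Brd h} *
            Rec8.sw (Irr r') (fun P' => Rec8.sw (Brd m) (fun M => Φ (P' ++ M))) := by
            rw [Rec8.sw_mul_right, Rec8.sw_one]
        _ ≤ _ := mul_le_mul_left (NTm.low_mass N) _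
    · rw [if_neg hr', mul_zero, zero_add]
      by_cases hmu : mu j m r' = 0
      · rw [hmu, zero_mul]
        exact zero_le
      obtain ⟨hm, hm2⟩ := mu_ne hmu
      rw [mul_left_comm]
      refine mul_le_mul_right ?_ _
      calc Rec8.sw {Z | ∃ h, h ≤ N ∧ Z ∈ Brd h} (fun Z => Rec8.sw (Irr r') (fun P' =>
            Rec8.sw {M | M ∈ Brd m ∧ ∃ Y ∈ Brd n, Y ++ (P ++ (Z ++ (P' ++ M))) ∈ BrR (2 ^ (k + 4)) N}
              (fun M => G (Z ++ (P' ++ M)))))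
          ≤ Rec8.sw {Z | ∃ h, h ≤ N ∧ Z ∈ Brd h} (fun Z => Rec8.sw (Irr r') (fun P' =>
            Rec8.sw (Brd m) (fun M => (if X ++ (P ++ (Z ++ (P' ++ M))) ∈ W then 1 else 0) * Φ (P' ++ M)))) := by
            refine Rec8.sw_mono' fun Z hZ => ?_
            obtain ⟨z, hz0, hZ⟩ := hZ
            refine Rec8.sw_mono' fun P' hP' => ?_
            refine Rec8.sw_mono (fun t ht => ht.1) fun M hM => ?_
            rw [hGv]
            split_ifs
            · rw [one_mul, ← List.append_assoc]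
              exact hΦ.her _ ⟨_, Brd_append hPb hZ⟩ _
            · exact zero_le
        _ = Rec8.sw (Irr r') (fun P' => Rec8.sw (Brd m) (fun M => Rec8.sw {Z | ∃ h, h ≤ N ∧ Z ∈ Brd h} (fun Z =>
            (if X ++ (P ++ (Z ++ (P' ++ M))) ∈ W then 1 else 0) * Φ (P' ++ M)))) := by
            rw [Rec8.sw_comm]
            exact Rec8.sw_congr fun P' _ => Rec8.sw_comm _ _ _
        _ ≤ Rec8.sw (Irr r') (fun P' => Rec8.sw (Brd m) (fun M => ENNReal.ofReal A * Φ (P' ++ M))) := by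
            refine Rec8.sw_mono' fun P' hP' => Rec8.sw_mono' fun M hM => ?_
            rw [Rec8.sw_mul_right]
            refine mul_le_mul_left ?_ _
            have e1 := hW X ⟨n, hX⟩ P ⟨r, hP⟩ P' ⟨r', hP'⟩ M ⟨m, hM⟩ (by rw [hgt_eq hX, hgt_eq hP.1]; omega)
              (by rw [hgt_eq hX, hgt_eq hP.1]; omega) (by rw [hgt_eq hP'.1, hgt_eq hM]; omega)
              (by rw [hgt_eq hP'.1, hgt_eq hM]; omega)
            refine le_trans ?_ e1
            have e2 : Rec8.sw {Z | ∃ h, h ≤ N ∧ Z ∈ Brd h} (fun Z => if X ++ (P ++ (Z ++ (P' ++ M))) ∈ W then 1 else 0) =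
                gf {Z | Z ∈ {Z | ∃ h, h ≤ N ∧ Z ∈ Brd h} ∧ X ++ (P ++ (Z ++ (P' ++ M))) ∈ W} := by
              rw [← Rec8.sw_one, Rec8.sw_and]
            rw [e2]
            refine (gf_heights _ _ ?_).trans (ENNReal.tsum_le_tsum fun z => gf_mono ?_)
            · rintro Z ⟨z, -, hZ⟩
              exact ⟨z, hZ⟩
            · rintro Z ⟨h1, h2⟩
              exact ⟨h1, h2, hWN h2⟩
        _ = _ := by
            rw [← Rec8.sw_mul_left]
            exact Rec8.sw_congr fun P' _ => Rec8.sw_mul_left _ _ _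
  refine (ENNReal.tsum_le_tsum fun m => ENNReal.tsum_le_tsum fun r' => hT m r').trans ?_
  simp only [ENNReal.tsum_add, ENNReal.tsum_mul_left]
  -- the giants
  have hGi : ∑' m : ℕ, ∑' r' : ℕ, (if 2 ^ (e - 1) < r' then mu j m r' * Rec8.sw (Irr r') (fun P' =>
      Rec8.sw (Brd m) (fun M => Φ (P' ++ M))) else 0) ≤
      x * ENNReal.ofReal (K1 * 2 ^ (k - e) * (2 : ℝ) ^ (-(c * ((e : ℝ) - j)))) := by
    rw [ENNReal.tsum_comm]
    refine le_trans ?_ (mul_le_mul_right (hgi k e j hj he) x)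
    unfold Lg
    rw [← ENNReal.tsum_mul_left]
    refine ENNReal.tsum_le_tsum fun r' => ?_
    by_cases hr' : 2 ^ (e - 1) < r'
    · simp only [if_pos hr']
      have e1 : ∑' m : ℕ, mu j m r' * Rec8.sw (Irr r') (fun P => Rec8.sw (Brd m) (fun M => Φ (P ++ M))) =
          Rec8.sw (Irr r') (fun P => ∑' m : ℕ, mu j m r' * Rec8.sw (Brd m) (fun M => Φ (P ++ M))) := by
        rw [NX_sw_tsum]
        exact tsum_congr fun n => (Rec8.sw_mul_left _ _ _).symm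
      rw [e1, ← Rec8.sw_mul_left]
      exact Rec8.sw_mono' fun P' hP' => (sum_low1 j r' _).trans (hΦ.bdj j (by omega) r' P' hP')
    · simp only [if_neg hr', tsum_zero, mul_zero]
      exact le_rfl
  have hE' : ∑' m : ℕ, ∑' r' : ℕ, mu j m r' * Rec8.sw (Irr r') (fun P' => Rec8.sw (Brd m) (fun M => Φ (P' ++ M))) ≤
      ENNReal.ofReal (K2 * 2 ^ (k - j)) * x := by
    rw [ENNReal.tsum_comm]
    exact hend k j x Φ hΦ (by omega)
  obtain ⟨q, hq⟩ : ∃ q : ℝ, q = (2 : ℝ) ^ (-(c * ((e : ℝ) - j))) := ⟨_, rfl⟩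
  have hq0 : 0 < q := by
    rw [hq]
    exact Real.rpow_pos_of_pos two_pos _
  rw [← hq] at hGi ⊢
  calc ENNReal.ofReal (UU N) * (∑' m : ℕ, ∑' r' : ℕ, (if 2 ^ (e - 1) < r' then mu j m r' * Rec8.sw (Irr r') (fun P' =>
        Rec8.sw (Brd m) (fun M => Φ (P' ++ M))) else 0)) +
      ENNReal.ofReal A * ∑' m : ℕ, ∑' r' : ℕ, mu j m r' * Rec8.sw (Irr r') (fun P' => Rec8.sw (Brd m) (fun M => Φ (P' ++ M)))
      ≤ ENNReal.ofReal (UU N) * (x * ENNReal.ofReal (K1 * 2 ^ (k - e) * q)) +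
          ENNReal.ofReal A * (ENNReal.ofReal (K2 * 2 ^ (k - j)) * x) :=
        add_le_add (mul_le_mul_right hGi _) (mul_le_mul_right hE' _)
    _ = x * ENNReal.ofReal (K1 * 2 ^ (k - e) * q * UU N + K2 * 2 ^ (k - j) * A) := by
        rw [ENNReal.ofReal_add (by positivity) (by positivity), ENNReal.ofReal_mul (q := UU N) (by positivity),
          ENNReal.ofReal_mul (q := A) (by positivity)]
        ring
    _ ≤ _ := by
        refine mul_le_mul_right (ENNReal.ofReal_le_ofReal ?_) x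
        have e1 : 0 ≤ (K2 + K3) * (2 ^ (k - e) * q) * UU N := by positivity
        have e2 : 0 ≤ (K1 + K3) * 2 ^ (k - j) * A := by positivity
        nlinarith

/-- the next leaf in W -/
theorem near_spR (h : Inp C δ) (hA : SsA) : ∃ K c : ℝ, 1 ≤ K ∧ 0 < c ∧ ∀ (k e j j' N : ℕ) (A : ℝ) (x : ℝ≥0∞)
    (Φ : List Bool → ℝ≥0∞) (W : Set (List Bool)), DomJ k x Φ → j + 3 ≤ e → j ≤ j' → j' + 3 ≤ e → e ≤ k → 0 ≤ A →
    W ⊆ BrR (2 ^ (k + 4)) N → EZW (2 ^ (k + 4)) N e j W A →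
    xT (2 ^ (k + 4)) k (vA (2 ^ (k + 4)) W Φ) ≤
      ENNReal.ofReal (K * (1 + UU N / Ub k) * ((1 + 2 ^ (k - e)) * (2 : ℝ) ^ (-(c * ((e : ℝ) - j'))) +
        2 ^ (k - j') * (2 ^ (k - e) * (2 : ℝ) ^ (-(c * ((e : ℝ) - j))) * (UU N / Ub k) + 2 ^ (k - j) * (A / Ub k)))) * x := by
  classical
  obtain ⟨K3, c3, hK3, hc3, k3h⟩ := ss3J h
  obtain ⟨K1, hK1, k1h⟩ := k1 h
  obtain ⟨Kg, cg, hKg, hcg, hg1⟩ := g1 h
  obtain ⟨Kr, cr, hKr, hcr, hrest⟩ := rest_spR h hA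
  obtain ⟨c, hc⟩ : ∃ c, c = min (min c3 cg) cr := ⟨_, rfl⟩
  have hc0 : 0 < c := by
    rw [hc]
    exact lt_min (lt_min hc3 hcg) hcr
  have hcc3 : c ≤ c3 := by rw [hc]; exact (min_le_left _ _).trans (min_le_left _ _)
  have hccg : c ≤ cg := by rw [hc]; exact (min_le_left _ _).trans (min_le_right _ _)
  have hccr : c ≤ cr := by rw [hc]; exact min_le_right _ _
  have hn1 : 0 ≤ Kr * Kg := by positivity
  have hn2 : 0 ≤ Kr * K1 := by positivity
  refine ⟨16 * (K3 + Kr * Kg + Kr * K1), c, by linarith, hc0, fun k e j j' N A x Φ W hΦ hj hjj hj' he hA0 hWN hW => ?_⟩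
  refine xT_le fun b I hb hI => ?_
  obtain ⟨i, hIi⟩ := hI
  have hp4 : 2 ^ (k + 4) = 8 * 2 ^ (k + 1) := by ring
  have hp1 : 2 ^ (k + 1) = 2 * 2 ^ k := by ring
  have hp0 : 1 ≤ 2 ^ k := Nat.one_le_two_pow
  have hpe : 2 ^ e ≤ 2 ^ k := Nat.pow_le_pow_right (by norm_num) he
  have hpj' : 2 ^ (j' + 1) ≤ 2 ^ (e - 1) := Nat.pow_le_pow_right (by norm_num) (by omega)
  have hpjj : 2 ^ j ≤ 2 ^ j' := Nat.pow_le_pow_right (by norm_num) hjj
  have hpe1 : 2 ^ (e - 1) ≤ 2 ^ k := Nat.pow_le_pow_right (by norm_num) (by omega)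
  have hUN : 0 < UU N := Num2Aux.UU_pos N
  have hU := Ub_pos k
  have hUj := Ub_pos j'
  have hUe := Ub_pos e
  have hej : (0 : ℝ) ≤ (e : ℝ) - j := by
    have : (j : ℝ) ≤ e := by exact_mod_cast (by omega : j ≤ e)
    linarith
  have hej' : (0 : ℝ) ≤ (e : ℝ) - j' := by
    have : (j' : ℝ) ≤ e := by exact_mod_cast (by omega : j' ≤ e)
    linarith
  have hke : (0 : ℝ) ≤ (k : ℝ) - e := by
    have : (e : ℝ) ≤ k := by exact_mod_cast he
    linarith
  obtain ⟨q, hq⟩ : ∃ q : ℝ, q = (2 : ℝ) ^ (-(c * ((e : ℝ) - j))) := ⟨_, rfl⟩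
  obtain ⟨q', hq'⟩ : ∃ q' : ℝ, q' = (2 : ℝ) ^ (-(c * ((e : ℝ) - j'))) := ⟨_, rfl⟩
  have hq0 : 0 < q := by
    rw [hq]
    exact Real.rpow_pos_of_pos two_pos _
  have hq0' : 0 < q' := by
    rw [hq']
    exact Real.rpow_pos_of_pos two_pos _
  have hqr : (2 : ℝ) ^ (-(cr * ((e : ℝ) - j))) ≤ q := by
    rw [hq]
    refine Real.rpow_le_rpow_of_exponent_le (by norm_num) ?_
    have := mul_le_mul_of_nonneg_right hccr hej
    linarith
  have hq3 : (2 : ℝ) ^ (-(c3 * ((k : ℝ) - j'))) ≤ q' := by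
    rw [hq']
    refine Real.rpow_le_rpow_of_exponent_le (by norm_num) ?_
    have h5 : c * ((e : ℝ) - j') ≤ c3 * ((k : ℝ) - j') := mul_le_mul hcc3 (by linarith) hej' (by linarith)
    linarith
  have hqg : (2 : ℝ) ^ (-(cg * ((e : ℝ) - j'))) ≤ q' := by
    rw [hq']
    refine Real.rpow_le_rpow_of_exponent_le (by norm_num) ?_
    have := mul_le_mul_of_nonneg_right hccg hej'
    linarith
  obtain ⟨B, hB⟩ : ∃ B : ℝ, B = Kr * (2 ^ (k - e) * q) * UU N + Kr * 2 ^ (k - j) * A := ⟨_, rfl⟩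
  have hB0 : 0 ≤ B := by
    rw [hB]
    positivity
  let Θ : ℕ → List Bool → ℝ≥0∞ := fun r P =>
    x * ((if 2 ^ k < r then SS k P else 0) + ((if 2 ^ (e - 1) < r then ENNReal.ofReal (Kr * UU N) else 0) +
      ENNReal.ofReal B))
  have hW' : ∀ t, {g' | g' ∈ W ∧ RT (2 ^ (k + 4)) LFold t g'} = Fl.At (2 ^ (k + 4)) N W LFold t := by
    intro t
    ext g
    exact ⟨fun hg => ⟨hWN hg.1, hg.1, hg.2⟩, fun hg => ⟨hg.2.1, hg.2.2⟩⟩
  have s1 : Rec8.sw (Fld.BrB b) (fun M => vA (2 ^ (k + 4)) W Φ (I ++ M)) ≤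
      Rec8.sw (Fld.BrB b) (fun M => ∑' n : ℕ, ∑' r : ℕ, mu j' n r * Rec8.sw (Brd n) (fun X =>
        Rec8.sw {P | P ∈ Irr r ∧ ∃ c : Bool, KRel (2 ^ (k + 4)) I P M ((!c) :: c :: X)} (fun P => Θ r P))) := by
    refine Rec8.sw_mono' fun M hM => ?_
    obtain ⟨m0, -, hM0⟩ := hM
    unfold vA
    rw [hW']
    have e1 : Rec8.sw (Fl.At (2 ^ (k + 4)) N W LFold (I ++ M)) Φ =
        Rec8.sw (BrR (2 ^ (k + 4)) N) (fun g' => if g' ∈ Fl.At (2 ^ (k + 4)) N W LFold (I ++ M) then Φ g' else 0) := by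
      have e2 := Rec8.sw_and (BrR (2 ^ (k + 4)) N) (fun g' => g' ∈ Fl.At (2 ^ (k + 4)) N W LFold (I ++ M)) Φ
      refine Eq.trans ?_ (e2.trans ?_)
      · congr 1
        ext g'
        exact ⟨fun h => ⟨h.1, h⟩, fun h => h.2⟩
      · refine Rec8.sw_congr fun g' _ => ?_
        split_ifs <;> rfl
    rw [e1]
    refine (inR (j := j') (by omega) _).trans ?_
    refine ENNReal.tsum_le_tsum fun n => ENNReal.tsum_le_tsum fun r => ?_
    by_cases hmu : mu j' n r = 0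
    · rw [hmu, zero_mul, zero_mul]
    obtain ⟨hn, hn2⟩ := mu_ne hmu
    refine mul_le_mul_right (Rec8.sw_mono' fun X hX => ?_) _
    rw [Rec8.sw_and]
    refine Rec8.sw_mono' fun P hP => ?_
    by_cases hK : P ∈ Fl.KP1 (2 ^ (k + 4)) I M X r
    · refine le_trans ?_ (le_of_eq (if_pos hK.2).symm)
      have h9 := hrest k e j N n r A x Φ X P W hΦ hj he hA0 hWN hW (by omega) (by omega) hX hP
      have h10 : Kr * (2 ^ (k - e) * (2 : ℝ) ^ (-(cr * ((e : ℝ) - j)))) * UU N + Kr * 2 ^ (k - j) * A ≤ B := by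
        rw [hB]
        gcongr
      refine le_trans ?_ (h9.trans (mul_le_mul_right (add_le_add le_rfl (add_le_add le_rfl
        (ENNReal.ofReal_le_ofReal h10))) x))
      rw [Rec8.sw_ind, Rec8.sw_ind]
      refine ENNReal.tsum_le_tsum fun Z => ?_
      by_cases hZ : Z ∈ {Z | Z ∈ BU ∧ X ++ (P ++ Z) ∈ BrR (2 ^ (k + 4)) N}
      · rw [if_pos hZ]
        by_cases h1 : X ++ (P ++ Z) ∈ Fl.At (2 ^ (k + 4)) N W LFold (I ++ M)
        · rw [if_pos h1, if_pos (show Z ∈ {Z | Z ∈ BU ∧ X ++ (P ++ Z) ∈ W} from ⟨hZ.1, h1.2.1⟩)]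
          exact mul_le_mul_right (hΦ.her X ⟨n, hX⟩ _) _
        · rw [if_neg h1, mul_zero]
          exact zero_le
      · rw [if_neg hZ]
        exact zero_le
    · refine le_trans ((Rec8.sw_mono' (Ψ := fun _ => 0) fun Z hZ => ?_).trans (le_of_eq (Rec8.sw_zero _))) zero_le
      rw [if_neg]
      intro hAt
      exact hK (Fl.At_K RNb_LFold hIi.1 hM0 hX hP hZ.1 hAt)
  have s2 := fold_sum (2 ^ (k + 4)) b j' I (mu j') (mb j') (fun a n r => mu_le_mb) (fun n r => mu_eq_zero)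
    (fun a r => mb_mono (Nat.le_succ a) r) Θ
  refine s1.trans (s2.trans ?_)
  have s4 := sumS3 (2 ^ (k + 4)) j' b k e I x (ENNReal.ofReal (Kr * UU N)) (ENNReal.ofReal B) (mb j')
    (fun a r => mb_le_one _ _ _)
  have t1 := k3h (2 ^ (k + 4)) k j' b I le_rfl (by omega) hb
  have t2 := k1h (2 ^ (k + 4)) k j' b I le_rfl (by omega) hb
  have t3 := hg1 (2 ^ (k + 4)) k e j' b I le_rfl hj' he hb
  obtain ⟨S, hS⟩ : ∃ S, S = Sw (2 ^ (k + 4)) k b I := ⟨_, rfl⟩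
  rw [← hS] at t1 t2 t3 ⊢
  have t1' : _ ≤ ENNReal.ofReal (K3 * q') * S := t1.trans (mul_le_mul_left (ENNReal.ofReal_le_ofReal
    (mul_le_mul_of_nonneg_left hq3 (by linarith))) _)
  have t3' : _ ≤ ENNReal.ofReal (Kg / Ub e * q') * S := t3.trans (mul_le_mul_left (ENNReal.ofReal_le_ofReal
    (mul_le_mul_of_nonneg_left hqg (by positivity))) _)
  calc 16 * ∑ a ∈ range (j' + 2), ∑' r : ℕ, mb j' a r * Rec8.sw (Irr r) (fun P => KT (2 ^ (k + 4)) b I a P * Θ r P)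
      ≤ 16 * (x * (ENNReal.ofReal (K3 * q') * S + (ENNReal.ofReal (Kr * UU N) * (ENNReal.ofReal (Kg / Ub e * q') * S) +
          ENNReal.ofReal B * (ENNReal.ofReal (K1 / Ub j') * S)))) := by
        refine mul_le_mul_right (s4.trans ?_) _
        exact mul_le_mul_right (add_le_add t1' (add_le_add (mul_le_mul_right t3' _) (mul_le_mul_right t2 _))) _
    _ = ENNReal.ofReal (16 * (K3 * q' + Kr * UU N * (Kg / Ub e * q') + B * (K1 / Ub j'))) * x * S := by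
        have e16 : ENNReal.ofReal 16 = 16 := by simp
        rw [ENNReal.ofReal_mul (p := 16) (by norm_num), ENNReal.ofReal_add (by positivity) (by positivity),
          ENNReal.ofReal_add (by positivity) (by positivity), ENNReal.ofReal_mul (p := B) hB0,
          ENNReal.ofReal_mul (p := Kr * UU N) (by positivity), e16]
        ring
    _ ≤ _ := by
        refine mul_le_mul_left (mul_le_mul_left (ENNReal.ofReal_le_ofReal ?_) _) _
        rw [← hq, ← hq']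
        obtain ⟨R, hR⟩ : ∃ R : ℝ, R = UU N / Ub k := ⟨_, rfl⟩
        have hR0 : 0 ≤ R := by
          rw [hR]
          positivity
        rw [← hR]
        have e1 : UU N / Ub e ≤ R * 2 ^ (k - e) := by
          rw [div_le_iff₀ hUe, hR, div_mul_eq_mul_div, div_mul_eq_mul_div, le_div_iff₀ hU]
          have := mul_le_mul_of_nonneg_left (Fl.Ub_ratio he) hUN.le
          calc UU N * Ub k ≤ UU N * (2 ^ (k - e) * Ub e) := this
            _ = _ := by ring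
        have e2 : B / Ub j' ≤ Kr * (2 ^ (k - j') * (2 ^ (k - e) * q * R + 2 ^ (k - j) * (A / Ub k))) := by
          rw [div_le_iff₀ hUj]
          have h5 := Fl.Ub_ratio (show j' ≤ k by omega)
          have h6 : 0 ≤ Kr * (2 ^ (k - e) * q * R + 2 ^ (k - j) * (A / Ub k)) := by positivity
          calc B = Kr * (2 ^ (k - e) * q * R + 2 ^ (k - j) * (A / Ub k)) * Ub k := by
                rw [hB, hR]
                field_simp
            _ ≤ Kr * (2 ^ (k - e) * q * R + 2 ^ (k - j) * (A / Ub k)) * (2 ^ (k - j') * Ub j') :=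
                mul_le_mul_of_nonneg_left h5 h6
            _ = _ := by ring
        obtain ⟨E, hE⟩ : ∃ E : ℝ, E = 2 ^ (k - e) := ⟨_, rfl⟩
        obtain ⟨T, hT⟩ : ∃ T : ℝ, T = E * q * R + 2 ^ (k - j) * (A / Ub k) := ⟨_, rfl⟩
        obtain ⟨Ej, hEj⟩ : ∃ Ej : ℝ, Ej = 2 ^ (k - j') := ⟨_, rfl⟩
        rw [← hE] at e1 e2 ⊢
        rw [← hT, ← hEj] at e2 ⊢
        have hE0 : 0 ≤ E := by rw [hE]; positivity
        have hEj0 : 0 ≤ Ej := by rw [hEj]; positivity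
        have hT0 : 0 ≤ T := by rw [hT]; positivity
        have e3 : Kr * UU N * (Kg / Ub e * q') ≤ Kr * Kg * (R * E * q') := by
          calc Kr * UU N * (Kg / Ub e * q') = Kr * Kg * (UU N / Ub e * q') := by ring
            _ ≤ Kr * Kg * (R * E * q') := by gcongr
        have e4 : B * (K1 / Ub j') ≤ Kr * K1 * (Ej * T) := by
          calc B * (K1 / Ub j') = K1 * (B / Ub j') := by ring
            _ ≤ K1 * (Kr * (Ej * T)) := mul_le_mul_of_nonneg_left e2 (by linarith)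
            _ = _ := by ring
        have hKK : 1 ≤ K3 + Kr * Kg + Kr * K1 := by
          have : 0 ≤ Kr * Kg := by positivity
          have : 0 ≤ Kr * K1 := by positivity
          linarith
        have e5 := nums hKK hR0 hE0 hq0'.le hEj0 hT0
        have e6 : K3 * q' + Kr * UU N * (Kg / Ub e * q') + B * (K1 / Ub j') ≤
            (K3 + Kr * Kg + Kr * K1) * (q' + R * E * q') + (K3 + Kr * Kg + Kr * K1) * (Ej * T) := by
          have a1 : 0 ≤ Kr * Kg * q' := by positivity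
          have a2 : 0 ≤ Kr * K1 * q' := by positivity
          have a3 : 0 ≤ (K3 + Kr * K1) * (R * E * q') := by positivity
          have a4 : 0 ≤ (K3 + Kr * Kg) * (Ej * T) := by positivity
          nlinarith
        calc 16 * (K3 * q' + Kr * UU N * (Kg / Ub e * q') + B * (K1 / Ub j'))
            ≤ 16 * ((K3 + Kr * Kg + Kr * K1) * (1 + R) * ((1 + E) * q' + Ej * T)) := by linarith
          _ = _ := by ring

/-- the leaves of W, two sided -/
theorem free_spR (h : Inp C δ) (hA : SsA) : ∃ K c : ℝ, 1 ≤ K ∧ 0 < c ∧ ∀ (k e j j' N : ℕ) (A : ℝ) (y x : ℝ≥0∞)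
    (Ψ Φ : List Bool → ℝ≥0∞) (W : Set (List Bool)), DomJ k y Ψ → DomJ k x Φ → j + 3 ≤ e → j ≤ j' → j' + 3 ≤ e → e ≤ k → 0 ≤ A →
    W ⊆ BrR (2 ^ (k + 4)) N → EZW (2 ^ (k + 4)) N e j W A →
    Rec8.sw W (fun g => Ψ (rev g) * Φ g) ≤
      ENNReal.ofReal (K * (1 + UU N / Ub k) * ((1 + 2 ^ (k - e)) * (2 : ℝ) ^ (-(c * ((e : ℝ) - j'))) +
        2 ^ (k - j') * (2 ^ (k - e) * (2 : ℝ) ^ (-(c * ((e : ℝ) - j))) * (UU N / Ub k) + 2 ^ (k - j) * (A / Ub k))) *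
        Ub k) * (y * x) := by
  classical
  obtain ⟨Ks, cs, hKs, hcs, hss⟩ := ssJ1 h
  obtain ⟨K1, hK1, hend1⟩ := endsJ hA
  obtain ⟨Kg, cg, hKg, hcg, hgE⟩ := giE h
  obtain ⟨Kr, cr, hKr, hcr, hrest⟩ := rest_spR h hA
  obtain ⟨c, hc⟩ : ∃ c, c = min (min cs cg) cr := ⟨_, rfl⟩
  have hc0 : 0 < c := by
    rw [hc]
    exact lt_min (lt_min hcs hcg) hcr
  have hccs : c ≤ cs := by rw [hc]; exact (min_le_left _ _).trans (min_le_left _ _)
  have hccg : c ≤ cg := by rw [hc]; exact (min_le_left _ _).trans (min_le_right _ _)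
  have hccr : c ≤ cr := by rw [hc]; exact min_le_right _ _
  have hn1 : 0 ≤ Kr * Kg := by positivity
  have hn2 : 0 ≤ Kr * K1 := by positivity
  refine ⟨Ks + Kr * Kg + Kr * K1, c, by linarith, hc0, fun k e j j' N A y x Ψ Φ W hΨ hΦ hj hjj hj' he hA0 hWN hW => ?_⟩
  have hp4 : 2 ^ (k + 4) = 8 * 2 ^ (k + 1) := by ring
  have hp1 : 2 ^ (k + 1) = 2 * 2 ^ k := by ring
  have hp0 : 1 ≤ 2 ^ k := Nat.one_le_two_pow
  have hpe : 2 ^ e ≤ 2 ^ k := Nat.pow_le_pow_right (by norm_num) he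
  have hpj' : 2 ^ (j' + 1) ≤ 2 ^ (e - 1) := Nat.pow_le_pow_right (by norm_num) (by omega)
  have hpjj : 2 ^ j ≤ 2 ^ j' := Nat.pow_le_pow_right (by norm_num) hjj
  have hpe1 : 2 ^ (e - 1) ≤ 2 ^ k := Nat.pow_le_pow_right (by norm_num) (by omega)
  have hUN : 0 < UU N := Num2Aux.UU_pos N
  have hU := Ub_pos k
  have hej : (0 : ℝ) ≤ (e : ℝ) - j := by
    have : (j : ℝ) ≤ e := by exact_mod_cast (by omega : j ≤ e)
    linarith
  have hej' : (0 : ℝ) ≤ (e : ℝ) - j' := by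
    have : (j' : ℝ) ≤ e := by exact_mod_cast (by omega : j' ≤ e)
    linarith
  have hke : (0 : ℝ) ≤ (k : ℝ) - e := by
    have : (e : ℝ) ≤ k := by exact_mod_cast he
    linarith
  obtain ⟨q, hq⟩ : ∃ q : ℝ, q = (2 : ℝ) ^ (-(c * ((e : ℝ) - j))) := ⟨_, rfl⟩
  obtain ⟨q', hq'⟩ : ∃ q' : ℝ, q' = (2 : ℝ) ^ (-(c * ((e : ℝ) - j'))) := ⟨_, rfl⟩
  have hq0 : 0 < q := by
    rw [hq]
    exact Real.rpow_pos_of_pos two_pos _
  have hq0' : 0 < q' := by
    rw [hq']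
    exact Real.rpow_pos_of_pos two_pos _
  have hqr : (2 : ℝ) ^ (-(cr * ((e : ℝ) - j))) ≤ q := by
    rw [hq]
    refine Real.rpow_le_rpow_of_exponent_le (by norm_num) ?_
    have := mul_le_mul_of_nonneg_right hccr hej
    linarith
  have hqs : (2 : ℝ) ^ (-(cs * ((k : ℝ) - j'))) ≤ q' := by
    rw [hq']
    refine Real.rpow_le_rpow_of_exponent_le (by norm_num) ?_
    have h5 : c * ((e : ℝ) - j') ≤ cs * ((k : ℝ) - j') := mul_le_mul hccs (by linarith) hej' (by linarith)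
    linarith
  have hqg : (2 : ℝ) ^ (-(cg * ((e : ℝ) - j'))) ≤ q' := by
    rw [hq']
    refine Real.rpow_le_rpow_of_exponent_le (by norm_num) ?_
    have := mul_le_mul_of_nonneg_right hccg hej'
    linarith
  obtain ⟨B, hB⟩ : ∃ B : ℝ, B = Kr * (2 ^ (k - e) * q) * UU N + Kr * 2 ^ (k - j) * A := ⟨_, rfl⟩
  have hB0 : 0 ≤ B := by
    rw [hB]
    positivity
  obtain ⟨U', hU'⟩ : ∃ U', U' = ENNReal.ofReal (Kr * UU N) := ⟨_, rfl⟩
  obtain ⟨B', hB'⟩ : ∃ B', B' = ENNReal.ofReal B := ⟨_, rfl⟩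
  -- the rest behind the piece near the head
  obtain ⟨Θ, hΘ⟩ : ∃ Θ : ℕ → List Bool → ℝ≥0∞, Θ = fun r P =>
    (if 2 ^ k < r then SS k P else 0) + ((if 2 ^ (e - 1) < r then U' else 0) + B') := ⟨_, rfl⟩
  obtain ⟨G, hG⟩ : ∃ G : List Bool → ℝ≥0∞, G = fun g => if g ∈ W then Ψ (rev g) * Φ g else 0 := ⟨_, rfl⟩
  have hGg : ∀ g, G g = if g ∈ W then Ψ (rev g) * Φ g else 0 := fun g => by rw [hG]
  have e1 : Rec8.sw W (fun g => Ψ (rev g) * Φ g) = Rec8.sw (BrR (2 ^ (k + 4)) N) G := by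
    rw [Rec8.sw_ind, Rec8.sw_ind]
    refine tsum_congr fun g => ?_
    rw [hGg]
    by_cases h1 : g ∈ W
    · rw [if_pos h1, if_pos h1, if_pos (hWN h1)]
    · rw [if_neg h1, if_neg h1, mul_zero]
      simp
  rw [e1]
  have hrest' : ∀ (n r : ℕ) (X P : List Bool), n < 2 ^ (j' + 1) → 2 ^ j' < n + r → X ∈ Brd n → P ∈ Irr r →
      Rec8.sw {Z | Z ∈ BU ∧ X ++ (P ++ Z) ∈ BrR (2 ^ (k + 4)) N} (fun Z => G (X ++ (P ++ Z))) ≤
        Ψ (rev P ++ rev X) * (x * Θ r P) := by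
    intro n r X P hn hn2 hX hP
    have h9 := hrest k e j N n r A x Φ X P W hΦ hj he hA0 hWN hW (by omega) (by omega) hX hP
    have h10 : Kr * (2 ^ (k - e) * (2 : ℝ) ^ (-(cr * ((e : ℝ) - j)))) * UU N + Kr * 2 ^ (k - j) * A ≤ B := by
      rw [hB]
      gcongr
    have h11 := h9.trans (mul_le_mul_right (add_le_add le_rfl (add_le_add le_rfl (ENNReal.ofReal_le_ofReal h10))) x)
    rw [← hU', ← hB'] at h11
    rw [hΘ]
    refine le_trans ?_ (mul_le_mul_right h11 _)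
    rw [← Rec8.sw_mul_left, Rec8.sw_ind, Rec8.sw_ind]
    refine ENNReal.tsum_le_tsum fun Z => ?_
    by_cases hZ : Z ∈ {Z | Z ∈ BU ∧ X ++ (P ++ Z) ∈ BrR (2 ^ (k + 4)) N}
    · rw [if_pos hZ, hGg]
      by_cases h2 : X ++ (P ++ Z) ∈ W
      · rw [if_pos h2, if_pos (show Z ∈ {Z | Z ∈ BU ∧ X ++ (P ++ Z) ∈ W} from ⟨hZ.1, h2⟩)]
        obtain ⟨⟨z, hZ1⟩, -⟩ := hZ
        refine mul_le_mul_right (mul_le_mul' ?_ (hΦ.her X ⟨n, hX⟩ _)) _
        rw [rev_append, rev_append, List.append_assoc]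
        exact hΨ.her (rev Z) ⟨z, Brd_rev hZ1⟩ _
      · rw [if_neg h2, mul_zero]
        exact zero_le
    · rw [if_neg hZ]
      exact zero_le
  -- the level near the head
  have s1 : Rec8.sw (BrR (2 ^ (k + 4)) N) G ≤ ∑' n : ℕ, ∑' r : ℕ, mu j' n r * Rec8.sw (Brd n) (fun X =>
      Rec8.sw (Irr r) (fun P => Ψ (rev P ++ rev X) * (x * Θ r P))) := by
    refine (inR (j := j') (D := 2 ^ (k + 4)) (N := N) (by omega) _).trans ?_
    refine ENNReal.tsum_le_tsum fun n => ENNReal.tsum_le_tsum fun r => ?_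
    by_cases hmu : mu j' n r = 0
    · rw [hmu, zero_mul, zero_mul]
    obtain ⟨hn, hn2⟩ := mu_ne hmu
    exact mul_le_mul_right (Rec8.sw_mono' fun X hX => Rec8.sw_mono' fun P hP => hrest' n r X P (by omega) hn2 hX hP) _
  refine s1.trans ?_
  -- reversal of X and exchange of the sums
  obtain ⟨H, hH⟩ : ∃ H : ℕ → List Bool → ℝ≥0∞, H = fun r P => ∑' n : ℕ, mu j' n r * Rec8.sw (Brd n) (fun M => Ψ (P ++ M)) :=
    ⟨_, rfl⟩
  have s2 : (∑' n : ℕ, ∑' r : ℕ, mu j' n r * Rec8.sw (Brd n) (fun X =>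
      Rec8.sw (Irr r) (fun P => Ψ (rev P ++ rev X) * (x * Θ r P)))) =
      x * ∑' r : ℕ, Rec8.sw (Irr r) (fun P => Θ r P * H r (rev P)) := by
    rw [ENNReal.tsum_comm, ← ENNReal.tsum_mul_left]
    refine tsum_congr fun r => ?_
    have e2 : ∀ n : ℕ, mu j' n r * Rec8.sw (Brd n) (fun X => Rec8.sw (Irr r) (fun P => Ψ (rev P ++ rev X) * (x * Θ r P))) =
        Rec8.sw (Irr r) (fun P => x * (Θ r P * (mu j' n r * Rec8.sw (Brd n) (fun M => Ψ (rev P ++ M))))) := by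
      intro n
      rw [Rec8.sw_comm, ← Rec8.sw_mul_left]
      refine Rec8.sw_congr fun P _ => ?_
      rw [← DO.sw_rev (Brd n) (fun t ht => Brd_rev ht) (fun M => Ψ (rev P ++ M)), Rec8.sw_mul_right]
      ring
    rw [tsum_congr e2, ← NX_sw_tsum, ← Rec8.sw_mul_left]
    refine Rec8.sw_congr fun P _ => ?_
    rw [ENNReal.tsum_mul_left, ENNReal.tsum_mul_left, hH]
  rw [s2]
  have hHle : ∀ r P, P ∈ Irr r → H r (rev P) ≤ y * SJ k j' (rev P) := by
    intro r P hP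
    rw [hH]
    exact (sum_low1 j' r _).trans (hΨ.bdj j' (by omega) r (rev P) (Irr_rev hP))
  have s3 : ∀ r : ℕ, Rec8.sw (Irr r) (fun P => Θ r P * H r (rev P)) ≤
      y * (if 2 ^ k < r then Rec8.sw (Irr r) (fun P => SJ k j' (rev P) * SS k P) else 0) +
      (U' * (y * (if 2 ^ (e - 1) < r then Rec8.sw (Irr r) (fun P => SJ k j' (rev P)) else 0)) +
      B' * Rec8.sw (Irr r) (fun P => H r P)) := by
    intro r
    have e3 : Rec8.sw (Irr r) (fun P => Θ r P * H r (rev P)) =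
        Rec8.sw (Irr r) (fun P => (if 2 ^ k < r then SS k P else 0) * H r (rev P)) +
        (Rec8.sw (Irr r) (fun P => (if 2 ^ (e - 1) < r then U' else 0) * H r (rev P)) +
        B' * Rec8.sw (Irr r) (fun P => H r (rev P))) := by
      rw [← Rec8.sw_mul_left, ← Rec8.sw_add, ← Rec8.sw_add]
      refine Rec8.sw_congr fun P _ => ?_
      rw [hΘ]
      ring
    rw [e3]
    refine add_le_add ?_ (add_le_add ?_ (le_of_eq ?_))
    · by_cases hr : 2 ^ k < r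
      · simp only [if_pos hr]
        rw [← Rec8.sw_mul_left]
        refine Rec8.sw_mono' fun P hP => (mul_le_mul_right (hHle r P hP) _).trans (le_of_eq ?_)
        ring
      · simp only [if_neg hr, zero_mul]
        rw [Rec8.sw_zero, mul_zero]
    · by_cases hr : 2 ^ (e - 1) < r
      · simp only [if_pos hr]
        rw [← Rec8.sw_mul_left, ← Rec8.sw_mul_left]
        exact Rec8.sw_mono' fun P hP => mul_le_mul_right (hHle r P hP) _
      · simp only [if_neg hr, zero_mul]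
        rw [Rec8.sw_zero, mul_zero, mul_zero]
    · rw [DO.sw_rev (Irr r) (fun t ht => Irr_rev ht) (fun P => H r P)]
  refine (mul_le_mul_right (ENNReal.tsum_le_tsum s3) x).trans ?_
  rw [ENNReal.tsum_add, ENNReal.tsum_add, ENNReal.tsum_mul_left, ENNReal.tsum_mul_left, ENNReal.tsum_mul_left,
    ENNReal.tsum_mul_left]
  have t1 := hss k j' (by omega)
  unfold Lg at t1
  have t2 := hend1 k j' y Ψ hΨ (by omega)
  have t3 := hgE k e j' hj' he
  rw [← Lg_rev] at t3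
  unfold Lg at t3
  have t2' : (∑' r : ℕ, Rec8.sw (Irr r) (fun P => H r P)) ≤ ENNReal.ofReal (K1 * 2 ^ (k - j')) * y := by
    refine le_trans (le_of_eq (tsum_congr fun r => ?_)) t2
    rw [hH]
    show Rec8.sw (Irr r) (fun P => ∑' n : ℕ, mu j' n r * Rec8.sw (Brd n) (fun M => Ψ (P ++ M))) = _
    rw [NX_sw_tsum]
    exact tsum_congr fun n => Rec8.sw_mul_left _ _ _
  calc x * (y * ∑' r : ℕ, (if 2 ^ k < r then Rec8.sw (Irr r) (fun P => SJ k j' (rev P) * SS k P) else 0) +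
      (U' * (y * ∑' r : ℕ, (if 2 ^ (e - 1) < r then Rec8.sw (Irr r) (fun P => SJ k j' (rev P)) else 0)) +
      B' * ∑' r : ℕ, Rec8.sw (Irr r) (fun P => H r P)))
      ≤ x * (y * ENNReal.ofReal (Ks * (2 : ℝ) ^ (-(cs * ((k : ℝ) - j'))) * Ub k) +
        (U' * (y * ENNReal.ofReal (Kg * 2 ^ (k - e) * (2 : ℝ) ^ (-(cg * ((e : ℝ) - j'))))) +
        B' * (ENNReal.ofReal (K1 * 2 ^ (k - j')) * y))) := by gcongr
    _ ≤ x * (y * ENNReal.ofReal (Ks * q' * Ub k) + (U' * (y * ENNReal.ofReal (Kg * 2 ^ (k - e) * q')) +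
        B' * (ENNReal.ofReal (K1 * 2 ^ (k - j')) * y))) := by
        gcongr
    _ = ENNReal.ofReal (Ks * q' * Ub k + (Kr * UU N * (Kg * 2 ^ (k - e) * q') + B * (K1 * 2 ^ (k - j')))) * (y * x) := by
        rw [hU', hB', ENNReal.ofReal_add (by positivity) (by positivity), ENNReal.ofReal_add (by positivity) (by positivity),
          ENNReal.ofReal_mul (p := B) hB0, ENNReal.ofReal_mul (p := Kr * UU N) (by positivity)]
        ring
    _ ≤ _ := by
        refine mul_le_mul_left (ENNReal.ofReal_le_ofReal ?_) _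
        rw [← hq, ← hq']
        obtain ⟨R, hR⟩ : ∃ R : ℝ, R = UU N / Ub k := ⟨_, rfl⟩
        have hR0 : 0 ≤ R := by
          rw [hR]
          positivity
        have hUR : UU N = R * Ub k := by
          rw [hR]
          field_simp
        rw [← hR]
        obtain ⟨E, hE⟩ : ∃ E : ℝ, E = 2 ^ (k - e) := ⟨_, rfl⟩
        obtain ⟨Ej, hEj⟩ : ∃ Ej : ℝ, Ej = 2 ^ (k - j') := ⟨_, rfl⟩
        obtain ⟨T, hT⟩ : ∃ T : ℝ, T = E * q * R + 2 ^ (k - j) * (A / Ub k) := ⟨_, rfl⟩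
        rw [← hE] at hB ⊢
        rw [← hT, ← hEj]
        have hE0 : 0 ≤ E := by rw [hE]; positivity
        have hEj0 : 0 ≤ Ej := by rw [hEj]; positivity
        have hT0 : 0 ≤ T := by rw [hT]; positivity
        have hBT : B = Kr * T * Ub k := by
          rw [hB, hT, hUR]
          field_simp
        have hKK : 1 ≤ Ks + Kr * Kg + Kr * K1 := by linarith
        have e5 := nums hKK hR0 hE0 hq0'.le hEj0 hT0
        have e6 : Ks * q' * Ub k + (Kr * UU N * (Kg * E * q') + B * (K1 * Ej)) ≤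
            ((Ks + Kr * Kg + Kr * K1) * (q' + R * E * q') + (Ks + Kr * Kg + Kr * K1) * (Ej * T)) * Ub k := by
          rw [hBT, hUR]
          have a1 : 0 ≤ (Kr * Kg + Kr * K1) * q' * Ub k := by positivity
          have a3 : 0 ≤ (Ks + Kr * K1) * (R * E * q') * Ub k := by positivity
          have a4 : 0 ≤ (Ks + Kr * Kg) * (Ej * T) * Ub k := by positivity
          nlinarith
        exact e6.trans (mul_le_mul_of_nonneg_right e5 hU.le)

end SP

open SP in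
/-- **the window classes are classes of small norm, next leaf and two sided** -/
theorem sp_winR : ∃ K c : ℝ, 1 ≤ K ∧ 0 < c ∧ ∀ (kc N e j : ℕ) (A : ℝ) (W : Set (List Bool)), j + 3 ≤ e → e ≤ kc → 0 ≤ A →
    W ⊆ BrR (2 ^ (kc + 4)) N → EZW (2 ^ (kc + 4)) N e j W A →
    SmD DmJ kc W (K * (1 + UU N / Ub kc) ^ 2 * (4 ^ (kc - e) * (2 : ℝ) ^ (-(c * ((e : ℝ) - j))) +
      4 ^ (kc - j) * (A / Ub kc))) := by
  obtain ⟨C, δ, h⟩ := inp_exists
  have hA := ssA h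
  obtain ⟨K1, c1, hK1, hc1, h1⟩ := near_spR h hA
  obtain ⟨K2, c2, hK2, hc2, h2⟩ := free_spR h hA
  obtain ⟨c, hc⟩ : ∃ c, c = min c1 c2 := ⟨_, rfl⟩
  have hc0 : 0 < c := by
    rw [hc]
    exact lt_min hc1 hc2
  have hcc1 : c ≤ c1 := by rw [hc]; exact min_le_left _ _
  have hcc2 : c ≤ c2 := by rw [hc]; exact min_le_right _ _
  obtain ⟨D, hD⟩ : ∃ D : ℕ, 2 / c + 2 ≤ D := exists_nat_ge _
  have hD2 : 2 ≤ D := by
    have : (2 : ℝ) ≤ D := le_trans (by have : 0 < 2 / c := by positivity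
                                       linarith) hD
    exact_mod_cast this
  have hcD : 2 ≤ c * D := by
    have h3 : 2 / c ≤ D := by linarith
    rw [div_le_iff₀ hc0] at h3
    linarith
  have hDr : (0 : ℝ) < D := by
    have : (2 : ℝ) ≤ D := by exact_mod_cast hD2
    linarith
  refine ⟨(K1 + K2) * (2 * (2 : ℝ) ^ c + 8), c / D, ?_, by positivity, fun kc N e j A W hj he hA0 hWN hW => ?_⟩
  · have : 0 < (2 : ℝ) ^ c := Real.rpow_pos_of_pos two_pos _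
    nlinarith
  have hU := Ub_pos kc
  have hUN : 0 < UU N := Num2Aux.UU_pos N
  obtain ⟨R, hR⟩ : ∃ R : ℝ, R = UU N / Ub kc := ⟨_, rfl⟩
  have hR0 : 0 ≤ R := by
    rw [hR]
    positivity
  have ha0 : 0 ≤ A / Ub kc := div_nonneg hA0 hU.le
  obtain ⟨j', hj'⟩ : ∃ j', j' = e - 3 - (e - j - 3) / D := ⟨_, rfl⟩
  have hj'3 : j' + 3 ≤ e := by
    have h4 : j' ≤ e - 3 := by
      rw [hj']
      exact Nat.sub_le _ _
    omega
  have hjj : j ≤ j' := by
    have h4 : (e - j - 3) / D ≤ e - j - 3 := Nat.div_le_self _ _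
    omega
  have hnum := win_num (K := K1 + K2) (by linarith) hc0 hcD hD2 hj he hR0 ha0
  rw [← hj'] at hnum
  rw [← hR]
  have hmono : ∀ c' : ℝ, c ≤ c' → ∀ a b : ℕ, a ≤ b → (2 : ℝ) ^ (-(c' * ((b : ℝ) - a))) ≤ (2 : ℝ) ^ (-(c * ((b : ℝ) - a))) := by
    intro c' hc' a b hab
    refine Real.rpow_le_rpow_of_exponent_le (by norm_num) ?_
    have h5 : (a : ℝ) ≤ b := by exact_mod_cast hab
    have := mul_le_mul_of_nonneg_right hc' (by linarith : (0 : ℝ) ≤ (b : ℝ) - a)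
    linarith
  have hstep : ∀ K' c' : ℝ, 0 ≤ K' → K' ≤ K1 + K2 → c ≤ c' →
      K' * (1 + R) * ((1 + 2 ^ (kc - e)) * (2 : ℝ) ^ (-(c' * ((e : ℝ) - j'))) +
        2 ^ (kc - j') * (2 ^ (kc - e) * (2 : ℝ) ^ (-(c' * ((e : ℝ) - j))) * R + 2 ^ (kc - j) * (A / Ub kc))) ≤
      (K1 + K2) * (1 + R) * ((1 + 2 ^ (kc - e)) * (2 : ℝ) ^ (-(c * ((e : ℝ) - j'))) +
        2 ^ (kc - j') * (2 ^ (kc - e) * (2 : ℝ) ^ (-(c * ((e : ℝ) - j))) * R + 2 ^ (kc - j) * (A / Ub kc))) := by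
    intro K' c' hK0 hK' hc'
    have m1 := hmono c' hc' j' e (by omega)
    have m2 := hmono c' hc' j e (by omega)
    have m3 : 0 ≤ (2 : ℝ) ^ (-(c' * ((e : ℝ) - j'))) := (Real.rpow_pos_of_pos two_pos _).le
    have m4 : 0 ≤ (2 : ℝ) ^ (-(c' * ((e : ℝ) - j))) := (Real.rpow_pos_of_pos two_pos _).le
    gcongr
  refine ⟨fun x Φ hΦ => ?_, fun y x Ψ Φ hΨ _ hΦ => ?_⟩
  · refine (h1 kc e j j' N A x Φ W hΦ.2 hj hjj hj'3 he hA0 hWN hW).trans (mul_le_mul_left (ENNReal.ofReal_le_ofReal ?_) _)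
    rw [← hR]
    exact (hstep K1 c1 (by linarith) (by linarith) hcc1).trans hnum
  · refine (h2 kc e j j' N A y x Ψ Φ W hΨ.2 hΦ.2 hj hjj hj'3 he hA0 hWN hW).trans
      (mul_le_mul_left (ENNReal.ofReal_le_ofReal ?_) _)
    rw [← hR]
    exact mul_le_mul_of_nonneg_right ((hstep K2 c2 (by linarith) (by linarith) hcc2).trans hnum) hU.le

end NTA

end HexObs
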