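import Pool.Agent.NTA.TailStep

/-!
NTA: the tail of the lengths of an ensemble at every scale: induction over the scales.
-/

set_option autoImplicit false

namespace HexObs

namespace NTA

open Finset TS SDN NTW

open scoped ENNReal

namespace TI

lemma gf_bU {ι : Type} (I : Finset ι) (P : ι → Set (List Bool)) : gf (⋃ i ∈ I, P i) ≤ ∑ i ∈ I, gf (P i) := by
  classical
  induction I using Finset.induction_on with
  | empty =>
    simp [gf]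
  | insert a s ha ih =>
    rw [Finset.set_biUnion_insert, Finset.sum_insert ha]
    exact (gf_union_le _ _).trans (add_le_add le_rfl ih)

lemma SmR_mono {Dm : ℕ → ℝ≥0∞ → (List Bool → ℝ≥0∞) → Prop} {kc : ℕ} {R : Set (List (List Bool))} {δ δ' : ℝ}
    (h : SmR Dm kc R δ) (hd : δ ≤ δ') : SmR Dm kc R δ' := by
  have hU := (Ub_pos kc).le
  refine ⟨fun x Φ hΦ => (h.near x Φ hΦ).trans (mul_le_mul_left (ENNReal.ofReal_le_ofReal hd) _), fun y x Ψ Φ hΨ hf hΦ =>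
    (h.free y x Ψ Φ hΨ hf hΦ).trans (mul_le_mul_left (ENNReal.ofReal_le_ofReal (mul_le_mul_of_nonneg_right hd hU)) _)⟩

lemma SmD_anti {Dm : ℕ → ℝ≥0∞ → (List Bool → ℝ≥0∞) → Prop} {kc : ℕ} {S S' : Set (List Bool)} {δ : ℝ}
    (h : SmD Dm kc S δ) (hs : S' ⊆ S) : SmD Dm kc S' δ := by
  refine ⟨fun x Φ hΦ => (xT_mono fun t => ?_).trans (h.near x Φ hΦ), fun y x Ψ Φ hΨ hf hΦ =>
    (Rec8.sw_mono hs fun _ _ => le_rfl).trans (h.free y x Ψ Φ hΨ hf hΦ)⟩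
  exact Rec8.sw_mono (fun g hg => ⟨hs hg.1, hg.2⟩) fun _ _ => le_rfl

lemma mup_pow {m : ℕ → ℝ} (hd : MUp m) : ∃ C : ℝ, 1 ≤ C ∧ ∀ k j : ℕ, m (k + j) ≤ C ^ j * m k := by
  obtain ⟨C, hC, h⟩ := hd
  refine ⟨C, hC, fun k j => ?_⟩
  induction j with
  | zero => simp
  | succ j ih =>
    calc m (k + (j + 1)) ≤ C * m (k + j) := h (k + j)
      _ ≤ C * (C ^ j * m k) := mul_le_mul_of_nonneg_left ih (by linarith)
      _ = C ^ (j + 1) * m k := by ring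

lemma mlow_mono {m : ℕ → ℝ} (hm : MLow m) {i j : ℕ} (h : i ≤ j) : m i ≤ m j := by
  obtain ⟨d, rfl⟩ := Nat.exists_eq_add_of_le h
  refine le_trans ?_ (hm.low i d)
  have h1 : (1 : ℝ) ≤ (2 : ℝ) ^ (5 / 4 * (d : ℝ)) := Real.one_le_rpow (by norm_num) (by positivity)
  have := hm.pos i
  nlinarith

/-- from the dyadic form to the real form of the tail -/
lemma tak_of {m : ℕ → ℝ} (hm : MLow m) {E : ℕ → Set (List Bool)} {nu : ℕ → ℝ≥0∞} {Q K : ℕ} {A : ℝ} (hA : 0 ≤ A)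
    (h : ∀ k p : ℕ, k < K → gf {t | t ∈ E k ∧ 2 ^ p * m k ≤ (t.length : ℝ)} ≤ ENNReal.ofReal (A / 2 ^ (p * Q)) * nu k) :
    TAk m E nu Q (A * 2 ^ Q) K := by
  intro k lam hk hlam
  obtain ⟨p, hp1, hp2⟩ := exists_nat_pow_near hlam one_lt_two
  have hmk := hm.pos k
  refine (gf_mono fun t ht => ?_).trans ((h k p hk).trans (mul_le_mul_left (ENNReal.ofReal_le_ofReal ?_) _))
  · refine ⟨ht.1, le_trans ?_ ht.2⟩
    gcongr
  · have h1 : lam ^ Q ≤ 2 ^ (p * Q) * 2 ^ Q := by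
      calc lam ^ Q ≤ (2 ^ (p + 1)) ^ Q := pow_le_pow_left₀ (by linarith) hp2.le Q
        _ = _ := by
            rw [← pow_mul, add_mul, one_mul, pow_add]
    have h2 : 0 < lam ^ Q := by positivity
    rw [div_le_div_iff₀ (by positivity) h2]
    calc A * lam ^ Q ≤ A * (2 ^ (p * Q) * 2 ^ Q) := by gcongr
      _ = A * 2 ^ Q * 2 ^ (p * Q) := by ring

/-- the threshold of the long leaves -/
noncomputable def yy (m : ℕ → ℝ) (ν Q kc q : ℕ) : ℝ :=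
  2 ^ q * m (kc + 4 + 8 * ν) / (32 * ((((Q + 1) * q : ℕ) : ℝ) + 5) * m (kc + 5))

/-- the crowded runs at the scale kc + 5 -/
def BadC (E : ℕ → Set (List Bool)) (Q ν w0 nb k kc q : ℕ) (dir : Bool) : Set (List Bool) :=
  {t | t ∈ E k ∧ HasRun dir kc (CS (2 ^ (kc + 4)) (2 ^ (kc + 5 + (8 * ν + 1))) (kc + 2) (2 ^ (kc - w0)) nb
    ((Q + 1) * q)) t}

/-- the runs with many long leaves at the scale kc + 5 -/
def BadF (E : ℕ → Set (List Bool)) (m : ℕ → ℝ) (η : ℝ) (Q ν J0 k kc q : ℕ) (dir : Bool) : Set (List Bool) :=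
  {t | t ∈ E k ∧ HasRun dir kc (RFill kc (8 * ν + 1 + 3) ((Q + 1) * q) (J0 + 1)
    (BrR (2 ^ (kc + 4)) (2 ^ (kc + (8 * ν + 1 + 3) + 2)) ∩ T2.Sp (T2.ee η (kc + 5)) (yy m ν Q kc q * m (kc + 5)))) t}

/-- the bad runs at the scale kc + 5 -/
def Bad (E : ℕ → Set (List Bool)) (m : ℕ → ℝ) (η : ℝ) (Q ν J0 w0 nb k kc q : ℕ) : Set (List Bool) :=
  (BadC E Q ν w0 nb k kc q false ∪ BadC E Q ν w0 nb k kc q true) ∪
  (BadF E m η Q ν J0 k kc q false ∪ BadF E m η Q ν J0 k kc q true)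

lemma bad_gf {E : ℕ → Set (List Bool)} {m : ℕ → ℝ} {nu : ℕ → ℝ≥0∞} {η Ce C0 : ℝ} {Q ν J0 w0 nb k kc J q : ℕ}
    (hCe : 0 ≤ Ce) (hC0 : 0 < C0) (hk : k = kc + J)
    (hrun : ∀ (dir : Bool) (R : Set (List (List Bool))) (δ : ℝ), 0 < δ → SmR DmJ kc R δ →
      gf {t | t ∈ E (kc + J) ∧ HasRun dir kc R t} ≤ ENNReal.ofReal (Ce ^ J * δ) * nu (kc + J))
    (hc : SmR DmJ kc (CS (2 ^ (kc + 4)) (2 ^ (kc + 5 + (8 * ν + 1))) (kc + 2) (2 ^ (kc - w0)) nb ((Q + 1) * q))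
      (C0 / 4 ^ ((Q + 1) * q)))
    (hf : SmR DmJ kc (RFill kc (8 * ν + 1 + 3) ((Q + 1) * q) (J0 + 1)
      (BrR (2 ^ (kc + 4)) (2 ^ (kc + (8 * ν + 1 + 3) + 2)) ∩ T2.Sp (T2.ee η (kc + 5)) (yy m ν Q kc q * m (kc + 5))))
      (1 / 4 ^ ((Q + 1) * q))) :
    gf (Bad E m η Q ν J0 w0 nb k kc q) ≤ ENNReal.ofReal (2 * (C0 + 1) * Ce ^ J / 4 ^ ((Q + 1) * q)) * nu k := by
  subst hk
  have h1 : ∀ dir, gf (BadC E Q ν w0 nb (kc + J) kc q dir) ≤
      ENNReal.ofReal (Ce ^ J * (C0 / 4 ^ ((Q + 1) * q))) * nu (kc + J) :=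
    fun dir => hrun dir _ _ (by positivity) hc
  have h2 : ∀ dir, gf (BadF E m η Q ν J0 (kc + J) kc q dir) ≤
      ENNReal.ofReal (Ce ^ J * (1 / 4 ^ ((Q + 1) * q))) * nu (kc + J) :=
    fun dir => hrun dir _ _ (by positivity) hf
  refine (gf_union_le _ _).trans ((add_le_add (gf_union_le _ _) (gf_union_le _ _)).trans
    ((add_le_add (add_le_add (h1 false) (h1 true)) (add_le_add (h2 false) (h2 true))).trans (le_of_eq ?_)))
  rw [← add_mul, ← add_mul, ← add_mul, ← ENNReal.ofReal_add (by positivity) (by positivity),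
    ← ENNReal.ofReal_add (by positivity) (by positivity), ← ENNReal.ofReal_add (by positivity) (by positivity)]
  congr 2
  ring

/-- the covering of the long words by the bad runs and the deep events -/
lemma cover {m : ℕ → ℝ} {E : ℕ → Set (List Bool)} {η β : ℝ} {Cc Q ν J0 w0 nb k p I : ℕ}
    (hstep : ∀ {ν J0 w0 nb N q kc : ℕ} {y S2 : ℝ} {t : List Bool},
      t ∈ SA → w0 ≤ kc → 6 ≤ N → Cc * 2 ^ w0 * 4 ^ (8 * ν + 1) ≤ nb → (512 : ℝ) * (J0 + 6) ^ 2 ≤ 2 ^ ν →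
      y = 2 ^ q * m (kc + 4 + 8 * ν) / (32 * (N + 5) * m (kc + 5)) → 0 ≤ S2 → 2 * S2 + 5 ≤ y * m (kc + 5) →
      1 ≤ 2 ^ ν * 2 ^ q * m (kc + 4) →
      (∀ dir, ¬ HasRun dir kc (CS (2 ^ (kc + 4)) (2 ^ (kc + 5 + (8 * ν + 1))) (kc + 2) (2 ^ (kc - w0)) nb N) t) →
      (∀ dir, ¬ HasRun dir kc (RFill kc (8 * ν + 1 + 3) N (J0 + 1) (LongL kc (8 * ν + 1 + 3)
        (y * m (kc + 5) + 2 * S2 + 4))) t) →
      ∀ x z, Bx (kc + 5 + (8 * ν + 1)) t x z → 2 ^ q * m (kc + 4 + 8 * ν) ≤ (z : ℝ) - x →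
      ∃ x1 z1, Bx (kc + 6) t x1 z1 ∧ 2 ^ (q + ν) * m (kc + 4) ≤ (z1 : ℝ) - x1)
    (hν : 1 ≤ ν) (hnb : Cc * 2 ^ w0 * 4 ^ (8 * ν + 1) ≤ nb) (hJ : (512 : ℝ) * (J0 + 6) ^ 2 ≤ 2 ^ ν)
    (hI : ∀ i, i < I → 8 * ν * (i + 1) + 4 ≤ k)
    (hsc : ∀ i kc q, i < I → k = kc + 4 + 8 * ν * (i + 1) → q = p + ν * i → w0 ≤ kc ∧ 6 ≤ (Q + 1) * q ∧
      k ≤ 3 * (kc + 5) ∧ 1 ≤ 2 ^ ν * 2 ^ q * m (kc + 4) ∧ 0 ≤ yy m ν Q kc q * m (kc + 5) ∧
      2 * (2 : ℝ) ^ (β * ((T2.ff η (kc + 5) + 2 : ℕ) : ℝ)) + 5 ≤ yy m ν Q kc q * m (kc + 5))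
    (hls : ∀ (kc mu m0 J : ℕ) (dir : Bool) (y : ℝ) (t : List Bool), k ≤ 3 * (kc + 5) → kc + 5 ≤ k → 0 ≤ y →
      t ∈ WL k → t ∉ Deep η β k →
      HasRun dir kc (RFill kc mu m0 J (LongL kc mu (y + 2 * (2 : ℝ) ^ (β * ((T2.ff η (kc + 5) + 2 : ℕ) : ℝ)) + 4))) t →
      HasRun dir kc (RFill kc mu m0 J (BrR (2 ^ (kc + 4)) (2 ^ (kc + mu + 2)) ∩ T2.Sp (T2.ee η (kc + 5)) y)) t)
    (hE : E k ⊆ WL k)
    (hend : I ≠ 0 → 8 * ν * I ≤ k ∧ k ≤ 4 * (k - 8 * ν * I + 5) ∧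
      (2 : ℝ) ^ (β * ((k - 8 * ν * I + 5 : ℕ) : ℝ)) ≤ 2 ^ (p + ν * I) * m (k - 8 * ν * I))
    (hend0 : I = 0 → (2 : ℝ) ^ (β * (k : ℝ)) ≤ 2 ^ p * m k) :
    {t | t ∈ E k ∧ 2 ^ p * m k ≤ (t.length : ℝ)} ⊆
      (⋃ i ∈ range I, Bad E m η Q ν J0 w0 nb k (k - 8 * ν * (i + 1) - 4) (p + ν * i)) ∪ Deep η β k := by
  rintro t ⟨htE, hlen⟩
  by_contra hcon
  rw [Set.mem_union, not_or] at hcon
  obtain ⟨hnb', hnd⟩ := hcon
  have ht := hE htE
  have hP : ∀ i, i ≤ I → ∃ x z, Bx (k - 8 * ν * i + 2) t x z ∧ 2 ^ (p + ν * i) * m (k - 8 * ν * i) ≤ (z : ℝ) - x := by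
    intro i
    induction i with
    | zero =>
      intro _
      refine ⟨0, t.length, bx_all ht, ?_⟩
      simpa using hlen
    | succ i ih =>
      intro hi
      obtain ⟨x, z, hb, hxz⟩ := ih (by omega)
      obtain ⟨kc, hkc⟩ : ∃ kc, kc = k - 8 * ν * (i + 1) - 4 := ⟨_, rfl⟩
      have hIi := hI i (by omega)
      have hk : k = kc + 4 + 8 * ν * (i + 1) := by omega
      have hki : k - 8 * ν * i = kc + 4 + 8 * ν := by
        have : 8 * ν * (i + 1) = 8 * ν * i + 8 * ν := by ring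
        omega
      have hki1 : k - 8 * ν * (i + 1) = kc + 4 := by omega
      obtain ⟨q, hq⟩ : ∃ q, q = p + ν * i := ⟨_, rfl⟩
      obtain ⟨a1, a2, a3, a4, a5, a6⟩ := hsc i kc q (by omega) hk hq
      rw [hki1]
      rw [hki, ← hq] at hxz
      rw [hki] at hb
      have hq1 : p + ν * (i + 1) = q + ν := by rw [hq]; ring
      rw [hq1]
      have hnot : t ∉ Bad E m η Q ν J0 w0 nb k kc q := by
        intro hmem
        apply hnb'
        rw [Set.mem_iUnion₂]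
        refine ⟨i, Finset.mem_range.2 (by omega), ?_⟩
        rw [← hkc, ← hq]
        exact hmem
      have hnc : ∀ dir, ¬ HasRun dir kc (CS (2 ^ (kc + 4)) (2 ^ (kc + 5 + (8 * ν + 1))) (kc + 2) (2 ^ (kc - w0)) nb
          ((Q + 1) * q)) t := by
        intro dir hr
        apply hnot
        left
        cases dir
        · exact Or.inl ⟨htE, hr⟩
        · exact Or.inr ⟨htE, hr⟩
      have hnf : ∀ dir, ¬ HasRun dir kc (RFill kc (8 * ν + 1 + 3) ((Q + 1) * q) (J0 + 1) (LongL kc (8 * ν + 1 + 3)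
          (yy m ν Q kc q * m (kc + 5) + 2 * (2 : ℝ) ^ (β * ((T2.ff η (kc + 5) + 2 : ℕ) : ℝ)) + 4))) t := by
        intro dir hr
        have hr' := hls kc (8 * ν + 1 + 3) ((Q + 1) * q) (J0 + 1) dir (yy m ν Q kc q * m (kc + 5)) t a3 (by
          have : 8 ≤ 8 * ν * (i + 1) := by nlinarith
          omega) a5 ht hnd hr
        apply hnot
        right
        cases dir
        · exact Or.inl ⟨htE, hr'⟩
        · exact Or.inr ⟨htE, hr'⟩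
      rw [show kc + 4 + 8 * ν + 2 = kc + 5 + (8 * ν + 1) by ring] at hb
      exact hstep (N := (Q + 1) * q) (q := q) (kc := kc) (y := yy m ν Q kc q)
        (S2 := (2 : ℝ) ^ (β * ((T2.ff η (kc + 5) + 2 : ℕ) : ℝ))) ht.1 a1 a2 hnb hJ rfl (by positivity) a6 a4 hnc hnf
        x z hb hxz
  obtain ⟨x, z, hb, hxz⟩ := hP I le_rfl
  rcases Nat.eq_zero_or_pos I with h0 | h0
  · apply hnd
    refine ⟨ht, k, by omega, le_rfl, Or.inr ⟨t, List.infix_rfl, ht, (hend0 h0).trans hlen⟩⟩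
  · obtain ⟨b1, b2, b3⟩ := hend (by omega)
    apply hnd
    refine TN.deep_of ht hb b2 ?_ (b3.trans hxz)
    have : 8 ≤ 8 * ν * I := by nlinarith
    omega

/-- an exponential is larger than a given number -/
lemma exp_ge (B : ℝ) {c : ℝ} (hc : 0 < c) : ∃ q0 : ℕ, ∀ q : ℕ, q0 ≤ q → B ≤ (2 : ℝ) ^ (c * q) := by
  obtain ⟨q0, h⟩ := TN.lin_exp 0 B hc
  refine ⟨q0, fun q hq => ?_⟩
  have := h q hq
  linarith

/-- a linear function is larger than a given number -/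
lemma lin_ge (B : ℝ) {c : ℝ} (hc : 0 < c) : ∃ q0 : ℕ, ∀ q : ℕ, q0 ≤ q → B ≤ c * q := by
  obtain ⟨q0, h⟩ := exists_nat_ge (B / c)
  refine ⟨q0, fun q hq => ?_⟩
  have h1 : B / c ≤ q := h.trans (by exact_mod_cast hq)
  rw [div_le_iff₀ hc] at h1
  linarith

/-! ### small numbers (kept outside of the long proof) -/

lemma a1 {p ν i k : ℕ} {e2 : ℝ} (h0 : 0 ≤ (k : ℝ)) (h64 : e2 ≤ 1 / 64) (h1 : ((p + ν * i : ℕ) : ℝ) < e2 * k)
    (h2 : (64 : ℝ) * ν ≤ k) : 4 * (8 * ν * (i + 1)) ≤ k := by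
  have h3 : ((4 * (8 * ν * (i + 1)) : ℕ) : ℝ) ≤ k := by
    push_cast at h1 ⊢
    have h4 : (0 : ℝ) ≤ p := Nat.cast_nonneg _
    have h5 : e2 * k ≤ 1 / 64 * k := mul_le_mul_of_nonneg_right h64 h0
    nlinarith
  exact_mod_cast h3

lemma a2 {k kc qm ν : ℕ} {e2 ε : ℝ} (h1 : e2 ≤ ε / 8) (hε : 0 < ε) (h6 : (qm : ℝ) * (8 * ν) ≤ 3 * ε / 8 * k)
    (h7 : (k : ℝ) ≤ 2 * kc) : e2 * k + (qm : ℝ) * (8 * ν) ≤ ε * (((kc + 5 : ℕ) : ℝ)) := by
  have h8 : (0 : ℝ) ≤ k := Nat.cast_nonneg _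
  have h9 : e2 * k ≤ ε / 8 * k := mul_le_mul_of_nonneg_right h1 h8
  have h10 : ε * k ≤ ε * (2 * kc) := mul_le_mul_of_nonneg_left h7 hε.le
  push_cast
  nlinarith

lemma a3 {ν i : ℕ} (h : 1 ≤ ν) : 8 ≤ 8 * ν * (i + 1) := by nlinarith

lemma a4 {x y z : ℝ} (hx : 1 ≤ x) (hy : 1 ≤ y) (hz : x * y ≤ z) : 1 ≤ z := by nlinarith

lemma a5 {qe Q ν : ℕ} (h : 4 * qe ≤ Q) (hν : 1 ≤ ν) : qe * (8 * ν) + 1 ≤ 2 * ((Q + 1) * ν) := by nlinarith

lemma a6 {p Q : ℕ} : p * Q ≤ 2 * ((Q + 1) * p) := by nlinarith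

lemma a7 {e x : ℝ} (he : 0 < e) : (4 / 3 + e) * x ≤ (4 / 3 + e) * (x + 5) := by nlinarith

lemma a8 {ε p Q : ℝ} (hε : 0 < ε) (hp : 0 ≤ p) (hQ : 1 ≤ Q) : ε / 2 * p ≤ ε / 2 * p * Q := by
  have : 0 ≤ ε / 2 * p := by positivity
  nlinarith

open TN in
/-- the tail for large exponents, dyadic form -/
theorem tail_big {m : ℕ → ℝ} {E : ℕ → Set (List Bool)} {nu : ℕ → ℝ≥0∞} (hm : MLow m) (hu : MUp m) (hp : MPow m)
    (hL : LongN m) (hE : Ens E nu) (hB : TBof m E nu) (hD : DeepN) (hS : LongSp) : ∃ Q2 : ℕ, ∀ Q : ℕ, Q2 ≤ Q →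
    ∃ A : ℝ, 0 < A ∧ ∀ k p : ℕ, gf {t | t ∈ E k ∧ 2 ^ p * m k ≤ (t.length : ℝ)} ≤
      ENNReal.ofReal (A / 2 ^ (p * Q)) * nu k := by
  obtain ⟨c2, η, ε, hc2, hη, hη8, hε, Q1, hlong⟩ := hL
  obtain ⟨Ce, ke, hCe, hrun⟩ := hE.run
  obtain ⟨Ct, hCt, htot⟩ := hE.tot
  obtain ⟨cl, hcl, hlow⟩ := hE.low
  obtain ⟨Cc, hCc, hstep⟩ := step_scale
  obtain ⟨Kf, hKf, hfill⟩ := smR_fill
  obtain ⟨Cm, hCm, hmup⟩ := mup_pow hu
  obtain ⟨qe, hqe⟩ := pow_unbounded_of_one_lt Ce (one_lt_two (α := ℝ))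
  obtain ⟨kf, hkf⟩ := pow_unbounded_of_one_lt Kf (one_lt_two (α := ℝ))
  obtain ⟨qm, hqm⟩ := pow_unbounded_of_one_lt Cm (one_lt_two (α := ℝ))
  obtain ⟨e2, he2⟩ : ∃ e2 : ℝ, e2 = min (ε / 8) (1 / 64) := ⟨_, rfl⟩
  have he20 : 0 < e2 := by rw [he2]; exact lt_min (by positivity) (by norm_num)
  have he2ε : e2 ≤ ε / 8 := by rw [he2]; exact min_le_left _ _
  have he264 : e2 ≤ 1 / 64 := by rw [he2]; exact min_le_right _ _
  obtain ⟨e, he⟩ : ∃ e : ℝ, e = min (η / 3) (e2 / 4) := ⟨_, rfl⟩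
  have he0 : 0 < e := by rw [he]; exact lt_min (by positivity) (by positivity)
  have heη : 3 * e ≤ η := by
    have : e ≤ η / 3 := by rw [he]; exact min_le_left _ _
    linarith
  have hee2 : 4 * e ≤ e2 := by
    have : e ≤ e2 / 4 := by rw [he]; exact min_le_right _ _
    linarith
  refine ⟨max (max Q1 (4 * qe)) 1, fun Q hQ => ?_⟩
  have hQ1 : Q1 ≤ Q := ((le_max_left _ _).trans (le_max_left _ _)).trans hQ
  have hQe : 4 * qe ≤ Q := ((le_max_right _ _).trans (le_max_left _ _)).trans hQ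
  have hQ0 : 1 ≤ Q := (le_max_right _ _).trans hQ
  obtain ⟨a, ha⟩ := exists_nat_ge ((2 * (Q + 2) * (8 + kf) : ℝ) / c2)
  rw [div_le_iff₀ hc2, mul_comm _ c2] at ha
  obtain ⟨ν, hν, hJ⟩ := choose_nu a 6
  obtain ⟨J0, hJ0⟩ : ∃ J0, J0 = a * (ν + 1) := ⟨_, rfl⟩
  have hJ' : (512 : ℝ) * (J0 + 6) ^ 2 ≤ 2 ^ ν := by
    rw [hJ0]
    push_cast at hJ ⊢
    exact hJ
  obtain ⟨kr, w0, Qc, C0, hw0, hQc, hC0, hcrowd⟩ := smR_crowd (8 * ν + 1)
  obtain ⟨nb, hnb⟩ : ∃ nb, nb = Cc * 2 ^ w0 * 4 ^ (8 * ν + 1) := ⟨_, rfl⟩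
  obtain ⟨r0, CQ, C4, c5, hCQ, hC4, hc5, hTB⟩ := hB Q
  obtain ⟨y0, b1, hlg⟩ := hlong Q hQ1 (8 * ν + 1) r0 CQ C4 c5 hCQ hC4 hc5
  obtain ⟨l0, hl0⟩ := hp e he0
  obtain ⟨l1, hl1⟩ := ff_num hη hη8 he0 heη
  obtain ⟨K1, hK1⟩ := hS η (4 / 3 + e) hη hη8 (by linarith)
  obtain ⟨K2, hK2⟩ := hD η (4 / 3 + e) (3 * Q + 1) hη hη8 (by linarith) (by positivity)
  obtain ⟨c, hc⟩ : ∃ c : ℝ, c = ε / (2 * (1 + ε)) := ⟨_, rfl⟩
  have hc0 : 0 < c := by rw [hc]; positivity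
  have hc12 : c ≤ 1 / 2 := by
    rw [hc, div_le_div_iff₀ (by positivity) (by norm_num)]
    linarith
  have hcε : (1 - c) * (1 + ε) = 1 + ε / 2 := by
    rw [hc]
    field_simp
    ring
  -- the scales
  have hm0 := hm.pos 0
  obtain ⟨Ka, hKa⟩ := lin_ge (50 / 3) he20
  obtain ⟨Kb, hKb⟩ := exp_ge (1 / cl) one_pos
  obtain ⟨Kc, hKc⟩ := exp_ge (100 / m 0) one_pos
  obtain ⟨Kd, hKd⟩ := lin_ge ((qm : ℝ) * (8 * ν)) (show 0 < 3 * ε / 8 by positivity)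
  obtain ⟨K0, hK0⟩ : ∃ K0, K0 = 2 * (ke + kr + b1 + w0 + l0 + l1) + 64 * ν + 64 + K1 + K2 + Ka + Kb + Kc + Kd := ⟨_, rfl⟩
  obtain ⟨pa, hpa⟩ := lin_exp (32 * ((Q : ℝ) + 1)) 160 hc0
  obtain ⟨pb, hpb⟩ := exp_ge y0 (show (0 : ℝ) < 1 / 2 by norm_num)
  obtain ⟨pc, hpc⟩ := exp_ge (Ct * 2 ^ Q) (show (0 : ℝ) < ε / 2 by positivity)
  obtain ⟨pd, hpd⟩ := exp_ge ((100 * 4 ^ K0 + 1) / m 0) one_pos
  obtain ⟨p0, hp0⟩ : ∃ p0, p0 = pa + pb + pc + pd + 6 + 2 * Qc * (nb + 1) := ⟨_, rfl⟩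
  obtain ⟨Cf, hCf⟩ : ∃ Cf : ℝ, Cf = 4 * (C0 + 1) * Ce ^ (8 * ν + 4) + 1 := ⟨_, rfl⟩
  obtain ⟨A, hA⟩ : ∃ A : ℝ, A = max (Ct * 2 ^ (p0 * Q)) Cf := ⟨_, rfl⟩
  have hA1 : Ct * 2 ^ (p0 * Q) ≤ A := by rw [hA]; exact le_max_left _ _
  have hA2 : Cf ≤ A := by rw [hA]; exact le_max_right _ _
  have hA0 : 0 < A := lt_of_lt_of_le (by positivity) hA1
  have hCe0 : 0 ≤ Ce := by linarith
  refine ⟨A, hA0, fun k => ?_⟩
  induction k using Nat.strong_induction_on with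
  | _ k IH =>
  intro p
  rcases le_or_gt (Ct * 2 ^ (p * Q)) A with hAp | hAp
  · -- the trivial range
    refine (gf_mono fun t ht => ht.1).trans ((htot k).trans (mul_le_mul_left (ENNReal.ofReal_le_ofReal ?_) _))
    rw [le_div_iff₀ (by positivity)]
    exact hAp
  have hpp : p0 ≤ p := by
    by_contra hcon
    rw [not_le] at hcon
    have h1 : (2 : ℝ) ^ (p * Q) ≤ 2 ^ (p0 * Q) :=
      pow_le_pow_right₀ (by norm_num) (Nat.mul_le_mul_right _ hcon.le)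
    have h2 : Ct * 2 ^ (p * Q) ≤ Ct * 2 ^ (p0 * Q) := by gcongr
    linarith
  have hmk : m 0 ≤ m k := mlow_mono hm (Nat.zero_le k)
  have hpm : 100 * 4 ^ K0 + 1 ≤ 2 ^ p * m 0 := by
    have h1 := hpd p (by omega)
    rw [one_mul, Real.rpow_natCast, div_le_iff₀ hm0] at h1
    exact h1
  rcases lt_or_ge (100 * 4 ^ k : ℝ) (2 ^ p * m k) with hbig | hbig
  · -- no such words
    have hemp : {t | t ∈ E k ∧ 2 ^ p * m k ≤ (t.length : ℝ)} = ∅ := by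
      rw [Set.eq_empty_iff_forall_notMem]
      rintro t ⟨ht, hlen⟩
      have h1 : (t.length : ℝ) ≤ 100 * 4 ^ k := by exact_mod_cast WL_length (hE.sub k ht)
      linarith
    rw [hemp]
    unfold gf
    rw [tsum_empty]
    exact zero_le
  have hkK : K0 ≤ k := by
    by_contra hcon
    rw [not_le] at hcon
    have h1 : (100 : ℝ) * 4 ^ k ≤ 100 * 4 ^ K0 := by
      have : (4 : ℝ) ^ k ≤ 4 ^ K0 := pow_le_pow_right₀ (by norm_num) hcon.le
      linarith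
    have h2 : 2 ^ p * m 0 ≤ 2 ^ p * m k := by gcongr
    linarith
  have hp3 : p ≤ 3 * k := by
    have h1 := hKc k (by omega)
    rw [one_mul, Real.rpow_natCast, div_le_iff₀ hm0] at h1
    have h2 : 2 ^ p * m 0 ≤ 2 ^ p * m k := by gcongr
    have h3 : 2 ^ p * m 0 ≤ 2 ^ (3 * k) * m 0 := by
      calc 2 ^ p * m 0 ≤ 100 * 4 ^ k := h2.trans hbig
        _ ≤ 2 ^ k * m 0 * 4 ^ k := by gcongr
        _ = 2 ^ (3 * k) * m 0 := by
            have e4 : (4 : ℝ) ^ k = 2 ^ k * 2 ^ k := by rw [← mul_pow]; norm_num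
            rw [e4, show 3 * k = k + k + k by ring, pow_add, pow_add]
            ring
    have h4 : (2 : ℝ) ^ p ≤ 2 ^ (3 * k) := le_of_mul_le_mul_right h3 hm0
    exact (pow_le_pow_iff_right₀ (by norm_num)).1 h4
  have hkr : (0 : ℝ) ≤ k := Nat.cast_nonneg _
  -- the number of steps
  have hex : ∃ i : ℕ, e2 * k ≤ ((p + ν * i : ℕ) : ℝ) := by
    obtain ⟨i, hi⟩ := exists_nat_ge (e2 * k)
    refine ⟨i, hi.trans ?_⟩
    have : i ≤ p + ν * i := (Nat.le_mul_of_pos_left i hν).trans (Nat.le_add_left _ _)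
    exact_mod_cast this
  classical
  obtain ⟨I, hI⟩ : ∃ I, I = Nat.find hex := ⟨_, rfl⟩
  have hI1 : e2 * k ≤ ((p + ν * I : ℕ) : ℝ) := by
    rw [hI]
    exact Nat.find_spec hex
  have hI2 : ∀ i, i < I → ((p + ν * i : ℕ) : ℝ) < e2 * k := by
    intro i hi
    rw [hI] at hi
    have := Nat.find_min hex hi
    rwa [not_le] at this
  have hI4 : ∀ i, i < I → 4 * (8 * ν * (i + 1)) ≤ k := by
    intro i hi
    exact a1 hkr he264 (hI2 i hi) (by exact_mod_cast (by omega : 64 * ν ≤ k))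
  have hkc : ∀ i kc : ℕ, i < I → k = kc + 4 + 8 * ν * (i + 1) → k ≤ 2 * kc := by
    intro i kc hi hk
    have := hI4 i hi
    omega
  -- the numbers of one step
  have hnum : ∀ i kc q : ℕ, i < I → k = kc + 4 + 8 * ν * (i + 1) → q = p + ν * i →
      (2 : ℝ) ^ ((1 - c) * q) ≤ yy m ν Q kc q ∧ yy m ν Q kc q ≤ 2 ^ (ε * ((kc + 5 : ℕ) : ℝ)) ∧
      1 ≤ 2 ^ ν * 2 ^ q * m (kc + 4) ∧ 0 ≤ yy m ν Q kc q * m (kc + 5) ∧
      2 * (2 : ℝ) ^ ((4 / 3 + e) * ((T2.ff η (kc + 5) + 2 : ℕ) : ℝ)) + 5 ≤ yy m ν Q kc q * m (kc + 5) := by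
    intro i kc q hi hk hq
    have hk2 := hkc i kc hi hk
    have hqp : p ≤ q := by rw [hq]; exact Nat.le_add_right _ _
    have hMb := hm.pos (kc + 5)
    have hM0 := hm.pos (kc + 4 + 8 * ν)
    have hMM : m (kc + 5) ≤ m (kc + 4 + 8 * ν) := mlow_mono hm (by omega)
    have hpa' := hpa q (by omega)
    have hq32 : 32 * ((Q + 1 : ℝ) * q + 5) ≤ (2 : ℝ) ^ (c * q) := by linarith
    have hcq : (2 : ℝ) ^ (c * q) ≤ 2 ^ q := by
      rw [← Real.rpow_natCast]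
      apply Real.rpow_le_rpow_of_exponent_le (by norm_num)
      exact mul_le_of_le_one_left (Nat.cast_nonneg _) (by linarith)
    have hN0 : (0 : ℝ) < 32 * ((((Q + 1) * q : ℕ) : ℝ) + 5) := by positivity
    have hyM : yy m ν Q kc q * m (kc + 5) = 2 ^ q * m (kc + 4 + 8 * ν) / (32 * ((((Q + 1) * q : ℕ) : ℝ) + 5)) := by
      unfold yy
      field_simp
    refine ⟨?_, ?_, ?_, ?_, ?_⟩
    · exact y_big (N := (Q + 1) * q) (Q := Q) (q := q) (P := 2 ^ q) (M0 := m (kc + 4 + 8 * ν)) (Mb := m (kc + 5)) rfl rfl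
        hMb hMM rfl hq32
    · have h1 : m (kc + 4 + 8 * ν) ≤ Cm ^ (8 * ν) * m (kc + 5) := by
        have h2 := hmup (kc + 5) (8 * ν - 1)
        rw [show kc + 5 + (8 * ν - 1) = kc + 4 + 8 * ν by omega] at h2
        refine h2.trans ?_
        have h3 : Cm ^ (8 * ν - 1) ≤ Cm ^ (8 * ν) := pow_le_pow_right₀ hCm (by omega)
        gcongr
      refine (y_up (N := (Q + 1) * q) (P := 2 ^ q) (M0 := m (kc + 4 + 8 * ν)) (Mb := m (kc + 5)) (C := Cm ^ (8 * ν))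
        (by positivity) hMb h1 (by positivity) rfl).trans ?_
      have h4 : Cm ^ (8 * ν) ≤ (2 : ℝ) ^ ((qm : ℝ) * (8 * ν)) := by
        calc Cm ^ (8 * ν) ≤ (2 ^ qm) ^ (8 * ν) := pow_le_pow_left₀ (by linarith) hqm.le _
          _ = _ := by
              rw [← pow_mul, ← Real.rpow_natCast]
              congr 1
              push_cast
              ring
      have h5 : (2 : ℝ) ^ q ≤ (2 : ℝ) ^ (e2 * k) := by
        rw [← Real.rpow_natCast]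
        apply Real.rpow_le_rpow_of_exponent_le (by norm_num)
        rw [hq]
        exact (hI2 i hi).le
      calc (2 : ℝ) ^ q * Cm ^ (8 * ν) ≤ (2 : ℝ) ^ (e2 * k) * (2 : ℝ) ^ ((qm : ℝ) * (8 * ν)) := by gcongr
        _ = (2 : ℝ) ^ (e2 * k + (qm : ℝ) * (8 * ν)) := by rw [Real.rpow_add (by norm_num)]
        _ ≤ _ := by
            apply Real.rpow_le_rpow_of_exponent_le (by norm_num)
            exact a2 he2ε hε (hKd k (by omega)) (by exact_mod_cast hk2)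
    · have h1 : m 0 ≤ m (kc + 4) := mlow_mono hm (Nat.zero_le _)
      have h2 : (2 : ℝ) ^ p ≤ 2 ^ q := pow_le_pow_right₀ (by norm_num) hqp
      have h3 : (1 : ℝ) ≤ 2 ^ ν := one_le_pow₀ (by norm_num)
      have h4 : (1 : ℝ) ≤ 2 ^ p * m 0 := by
        have : (0 : ℝ) ≤ 100 * 4 ^ K0 := by positivity
        linarith
      calc (1 : ℝ) ≤ 1 * (2 ^ p * m 0) := by linarith
        _ ≤ 2 ^ ν * (2 ^ q * m (kc + 4)) := by gcongr
        _ = _ := by ring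
    · rw [hyM]
      positivity
    · refine (hl1 (kc + 4 + 8 * ν) (kc + 5) (by omega) (by omega)).trans ((hl0 (kc + 4 + 8 * ν) (by omega)).trans ?_)
      rw [hyM, le_div_iff₀ hN0]
      have h1 : 32 * ((((Q + 1) * q : ℕ) : ℝ) + 5) ≤ 2 ^ q := by
        refine le_trans (le_of_eq ?_) (hq32.trans hcq)
        push_cast
        ring
      calc m (kc + 4 + 8 * ν) * (32 * ((((Q + 1) * q : ℕ) : ℝ) + 5)) ≤ m (kc + 4 + 8 * ν) * 2 ^ q := by gcongr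
        _ = _ := by ring
  -- the weights of the bad runs
  have hbad : ∀ i, i < I → gf (Bad E m η Q ν J0 w0 nb k (k - 8 * ν * (i + 1) - 4) (p + ν * i)) ≤
      ENNReal.ofReal (2 * (C0 + 1) * Ce ^ (8 * ν + 4) / 4 ^ ((Q + 1) * p) * (Ce ^ (8 * ν) / 4 ^ ((Q + 1) * ν)) ^ i) *
        nu k := by
    intro i hi
    obtain ⟨kc, hkce⟩ : ∃ kc, kc = k - 8 * ν * (i + 1) - 4 := ⟨_, rfl⟩
    obtain ⟨q, hq⟩ : ∃ q, q = p + ν * i := ⟨_, rfl⟩
    have hIi := hI4 i hi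
    have hk : k = kc + 4 + 8 * ν * (i + 1) := by omega
    have hk2 := hkc i kc hi hk
    have hqp : p ≤ q := by rw [hq]; exact Nat.le_add_right _ _
    rw [← hkce, ← hq]
    obtain ⟨n1, n2, n3, n4, n5⟩ := hnum i kc q hi hk hq
    have hq0 : (0 : ℝ) ≤ q := Nat.cast_nonneg _
    have hQr : (1 : ℝ) ≤ Q := by exact_mod_cast hQ0
    have hyhalf : (2 : ℝ) ^ (1 / 2 * (q : ℝ)) ≤ yy m ν Q kc q := by
      refine le_trans (Real.rpow_le_rpow_of_exponent_le (by norm_num) ?_) n1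
      exact mul_le_mul_of_nonneg_right (by linarith) hq0
    have hy0 : y0 ≤ yy m ν Q kc q := (hpb q (by omega)).trans hyhalf
    have hypos : 0 < yy m ν Q kc q := lt_of_lt_of_le (by positivity) hyhalf
    have hqQ : q ≤ (Q + 1) * q := Nat.le_mul_of_pos_left q (Nat.succ_pos Q)
    have hcr := hcrowd kc ((Q + 1) * q) nb (by omega) (by omega) (by omega)
    -- the constant A against the threshold
    have hAy : A * 2 ^ Q ≤ yy m ν Q kc q ^ ((1 + ε) * Q) := by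
      have h1 := hpc p (by omega)
      have h2 : A * 2 ^ Q ≤ (2 : ℝ) ^ ((1 + ε / 2) * (q : ℝ) * Q) := by
        calc A * 2 ^ Q ≤ (Ct * 2 ^ (p * Q)) * 2 ^ Q := by gcongr
          _ = 2 ^ (p * Q) * (Ct * 2 ^ Q) := by ring
          _ ≤ 2 ^ (p * Q) * (2 : ℝ) ^ (ε / 2 * p) := by gcongr
          _ = (2 : ℝ) ^ (((p * Q : ℕ) : ℝ) + ε / 2 * p) := by
              rw [Real.rpow_add (by norm_num), Real.rpow_natCast]
          _ ≤ _ := by
              apply Real.rpow_le_rpow_of_exponent_le (by norm_num)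
              push_cast
              have h3 : (p : ℝ) ≤ q := by exact_mod_cast hqp
              have h4 : (0 : ℝ) ≤ p := Nat.cast_nonneg _
              have h5 : ε / 2 * (p : ℝ) ≤ ε / 2 * p * Q := a8 hε h4 hQr
              calc (p : ℝ) * Q + ε / 2 * p ≤ p * Q + ε / 2 * p * Q := by linarith
                _ = (1 + ε / 2) * p * Q := by ring
                _ ≤ (1 + ε / 2) * q * Q := by gcongr
      refine h2.trans ?_
      calc (2 : ℝ) ^ ((1 + ε / 2) * (q : ℝ) * Q) = ((2 : ℝ) ^ ((1 - c) * q)) ^ ((1 + ε) * Q) := by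
            rw [← Real.rpow_mul (by norm_num), ← hcε]
            congr 1
            ring
        _ ≤ _ := Real.rpow_le_rpow (by positivity) n1 (by positivity)
    have h88 : 8 ≤ 8 * ν * (i + 1) := a3 hν
    have hA21 : 1 ≤ A * 2 ^ Q :=
      a4 (a4 hCt (one_le_pow₀ (by norm_num)) hA1) (one_le_pow₀ (by norm_num)) le_rfl
    have hTA : TAk m E nu Q (A * 2 ^ Q) (kc + 5) := tak_of hm hA0.le fun k' p' hk' => IH k' (by omega) p'
    have hSD := hlg (kc + 5) (by omega) (A * 2 ^ Q) (yy m ν Q kc q) (by positivity) hy0 n2 hAy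
      (hTB (A * 2 ^ Q) (kc + 5) hA21 hTA)
    have hSD' : SmD DmJ kc (BrR (2 ^ (kc + 4)) (2 ^ (kc + (8 * ν + 1 + 3) + 2)) ∩
        T2.Sp (T2.ee η (kc + 5)) (yy m ν Q kc q * m (kc + 5))) (yy m ν Q kc q ^ (-c2)) := by
      refine SmD_anti hSD ?_
      rintro g ⟨⟨h, a1, a2, a3⟩, hg⟩
      refine ⟨⟨h, a1, a2.trans ?_, a3⟩, hg⟩
      exact Nat.pow_le_pow_right (by norm_num) (by omega)
    have hfl := hfill kc (8 * ν + 1 + 3) ((Q + 1) * q) (J0 + 1) _ _ (by positivity) hSD'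
    have hq1' : 1 ≤ q := by omega
    have hfn : (Kf * 2 ^ (8 * ν + 1 + 3)) ^ ((Q + 1) * q + 1) * (yy m ν Q kc q ^ (-c2)) ^ (J0 + 1) ≤
        1 / 4 ^ ((Q + 1) * q) := by
      rw [hJ0]
      exact fill_num (by linarith) hkf.le hc2 ha hq1' hyhalf
    have hfl' := SmR_mono hfl hfn
    have h9 := bad_gf (E := E) (m := m) (nu := nu) (η := η) (Ce := Ce) (C0 := C0) (Q := Q) (ν := ν) (J0 := J0) (w0 := w0)
      (nb := nb) (k := k) (kc := kc) (J := 4 + 8 * ν * (i + 1)) (q := q) hCe0 hC0 (by omega)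
      (fun dir R δ hδ hR => hrun dir kc _ R δ (by omega) (by omega) hδ hR) hcr hfl'
    refine h9.trans (le_of_eq ?_)
    congr 2
    have e1 : Ce ^ (4 + 8 * ν * (i + 1)) = Ce ^ (8 * ν + 4) * (Ce ^ (8 * ν)) ^ i := by
      rw [← pow_mul, ← pow_add]
      congr 1
      ring
    have e2' : (4 : ℝ) ^ ((Q + 1) * q) = 4 ^ ((Q + 1) * p) * (4 ^ ((Q + 1) * ν)) ^ i := by
      rw [← pow_mul, ← pow_add, hq]
      congr 1
      ring
    rw [e1, e2', div_pow]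
    field_simp
  -- the deep events
  have hdeep : gf (Deep η (4 / 3 + e) k) ≤ ENNReal.ofReal (1 / 2 ^ (p * Q)) * nu k := by
    have h1 := hK2 k (by omega)
    have h2 := hKb k (by omega)
    rw [one_mul, Real.rpow_natCast, div_le_iff₀ hcl] at h2
    refine h1.trans (le_trans ?_ (mul_le_mul_right (hlow k) _))
    rw [← ENNReal.ofReal_mul (show (0 : ℝ) ≤ 1 / 2 ^ (p * Q) by positivity)]
    refine ENNReal.ofReal_le_ofReal ?_
    have h3 : (2 : ℝ) ^ (-((3 * (Q : ℝ) + 1) * k)) = 1 / (2 ^ (3 * k * Q) * 2 ^ k) := by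
      rw [Real.rpow_neg (by norm_num), one_div]
      congr 1
      rw [← pow_add, ← Real.rpow_natCast]
      congr 1
      push_cast
      ring
    rw [h3, div_mul_eq_mul_div, one_mul, div_le_div_iff₀ (by positivity) (by positivity)]
    have h4 : (2 : ℝ) ^ (p * Q) ≤ 2 ^ (3 * k * Q) := pow_le_pow_right₀ (by norm_num) (Nat.mul_le_mul_right _ hp3)
    calc 1 * (2 : ℝ) ^ (p * Q) ≤ 2 ^ (3 * k * Q) * 1 := by linarith
      _ ≤ 2 ^ (3 * k * Q) * (2 ^ k * cl) := by gcongr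
      _ = _ := by ring
  -- the covering
  have hcov := cover (m := m) (E := E) (η := η) (β := 4 / 3 + e) (Cc := Cc) (Q := Q) (ν := ν) (J0 := J0) (w0 := w0)
    (nb := nb) (k := k) (p := p) (I := I) (hstep hm) hν hnb.ge hJ' (fun i hi => by have := hI4 i hi; omega)
    (fun i kc q hi hk hq => by
      obtain ⟨n1, n2, n3, n4, n5⟩ := hnum i kc q hi hk hq
      have hk2 := hkc i kc hi hk
      have hqp : p ≤ q := by rw [hq]; exact Nat.le_add_right _ _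
      have hqQ : q ≤ (Q + 1) * q := Nat.le_mul_of_pos_left q (Nat.succ_pos Q)
      exact ⟨by omega, by omega, by omega, n3, n4, n5⟩)
    (fun kc mu m0 J dir y t b1' b2 b3 b4 b5 b6 => hK1 k kc mu m0 J dir y t (by omega) b1' b2 b3 b4 b5 b6)
    (hE.sub k)
    (fun hI0 => by
      have h1 := hI4 (I - 1) (by omega)
      rw [show I - 1 + 1 = I by omega] at h1
      refine ⟨by omega, by omega, ?_⟩
      refine end_num he0 (by linarith) hee2 (by omega) (hKa k (by omega)) ?_ (hl0 _ (by omega))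
      refine le_trans (Real.rpow_le_rpow_of_exponent_le (by norm_num) hI1) (le_of_eq ?_)
      rw [Real.rpow_natCast])
    (fun hI0 => by
      have h1 := end_num (e := e) (e2 := e2) he0 (by linarith) hee2 (k := k) (l := k) le_rfl (hKa k (by omega))
        (P := 2 ^ p) (M := m k) (by
          refine le_trans (Real.rpow_le_rpow_of_exponent_le (by norm_num) hI1) (le_of_eq ?_)
          rw [hI0, Real.rpow_natCast, mul_zero, add_zero]) (hl0 _ (by omega))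
      refine le_trans (Real.rpow_le_rpow_of_exponent_le (by norm_num) ?_) h1
      push_cast
      exact a7 he0)
  -- the sum
  refine (gf_mono hcov).trans ((gf_union_le _ _).trans ((add_le_add (gf_bU _ _) hdeep).trans ?_))
  have hx : Ce ^ (8 * ν) / 4 ^ ((Q + 1) * ν) ≤ 1 / 2 := by
    rw [div_le_div_iff₀ (by positivity) (by norm_num), one_mul]
    have h1 : Ce ^ (8 * ν) ≤ 2 ^ (qe * (8 * ν)) := by
      rw [pow_mul 2]
      exact pow_le_pow_left₀ hCe0 hqe.le _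
    have h2 : (4 : ℝ) ^ ((Q + 1) * ν) = 2 ^ (2 * ((Q + 1) * ν)) := by
      rw [pow_mul 2]
      norm_num
    rw [h2]
    calc Ce ^ (8 * ν) * 2 ≤ 2 ^ (qe * (8 * ν)) * 2 := by gcongr
      _ = 2 ^ (qe * (8 * ν) + 1) := by rw [pow_succ]
      _ ≤ _ := pow_le_pow_right₀ (by norm_num) (a5 hQe hν)
  have hsum : ∑ i ∈ range I, gf (Bad E m η Q ν J0 w0 nb k (k - 8 * ν * (i + 1) - 4) (p + ν * i)) ≤
      ENNReal.ofReal (2 * (2 * (C0 + 1) * Ce ^ (8 * ν + 4) / 4 ^ ((Q + 1) * p))) * nu k := by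
    refine (Finset.sum_le_sum fun i hi => hbad i (Finset.mem_range.1 hi)).trans ?_
    rw [← Finset.sum_mul, ← ENNReal.ofReal_sum_of_nonneg (fun i _ => by positivity)]
    exact mul_le_mul_left (ENNReal.ofReal_le_ofReal (geo_le (by positivity) (by positivity) hx I)) _
  refine (add_le_add hsum le_rfl).trans ?_
  rw [← add_mul, ← ENNReal.ofReal_add (by positivity) (by positivity)]
  refine mul_le_mul_left (ENNReal.ofReal_le_ofReal ?_) _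
  have h1 : (2 : ℝ) ^ (p * Q) ≤ 4 ^ ((Q + 1) * p) := by
    calc (2 : ℝ) ^ (p * Q) ≤ 2 ^ (2 * ((Q + 1) * p)) := pow_le_pow_right₀ (by norm_num) a6
      _ = _ := by
          rw [pow_mul 2 2]
          norm_num
  calc 2 * (2 * (C0 + 1) * Ce ^ (8 * ν + 4) / 4 ^ ((Q + 1) * p)) + 1 / 2 ^ (p * Q)
      ≤ 2 * (2 * (C0 + 1) * Ce ^ (8 * ν + 4) / 2 ^ (p * Q)) + 1 / 2 ^ (p * Q) := by gcongr
    _ = Cf / 2 ^ (p * Q) := by
        rw [hCf]
        field_simp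
        ring
    _ ≤ A / 2 ^ (p * Q) := by gcongr

/-- more is less -/
lemma tak_mono {m : ℕ → ℝ} {E : ℕ → Set (List Bool)} {nu : ℕ → ℝ≥0∞} {Q Q' K : ℕ} {A A' : ℝ} (hA : A ≤ A')
    (hA' : 0 ≤ A') (hQ : Q ≤ Q') (h : TAk m E nu Q' A K) : TAk m E nu Q A' K := by
  intro k lam hk hlam
  refine (h k lam hk hlam).trans (mul_le_mul_left (ENNReal.ofReal_le_ofReal ?_) _)
  have h1 : 0 < lam ^ Q := by positivity
  have h2 : lam ^ Q ≤ lam ^ Q' := pow_le_pow_right₀ hlam hQ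
  calc A / lam ^ Q' ≤ A' / lam ^ Q' := by gcongr
    _ ≤ A' / lam ^ Q := by gcongr

end TI

open TI in
/-- **the tail of the lengths of an ensemble at every scale** -/
theorem tail_of {m : ℕ → ℝ} {E : ℕ → Set (List Bool)} {nu : ℕ → ℝ≥0∞} (hm : MLow m) (hu : MUp m) (hp : MPow m)
    (hL : LongN m) (hE : Ens E nu) (hB : TBof m E nu) (hD : DeepN) (hS : LongSp) : ∀ Q : ℕ, ∃ A : ℝ, 1 ≤ A ∧
    ∀ K, TAk m E nu Q A K := by
  obtain ⟨Q2, h⟩ := tail_big hm hu hp hL hE hB hD hS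
  intro Q
  obtain ⟨A, hA, h1⟩ := h (max Q Q2) (le_max_right _ _)
  refine ⟨max (A * 2 ^ max Q Q2) 1, le_max_right _ _, fun K => ?_⟩
  have h2 := tak_of (K := K) hm hA.le fun k p _ => h1 k p
  exact tak_mono (le_max_left _ _) (le_trans zero_le_one (le_max_right _ _)) (le_max_left _ _) h2

end NTA

end HexObs
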