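import Pool.Agent.NTA.LQCov
import Pool.Agent.SDN.FillA

/-!
NTA: the word half of the norm of the long leaves. A long leaf has a long middle part, or a long part between two cut levels
near the head (near the tail); the free middle part of such a leaf has a small weight.
-/

set_option autoImplicit false

namespace HexObs

namespace NTA

open Finset TS SDN

open scoped ENNReal

namespace LQ

lemma BU_app {s t : List Bool} (hs : s ∈ BU) (ht : t ∈ BU) : s ++ t ∈ BU := by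
  obtain ⟨m, hm⟩ := hs
  obtain ⟨n, hn⟩ := ht
  exact ⟨m + n, Brd_append hm hn⟩

lemma hgt_app {s t : List Bool} (hs : s ∈ BU) (ht : t ∈ BU) : hgt (s ++ t) = hgt s + hgt t := by
  obtain ⟨m, hm⟩ := hs
  obtain ⟨n, hn⟩ := ht
  rw [hgt_eq hm, hgt_eq hn, hgt_eq (Brd_append hm hn)]

lemma hgt_mem {s : List Bool} (hs : s ∈ BU) : s ∈ Brd (hgt s) := by
  obtain ⟨m, hm⟩ := hs
  rw [hgt_eq hm]
  exact hm

/-- nested cuts -/
lemma nest {s u s' u' : List Bool} (hs : s ∈ BU) (hu : u ∈ BU) (hs' : s' ∈ BU) (hu' : u' ∈ BU) (h : s ++ u = s' ++ u')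
    (hc : hgt s ≤ hgt s') : ∃ v ∈ BU, s' = s ++ v ∧ u = v ++ u' := by
  obtain ⟨v, hv, h1, h2⟩ := cut_nested (hgt_mem hs) (hgt_mem hs') (hgt_mem hu) (hgt_mem hu') hc h
  exact ⟨v, ⟨_, hv⟩, h1, h2⟩

/-- the letters: a shorter prefix -/
lemma le_of_nest {s u s' u' : List Bool} (hs : s ∈ BU) (hu : u ∈ BU) (hs' : s' ∈ BU) (hu' : u' ∈ BU)
    (h : s ++ u = s' ++ u') (hl : s.length < s'.length) : hgt s ≤ hgt s' := by
  by_contra hcon
  obtain ⟨v, -, h1, -⟩ := nest hs' hu' hs hu h.symm (by omega)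
  rw [h1, List.length_append] at hl
  omega

end LQ

open LQ

/-- the middle part -/
theorem ez_mid {D N e : ℕ} {x a : ℝ} (h : NTm.TL N x ≤ ENNReal.ofReal a) : EZ D N e (Mid (2 ^ e) x) a := by
  intro M hM P1 hP1 P2 hP2 Q hQ h1 h2
  have hMP := BU_app hM (IU_BU hP1)
  have hPQ := BU_app (IU_BU hP2) hQ
  refine le_trans ?_ h
  unfold NTm.TL
  have key : ∀ n : ℕ, gf {Z | Z ∈ Brd n ∧ M ++ (P1 ++ (Z ++ (P2 ++ Q))) ∈ Mid (2 ^ e) x ∧
      M ++ (P1 ++ (Z ++ (P2 ++ Q))) ∈ BrR D N} ≤ if n ∈ range (N + 1) then gf {Z | Z ∈ Brd n ∧ x ≤ (Z.length : ℝ)} else 0 := by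
    intro n
    split_ifs with hn
    · refine gf_mono fun Z hZ => ⟨hZ.1, ?_⟩
      refine hZ.2.1 (M ++ P1) Z (P2 ++ Q) hMP ⟨n, hZ.1⟩ hPQ ?_ ?_ ?_
      · rw [List.append_assoc]
      · rw [hgt_app hM (IU_BU hP1)]
        exact h1
      · rw [hgt_app (IU_BU hP2) hQ]
        exact h2
    · have e1 : {Z | Z ∈ Brd n ∧ M ++ (P1 ++ (Z ++ (P2 ++ Q))) ∈ Mid (2 ^ e) x ∧
          M ++ (P1 ++ (Z ++ (P2 ++ Q))) ∈ BrR D N} = ∅ := by
        rw [Set.eq_empty_iff_forall_notMem]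
        rintro Z ⟨hZ, -, H, -, hH, hB⟩
        have h3 := Brd_height hB (Brd_append (hgt_mem hM) (Brd_append (hgt_mem (IU_BU hP1))
          (Brd_append hZ (hgt_mem hPQ))))
        rw [mem_range] at hn
        omega
      rw [e1]
      unfold gf
      rw [tsum_empty]
  refine (ENNReal.tsum_le_tsum key).trans (le_of_eq ?_)
  rw [tsum_eq_sum (s := range (N + 1)) (fun n hn => if_neg hn)]
  exact Finset.sum_congr rfl fun n hn => if_pos hn

/-- the heads -/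
theorem ez_hd : ∃ C : ℝ, 1 ≤ C ∧ ∀ (N e e' k : ℕ) (x x' q : ℝ), e' ≤ e → e ≤ k → 2 ^ (k + 4) ≤ N → x' ≤ x → 0 < q → q ≤ 1 →
    NTm.TL (2 ^ e) (x - x') ≤ ENNReal.ofReal (q * UU (2 ^ e)) →
    EZ (2 ^ (k + 4)) N e' (Hd (2 ^ e) (2 ^ e') x x') (C * q ^ (1 / 4 : ℝ) * UU N) := by
  obtain ⟨C, hC, hez⟩ := head_ez
  refine ⟨C, hC, fun N e e' k x x' q he' hek hkN hxx hq0 hq1 hT M hM P1 hP1 P2 hP2 Q hQ h1 h2 => ?_⟩
  have hMP := BU_app hM (IU_BU hP1)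
  have hPQ := BU_app (IU_BU hP2) hQ
  have p1 : 2 ^ e' ≤ 2 ^ e := Nat.pow_le_pow_right (by norm_num) he'
  have p2 : 2 ^ e ≤ 2 ^ k := Nat.pow_le_pow_right (by norm_num) hek
  have p3 : 2 ^ (k + 4) = 16 * 2 ^ k := by ring
  refine le_trans (ENNReal.tsum_le_tsum fun n => gf_mono ?_) (hez N (2 ^ e) (x - x') q (by omega) hq0 hq1 hT)
  rintro Z ⟨hZ, ⟨⟨B, V, hB, hV, hg, hBE, hBx⟩, hall⟩, H, hH1, hH2, hH3⟩
  have hZU : Z ∈ BU := ⟨n, hZ⟩
  have hZn := hgt_eq hZ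
  have hrest : Z ++ (P2 ++ Q) ∈ BU := BU_app hZU hPQ
  have hMPh : hgt (M ++ P1) ≤ 2 ^ e' := by
    rw [hgt_app hM (IU_BU hP1)]
    exact h1
  have hPQh : hgt (P2 ++ Q) ≤ 2 ^ e' := by
    rw [hgt_app (IU_BU hP2) hQ]
    exact h2
  have hg' : M ++ (P1 ++ (Z ++ (P2 ++ Q))) = (M ++ P1) ++ (Z ++ (P2 ++ Q)) := by rw [List.append_assoc]
  have htot : H = hgt (M ++ P1) + (n + hgt (P2 ++ Q)) := by
    rw [hg'] at hH3
    exact Brd_height hH3 (Brd_append (hgt_mem hMP) (Brd_append hZ (hgt_mem hPQ)))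
  have hx1 : ((M ++ P1).length : ℝ) < x' := by
    by_contra hcon
    exact hall ⟨M ++ P1, Z ++ (P2 ++ Q), hMP, hrest, hg', hMPh, not_lt.1 hcon⟩
  have hlen : (M ++ P1).length < B.length := by
    have : ((M ++ P1).length : ℝ) < (B.length : ℝ) := by linarith
    exact_mod_cast this
  have hEq : (M ++ P1) ++ (Z ++ (P2 ++ Q)) = B ++ V := by rw [← hg', hg]
  have hle := le_of_nest hMP hrest hB hV hEq hlen
  obtain ⟨W, hW, hBW, hrW⟩ := nest hMP hrest hB hV hEq hle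
  have hWh : hgt W ≤ 2 ^ e := by
    have := hgt_app hMP hW
    rw [← hBW] at this
    omega
  obtain ⟨V', hV', hZV, -⟩ := nest hW hV hZU hPQ hrW.symm (by omega)
  refine ⟨hZ, by omega, W, V', hW, hV', hZV, hWh, ?_⟩
  have h5 : (B.length : ℝ) = ((M ++ P1).length : ℝ) + (W.length : ℝ) := by
    rw [hBW, List.length_append]
    push_cast
    ring
  linarith

/-- the tails -/
theorem ez_tl : ∃ C : ℝ, 1 ≤ C ∧ ∀ (N e e' k : ℕ) (x x' q : ℝ), e' ≤ e → e ≤ k → 2 ^ (k + 4) ≤ N → x' ≤ x → 0 < q → q ≤ 1 →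
    NTm.TL (2 ^ e) (x - x') ≤ ENNReal.ofReal (q * UU (2 ^ e)) →
    EZ (2 ^ (k + 4)) N e' (Tl (2 ^ e) (2 ^ e') x x') (C * q ^ (1 / 4 : ℝ) * UU N) := by
  obtain ⟨C, hC, hez⟩ := tail_ez
  refine ⟨C, hC, fun N e e' k x x' q he' hek hkN hxx hq0 hq1 hT M hM P1 hP1 P2 hP2 Q hQ h1 h2 => ?_⟩
  have hMP := BU_app hM (IU_BU hP1)
  have hPQ := BU_app (IU_BU hP2) hQ
  have p1 : 2 ^ e' ≤ 2 ^ e := Nat.pow_le_pow_right (by norm_num) he'
  have p2 : 2 ^ e ≤ 2 ^ k := Nat.pow_le_pow_right (by norm_num) hek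
  have p3 : 2 ^ (k + 4) = 16 * 2 ^ k := by ring
  refine le_trans (ENNReal.tsum_le_tsum fun n => gf_mono ?_) (hez N (2 ^ e) (x - x') q (by omega) hq0 hq1 hT)
  rintro Z ⟨hZ, ⟨⟨V, B, hV, hB, hg, hBE, hBx⟩, hall⟩, H, hH1, hH2, hH3⟩
  have hZU : Z ∈ BU := ⟨n, hZ⟩
  have hZn := hgt_eq hZ
  have hR : (M ++ P1) ++ Z ∈ BU := BU_app hMP hZU
  have hMPh : hgt (M ++ P1) ≤ 2 ^ e' := by
    rw [hgt_app hM (IU_BU hP1)]
    exact h1
  have hPQh : hgt (P2 ++ Q) ≤ 2 ^ e' := by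
    rw [hgt_app (IU_BU hP2) hQ]
    exact h2
  have hg' : M ++ (P1 ++ (Z ++ (P2 ++ Q))) = ((M ++ P1) ++ Z) ++ (P2 ++ Q) := by
    simp only [List.append_assoc]
  have hRh : hgt ((M ++ P1) ++ Z) = hgt (M ++ P1) + n := by rw [hgt_app hMP hZU, hZn]
  have htot : H = hgt ((M ++ P1) ++ Z) + hgt (P2 ++ Q) := by
    rw [hg'] at hH3
    exact Brd_height hH3 (Brd_append (hgt_mem hR) (hgt_mem hPQ))
  have htot2 : H = hgt V + hgt B := by
    rw [hg] at hH3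
    exact Brd_height hH3 (Brd_append (hgt_mem hV) (hgt_mem hB))
  have hx1 : ((P2 ++ Q).length : ℝ) < x' := by
    by_contra hcon
    exact hall ⟨(M ++ P1) ++ Z, P2 ++ Q, hR, hPQ, hg', hPQh, not_lt.1 hcon⟩
  have hlen : (P2 ++ Q).length < B.length := by
    have : ((P2 ++ Q).length : ℝ) < (B.length : ℝ) := by linarith
    exact_mod_cast this
  have hEq : V ++ B = ((M ++ P1) ++ Z) ++ (P2 ++ Q) := by rw [← hg', hg]
  have hlen2 : V.length < ((M ++ P1) ++ Z).length := by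
    have h6 := congrArg List.length hEq
    rw [List.length_append, List.length_append (as := (M ++ P1) ++ Z)] at h6
    omega
  have hle := le_of_nest hV hB hR hPQ hEq hlen2
  obtain ⟨W, hW, hRW, hBW⟩ := nest hV hB hR hPQ hEq hle
  have hWh : hgt W ≤ 2 ^ e := by
    have := hgt_app hW hPQ
    rw [← hBW] at this
    omega
  have hVh : hgt (M ++ P1) ≤ hgt V := by
    have := hgt_app hV hW
    rw [← hRW] at this
    omega
  obtain ⟨V', hV', hVV, hZV⟩ := nest hMP hZU hV hW hRW hVh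
  refine ⟨hZ, by omega, V', W, hV', hW, hZV, hWh, ?_⟩
  have h5 : (B.length : ℝ) = (W.length : ℝ) + ((P2 ++ Q).length : ℝ) := by
    rw [hBW, List.length_append (as := W)]
    push_cast
    ring
  linarith

end NTA

end HexObs
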