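import Pool.Agent.BAR.Lat
import Pool.Agent.PHW.DefsB

/-!
NTA (natural time, all scales): tail of the lengths of the words of a strip of a fixed height, every power.
-/

set_option autoImplicit false

namespace HexObs

namespace NTA

open Complex Finset ENNReal SDN PLW BAR

/-- one scale, every power (BAR.scale_small with another number) -/
theorem scale_smallQ (Q : ℕ) {η : ℝ} (hη : 0 < η) (hη1 : η ≤ 1) : ∃ L1 : ℕ, ∀ L : ℕ, L1 ≤ L → ∀ m : ℕ,
    (m : ℝ) ≤ (2 : ℝ) ^ ((1 - η) * L) →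
    gf {t | t ∈ YS (3 * m) ∧ t ∈ WL (L + 1) ∧ t ∉ WL L} ≤ ENNReal.ofReal ((1 / 2) ^ ((Q + 1) * (L + 1))) := by
  obtain ⟨C, q, hC, hq, hq1, hdec⟩ := gf_FY_decay
  obtain ⟨C', hC', hpoly⟩ := SAL_poly
  obtain ⟨K, hK⟩ : ∃ K : ℝ, K = C * q⁻¹ * ((402 : ℝ) ^ C' * C') ^ 2 := ⟨_, rfl⟩
  have hK0 : 0 < K := by rw [hK]; positivity
  obtain ⟨L1, hL1⟩ := tail_num (K := K * 2 ^ Q) (K' := 4 * C' + Q) (by positivity) (by positivity) hq hq1 hη
  obtain ⟨L2, hL2⟩ := exists_nat_ge (2 / η)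
  refine ⟨L1 + L2 + 5, fun L hL m hm => ?_⟩
  have hLr : (L2 : ℝ) ≤ L := by exact_mod_cast (by omega : L2 ≤ L)
  obtain ⟨X, hX⟩ : ∃ X : ℝ, X = (2 : ℝ) ^ ((1 - η) * L) := ⟨_, rfl⟩
  obtain ⟨Y, hY⟩ : ∃ Y : ℝ, Y = (2 : ℝ) ^ (η * L) := ⟨_, rfl⟩
  have hXY : X * Y = (2 : ℝ) ^ L := by
    rw [hX, hY, ← Real.rpow_add (by norm_num), ← Real.rpow_natCast]
    congr 1
    ring
  have hX1 : 1 ≤ X := by
    rw [hX]
    exact Real.one_le_rpow (by norm_num) (mul_nonneg (by linarith) (Nat.cast_nonneg L))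
  have hY4 : 4 ≤ Y := by
    have h1 : (2 : ℝ) ≤ η * L := by
      have h2 := hL2.trans hLr
      rw [div_le_iff₀ hη] at h2
      linarith
    calc (4 : ℝ) = (2 : ℝ) ^ (2 : ℝ) := by norm_num
      _ ≤ Y := by
        rw [hY]
        exact Real.rpow_le_rpow_of_exponent_le (by norm_num) h1
  rw [← hX] at hm
  have e2 : (2 : ℝ) ^ L = 4 * (2 : ℝ) ^ (L - 2) := by
    rw [show L = (L - 2) + 2 by omega, pow_add, Nat.add_sub_cancel]
    ring
  have e3 : (2 : ℝ) ^ L = 2 * (2 : ℝ) ^ (L - 1) := by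
    rw [show L = (L - 1) + 1 by omega, pow_succ, Nat.add_sub_cancel]
    ring
  have h32 : (32 : ℝ) ≤ (2 : ℝ) ^ L := by
    calc (32 : ℝ) = (2 : ℝ) ^ 5 := by norm_num
      _ ≤ (2 : ℝ) ^ L := pow_le_pow_right₀ (by norm_num) (by omega)
  have hm6 : m + 6 ≤ 2 ^ (L - 1) := by
    have h1 : (m : ℝ) + 6 ≤ (2 : ℝ) ^ (L - 1) := by
      nlinarith
    exact_mod_cast h1
  have hsub : {t | t ∈ YS (3 * m) ∧ t ∈ WL (L + 1) ∧ t ∉ WL L} ⊆
      FY (3 * m) (100 * 4 ^ (L + 1)) (6 * ((2 ^ (L - 2) : ℕ) : ℤ) + 18) := by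
    rintro t ⟨h1, h2, h3⟩
    exact ⟨h1, WL_length h2, far_of h1 (by omega) hm6 h3⟩
  have hr1 : 1 ≤ 2 ^ (L - 2) := Nat.one_le_two_pow
  refine (gf_mono hsub).trans ((hdec (3 * m) (2 ^ (L - 2)) (100 * 4 ^ (L + 1)) hr1).trans ?_)
  have hN1 : 1 ≤ 100 * 4 ^ (L + 1) + 2 := by omega
  have hG := hpoly (100 * 4 ^ (L + 1) + 2) hN1
  obtain ⟨Z, hZ⟩ : ∃ Z : ℝ, Z = (2 : ℝ) ^ L := ⟨_, rfl⟩
  have hZ1 : 1 ≤ Z := by rw [hZ]; exact one_le_pow₀ (by norm_num)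
  have h4Z : (4 : ℝ) ^ L = Z * Z := by
    rw [hZ, ← mul_pow]
    norm_num
  have hG2 : gf (SAL (100 * 4 ^ (L + 1) + 2)) ≤ ENNReal.ofReal ((402 : ℝ) ^ C' * C' * Z ^ (2 * C')) := by
    refine hG.trans (ENNReal.ofReal_le_ofReal ?_)
    have h1 : ((100 * 4 ^ (L + 1) + 2 : ℕ) : ℝ) ≤ 402 * (Z * Z) := by
      push_cast
      rw [pow_succ, h4Z]
      nlinarith
    have h2 : ((100 * 4 ^ (L + 1) + 2 : ℕ) : ℝ) ^ C' ≤ (402 * (Z * Z)) ^ C' :=
      Real.rpow_le_rpow (by positivity) h1 hC'.le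
    have h3 : (402 * (Z * Z)) ^ C' = (402 : ℝ) ^ C' * Z ^ (2 * C') := by
      rw [Real.mul_rpow (by norm_num) (by positivity), Real.mul_rpow (by linarith) (by linarith),
        ← Real.rpow_add (by linarith)]
      congr 2
      ring
    rw [h3] at h2
    calc _ ≤ (402 : ℝ) ^ C' * Z ^ (2 * C') * C' := mul_le_mul_of_nonneg_right h2 hC'.le
      _ = _ := by ring
  have hq3 : q ^ (2 ^ (L - 2) / (3 * m + 1)) ≤ q⁻¹ * q ^ (Y / 16) := by
    have h1 : Y / 16 - 1 ≤ ((2 ^ (L - 2) / (3 * m + 1) : ℕ) : ℝ) := by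
      have h2 : ((2 : ℝ) ^ (L - 2)) / (3 * m + 1) < ((2 ^ (L - 2) / (3 * m + 1) : ℕ) : ℝ) + 1 := by
        have h3 := Nat.lt_div_mul_add (a := 2 ^ (L - 2)) (b := 3 * m + 1) (by omega)
        rw [div_lt_iff₀ (by positivity)]
        have h4 : ((2 ^ (L - 2) : ℕ) : ℝ) < ((2 ^ (L - 2) / (3 * m + 1) * (3 * m + 1) + (3 * m + 1) : ℕ) : ℝ) := by
          exact_mod_cast h3
        push_cast at h4 ⊢
        linarith
      have h5 : Y / 16 ≤ ((2 : ℝ) ^ (L - 2)) / (3 * m + 1) := by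
        rw [div_le_div_iff₀ (by norm_num) (by positivity)]
        have h6 : (3 : ℝ) * m + 1 ≤ 4 * X := by linarith
        have h7 : Y * (3 * m + 1) ≤ Y * (4 * X) := mul_le_mul_of_nonneg_left h6 (by linarith)
        have h8 : Y * (4 * X) = 4 * (X * Y) := by ring
        rw [h8, hXY, e2] at h7
        linarith
      linarith
    calc q ^ (2 ^ (L - 2) / (3 * m + 1)) = q ^ (((2 ^ (L - 2) / (3 * m + 1) : ℕ) : ℝ)) := (Real.rpow_natCast _ _).symm
      _ ≤ q ^ (Y / 16 - 1) := Real.rpow_le_rpow_of_exponent_ge hq hq1.le h1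
      _ = q⁻¹ * q ^ (Y / 16) := by
        rw [sub_eq_add_neg, Real.rpow_add hq, Real.rpow_neg_one]
        ring
  calc ENNReal.ofReal (C * q ^ (2 ^ (L - 2) / (3 * m + 1))) * gf (SAL (100 * 4 ^ (L + 1) + 2)) ^ 2 ≤
      ENNReal.ofReal (C * (q⁻¹ * q ^ (Y / 16))) * ENNReal.ofReal ((402 : ℝ) ^ C' * C' * Z ^ (2 * C')) ^ 2 := by
        gcongr
    _ = ENNReal.ofReal (K * Z ^ (4 * C') * q ^ (Y / 16)) := by
        rw [← ENNReal.ofReal_pow (by positivity), ← ENNReal.ofReal_mul (by positivity)]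
        congr 1
        have : (Z ^ (2 * C')) ^ 2 = Z ^ (4 * C') := by
          rw [sq, ← Real.rpow_add (by linarith)]
          congr 1
          ring
        rw [mul_pow, this, hK]
        ring
    _ ≤ ENNReal.ofReal ((1 / 2) ^ ((Q + 1) * (L + 1))) := by
        apply ENNReal.ofReal_le_ofReal
        have k1 := hL1 L (by omega)
        rw [← hZ, ← hY] at k1
        have k2 : Z ^ (4 * C' + (Q : ℝ)) = Z ^ (4 * C') * Z ^ Q := by
          rw [Real.rpow_add (by linarith), Real.rpow_natCast]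
        have k3 : ((1 : ℝ) / 2) ^ ((Q + 1) * (L + 1)) * (2 ^ Q * Z ^ Q) = (1 / 2) ^ (L + 1) := by
          rw [hZ, ← mul_pow, show (2 : ℝ) * 2 ^ L = 2 ^ (L + 1) by ring, ← pow_mul, add_mul, one_mul, pow_add,
            mul_comm (L + 1) Q, mul_right_comm, ← mul_pow]
          norm_num
        have k4 : (0 : ℝ) < 2 ^ Q * Z ^ Q := by positivity
        refine le_of_mul_le_mul_right ?_ k4
        rw [k3]
        refine le_trans (le_of_eq ?_) k1
        rw [k2]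
        ring

/-- the words of the strip -/
lemma SSt_YS {m : ℕ} {t : List Bool} (h : t ∈ SSt m) : t ∈ YS (3 * (m + 1)) := by
  refine ⟨⟨fun _ _ _ => Set.mem_univ _, h.inj⟩, fun i hi => ?_⟩
  rcases Nat.eq_zero_or_pos i with h0 | h0
  · subst h0
    rw [lev_zero, abs_zero]
    positivity
  · have h1 := mem_St.1 (h.mem i h0 hi)
    obtain ⟨h2, h3⟩ := h1
    rw [abs_le]
    push_cast
    constructor <;> omega

lemma tsum_half1 (c : ℝ≥0∞) : ∑' k : ℕ, c * (2⁻¹ : ℝ≥0∞) ^ (k + 1) = c := by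
  have h1 : ∀ k : ℕ, (2⁻¹ : ℝ≥0∞) ^ (k + 1) = ENNReal.ofReal ((1 / 2) ^ k * (1 / 2)) := by
    intro k
    rw [← pow_succ, ENNReal.ofReal_pow (by norm_num)]
    congr 1
    rw [one_div, ENNReal.ofReal_inv_of_pos (by norm_num)]
    norm_num
  rw [ENNReal.tsum_mul_left]
  simp only [h1]
  rw [← ENNReal.ofReal_tsum_of_nonneg (fun q => by positivity)
    ((summable_geometric_of_lt_one (by norm_num) (by norm_num)).mul_right _), tsum_mul_right,
    tsum_geometric_of_lt_one (by norm_num) (by norm_num)]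
  norm_num

/-- **tail of the lengths in a strip of a fixed height** -/
theorem base_tail (m Q : ℕ) : ∃ A : ℝ, 0 < A ∧ ∀ x : ℝ, 0 < x →
    gf {W | W ∈ SSt m ∧ x ≤ (W.length : ℝ)} ≤ ENNReal.ofReal (A / x ^ Q) := by
  obtain ⟨L1, h1⟩ := scale_smallQ (2 * Q) (show (0 : ℝ) < 1 / 2 by norm_num) (by norm_num)
  -- the first scale
  obtain ⟨L2, hL2⟩ : ∃ L2 : ℕ, ((m + 1 : ℕ) : ℝ) ≤ (2 : ℝ) ^ ((1 - 1 / 2 : ℝ) * L2) := by
    obtain ⟨n, hn⟩ := pow_unbounded_of_one_lt ((m + 1 : ℕ) : ℝ) (show (1 : ℝ) < 2 by norm_num)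
    refine ⟨2 * n, hn.le.trans (le_of_eq ?_)⟩
    rw [← Real.rpow_natCast]
    congr 1
    push_cast
    ring
  obtain ⟨L0, hL0⟩ : ∃ L0, L0 = L1 + L2 := ⟨_, rfl⟩
  have hb : ∀ L, L0 ≤ L → gf {t | t ∈ YS (3 * (m + 1)) ∧ t ∈ WL (L + 1) ∧ t ∉ WL L} ≤
      ENNReal.ofReal ((1 / 2) ^ ((2 * Q + 1) * (L + 1))) := by
    intro L hL
    refine h1 L (by omega) (m + 1) (hL2.trans ?_)
    refine Real.rpow_le_rpow_of_exponent_le (by norm_num) ?_
    have : (L2 : ℝ) ≤ L := by exact_mod_cast (by omega : L2 ≤ L)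
    linarith
  -- words outside WL L
  have hout : ∀ L, L0 ≤ L → gf {t | t ∈ SSt m ∧ t ∉ WL L} ≤ ENNReal.ofReal ((1 / 4) ^ (Q * (L + 1))) := by
    intro L hL
    have hsub : {t | t ∈ SSt m ∧ t ∉ WL L} ⊆
        ⋃ k : ℕ, {t | t ∈ YS (3 * (m + 1)) ∧ t ∈ WL (L + k + 1) ∧ t ∉ WL (L + k)} := by
      rintro t ⟨h2, h3⟩
      classical
      have hY := SSt_YS h2
      have hex := WL_ex hY.1
      obtain ⟨N, hN, hmin⟩ : ∃ N, t ∈ WL N ∧ ∀ k, k < N → t ∉ WL k :=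
        ⟨Nat.find hex, Nat.find_spec hex, fun k hk => Nat.find_min hex hk⟩
      have hLN : L < N := by
        by_contra hcon
        exact h3 (WL_mono (not_lt.1 hcon) hN)
      rw [Set.mem_iUnion]
      refine ⟨N - L - 1, hY, ?_, hmin _ (by omega)⟩
      rw [show L + (N - L - 1) + 1 = N by omega]
      exact hN
    have h4 : ∀ k : ℕ, gf {t | t ∈ YS (3 * (m + 1)) ∧ t ∈ WL (L + k + 1) ∧ t ∉ WL (L + k)} ≤
        ENNReal.ofReal ((1 / 4) ^ (Q * (L + 1))) * (2⁻¹ : ℝ≥0∞) ^ (k + 1) := by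
      intro k
      refine (hb (L + k) (by omega)).trans ?_
      have e1 : (2⁻¹ : ℝ≥0∞) ^ (k + 1) = ENNReal.ofReal ((1 / 2) ^ (k + 1)) := by
        rw [ENNReal.ofReal_pow (by norm_num)]
        congr 1
        rw [one_div, ENNReal.ofReal_inv_of_pos (by norm_num)]
        norm_num
      rw [e1, ← ENNReal.ofReal_mul (by positivity)]
      refine ENNReal.ofReal_le_ofReal ?_
      have e2 : ((1 : ℝ) / 4) ^ (Q * (L + 1)) = (1 / 2) ^ (2 * (Q * (L + 1))) := by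
        rw [pow_mul (1 / 2 : ℝ) 2]
        norm_num
      rw [e2, ← pow_add]
      refine pow_le_pow_of_le_one (by norm_num) (by norm_num) ?_
      nlinarith
    refine (gf_mono hsub).trans ?_
    refine le_trans (b := ∑' k : ℕ, gf {t | t ∈ YS (3 * (m + 1)) ∧ t ∈ WL (L + k + 1) ∧ t ∉ WL (L + k)}) ?_ ?_
    · unfold gf
      exact ENNReal.tsum_iUnion_le_tsum wE _
    · exact (ENNReal.tsum_le_tsum h4).trans (le_of_eq (tsum_half1 _))
  -- small lengths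
  obtain ⟨H, hH0, hH⟩ : ∃ H : ℝ, 0 ≤ H ∧ gf (SSt m) = ENNReal.ofReal H :=
    ⟨(gf (SSt m)).toReal, ENNReal.toReal_nonneg, (ENNReal.ofReal_toReal (PLW.gf_SSt_fin _)).symm⟩
  obtain ⟨x0, hx0⟩ : ∃ x0 : ℝ, x0 = 100 * 4 ^ (L0 + 1) := ⟨_, rfl⟩
  have hx00 : 0 < x0 := by
    rw [hx0]
    positivity
  refine ⟨H * x0 ^ Q + 100 ^ Q, by positivity, fun x hx => ?_⟩
  rcases le_or_gt x x0 with hxx | hxx
  · have h3 : gf {W | W ∈ SSt m ∧ x ≤ (W.length : ℝ)} ≤ ENNReal.ofReal H := by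
      rw [← hH]
      exact gf_mono fun W hW => hW.1
    refine h3.trans (ENNReal.ofReal_le_ofReal ?_)
    rw [le_div_iff₀ (by positivity)]
    have h5 : x ^ Q ≤ x0 ^ Q := pow_le_pow_left₀ hx.le hxx Q
    have h6 := mul_le_mul_of_nonneg_left h5 hH0
    have h7 : (0 : ℝ) < 100 ^ Q := by positivity
    linarith
  · -- the last scale with a box that is too small
    have hex : ∃ L, x ≤ 100 * 4 ^ (L + 1) := by
      obtain ⟨n, hn⟩ := pow_unbounded_of_one_lt x (show (1 : ℝ) < 4 by norm_num)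
      refine ⟨n, hn.le.trans ?_⟩
      have : (4 : ℝ) ^ n ≤ 4 ^ (n + 1) := pow_le_pow_right₀ (by norm_num) (by omega)
      have h8 : (0 : ℝ) < 4 ^ (n + 1) := by positivity
      linarith
    classical
    obtain ⟨L, hL1, hL2⟩ : ∃ L, x ≤ 100 * 4 ^ (L + 1) ∧ ∀ k < L, ¬ x ≤ 100 * 4 ^ (k + 1) :=
      ⟨Nat.find hex, Nat.find_spec hex, fun k hk => Nat.find_min hex hk⟩
    have hLL : L0 + 1 ≤ L := by
      by_contra hcon
      push Not at hcon
      have h8 : (100 : ℝ) * 4 ^ (L + 1) ≤ x0 := by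
        rw [hx0]
        have : (4 : ℝ) ^ (L + 1) ≤ 4 ^ (L0 + 1) := pow_le_pow_right₀ (by norm_num) (by omega)
        linarith
      linarith
    have hL3 : 100 * (4 : ℝ) ^ L < x := by
      have := hL2 (L - 1) (by omega)
      rw [show L - 1 + 1 = L by omega] at this
      exact not_le.1 this
    have hsub : {W | W ∈ SSt m ∧ x ≤ (W.length : ℝ)} ⊆ {t | t ∈ SSt m ∧ t ∉ WL L} := by
      rintro W ⟨h8, h9⟩
      refine ⟨h8, fun hcon => ?_⟩
      have h10 := WL_length hcon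
      have h11 : (W.length : ℝ) ≤ 100 * 4 ^ L := by exact_mod_cast h10
      linarith
    refine (gf_mono hsub).trans ((hout L (by omega)).trans (ENNReal.ofReal_le_ofReal ?_))
    rw [le_div_iff₀ (by positivity)]
    have h8 : x ^ Q ≤ (100 * 4 ^ (L + 1)) ^ Q := pow_le_pow_left₀ hx.le hL1 Q
    have h9 : ((1 : ℝ) / 4) ^ (Q * (L + 1)) * (100 * 4 ^ (L + 1)) ^ Q = 100 ^ Q := by
      rw [mul_comm Q, pow_mul, ← mul_pow]
      congr 1
      rw [mul_left_comm, ← mul_pow]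
      norm_num
    have h10 := mul_le_mul_of_nonneg_left h8 (show (0 : ℝ) ≤ (1 / 4) ^ (Q * (L + 1)) by positivity)
    rw [h9] at h10
    have h11 : 0 ≤ H * x0 ^ Q := by positivity
    linarith

end NTA

end HexObs
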