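import Pool.Agent.PW.ArcS
import Pool.Agent.NTA.TailDefs

/-!
NTA, C1, first part: a mean split by a tail of order 2; the pairs of leaves of PW.ArcS as a sum over triples (helper59).
-/

set_option autoImplicit false

namespace HexObs

namespace NTA

open Finset TS SDN NTW

open scoped ENNReal

namespace C1

/-- the letters, split at c1 M and at the levels 2 ^ j Lam M -/
lemma cake {M c1 Lam : ℝ} (hM : 0 < M) (hc : 0 < c1) (hL : 1 ≤ Lam) (n : ℕ) : (n : ℝ≥0∞) ≤
    ENNReal.ofReal (c1 * M) + (if c1 * M ≤ (n : ℝ) then ENNReal.ofReal (Lam * M) else 0) +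
      ∑' j : ℕ, (if 2 ^ j * Lam * M ≤ (n : ℝ) then ENNReal.ofReal (2 ^ (j + 1) * Lam * M) else 0) := by
  have hn : (n : ℝ≥0∞) = ENNReal.ofReal (n : ℝ) := (ENNReal.ofReal_natCast n).symm
  have hLM : 0 < Lam * M := by positivity
  rcases lt_or_ge (n : ℝ) (c1 * M) with h1 | h1
  · rw [hn, add_assoc]
    exact (ENNReal.ofReal_le_ofReal h1.le).trans le_self_add
  rcases lt_or_ge (n : ℝ) (Lam * M) with h2 | h2
  · rw [if_pos h1, hn, add_assoc]
    refine (ENNReal.ofReal_le_ofReal h2.le).trans ?_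
    exact le_self_add.trans le_add_self
  · obtain ⟨j, hj1, hj2⟩ := exists_nat_pow_near (x := (n : ℝ) / (Lam * M)) ((one_le_div hLM).2 h2) one_lt_two
    rw [le_div_iff₀ hLM] at hj1
    rw [div_lt_iff₀ hLM] at hj2
    have h3 : ENNReal.ofReal (2 ^ (j + 1) * Lam * M) ≤
        ∑' j : ℕ, (if 2 ^ j * Lam * M ≤ (n : ℝ) then ENNReal.ofReal (2 ^ (j + 1) * Lam * M) else 0) := by
      refine le_trans (le_of_eq ?_) (ENNReal.le_tsum j)
      rw [if_pos (by rw [mul_assoc]; exact hj1)]
    rw [hn]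
    refine (ENNReal.ofReal_le_ofReal ?_).trans (h3.trans le_add_self)
    rw [mul_assoc]
    exact hj2.le

/-- a mean, from a tail of order 2 -/
theorem mean_split {ι : Type*} (w : ι → ℝ≥0∞) (l : ι → ℕ) {M R c1 Lam : ℝ} (hM : 0 < M) (hR : 0 ≤ R) (hc : 0 < c1)
    (hL : 1 ≤ Lam) (h : ∀ lam : ℝ, Lam ≤ lam →
      ∑' x, (if lam * M ≤ (l x : ℝ) then w x else 0) ≤ ENNReal.ofReal (R / lam ^ 2)) :
    ∑' x, w x * (l x : ℝ≥0∞) ≤ ENNReal.ofReal (c1 * M) * ∑' x, w x +
      ENNReal.ofReal (Lam * M) * ∑' x, (if c1 * M ≤ (l x : ℝ) then w x else 0) + ENNReal.ofReal (4 * M * R / Lam) := by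
  have hL0 : 0 < Lam := by linarith
  calc ∑' x, w x * (l x : ℝ≥0∞)
      ≤ ∑' x, w x * (ENNReal.ofReal (c1 * M) + (if c1 * M ≤ (l x : ℝ) then ENNReal.ofReal (Lam * M) else 0) +
        ∑' j : ℕ, (if 2 ^ j * Lam * M ≤ (l x : ℝ) then ENNReal.ofReal (2 ^ (j + 1) * Lam * M) else 0)) :=
        ENNReal.tsum_le_tsum fun x => mul_le_mul' le_rfl (cake hM hc hL (l x))
    _ = ENNReal.ofReal (c1 * M) * ∑' x, w x +
        ENNReal.ofReal (Lam * M) * ∑' x, (if c1 * M ≤ (l x : ℝ) then w x else 0) +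
        ∑' j : ℕ, ENNReal.ofReal (2 ^ (j + 1) * Lam * M) * ∑' x, (if 2 ^ j * Lam * M ≤ (l x : ℝ) then w x else 0) := by
        have e1 : ∀ x, w x * (ENNReal.ofReal (c1 * M) + (if c1 * M ≤ (l x : ℝ) then ENNReal.ofReal (Lam * M) else 0) +
            ∑' j : ℕ, (if 2 ^ j * Lam * M ≤ (l x : ℝ) then ENNReal.ofReal (2 ^ (j + 1) * Lam * M) else 0)) =
            ENNReal.ofReal (c1 * M) * w x + ENNReal.ofReal (Lam * M) * (if c1 * M ≤ (l x : ℝ) then w x else 0) +
            ∑' j : ℕ, ENNReal.ofReal (2 ^ (j + 1) * Lam * M) * (if 2 ^ j * Lam * M ≤ (l x : ℝ) then w x else 0) := by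
          intro x
          rw [mul_add, mul_add, ← ENNReal.tsum_mul_left]
          congr 1
          · congr 1
            · ring
            · split_ifs
              · ring
              · ring
          · refine tsum_congr fun j => ?_
            split_ifs
            · ring
            · ring
        simp only [e1]
        rw [ENNReal.tsum_add, ENNReal.tsum_add, ENNReal.tsum_mul_left, ENNReal.tsum_mul_left, ENNReal.tsum_comm]
        congr 1
        exact tsum_congr fun j => ENNReal.tsum_mul_left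
    _ ≤ _ := by
        refine add_le_add le_rfl ?_
        calc ∑' j : ℕ, ENNReal.ofReal (2 ^ (j + 1) * Lam * M) * ∑' x, (if 2 ^ j * Lam * M ≤ (l x : ℝ) then w x else 0)
            ≤ ∑' j : ℕ, ENNReal.ofReal (2 * M * R / Lam * (1 / 2) ^ j) := by
              refine ENNReal.tsum_le_tsum fun j => ?_
              have h1 : (1 : ℝ) ≤ 2 ^ j := one_le_pow₀ (by norm_num)
              have h2 := h (2 ^ j * Lam) (by nlinarith)
              refine (mul_le_mul' le_rfl h2).trans ?_
              rw [← ENNReal.ofReal_mul (by positivity)]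
              refine ENNReal.ofReal_le_ofReal (le_of_eq ?_)
              have h3 : (2 : ℝ) ^ j ≠ 0 := by positivity
              have h4 : (1 / 2 : ℝ) ^ j = 1 / 2 ^ j := by
                rw [div_pow, one_pow]
              rw [h4, pow_succ]
              field_simp
          _ = ENNReal.ofReal (2 * M * R / Lam) * ∑' j : ℕ, ENNReal.ofReal ((1 / 2) ^ j) := by
              rw [← ENNReal.tsum_mul_left]
              refine tsum_congr fun j => ?_
              rw [ENNReal.ofReal_mul (by positivity)]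
          _ = _ := by
              have h5 : (∑' j : ℕ, ENNReal.ofReal ((1 / 2 : ℝ) ^ j)) = ENNReal.ofReal 2 := by
                rw [← ENNReal.ofReal_tsum_of_nonneg (fun j => by positivity) summable_geometric_two, tsum_geometric_two]
              rw [h5, ← ENNReal.ofReal_mul (by positivity)]
              congr 1
              ring

/-- weight of a triple: height and two leaves of this height with a fold between them -/
noncomputable def pw (E N : ℕ) (x : ℕ × (List Bool × List Bool)) : ℝ≥0∞ :=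
  open Classical in
  if (E ≤ x.1 ∧ x.1 ≤ N) ∧ x.2.1 ∈ Brd x.1 ∧ x.2.2 ∈ Brd x.1 ∧ LFold x.2.1 x.2.2 then wE x.2.1 * wE x.2.2 else 0

/-- sums over pairs of leaves -/
lemma pw_sum (E N : ℕ) (f : List Bool → List Bool → ℝ≥0∞) :
    ∑ T ∈ Icc E N, Rec8.sw (Brd T) (fun g => Rec8.sw {g' | g' ∈ Brd T ∧ LFold g g'} (fun g' => f g g')) =
      ∑' x : ℕ × (List Bool × List Bool), pw E N x * f x.2.1 x.2.2 := by
  classical
  rw [ENNReal.tsum_prod', tsum_eq_sum (s := Icc E N)]
  · refine Finset.sum_congr rfl fun T hT => ?_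
    rw [mem_Icc] at hT
    rw [ENNReal.tsum_prod', Rec8.sw_ind]
    refine tsum_congr fun g => ?_
    by_cases hg : g ∈ Brd T
    · rw [if_pos hg, Rec8.sw_ind, ← ENNReal.tsum_mul_left]
      refine tsum_congr fun g' => ?_
      unfold pw
      by_cases hg' : g' ∈ Brd T ∧ LFold g g'
      · rw [if_pos (show g' ∈ {g' | g' ∈ Brd T ∧ LFold g g'} from hg'), if_pos ⟨hT, hg, hg'.1, hg'.2⟩]
        simp only
        ring
      · rw [if_neg (show g' ∉ {g' | g' ∈ Brd T ∧ LFold g g'} from hg'), mul_zero,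
          if_neg (fun h => hg' ⟨h.2.2.1, h.2.2.2⟩), zero_mul]
    · rw [if_neg hg]
      refine (ENNReal.tsum_eq_zero.2 fun g' => ?_).symm
      unfold pw
      rw [if_neg (fun h => hg h.2.1), zero_mul]
  · intro T hT
    rw [mem_Icc] at hT
    refine ENNReal.tsum_eq_zero.2 fun x => ?_
    unfold pw
    rw [if_neg (fun h => hT h.1), zero_mul]

/-- the first leaf in S -/
lemma pw_first (E N : ℕ) (S : Set (List Bool)) [∀ g, Decidable (g ∈ S)] :
    ∑' x : ℕ × (List Bool × List Bool), (if x.2.1 ∈ S then pw E N x else 0) =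
    ∑ T ∈ Icc E N, Rec8.sw {g | g ∈ Brd T ∧ g ∈ S} (fun g => Rec8.sw {g' | g' ∈ Brd T ∧ LFold g g'} (fun _ => 1)) := by
  classical
  have h1 := pw_sum E N (fun g _ => if g ∈ S then 1 else 0)
  have h2 : ∀ x : ℕ × (List Bool × List Bool), (if x.2.1 ∈ S then pw E N x else 0) =
      pw E N x * (if x.2.1 ∈ S then 1 else 0) := by
    intro x
    split_ifs
    · rw [mul_one]
    · rw [mul_zero]
  simp only [h2]
  rw [← h1]
  refine Finset.sum_congr rfl fun T _ => ?_
  rw [Rec8.sw_and (Brd T) (fun g => g ∈ S)]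
  refine Rec8.sw_congr fun g _ => ?_
  split_ifs
  · rfl
  · exact Rec8.sw_zero _

/-- the second leaf in S -/
lemma pw_second (E N : ℕ) (S : Set (List Bool)) [∀ g, Decidable (g ∈ S)] :
    ∑' x : ℕ × (List Bool × List Bool), (if x.2.2 ∈ S then pw E N x else 0) =
    ∑ T ∈ Icc E N, Rec8.sw (Brd T) (fun g => Rec8.sw {g' | g' ∈ Brd T ∧ g' ∈ S ∧ LFold g g'} (fun _ => 1)) := by
  classical
  have h1 := pw_sum E N (fun _ g' => if g' ∈ S then 1 else 0)
  have h2 : ∀ x : ℕ × (List Bool × List Bool), (if x.2.2 ∈ S then pw E N x else 0) =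
      pw E N x * (if x.2.2 ∈ S then 1 else 0) := by
    intro x
    split_ifs
    · rw [mul_one]
    · rw [mul_zero]
  simp only [h2]
  rw [← h1]
  refine Finset.sum_congr rfl fun T _ => Rec8.sw_congr fun g _ => ?_
  rw [Rec8.sw_ind, Rec8.sw_ind]
  refine tsum_congr fun g' => ?_
  by_cases h3 : g' ∈ Brd T ∧ LFold g g'
  · by_cases h4 : g' ∈ S
    · rw [if_pos (show g' ∈ {g' | g' ∈ Brd T ∧ LFold g g'} from h3), if_pos h4,
        if_pos (show g' ∈ {g' | g' ∈ Brd T ∧ g' ∈ S ∧ LFold g g'} from ⟨h3.1, h4, h3.2⟩)]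
    · rw [if_pos (show g' ∈ {g' | g' ∈ Brd T ∧ LFold g g'} from h3), if_neg h4, mul_zero,
        if_neg (show g' ∉ {g' | g' ∈ Brd T ∧ g' ∈ S ∧ LFold g g'} from fun h => h4 h.2.1)]
  · rw [if_neg (show g' ∉ {g' | g' ∈ Brd T ∧ LFold g g'} from h3),
        if_neg (show g' ∉ {g' | g' ∈ Brd T ∧ g' ∈ S ∧ LFold g g'} from fun h => h3 ⟨h.1, h.2.2⟩)]

end C1

end NTA

end HexObs
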