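import Pool.Agent.NTW.KernU
import Pool.Agent.SDN.XT
import Pool.Agent.NTW.DomE

/-!
NTA (PLAN3, point 3b): a functional dominated at the scales up to K is dominated at the scales up to K + 1, with an
absolute constant. The bridges M behind the piece P which are lower than 2^(K+1) are in the hypothesis; the higher ones are
cut near their top (level within the window K), and the total weight theorem totD_of does the rest.
-/

set_option autoImplicit false

namespace HexObs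

namespace NTA

open Finset TS SDN NTW

open scoped ENNReal

/-- **one more scale, absolute constant** -/
theorem dom_up_of (hA : SsA) : ∃ C : ℝ, 1 ≤ C ∧ ∀ (K : ℕ) (x : ℝ≥0∞) (Φ : List Bool → ℝ≥0∞), Dom K x Φ →
    Dom (K + 1) (ENNReal.ofReal C * x) Φ := by
  obtain ⟨Kt, hKt, ht⟩ := totD_of hA
  refine ⟨1 + 4 * Kt, by linarith, fun K x Φ hΦ => ⟨hΦ.her, fun r P hP => ?_⟩⟩
  have hsub : Rec8.sw {M | ∃ m, m < 2 ^ (K + 1 + 1) ∧ M ∈ Brd m} (fun M => Φ (P ++ M)) ≤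
      Rec8.sw {M | ∃ m, m < 2 ^ (K + 1) ∧ M ∈ Brd m} (fun M => Φ (P ++ M)) +
        Rec8.sw (BrR (2 ^ (K + 1)) (2 ^ (K + 2))) Φ := by
    classical
    simp only [Rec8.sw_ind]
    rw [← ENNReal.tsum_add]
    refine ENNReal.tsum_le_tsum fun t => ?_
    by_cases h1 : t ∈ {M | ∃ m, m < 2 ^ (K + 1 + 1) ∧ M ∈ Brd m}
    · rw [if_pos h1]
      obtain ⟨m, hm, htm⟩ := h1
      by_cases h2 : m < 2 ^ (K + 1)
      · rw [if_pos (show t ∈ {M | ∃ m, m < 2 ^ (K + 1) ∧ M ∈ Brd m} from ⟨m, h2, htm⟩)]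
        exact le_self_add
      · rw [if_pos (show t ∈ BrR (2 ^ (K + 1)) (2 ^ (K + 2)) from ⟨m, not_lt.1 h2, hm.le, htm⟩)]
        refine le_trans ?_ le_add_self
        exact mul_le_mul_right (hΦ.her P ⟨r, hP.1⟩ t) _
    · rw [if_neg h1]
      exact zero_le
  refine hsub.trans ?_
  have h1 : Rec8.sw {M | ∃ m, m < 2 ^ (K + 1) ∧ M ∈ Brd m} (fun M => Φ (P ++ M)) ≤ x * SS (K + 1) P :=
    (hΦ.bd r P hP).trans (mul_le_mul_right (SS_mono (Nat.le_succ K) P) _)
  have h2 : Rec8.sw (BrR (2 ^ (K + 1)) (2 ^ (K + 2))) Φ ≤ ENNReal.ofReal (4 * Kt) * x * SS (K + 1) P := by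
    refine (ht (2 ^ (K + 1)) (2 ^ (K + 2)) K x Φ hΦ le_rfl).trans ?_
    have hU : UU (2 ^ (K + 2)) ≤ 2 * Ub (K + 1) := DE.UU_two (K + 1)
    have hUb := Ub_pos (K + 1)
    calc ENNReal.ofReal (Kt * UU (2 ^ (K + 2))) * x
        ≤ ENNReal.ofReal (4 * Kt * Ub (K + 1)) * x := by
          refine mul_le_mul_left (ENNReal.ofReal_le_ofReal ?_) _
          nlinarith
      _ = ENNReal.ofReal (4 * Kt) * x * ENNReal.ofReal (Ub (K + 1)) := by
          rw [ENNReal.ofReal_mul (by linarith : (0 : ℝ) ≤ 4 * Kt)]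
          ring
      _ ≤ _ := mul_le_mul_right (DE.Ub_le_SS (K + 1) P) _
  refine (add_le_add h1 h2).trans (le_of_eq ?_)
  rw [ENNReal.ofReal_add (by norm_num) (by linarith), ENNReal.ofReal_one]
  ring

/-- **one more scale, absolute constant**, no hypothesis -/
theorem dom_up : ∃ C : ℝ, 1 ≤ C ∧ ∀ (K : ℕ) (x : ℝ≥0∞) (Φ : List Bool → ℝ≥0∞), Dom K x Φ →
    Dom (K + 1) (ENNReal.ofReal C * x) Φ := by
  obtain ⟨C, δ, h⟩ := inp_exists
  exact dom_up_of (ssA h)

end NTA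

end HexObs
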