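import Pool.Agent.NTA.TailEns
import Pool.Agent.NTA.TbBL
import Pool.Agent.PW.RunBX

/-!
NTA: the bridges of the box are an ensemble; the tail of their lengths gives the tail of the lengths of all bridges.
-/

set_option autoImplicit false

namespace HexObs

namespace NTA

open Finset TS SDN NTW

open scoped ENNReal

/-- **the bridges of the box are an ensemble** -/
theorem ens_BL : Ens BL (fun k => ENNReal.ofReal (Ub k)) := by
  refine ⟨fun K t ht => ht.2, ?_, ⟨1, le_rfl, fun k => ?_⟩, ⟨Ub 0, Ub_pos 0, fun k => ?_⟩⟩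
  · obtain ⟨C, k0, hC, h⟩ := PW.runXB
    refine ⟨C, k0, hC, fun dir kc J R δ hk hJ hδ hS => ?_⟩
    refine (h dir kc J R δ hk hJ hδ.le hS).trans (le_of_eq ?_)
    rw [ENNReal.ofReal_mul (by positivity)]
  · rw [ENNReal.ofReal_one, one_mul]
    exact tot_BL k
  · exact ENNReal.ofReal_le_ofReal (Ub_mono (Nat.zero_le k))

/-- **from the tail in the box to the tail of all bridges** -/
theorem tbof_BL {m : ℕ → ℝ} (hm : MLow m) (hd : MUp m) : TBof m BL (fun k => ENNReal.ofReal (Ub k)) := tb_box hm.pos hd

end NTA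

end HexObs

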