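import Pool.Agent.NTA.FinAllOf
import Pool.Agent.NTS.FinDensT

/-!
NTA (natural time, all scales), counting density: the assembly from the typical scales (every scale), the regularity of
the quantiles and the lower bound of the number of walks with n steps.
-/

set_option autoImplicit false

namespace NTSF

open Finset

open HexObs hiding pos

open HexObs.TS HexObs.SDN HexObs.NTW

open HexObs.NTm (Seq Good GCK seq_exists)

open Pool.Agent.NTS.Res

open scoped ENNReal

/-- **the assembly at every scale, counting density** -/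
theorem finDens_of {θ : ℝ} {l : ℕ → ℕ} (hl : Seq θ l) (h0 : 0 < θ) (h1 : θ ≤ 1 / 2) (hS : ScaleP l Set.univ)
    {e g : ℝ} (he : 4 / 3 ≤ e) (hg : 0 < g) (hge : g * e < 1)
    (hupc : ∃ K : ℝ, ∀ k j : ℕ, (l (k + j) : ℝ) ≤ K * (2 : ℝ) ^ (e * (j : ℝ)) * l k)
    (hlo : ∃ b : ℝ, 0 < b ∧ ∀ k j : ℕ, b * (2 : ℝ) ^ (5 / 4 * (j : ℝ)) * l k ≤ l (k + j))
    (hPT : ∃ c : ℝ, 0 < c ∧ ∀ n : ℕ, 1 ≤ n → c * weight n Set.univ ≤ n * ww n) :
    ∀ ε : ℝ, 0 < ε → ConclDens g ε := by
  obtain ⟨Ci, δi, hI⟩ := inp_exists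
  have hA : SsA := ssA hI
  have hl0 : ∀ k, (0 : ℝ) < l k := fun k => by exact_mod_cast hl.one k
  have hG : Good l Set.univ := by
    obtain ⟨K0, hK0⟩ := hupc
    obtain ⟨K, hK⟩ : ∃ K : ℝ, K = max 1 K0 := ⟨_, rfl⟩
    have hK1 : 1 ≤ K := by
      rw [hK]
      exact le_max_left _ _
    have hp : ∀ j : ℕ, (0 : ℝ) < (2 : ℝ) ^ (e * (j : ℝ)) := fun j => Real.rpow_pos_of_pos (by norm_num) _
    refine ⟨fun j => (K * (2 : ℝ) ^ (e * (j : ℝ)))⁻¹, fun j => inv_pos.2 (mul_pos (by linarith) (hp j)),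
      fun L _ j hj => ?_⟩
    rw [inv_mul_le_iff₀ (mul_pos (by linarith) (hp j))]
    have h2 := hK0 (L - j) j
    rw [Nat.sub_add_cancel hj] at h2
    refine h2.trans ?_
    have h3 := hp j
    have h4 := hl0 (L - j)
    have h5 : K0 ≤ K := by
      rw [hK]
      exact le_max_right _ _
    gcongr
  have hT : TailP l := tailP' hA rep_two hl h0 h1
  have hE : ExtP l := extP_of hl h0 h1 hA ssDP (coverTwo rep_two) pivotEx
  have hFF : FactsF l Set.univ := factsF_A hA rep_two hl h0 h1 hG hS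
  refine result_dens hl.one hl.mono hl.up hl.low (factsS_of dirRed hFF) (fun a c K ha hc hac hK => ?_) he hg hge hupc hlo
    (mass_dbl hl.mono hT hE hS) hPT
  have ha1 : a < 3 / 4 := by nlinarith
  have hFH : FactFH a l (GCK K c l) := factFH_of dispQ2 hl h0 h1 K hc ha hac (le_refl _) hT
    (ScaleP.mono hS (Set.subset_univ _))
  exact factSH_of dirRed hl.one hl.up ha ha1 hFH

end NTSF
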