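import Pool.Agent.NTS.ResultX
import Pool.Agent.VF.MeanZ
import Pool.Agent.VF.SharpZ

/-!
# NTA/FinX: the result for EVERY step number, scale of lengths `PW.mZ (2 ^ k)` (helper83)

* **`NTSF.finX_of`**: the conclusion `ConclE b` from the facts of the walks with exactly `n` letters for the scale of lengths
  `PW.mZ (2 ^ k)`; the two bounds of the scale of lengths are 7's `VF.mLow`, `VF.mUp` with 36's `VF.sharpZ`.
-/

set_option autoImplicit false

open HexObs HexObs.NTW

namespace NTSF

/-- the scale of lengths -/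
noncomputable abbrev MZ : ℕ → ℝ := fun k => PW.mZ (2 ^ k)

theorem finX_of (hF : FactsX MZ) (hH : ∀ a : ℝ, 0 < a → a < 3 / 4 → HoldX MZ a) {b : Prop}
    (hL : b → LowX MZ) : ConclE b :=
  result_ex (VF.mLow VF.sharpZ) (let ⟨C, _, h⟩ := VF.mUp VF.sharpZ; ⟨C, h⟩) hF hH hL

end NTSF
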