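import Pool.Agent.NTA.RunDefs
import Pool.Agent.NTW.GeoMono

/-!
NTA: the monotone chain of leaves through a marked run.
-/

set_option autoImplicit false

namespace HexObs

namespace NTA

open Finset TS SDN SDN.ZZ NTm NTW NTW.GM

section

variable {f : ℕ → ℤ} {n m : ℕ} {e : ℕ → ℕ} {R : ℤ}

lemma right_timeR (H : FG f n m e R) {l : ℕ} (hl : l < m) : ∃ (s : ℕ) (E : ℕ → ℕ), (s = 0 → m = l + 1) ∧
    E 0 = e (l + 1) ∧ E s ≤ n ∧
    (∀ q, q < s → E q < E (q + 1)) ∧
    (∀ q, q < s → ∀ i, E q < i → i ≤ E (q + 1) →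
      Tight.sg (l + 1 + q + 1) (f (E q)) < Tight.sg (l + 1 + q + 1) (f i)) ∧
    (∀ q, q < s → ∀ i, E q ≤ i → i ≤ E (q + 1) →
      Tight.sg (l + 1 + q + 1) (f i) ≤ Tight.sg (l + 1 + q + 1) (f (E (q + 1)))) ∧
    (∀ q, q < s → R ≤ Tight.sg (l + 1 + q + 1) (f (E (q + 1))) - Tight.sg (l + 1 + q + 1) (f (E q))) ∧
    (∀ q, q + 1 < s → Tight.sg (l + 1 + q + 1) (f (E (q + 1))) - Tight.sg (l + 1 + q + 1) (f (E q)) ≤
      Tight.sg (l + 1 + (q + 1) + 1) (f (E (q + 2))) - Tight.sg (l + 1 + (q + 1) + 1) (f (E (q + 1)))) ∧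
    (∀ i, E s < i → i ≤ n → Tight.sg (l + 1 + s) (f i) < Tight.sg (l + 1 + s) (f (E s))) ∧
    (∀ i, E s < i → i ≤ n → Tight.sg (l + 1 + s) (f (E s)) - Tight.sg (l + 1 + s) (f i) ≤
      if s = 0 then R else Tight.sg (l + 1 + s) (f (E s)) - Tight.sg (l + 1 + s) (f (E (s - 1)))) := by
  rcases Nat.eq_or_lt_of_le (show l + 1 ≤ m from hl) with h0 | h0
  · refine ⟨0, fun _ => e (l + 1), fun _ => h0.symm, rfl, by rw [h0]; exact H.le, fun q hq => absurd hq (by omega),
      fun q hq => absurd hq (by omega), fun q hq => absurd hq (by omega), fun q hq => absurd hq (by omega),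
      fun q hq => absurd hq (by omega), ?_, ?_⟩
    · intro i i1 i2
      have i3 : e m < i := by rw [← h0]; exact i1
      show Tight.sg (l + 1) (f i) < Tight.sg (l + 1) (f (e (l + 1)))
      rw [h0]
      exact (H.fin i i3 i2).1
    · intro i i1 i2
      have i3 : e m < i := by rw [← h0]; exact i1
      rw [if_pos rfl]
      show Tight.sg (l + 1) (f (e (l + 1))) - Tight.sg (l + 1) (f i) ≤ R
      rw [h0]
      have := (H.fin i i3 i2).2
      omega
  · obtain ⟨b, p, i, a1, a2, a3, a4, a5, a6, a7, a8, a9⟩ := right_seq H.alt (a := l + 1) h0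
    have hpar : ∀ q, q ≤ p → (Even (i q) ↔ Even (l + 1 + q)) := fun q hq => hw_par a4 q hq
    have hsgq : ∀ q, q ≤ p → ∀ x, Tight.sg (l + 1 + q + 1) x = Tight.sg (i q + 1) x := by
      intro q hq x
      exact NTm.sg_par (by rw [Nat.even_add_one, Nat.even_add_one, hpar q hq]) x
    have hsb : ∀ x, Tight.sg (l + 1 + p) x = Tight.sg b x := fun x => NTm.sg_par (by rw [← hpar p le_rfl, a4.last]) x
    have hib : ∀ q, q ≤ p → i q ≤ m := by
      intro q hq
      have h1 := hw_mono a4 (q := q) (q' := p) hq le_rfl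
      rw [a4.last] at h1
      omega
    have hseg : ∀ q, q < p → _ := fun q hq => H.seg (a4.seg q hq) (by have := a6 q hq.le; omega) (hib (q + 1) (by omega))
    refine ⟨p, fun q => e (i q), fun h => absurd h (by omega), ?_, ?_, ?_, ?_, ?_, ?_, ?_, ?_, ?_⟩
    · show e (i 0) = _
      rw [a4.zero]
    · show e (i p) ≤ n
      exact (H.mono (hib p le_rfl) le_rfl).trans H.le
    · intro q hq
      exact H.smono (a4.seg q hq).lt (hib (q + 1) (by omega))
    · intro q hq x x1 x2
      rw [hsgq q hq.le, hsgq q hq.le]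
      exact (hseg q hq).1 x x1 x2
    · intro q hq x x1 x2
      rw [hsgq q hq.le, hsgq q hq.le]
      exact (hseg q hq).2.1 x x1 x2
    · intro q hq
      rw [hsgq q hq.le, hsgq q hq.le]
      exact (hseg q hq).2.2
    · intro q hq
      rw [hsgq q (by omega), hsgq q (by omega), hsgq (q + 1) (by omega), hsgq (q + 1) (by omega)]
      exact a5 q hq
    · intro x x1 x2
      simp only [a4.last] at x1 ⊢
      rw [hsb, hsb]
      have := H.sendb (b := b) (by omega) a2 x1 x2 (fun j j1 j2 => by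
        rw [Tight.sg_succ, Tight.sg_succ]
        have := a8 j j1 j2
        omega)
      rw [Tight.sg_succ, Tight.sg_succ] at this
      omega
    · intro x x1 x2
      simp only [a4.last, if_neg (show p ≠ 0 by omega)] at x1 ⊢
      rw [hsb, hsb, hsb]
      have := H.endb h0 (x := x) ((H.mono a1.le a2).trans x1.le) x2 b (A := Tight.sg b (f (e (i (p - 1)))))
        (fun j j1 j2 => a9 j j1 j2)
      omega

end

theorem geoRun : GeoRun := by
  intro b m u t e hb _ht hFd l d hl
  have H := fg_of hb hFd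
  obtain ⟨f, hf⟩ : ∃ f : ℕ → ℤ, f = fun i => Tight.sg u (lev t i) := ⟨_, rfl⟩
  rw [← hf] at H
  have hR := RR_ge hb
  obtain ⟨F, p, EL, a1, a2, a3, a3', a4, a5, a6, a7, a8, a9, a10, a11⟩ := left_time H (l := l) (by omega)
  obtain ⟨s, ER, b0, b1, b2, b3, b4, b5, b6, b7, b8, b9⟩ := right_timeR H (l := l + d) hl
  -- signs
  have hsg : ∀ q i, Tight.sg (u + F + q) (lev t i) = Tight.sg (F + q + 1) (f i) := by
    intro q i
    rw [add_assoc, sgu, hf]
  have hpl : ∀ q z, Tight.sg (F + (p + d + 1 + q) + 1) z = Tight.sg (l + d + 1 + q + 1) z := by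
    intro q z
    refine NTm.sg_par ?_ z
    rw [show F + (p + d + 1 + q) + 1 = (F + p) + (d + q + 2) by ring, show l + d + 1 + q + 1 = l + (d + q + 2) by ring,
      Nat.even_add, Nat.even_add (m := l), a2]
  have hpp : ∀ q z, Tight.sg (F + (p + q) + 1) z = Tight.sg (l + q + 1) z := by
    intro q z
    refine NTm.sg_par ?_ z
    rw [show F + (p + q) + 1 = (F + p) + (q + 1) by ring, show l + q + 1 = l + (q + 1) by ring, Nat.even_add,
      Nat.even_add (m := l), a2]
  obtain ⟨E, hE⟩ : ∃ E : ℕ → ℕ, E = fun q => if q ≤ p then EL q else if q ≤ p + d then e (l + (q - p)) else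
    ER (q - (p + d + 1)) := ⟨_, rfl⟩
  have E1 : ∀ q, q ≤ p → E q = EL q := fun q hq => by
    rw [hE]
    exact if_pos hq
  have E2 : ∀ q, E (p + d + 1 + q) = ER q := by
    intro q
    rw [hE]
    show (if p + d + 1 + q ≤ p then EL (p + d + 1 + q) else if p + d + 1 + q ≤ p + d then e (l + (p + d + 1 + q - p)) else
      ER (p + d + 1 + q - (p + d + 1))) = ER q
    rw [if_neg (by omega), if_neg (by omega), show p + d + 1 + q - (p + d + 1) = q by omega]
  have E3 : ∀ q, q ≤ d + 1 → E (p + q) = e (l + q) := by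
    intro q hq
    rcases Nat.eq_zero_or_pos q with h0 | h0
    · subst h0
      rw [add_zero, add_zero, E1 p le_rfl, a1]
    · rcases Nat.lt_or_ge d q with h1 | h1
      · have h2 : q = d + 1 := by omega
        subst h2
        have := E2 0
        rw [add_zero] at this
        rw [← add_assoc, this, b1, ← add_assoc]
      · rw [hE]
        show (if p + q ≤ p then EL (p + q) else if p + q ≤ p + d then e (l + (p + q - p)) else _) = _
        rw [if_neg (by omega), if_pos (by omega), show p + q - p = q by omega]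
  -- the three cases
  have key : ∀ q, q < p + d + 1 + s → E q < E (q + 1) ∧
      (∀ i, E q ≤ i → i ≤ E (q + 1) → Tight.sg (F + q + 1) (f (E q)) ≤ Tight.sg (F + q + 1) (f i)) ∧
      (1 ≤ q → ∀ i, E q < i → i ≤ E (q + 1) → Tight.sg (F + q + 1) (f (E q)) < Tight.sg (F + q + 1) (f i)) ∧
      (∀ i, E q ≤ i → i ≤ E (q + 1) → Tight.sg (F + q + 1) (f i) ≤ Tight.sg (F + q + 1) (f (E (q + 1)))) ∧
      RR b ≤ Tight.sg (F + q + 1) (f (E (q + 1))) - Tight.sg (F + q + 1) (f (E q)) := by
    intro q hq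
    rcases Nat.lt_or_ge q p with h | h
    · rw [E1 q h.le, E1 (q + 1) (by omega)]
      refine ⟨a4 q h, ?_, fun h1 => a6 q h1 h, a7 q h, a8 q h⟩
      rcases Nat.eq_zero_or_pos q with h0 | h0
      · subst h0
        exact a5 (by omega)
      · intro i i1 i2
        rcases Nat.eq_or_lt_of_le i1 with h2 | h2
        · rw [h2]
        · exact (a6 q h0 h i h2 i2).le
    rcases Nat.lt_or_ge q (p + d + 1) with h' | h'
    · obtain ⟨q', rfl⟩ : ∃ q', q = p + q' := ⟨q - p, by omega⟩
      rw [add_assoc p q' 1, E3 q' (by omega), E3 (q' + 1) (by omega), ← add_assoc l q' 1]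
      simp only [hpp]
      refine ⟨H.lt (l + q') (by omega), ?_, ?_, H.hi (l + q') (by omega), H.big (l + q') (by omega)⟩
      · intro i i1 i2
        rcases Nat.eq_zero_or_pos (l + q') with h0 | h0
        · rw [h0, zero_add, Tight.sg_one, Tight.sg_one]
          rw [h0] at i1 i2
          exact H.lo0 i i1 i2
        · rcases Nat.eq_or_lt_of_le i1 with h2 | h2
          · rw [h2]
          · exact (H.lo (l + q') h0 (by omega) i h2 i2).le
      · intro h1 i i1 i2
        exact H.lo (l + q') (Nat.pos_of_ne_zero fun h0 => by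
          have := a3' (by omega)
          omega) (by omega) i i1 i2
    · obtain ⟨q', rfl⟩ : ∃ q', q = p + d + 1 + q' := ⟨q - (p + d + 1), by omega⟩
      rw [E2, show p + d + 1 + q' + 1 = p + d + 1 + (q' + 1) by ring, E2]
      simp only [hpl]
      refine ⟨b3 q' (by omega), ?_, fun _ => b4 q' (by omega), b5 q' (by omega), b6 q' (by omega)⟩
      intro i i1 i2
      rcases Nat.eq_or_lt_of_le i1 with h2 | h2
      · rw [h2]
      · exact (b4 q' (by omega) i h2 i2).le
  have hsr : ∀ z, Tight.sg (F + (p + d + s) + 1) z = Tight.sg (l + d + 1 + s) z := by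
    intro z
    refine NTm.sg_par ?_ z
    rw [show F + (p + d + s) + 1 = (F + p) + (d + s + 1) by ring, show l + d + 1 + s = l + (d + s + 1) by ring,
      Nat.even_add, Nat.even_add (m := l), a2]
  refine ⟨p + d + 1 + s, u + F, p, E, by omega, ⟨?_, ?_, ?_, ?_, ?_, ?_, ?_, ?_⟩, E3, ?_, a3, fun h => b0 (by omega), ?_,
    ?_, ?_, ?_, ?_⟩
  · exact fun q hq => (key q hq).1
  · rw [E2]
    exact b2
  · intro i i1 i2
    have := (key 0 (by omega)).2.1 i i1 i2
    have e0 : ∀ i, Tight.sg (u + F) (lev t i) = Tight.sg (F + 0 + 1) (f i) := fun i => hsg 0 i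
    rw [e0, e0]
    exact this
  · intro q q1 q2 i i1 i2
    rw [hsg, hsg]
    exact (key q q2).2.2.1 q1 i i1 i2
  · intro q q2 i i1 i2
    rw [hsg, hsg]
    exact (key q q2).2.2.2.1 i i1 i2
  · intro q q2
    rw [hsg, hsg]
    exact hR.trans (key q q2).2.2.2.2
  · intro i hi
    have e0 : ∀ i, Tight.sg (u + F) (lev t i) = Tight.sg (F + 0 + 1) (f i) := fun i => hsg 0 i
    rw [e0, e0]
    rw [E1 0 (Nat.zero_le _)] at hi ⊢
    exact a10 i hi
  · intro i i1 i2
    rw [show p + d + 1 + s - 1 = p + d + s by omega, hsg, hsg, hsr, hsr]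
    rw [E2] at i1 ⊢
    exact b8 i i1 i2
  · -- the leaves
    rintro i hi g ⟨x, x1, x2, x3, x4, x5⟩
    rw [E3 i (by omega)] at x1 x2
    rw [add_assoc p i 1, E3 (i + 1) (by omega), ← add_assoc l i 1] at x3 x4
    refine ⟨x, x1, x2, x3, x4, fun j i1 i2 => ?_⟩
    rw [x5 j i1 i2]
    refine NTm.sg_par ?_ _
    rw [show u + F + (p + i) = (F + p) + (u + i) by ring, show u + (l + i) = l + (u + i) by ring, Nat.even_add,
      Nat.even_add (m := l), a2]
  · intro q q2
    unfold RG
    rw [hsg, hsg]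
    exact (key q q2).2.2.2.2
  · intro q hq
    unfold RG
    rw [hsg, hsg, hsg, hsg, E1 q (by omega), E1 (q + 1) (by omega), show q + 1 + 1 = q + 2 from rfl,
      E1 (q + 2) (by omega)]
    exact a9 q hq
  · intro q q1 q2
    obtain ⟨q', rfl⟩ : ∃ q', q = p + d + 1 + q' := ⟨q - (p + d + 1), by omega⟩
    unfold RG
    rw [hsg, hsg, hsg, hsg, show p + d + 1 + q' + 1 = p + d + 1 + (q' + 1) by ring,
      show p + d + 1 + (q' + 1) + 1 = p + d + 1 + (q' + 2) by ring, E2, E2, E2]
    simp only [hpl]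
    exact b7 q' (by omega)
  · intro i hi
    have e0 : ∀ i, Tight.sg (u + F) (lev t i) = Tight.sg (F + 0 + 1) (f i) := fun i => hsg 0 i
    rw [e0, e0]
    rw [E1 0 (Nat.zero_le _)] at hi ⊢
    have h1 := a11 i hi
    rw [show F + 0 + 1 = F + 1 from rfl]
    refine h1.trans (le_of_eq ?_)
    split_ifs with h0
    · rfl
    · unfold RG
      rw [hsg, hsg, E1 0 (Nat.zero_le _), zero_add, E1 1 (by omega)]
  · intro i i1 i2
    rw [show p + d + 1 + s - 1 = p + d + s by omega, hsg, hsg, hsr, hsr]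
    rw [E2] at i1 ⊢
    refine (b9 i i1 i2).trans (le_of_eq ?_)
    rcases Nat.eq_zero_or_pos s with h0 | h0
    · rw [if_pos h0, if_pos (by omega)]
    · rw [if_neg (by omega), if_neg (by omega)]
      unfold RG
      obtain ⟨s', rfl⟩ : ∃ s', s = s' + 1 := ⟨s - 1, by omega⟩
      rw [Nat.add_sub_cancel, hsg, hsg, show p + d + (s' + 1) + 1 = p + d + 1 + (s' + 1) by ring, E2,
        show p + d + (s' + 1) = p + d + 1 + s' by ring, E2, hpl, hpl]
      rfl

end NTA

end HexObs
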