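import Pool.Agent.NTA.HalfW

/-!
NTA: tails of the lengths of the half plane words: the windows of one scale.
-/

set_option autoImplicit false

namespace HexObs

namespace NTA

open Finset TS SDN NTW

open scoped ENNReal

namespace HF

variable {C δ : ℝ}

/-- all thresholds together -/
def St (q k N lam : ℕ) (y : ℝ≥0∞) : Prop :=
  ∀ L : ℝ, 0 < L → Dom k (y * ENNReal.ofReal (1 / L ^ q)) (T (2 ^ (k + 4)) N lam L)

lemma St.mono {q k N lam : ℕ} {y z : ℝ≥0∞} (h : St q k N lam y) (hyz : y ≤ z) : St q k N lam z :=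
  fun L hL => (h L hL).mono (mul_le_mul' hyz le_rfl)

/-- a finite bound -/
lemma St_fin (q k N lam : ℕ) : St q k N lam (2 * gf (SSt N) * ENNReal.ofReal ((lam : ℝ) ^ q)) := by
  intro L hL
  rcases lt_or_ge (lam : ℝ) L with h | h
  · refine ((Dom_const k 0).le (T_her _ _ _ _) fun t => ?_).mono (by simp)
    rw [T_zero h t]
  · refine ((Dom_const k (gf (SSt N))).le (T_her _ _ _ _) fun t => gf_mono fun W hW => hW.1).mono ?_
    rw [mul_assoc _ (ENNReal.ofReal _), ← ENNReal.ofReal_mul (by positivity)]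
    have h1 : (1 : ℝ≥0∞) ≤ ENNReal.ofReal ((lam : ℝ) ^ q * (1 / L ^ q)) := by
      rw [← ENNReal.ofReal_one]
      refine ENNReal.ofReal_le_ofReal ?_
      rw [mul_one_div, le_div_iff₀ (by positivity), one_mul]
      exact pow_le_pow_left₀ hL.le h q
    calc 2 * gf (SSt N) = 2 * gf (SSt N) * 1 := (mul_one _).symm
      _ ≤ _ := mul_le_mul_right h1 _

lemma eta_pow (q : ℕ) : (1 : ℝ) / 2 ≤ (1 - 1 / (2 * ((q : ℝ) + 1))) ^ q := by
  have h0 : (0 : ℝ) < 2 * ((q : ℝ) + 1) := by positivity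
  have h1 : (1 : ℝ) / (2 * ((q : ℝ) + 1)) ≤ 1 := by
    rw [div_le_one h0]
    have : (0 : ℝ) ≤ q := Nat.cast_nonneg q
    linarith
  have h2 := one_add_mul_le_pow (a := -(1 / (2 * ((q : ℝ) + 1)))) (by linarith) q
  have h3 : (q : ℝ) * (1 / (2 * ((q : ℝ) + 1))) ≤ 1 / 2 := by
    rw [mul_one_div, div_le_div_iff₀ h0 (by norm_num)]
    linarith
  have h4 : 1 + -(1 / (2 * ((q : ℝ) + 1))) = 1 - 1 / (2 * ((q : ℝ) + 1)) := by ring
  rw [h4] at h2
  linarith

/-- one window -/
theorem St_win (h : Inp C δ) (hLT : LenTop) {m : ℕ → ℝ} (hm1 : ∃ c : ℝ, 0 < c ∧ ∀ k, c ≤ m k) (hQ : LongQ m) :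
    ∃ s : ℕ, 6 ≤ s ∧ ∀ q : ℕ, ∃ B : ℝ, 0 < B ∧ ∀ (k N lam : ℕ) (y : ℝ≥0∞), s ≤ k → 2 ^ (k + 4) ≤ N →
      N + 2 ^ (k - s) ≤ 2 ^ (k + 6) → St q k N lam y →
      St q k (N + 2 ^ (k - s)) lam (2 * (y + ENNReal.ofReal (B * m k ^ q) * Xb (k + 6))) := by
  obtain ⟨K, c0, hK, hst⟩ := T_step hLT
  obtain ⟨Kd, hKd, hd⟩ := dom_xT
  obtain ⟨s, hs6, hw⟩ := HD.VW_norm h (η := 1 / (4 * (K * Kd))) (by positivity)
  obtain ⟨Kf, hKf, hf⟩ := dmP.fin
  obtain ⟨c, hc, hmc⟩ := hm1
  refine ⟨s, hs6, fun q => ?_⟩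
  obtain ⟨A, hA, hlong⟩ := hQ q
  obtain ⟨η, hη⟩ : ∃ η : ℝ, η = 1 / (2 * ((q : ℝ) + 1)) := ⟨_, rfl⟩
  have hq0 : (0 : ℝ) ≤ q := Nat.cast_nonneg q
  have hη0 : 0 < η := by
    rw [hη]
    positivity
  have hη1 : η ≤ 1 / 2 := by
    rw [hη]
    refine one_div_le_one_div_of_le (by norm_num) ?_
    linarith
  have hηq : (1 : ℝ) / 2 ≤ (1 - η) ^ q := by
    rw [hη]
    exact eta_pow q
  obtain ⟨G, hG⟩ : ∃ G : ℝ, G = 2 * ((c0 : ℝ) / c + 1) / η := ⟨_, rfl⟩
  have hG0 : 0 < G := by
    rw [hG]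
    positivity
  obtain ⟨b1, hb1⟩ : ∃ b1 : ℝ, b1 = K * Kd * A * (2 / η) ^ q * Kf := ⟨_, rfl⟩
  have hb10 : 0 < b1 := by
    rw [hb1]
    positivity
  refine ⟨b1 + Kf * G ^ q, by positivity, fun k N lam y hk hN hN' hy => ?_⟩
  obtain ⟨w, hwd⟩ : ∃ w, w = 2 ^ (k - s) := ⟨_, rfl⟩
  have hw' := hw k N
  rw [← hwd] at hw' hN' ⊢
  have hw1 : 1 ≤ w := by
    rw [hwd]
    exact Nat.one_le_two_pow
  obtain ⟨D, hD⟩ : ∃ D, D = 2 ^ (k + 4) := ⟨_, rfl⟩
  rw [← hD] at hw' hN
  unfold St at hy ⊢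
  rw [← hD] at hy ⊢
  have hD1 : 1 ≤ D := by
    rw [hD]
    exact Nat.one_le_two_pow
  have hM : 0 < m k := hc.trans_le (hmc k)
  obtain ⟨M, hMd⟩ : ∃ M, M = m k := ⟨_, rfl⟩
  rw [← hMd] at hM
  obtain ⟨X, hX⟩ : ∃ X, X = Xb (k + 6) := ⟨_, rfl⟩
  rw [← hX, ← hMd]
  -- the whole end functional
  obtain ⟨lam', hQl⟩ := QL_exists (k + 4)
  have hF := hf (k + 4) (N + w) lam lam' (by omega) (by rw [← hD]; omega)
    (by rw [show k + 4 + 2 = k + 6 by omega]; exact hN') hQl
  rw [show k + 4 - 4 = k by omega, show k + 4 + 2 = k + 6 by omega] at hF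
  have hF' : DmJ k (ENNReal.ofReal Kf * X) (HD.FN D (N + w) lam) := by
    rw [hX, hD]
    exact DmJ.mono hF (mul_le_mul_right (bl_le_Xb _ _) _)
  have hsub : ∀ L : ℝ, 0 < L → G * M ≤ L → {g : List Bool | g ∈ BrR N (N + w) ∧ η * L ≤ (g.length : ℝ) + c0} ⊆
      {g | g ∈ BrR (2 ^ (k + 4)) (2 ^ (k + 8)) ∧ η * L / (2 * M) * m k ≤ (g.length : ℝ)} ∧
      1 ≤ η * L / (2 * M) := by
    intro L hL hGL
    have e1 : G * M * η = 2 * ((c0 : ℝ) / c + 1) * M := by
      rw [hG]
      field_simp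
    have e2 : (c0 : ℝ) ≤ (c0 : ℝ) / c * M := by
      rw [div_mul_eq_mul_div, le_div_iff₀ hc]
      exact mul_le_mul_of_nonneg_left (hMd ▸ hmc k) (Nat.cast_nonneg _)
    have e3 : 2 * (c0 : ℝ) + 2 * M ≤ η * L := by
      calc 2 * (c0 : ℝ) + 2 * M ≤ 2 * ((c0 : ℝ) / c + 1) * M := by linarith
        _ = G * M * η := e1.symm
        _ ≤ L * η := mul_le_mul_of_nonneg_right hGL hη0.le
        _ = η * L := mul_comm _ _
    refine ⟨?_, ?_⟩
    · rintro g ⟨⟨u, u1, u2, u3⟩, hg⟩
      refine ⟨⟨u, ?_, ?_, u3⟩, ?_⟩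
      · rw [← hD]
        omega
      · refine u2.trans (hN'.trans (Nat.pow_le_pow_right (by norm_num) (by omega)))
      · rw [← hMd]
        have e4 : η * L / (2 * M) * M = η * L / 2 := by field_simp
        rw [e4]
        linarith
    · rw [le_div_iff₀ (by positivity)]
      have : (0 : ℝ) ≤ c0 := Nat.cast_nonneg _
      linarith
  -- the fixed point
  have key := fam_fix (ι := {L : ℝ // 0 < L}) (k := k)
    (x := y + ENNReal.ofReal ((b1 + Kf * G ^ q) * M ^ q) * X)
    (X0 := 2 * gf (SSt (N + w)) * ENNReal.ofReal ((lam : ℝ) ^ q)) (Φ := fun L => T D (N + w) lam L.1)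
    (w := fun L => ENNReal.ofReal (1 / L.1 ^ q)) (fun L => ENNReal.ofReal_ne_top)
    (ENNReal.mul_ne_top (ENNReal.mul_ne_top (by norm_num) (PLW.gf_SSt_fin _)) ENNReal.ofReal_ne_top)
    (fun L => by
      have h1 := St_fin q k (N + w) lam L.1 L.2
      rw [← hD] at h1
      exact h1)
    (by
      rintro z hz ⟨L, hL⟩
      show Dom k _ (T D (N + w) lam L)
      have hLq : 0 < L ^ q := by positivity
      rcases lt_or_ge L (G * M) with hLG | hLG
      · -- small thresholds
        refine ((hF'.dom).le (T_her _ _ _ _) fun t => T_le_FN _ _ _ _ t).mono ?_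
        have e1 : ENNReal.ofReal Kf * X ≤ ENNReal.ofReal ((b1 + Kf * G ^ q) * M ^ q) * X *
            ENNReal.ofReal (1 / L ^ q) := by
          rw [mul_right_comm, ← ENNReal.ofReal_mul (by positivity)]
          refine mul_le_mul_left (ENNReal.ofReal_le_ofReal ?_) _
          rw [mul_one_div, le_div_iff₀ hLq]
          have e2 : L ^ q ≤ (G * M) ^ q := pow_le_pow_left₀ hL.le hLG.le q
          rw [mul_pow] at e2
          have e3 := mul_le_mul_of_nonneg_left e2 (show 0 ≤ Kf by linarith)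
          have e4 : 0 ≤ b1 * M ^ q := by positivity
          linarith
        refine e1.trans ?_
        gcongr
        exact le_self_add.trans' le_add_self
      · obtain ⟨hs1, hs2⟩ := hsub L hL hLG
        obtain ⟨S, hS⟩ : ∃ S : Set (List Bool), S = {g | g ∈ BrR N (N + w) ∧ η * L ≤ (g.length : ℝ) + c0} := ⟨_, rfl⟩
        obtain ⟨S', hS'⟩ : ∃ S' : Set (List Bool), S' = {g | g ∈ BrR (2 ^ (k + 4)) (2 ^ (k + 8)) ∧
          η * L / (2 * M) * m k ≤ (g.length : ℝ)} := ⟨_, rfl⟩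
        rw [← hS, ← hS'] at hs1
        have hL1 := hlong k (η * L / (2 * M)) hs2
        rw [← hS'] at hL1
        have n1 := hL1.near _ _ hF'
        rw [← hD] at n1
        have hher : ∀ Q : Set (List Bool), Hered (vA D Q (HD.FN D (N + w) lam)) := by
          intro Q r hr t
          unfold vA
          exact Rec8.sw_mono (fun g hg => ⟨hg.1, RT_her hr hg.2⟩) fun _ _ => le_rfl
        have n2 : xT D k (vA D S (HD.FN D (N + w) lam)) ≤ ENNReal.ofReal (A * (2 / η) ^ q * M ^ q * Kf / L ^ q) * X := by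
          refine (xT_mono fun t => ?_).trans (n1.trans (le_of_eq ?_))
          · unfold vA
            exact Rec8.sw_mono (fun g hg => ⟨hs1 hg.1, hg.2⟩) fun _ _ => le_rfl
          · rw [← mul_assoc, ← ENNReal.ofReal_mul (by positivity)]
            congr 2
            rw [div_pow, div_pow, mul_pow, mul_pow]
            field_simp
        have d1 := hy L hL
        have d2 := hd D k k (vA D S (HD.FN D (N + w) lam)) (hher S) (by rw [hD]) le_rfl
        have hL' : 0 < (1 - η) * L := mul_pos (by linarith) hL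
        have z1 := hz ⟨(1 - η) * L, hL'⟩
        have n3 := hw' _ (T D (N + w) lam ((1 - η) * L)) hk z1 hN
          (hN'.trans (Nat.pow_le_pow_right (by norm_num) (by omega)))
        have d3 := hd D k k (HD.VW D N (N + w) (T D (N + w) lam ((1 - η) * L))) (HD.VW_her _ _ _ _) (by rw [hD]) le_rfl
        have d4 := (d1.add ((d2.add d3).smul (ENNReal.ofReal K))).le (T_her D (N + w) lam L) (fun t => by
          have := hst D N (N + w) lam L η hD1 hN (by omega) (by linarith) hL.le t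
          rw [← hS] at this
          exact this)
        refine d4.mono ?_
        have m1 : ENNReal.ofReal Kd * xT D k (vA D S (HD.FN D (N + w) lam)) ≤
            ENNReal.ofReal (Kd * (A * (2 / η) ^ q * M ^ q * Kf / L ^ q)) * X := by
          rw [ENNReal.ofReal_mul (by linarith), mul_assoc]
          exact mul_le_mul_right n2 _
        have m2 : ENNReal.ofReal Kd * xT D k (HD.VW D N (N + w) (T D (N + w) lam ((1 - η) * L))) ≤
            ENNReal.ofReal (Kd * (1 / (4 * (K * Kd))) * (2 / L ^ q)) * z := by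
          refine (mul_le_mul_right n3 _).trans ?_
          show ENNReal.ofReal Kd * (ENNReal.ofReal (1 / (4 * (K * Kd))) * (z * ENNReal.ofReal (1 / ((1 - η) * L) ^ q))) ≤ _
          rw [ENNReal.ofReal_mul (by positivity), ENNReal.ofReal_mul (by linarith)]
          have m3 : ENNReal.ofReal (1 / ((1 - η) * L) ^ q) ≤ ENNReal.ofReal (2 / L ^ q) := by
            refine ENNReal.ofReal_le_ofReal ?_
            rw [mul_pow, div_le_div_iff₀ (by positivity) hLq]
            nlinarith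
          calc ENNReal.ofReal Kd * (ENNReal.ofReal (1 / (4 * (K * Kd))) * (z * ENNReal.ofReal (1 / ((1 - η) * L) ^ q)))
              ≤ ENNReal.ofReal Kd * (ENNReal.ofReal (1 / (4 * (K * Kd))) * (z * ENNReal.ofReal (2 / L ^ q))) := by gcongr
            _ = _ := by ring
        have m4 : ENNReal.ofReal K * (ENNReal.ofReal (Kd * (A * (2 / η) ^ q * M ^ q * Kf / L ^ q)) * X) =
            ENNReal.ofReal (b1 * M ^ q) * X * ENNReal.ofReal (1 / L ^ q) := by
          rw [← mul_assoc, ← ENNReal.ofReal_mul (by linarith), mul_right_comm (ENNReal.ofReal (b1 * M ^ q)) X,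
            ← ENNReal.ofReal_mul (by positivity)]
          congr 2
          rw [hb1]
          ring
        have m5 : ENNReal.ofReal K * (ENNReal.ofReal (Kd * (1 / (4 * (K * Kd))) * (2 / L ^ q)) * z) =
            ENNReal.ofReal (1 / 2) * z * ENNReal.ofReal (1 / L ^ q) := by
          rw [← mul_assoc, ← ENNReal.ofReal_mul (by linarith), mul_right_comm (ENNReal.ofReal (1 / 2)) z,
            ← ENNReal.ofReal_mul (by positivity)]
          congr 2
          field_simp
          norm_num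
        calc y * ENNReal.ofReal (1 / L ^ q) + ENNReal.ofReal K *
              (ENNReal.ofReal Kd * xT D k (vA D S (HD.FN D (N + w) lam)) +
                ENNReal.ofReal Kd * xT D k (HD.VW D N (N + w) (T D (N + w) lam ((1 - η) * L))))
            ≤ y * ENNReal.ofReal (1 / L ^ q) + ENNReal.ofReal K *
              (ENNReal.ofReal (Kd * (A * (2 / η) ^ q * M ^ q * Kf / L ^ q)) * X +
                ENNReal.ofReal (Kd * (1 / (4 * (K * Kd))) * (2 / L ^ q)) * z) := by gcongr
          _ = (y + ENNReal.ofReal (b1 * M ^ q) * X + ENNReal.ofReal (1 / 2) * z) * ENNReal.ofReal (1 / L ^ q) := by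
              rw [mul_add (ENNReal.ofReal K), m4, m5]
              ring
          _ ≤ _ := by
              refine mul_le_mul_left (add_le_add (add_le_add le_rfl (mul_le_mul_left (ENNReal.ofReal_le_ofReal ?_) _))
                le_rfl) _
              refine mul_le_mul_of_nonneg_right ?_ (by positivity)
              have : 0 ≤ Kf * G ^ q := by positivity
              linarith)
  intro L hL
  exact key ⟨L, hL⟩

end HF

end NTA

end HexObs
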