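import Pool.Agent.NTW.HgtDbl
import Pool.Agent.NTA.HalfDefs
import Pool.Agent.NTA.XDbl
import Pool.Agent.NTA.DomUp
import Pool.Agent.NTA.BaseT
import Pool.Agent.NTW.EventJ

/-!
NTA: tails of the lengths of the half plane words (PLAN3, section 5). The functional T, one window of heights, the family
version of the contraction.
-/

set_option autoImplicit false

namespace HexObs

namespace NTA

open Finset TS SDN NTW

open scoped ENNReal

/-- the leaf decomposition of the half plane words with at least L letters -/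
def LenTop : Prop := ∃ (K : ℝ) (c0 : ℕ), 1 ≤ K ∧ ∀ P : Set (List Bool), PrefC P → LastC P →
  ∀ (N0 N lam : ℕ) (L : ℝ), 1 ≤ N0 → N0 ≤ N →
    gf {W | W ∈ SSt N ∧ W ∉ SSt N0 ∧ W ∈ P ∧ L ≤ (W.length : ℝ) ∧ W.length ≤ lam} ≤
      ENNReal.ofReal K * Rec8.sw {g | g ∈ BrR N0 N ∧ g ∈ P} (fun g =>
        (if L ≤ (g.length : ℝ) + c0 ∧ g.length ≤ lam then 1 else 0) +
        gf {W1 | W1 ∈ SSt (hgt g - 1) ∧ LFold g W1 ∧ L ≤ (g.length : ℝ) + W1.length + c0 ∧ g.length + W1.length ≤ lam})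

namespace HF

variable {C δ : ℝ}

/-- hanging walks with at least L letters -/
noncomputable def T (D N lam : ℕ) (L : ℝ) (t : List Bool) : ℝ≥0∞ :=
  gf {W | W ∈ SSt N ∧ RT D LFold t W ∧ L ≤ (W.length : ℝ) ∧ t.length + W.length ≤ lam}

lemma T_her (D N lam : ℕ) (L : ℝ) : Hered (T D N lam L) := by
  intro s hs t
  refine gf_mono fun W hW => ⟨hW.1, RT_her hs hW.2.1, hW.2.2.1, ?_⟩
  have := hW.2.2.2
  rw [List.length_append] at this
  omega

lemma T_le_FN (D N lam : ℕ) (L : ℝ) (t : List Bool) : T D N lam L t ≤ HD.FN D N lam t := by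
  unfold HD.FN
  refine le_trans ?_ le_add_self
  exact gf_mono fun W hW => ⟨hW.1, hW.2.1, hW.2.2.2⟩

lemma T_anti {D D' N lam : ℕ} (hD : D' ≤ D) (L : ℝ) (t : List Bool) : T D N lam L t ≤ T D' N lam L t := by
  refine gf_mono fun W hW => ⟨hW.1, ?_, hW.2.2⟩
  obtain ⟨Z, h1, ⟨n, h2, h3⟩, h4⟩ := hW.2.1
  exact ⟨Z, h1, ⟨n, hD.trans h2, h3⟩, h4⟩

lemma T_le_gf (D N lam : ℕ) (L : ℝ) (t : List Bool) :
    T D N lam L t ≤ gf {W | W ∈ SSt N ∧ L ≤ (W.length : ℝ)} :=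
  gf_mono fun W hW => ⟨hW.1, hW.2.2.1⟩

lemma T_zero {D N lam : ℕ} {L : ℝ} (h : (lam : ℝ) < L) (t : List Bool) : T D N lam L t = 0 := by
  have h1 : {W | W ∈ SSt N ∧ RT D LFold t W ∧ L ≤ (W.length : ℝ) ∧ t.length + W.length ≤ lam} = ∅ := by
    ext W
    simp only [Set.mem_setOf_eq, Set.mem_empty_iff_false, iff_false, not_and, not_le]
    intro _ _ h2
    by_contra hcon
    have h3 : W.length ≤ lam := by omega
    have h4 : (W.length : ℝ) ≤ lam := by exact_mod_cast h3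
    linarith
  unfold T
  rw [h1]
  simp [gf]

/-- the summand of the leaf decomposition: either the leaf or the hanging walk is long -/
lemma F_le {D N lam c0 : ℕ} {L η : ℝ} (hη1 : η ≤ 1) (hL : 0 ≤ L) {g : List Bool} (hgD : g ∈ HB D)
    (hgN : hgt g ≤ N) :
    (if L ≤ (g.length : ℝ) + c0 ∧ g.length ≤ lam then (1 : ℝ≥0∞) else 0) +
      gf {W1 | W1 ∈ SSt (hgt g - 1) ∧ LFold g W1 ∧ L ≤ (g.length : ℝ) + W1.length + c0 ∧
        g.length + W1.length ≤ lam} ≤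
    (if η * L ≤ (g.length : ℝ) + c0 then HD.FN D N lam g else 0) + T D N lam ((1 - η) * L) g := by
  by_cases h : η * L ≤ (g.length : ℝ) + c0
  · rw [if_pos h]
    refine le_trans ?_ le_self_add
    unfold HD.FN
    refine add_le_add ?_ ?_
    · split_ifs
      · exact le_rfl
      · exact zero_le
    · exact gf_mono fun W hW => ⟨SSt_mo (by omega) hW.1, RT_of hgD hW.2.1, hW.2.2.2⟩
  · rw [if_neg h, zero_add]
    push Not at h
    have h1 : η * L ≤ L := by nlinarith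
    rw [if_neg (by
      rintro ⟨h2, -⟩
      linarith), zero_add]
    refine gf_mono fun W hW => ⟨SSt_mo (by omega) hW.1, RT_of hgD hW.2.1, ?_, hW.2.2.2⟩
    have := hW.2.2.1
    linarith

/-- one step: the heights in [N, N'] -/
lemma T_step (hLT : LenTop) : ∃ (K : ℝ) (c0 : ℕ), 1 ≤ K ∧ ∀ (D N N' lam : ℕ) (L η : ℝ), 1 ≤ D → D ≤ N → N ≤ N' →
    η ≤ 1 → 0 ≤ L → ∀ t : List Bool,
    T D N' lam L t ≤ T D N lam L t + ENNReal.ofReal K *
      (vA D {g | g ∈ BrR N N' ∧ η * L ≤ (g.length : ℝ) + c0} (HD.FN D N' lam) t +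
        HD.VW D N N' (T D N' lam ((1 - η) * L)) t) := by
  obtain ⟨K, c0, hK, h⟩ := hLT
  refine ⟨K, c0, hK, fun D N N' lam L η hD hDN hNN hη hL t => ?_⟩
  have hsub : {W | W ∈ SSt N' ∧ RT D LFold t W ∧ L ≤ (W.length : ℝ) ∧ t.length + W.length ≤ lam} ⊆
      {W | W ∈ SSt N ∧ RT D LFold t W ∧ L ≤ (W.length : ℝ) ∧ t.length + W.length ≤ lam} ∪
      {W | W ∈ SSt N' ∧ W ∉ SSt N ∧ W ∈ {W | RT D LFold t W} ∧ L ≤ (W.length : ℝ) ∧ W.length ≤ lam} := by
    rintro W ⟨h1, h2, h3, h4⟩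
    by_cases h5 : W ∈ SSt N
    · exact Or.inl ⟨h5, h2, h3, h4⟩
    · exact Or.inr ⟨h1, h5, h2, h3, by omega⟩
  refine (gf_mono hsub).trans ((gf_union_le _ _).trans (add_le_add le_rfl ?_))
  refine (h _ (Jo_PrefC D t) (Jo_LastC D t) N N' lam L (by omega) hNN).trans (mul_le_mul_right ?_ _)
  have h1 : Rec8.sw {g | g ∈ BrR N N' ∧ g ∈ {W | RT D LFold t W}} (fun g =>
        (if L ≤ (g.length : ℝ) + c0 ∧ g.length ≤ lam then (1 : ℝ≥0∞) else 0) +
        gf {W1 | W1 ∈ SSt (hgt g - 1) ∧ LFold g W1 ∧ L ≤ (g.length : ℝ) + W1.length + c0 ∧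
          g.length + W1.length ≤ lam}) ≤
      Rec8.sw {g | g ∈ BrR N N' ∧ g ∈ {W | RT D LFold t W}} (fun g =>
        (if η * L ≤ (g.length : ℝ) + c0 then HD.FN D N' lam g else 0) + T D N' lam ((1 - η) * L) g) := by
    refine Rec8.sw_mono' fun g hg => ?_
    obtain ⟨⟨u, hu1, hu2, hu⟩, -⟩ := hg
    exact F_le hη hL ⟨u, by omega, hu⟩ (by rw [hgt_eq hu]; exact hu2)
  refine h1.trans ?_
  rw [Rec8.sw_add]
  refine add_le_add ?_ le_rfl
  unfold vA
  classical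
  simp only [Rec8.sw_ind]
  refine ENNReal.tsum_le_tsum fun g => ?_
  by_cases hg : g ∈ {g | g ∈ BrR N N' ∧ g ∈ {W | RT D LFold t W}}
  · rw [if_pos hg]
    by_cases h2 : η * L ≤ (g.length : ℝ) + c0
    · rw [if_pos h2, if_pos (show g ∈ {g' | g' ∈ {g | g ∈ BrR N N' ∧ η * L ≤ (g.length : ℝ) + c0} ∧
        RT D LFold t g'} from ⟨⟨hg.1, h2⟩, hg.2⟩)]
    · rw [if_neg h2, mul_zero]
      exact zero_le
  · rw [if_neg hg]
    exact zero_le

/-- a contraction for the constants of a family -/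
lemma fam_fix {ι : Type*} {k : ℕ} {x X0 : ℝ≥0∞} {Φ : ι → List Bool → ℝ≥0∞} {w : ι → ℝ≥0∞} (hw : ∀ i, w i ≠ ⊤)
    (hX : X0 ≠ ⊤) (h0 : ∀ i, Dom k (X0 * w i) (Φ i))
    (h : ∀ y, (∀ i, Dom k (y * w i) (Φ i)) → ∀ i, Dom k ((x + ENNReal.ofReal (1 / 2) * y) * w i) (Φ i)) :
    ∀ i, Dom k (2 * x * w i) (Φ i) := by
  have hh : ENNReal.ofReal (1 / 2) * 2 = 1 := by
    rw [← ENNReal.ofReal_ofNat 2, ← ENNReal.ofReal_mul (by norm_num)]
    norm_num
  have h1 : ∀ n : ℕ, ∀ i, Dom k ((2 * x + ENNReal.ofReal (1 / 2) ^ n * X0) * w i) (Φ i) := by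
    intro n
    induction n with
    | zero =>
      intro i
      rw [pow_zero, one_mul]
      refine (h0 i).mono ?_
      gcongr
      exact le_add_self
    | succ n ih =>
      intro i
      refine (h _ ih i).mono (le_of_eq ?_)
      congr 1
      rw [mul_add, ← mul_assoc, hh, one_mul, ← mul_assoc, ← pow_succ', two_mul, add_assoc]
  intro i
  refine ⟨(h0 i).her, fun r P hP => ?_⟩
  have hS := HD.SS_ne_top k P
  have ht : Filter.Tendsto (fun n : ℕ => (2 * x + ENNReal.ofReal (1 / 2) ^ n * X0) * (w i * SS k P)) Filter.atTop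
      (nhds ((2 * x + 0 * X0) * (w i * SS k P))) := by
    refine ENNReal.Tendsto.mul_const (Filter.Tendsto.add tendsto_const_nhds ?_) (Or.inr (ENNReal.mul_ne_top (hw i) hS))
    refine ENNReal.Tendsto.mul_const (ENNReal.tendsto_pow_atTop_nhds_zero_of_lt_one ?_) (Or.inr hX)
    rw [← ENNReal.ofReal_one]
    exact (ENNReal.ofReal_lt_ofReal_iff one_pos).2 (by norm_num)
  rw [zero_mul, add_zero] at ht
  rw [mul_assoc]
  refine ge_of_tendsto' ht fun n => ?_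
  rw [← mul_assoc]
  exact (h1 n i).bd r P hP

end HF

end NTA

end HexObs
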