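import Pool.Agent.NTA.HeadNum
import Pool.Agent.TightS.Recur
import Pool.Agent.PHW.Cuts
import Pool.Agent.PHW.JumpV

/-!
NTA: bridges whose part below (above) a cut level near the foot (the top) is long.
-/

set_option autoImplicit false

namespace HexObs

namespace NTA

open Finset TS SDN

open scoped ENNReal

/-- a prefix bridge of height at most L with at least x letters -/
def PreL (L : ℕ) (x : ℝ) : Set (List Bool) :=
  {Z | ∃ W V, W ∈ BU ∧ V ∈ BU ∧ Z = W ++ V ∧ hgt W ≤ L ∧ x ≤ (W.length : ℝ)}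

/-- a suffix bridge of height at most L with at least x letters -/
def SufL (L : ℕ) (x : ℝ) : Set (List Bool) :=
  {Z | ∃ V W, V ∈ BU ∧ W ∈ BU ∧ Z = V ++ W ∧ hgt W ≤ L ∧ x ≤ (W.length : ℝ)}

namespace HeadAux

/-- weight of the long bridges of height h -/
noncomputable def gL (x : ℝ) (h : ℕ) : ℝ≥0∞ := gf {Z | Z ∈ Brd h ∧ x ≤ (Z.length : ℝ)}

lemma TL_eq (L : ℕ) (x : ℝ) : NTm.TL L x = ∑ h ∈ Finset.range (L + 1), gL x h := rfl

lemma gL_le (x : ℝ) (h : ℕ) : gL x h ≤ BT h := by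
  rw [← gf_Brd]
  exact gf_mono fun t ht => ht.1

lemma gL_ne_top (x : ℝ) (h : ℕ) : gL x h ≠ ⊤ := by
  refine ne_top_of_le_ne_top ?_ (gL_le x h)
  rw [BT_eq_uu]
  exact ENNReal.ofReal_ne_top

/-- a piece without cuts inside and a bridge: prefixes -/
lemma pref_irr {r c b b' : ℕ} {p u v w : List Bool} (hp : p ∈ Irr r) (hv : v ∈ Brd c)
    (hu : u ∈ Brd b) (hw : w ∈ Brd b') (hc : c < r) (h : v ++ w = p ++ u) : v = [] := by
  obtain ⟨x, hx, h1, h2⟩ := cut_nested hv hp.1 hw hu hc.le h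
  rcases hp.2.2 _ _ _ _ hv hx h1 with h3 | h3
  · exact h3
  · exfalso
    rw [h3] at hx
    have := Brd_height hx nil_mem_Brd
    omega

lemma Pre_dec {L h : ℕ} {x : ℝ} (hL : L < h) {Z : List Bool} (hZ : Z ∈ Brd h) (hZ2 : Z ∈ PreL L x) :
    ∃ j r a p u, j ≤ L ∧ L < j + r ∧ j + r ≤ h ∧ a ∈ Brd j ∧ x ≤ (a.length : ℝ) ∧ p ∈ Irr r ∧
      u ∈ Brd (h - j - r) ∧ Z = a ++ (p ++ u) := by
  obtain ⟨W, V, ⟨w, hW⟩, ⟨v, hV⟩, hWV, hwL, hx⟩ := hZ2
  rw [hgt_eq hW] at hwL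
  obtain ⟨j, r, a, p, u, h1, h2, h3, ha, hp, hu, he⟩ := jump_dec hL hZ
  rw [List.append_assoc] at he
  refine ⟨j, r, a, p, u, h1, h2, h3, ha, ?_, hp, hu, he⟩
  have hpu : p ++ u ∈ Brd (r + (h - j - r)) := Brd_append hp.1 hu
  have key : W.length ≤ a.length := by
    rcases Nat.le_total w j with hwj | hwj
    · obtain ⟨y, hy, h5, h6⟩ := cut_nested hW ha hV hpu hwj (hWV ▸ he)
      rw [h5, List.length_append]
      omega
    · obtain ⟨y, hy, h5, h6⟩ := cut_nested ha hW hpu hV hwj ((hWV ▸ he).symm)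
      have hy0 : y = [] := pref_irr hp hy hu hV (by omega) h6.symm
      rw [h5, hy0, List.append_nil]
  have : (W.length : ℝ) ≤ a.length := by exact_mod_cast key
  linarith

lemma Suf_dec {L h : ℕ} {x : ℝ} (hL : L < h) {Z : List Bool} (hZ : Z ∈ Brd h) (hZ2 : Z ∈ SufL L x) :
    ∃ j r u p a, j ≤ L ∧ L < j + r ∧ j + r ≤ h ∧ a ∈ Brd j ∧ x ≤ (a.length : ℝ) ∧ p ∈ Irr r ∧
      u ∈ Brd (h - j - r) ∧ Z = u ++ (p ++ a) := by
  obtain ⟨V, W, ⟨v, hV⟩, ⟨w, hW⟩, hWV, hwL, hx⟩ := hZ2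
  rw [hgt_eq hW] at hwL
  have hvw : v + w = h := Brd_height (Brd_append hV hW) (hWV ▸ hZ)
  obtain ⟨j, r, a, p, u, h1, h2, h3, ha, hp, hu, he⟩ := jump_dec (s := h - L - 1) (n := h) (by omega) hZ
  rw [List.append_assoc] at he
  refine ⟨h - j - r, r, a, p, u, by omega, by omega, by omega, hu, ?_, hp, ?_, he⟩
  · have hpu : p ++ u ∈ Brd (r + (h - j - r)) := Brd_append hp.1 hu
    obtain ⟨y, hy, h5, h6⟩ := cut_nested ha hV hpu hW (by omega) ((hWV ▸ he).symm)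
    -- p ++ u = y ++ W, y of height v - j > 0
    have hap : a ++ p ∈ Brd (j + r) := Brd_append ha hp.1
    have key : W.length ≤ u.length := by
      rcases Nat.le_total (j + r) v with hjv | hjv
      · obtain ⟨y', hy', h7, h8⟩ := cut_nested hap hV hu hW hjv (by
          rw [List.append_assoc, ← he, hWV])
        rw [h8, List.length_append]
        omega
      · rcases Nat.lt_or_ge v (j + r) with hlt | hge
        · exfalso
          have hy0 : y = [] := pref_irr hp hy hu hW (by omega) h6.symm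
          rw [hy0] at hy
          have := Brd_height hy nil_mem_Brd
          omega
        · obtain ⟨y', hy', h7, h8⟩ := cut_nested hap hV hu hW hge (by
            rw [List.append_assoc, ← he, hWV])
          rw [h8, List.length_append]
          omega
    have : (W.length : ℝ) ≤ u.length := by exact_mod_cast key
    linarith
  · have e : h - (h - j - r) - r = j := by omega
    rw [e]
    exact ha

/-- the sum over the position of the piece over the level -/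
lemma gf_dec {L h : ℕ} {x : ℝ} (hL : L < h) {S : Set (List Bool)}
    (hS : ∀ Z ∈ S, ∃ j r, j ≤ L ∧ L < j + r ∧ j + r ≤ h ∧ ∃ a b c : List Bool, Z = a ++ (b ++ c) ∧
      ((a ∈ Brd j ∧ x ≤ (a.length : ℝ) ∧ b ∈ Irr r ∧ c ∈ Brd (h - j - r)) ∨
       (c ∈ Brd j ∧ x ≤ (c.length : ℝ) ∧ b ∈ Irr r ∧ a ∈ Brd (h - j - r)))) :
    gf S ≤ 2 * ∑ j ∈ range (L + 1), ∑ r ∈ Ico (L + 1 - j) (h + 1 - j), gL x j * (kap' r * BT (h - j - r)) := by
  classical
  set T1 : ℕ → ℕ → Set (List Bool) := fun j r => {Z | ∃ a b c, Z = a ++ (b ++ c) ∧ a ∈ Brd j ∧ x ≤ (a.length : ℝ) ∧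
    b ∈ Irr r ∧ c ∈ Brd (h - j - r)} with hT1
  set T2 : ℕ → ℕ → Set (List Bool) := fun j r => {Z | ∃ a b c, Z = a ++ (b ++ c) ∧ c ∈ Brd j ∧ x ≤ (c.length : ℝ) ∧
    b ∈ Irr r ∧ a ∈ Brd (h - j - r)} with hT2
  have hsub : S ⊆ ⋃ j ∈ range (L + 1), ⋃ r ∈ Ico (L + 1 - j) (h + 1 - j), (T1 j r ∪ T2 j r) := by
    intro Z hZ
    obtain ⟨j, r, h1, h2, h3, a, b, c, he, h4⟩ := hS Z hZ
    simp only [Set.mem_iUnion]
    refine ⟨j, by rw [Finset.mem_range]; omega, r, by rw [Finset.mem_Ico]; omega, ?_⟩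
    rcases h4 with ⟨h5, h6, h7, h8⟩ | ⟨h5, h6, h7, h8⟩
    · exact Or.inl ⟨a, b, c, he, h5, h6, h7, h8⟩
    · exact Or.inr ⟨a, b, c, he, h5, h6, h7, h8⟩
  refine (gf_mono hsub).trans ((JumpVaux.gf_biUnion_le _ _).trans ?_)
  rw [Finset.mul_sum]
  refine Finset.sum_le_sum fun j _ => ?_
  refine (JumpVaux.gf_biUnion_le _ _).trans ?_
  rw [Finset.mul_sum]
  refine Finset.sum_le_sum fun r _ => ?_
  refine (gf_union_le _ _).trans ?_
  rw [two_mul]
  have hbc : ∀ A B : Set (List Bool), gf {z | ∃ a ∈ A, ∃ b ∈ B, z = a ++ b} ≤ gf A * gf B := fun A B =>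
    gf_le_mul fun t ht => ht
  refine add_le_add ?_ ?_
  · have h1 : gf (T1 j r) ≤ gf {Z | Z ∈ Brd j ∧ x ≤ (Z.length : ℝ)} *
        gf {z | ∃ b ∈ Irr r, ∃ c ∈ Brd (h - j - r), z = b ++ c} := by
      refine gf_le_mul fun t ht => ?_
      obtain ⟨a, b, c, he, h5, h6, h7, h8⟩ := ht
      exact ⟨a, ⟨h5, h6⟩, b ++ c, ⟨b, h7, c, h8, rfl⟩, he⟩
    refine h1.trans (mul_le_mul' le_rfl ((hbc _ _).trans ?_))
    rw [gf_Brd]
    exact le_rfl
  · have h1 : gf (T2 j r) ≤ gf {z | ∃ a ∈ Brd (h - j - r), ∃ b ∈ Irr r, z = a ++ b} *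
        gf {Z | Z ∈ Brd j ∧ x ≤ (Z.length : ℝ)} := by
      refine gf_le_mul fun t ht => ?_
      obtain ⟨a, b, c, he, h5, h6, h7, h8⟩ := ht
      exact ⟨a ++ b, ⟨a, h8, b, h7, rfl⟩, c, ⟨h5, h6⟩, by rw [he, List.append_assoc]⟩
    refine h1.trans ?_
    calc gf {z | ∃ a ∈ Brd (h - j - r), ∃ b ∈ Irr r, z = a ++ b} * gf {Z | Z ∈ Brd j ∧ x ≤ (Z.length : ℝ)}
        ≤ (gf (Brd (h - j - r)) * gf (Irr r)) * gL x j := mul_le_mul' (hbc _ _) le_rfl
      _ = gL x j * (kap' r * BT (h - j - r)) := by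
        rw [gf_Brd]
        unfold kap'
        ring

/-- the sum over the heights -/
lemma sum_dec {L N : ℕ} (x : ℝ) :
    ∑ h ∈ Ico (L + 1) (N + 1), ∑ j ∈ range (L + 1), ∑ r ∈ Ico (L + 1 - j) (h + 1 - j),
      gL x j * (kap' r * BT (h - j - r)) ≤
    ENNReal.ofReal (∑ j ∈ range (L + 1), (gL x j).toReal * KK' (L + 1 - j)) * ENNReal.ofReal (UU N) := by
  rw [Finset.sum_comm, ENNReal.ofReal_sum_of_nonneg (fun j _ => mul_nonneg ENNReal.toReal_nonneg (KK_nonneg _)),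
    Finset.sum_mul]
  refine Finset.sum_le_sum fun j hj => ?_
  rw [Finset.mem_range] at hj
  rw [ENNReal.ofReal_mul ENNReal.toReal_nonneg, ENNReal.ofReal_toReal (gL_ne_top x j), mul_assoc]
  simp only [← Finset.mul_sum]
  refine mul_le_mul' le_rfl ?_
  -- extend the range of r
  have h1 : ∀ h ∈ Ico (L + 1) (N + 1), ∑ r ∈ Ico (L + 1 - j) (h + 1 - j), kap' r * BT (h - j - r) ≤
      ∑ r ∈ Ico (L + 1 - j) (N + 1), kap' r * (if j + r ≤ h then BT (h - j - r) else 0) := by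
    intro h hh
    rw [Finset.mem_Ico] at hh
    have e : ∑ r ∈ Ico (L + 1 - j) (h + 1 - j), kap' r * BT (h - j - r) =
        ∑ r ∈ Ico (L + 1 - j) (h + 1 - j), kap' r * (if j + r ≤ h then BT (h - j - r) else 0) := by
      refine Finset.sum_congr rfl fun r hr => ?_
      rw [Finset.mem_Ico] at hr
      rw [if_pos (by omega)]
    rw [e]
    refine Finset.sum_le_sum_of_subset fun r hr => ?_
    rw [Finset.mem_Ico] at hr ⊢
    omega
  refine (Finset.sum_le_sum h1).trans ?_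
  rw [Finset.sum_comm]
  have h2 : ∀ r ∈ Ico (L + 1 - j) (N + 1), ∑ h ∈ Ico (L + 1) (N + 1),
      kap' r * (if j + r ≤ h then BT (h - j - r) else 0) ≤ kap' r * ENNReal.ofReal (UU N) := by
    intro r _
    rw [← Finset.mul_sum]
    refine mul_le_mul' le_rfl ?_
    rw [T2.Amp.ofReal_UU, ← Finset.sum_filter]
    have h3 : ∑ h ∈ (Ico (L + 1) (N + 1)).filter (fun h => j + r ≤ h), BT (h - j - r) =
        ∑ i ∈ ((Ico (L + 1) (N + 1)).filter (fun h => j + r ≤ h)).image (fun h => h - j - r), BT i := by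
      rw [Finset.sum_image]
      intro a ha b hb hab
      rw [Finset.mem_coe, Finset.mem_filter] at ha hb
      simp only at hab
      omega
    rw [h3]
    refine Finset.sum_le_sum_of_subset fun i hi => ?_
    rw [Finset.mem_image] at hi
    obtain ⟨h, hh, rfl⟩ := hi
    rw [Finset.mem_filter, Finset.mem_Ico] at hh
    rw [Finset.mem_range]
    omega
  refine (Finset.sum_le_sum h2).trans ?_
  rw [← Finset.sum_mul]
  refine mul_le_mul' ?_ le_rfl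
  have h4 := sum_kap_gt (L - j) (N + 1)
  have e : L - j + 1 = L + 1 - j := by omega
  rw [e] at h4
  exact h4

theorem main_ez : ∃ C : ℝ, 1 ≤ C ∧ ∀ (N L : ℕ) (x q : ℝ) (S : ℕ → Set (List Bool)), L ≤ N → 0 < q → q ≤ 1 →
    NTm.TL L x ≤ ENNReal.ofReal (q * UU L) → (∀ h, h ≤ L → gf (S h) ≤ gL x h) →
    (∀ h, L < h → gf (S h) ≤ 2 * ∑ j ∈ range (L + 1), ∑ r ∈ Ico (L + 1 - j) (h + 1 - j),
      gL x j * (kap' r * BT (h - j - r))) → (∀ h, N < h → gf (S h) = 0) →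
    ∑' h : ℕ, gf (S h) ≤ ENNReal.ofReal (C * q ^ (1 / 4 : ℝ) * UU N) := by
  obtain ⟨C, hC, hmain⟩ := head_real
  refine ⟨1 + 2 * C, by linarith, fun N L x q S hLN hq0 hq1 hT h1 h2 h3 => ?_⟩
  have hUN := Num2Aux.UU_pos N
  have hq4 : 0 ≤ q ^ (1 / 4 : ℝ) := Real.rpow_nonneg hq0.le _
  have e0 : ∑' h : ℕ, gf (S h) = ∑ h ∈ range (N + 1), gf (S h) := by
    refine tsum_eq_sum fun h hh => h3 h ?_
    rw [Finset.mem_range] at hh
    omega
  have e1 : range (N + 1) = range (L + 1) ∪ Ico (L + 1) (N + 1) := by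
    ext y
    simp only [Finset.mem_union, Finset.mem_range, Finset.mem_Ico]
    omega
  have d1 : Disjoint (range (L + 1)) (Ico (L + 1) (N + 1)) := by
    rw [Finset.disjoint_left]
    intro y hy hy2
    rw [Finset.mem_range] at hy
    rw [Finset.mem_Ico] at hy2
    omega
  rw [e0, e1, Finset.sum_union d1]
  have hA : ∑ h ∈ range (L + 1), gf (S h) ≤ ENNReal.ofReal (q ^ (1 / 4 : ℝ) * UU N) := by
    refine (Finset.sum_le_sum fun h hh => h1 h (by rw [Finset.mem_range] at hh; omega)).trans ?_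
    rw [← TL_eq]
    refine hT.trans (ENNReal.ofReal_le_ofReal ?_)
    have h4 : q ≤ q ^ (1 / 4 : ℝ) := by
      calc q = q ^ (1 : ℝ) := (Real.rpow_one q).symm
        _ ≤ q ^ (1 / 4 : ℝ) := Real.rpow_le_rpow_of_exponent_ge hq0 hq1 (by norm_num)
    exact mul_le_mul h4 (Num2Aux.UU_mono hLN) (Num2Aux.UU_pos L).le hq4
  have hB : ∑ h ∈ Ico (L + 1) (N + 1), gf (S h) ≤ ENNReal.ofReal (2 * C * q ^ (1 / 4 : ℝ) * UU N) := by
    refine (Finset.sum_le_sum fun h hh => h2 h (by rw [Finset.mem_Ico] at hh; omega)).trans ?_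
    rw [← Finset.mul_sum]
    refine (mul_le_mul' le_rfl (sum_dec x)).trans ?_
    rw [← ENNReal.ofReal_mul (Finset.sum_nonneg fun j _ => mul_nonneg ENNReal.toReal_nonneg (KK_nonneg _)),
      show (2 : ℝ≥0∞) = ENNReal.ofReal 2 by simp, ← ENNReal.ofReal_mul (by norm_num)]
    refine ENNReal.ofReal_le_ofReal ?_
    have h5 := hmain L (fun j => (gL x j).toReal) q hq0 hq1 (fun h _ => ENNReal.toReal_nonneg)
      (fun h _ => by
        have h6 := gL_le x h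
        rw [BT_eq_uu] at h6
        calc (gL x h).toReal ≤ (ENNReal.ofReal (uu h)).toReal := ENNReal.toReal_mono ENNReal.ofReal_ne_top h6
          _ = uu h := ENNReal.toReal_ofReal (uu_pos h).le)
      (by
        rw [← ENNReal.toReal_sum (fun j _ => gL_ne_top x j), ← TL_eq]
        calc (NTm.TL L x).toReal ≤ (ENNReal.ofReal (q * UU L)).toReal :=
              ENNReal.toReal_mono ENNReal.ofReal_ne_top hT
          _ = _ := ENNReal.toReal_ofReal (mul_nonneg hq0.le (Num2Aux.UU_pos L).le))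
    calc 2 * ((∑ j ∈ range (L + 1), (gL x j).toReal * KK' (L + 1 - j)) * UU N) ≤
        2 * ((C * q ^ (1 / 4 : ℝ)) * UU N) := by
          refine mul_le_mul_of_nonneg_left (mul_le_mul_of_nonneg_right h5 hUN.le) (by norm_num)
      _ = _ := by ring
  refine (add_le_add hA hB).trans ?_
  rw [← ENNReal.ofReal_add (by positivity) (by positivity)]
  refine ENNReal.ofReal_le_ofReal (le_of_eq ?_)
  ring

end HeadAux

open HeadAux

theorem head_ez : ∃ C : ℝ, 1 ≤ C ∧ ∀ (N L : ℕ) (x q : ℝ), L ≤ N → 0 < q → q ≤ 1 →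
    NTm.TL L x ≤ ENNReal.ofReal (q * UU L) →
    ∑' h : ℕ, gf {Z | Z ∈ Brd h ∧ h ≤ N ∧ Z ∈ PreL L x} ≤ ENNReal.ofReal (C * q ^ (1 / 4 : ℝ) * UU N) := by
  obtain ⟨C, hC, h⟩ := main_ez
  refine ⟨C, hC, fun N L x q hLN hq0 hq1 hT => h N L x q _ hLN hq0 hq1 hT ?_ ?_ ?_⟩
  · intro h _
    refine gf_mono fun Z hZ => ⟨hZ.1, ?_⟩
    obtain ⟨W, V, -, -, he, -, hx⟩ := hZ.2.2
    rw [he, List.length_append, Nat.cast_add]
    have : (0 : ℝ) ≤ V.length := Nat.cast_nonneg _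
    linarith
  · intro h hh
    refine gf_dec hh fun Z hZ => ?_
    obtain ⟨j, r, a, p, u, h1, h2, h3, h4, h5, h6, h7, h8⟩ := Pre_dec hh hZ.1 hZ.2.2
    exact ⟨j, r, h1, h2, h3, a, p, u, h8, Or.inl ⟨h4, h5, h6, h7⟩⟩
  · intro h hh
    have e : {Z | Z ∈ Brd h ∧ h ≤ N ∧ Z ∈ PreL L x} = ∅ := by
      rw [Set.eq_empty_iff_forall_notMem]
      rintro Z ⟨-, h2, -⟩
      omega
    rw [e]
    unfold gf
    simp

theorem tail_ez : ∃ C : ℝ, 1 ≤ C ∧ ∀ (N L : ℕ) (x q : ℝ), L ≤ N → 0 < q → q ≤ 1 →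
    NTm.TL L x ≤ ENNReal.ofReal (q * UU L) →
    ∑' h : ℕ, gf {Z | Z ∈ Brd h ∧ h ≤ N ∧ Z ∈ SufL L x} ≤ ENNReal.ofReal (C * q ^ (1 / 4 : ℝ) * UU N) := by
  obtain ⟨C, hC, h⟩ := main_ez
  refine ⟨C, hC, fun N L x q hLN hq0 hq1 hT => h N L x q _ hLN hq0 hq1 hT ?_ ?_ ?_⟩
  · intro h _
    refine gf_mono fun Z hZ => ⟨hZ.1, ?_⟩
    obtain ⟨V, W, -, -, he, -, hx⟩ := hZ.2.2
    rw [he, List.length_append, Nat.cast_add]
    have : (0 : ℝ) ≤ V.length := Nat.cast_nonneg _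
    linarith
  · intro h hh
    refine gf_dec hh fun Z hZ => ?_
    obtain ⟨j, r, u, p, a, h1, h2, h3, h4, h5, h6, h7, h8⟩ := Suf_dec hh hZ.1 hZ.2.2
    exact ⟨j, r, h1, h2, h3, u, p, a, h8, Or.inr ⟨h4, h5, h6, h7⟩⟩
  · intro h hh
    have e : {Z | Z ∈ Brd h ∧ h ≤ N ∧ Z ∈ SufL L x} = ∅ := by
      rw [Set.eq_empty_iff_forall_notMem]
      rintro Z ⟨-, h2, -⟩
      omega
    rw [e]
    unfold gf
    simp

end NTA

end HexObs
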