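import Pool.Agent.NT.Quant
import Pool.Agent.T2.LongQ
import Pool.Agent.PHW.AvgV0
import Pool.Agent.PHW.ViaE

/-!
NTA: the renewal inequality behind HeadEZ (numbers): the last cut below the level L carries a class of small weight.
-/

set_option autoImplicit false

namespace HexObs

namespace NTA

open Finset

namespace HeadAux

/-- fourth root -/
noncomputable def rt (x : ℝ) : ℝ := x ^ (1 / 4 : ℝ)

lemma rt_nonneg {x : ℝ} (hx : 0 ≤ x) : 0 ≤ rt x := Real.rpow_nonneg hx _

lemma rt_pow {x : ℝ} (hx : 0 ≤ x) : rt x ^ 4 = x := by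
  unfold rt
  rw [← Real.rpow_natCast, ← Real.rpow_mul hx]
  norm_num

lemma rt_pow3 {x : ℝ} (hx : 0 ≤ x) : rt x ^ 3 = x ^ (3 / 4 : ℝ) := by
  unfold rt
  rw [← Real.rpow_natCast, ← Real.rpow_mul hx]
  norm_num

lemma rt_inv {x : ℝ} (hx : 0 ≤ x) : (rt x)⁻¹ = x ^ (-(1 / 4) : ℝ) := by
  unfold rt
  rw [Real.rpow_neg hx]

lemma rt_le {x y : ℝ} (hx : 0 ≤ x) (h : x ≤ y) : rt x ≤ rt y := Real.rpow_le_rpow hx h (by norm_num)

lemma rt_pos {x : ℝ} (hx : 0 < x) : 0 < rt x := Real.rpow_pos_of_pos hx _

lemma rt_of_pow {x : ℝ} (hx : 0 ≤ x) : rt (x ^ 4) = x := by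
  unfold rt
  rw [← Real.rpow_natCast, ← Real.rpow_mul hx]
  norm_num

/-- constants -/
lemma consts : ∃ c C : ℝ, 0 < c ∧ 1 ≤ C ∧ (∀ n : ℕ, 1 ≤ n → uu n ≤ C * (rt n)⁻¹) ∧
    (∀ n : ℕ, 1 ≤ n → c * rt n ^ 3 ≤ UU n) ∧ (∀ n : ℕ, 1 ≤ n → UU n ≤ C * rt n ^ 3) ∧
    (∀ M : ℕ, 1 ≤ M → ∑ n ∈ range M, KK' (n + 1) ≤ C * rt M) := by
  obtain ⟨C1, hC1, h1⟩ := T2.uu_le_quarter
  obtain ⟨c2, hc2, h2⟩ := T2.bT_quarter
  obtain ⟨C3, hC3, h3⟩ := sum_KK
  have hW : 0 < 6 + CW := by
    have := Num2Aux.CW_pos
    linarith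
  have e : ∀ n : ℕ, 1 ≤ n → (n : ℝ) * (rt n)⁻¹ = rt n ^ 3 := by
    intro n hn
    have hn0 : (0 : ℝ) < n := by exact_mod_cast hn
    have h4 := rt_pow hn0.le
    have h5 := rt_pos hn0
    rw [mul_inv_eq_iff_eq_mul₀ h5.ne']
    nlinarith
  have hlow : ∀ n : ℕ, 1 ≤ n → c2 * rt n ^ 3 ≤ UU n := by
    intro n hn
    have hn0 : (0 : ℝ) < n := by exact_mod_cast hn
    have h5 := h2 n hn
    rw [← rt_inv hn0.le] at h5
    have h6 := Num2Aux.mul_le_UU n
    have h7 : c2 * (rt n)⁻¹ ≤ uu n := h5
    calc c2 * rt n ^ 3 = n * (c2 * (rt n)⁻¹) := by rw [← e n hn]; ring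
      _ ≤ n * uu n := mul_le_mul_of_nonneg_left h7 hn0.le
      _ ≤ UU n := h6
  refine ⟨c2, max (max 1 C1) (max ((6 + CW) * C1) (C3 / c2)), hc2,
    le_trans (le_max_left _ _) (le_max_left _ _), fun n hn => ?_, hlow, fun n hn => ?_, fun M hM => ?_⟩
  · have hn0 : (0 : ℝ) < n := by exact_mod_cast hn
    have h5 := h1 n hn
    rw [show (-(1 / 4 : ℝ)) = (-(1 / 4) : ℝ) from rfl, ← rt_inv hn0.le] at h5
    refine h5.trans (mul_le_mul_of_nonneg_right ?_ (inv_nonneg.2 (rt_nonneg hn0.le)))
    exact le_trans (le_max_right _ _) (le_max_left _ _)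
  · have hn0 : (0 : ℝ) < n := by exact_mod_cast hn
    have h5 := h1 n hn
    rw [show (-(1 / 4 : ℝ)) = (-(1 / 4) : ℝ) from rfl, ← rt_inv hn0.le] at h5
    have h6 := UU_le_mul hn
    calc UU n ≤ (6 + CW) * (n * uu n) := h6
      _ ≤ (6 + CW) * (n * (C1 * (rt n)⁻¹)) :=
          mul_le_mul_of_nonneg_left (mul_le_mul_of_nonneg_left h5 hn0.le) hW.le
      _ = (6 + CW) * C1 * rt n ^ 3 := by rw [← e n hn]; ring
      _ ≤ _ := by
        refine mul_le_mul_of_nonneg_right ?_ (pow_nonneg (rt_nonneg hn0.le) 3)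
        exact le_trans (le_max_left _ _) (le_max_right _ _)
  · have hn0 : (0 : ℝ) < M := by exact_mod_cast hM
    have h5 := h3 M hM
    have h6 := hlow M hM
    have h7 := rt_pos hn0
    have h8 : (M : ℝ) / UU M ≤ rt M / c2 := by
      rw [div_le_div_iff₀ (lt_of_lt_of_le (by positivity) h6) hc2]
      have h9 := rt_pow hn0.le
      calc (M : ℝ) * c2 = rt M * (c2 * rt M ^ 3) := by rw [← h9]; rw [h9]; nlinarith
        _ ≤ rt M * UU M := mul_le_mul_of_nonneg_left h6 h7.le
    calc ∑ n ∈ range M, KK' (n + 1) ≤ C3 * (M / UU M) := h5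
      _ ≤ C3 * (rt M / c2) := mul_le_mul_of_nonneg_left h8 hC3.le
      _ = C3 / c2 * rt M := by ring
      _ ≤ _ := by
        refine mul_le_mul_of_nonneg_right ?_ h7.le
        exact le_trans (le_max_right _ _) (le_max_right _ _)

/-- the renewal inequality -/
theorem head_real : ∃ C : ℝ, 1 ≤ C ∧ ∀ (L : ℕ) (f : ℕ → ℝ) (q : ℝ), 0 < q → q ≤ 1 →
    (∀ h, h ≤ L → 0 ≤ f h) → (∀ h, h ≤ L → f h ≤ uu h) → ∑ h ∈ range (L + 1), f h ≤ q * UU L →
    ∑ h ∈ range (L + 1), f h * KK' (L + 1 - h) ≤ C * q ^ (1 / 4 : ℝ) := by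
  obtain ⟨c, C, hc, hC, hu, hl, hU, hK⟩ := consts
  have hC0 : 0 < C := by linarith
  refine ⟨2 + 2 * C + 4 * C * C + 8 * (C / c), by
    have : 0 < C / c := by positivity
    nlinarith, fun L f q hq0 hq1 hf0 hfu hfs => ?_⟩
  have hcc : 0 < C / c := by positivity
  set t : ℝ := rt q with ht
  have ht0 : 0 < t := rt_pos hq0
  have ht4 : t ^ 4 = q := rt_pow hq0.le
  have ht1 : t ≤ 1 := by
    by_contra h
    push Not at h
    have : 1 < t ^ 4 := one_lt_pow₀ h (by norm_num)
    linarith
  have hqt : q ≤ t := by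
    rw [← ht4]
    calc t ^ 4 ≤ t ^ 1 := pow_le_pow_of_le_one ht0.le ht1 (by norm_num)
      _ = t := pow_one t
  change _ ≤ _ * t
  rcases lt_or_ge (1 / 2) q with hq2 | hq2
  · -- large q
    have h1 : ∑ h ∈ range (L + 1), f h * KK' (L + 1 - h) ≤ 1 := by
      rw [← KK_renewal L]
      refine Finset.sum_le_sum fun h hh => ?_
      rw [Finset.mem_range] at hh
      exact mul_le_mul_of_nonneg_right (hfu h (by omega)) (KK_nonneg _)
    have h2 : 1 ≤ 2 * t := by linarith
    have h3 : 0 ≤ (2 * C + 4 * C * C + 8 * (C / c)) * t := by positivity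
    nlinarith
  · have hsum1 : ∑ h ∈ range (L + 1), f h * KK' (L + 1 - h) ≤ ∑ h ∈ range (L + 1), f h := by
      refine Finset.sum_le_sum fun h hh => ?_
      rw [Finset.mem_range] at hh
      calc f h * KK' (L + 1 - h) ≤ f h * 1 := mul_le_mul_of_nonneg_left (KK_le_one _) (hf0 h (by omega))
        _ = f h := mul_one _
    rcases lt_or_ge (q * L) 1 with hqL | hqL
    · -- small L
      have h1 : UU L ≤ C * rt ((L : ℝ) + 1) ^ 3 := by
        rcases Nat.eq_zero_or_pos L with h0 | h0
        · subst h0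
          have : UU 0 = 1 := by
            unfold UU
            rw [Finset.sum_range_one, uu_zero]
          rw [this]
          have h5 : rt (((0 : ℕ) : ℝ) + 1) = 1 := by unfold rt; norm_num
          rw [h5]
          linarith
        · refine (hU L h0).trans (mul_le_mul_of_nonneg_left ?_ hC0.le)
          have : (0 : ℝ) ≤ L := Nat.cast_nonneg L
          exact pow_le_pow_left₀ (rt_nonneg this) (rt_le this (by linarith)) 3
      have h2 : rt ((L : ℝ) + 1) * t ≤ 2 := by
        have h3 : ((L : ℝ) + 1) * q ≤ 2 := by nlinarith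
        have hL0 : (0 : ℝ) ≤ (L : ℝ) + 1 := by positivity
        by_contra h
        push Not at h
        have h4 : (2 : ℝ) ^ 4 < (rt ((L : ℝ) + 1) * t) ^ 4 := pow_lt_pow_left₀ h (by norm_num) (by norm_num)
        rw [mul_pow, rt_pow hL0, ht4] at h4
        linarith
      have h2' : (rt ((L : ℝ) + 1) * t) ^ 3 ≤ 2 := by
        have h3 : ((L : ℝ) + 1) * q ≤ 2 := by nlinarith
        have hL0 : (0 : ℝ) ≤ (L : ℝ) + 1 := by positivity
        have h5 : 0 ≤ rt ((L : ℝ) + 1) * t := mul_nonneg (rt_nonneg hL0) ht0.le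
        rcases le_or_gt (rt ((L : ℝ) + 1) * t) 1 with h6 | h6
        · exact (pow_le_one₀ h5 h6).trans (by norm_num)
        · calc (rt ((L : ℝ) + 1) * t) ^ 3 ≤ (rt ((L : ℝ) + 1) * t) ^ 4 := pow_le_pow_right₀ h6.le (by norm_num)
            _ = ((L : ℝ) + 1) * q := by rw [mul_pow, rt_pow hL0, ht4]
            _ ≤ 2 := h3
      have h3 : q * UU L ≤ 2 * C * t := by
        calc q * UU L ≤ q * (C * rt ((L : ℝ) + 1) ^ 3) := mul_le_mul_of_nonneg_left h1 hq0.le
          _ = C * t * (rt ((L : ℝ) + 1) * t) ^ 3 := by rw [← ht4]; ring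
          _ ≤ C * t * 2 := mul_le_mul_of_nonneg_left h2' (by positivity)
          _ = _ := by ring
      have h4 : 0 ≤ (2 + 4 * C * C + 8 * (C / c)) * t := by positivity
      nlinarith
    · -- main case
      have hL0 : (0 : ℝ) < L := by
        by_contra h
        push Not at h
        nlinarith
      have hL1 : 1 ≤ L := by
        have : 0 < L := by exact_mod_cast hL0
        omega
      set l : ℝ := rt L with hl'
      have hl0 : 0 < l := rt_pos hL0
      have hl4 : l ^ 4 = L := rt_pow hL0.le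
      set R : ℕ := ⌊q * L⌋₊ with hR
      have hR1 : 1 ≤ R := Nat.le_floor (by simpa using hqL)
      have hRle : (R : ℝ) ≤ q * L := Nat.floor_le (by positivity)
      have hRlt : q * L < R + 1 := Nat.lt_floor_add_one _
      have hR0 : (0 : ℝ) < R := by exact_mod_cast hR1
      have hR1' : (1 : ℝ) ≤ R := by exact_mod_cast hR1
      have hRL : 2 * R ≤ L := by
        have : (2 * R : ℝ) ≤ L := by nlinarith
        exact_mod_cast this
      -- first part
      have hA : ∑ s ∈ range (R + 1), uu (L - s) * KK' (s + 1) ≤ 4 * C * C * t := by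
        have h1 : ∀ s ∈ range (R + 1), uu (L - s) * KK' (s + 1) ≤ C * (2 / l) * KK' (s + 1) := by
          intro s hs
          rw [Finset.mem_range] at hs
          refine mul_le_mul_of_nonneg_right ?_ (KK_nonneg _)
          refine (hu (L - s) (by omega)).trans (mul_le_mul_of_nonneg_left ?_ hC0.le)
          have h2 : l / 2 ≤ rt ((L - s : ℕ) : ℝ) := by
            have h3 : ((l / 2) ^ 4 : ℝ) ≤ ((L - s : ℕ) : ℝ) := by
              rw [div_pow, hl4, Nat.cast_sub (by omega)]
              have : (s : ℝ) ≤ R := by exact_mod_cast (by omega : s ≤ R)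
              have h5 : (2 * R : ℝ) ≤ L := by exact_mod_cast hRL
              rw [div_le_iff₀ (by norm_num)]
              nlinarith
            calc l / 2 = rt ((l / 2) ^ 4) := (rt_of_pow (by positivity)).symm
              _ ≤ _ := rt_le (by positivity) h3
          rw [show (2 / l : ℝ) = (l / 2)⁻¹ by rw [inv_div]]
          exact inv_anti₀ (by positivity) h2
        refine (Finset.sum_le_sum h1).trans ?_
        rw [← Finset.mul_sum]
        have h2 := hK (R + 1) (by omega)
        have h3 : rt ((R + 1 : ℕ) : ℝ) ≤ 2 * (t * l) := by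
          have h4 : ((R + 1 : ℕ) : ℝ) ≤ (2 * (t * l)) ^ 4 := by
            rw [mul_pow, mul_pow, ht4, hl4]
            push_cast
            nlinarith
          calc rt ((R + 1 : ℕ) : ℝ) ≤ rt ((2 * (t * l)) ^ 4) := rt_le (by positivity) h4
            _ = _ := rt_of_pow (by positivity)
        calc C * (2 / l) * ∑ s ∈ range (R + 1), KK' (s + 1) ≤ C * (2 / l) * (C * rt ((R + 1 : ℕ) : ℝ)) :=
              mul_le_mul_of_nonneg_left h2 (by positivity)
          _ ≤ C * (2 / l) * (C * (2 * (t * l))) :=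
              mul_le_mul_of_nonneg_left (mul_le_mul_of_nonneg_left h3 hC0.le) (by positivity)
          _ = 4 * C * C * t := by field_simp; ring
      -- second part
      have hB : KK' (R + 1) * (q * UU L) ≤ 8 * (C / c) * t := by
        have h1 : KK' (R + 1) ≤ 1 / UU R := by
          rw [le_div_iff₀ (Num2Aux.UU_pos R)]
          linarith [UU_mul_KK R]
        have h2 : t * l / 2 ≤ rt (R : ℝ) := by
          have h3 : ((t * l / 2) ^ 4 : ℝ) ≤ R := by
            rw [div_pow, mul_pow, ht4, hl4, div_le_iff₀ (by norm_num)]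
            nlinarith
          calc t * l / 2 = rt ((t * l / 2) ^ 4) := (rt_of_pow (by positivity)).symm
            _ ≤ _ := rt_le (by positivity) h3
        have h3 : c * (t * l / 2) ^ 3 ≤ UU R :=
          (mul_le_mul_of_nonneg_left (pow_le_pow_left₀ (by positivity) h2 3) hc.le).trans (hl R hR1)
        have h4 : KK' (R + 1) ≤ 1 / (c * (t * l / 2) ^ 3) :=
          h1.trans (one_div_le_one_div_of_le (by positivity) h3)
        have h5 : q * UU L ≤ t ^ 4 * (C * l ^ 3) := by
          rw [ht4]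
          exact mul_le_mul_of_nonneg_left (hU L hL1) hq0.le
        calc KK' (R + 1) * (q * UU L) ≤ 1 / (c * (t * l / 2) ^ 3) * (t ^ 4 * (C * l ^ 3)) :=
              mul_le_mul h4 h5 (mul_nonneg hq0.le (Num2Aux.UU_pos L).le) (by positivity)
          _ = 8 * (C / c) * t := by field_simp; ring
      have hsplit : ∑ h ∈ range (L + 1), f h * KK' (L + 1 - h) ≤
          ∑ s ∈ range (R + 1), uu (L - s) * KK' (s + 1) + KK' (R + 1) * (q * UU L) := by
        have e1 : range (L + 1) = (range (L - R)) ∪ (Finset.Ico (L - R) (L + 1)) := by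
          ext x
          simp only [Finset.mem_union, Finset.mem_range, Finset.mem_Ico]
          omega
        have d1 : Disjoint (range (L - R)) (Finset.Ico (L - R) (L + 1)) := by
          rw [Finset.disjoint_left]
          intro x hx hx2
          rw [Finset.mem_range] at hx
          rw [Finset.mem_Ico] at hx2
          omega
        rw [e1, Finset.sum_union d1, add_comm]
        refine add_le_add ?_ ?_
        · have e2 : Finset.Ico (L - R) (L + 1) = (range (R + 1)).image (fun s => L - s) := by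
            ext x
            simp only [Finset.mem_Ico, Finset.mem_image, Finset.mem_range]
            constructor
            · rintro ⟨h1, h2⟩
              exact ⟨L - x, by omega, by omega⟩
            · rintro ⟨s, hs, rfl⟩
              omega
          rw [e2, Finset.sum_image]
          · refine Finset.sum_le_sum fun s hs => ?_
            rw [Finset.mem_range] at hs
            have e3 : L + 1 - (L - s) = s + 1 := by omega
            rw [e3]
            exact mul_le_mul_of_nonneg_right (hfu _ (by omega)) (KK_nonneg _)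
          · intro x hx y hy hxy
            rw [Finset.mem_coe, Finset.mem_range] at hx hy
            simp only at hxy
            omega
        · have h1 : ∑ h ∈ range (L - R), f h * KK' (L + 1 - h) ≤ ∑ h ∈ range (L - R), f h * KK' (R + 1) := by
            refine Finset.sum_le_sum fun h hh => ?_
            rw [Finset.mem_range] at hh
            exact mul_le_mul_of_nonneg_left (KK_anti (by omega)) (hf0 h (by omega))
          refine h1.trans ?_
          rw [← Finset.sum_mul, mul_comm]
          refine mul_le_mul_of_nonneg_left (le_trans ?_ hfs) (KK_nonneg _)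
          refine Finset.sum_le_sum_of_subset_of_nonneg (fun x hx => ?_) (fun i hi _ => ?_)
          · rw [Finset.mem_range] at hx ⊢
            omega
          · rw [Finset.mem_range] at hi
            exact hf0 i (by omega)
      have h6 : 0 ≤ (2 + 2 * C) * t := by positivity
      calc _ ≤ _ := hsplit
        _ ≤ 4 * C * C * t + 8 * (C / c) * t := add_le_add hA hB
        _ ≤ _ := by nlinarith

end HeadAux

end NTA

end HexObs
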