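import Pool.Agent.NTA.LQWord

/-!
NTA, long leaves (plain class): the sum over the classes middle, heads, tails, deep head, deep tail.
-/

set_option autoImplicit false

namespace HexObs

namespace NTA

open Finset TS SDN NTW

open scoped ENNReal

namespace LQ

/-- **summation**: levels e 0, ..., e n, thresholds xs 0 = x / 3, ..., xs n -/
theorem sum_cls {Dm : ℕ → ℝ≥0∞ → (List Bool → ℝ≥0∞) → Prop} {kc D N n : ℕ} {e : ℕ → ℕ} {x : ℝ} {xs d d' : ℕ → ℝ}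
    {dm dh dt : ℝ} (hx : xs 0 = x / 3) (h1 : 0 ≤ dm) (h2 : 0 ≤ dh) (h3 : 0 ≤ dt) (h4 : ∀ i < n, 0 ≤ d i)
    (h5 : ∀ i < n, 0 ≤ d' i) (hm : SmD Dm kc (BrR D N ∩ Mid (2 ^ (e 0)) (x / 3)) dm)
    (hh : ∀ i < n, SmD Dm kc (BrR D N ∩ Hd (2 ^ (e i)) (2 ^ (e (i + 1))) (xs i) (xs (i + 1))) (d i))
    (hdh : SmD Dm kc {g | g ∈ BrR D N ∧ g ∈ PreL (2 ^ (e n)) (xs n)} dh)
    (ht : ∀ i < n, SmD Dm kc (BrR D N ∩ Tl (2 ^ (e i)) (2 ^ (e (i + 1))) (xs i) (xs (i + 1))) (d' i))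
    (hdt : SmD Dm kc {g | g ∈ BrR D N ∧ g ∈ SufL (2 ^ (e n)) (xs n)} dt) :
    SmD Dm kc {g | g ∈ BrR D N ∧ x ≤ (g.length : ℝ)}
      (dm + ((∑ i ∈ range n, d i) + dh) + ((∑ i ∈ range n, d' i) + dt)) := by
  have a1 : 0 ≤ ∑ i ∈ range n, d i := Finset.sum_nonneg fun i hi => h4 i (Finset.mem_range.1 hi)
  have a2 : 0 ≤ ∑ i ∈ range n, d' i := Finset.sum_nonneg fun i hi => h5 i (Finset.mem_range.1 hi)
  refine QF.SmD_mono ?_ (SmD_union (by positivity) (by positivity)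
    (SmD_union h1 (by positivity) hm (SmD_union a1 h2 (SmD_sum n _ d h4 hh) hdh))
    (SmD_union a2 h3 (SmD_sum n _ d' h5 ht) hdt))
  rintro g ⟨hg, hl⟩
  rcases long_cov (E := 2 ^ (e 0)) hl with b1 | b1 | b1
  · exact Or.inl (Or.inl ⟨hg, b1⟩)
  · rw [← hx] at b1
    rcases lev_cov (fun i => PreL (2 ^ (e i)) (xs i)) n b1 with ⟨i, hi, b2⟩ | b2
    · exact Or.inl (Or.inr (Or.inl ⟨i, hi, hg, b2⟩))
    · exact Or.inl (Or.inr (Or.inr ⟨hg, b2⟩))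
  · rw [← hx] at b1
    rcases lev_cov (fun i => SufL (2 ^ (e i)) (xs i)) n b1 with ⟨i, hi, b2⟩ | b2
    · exact Or.inr (Or.inl ⟨i, hi, hg, b2⟩)
    · exact Or.inr (Or.inr ⟨hg, b2⟩)

end LQ

end NTA

end HexObs
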