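import Pool.Agent.T2.ANorm
import Pool.Agent.NTA.HeadEZ


/-!
NTA (A4, long leaves): a leaf with a long middle part has a long part between two consecutive last cut levels.
-/

set_option autoImplicit false

namespace HexObs

namespace NTA

open Finset TS SDN

open scoped ENNReal

/-- X is the longest bridge prefix of g of height at most 2 ^ e (with a bridge behind) -/
def MPre (e : ℕ) (g X : List Bool) : Prop := X ∈ BU ∧ hgt X ≤ 2 ^ e ∧ (∃ V ∈ BU, g = X ++ V) ∧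
  ∀ X' ∈ BU, ∀ V' ∈ BU, g = X' ++ V' → hgt X' ≤ 2 ^ e → X'.length ≤ X.length

/-- Y is the longest bridge suffix of g of height at most 2 ^ e (with a bridge in front) -/
def MSuf (e : ℕ) (g Y : List Bool) : Prop := Y ∈ BU ∧ hgt Y ≤ 2 ^ e ∧ (∃ V ∈ BU, g = V ++ Y) ∧
  ∀ Y' ∈ BU, ∀ V' ∈ BU, g = V' ++ Y' → hgt Y' ≤ 2 ^ e → Y'.length ≤ Y.length

/-- a long part between the last cuts up to 2 ^ e' and up to 2 ^ e -/
def Hd (e' e : ℕ) (x : ℝ) : Set (List Bool) :=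
  {g | ∃ X T V, T ∈ BU ∧ V ∈ BU ∧ g = X ++ (T ++ V) ∧ MPre e' g X ∧ hgt (X ++ T) ≤ 2 ^ e ∧ x ≤ (T.length : ℝ)}

/-- the same at the other end -/
def Tl (e' e : ℕ) (x : ℝ) : Set (List Bool) :=
  {g | ∃ V T Y, V ∈ BU ∧ T ∈ BU ∧ g = V ++ (T ++ Y) ∧ MSuf e' g Y ∧ hgt (T ++ Y) ≤ 2 ^ e ∧ x ≤ (T.length : ℝ)}

/-- a long middle part -/
def Md (e : ℕ) (x : ℝ) : Set (List Bool) :=
  {g | ∃ X Z Y, Z ∈ BU ∧ g = X ++ (Z ++ Y) ∧ MPre e g X ∧ MSuf e g Y ∧ x ≤ (Z.length : ℝ)}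

namespace LC

lemma nil_BU : ([] : List Bool) ∈ BU := ⟨0, nil_mem_Brd⟩

lemma app {s t : List Bool} (hs : s ∈ BU) (ht : t ∈ BU) : s ++ t ∈ BU := T2.AN.BU_app hs ht

lemma hgt_app {s t : List Bool} (hs : s ∈ BU) (ht : t ∈ BU) : hgt (s ++ t) = hgt s + hgt t := T2.AN.hgt_app hs ht

lemma brd {s : List Bool} (hs : s ∈ BU) : s ∈ Brd (hgt s) := by
  obtain ⟨n, hn⟩ := hs
  rw [hgt_eq hn]
  exact hn

lemma hgt_nil : hgt [] = 0 := hgt_eq nil_mem_Brd

lemma hgt_zero {s : List Bool} (hs : s ∈ BU) (h : hgt s = 0) : s = [] := by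
  have h1 := brd hs
  rw [h, Brd_zero] at h1
  exact h1

/-- comparison of two cuts by the heights -/
lemma nest {s u s' u' : List Bool} (hs : s ∈ BU) (hu : u ∈ BU) (hs' : s' ∈ BU) (hu' : u' ∈ BU) (h : s ++ u = s' ++ u')
    (hc : hgt s ≤ hgt s') : ∃ v ∈ BU, s' = s ++ v ∧ u = v ++ u' := by
  obtain ⟨v, hv, h1, h2⟩ := cut_nested (brd hs) (brd hs') (brd hu) (brd hu') hc h
  exact ⟨v, ⟨_, hv⟩, h1, h2⟩

/-- comparison of two cuts by the lengths of the prefixes -/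
lemma nest_len {s u s' u' : List Bool} (hs : s ∈ BU) (hu : u ∈ BU) (hs' : s' ∈ BU) (hu' : u' ∈ BU) (h : s ++ u = s' ++ u')
    (hl : s.length ≤ s'.length) : ∃ v ∈ BU, s' = s ++ v ∧ u = v ++ u' := by
  rcases le_total (hgt s) (hgt s') with hc | hc
  · exact nest hs hu hs' hu' h hc
  · obtain ⟨v, hv, h1, h2⟩ := nest hs' hu' hs hu h.symm hc
    have h3 : v = [] := by
      have h4 := congrArg List.length h1
      rw [List.length_append] at h4
      exact List.length_eq_zero_iff.1 (by omega)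
    subst h3
    rw [List.append_nil] at h1
    rw [List.nil_append] at h2
    exact ⟨[], nil_BU, by rw [List.append_nil, h1], by rw [List.nil_append, h2]⟩

/-- comparison of two cuts by the lengths of the suffixes -/
lemma nest_len' {s u s' u' : List Bool} (hs : s ∈ BU) (hu : u ∈ BU) (hs' : s' ∈ BU) (hu' : u' ∈ BU) (h : s ++ u = s' ++ u')
    (hl : u'.length ≤ u.length) : ∃ v ∈ BU, s' = s ++ v ∧ u = v ++ u' := by
  refine nest_len hs hu hs' hu' h ?_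
  have h1 := congrArg List.length h
  rw [List.length_append, List.length_append] at h1
  omega

lemma MPre_ex (e : ℕ) {g : List Bool} (hg : g ∈ BU) : ∃ X, MPre e g X := by
  classical
  have h0 : (fun n => ∃ X ∈ BU, (∃ V ∈ BU, g = X ++ V) ∧ hgt X ≤ 2 ^ e ∧ X.length = n) 0 :=
    ⟨[], nil_BU, ⟨g, hg, rfl⟩, by rw [hgt_nil]; exact Nat.zero_le _, rfl⟩
  obtain ⟨X, hX, hV, hh, hn⟩ := Nat.findGreatest_spec (P := fun n => ∃ X ∈ BU, (∃ V ∈ BU, g = X ++ V) ∧ hgt X ≤ 2 ^ e ∧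
    X.length = n) (Nat.zero_le g.length) h0
  refine ⟨X, hX, hh, hV, fun X' hX' V' hV' h1 h2 => ?_⟩
  rw [hn]
  refine Nat.le_findGreatest ?_ ⟨X', hX', ⟨V', hV', h1⟩, h2, rfl⟩
  have := congrArg List.length h1
  rw [List.length_append] at this
  omega

lemma MSuf_ex (e : ℕ) {g : List Bool} (hg : g ∈ BU) : ∃ Y, MSuf e g Y := by
  classical
  have h0 : (fun n => ∃ Y ∈ BU, (∃ V ∈ BU, g = V ++ Y) ∧ hgt Y ≤ 2 ^ e ∧ Y.length = n) 0 :=
    ⟨[], nil_BU, ⟨g, hg, by rw [List.append_nil]⟩, by rw [hgt_nil]; exact Nat.zero_le _, rfl⟩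
  obtain ⟨X, hX, hV, hh, hn⟩ := Nat.findGreatest_spec (P := fun n => ∃ Y ∈ BU, (∃ V ∈ BU, g = V ++ Y) ∧ hgt Y ≤ 2 ^ e ∧
    Y.length = n) (Nat.zero_le g.length) h0
  refine ⟨X, hX, hh, hV, fun X' hX' V' hV' h1 h2 => ?_⟩
  rw [hn]
  refine Nat.le_findGreatest ?_ ⟨X', hX', ⟨V', hV', h1⟩, h2, rfl⟩
  have := congrArg List.length h1
  rw [List.length_append] at this
  omega

/-- consecutive maximal prefixes -/
lemma MPre_step {e' e : ℕ} (he : e' ≤ e) {g X' X : List Bool} (h' : MPre e' g X') (h : MPre e g X) :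
    ∃ T ∈ BU, X = X' ++ T := by
  obtain ⟨V', hV', hg'⟩ := h'.2.2.1
  obtain ⟨V, hV, hg⟩ := h.2.2.1
  have hl : X'.length ≤ X.length :=
    h.2.2.2 X' h'.1 V' hV' hg' (h'.2.1.trans (Nat.pow_le_pow_right (by norm_num) he))
  obtain ⟨v, hv, h1, -⟩ := nest_len h'.1 hV' h.1 hV (hg'.symm.trans hg) hl
  exact ⟨v, hv, h1⟩

lemma MSuf_step {e' e : ℕ} (he : e' ≤ e) {g Y' Y : List Bool} (h' : MSuf e' g Y') (h : MSuf e g Y) :
    ∃ T ∈ BU, Y = T ++ Y' := by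
  obtain ⟨V', hV', hg'⟩ := h'.2.2.1
  obtain ⟨V, hV, hg⟩ := h.2.2.1
  have hl : Y'.length ≤ Y.length :=
    h.2.2.2 Y' h'.1 V' hV' hg' (h'.2.1.trans (Nat.pow_le_pow_right (by norm_num) he))
  obtain ⟨v, hv, -, h1⟩ := nest_len' hV h.1 hV' h'.1 (hg.symm.trans hg') hl
  exact ⟨v, hv, h1⟩

end LC

open LC

/-- the long part of a head lies in the free middle part -/
theorem hd_in {D e' e : ℕ} {x : ℝ} (hD : 2 ^ e' + 2 ^ e ≤ D) {A Z B : List Bool} (hA : A ∈ BU) (hZ : Z ∈ BU) (hB : B ∈ BU)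
    (hA1 : hgt A ≤ 2 ^ e') (hB1 : hgt B ≤ 2 ^ e') (hh : D ≤ hgt (A ++ (Z ++ B))) (h : A ++ (Z ++ B) ∈ Hd e' e x) :
    Z ∈ PreL (2 ^ e) x := by
  obtain ⟨X, T, V, hT, hV, hg, hX, hXT, hx⟩ := h
  have hZB := app hZ hB
  have hl : A.length ≤ X.length := hX.2.2.2 A hA _ hZB rfl hA1
  obtain ⟨v, hv, h1, h2⟩ := nest_len hA hZB hX.1 (app hT hV) hg hl
  have hAZ := app hA hZ
  have hXTm := app hX.1 hT
  have hg2 : (X ++ T) ++ V = (A ++ Z) ++ B := by
    rw [List.append_assoc, List.append_assoc]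
    exact hg.symm
  have hh1 : hgt (A ++ (Z ++ B)) = hgt (A ++ Z) + hgt B := by rw [← List.append_assoc, hgt_app hAZ hB]
  have hc : hgt (X ++ T) ≤ hgt (A ++ Z) := by omega
  obtain ⟨v', hv', h3, -⟩ := nest hXTm hV hAZ hB hg2 hc
  refine ⟨v ++ T, v', app hv hT, hv', ?_, ?_, ?_⟩
  · have h4 : A ++ Z = A ++ ((v ++ T) ++ v') := by
      rw [h3, h1]
      simp only [List.append_assoc]
    exact List.append_cancel_left h4
  · have h5 : hgt (X ++ T) = hgt A + hgt (v ++ T) := by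
      rw [h1, List.append_assoc, hgt_app hA (app hv hT)]
    omega
  · refine hx.trans ?_
    rw [List.length_append]
    push_cast
    have : (0 : ℝ) ≤ v.length := Nat.cast_nonneg _
    linarith

/-- the long part of a tail lies in the free middle part -/
theorem tl_in {D e' e : ℕ} {x : ℝ} (hD : 2 ^ e' + 2 ^ e ≤ D) {A Z B : List Bool} (hA : A ∈ BU) (hZ : Z ∈ BU) (hB : B ∈ BU)
    (hA1 : hgt A ≤ 2 ^ e') (hB1 : hgt B ≤ 2 ^ e') (hh : D ≤ hgt (A ++ (Z ++ B))) (h : A ++ (Z ++ B) ∈ Tl e' e x) :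
    Z ∈ SufL (2 ^ e) x := by
  obtain ⟨V, T, Y, hV, hT, hg, hY, hTY, hx⟩ := h
  have hAZ := app hA hZ
  have hg1 : (A ++ Z) ++ B = (V ++ T) ++ Y := by
    rw [List.append_assoc, List.append_assoc]
    exact hg
  have hl : B.length ≤ Y.length := hY.2.2.2 B hB (A ++ Z) hAZ (by rw [List.append_assoc]) hB1
  obtain ⟨v, hv, h1, h2⟩ := nest_len' (app hV hT) hY.1 hAZ hB hg1.symm hl
  -- h1 : A ++ Z = (V ++ T) ++ v, h2 : Y = v ++ B
  have hTYm := app hT hY.1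
  have hh1 : hgt (A ++ (Z ++ B)) = hgt V + hgt (T ++ Y) := by rw [hg, hgt_app hV hTYm]
  have hc : hgt A ≤ hgt V := by omega
  obtain ⟨v', hv', h3, -⟩ := nest hA (app hZ hB) hV hTYm hg hc
  refine ⟨v', T ++ v, hv', app hT hv, ?_, ?_, ?_⟩
  · have h4 : A ++ Z = A ++ (v' ++ (T ++ v)) := by
      rw [h1, h3]
      simp only [List.append_assoc]
    exact List.append_cancel_left h4
  · have h5 : hgt (T ++ Y) = hgt (T ++ v) + hgt B := by
      rw [h2, ← List.append_assoc, hgt_app (app hT hv) hB]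
    omega
  · refine hx.trans ?_
    rw [List.length_append]
    push_cast
    have : (0 : ℝ) ≤ v.length := Nat.cast_nonneg _
    linarith

/-- the long middle part lies in the free middle part -/
theorem md_in {e : ℕ} {x : ℝ} {A Z B : List Bool} (hA : A ∈ BU) (hZ : Z ∈ BU) (hB : B ∈ BU)
    (hA1 : hgt A ≤ 2 ^ e) (hB1 : hgt B ≤ 2 ^ e) (h : A ++ (Z ++ B) ∈ Md e x) : x ≤ (Z.length : ℝ) := by
  obtain ⟨X, T, Y, hT, hg, hX, hY, hx⟩ := h
  have hZB := app hZ hB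
  have hl1 : A.length ≤ X.length := hX.2.2.2 A hA _ hZB rfl hA1
  have hl2 : B.length ≤ Y.length := hY.2.2.2 B hB (A ++ Z) (app hA hZ) (by rw [List.append_assoc]) hB1
  have h1 := congrArg List.length hg
  simp only [List.length_append] at h1
  refine hx.trans ?_
  exact_mod_cast (by omega : T.length ≤ Z.length)

/-- EZ from the class of the free parts -/
lemma EZ_mid {D N e : ℕ} {W P : Set (List Bool)} {ε : ℝ}
    (h : ∀ A ∈ BU, ∀ Z ∈ BU, ∀ B ∈ BU, hgt A ≤ 2 ^ e → hgt B ≤ 2 ^ e → D ≤ hgt (A ++ (Z ++ B)) →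
      A ++ (Z ++ B) ∈ W → Z ∈ P)
    (hs : ∑' h : ℕ, gf {Z | Z ∈ Brd h ∧ h ≤ N ∧ Z ∈ P} ≤ ENNReal.ofReal ε) : EZ D N e W ε := by
  intro M hM P1 hP1 P2 hP2 Q hQ h1 h2
  refine le_trans (ENNReal.tsum_le_tsum fun n => gf_mono ?_) hs
  rintro Z ⟨hZ, hW, m, hm1, hm2, hm⟩
  have hA := app hM (IU_BU hP1)
  have hB := app (IU_BU hP2) hQ
  have hZB : Z ∈ BU := ⟨n, hZ⟩
  have e1 : M ++ (P1 ++ (Z ++ (P2 ++ Q))) = (M ++ P1) ++ (Z ++ (P2 ++ Q)) := by rw [List.append_assoc]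
  rw [e1] at hW hm
  have h3 : hgt ((M ++ P1) ++ (Z ++ (P2 ++ Q))) = m := hgt_eq hm
  have h4 := hgt_app hA (app hZB hB)
  have h5 := hgt_app hZB hB
  have h6 : hgt Z = n := hgt_eq hZ
  refine ⟨hZ, by omega, h _ hA Z hZB _ hB ?_ ?_ (by omega) hW⟩
  · rw [hgt_app hM (IU_BU hP1)]
    exact h1
  · rw [hgt_app (IU_BU hP2) hQ]
    exact h2

theorem EZ_hd {D N e' e : ℕ} {x ε : ℝ} (hD : 2 ^ e' + 2 ^ e ≤ D)
    (hs : ∑' h : ℕ, gf {Z | Z ∈ Brd h ∧ h ≤ N ∧ Z ∈ PreL (2 ^ e) x} ≤ ENNReal.ofReal ε) :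
    EZ D N e' (Hd e' e x) ε :=
  EZ_mid (fun _ hA _ hZ _ hB h1 h2 h3 h4 => hd_in hD hA hZ hB h1 h2 h3 h4) hs

theorem EZ_tl {D N e' e : ℕ} {x ε : ℝ} (hD : 2 ^ e' + 2 ^ e ≤ D)
    (hs : ∑' h : ℕ, gf {Z | Z ∈ Brd h ∧ h ≤ N ∧ Z ∈ SufL (2 ^ e) x} ≤ ENNReal.ofReal ε) :
    EZ D N e' (Tl e' e x) ε :=
  EZ_mid (fun _ hA _ hZ _ hB h1 h2 h3 h4 => tl_in hD hA hZ hB h1 h2 h3 h4) hs

theorem EZ_md {D N e : ℕ} {x ε : ℝ}
    (hs : ∑' h : ℕ, gf {Z | Z ∈ Brd h ∧ h ≤ N ∧ x ≤ (Z.length : ℝ)} ≤ ENNReal.ofReal ε) :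
    EZ D N e (Md e x) ε :=
  EZ_mid (P := {Z | x ≤ (Z.length : ℝ)}) (fun _ hA _ hZ _ hB h1 h2 _ h4 => md_in hA hZ hB h1 h2 h4) hs

/-- the sum over the heights up to N -/
lemma sum_N (N : ℕ) (P : Set (List Bool)) : ∑' h : ℕ, gf {Z | Z ∈ Brd h ∧ h ≤ N ∧ Z ∈ P} =
    ∑ h ∈ range (N + 1), gf {Z | Z ∈ Brd h ∧ Z ∈ P} := by
  have h0 : ∀ h, h ∉ range (N + 1) → gf {Z | Z ∈ Brd h ∧ h ≤ N ∧ Z ∈ P} = 0 := by
    intro h hh
    rw [mem_range, not_lt] at hh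
    have : {Z | Z ∈ Brd h ∧ h ≤ N ∧ Z ∈ P} = ∅ := by
      rw [Set.eq_empty_iff_forall_notMem]
      rintro Z ⟨-, h1, -⟩
      omega
    rw [this]
    unfold gf
    exact tsum_empty
  rw [tsum_eq_sum (s := range (N + 1)) h0]
  refine Finset.sum_congr rfl fun h hh => ?_
  rw [mem_range] at hh
  congr 1
  ext Z
  simp only [Set.mem_ofPred_eq]
  constructor
  · rintro ⟨h1, -, h2⟩
    exact ⟨h1, h2⟩
  · rintro ⟨h1, h2⟩
    exact ⟨h1, by omega, h2⟩

/-- a leaf with a long middle part has a long part between two consecutive cuts -/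
theorem cover {D N r : ℕ} {es : ℕ → ℕ} (hes : ∀ i, i < r → es (i + 1) ≤ es i) (hD : 2 * 2 ^ (es 0) ≤ D) {lam : ℝ}
    {g : List Bool} (hg : g ∈ BrR D N) (hs : g ∈ T2.Sp (es r) lam) :
    g ∈ Md (es 0) (lam / 3) ∨ ∃ i, i < r ∧ (g ∈ Hd (es (i + 1)) (es i) (lam / 6 * (1 / 2) ^ i) ∨
      g ∈ Tl (es (i + 1)) (es i) (lam / 6 * (1 / 2) ^ i)) := by
  obtain ⟨m, hm1, hm2, hm⟩ := hg
  have hgB : g ∈ BU := ⟨m, hm⟩
  choose X hX using fun i => MPre_ex (es i) hgB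
  choose Y hY using fun i => MSuf_ex (es i) hgB
  by_contra hcon
  push Not at hcon
  obtain ⟨hc1, hc2⟩ := hcon
  -- prefixes
  have hpre : ∀ i, i ≤ r → ((X 0).length : ℝ) ≤ (X i).length + ∑ l ∈ range i, lam / 6 * (1 / 2) ^ l := by
    intro i
    induction i with
    | zero =>
      intro _
      simp
    | succ i ih =>
      intro hi
      have h1 := ih (by omega)
      obtain ⟨T, hT, hTe⟩ := MPre_step (hes i (by omega)) (hX (i + 1)) (hX i)
      have h2 : (T.length : ℝ) < lam / 6 * (1 / 2) ^ i := by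
        by_contra hlt
        rw [not_lt] at hlt
        obtain ⟨V, hV, hgV⟩ := (hX i).2.2.1
        refine (hc2 i (by omega)).1 ⟨X (i + 1), T, V, hT, hV, ?_, hX (i + 1), ?_, hlt⟩
        · rw [hgV, hTe, List.append_assoc]
        · rw [← hTe]
          exact (hX i).2.1
      have h3 : ((X i).length : ℝ) = (X (i + 1)).length + T.length := by
        rw [hTe, List.length_append]
        push_cast
        ring
      rw [Finset.sum_range_succ]
      linarith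
  have hsuf : ∀ i, i ≤ r → ((Y 0).length : ℝ) ≤ (Y i).length + ∑ l ∈ range i, lam / 6 * (1 / 2) ^ l := by
    intro i
    induction i with
    | zero =>
      intro _
      simp
    | succ i ih =>
      intro hi
      have h1 := ih (by omega)
      obtain ⟨T, hT, hTe⟩ := MSuf_step (hes i (by omega)) (hY (i + 1)) (hY i)
      have h2 : (T.length : ℝ) < lam / 6 * (1 / 2) ^ i := by
        by_contra hlt
        rw [not_lt] at hlt
        obtain ⟨V, hV, hgV⟩ := (hY i).2.2.1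
        refine (hc2 i (by omega)).2 ⟨V, T, Y (i + 1), hV, hT, ?_, hY (i + 1), ?_, hlt⟩
        · rw [hgV, hTe]
        · rw [← hTe]
          exact (hY i).2.1
      have h3 : ((Y i).length : ℝ) = (Y (i + 1)).length + T.length := by
        rw [hTe, List.length_append]
        push_cast
        ring
      rw [Finset.sum_range_succ]
      linarith
  have hgeo : ∀ r : ℕ, ∑ l ∈ range r, (1 / 2 : ℝ) ^ l ≤ 2 := by
    intro r
    have h1 := geom_sum_eq (show (1 / 2 : ℝ) ≠ 1 by norm_num) r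
    rw [h1]
    have h2 : (0 : ℝ) ≤ (1 / 2) ^ r := by positivity
    have h3 : ((1 / 2 : ℝ) ^ r - 1) / (1 / 2 - 1) = 2 - 2 * (1 / 2) ^ r := by ring
    rw [h3]
    linarith
  -- the middle part
  obtain ⟨V, hV, hgV⟩ := (hX 0).2.2.1
  obtain ⟨V', hV', hgV'⟩ := (hY 0).2.2.1
  have hh1 : hgt g = hgt (X 0) + hgt V := by
    conv_lhs => rw [hgV]
    exact hgt_app (hX 0).1 hV
  have hh2 : hgt g = hgt V' + hgt (Y 0) := by
    conv_lhs => rw [hgV']
    exact hgt_app hV' (hY 0).1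
  have hh3 : hgt g = m := hgt_eq hm
  have hle1 := (hX 0).2.1
  have hle2 := (hY 0).2.1
  obtain ⟨Z, hZ, hZ1, hZ2⟩ := nest (hX 0).1 hV hV' (hY 0).1 (hgV.symm.trans hgV') (by omega)
  have hZl : (Z.length : ℝ) < lam / 3 := by
    by_contra hlt
    rw [not_lt] at hlt
    exact hc1 ⟨X 0, Z, Y 0, hZ, by rw [hgV, hZ2], hX 0, hY 0, hlt⟩
  have hgl : (g.length : ℝ) = (X 0).length + Z.length + (Y 0).length := by
    rw [hgV, hZ2]
    simp only [List.length_append]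
    push_cast
    ring
  -- the decomposition at the scale es r
  obtain ⟨U, hU, hgU⟩ := (hX r).2.2.1
  obtain ⟨U', hU', hgU'⟩ := (hY r).2.2.1
  have hmono : ∀ i, i ≤ r → es i ≤ es 0 := by
    intro i
    induction i with
    | zero => exact fun _ => le_rfl
    | succ i ih => exact fun hi => (hes i (by omega)).trans (ih (by omega))
  have hle3 := (hX r).2.1.trans (Nat.pow_le_pow_right (by norm_num : 0 < 2) (hmono r le_rfl))
  have hle4 := (hY r).2.1.trans (Nat.pow_le_pow_right (by norm_num : 0 < 2) (hmono r le_rfl))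
  have hh4 : hgt g = hgt U' + hgt (Y r) := by
    conv_lhs => rw [hgU']
    exact hgt_app hU' (hY r).1
  obtain ⟨Z', hZ', hZ1', hZ2'⟩ := nest (hX r).1 hU hU' (hY r).1 (hgU.symm.trans hgU') (by omega)
  have h5 := hs (X r) (hX r).1 Z' hZ' (Y r) (hY r).1 (by rw [hgU, hZ2']) (hX r).2.1 (hY r).2.1
  have hgl' : (g.length : ℝ) = (X r).length + Z'.length + (Y r).length := by
    rw [hgU, hZ2']
    simp only [List.length_append]
    push_cast
    ring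
  have h6 := hpre r le_rfl
  have h7 := hsuf r le_rfl
  have h8 := hgeo r
  rw [← Finset.mul_sum] at h6 h7
  have h9 : 0 ≤ lam := by
    have : (0 : ℝ) ≤ Z.length := Nat.cast_nonneg _
    linarith
  have h10 : lam / 6 * ∑ l ∈ range r, (1 / 2 : ℝ) ^ l ≤ lam / 6 * 2 := mul_le_mul_of_nonneg_left h8 (by linarith)
  linarith

end NTA

end HexObs
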