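import Pool.Agent.NTA.LongCls
import Pool.Agent.NTA.SpWin

/-!
NTA (A4, long leaves): the norm of the class of the leaves with a long middle part, before the choice of the scales.
-/

set_option autoImplicit false

namespace HexObs

namespace NTA

open Finset TS SDN NTW

open scoped ENNReal

namespace LC

lemma smd_mono {Dm : ℕ → ℝ≥0∞ → (List Bool → ℝ≥0∞) → Prop} {kc : ℕ} {S S' : Set (List Bool)} {δ δ' : ℝ} (h : S' ⊆ S)
    (hδ : δ ≤ δ') (H : SmD Dm kc S δ) : SmD Dm kc S' δ' := by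
  refine ⟨fun x Φ hΦ => ?_, fun y x Ψ Φ h1 h2 h3 => ?_⟩
  · refine (xT_mono fun g => ?_).trans ((H.near x Φ hΦ).trans (mul_le_mul_left (ENNReal.ofReal_le_ofReal hδ) _))
    exact Rec8.sw_mono (fun g' hg' => ⟨h hg'.1, hg'.2⟩) fun _ _ => le_rfl
  · refine (Rec8.sw_mono h fun _ _ => le_rfl).trans ((H.free y x Ψ Φ h1 h2 h3).trans (mul_le_mul_left (ENNReal.ofReal_le_ofReal ?_) _))
    exact mul_le_mul_of_nonneg_right hδ (Ub_pos kc).le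

lemma sw_union_le (S S' : Set (List Bool)) (F : List Bool → ℝ≥0∞) :
    Rec8.sw (S ∪ S') F ≤ Rec8.sw S F + Rec8.sw S' F := by
  classical
  rw [Rec8.sw_ind, Rec8.sw_ind, Rec8.sw_ind, ← ENNReal.tsum_add]
  refine ENNReal.tsum_le_tsum fun t => ?_
  by_cases h1 : t ∈ S <;> by_cases h2 : t ∈ S' <;> simp [h1, h2]

lemma smd_union {Dm : ℕ → ℝ≥0∞ → (List Bool → ℝ≥0∞) → Prop} {kc : ℕ} {S S' : Set (List Bool)} {δ δ' : ℝ}
    (hδ : 0 ≤ δ) (hδ' : 0 ≤ δ') (H : SmD Dm kc S δ) (H' : SmD Dm kc S' δ') : SmD Dm kc (S ∪ S') (δ + δ') := by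
  have hU := (Ub_pos kc).le
  refine ⟨fun x Φ hΦ => ?_, fun y x Ψ Φ h1 h2 h3 => ?_⟩
  · refine (xT_mono (Ψ := fun g => vA (2 ^ (kc + 4)) S Φ g + vA (2 ^ (kc + 4)) S' Φ g) fun g => ?_).trans
      ((xT_add _ _ _ _).trans ?_)
    · unfold vA
      refine le_trans (Rec8.sw_mono ?_ fun _ _ => le_rfl) (sw_union_le _ _ _)
      rintro g' ⟨hg', hR⟩
      rcases hg' with h | h
      · exact Or.inl ⟨h, hR⟩
      · exact Or.inr ⟨h, hR⟩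
    · rw [ENNReal.ofReal_add hδ hδ', add_mul]
      exact add_le_add (H.near x Φ hΦ) (H'.near x Φ hΦ)
  · refine (sw_union_le _ _ _).trans ?_
    rw [add_mul, ENNReal.ofReal_add (mul_nonneg hδ hU) (mul_nonneg hδ' hU), add_mul]
    exact add_le_add (H.free y x Ψ Φ h1 h2 h3) (H'.free y x Ψ Φ h1 h2 h3)

lemma smd_empty {Dm : ℕ → ℝ≥0∞ → (List Bool → ℝ≥0∞) → Prop} {kc : ℕ} : SmD Dm kc ∅ 0 := by
  have h0 : ∀ F : List Bool → ℝ≥0∞, Rec8.sw ∅ F = 0 := by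
    intro F
    unfold Rec8.sw
    exact tsum_empty
  refine ⟨fun x Φ hΦ => ?_, fun y x Ψ Φ h1 h2 h3 => ?_⟩
  · refine le_trans (xT_le (x := 0) fun b I _ _ => ?_) zero_le
    have h1 : ∀ t, vA (2 ^ (kc + 4)) ∅ Φ t = 0 := by
      intro t
      unfold vA
      rw [show {g' : List Bool | g' ∈ (∅ : Set (List Bool)) ∧ RT (2 ^ (kc + 4)) LFold t g'} = ∅ by
        ext g'
        simp]
      exact h0 _
    simp only [h1]
    unfold Rec8.sw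
    simp
  · rw [h0]
    exact zero_le

lemma smd_iUnion {Dm : ℕ → ℝ≥0∞ → (List Bool → ℝ≥0∞) → Prop} {kc : ℕ} (S : ℕ → Set (List Bool)) (δ : ℕ → ℝ) :
    ∀ r : ℕ, (∀ i, i < r → 0 ≤ δ i) → (∀ i, i < r → SmD Dm kc (S i) (δ i)) →
      SmD Dm kc {g | ∃ i, i < r ∧ g ∈ S i} (∑ i ∈ range r, δ i) := by
  intro r
  induction r with
  | zero =>
    intro _ _
    have : {g | ∃ i, i < 0 ∧ g ∈ S i} = ∅ := by
      ext g
      simp
    rw [this]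
    simpa using smd_empty
  | succ r ih =>
    intro h0 h1
    have h2 := ih (fun i hi => h0 i (by omega)) (fun i hi => h1 i (by omega))
    rw [Finset.sum_range_succ]
    refine smd_mono ?_ le_rfl (smd_union (Finset.sum_nonneg fun i hi => ?_) (h0 r (by omega)) h2 (h1 r (by omega)))
    · rintro g ⟨i, hi, hg⟩
      rcases Nat.lt_succ_iff_lt_or_eq.1 hi with h3 | h3
      · exact Or.inl ⟨i, h3, hg⟩
      · subst h3
        exact Or.inr hg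
    · rw [mem_range] at hi
      exact h0 i (by omega)

end LC

open LC

/-- the norm of the leaves with a long middle part: one window for the middle part, one for each ring of the ends -/
theorem long_core : ∃ K c : ℝ, 1 ≤ K ∧ 0 < c ∧ ∀ (kc N r : ℕ) (es js : ℕ → ℕ) (x q0 : ℝ) (q : ℕ → ℝ),
    (∀ i, i < r → es (i + 1) ≤ es i) → es 0 ≤ kc → (∀ i, i ≤ r → js i + 3 ≤ es i) → 2 ^ (es 0) ≤ N → 0 ≤ q0 →
    NTm.TL N (x / 3) ≤ ENNReal.ofReal (q0 * UU N) →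
    (∀ i, i < r → 0 < q i ∧ q i ≤ 1 ∧ NTm.TL (2 ^ es i) (x / 6 * (1 / 2) ^ i) ≤ ENNReal.ofReal (q i * Ub (es i))) →
    SmD DmJ kc (BrR (2 ^ (kc + 4)) N ∩ T2.Sp (es r) x) (K * (1 + UU N / Ub kc) ^ 3 *
      ((4 ^ (kc - es 0) * (2 : ℝ) ^ (-(c * ((es 0 : ℝ) - js 0))) + 4 ^ (kc - js 0) * q0) +
      ∑ i ∈ range r, (4 ^ (kc - es (i + 1)) * (2 : ℝ) ^ (-(c * ((es (i + 1) : ℝ) - js (i + 1)))) +
        4 ^ (kc - js (i + 1)) * q i ^ (1 / 4 : ℝ)))) := by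
  obtain ⟨K1, c, hK1, hc, h1⟩ := sp_win
  obtain ⟨K2, hK2, h2⟩ := head_ez
  obtain ⟨K3, hK3, h3⟩ := tail_ez
  refine ⟨2 * K1 * (K2 + K3), c, by nlinarith, hc, ?_⟩
  intro kc N r es js x q0 q hes hek hjs hN hq0 hT0 hq
  have hmono : ∀ i, i ≤ r → es i ≤ es 0 := by
    intro i
    induction i with
    | zero => exact fun _ => le_rfl
    | succ i ih => exact fun hi => (hes i (by omega)).trans (ih (by omega))
  obtain ⟨R, hR⟩ : ∃ R : ℝ, R = UU N / Ub kc := ⟨_, rfl⟩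
  have hU := Ub_pos kc
  have hUN := Num2Aux.UU_pos N
  have hR0 : 0 ≤ R := by
    rw [hR]
    positivity
  rw [← hR]
  have hpw : ∀ a, a ≤ es 0 → 2 ^ a + 2 ^ a ≤ 2 ^ (kc + 4) := by
    intro a ha
    have h4 : (2 : ℕ) ^ (a + 1) ≤ 2 ^ (kc + 4) := Nat.pow_le_pow_right (by norm_num) (by omega)
    have h5 : (2 : ℕ) ^ (a + 1) = 2 ^ a + 2 ^ a := by ring
    omega
  have hpw2 : ∀ a a', a ≤ es 0 → a' ≤ es 0 → 2 ^ a + 2 ^ a' ≤ 2 ^ (kc + 4) := by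
    intro a a' ha ha'
    have h4 : (2 : ℕ) ^ a ≤ 2 ^ (es 0) := Nat.pow_le_pow_right (by norm_num) ha
    have h5 : (2 : ℕ) ^ a' ≤ 2 ^ (es 0) := Nat.pow_le_pow_right (by norm_num) ha'
    have h6 := hpw (es 0) le_rfl
    omega
  obtain ⟨B, hB⟩ : ∃ B : Set (List Bool), B = BrR (2 ^ (kc + 4)) N := ⟨_, rfl⟩
  rw [← hB]
  have hKK : 1 ≤ K2 + K3 := by linarith
  -- the middle part
  obtain ⟨δ0, hδ0⟩ : ∃ δ0 : ℝ, δ0 = K1 * (1 + R) ^ 2 * (4 ^ (kc - es 0) * (2 : ℝ) ^ (-(c * ((es 0 : ℝ) - js 0))) +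
    4 ^ (kc - js 0) * (q0 * UU N / Ub kc)) := ⟨_, rfl⟩
  have hm : SmD DmJ kc (B ∩ Md (es 0) (x / 3)) δ0 := by
    rw [hδ0, hR]
    refine h1 kc N (es 0) (js 0) (q0 * UU N) (B ∩ Md (es 0) (x / 3)) (hjs 0 (Nat.zero_le _)) hek (by positivity)
      (by rw [hB]; exact Set.inter_subset_left) ?_
    refine fun M hM P1 hP1 P2 hP2 Q hQ a1 a2 => le_trans (ENNReal.tsum_le_tsum fun h => gf_mono ?_)
      (EZ_md (D := 2 ^ (kc + 4)) (N := N) (e := es 0) (x := x / 3) (ε := q0 * UU N) ?_ M hM P1 hP1 P2 hP2 Q hQ a1 a2)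
    · exact fun Z hZ => ⟨hZ.1, hZ.2.1.2, hZ.2.2⟩
    · refine le_trans (le_of_eq ?_) hT0
      exact sum_N N {Z | x / 3 ≤ (Z.length : ℝ)}
  -- the rings
  obtain ⟨δh, hδh⟩ : ∃ δh : ℕ → ℝ, δh = fun i => K1 * (1 + R) ^ 2 *
    (4 ^ (kc - es (i + 1)) * (2 : ℝ) ^ (-(c * ((es (i + 1) : ℝ) - js (i + 1)))) +
    4 ^ (kc - js (i + 1)) * (K2 * q i ^ (1 / 4 : ℝ) * UU N / Ub kc)) := ⟨_, rfl⟩
  obtain ⟨δt, hδt⟩ : ∃ δt : ℕ → ℝ, δt = fun i => K1 * (1 + R) ^ 2 *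
    (4 ^ (kc - es (i + 1)) * (2 : ℝ) ^ (-(c * ((es (i + 1) : ℝ) - js (i + 1)))) +
    4 ^ (kc - js (i + 1)) * (K3 * q i ^ (1 / 4 : ℝ) * UU N / Ub kc)) := ⟨_, rfl⟩
  have hh : ∀ i, i < r → SmD DmJ kc (B ∩ Hd (es (i + 1)) (es i) (x / 6 * (1 / 2) ^ i)) (δh i) := by
    intro i hi
    obtain ⟨b1, b2, b3⟩ := hq i hi
    have hp : (0 : ℝ) ≤ q i ^ (1 / 4 : ℝ) := Real.rpow_nonneg b1.le _
    rw [hδh, hR]
    refine h1 kc N (es (i + 1)) (js (i + 1)) (K2 * q i ^ (1 / 4 : ℝ) * UU N) _ (hjs (i + 1) (by omega))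
      ((hmono (i + 1) (by omega)).trans hek) (by positivity) (by rw [hB]; exact Set.inter_subset_left) ?_
    refine fun M hM P1 hP1 P2 hP2 Q hQ a1 a2 => le_trans (ENNReal.tsum_le_tsum fun h => gf_mono ?_)
      (EZ_hd (D := 2 ^ (kc + 4)) (N := N) (e' := es (i + 1)) (e := es i) (x := x / 6 * (1 / 2) ^ i)
        (ε := K2 * q i ^ (1 / 4 : ℝ) * UU N) (hpw2 _ _ (hmono _ (by omega)) (hmono _ (by omega)))
        (h2 N (2 ^ es i) (x / 6 * (1 / 2) ^ i) (q i) ?_ b1 b2 b3) M hM P1 hP1 P2 hP2 Q hQ a1 a2)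
    · exact fun Z hZ => ⟨hZ.1, hZ.2.1.2, hZ.2.2⟩
    · exact (Nat.pow_le_pow_right (by norm_num) (hmono i hi.le)).trans hN
  have ht : ∀ i, i < r → SmD DmJ kc (B ∩ Tl (es (i + 1)) (es i) (x / 6 * (1 / 2) ^ i)) (δt i) := by
    intro i hi
    obtain ⟨b1, b2, b3⟩ := hq i hi
    have hp : (0 : ℝ) ≤ q i ^ (1 / 4 : ℝ) := Real.rpow_nonneg b1.le _
    rw [hδt, hR]
    refine h1 kc N (es (i + 1)) (js (i + 1)) (K3 * q i ^ (1 / 4 : ℝ) * UU N) _ (hjs (i + 1) (by omega))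
      ((hmono (i + 1) (by omega)).trans hek) (by positivity) (by rw [hB]; exact Set.inter_subset_left) ?_
    refine fun M hM P1 hP1 P2 hP2 Q hQ a1 a2 => le_trans (ENNReal.tsum_le_tsum fun h => gf_mono ?_)
      (EZ_tl (D := 2 ^ (kc + 4)) (N := N) (e' := es (i + 1)) (e := es i) (x := x / 6 * (1 / 2) ^ i)
        (ε := K3 * q i ^ (1 / 4 : ℝ) * UU N) (hpw2 _ _ (hmono _ (by omega)) (hmono _ (by omega)))
        (h3 N (2 ^ es i) (x / 6 * (1 / 2) ^ i) (q i) ?_ b1 b2 b3) M hM P1 hP1 P2 hP2 Q hQ a1 a2)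
    · exact fun Z hZ => ⟨hZ.1, hZ.2.1.2, hZ.2.2⟩
    · exact (Nat.pow_le_pow_right (by norm_num) (hmono i hi.le)).trans hN
  have hδ00 : 0 ≤ δ0 := by
    rw [hδ0]
    positivity
  have hδh0 : ∀ i, i < r → 0 ≤ δh i := by
    intro i hi
    have hp : (0 : ℝ) ≤ q i ^ (1 / 4 : ℝ) := Real.rpow_nonneg (hq i hi).1.le _
    rw [hδh]
    positivity
  have hδt0 : ∀ i, i < r → 0 ≤ δt i := by
    intro i hi
    have hp : (0 : ℝ) ≤ q i ^ (1 / 4 : ℝ) := Real.rpow_nonneg (hq i hi).1.le _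
    rw [hδt]
    positivity
  have hsum : SmD DmJ kc (B ∩ T2.Sp (es r) x) (δ0 + ∑ i ∈ range r, (δh i + δt i)) := by
    refine smd_mono ?_ le_rfl (smd_union hδ00 (Finset.sum_nonneg fun i hi => ?_) hm
      (smd_iUnion (fun i => (B ∩ Hd (es (i + 1)) (es i) (x / 6 * (1 / 2) ^ i)) ∪
        (B ∩ Tl (es (i + 1)) (es i) (x / 6 * (1 / 2) ^ i))) (fun i => δh i + δt i) r ?_ ?_))
    · rintro g ⟨hg1, hg2⟩
      have hg3 := hg1
      rw [hB] at hg3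
      rcases cover hes (by rw [two_mul]; exact hpw (es 0) le_rfl) hg3 hg2 with h4 | ⟨i, hi, h4 | h4⟩
      · exact Or.inl ⟨hg1, h4⟩
      · exact Or.inr ⟨i, hi, Or.inl ⟨hg1, h4⟩⟩
      · exact Or.inr ⟨i, hi, Or.inr ⟨hg1, h4⟩⟩
    · rw [mem_range] at hi
      exact add_nonneg (hδh0 i hi) (hδt0 i hi)
    · exact fun i hi => add_nonneg (hδh0 i hi) (hδt0 i hi)
    · exact fun i hi => smd_union (hδh0 i hi) (hδt0 i hi) (hh i hi) (ht i hi)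
  refine smd_mono Set.Subset.rfl ?_ hsum
  -- comparison of the numbers
  have hUU : UU N / Ub kc = R := hR.symm
  have hK10 : 0 ≤ K1 := by linarith
  have e3 : (1 + R) ^ 2 ≤ (1 + R) ^ 3 := pow_le_pow_right₀ (by linarith) (by norm_num)
  have e4 : (1 + R) ^ 2 * R ≤ (1 + R) ^ 3 := by
    have h5 : (1 + R) ^ 3 = (1 + R) ^ 2 * R + (1 + R) ^ 2 := by ring
    rw [h5]
    have : 0 ≤ (1 + R) ^ 2 := by positivity
    linarith
  have gen : ∀ (a b' Ki : ℝ), 0 ≤ a → 0 ≤ b' → 0 ≤ Ki → Ki ≤ K2 + K3 →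
      K1 * (1 + R) ^ 2 * (a + Ki * b' * R) ≤ K1 * (K2 + K3) * (1 + R) ^ 3 * (a + b') := by
    intro a b' Ki ha hb' hKi hKi'
    have f1 : K1 * (1 + R) ^ 2 * a ≤ K1 * (K2 + K3) * (1 + R) ^ 3 * a := by
      refine mul_le_mul_of_nonneg_right ?_ ha
      calc K1 * (1 + R) ^ 2 ≤ K1 * (1 + R) ^ 3 := mul_le_mul_of_nonneg_left e3 hK10
        _ = K1 * 1 * (1 + R) ^ 3 := by ring
        _ ≤ K1 * (K2 + K3) * (1 + R) ^ 3 := by gcongr
    have f2 : K1 * (1 + R) ^ 2 * (Ki * b' * R) ≤ K1 * (K2 + K3) * (1 + R) ^ 3 * b' := by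
      calc K1 * (1 + R) ^ 2 * (Ki * b' * R) = K1 * Ki * ((1 + R) ^ 2 * R) * b' := by ring
        _ ≤ K1 * (K2 + K3) * (1 + R) ^ 3 * b' := by gcongr
    calc K1 * (1 + R) ^ 2 * (a + Ki * b' * R) = K1 * (1 + R) ^ 2 * a + K1 * (1 + R) ^ 2 * (Ki * b' * R) := by ring
      _ ≤ _ := by
        rw [mul_add]
        exact add_le_add f1 f2
  have g0 : δ0 ≤ K1 * (K2 + K3) * (1 + R) ^ 3 *
      (4 ^ (kc - es 0) * (2 : ℝ) ^ (-(c * ((es 0 : ℝ) - js 0))) + 4 ^ (kc - js 0) * q0) := by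
    rw [hδ0]
    refine le_trans (le_of_eq ?_) (gen _ (4 ^ (kc - js 0) * q0) 1 (by positivity) (by positivity) zero_le_one hKK)
    rw [mul_div_assoc, hUU]
    ring
  have gh : ∀ i, i < r → δh i + δt i ≤ 2 * (K1 * (K2 + K3) * (1 + R) ^ 3 *
      (4 ^ (kc - es (i + 1)) * (2 : ℝ) ^ (-(c * ((es (i + 1) : ℝ) - js (i + 1)))) +
        4 ^ (kc - js (i + 1)) * q i ^ (1 / 4 : ℝ))) := by
    intro i hi
    have hp : (0 : ℝ) ≤ q i ^ (1 / 4 : ℝ) := Real.rpow_nonneg (hq i hi).1.le _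
    have g1 : δh i ≤ K1 * (K2 + K3) * (1 + R) ^ 3 *
        (4 ^ (kc - es (i + 1)) * (2 : ℝ) ^ (-(c * ((es (i + 1) : ℝ) - js (i + 1)))) +
          4 ^ (kc - js (i + 1)) * q i ^ (1 / 4 : ℝ)) := by
      rw [hδh]
      refine le_trans (le_of_eq ?_) (gen _ (4 ^ (kc - js (i + 1)) * q i ^ (1 / 4 : ℝ)) K2 (by positivity) (by positivity)
        (by linarith) (by linarith))
      show K1 * (1 + R) ^ 2 * _ = _
      rw [mul_div_assoc, hUU]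
      ring
    have g2 : δt i ≤ K1 * (K2 + K3) * (1 + R) ^ 3 *
        (4 ^ (kc - es (i + 1)) * (2 : ℝ) ^ (-(c * ((es (i + 1) : ℝ) - js (i + 1)))) +
          4 ^ (kc - js (i + 1)) * q i ^ (1 / 4 : ℝ)) := by
      rw [hδt]
      refine le_trans (le_of_eq ?_) (gen _ (4 ^ (kc - js (i + 1)) * q i ^ (1 / 4 : ℝ)) K3 (by positivity) (by positivity)
        (by linarith) (by linarith))
      show K1 * (1 + R) ^ 2 * _ = _
      rw [mul_div_assoc, hUU]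
      ring
    linarith
  obtain ⟨T1, hT1⟩ : ∃ T1 : ℝ, T1 = ∑ i ∈ range r,
      (4 ^ (kc - es (i + 1)) * (2 : ℝ) ^ (-(c * ((es (i + 1) : ℝ) - js (i + 1)))) +
        4 ^ (kc - js (i + 1)) * q i ^ (1 / 4 : ℝ)) := ⟨_, rfl⟩
  have g3 : ∑ i ∈ range r, (δh i + δt i) ≤ 2 * (K1 * (K2 + K3) * (1 + R) ^ 3) * T1 := by
    rw [hT1, Finset.mul_sum]
    refine Finset.sum_le_sum fun i hi => ?_
    rw [mem_range] at hi
    refine (gh i hi).trans (le_of_eq ?_)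
    ring
  rw [← hT1]
  have hC0 : 0 ≤ K1 * (K2 + K3) * (1 + R) ^ 3 := by positivity
  have hB0 : 0 ≤ 4 ^ (kc - es 0) * (2 : ℝ) ^ (-(c * ((es 0 : ℝ) - js 0))) + 4 ^ (kc - js 0) * q0 := by positivity
  have g4 := mul_nonneg hC0 hB0
  calc δ0 + ∑ i ∈ range r, (δh i + δt i)
      ≤ K1 * (K2 + K3) * (1 + R) ^ 3 *
        (4 ^ (kc - es 0) * (2 : ℝ) ^ (-(c * ((es 0 : ℝ) - js 0))) + 4 ^ (kc - js 0) * q0) +
        2 * (K1 * (K2 + K3) * (1 + R) ^ 3) * T1 := add_le_add g0 g3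
    _ ≤ 2 * (K1 * (K2 + K3) * (1 + R) ^ 3 *
        (4 ^ (kc - es 0) * (2 : ℝ) ^ (-(c * ((es 0 : ℝ) - js 0))) + 4 ^ (kc - js 0) * q0)) +
        2 * (K1 * (K2 + K3) * (1 + R) ^ 3) * T1 := by linarith
    _ = _ := by ring

end NTA

end HexObs
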