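import Mathlib

/-!
NTA (A4, long leaves): numbers.
-/

set_option autoImplicit false

namespace HexObs

namespace NTA

namespace LN

lemma p2_mono {x y : ℝ} (h : x ≤ y) : (2 : ℝ) ^ x ≤ (2 : ℝ) ^ y := Real.rpow_le_rpow_of_exponent_le (by norm_num) h

lemma p2_add (x y : ℝ) : (2 : ℝ) ^ (x + y) = (2 : ℝ) ^ x * (2 : ℝ) ^ y := Real.rpow_add (by norm_num) x y

lemma p2_pos (x : ℝ) : 0 < (2 : ℝ) ^ x := Real.rpow_pos_of_pos (by norm_num) x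

lemma p4_nat (n : ℕ) : (4 : ℝ) ^ n = (2 : ℝ) ^ (2 * (n : ℝ)) := by
  rw [Real.rpow_mul (by norm_num), Real.rpow_natCast]
  norm_num

lemma p4_real (x : ℝ) : (4 : ℝ) ^ x = (2 : ℝ) ^ (2 * x) := by
  rw [Real.rpow_mul (by norm_num)]
  norm_num

/-- exponential against linear -/
lemma lin_exp (a b : ℝ) {θ : ℝ} (hθ : 0 < θ) : ∃ D0 : ℕ, ∀ D : ℕ, D0 ≤ D → a * D + b ≤ (2 : ℝ) ^ (θ * D) := by
  obtain ⟨r, hr⟩ : ∃ r : ℝ, r = (2 : ℝ) ^ (-θ) := ⟨_, rfl⟩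
  have hr0 : 0 < r := by
    rw [hr]
    exact p2_pos _
  have hr1 : r < 1 := by
    rw [hr]
    exact Real.rpow_lt_one_of_one_lt_of_neg (by norm_num) (by linarith)
  have h1 : Filter.Tendsto (fun n : ℕ => a * (n * r ^ n) + b * r ^ n) Filter.atTop (nhds (a * 0 + b * 0)) :=
    ((tendsto_self_mul_const_pow_of_lt_one hr0.le hr1).const_mul a).add
      ((tendsto_pow_atTop_nhds_zero_of_lt_one hr0.le hr1).const_mul b)
  rw [mul_zero, mul_zero, add_zero] at h1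
  obtain ⟨D0, hD0⟩ := Filter.eventually_atTop.1 (h1.eventually (gt_mem_nhds (show (0 : ℝ) < 1 by norm_num)))
  refine ⟨D0, fun D hD => ?_⟩
  have h2 := hD0 D hD
  have h3 : r ^ D * (2 : ℝ) ^ (θ * D) = 1 := by
    rw [hr, ← Real.rpow_natCast, ← Real.rpow_mul (by norm_num), ← p2_add]
    rw [show -θ * (D : ℝ) + θ * D = 0 by ring, Real.rpow_zero]
  have h4 : 0 < (2 : ℝ) ^ (θ * D) := p2_pos _
  have h5 : a * D + b = (a * (D * r ^ D) + b * r ^ D) * (2 : ℝ) ^ (θ * D) := by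
    calc a * D + b = (a * D + b) * (r ^ D * (2 : ℝ) ^ (θ * D)) := by rw [h3, mul_one]
      _ = _ := by ring
  rw [h5]
  calc (a * (D * r ^ D) + b * r ^ D) * (2 : ℝ) ^ (θ * D) ≤ 1 * (2 : ℝ) ^ (θ * D) :=
        mul_le_mul_of_nonneg_right h2.le h4.le
    _ = _ := one_mul _

/-- the box parameter s for the tail at the depth D -/
lemma tb_scale (Q r0 : ℕ) (hQ : 1 ≤ Q) {CQ C4 c5 : ℝ} (hCQ : 1 ≤ CQ) (hC4 : 0 < C4) (hc5 : 0 < c5) :
    ∃ Ds : ℕ, ∀ D : ℕ, Ds ≤ D → ∃ s : ℕ, s + r0 ≤ D + 5 ∧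
      CQ ^ (s + 1) * (2 : ℝ) ^ (-(11 / 10 * (Q : ℝ) * D)) + C4 * (4 : ℝ) ^ (-(c5 * (2 : ℝ) ^ s)) ≤ (2 : ℝ) ^ (-((Q : ℝ) * D)) := by
  have hQR : (1 : ℝ) ≤ Q := by exact_mod_cast hQ
  obtain ⟨L, hL⟩ : ∃ L : ℝ, L = Real.logb 2 CQ := ⟨_, rfl⟩
  have hL0 : 0 ≤ L := by
    rw [hL]
    exact Real.logb_nonneg (by norm_num) hCQ
  have hCL : CQ = (2 : ℝ) ^ L := by
    rw [hL, Real.rpow_logb (by norm_num) (by norm_num) (by linarith)]
  obtain ⟨L4, hL4⟩ : ∃ L4 : ℝ, L4 = Real.logb 2 C4 := ⟨_, rfl⟩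
  have hC4L : C4 = (2 : ℝ) ^ L4 := by
    rw [hL4, Real.rpow_logb (by norm_num) (by norm_num) hC4]
  obtain ⟨θ, hθ⟩ : ∃ θ : ℝ, θ = min (1 / 2) (Q / (40 * (L + 1))) := ⟨_, rfl⟩
  have hθ0 : 0 < θ := by
    rw [hθ]
    exact lt_min (by norm_num) (by positivity)
  have hθ1 : θ ≤ 1 / 2 := by rw [hθ]; exact min_le_left _ _
  have hθ2 : θ * (L + 1) ≤ Q / 40 := by
    have h1 : θ ≤ Q / (40 * (L + 1)) := by rw [hθ]; exact min_le_right _ _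
    calc θ * (L + 1) ≤ Q / (40 * (L + 1)) * (L + 1) := mul_le_mul_of_nonneg_right h1 (by linarith)
      _ = Q / 40 := by
        field_simp
  obtain ⟨D1, hD1⟩ := lin_exp (Q / c5) ((L4 + 1) / c5) hθ0
  obtain ⟨D2, hD2⟩ := exists_nat_ge (40 / 3 * (L + 2))
  refine ⟨D1 + D2 + 2 * r0, fun D hD => ?_⟩
  have hDR : (D2 : ℝ) + 2 * r0 ≤ D := by exact_mod_cast (by omega : D2 + 2 * r0 ≤ D)
  obtain ⟨s, hs⟩ : ∃ s : ℕ, s = ⌊θ * D⌋₊ := ⟨_, rfl⟩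
  have hs1 : (s : ℝ) ≤ θ * D := by
    rw [hs]
    exact Nat.floor_le (by positivity)
  have hs2 : θ * D < s + 1 := by
    rw [hs]
    exact Nat.lt_floor_add_one _
  have hDn : (0 : ℝ) ≤ D := Nat.cast_nonneg _
  have hr0n : (0 : ℝ) ≤ r0 := Nat.cast_nonneg _
  have hD2n : (0 : ℝ) ≤ D2 := Nat.cast_nonneg _
  refine ⟨s, ?_, ?_⟩
  · have h1 : (s : ℝ) + r0 ≤ D + 5 := by
      have : θ * D ≤ 1 / 2 * D := mul_le_mul_of_nonneg_right hθ1 hDn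
      linarith
    exact_mod_cast h1
  · have t1 : CQ ^ (s + 1) * (2 : ℝ) ^ (-(11 / 10 * (Q : ℝ) * D)) ≤ (2 : ℝ) ^ (-((Q : ℝ) * D) - 1) := by
      have h1 : CQ ^ (s + 1) = (2 : ℝ) ^ (L * (s + 1)) := by
        conv_lhs => rw [hCL]
        rw [← Real.rpow_natCast, ← Real.rpow_mul (by norm_num)]
        push_cast
        rfl
      rw [h1, ← p2_add]
      apply p2_mono
      have h2 : L * (s + 1) ≤ L * (θ * D) + L := by
        have := mul_le_mul_of_nonneg_left hs1 hL0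
        linarith
      have h3 : L * (θ * D) ≤ Q / 40 * D := by
        have h4 : θ * L ≤ Q / 40 := by nlinarith
        calc L * (θ * D) = θ * L * D := by ring
          _ ≤ Q / 40 * D := mul_le_mul_of_nonneg_right h4 hDn
      have h5 : L + 1 ≤ 3 / 40 * (Q * D) := by
        have h6 : 40 / 3 * (L + 2) ≤ D := by linarith
        have h7 : (D : ℝ) ≤ Q * D := by nlinarith
        linarith
      nlinarith
    have t2 : C4 * (4 : ℝ) ^ (-(c5 * (2 : ℝ) ^ s)) ≤ (2 : ℝ) ^ (-((Q : ℝ) * D) - 1) := by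
      conv_lhs => rw [hC4L]
      rw [p4_real, ← p2_add]
      apply p2_mono
      have h1 := hD1 D (by omega)
      have h2 : (2 : ℝ) ^ (θ * D) ≤ 2 * 2 ^ s := by
        calc (2 : ℝ) ^ (θ * D) ≤ (2 : ℝ) ^ ((s + 1 : ℕ) : ℝ) := p2_mono (by push_cast; linarith)
          _ = 2 * 2 ^ s := by
            rw [Real.rpow_natCast]
            ring
      have h3 : c5 * (Q / c5 * D + (L4 + 1) / c5) ≤ c5 * (2 * 2 ^ s) := mul_le_mul_of_nonneg_left (h1.trans h2) hc5.le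
      have h4 : c5 * (Q / c5 * D + (L4 + 1) / c5) = Q * D + (L4 + 1) := by
        field_simp
      rw [h4] at h3
      linarith
    have e1 : (2 : ℝ) ^ (-((Q : ℝ) * D) - 1) + (2 : ℝ) ^ (-((Q : ℝ) * D) - 1) = (2 : ℝ) ^ (-((Q : ℝ) * D)) := by
      rw [sub_eq_add_neg, p2_add]
      rw [show (2 : ℝ) ^ (-1 : ℝ) = 1 / 2 by rw [Real.rpow_neg_one]; norm_num]
      ring
    linarith

end LN

end NTA

end HexObs
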