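import Pool.Agent.NTA.LongCore
import Pool.Agent.NTA.LongNum
import Pool.Agent.NTA.TailDefs

/-!
NTA (A4, long leaves): the norm of the class of the leaves with a long middle part.
-/

set_option autoImplicit false

namespace HexObs

namespace NTA

open Finset TS SDN NTW

open scoped ENNReal

/-- mean of the lengths of the bridges of the scale k -/
def M1 (m : ℕ → ℝ) : Prop := ∃ C : ℝ, ∀ k : ℕ, ∑ h ∈ Finset.range (2 ^ k + 1), ∑' t : Brd h, (t.1.length : ℝ≥0∞) * wE t.1 ≤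
  ENNReal.ofReal (C * Ub k * m k)

namespace LN

lemma TL_anti (N : ℕ) {x x' : ℝ} (h : x ≤ x') : NTm.TL N x' ≤ NTm.TL N x :=
  Finset.sum_le_sum fun _ _ => gf_mono fun _ hZ => ⟨hZ.1, h.trans hZ.2⟩

lemma markov_TL {m : ℕ → ℝ} {C1 : ℝ} (hM : ∀ k : ℕ, ∑ h ∈ Finset.range (2 ^ k + 1),
    ∑' t : Brd h, (t.1.length : ℝ≥0∞) * wE t.1 ≤ ENNReal.ofReal (C1 * Ub k * m k)) (k : ℕ) {x : ℝ} (hx : 0 < x) :
    NTm.TL (2 ^ k) x ≤ ENNReal.ofReal (C1 * Ub k * m k / x) := by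
  have h1 : NTm.TL (2 ^ k) x ≤ ENNReal.ofReal (1 / x) * ∑ h ∈ Finset.range (2 ^ k + 1),
      ∑' t : Brd h, (t.1.length : ℝ≥0∞) * wE t.1 := by
    unfold NTm.TL
    rw [Finset.mul_sum]
    refine Finset.sum_le_sum fun h _ => ?_
    rw [← ENNReal.tsum_mul_left]
    have h2 : gf {Z | Z ∈ Brd h ∧ x ≤ (Z.length : ℝ)} ≤ ∑' t : {Z | Z ∈ Brd h ∧ x ≤ (Z.length : ℝ)},
        ENNReal.ofReal (1 / x) * ((t.1.length : ℝ≥0∞) * wE t.1) := by
      unfold gf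
      refine ENNReal.tsum_le_tsum fun t => ?_
      have h3 : (1 : ℝ≥0∞) ≤ ENNReal.ofReal (1 / x) * (t.1.length : ℝ≥0∞) := by
        rw [← ENNReal.ofReal_natCast, ← ENNReal.ofReal_mul (by positivity), ← ENNReal.ofReal_one]
        apply ENNReal.ofReal_le_ofReal
        rw [one_div, inv_mul_eq_div, le_div_iff₀ hx, one_mul]
        exact t.2.2
      calc wE t.1 = 1 * wE t.1 := (one_mul _).symm
        _ ≤ (ENNReal.ofReal (1 / x) * (t.1.length : ℝ≥0∞)) * wE t.1 := mul_le_mul_left h3 _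
        _ = _ := mul_assoc _ _ _
    refine h2.trans ?_
    exact ENNReal.tsum_mono_subtype (fun t => ENNReal.ofReal (1 / x) * ((t.length : ℝ≥0∞) * wE t)) (fun Z hZ => hZ.1)
  refine h1.trans ((mul_le_mul_right (hM k) _).trans (le_of_eq ?_))
  rw [← ENNReal.ofReal_mul (by positivity)]
  congr 1
  ring

lemma m_up {m : ℕ → ℝ} (hpos : ∀ k, 0 < m k) {Cu : ℝ} (hCu : 1 ≤ Cu) (h : ∀ k, m (k + 1) ≤ Cu * m k) (k : ℕ) :
    ∀ j : ℕ, m (k + j) ≤ Cu ^ j * m k := by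
  intro j
  induction j with
  | zero => simp
  | succ j ih =>
    rw [← add_assoc, pow_succ]
    calc m (k + j + 1) ≤ Cu * m (k + j) := h _
      _ ≤ Cu * (Cu ^ j * m k) := mul_le_mul_of_nonneg_left ih (by linarith)
      _ = _ := by ring

lemma half_pow_le (i : ℕ) {D : ℝ} (h : (i : ℝ) + 1 ≤ D) : (2 : ℝ) ^ (-D) ≤ (1 / 2) ^ (i + 1) := by
  have h1 : (1 / 2 : ℝ) ^ (i + 1) = (2 : ℝ) ^ (-((i : ℝ) + 1)) := by
    rw [Real.rpow_neg (by norm_num), one_div, inv_pow]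
    congr 1
    rw [show ((i : ℝ) + 1) = ((i + 1 : ℕ) : ℝ) by push_cast; ring, Real.rpow_natCast]
  rw [h1]
  exact p2_mono (by linarith)

lemma sum_half (r : ℕ) : ∑ i ∈ range r, (1 / 2 : ℝ) ^ (i + 1) ≤ 1 := by
  have h1 : ∀ r : ℕ, ∑ i ∈ range r, (1 / 2 : ℝ) ^ (i + 1) = 1 - (1 / 2) ^ r := by
    intro r
    induction r with
    | zero => simp
    | succ r ih =>
      rw [Finset.sum_range_succ, ih]
      ring
  rw [h1]
  have : (0 : ℝ) ≤ (1 / 2) ^ r := by positivity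
  linarith

/-- one ring: the number of the window -/
lemma ring_num {M κ c ℓ D D' J : ℝ} (hc : 0 < c) (hM : M = 1 + 3 / c) (hκ0 : 0 < κ) (hκc : κ ≤ c / 64) (hℓ : 0 ≤ ℓ)
    (hJ1 : (3 * D' + κ * ℓ) / c ≤ J) (hJ2 : J ≤ (3 * D' + κ * ℓ) / c + 4) (hD : D' ≤ 2 * D) (hD0 : 0 ≤ D) :
    (2 * D' - c * J ≤ -D' - κ * ℓ) ∧ (2 * (D' + J) ≤ 4 * M * D + ℓ / 32 + 8) := by
  constructor
  · rw [div_le_iff₀ hc] at hJ1
    linarith
  · have hM1 : 1 ≤ M := by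
      rw [hM]
      have : 0 < 3 / c := by positivity
      linarith
    have h1 : D' + J ≤ M * D' + κ * ℓ / c + 4 := by
      have h2 : D' + ((3 * D' + κ * ℓ) / c + 4) = M * D' + κ * ℓ / c + 4 := by
        rw [hM]
        field_simp
        ring
      linarith
    have h3 : κ * ℓ / c ≤ ℓ / 64 := by
      rw [div_le_iff₀ hc]
      nlinarith
    have h4 : M * D' ≤ M * (2 * D) := mul_le_mul_of_nonneg_left hD (by linarith)
    linarith

end LN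

open LN in
/-- **the norm of the long leaves** (the definitions TBk, LongN of TailEns are written out) -/
theorem long_nc {m : ℕ → ℝ} (hlow : MLow m) (hup : MUp m) (hM : M1 m) :
    ∃ c2 η ε : ℝ, 0 < c2 ∧ 0 < η ∧ η ≤ 1 / 8 ∧ 0 < ε ∧ ∃ Q1 : ℕ, ∀ Q : ℕ, Q1 ≤ Q →
    ∀ (mu r0 : ℕ) (CQ C4 c5 : ℝ), 1 ≤ CQ → 0 < C4 → 0 < c5 → ∃ (y0 : ℝ) (b1 : ℕ), ∀ b : ℕ, b1 ≤ b → ∀ A y : ℝ, 0 < A →
    y0 ≤ y → y ≤ (2 : ℝ) ^ (ε * b) → A ≤ y ^ ((1 + ε) * Q) →
    (∀ j s : ℕ, j + s + r0 ≤ b → ∀ y : ℝ, 1 ≤ y → NTm.TL (2 ^ j) (y * m j) ≤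
      ENNReal.ofReal ((CQ ^ (s + 1) * A / y ^ Q + C4 * (4 : ℝ) ^ (-(c5 * 2 ^ s : ℝ))) * Ub j)) →
    SmD DmJ (b - 5) (BrR (2 ^ (b - 1)) (2 ^ (b + mu + 2)) ∩ T2.Sp (T2.ee η b) (y * m b)) (y ^ (-c2)) := by
  classical
  obtain ⟨K, c, hK, hc, hcore⟩ := long_core
  obtain ⟨C1, hC1⟩ := hM
  obtain ⟨Cu, hCu, hup⟩ := hup
  obtain ⟨M, hMd⟩ : ∃ M : ℝ, M = 1 + 3 / c := ⟨_, rfl⟩
  have hM1 : 1 < M := by
    rw [hMd]
    have : 0 < 3 / c := by positivity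
    linarith
  obtain ⟨κ, hκ⟩ : ∃ κ : ℝ, κ = min (1 / 8) (c / 64) := ⟨_, rfl⟩
  have hκ0 : 0 < κ := by
    rw [hκ]
    exact lt_min (by norm_num) (by positivity)
  have hκ8 : κ ≤ 1 / 8 := by rw [hκ]; exact min_le_left _ _
  have hκc : κ ≤ c / 64 := by rw [hκ]; exact min_le_right _ _
  obtain ⟨η', hη'⟩ : ∃ η' : ℝ, η' = 1 / (128 * M) := ⟨_, rfl⟩
  have hη'0 : 0 < η' := by
    rw [hη']
    positivity
  have hMη : 128 * M * η' = 1 := by
    rw [hη']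
    field_simp
  obtain ⟨Q1, hQ1⟩ := exists_nat_ge (96 * M + 4)
  refine ⟨κ / 2, 1 / (8 * M), η' / 10, by positivity, by positivity, ?_, by positivity, Q1, ?_⟩
  · exact one_div_le_one_div_of_le (by norm_num) (by linarith)
  intro Q hQ mu r0 CQ C4 c5 hCQ hC4 hc5
  have hQR : 96 * M + 4 ≤ Q := hQ1.trans (by exact_mod_cast hQ)
  have hQ1' : 1 ≤ Q := by
    have : (1 : ℝ) ≤ Q := by linarith
    exact_mod_cast this
  obtain ⟨Ds, hDs⟩ := tb_scale Q r0 hQ1' hCQ hC4 hc5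
  obtain ⟨C1', hC1'⟩ : ∃ C1' : ℝ, C1' = max 1 C1 := ⟨_, rfl⟩
  have hC1'1 : 1 ≤ C1' := by rw [hC1']; exact le_max_left _ _
  have hC1'2 : C1 ≤ C1' := by rw [hC1']; exact le_max_right _ _
  obtain ⟨Cμ, hCμ⟩ : ∃ Cμ : ℝ, Cμ = 3 * C1' * Cu ^ (mu + 2) := ⟨_, rfl⟩
  have hCμ0 : 0 < Cμ := by
    rw [hCμ]
    positivity
  obtain ⟨B, hB⟩ : ∃ B : ℝ, B = K * (1 + 2 ^ (mu + 7)) ^ 3 * (2 + 256 * C1' + (2 : ℝ) ^ (80 * M + 8) * Cμ) := ⟨_, rfl⟩
  have hB0 : 0 < B := by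
    rw [hB]
    have := p2_pos (80 * M + 8)
    positivity
  obtain ⟨ℓ0, hℓ0⟩ : ∃ ℓ0 : ℝ, ℓ0 = |2 / κ * Real.logb 2 B| + Real.logb 2 C1' + Ds / η' := ⟨_, rfl⟩
  have hlC : 0 ≤ Real.logb 2 C1' := Real.logb_nonneg (by norm_num) hC1'1
  have hDη : 0 ≤ (Ds : ℝ) / η' := by positivity
  have hℓ00 : 0 ≤ ℓ0 := by
    rw [hℓ0]
    have := abs_nonneg (2 / κ * Real.logb 2 B)
    linarith
  obtain ⟨b1, hb1⟩ := exists_nat_ge (164 * M + 20)
  refine ⟨(2 : ℝ) ^ ℓ0, b1, ?_⟩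
  intro b hb A y hA hy0 hy1 hAy hT
  have hbR : 164 * M + 20 ≤ b := hb1.trans (by exact_mod_cast hb)
  obtain ⟨ℓ, hℓ⟩ : ∃ ℓ : ℝ, ℓ = Real.logb 2 y := ⟨_, rfl⟩
  have hyp : 0 < y := lt_of_lt_of_le (p2_pos _) hy0
  have hyℓ : y = (2 : ℝ) ^ ℓ := by
    rw [hℓ, Real.rpow_logb (by norm_num) (by norm_num) hyp]
  have hℓ1 : ℓ0 ≤ ℓ := by
    rw [hyℓ] at hy0
    exact (Real.rpow_le_rpow_left_iff (by norm_num)).1 hy0
  have hℓ2 : ℓ ≤ η' / 10 * b := by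
    rw [hyℓ] at hy1
    exact (Real.rpow_le_rpow_left_iff (by norm_num)).1 hy1
  have hℓn : 0 ≤ ℓ := hℓ00.trans hℓ1
  have hℓB : Real.logb 2 B ≤ κ / 2 * ℓ := by
    have h1 : 2 / κ * Real.logb 2 B ≤ ℓ := by
      have := le_abs_self (2 / κ * Real.logb 2 B)
      linarith
    have h2 : κ / 2 * (2 / κ * Real.logb 2 B) ≤ κ / 2 * ℓ := mul_le_mul_of_nonneg_left h1 (by positivity)
    have h3 : κ / 2 * (2 / κ * Real.logb 2 B) = Real.logb 2 B := by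
      field_simp
    linarith
  have hℓC : Real.logb 2 C1' ≤ ℓ := by
    have := abs_nonneg (2 / κ * Real.logb 2 B)
    linarith
  have hℓD : (Ds : ℝ) ≤ η' * ℓ := by
    have h1 : (Ds : ℝ) / η' ≤ ℓ := by
      have := abs_nonneg (2 / κ * Real.logb 2 B)
      linarith
    rw [div_le_iff₀ hη'0] at h1
    linarith
  -- scales
  obtain ⟨n, hn⟩ : ∃ n : ℕ, n = ⌊2 * (1 / (8 * M)) * b⌋₊ := ⟨_, rfl⟩
  have hn1 : (n : ℝ) ≤ b / (4 * M) := by
    rw [hn]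
    refine (Nat.floor_le (by positivity)).trans (le_of_eq ?_)
    field_simp
    ring
  have hn2 : 40 ≤ n := by
    rw [hn]
    apply Nat.le_floor
    have h1 : 2 * (1 / (8 * M)) * b = b / (4 * M) := by
      field_simp
      ring
    rw [h1, le_div_iff₀ (by positivity)]
    push_cast
    linarith
  have hee : T2.ee (1 / (8 * M)) b = b - 5 - n := by
    unfold T2.ee
    rw [hn]
  have hMn : M * n ≤ b / 4 := by
    have h1 := mul_le_mul_of_nonneg_left hn1 (by linarith : (0 : ℝ) ≤ M)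
    have h2 : M * (b / (4 * M)) = b / 4 := by
      field_simp
    linarith
  have hex : ∃ i, n ≤ 40 * 2 ^ i := ⟨n, by
    have := (Nat.lt_two_pow_self (n := n)).le
    omega⟩
  obtain ⟨r, hr⟩ : ∃ r, r = Nat.find hex := ⟨_, rfl⟩
  have hr1 : n ≤ 40 * 2 ^ r := by
    rw [hr]
    exact Nat.find_spec hex
  have hr2 : ∀ i, i < r → 40 * 2 ^ i < n := by
    intro i hi
    rw [hr] at hi
    have := Nat.find_min hex hi
    omega
  obtain ⟨D, hD⟩ : ∃ D : ℕ → ℕ, D = fun i => min (40 * 2 ^ i) n := ⟨_, rfl⟩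
  have hDi : ∀ i, i < r → D i = 40 * 2 ^ i := by
    intro i hi
    rw [hD]
    exact min_eq_left (hr2 i hi).le
  have hDr : D r = n := by
    rw [hD]
    exact min_eq_right hr1
  have hDn : ∀ i, D i ≤ n := by
    intro i
    rw [hD]
    exact min_le_right _ _
  have hDs1 : ∀ i, D (i + 1) ≤ 2 * D i := by
    intro i
    rw [hD]
    show min (40 * 2 ^ (i + 1)) n ≤ 2 * min (40 * 2 ^ i) n
    rw [pow_succ]
    omega
  have hDmono : ∀ i, D i ≤ D (i + 1) := by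
    intro i
    rw [hD]
    show min (40 * 2 ^ i) n ≤ min (40 * 2 ^ (i + 1)) n
    rw [pow_succ]
    omega
  have hD0 : D 0 = 40 := by
    rw [hD]
    show min (40 * 2 ^ 0) n = 40
    omega
  obtain ⟨J, hJ⟩ : ∃ J : ℕ → ℕ, J = fun i => ⌈(3 * (D i : ℝ) + κ * ℓ) / c⌉₊ + 3 := ⟨_, rfl⟩
  have hJ1 : ∀ i, (3 * (D i : ℝ) + κ * ℓ) / c ≤ J i := by
    intro i
    rw [hJ]
    push_cast
    have := Nat.le_ceil ((3 * (D i : ℝ) + κ * ℓ) / c)
    linarith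
  have hJ2 : ∀ i, (J i : ℝ) ≤ (3 * (D i : ℝ) + κ * ℓ) / c + 4 := by
    intro i
    rw [hJ]
    push_cast
    have := (Nat.ceil_lt_add_one (show 0 ≤ (3 * (D i : ℝ) + κ * ℓ) / c by positivity)).le
    linarith
  have hJ3 : ∀ i, 3 ≤ J i := by
    intro i
    rw [hJ]
    exact Nat.le_add_left _ _
  have hb20 : (20 : ℝ) ≤ b := by linarith
  have hℓb : ℓ ≤ b := by
    have h1 : η' / 10 * b ≤ 1 * b := by
      refine mul_le_mul_of_nonneg_right ?_ (by linarith)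
      have : η' ≤ 1 := by nlinarith
      linarith
    linarith
  have hJe : ∀ i, J i + D i ≤ b - 5 := by
    intro i
    have h1 : (J i : ℝ) + D i ≤ b - 5 := by
      have h2 := hJ2 i
      have h3 : (D i : ℝ) ≤ n := by exact_mod_cast hDn i
      have h4 : (3 * (D i : ℝ) + κ * ℓ) / c + D i = M * D i + κ * ℓ / c := by
        rw [hMd]
        field_simp
        ring
      have h5 : M * D i ≤ M * n := mul_le_mul_of_nonneg_left h3 (by linarith)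
      have h6 : κ * ℓ / c ≤ ℓ / 64 := by
        rw [div_le_iff₀ hc]
        nlinarith
      linarith
    have h2 : ((J i + D i + 5 : ℕ) : ℝ) ≤ (b : ℝ) := by
      push_cast
      linarith
    have h3 : J i + D i + 5 ≤ b := by exact_mod_cast h2
    omega
  obtain ⟨kc, hkc⟩ : ∃ kc, kc = b - 5 := ⟨_, rfl⟩
  have hkb : b = kc + 5 := by
    have : (20 : ℕ) ≤ b := by exact_mod_cast hb20
    omega
  obtain ⟨es, hes⟩ : ∃ es : ℕ → ℕ, es = fun i => kc - D i := ⟨_, rfl⟩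
  obtain ⟨js, hjs⟩ : ∃ js : ℕ → ℕ, js = fun i => kc - D i - J i := ⟨_, rfl⟩
  have hes1 : ∀ i, es i + D i = kc := by
    intro i
    have h1 := hJe i
    rw [hes]
    show kc - D i + D i = kc
    omega
  have hjs1 : ∀ i, js i + J i = es i := by
    intro i
    have h1 := hJe i
    rw [hes, hjs]
    show kc - D i - J i + J i = kc - D i
    omega
  -- probabilities of the rings
  obtain ⟨q, hq⟩ : ∃ q : ℕ → ℝ, q = fun i => if (D i : ℝ) ≤ η' * ℓ then C1' * (2 : ℝ) ^ (-(6 / 5 * (D i : ℝ) + ℓ)) else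
    (2 : ℝ) ^ (-((Q : ℝ) * D i)) := ⟨_, rfl⟩
  have hqi : ∀ i, i < r → 0 < q i ∧ q i ≤ 1 ∧
      NTm.TL (2 ^ es i) (y * m b / 6 * (1 / 2) ^ i) ≤ ENNReal.ofReal (q i * Ub (es i)) := by
    intro i hi
    have hDi' := hDi i hi
    have hmp := hlow.pos (es i)
    -- the threshold in units of m (es i)
    have hx : (2 : ℝ) ^ (6 / 5 * (D i : ℝ) + ℓ) * m (es i) ≤ y * m b / 6 * (1 / 2) ^ i := by
      have h1 := hlow.low (es i) (D i + 5)
      rw [show es i + (D i + 5) = b by rw [hkb, ← hes1 i]; ring] at h1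
      have h2 : (2 : ℝ) ^ (-((D i : ℝ) / 40)) ≤ (1 / 2) ^ i := by
        have h3 : (1 / 2 : ℝ) ^ i = (2 : ℝ) ^ (-(i : ℝ)) := by
          rw [Real.rpow_neg (by norm_num), one_div, inv_pow, Real.rpow_natCast]
        rw [h3]
        apply p2_mono
        have h4 : i ≤ 2 ^ i := (Nat.lt_two_pow_self (n := i)).le
        have h5 : (40 : ℝ) * i ≤ D i := by
          rw [hDi']
          exact_mod_cast Nat.mul_le_mul_left 40 h4
        linarith
      have h6 : (2 : ℝ) ^ (-(3 : ℝ)) ≤ 1 / 6 := by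
        rw [Real.rpow_neg (by norm_num), show (2 : ℝ) ^ (3 : ℝ) = 8 by norm_num]
        norm_num
      have h7 : (2 : ℝ) ^ (6 / 5 * (D i : ℝ) + ℓ) ≤
          (2 : ℝ) ^ ℓ * (2 : ℝ) ^ (5 / 4 * ((D i + 5 : ℕ) : ℝ)) * (2 : ℝ) ^ (-(3 : ℝ)) * (2 : ℝ) ^ (-((D i : ℝ) / 40)) := by
        rw [← p2_add, ← p2_add, ← p2_add]
        apply p2_mono
        push_cast
        have : (0 : ℝ) ≤ D i := Nat.cast_nonneg _
        linarith
      calc (2 : ℝ) ^ (6 / 5 * (D i : ℝ) + ℓ) * m (es i)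
          ≤ ((2 : ℝ) ^ ℓ * (2 : ℝ) ^ (5 / 4 * ((D i + 5 : ℕ) : ℝ)) * (2 : ℝ) ^ (-(3 : ℝ)) *
            (2 : ℝ) ^ (-((D i : ℝ) / 40))) * m (es i) := mul_le_mul_of_nonneg_right h7 hmp.le
        _ = (2 : ℝ) ^ ℓ * ((2 : ℝ) ^ (5 / 4 * ((D i + 5 : ℕ) : ℝ)) * m (es i)) * (2 : ℝ) ^ (-(3 : ℝ)) *
            (2 : ℝ) ^ (-((D i : ℝ) / 40)) := by ring
        _ ≤ (2 : ℝ) ^ ℓ * m b * (1 / 6) * (1 / 2) ^ i := by
            have := hlow.pos b
            gcongr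
        _ = _ := by
            rw [← hyℓ]
            ring
    have hz0 : 0 < (2 : ℝ) ^ (6 / 5 * (D i : ℝ) + ℓ) := p2_pos _
    have hDi0 : (0 : ℝ) ≤ D i := Nat.cast_nonneg _
    have hUe := Ub_pos (es i)
    have hT1 : NTm.TL (2 ^ es i) (y * m b / 6 * (1 / 2) ^ i) ≤
        NTm.TL (2 ^ es i) ((2 : ℝ) ^ (6 / 5 * (D i : ℝ) + ℓ) * m (es i)) := TL_anti _ hx
    by_cases hc1 : (D i : ℝ) ≤ η' * ℓ
    · have hqe : q i = C1' * (2 : ℝ) ^ (-(6 / 5 * (D i : ℝ) + ℓ)) := by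
        rw [hq]
        exact if_pos hc1
      rw [hqe]
      refine ⟨mul_pos (by linarith) (p2_pos _), ?_, ?_⟩
      · have h1 : C1' = (2 : ℝ) ^ Real.logb 2 C1' := by
          rw [Real.rpow_logb (by norm_num) (by norm_num) (by linarith)]
        conv_lhs => rw [h1]
        rw [← p2_add]
        calc (2 : ℝ) ^ (Real.logb 2 C1' + -(6 / 5 * (D i : ℝ) + ℓ)) ≤ (2 : ℝ) ^ (0 : ℝ) := p2_mono (by linarith)
          _ = 1 := Real.rpow_zero _
      · refine hT1.trans ((markov_TL hC1 (es i) (mul_pos hz0 hmp)).trans (ENNReal.ofReal_le_ofReal ?_))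
        have h1 : C1 * Ub (es i) * m (es i) / ((2 : ℝ) ^ (6 / 5 * (D i : ℝ) + ℓ) * m (es i)) =
            C1 * Ub (es i) * (2 : ℝ) ^ (-(6 / 5 * (D i : ℝ) + ℓ)) := by
          rw [Real.rpow_neg (by norm_num)]
          field_simp
        rw [h1]
        calc C1 * Ub (es i) * (2 : ℝ) ^ (-(6 / 5 * (D i : ℝ) + ℓ)) ≤
              C1' * Ub (es i) * (2 : ℝ) ^ (-(6 / 5 * (D i : ℝ) + ℓ)) := by
              have := p2_pos (-(6 / 5 * (D i : ℝ) + ℓ))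
              gcongr
          _ = _ := by ring
    · have hqe : q i = (2 : ℝ) ^ (-((Q : ℝ) * D i)) := by
        rw [hq]
        exact if_neg hc1
      rw [not_le] at hc1
      rw [hqe]
      refine ⟨p2_pos _, ?_, ?_⟩
      · calc (2 : ℝ) ^ (-((Q : ℝ) * D i)) ≤ (2 : ℝ) ^ (0 : ℝ) := p2_mono (by
              have : 0 ≤ (Q : ℝ) * D i := by positivity
              linarith)
          _ = 1 := Real.rpow_zero _
      · have hDsi : Ds ≤ D i := by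
          have : (Ds : ℝ) ≤ D i := hℓD.trans hc1.le
          exact_mod_cast this
        obtain ⟨s, hs1, hs2⟩ := hDs (D i) hDsi
        have hz1 : 1 ≤ (2 : ℝ) ^ (6 / 5 * (D i : ℝ) + ℓ) := Real.one_le_rpow (by norm_num) (by positivity)
        have hT2 := hT (es i) s (by have := hes1 i; omega) _ hz1
        refine hT1.trans (hT2.trans (ENNReal.ofReal_le_ofReal (mul_le_mul_of_nonneg_right ?_ hUe.le)))
        refine le_trans (add_le_add ?_ le_rfl) hs2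
        rw [mul_div_assoc]
        refine mul_le_mul_of_nonneg_left ?_ (by positivity)
        have hp : ((2 : ℝ) ^ (6 / 5 * (D i : ℝ) + ℓ)) ^ Q = (2 : ℝ) ^ ((6 / 5 * (D i : ℝ) + ℓ) * Q) := by
          rw [← Real.rpow_natCast, ← Real.rpow_mul (by norm_num)]
        rw [hp, div_le_iff₀ (p2_pos _), ← p2_add]
        refine hAy.trans ?_
        rw [hyℓ, ← Real.rpow_mul (by norm_num)]
        apply p2_mono
        have h1 : η' / 10 * ℓ ≤ D i / 10 := by linarith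
        have h2 : η' / 10 * ℓ * Q ≤ D i / 10 * Q := mul_le_mul_of_nonneg_right h1 (Nat.cast_nonneg _)
        nlinarith
  -- the middle part
  obtain ⟨N, hN⟩ : ∃ N : ℕ, N = 2 ^ (b + mu + 2) := ⟨_, rfl⟩
  have hNk : N = 2 ^ (kc + (mu + 7)) := by
    rw [hN, hkb]
    congr 1
    ring
  have hUk := Ub_pos kc
  have hUN : UU N / Ub kc ≤ 2 ^ (mu + 7) := by
    rw [div_le_iff₀ hUk, hNk]
    exact Ub_add kc (mu + 7)
  have hq0 : NTm.TL N (y * m b / 3) ≤ ENNReal.ofReal (Cμ * (2 : ℝ) ^ (-ℓ) * UU N) := by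
    have hmb := hlow.pos b
    rw [hN]
    refine (markov_TL hC1 (b + mu + 2) (by positivity)).trans (ENNReal.ofReal_le_ofReal ?_)
    have h1 := m_up hlow.pos hCu hup b (mu + 2)
    rw [← add_assoc] at h1
    have hUB : 0 < Ub (b + mu + 2) := Ub_pos _
    have h2 : C1 * Ub (b + mu + 2) * m (b + mu + 2) ≤ C1' * Ub (b + mu + 2) * (Cu ^ (mu + 2) * m b) := by
      have := hlow.pos (b + mu + 2)
      calc C1 * Ub (b + mu + 2) * m (b + mu + 2) ≤ C1' * Ub (b + mu + 2) * m (b + mu + 2) := by gcongr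
        _ ≤ _ := by gcongr
    calc C1 * Ub (b + mu + 2) * m (b + mu + 2) / (y * m b / 3)
        ≤ C1' * Ub (b + mu + 2) * (Cu ^ (mu + 2) * m b) / (y * m b / 3) := div_le_div_of_nonneg_right h2 (by positivity)
      _ = 3 * C1' * Cu ^ (mu + 2) * y⁻¹ * Ub (b + mu + 2) := by
          field_simp
      _ = _ := by
          rw [hCμ, hyℓ, Real.rpow_neg (by norm_num)]
          rfl
  have hfin := hcore kc N r es js (y * m b) (Cμ * (2 : ℝ) ^ (-ℓ)) q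
    (fun i _ => by
      have h1 := hes1 i
      have h2 := hes1 (i + 1)
      have h3 := hDmono i
      omega)
    (by have := hes1 0; omega) (fun i _ => by have := hjs1 i; have := hJ3 i; omega)
    (by
      rw [hNk]
      refine Nat.pow_le_pow_right (by norm_num) ?_
      have := hes1 0
      omega)
    (mul_nonneg hCμ0.le (p2_pos _).le) hq0 hqi
  have hset : BrR (2 ^ (b - 1)) (2 ^ (b + mu + 2)) ∩ T2.Sp (T2.ee (1 / (8 * M)) b) (y * m b) =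
      BrR (2 ^ (kc + 4)) N ∩ T2.Sp (es r) (y * m b) := by
    have h1 : b - 1 = kc + 4 := by omega
    have h2 : T2.ee (1 / (8 * M)) b = es r := by
      have := hes1 r
      rw [hee]
      omega
    rw [h1, h2, hN]
  rw [hset, ← hkc]
  refine LC.smd_mono Set.Subset.rfl ?_ hfin
  -- the numbers
  obtain ⟨R, hR⟩ : ∃ R : ℝ, R = UU N / Ub kc := ⟨_, rfl⟩
  rw [← hR] at hUN ⊢
  have hR0 : 0 ≤ R := by
    rw [hR]
    exact div_nonneg (Num2Aux.UU_pos N).le hUk.le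
  have hkD : ∀ i, kc - es i = D i := by
    intro i
    have := hes1 i
    omega
  have hkJ : ∀ i, kc - js i = D i + J i := by
    intro i
    have := hes1 i
    have := hjs1 i
    omega
  have heJ : ∀ i, (es i : ℝ) - js i = J i := by
    intro i
    have h1 : ((js i + J i : ℕ) : ℝ) = es i := by exact_mod_cast hjs1 i
    push_cast at h1
    linarith
  simp only [hkD, hkJ, heJ]
  have hring : ∀ i, (2 * (D (i + 1) : ℝ) - c * J (i + 1) ≤ -D (i + 1) - κ * ℓ) ∧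
      (2 * ((D (i + 1) : ℝ) + J (i + 1)) ≤ 4 * M * D i + ℓ / 32 + 8) := fun i =>
    ring_num hc hMd hκ0 hκc hℓn (hJ1 (i + 1)) (hJ2 (i + 1)) (by exact_mod_cast hDs1 i) (Nat.cast_nonneg _)
  have hring0 : (2 * (D 0 : ℝ) - c * J 0 ≤ -D 0 - κ * ℓ) ∧ (2 * ((D 0 : ℝ) + J 0) ≤ 4 * M * (D 0 / 2) + ℓ / 32 + 8) :=
    ring_num hc hMd hκ0 hκc hℓn (hJ1 0) (hJ2 0) (by linarith) (by positivity)
  have hw1 : ∀ i, (4 : ℝ) ^ D i * (2 : ℝ) ^ (-(c * (J i : ℝ))) = (2 : ℝ) ^ (2 * (D i : ℝ) - c * J i) := by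
    intro i
    rw [p4_nat, ← p2_add]
    congr 1
  have hw2 : ∀ i, (4 : ℝ) ^ (D i + J i) = (2 : ℝ) ^ (2 * ((D i : ℝ) + J i)) := by
    intro i
    rw [p4_nat]
    congr 1
    push_cast
    ring
  have hκℓ : 0 ≤ κ * ℓ := by positivity
  -- middle
  have e0 : (4 : ℝ) ^ D 0 * (2 : ℝ) ^ (-(c * (J 0 : ℝ))) + 4 ^ (D 0 + J 0) * (Cμ * (2 : ℝ) ^ (-ℓ)) ≤
      (2 : ℝ) ^ (-(κ * ℓ)) * (1 + (2 : ℝ) ^ (80 * M + 8) * Cμ) := by
    rw [hw1, hw2]
    have f1 : (2 : ℝ) ^ (2 * (D 0 : ℝ) - c * J 0) ≤ (2 : ℝ) ^ (-(κ * ℓ)) := by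
      apply p2_mono
      have : (0 : ℝ) ≤ D 0 := Nat.cast_nonneg _
      linarith [hring0.1]
    have f2 : (2 : ℝ) ^ (2 * ((D 0 : ℝ) + J 0)) * (Cμ * (2 : ℝ) ^ (-ℓ)) ≤
        (2 : ℝ) ^ (-(κ * ℓ)) * ((2 : ℝ) ^ (80 * M + 8) * Cμ) := by
      have f3 : (2 : ℝ) ^ (2 * ((D 0 : ℝ) + J 0)) * (2 : ℝ) ^ (-ℓ) ≤ (2 : ℝ) ^ (-(κ * ℓ)) * (2 : ℝ) ^ (80 * M + 8) := by
        rw [← p2_add, ← p2_add]
        apply p2_mono
        have f4 := hring0.2
        rw [hD0] at f4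
        push_cast at f4
        have f5 : κ * ℓ ≤ 1 / 8 * ℓ := mul_le_mul_of_nonneg_right hκ8 hℓn
        rw [hD0]
        push_cast
        linarith
      calc _ = ((2 : ℝ) ^ (2 * ((D 0 : ℝ) + J 0)) * (2 : ℝ) ^ (-ℓ)) * Cμ := by ring
        _ ≤ ((2 : ℝ) ^ (-(κ * ℓ)) * (2 : ℝ) ^ (80 * M + 8)) * Cμ := mul_le_mul_of_nonneg_right f3 hCμ0.le
        _ = _ := by ring
    linarith
  -- rings
  have e1 : ∀ i, i < r → (4 : ℝ) ^ D (i + 1) * (2 : ℝ) ^ (-(c * (J (i + 1) : ℝ))) +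
      4 ^ (D (i + 1) + J (i + 1)) * q i ^ (1 / 4 : ℝ) ≤
      (2 : ℝ) ^ (-(κ * ℓ)) * (1 + 256 * C1') * (1 / 2) ^ (i + 1) := by
    intro i hi
    rw [hw1, hw2]
    have hDi' := hDi i hi
    have hDi0 : (0 : ℝ) ≤ D i := Nat.cast_nonneg _
    have hD40 : (40 : ℝ) * (i + 1) ≤ D i := by
      rw [hDi']
      have : i + 1 ≤ 2 ^ i := Nat.lt_two_pow_self (n := i)
      exact_mod_cast Nat.mul_le_mul_left 40 this
    have hi0 : (0 : ℝ) ≤ i := Nat.cast_nonneg _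
    have f1 : (2 : ℝ) ^ (2 * (D (i + 1) : ℝ) - c * J (i + 1)) ≤ (2 : ℝ) ^ (-(κ * ℓ)) * (1 / 2) ^ (i + 1) := by
      have g1 : (2 : ℝ) ^ (2 * (D (i + 1) : ℝ) - c * J (i + 1)) ≤ (2 : ℝ) ^ (-(κ * ℓ)) * (2 : ℝ) ^ (-(D i : ℝ)) := by
        rw [← p2_add]
        apply p2_mono
        have g2 : (D i : ℝ) ≤ D (i + 1) := by exact_mod_cast hDmono i
        linarith [(hring i).1]
      refine g1.trans (mul_le_mul_of_nonneg_left (half_pow_le i (by linarith)) (p2_pos _).le)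
    have hκ2 : κ * ℓ ≤ 1 / 8 * ℓ := mul_le_mul_of_nonneg_right hκ8 hℓn
    have f2 : (2 : ℝ) ^ (2 * ((D (i + 1) : ℝ) + J (i + 1))) * q i ^ (1 / 4 : ℝ) ≤
        (2 : ℝ) ^ (-(κ * ℓ)) * (256 * C1') * (1 / 2) ^ (i + 1) := by
      have key : q i ^ (1 / 4 : ℝ) ≤ C1' * (2 : ℝ) ^ (-(3 / 10 * (D i : ℝ)) - (4 * M * D i + ℓ / 32 + 8) + 8 - ℓ / 8) := by
        by_cases hc1 : (D i : ℝ) ≤ η' * ℓ
        · have hqe : q i = C1' * (2 : ℝ) ^ (-(6 / 5 * (D i : ℝ) + ℓ)) := by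
            rw [hq]
            exact if_pos hc1
          rw [hqe, Real.mul_rpow (by linarith) (p2_pos _).le, ← Real.rpow_mul (by norm_num)]
          have g1 : C1' ^ (1 / 4 : ℝ) ≤ C1' := by
            conv_rhs => rw [← Real.rpow_one C1']
            exact Real.rpow_le_rpow_of_exponent_le hC1'1 (by norm_num)
          have g2 : (2 : ℝ) ^ (-(6 / 5 * (D i : ℝ) + ℓ) * (1 / 4)) ≤
              (2 : ℝ) ^ (-(3 / 10 * (D i : ℝ)) - (4 * M * D i + ℓ / 32 + 8) + 8 - ℓ / 8) := by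
            apply p2_mono
            have g3 : 128 * M * (D i : ℝ) ≤ ℓ := by
              have : 128 * M * (D i : ℝ) ≤ 128 * M * (η' * ℓ) := mul_le_mul_of_nonneg_left hc1 (by linarith)
              have g4 : 128 * M * (η' * ℓ) = ℓ := by
                rw [← mul_assoc, hMη, one_mul]
              linarith
            linarith
          exact mul_le_mul g1 g2 (p2_pos _).le (by linarith)
        · have hqe : q i = (2 : ℝ) ^ (-((Q : ℝ) * D i)) := by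
            rw [hq]
            exact if_neg hc1
          rw [not_le] at hc1
          rw [hqe, ← Real.rpow_mul (by norm_num)]
          have g2 : (2 : ℝ) ^ (-((Q : ℝ) * D i) * (1 / 4)) ≤
              (2 : ℝ) ^ (-(3 / 10 * (D i : ℝ)) - (4 * M * D i + ℓ / 32 + 8) + 8 - ℓ / 8) := by
            apply p2_mono
            have g3 : ℓ ≤ 128 * M * (D i : ℝ) := by
              have : 128 * M * (η' * ℓ) ≤ 128 * M * (D i : ℝ) := mul_le_mul_of_nonneg_left hc1.le (by linarith)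
              have g4 : 128 * M * (η' * ℓ) = ℓ := by
                rw [← mul_assoc, hMη, one_mul]
              linarith
            have g5 : (96 * M + 4) * D i ≤ (Q : ℝ) * D i := mul_le_mul_of_nonneg_right hQR hDi0
            linarith
          refine g2.trans ?_
          have := p2_pos (-(3 / 10 * (D i : ℝ)) - (4 * M * D i + ℓ / 32 + 8) + 8 - ℓ / 8)
          nlinarith
      calc (2 : ℝ) ^ (2 * ((D (i + 1) : ℝ) + J (i + 1))) * q i ^ (1 / 4 : ℝ)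
          ≤ (2 : ℝ) ^ (4 * M * D i + ℓ / 32 + 8) *
            (C1' * (2 : ℝ) ^ (-(3 / 10 * (D i : ℝ)) - (4 * M * D i + ℓ / 32 + 8) + 8 - ℓ / 8)) :=
            mul_le_mul (p2_mono (hring i).2) key (Real.rpow_nonneg (by
              have := (hqi i hi).1
              linarith) _) (p2_pos _).le
        _ = C1' * (2 : ℝ) ^ (-(3 / 10 * (D i : ℝ)) + 8 - ℓ / 8) := by
            rw [mul_left_comm, ← p2_add]
            congr 2
            ring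
        _ ≤ C1' * ((2 : ℝ) ^ (-(κ * ℓ)) * 256 * (1 / 2) ^ (i + 1)) := by
            refine mul_le_mul_of_nonneg_left ?_ (by linarith)
            have g1 : (2 : ℝ) ^ (-(3 / 10 * (D i : ℝ)) + 8 - ℓ / 8) ≤
                (2 : ℝ) ^ (-(κ * ℓ)) * 256 * (2 : ℝ) ^ (-(3 / 10 * (D i : ℝ))) := by
              rw [show (256 : ℝ) = (2 : ℝ) ^ (8 : ℝ) by norm_num, ← p2_add, ← p2_add]
              apply p2_mono
              linarith
            refine g1.trans (mul_le_mul_of_nonneg_left (half_pow_le i (by linarith)) ?_)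
            have := p2_pos (-(κ * ℓ))
            positivity
        _ = _ := by ring
    calc _ ≤ (2 : ℝ) ^ (-(κ * ℓ)) * (1 / 2) ^ (i + 1) + (2 : ℝ) ^ (-(κ * ℓ)) * (256 * C1') * (1 / 2) ^ (i + 1) :=
          add_le_add f1 f2
      _ = _ := by ring
  have e2 : ∑ i ∈ range r, ((4 : ℝ) ^ D (i + 1) * (2 : ℝ) ^ (-(c * (J (i + 1) : ℝ))) +
      4 ^ (D (i + 1) + J (i + 1)) * q i ^ (1 / 4 : ℝ)) ≤ (2 : ℝ) ^ (-(κ * ℓ)) * (1 + 256 * C1') := by
    have h1 : ∑ i ∈ range r, ((4 : ℝ) ^ D (i + 1) * (2 : ℝ) ^ (-(c * (J (i + 1) : ℝ))) +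
        4 ^ (D (i + 1) + J (i + 1)) * q i ^ (1 / 4 : ℝ)) ≤
        ∑ i ∈ range r, (2 : ℝ) ^ (-(κ * ℓ)) * (1 + 256 * C1') * (1 / 2) ^ (i + 1) :=
      Finset.sum_le_sum fun i hi => e1 i (mem_range.1 hi)
    rw [← Finset.mul_sum] at h1
    refine h1.trans ?_
    have h2 : 0 ≤ (2 : ℝ) ^ (-(κ * ℓ)) * (1 + 256 * C1') := mul_nonneg (p2_pos _).le (by linarith)
    calc _ ≤ (2 : ℝ) ^ (-(κ * ℓ)) * (1 + 256 * C1') * 1 := mul_le_mul_of_nonneg_left (sum_half r) h2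
      _ = _ := mul_one _
  have e3 : y ^ (-(κ / 2)) = (2 : ℝ) ^ (-(κ / 2 * ℓ)) := by
    rw [hyℓ, ← Real.rpow_mul (by norm_num)]
    congr 1
    ring
  rw [e3]
  have hK3 : K * (1 + R) ^ 3 ≤ K * (1 + 2 ^ (mu + 7)) ^ 3 := by
    have : (1 + R) ^ 3 ≤ (1 + 2 ^ (mu + 7)) ^ 3 := pow_le_pow_left₀ (by linarith) (by linarith) 3
    exact mul_le_mul_of_nonneg_left this (by linarith)
  have hP := p2_pos (-(κ * ℓ))
  have hP80 := p2_pos (80 * M + 8)
  calc K * (1 + R) ^ 3 * _ ≤ K * (1 + 2 ^ (mu + 7)) ^ 3 *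
        ((2 : ℝ) ^ (-(κ * ℓ)) * (1 + (2 : ℝ) ^ (80 * M + 8) * Cμ) + (2 : ℝ) ^ (-(κ * ℓ)) * (1 + 256 * C1')) := by
        refine mul_le_mul hK3 (add_le_add e0 e2) ?_ (by positivity)
        refine add_nonneg (by positivity) (Finset.sum_nonneg fun i hi => ?_)
        have := (hqi i (mem_range.1 hi)).1
        positivity
    _ = B * (2 : ℝ) ^ (-(κ * ℓ)) := by
        rw [hB]
        ring
    _ = (2 : ℝ) ^ (Real.logb 2 B) * (2 : ℝ) ^ (-(κ * ℓ)) := by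
        rw [Real.rpow_logb (by norm_num) (by norm_num) hB0]
    _ ≤ (2 : ℝ) ^ (-(κ / 2 * ℓ)) := by
        rw [← p2_add]
        apply p2_mono
        linarith

end NTA

end HexObs
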