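import Pool.Agent.NTA.TailDefs
import Pool.Agent.NT.ExpQ

/-!
NTA: the mean length of the bridges of the scale k is at least 2 ^ ((4 / 3 - ε) k).
-/

set_option autoImplicit false

namespace HexObs

namespace NTA

open Finset TS SDN NTW

open scoped ENNReal

/-- Markov's inequality from the bound of the mean -/
theorem markov_of_mean {m : ℕ → ℝ} (h1 : ∃ C : ℝ, 0 < C ∧ ∀ k : ℕ,
    ∑ h ∈ Finset.range (2 ^ k + 1), ∑' t : Brd h, (t.1.length : ℝ≥0∞) * wE t.1 ≤ ENNReal.ofReal (C * Ub k * m k)) :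
    ∃ C : ℝ, 0 < C ∧ ∀ (k : ℕ) (y : ℝ), 0 < y → NTm.TL (2 ^ k) y ≤ ENNReal.ofReal (C * m k / y * Ub k) := by
  obtain ⟨C, hC, h⟩ := h1
  refine ⟨C, hC, fun k y hy => ?_⟩
  have h2 : ENNReal.ofReal y * NTm.TL (2 ^ k) y ≤ ENNReal.ofReal (C * Ub k * m k) := by
    refine le_trans ?_ (h k)
    unfold NTm.TL
    rw [Finset.mul_sum]
    refine Finset.sum_le_sum fun n _ => ?_
    have e1 : ∑' t : Brd n, (t.1.length : ℝ≥0∞) * wE t.1 = Rec8.sw (Brd n) (fun t => (t.length : ℝ≥0∞)) := by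
      unfold Rec8.sw
      exact tsum_congr fun t => mul_comm _ _
    rw [e1, ← Rec8.sw_one, ← Rec8.sw_mul_left, Rec8.sw_ind, Rec8.sw_ind]
    refine ENNReal.tsum_le_tsum fun t => ?_
    by_cases ht : t ∈ {Z | Z ∈ Brd n ∧ y ≤ (Z.length : ℝ)}
    · rw [if_pos ht, if_pos ht.1, mul_one]
      refine mul_le_mul_right ?_ _
      rw [← ENNReal.ofReal_natCast]
      exact ENNReal.ofReal_le_ofReal ht.2
    · rw [if_neg ht]
      exact zero_le
  have h3 : NTm.TL (2 ^ k) y ≤ ENNReal.ofReal (C * Ub k * m k) / ENNReal.ofReal y := by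
    rw [ENNReal.le_div_iff_mul_le (Or.inl (ENNReal.ofReal_pos.2 hy).ne') (Or.inl ENNReal.ofReal_ne_top), mul_comm]
    exact h2
  refine h3.trans (le_of_eq ?_)
  rw [← ENNReal.ofReal_div_of_pos hy]
  congr 1
  ring

/-- **the power lower bound of the mean length** -/
theorem mpow_of {m : ℕ → ℝ} (h1 : ∃ C : ℝ, 0 < C ∧ ∀ (k : ℕ) (y : ℝ), 0 < y →
    NTm.TL (2 ^ k) y ≤ ENNReal.ofReal (C * m k / y * Ub k)) :
    ∀ ε : ℝ, 0 < ε → ∃ l0 : ℕ, ∀ l : ℕ, l0 ≤ l → (2 : ℝ) ^ ((4 / 3 - ε) * (l : ℝ)) ≤ m l := by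
  intro ε hε
  obtain ⟨C, hC, h⟩ := h1
  obtain ⟨N0, hN⟩ := NTm.exp_low (ε / 2) (by linarith)
  obtain ⟨n, hn⟩ := exists_nat_ge (2 / ε * Real.logb 2 (4 * C))
  refine ⟨N0 + n, fun l hl => ?_⟩
  have hU := Ub_pos l
  have h2l : N0 ≤ 2 ^ l := le_trans (by omega) (Nat.lt_two_pow_self).le
  have h2 := hN (2 ^ l) h2l
  obtain ⟨y, hy⟩ : ∃ y : ℝ, y = ((2 ^ l : ℕ) : ℝ) ^ (4 / 3 - ε / 2) := ⟨_, rfl⟩
  have hy0 : 0 < y := by
    rw [hy]
    positivity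
  rw [← hy] at h2
  have h3 := NTm.mass_split (2 ^ l) y
  have h4 := h l y hy0
  have h5 : ENNReal.ofReal (Ub l) ≤ ENNReal.ofReal (C * m l / y * Ub l) + ENNReal.ofReal (Ub l / 4) :=
    h3.trans (add_le_add h4 h2)
  have h6 : 0 ≤ m l := by
    by_contra hcon
    push Not at hcon
    have e1 : C * m l / y * Ub l ≤ 0 := by
      have : C * m l / y ≤ 0 := div_nonpos_of_nonpos_of_nonneg (by nlinarith) hy0.le
      nlinarith
    rw [ENNReal.ofReal_of_nonpos e1, zero_add, ENNReal.ofReal_le_ofReal_iff (by positivity)] at h5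
    linarith
  rw [← ENNReal.ofReal_add (by positivity) (by positivity), ENNReal.ofReal_le_ofReal_iff (by positivity)] at h5
  have h7 : 3 / 4 * y ≤ C * m l := by
    have e1 : 3 / 4 * Ub l ≤ C * m l / y * Ub l := by linarith
    have e2 := le_of_mul_le_mul_right e1 hU
    rwa [le_div_iff₀ hy0] at e2
  have h8 : y = (2 : ℝ) ^ ((4 / 3 - ε / 2) * (l : ℝ)) := by
    rw [hy]
    push_cast
    rw [← Real.rpow_natCast, ← Real.rpow_mul (by norm_num)]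
    congr 1
    ring
  have h9 : 4 * C ≤ (2 : ℝ) ^ (ε / 2 * (l : ℝ)) := by
    have e1 : Real.logb 2 (4 * C) ≤ ε / 2 * (l : ℝ) := by
      have e2 : (n : ℝ) ≤ l := by exact_mod_cast (by omega : n ≤ l)
      have e3 : 2 / ε * Real.logb 2 (4 * C) ≤ l := hn.trans e2
      rw [div_mul_eq_mul_div, div_le_iff₀ hε] at e3
      linarith
    calc 4 * C = (2 : ℝ) ^ (Real.logb 2 (4 * C)) := (Real.rpow_logb (by norm_num) (by norm_num) (by linarith)).symm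
      _ ≤ _ := Real.rpow_le_rpow_of_exponent_le (by norm_num) e1
  have h10 : (2 : ℝ) ^ ((4 / 3 - ε / 2) * (l : ℝ)) = (2 : ℝ) ^ ((4 / 3 - ε) * (l : ℝ)) * (2 : ℝ) ^ (ε / 2 * (l : ℝ)) := by
    rw [← Real.rpow_add two_pos]
    congr 1
    ring
  obtain ⟨P, hP⟩ : ∃ P : ℝ, P = (2 : ℝ) ^ ((4 / 3 - ε) * (l : ℝ)) := ⟨_, rfl⟩
  have hP0 : 0 < P := by
    rw [hP]
    exact Real.rpow_pos_of_pos two_pos _
  rw [h8, h10, ← hP] at h7
  rw [← hP]
  have h11 : 3 / 4 * (P * (4 * C)) ≤ C * m l :=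
    le_trans (mul_le_mul_of_nonneg_left (mul_le_mul_of_nonneg_left h9 hP0.le) (by norm_num)) h7
  have h12 : C * (3 * P) ≤ C * m l := by
    calc C * (3 * P) = 3 / 4 * (P * (4 * C)) := by ring
      _ ≤ _ := h11
  have := le_of_mul_le_mul_left h12 hC
  linarith

end NTA

end HexObs
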