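import Mathlib

/-!
NTA: a triple convolution from below at an odd number (abstract).
-/

set_option autoImplicit false

namespace HexObs

namespace PtC

open Finset

/-- pairs of the same parity -/
lemma parity_sum (N : ℕ → ℝ) (M : ℕ) :
    (∑ k ∈ Icc 1 M, N k) ^ 2 / 2 ≤
      ∑ q ∈ (Icc 1 M ×ˢ Icc 1 M).filter (fun q : ℕ × ℕ => (q.1 + q.2) % 2 = 0), N q.1 * N q.2 := by
  have h1 : (∑ k ∈ Icc 1 M, N k) ^ 2 = ∑ q ∈ Icc 1 M ×ˢ Icc 1 M, N q.1 * N q.2 := by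
    rw [sq, sum_mul_sum, sum_product]
  have h2 : (∑ k ∈ Icc 1 M, (-1 : ℝ) ^ k * N k) ^ 2 =
      ∑ q ∈ Icc 1 M ×ˢ Icc 1 M, (-1 : ℝ) ^ (q.1 + q.2) * (N q.1 * N q.2) := by
    rw [sq, sum_mul_sum, sum_product]
    refine sum_congr rfl fun i _ => sum_congr rfl fun j _ => ?_
    rw [pow_add]
    ring
  have h3 : (∑ k ∈ Icc 1 M, N k) ^ 2 + (∑ k ∈ Icc 1 M, (-1 : ℝ) ^ k * N k) ^ 2 =
      2 * ∑ q ∈ (Icc 1 M ×ˢ Icc 1 M).filter (fun q : ℕ × ℕ => (q.1 + q.2) % 2 = 0), N q.1 * N q.2 := by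
    rw [h1, h2, ← sum_add_distrib, sum_filter, mul_sum]
    refine sum_congr rfl fun q _ => ?_
    by_cases h : (q.1 + q.2) % 2 = 0
    · rw [if_pos h]
      have : (-1 : ℝ) ^ (q.1 + q.2) = 1 := Even.neg_one_pow (Nat.even_iff.2 h)
      rw [this]
      ring
    · rw [if_neg h]
      have : (-1 : ℝ) ^ (q.1 + q.2) = -1 := Odd.neg_one_pow (Nat.odd_iff.2 (by omega))
      rw [this]
      ring
  have h4 : 0 ≤ (∑ k ∈ Icc 1 M, (-1 : ℝ) ^ k * N k) ^ 2 := sq_nonneg _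
  linarith

/-- **the triple convolution from below at an odd number** -/
theorem conv_low {N u : ℕ → ℝ} (hN : ∀ k, 0 ≤ N k) {s v D : ℝ} {n M : ℕ} (hn : n % 2 = 1)
    (hM : 4 * M ≤ n) (huv : ∀ j, M ≤ j → 1 ≤ j → j ≤ n → v ≤ u j)
    (hconv : ∀ F : Finset (ℕ × ℕ × ℕ), (∀ p ∈ F, p.1 + 2 * p.2.1 + p.2.2 = n) →
      ∑ p ∈ F, N (p.1 + 1) * (u p.2.1 * N p.2.2) ≤ D * s) (hv : 0 ≤ v) :
    v * ((∑ k ∈ Icc 1 M, N k) ^ 2 / 2) ≤ D * s := by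
  classical
  obtain ⟨P, hP⟩ : ∃ P : Finset (ℕ × ℕ), P = (Icc 1 M ×ˢ Icc 1 M).filter (fun q : ℕ × ℕ => (q.1 + q.2) % 2 = 0) :=
    ⟨_, rfl⟩
  have hmem : ∀ q ∈ P, 1 ≤ q.1 ∧ q.1 ≤ M ∧ 1 ≤ q.2 ∧ q.2 ≤ M ∧ (q.1 + q.2) % 2 = 0 := by
    intro q hq
    rw [hP, mem_filter, mem_product, mem_Icc, mem_Icc] at hq
    exact ⟨hq.1.1.1, hq.1.1.2, hq.1.2.1, hq.1.2.2, hq.2⟩
  obtain ⟨f, hf⟩ : ∃ f : ℕ × ℕ → ℕ × ℕ × ℕ, f = fun q => (q.1 - 1, (n - (q.1 - 1) - q.2) / 2, q.2) := ⟨_, rfl⟩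
  have hinj : Set.InjOn f P := by
    intro q hq q' hq' h
    have a := hmem q hq
    have b := hmem q' hq'
    rw [hf] at h
    have e1 := congrArg Prod.fst h
    have e2 := congrArg (fun x : ℕ × ℕ × ℕ => x.2.2) h
    simp only at e1 e2
    refine Prod.ext ?_ e2
    omega
  have h1 := hconv (P.image f) (by
    intro p hp
    obtain ⟨q, hq, rfl⟩ := mem_image.1 hp
    have a := hmem q hq
    rw [hf]
    simp only
    omega)
  rw [sum_image hinj] at h1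
  refine le_trans ?_ h1
  refine (mul_le_mul_of_nonneg_left (parity_sum N M) hv).trans ?_
  rw [← hP, mul_sum]
  refine sum_le_sum fun q hq => ?_
  have a := hmem q hq
  have e1 : (f q).1 + 1 = q.1 := by
    rw [hf]
    simp only
    omega
  have e2 : (f q).2.2 = q.2 := by rw [hf]
  have e3 : v ≤ u (f q).2.1 := by
    rw [hf]
    refine huv _ ?_ ?_ ?_ <;> simp only <;> omega
  rw [e1, e2]
  have h2 := mul_nonneg (hN q.1) (hN q.2)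
  calc v * (N q.1 * N q.2) ≤ u (f q).2.1 * (N q.1 * N q.2) := mul_le_mul_of_nonneg_right e3 h2
    _ = N q.1 * (u (f q).2.1 * N q.2) := by ring

end PtC

end HexObs
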