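import Pool.Agent.NTA.PtConv
import Pool.Agent.NTA.FinAllOf
import Pool.Agent.NTW.ScalesF
import Pool.Agent.PW.RenH
import Pool.Agent.BAR.TypB

/-!
NTA: the weight of the self-avoiding walks with exactly `n` steps, from below at EVERY `n`: it is at least a constant
times the mean weight of the numbers of steps up to `n`.
-/

set_option autoImplicit false

namespace NTSF

open Finset

open HexObs hiding pos

open HexObs.TS HexObs.SDN HexObs.NTW

open HexObs.NTm (Seq)

open Pool.Agent.NTS.Res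

open scoped ENNReal Classical

namespace Pt

/-! ### 1. One more step -/

lemma pos_init {n : ℕ} (s : Fin (n + 1) → Fin 3) {k : ℕ} (hk : k ≤ n) :
    pos (fun i : Fin n => s i.castSucc) k = pos s k := by
  unfold pos
  rw [sum_filter, sum_filter, Fin.sum_univ_castSucc]
  rw [if_neg (by simp only [Fin.val_last]; omega), add_zero]
  rfl

lemma saw_succ (n : ℕ) : (saw (n + 1)).card ≤ 3 * (saw n).card := by
  have h1 : (saw (n + 1)).card ≤ ((saw n) ×ˢ (Finset.univ : Finset (Fin 3))).card := by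
    refine card_le_card_of_injOn (fun s => (fun i : Fin n => s i.castSucc, s (Fin.last n))) ?_ ?_
    · intro s hs
      rw [mem_coe] at hs ⊢
      rw [mem_product]
      refine ⟨?_, mem_univ _⟩
      rw [mem_saw] at hs ⊢
      intro j k hj hk h
      simp only at h
      rw [pos_init s hj, pos_init s hk] at h
      exact hs j k (by omega) (by omega) h
    · intro s _ s' _ h
      have e1 := congrArg Prod.fst h
      have e2 := congrArg Prod.snd h
      simp only at e1 e2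
      funext i
      refine Fin.lastCases e2 (fun j => ?_) i
      exact congrFun e1 j
  rw [card_product, card_univ, Fintype.card_fin] at h1
  omega

lemma fug_pos : 0 < fug := by
  rw [fug_eq]
  exact HexObs.xc_pos

lemma ww_succ (n : ℕ) : ww (n + 1) ≤ 3 * ww n := by
  have h1 : ((saw (n + 1)).card : ℝ) ≤ 3 * (saw n).card := by exact_mod_cast saw_succ n
  have h2 : fug ≤ 1 := by
    rw [fug_eq]
    linarith [BAR.xc_le]
  have h3 := fug_pos
  unfold ww
  calc ((saw (n + 1)).card : ℝ) * fug ^ (n + 1) ≤ 3 * (saw n).card * fug ^ (n + 1) := by gcongr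
    _ = 3 * ((saw n).card * fug ^ n) * fug := by ring
    _ ≤ 3 * ((saw n).card * fug ^ n) * 1 := by gcongr
    _ = _ := mul_one _

lemma cS_le_ww {n : ℕ} (hn : 0 < n) : (cS n : ℝ) * xc ^ n ≤ ww n := by
  have h := card_saw hn (fun _ => True) (fun _ => Iff.rfl)
  have e1 : ((saw n).filter fun _ => True) = saw n := Finset.filter_true_of_mem (fun _ _ => trivial)
  have e2 : {t | t ∈ SawN n ∧ True} = SawN n := by
    ext t
    exact ⟨fun h => h.1, fun h => ⟨h, trivial⟩⟩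
  rw [e2] at h
  have h1 : 2 * (saw n).card = 3 * cS n := by
    unfold cS
    rw [← h]
    congr 2
    rw [Finset.filter_true_of_mem (fun _ _ => trivial)]
  have h2 : (2 : ℝ) * (saw n).card = 3 * cS n := by exact_mod_cast h1
  have h3 : (cS n : ℝ) ≤ (saw n).card := by
    have : (0 : ℝ) ≤ cS n := Nat.cast_nonneg _
    linarith
  unfold ww
  rw [fug_eq]
  have := HexObs.xc_pos
  gcongr

/-! ### 2. Words without a cut -/

/-- weight of the half plane words without a cut and with k letters -/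
noncomputable def Nx (k : ℕ) : ℝ := (BAR.cI k : ℝ) * xc ^ k

lemma Nx_nonneg (k : ℕ) : 0 ≤ Nx k := by
  have := HexObs.xc_pos
  unfold Nx
  positivity

lemma one_le_cI : 1 ≤ BAR.cI 1 := by
  have h1 : [true] ∈ BAR.HiN 1 := by
    refine ⟨BAR.HpN_iff.2 ⟨rfl, fun i h1 h2 => ?_, fun i l h1 h2 => ?_⟩, ?_⟩
    · simp only [List.length_singleton] at h2
      obtain rfl : i = 1 := by omega
      rw [lev_one]
      norm_num
    · simp only [List.length_singleton] at h2
      obtain rfl : i = 0 := by omega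
      obtain rfl : l = 1 := by omega
      decide
    · rw [← Finset.not_nonempty_iff_eq_empty]
      rintro ⟨j, hj⟩
      obtain ⟨h3, h4, h5, _⟩ := BAR.mem_cuts.1 hj
      simp only [List.length_singleton] at h4
      obtain rfl : j = 1 := by omega
      revert h5
      decide
  unfold BAR.cI
  exact Nat.one_le_iff_ne_zero.2 (Set.ncard_ne_zero_of_mem h1 (BAR.HiN_fin 1))

lemma Nx_one : 0 < Nx 1 := by
  have h1 : (1 : ℝ) ≤ BAR.cI 1 := by exact_mod_cast one_le_cI
  have := HexObs.xc_pos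
  unfold Nx
  positivity

/-- their sum up to M -/
noncomputable def Sx (M : ℕ) : ℝ := ∑ k ∈ Icc 1 M, Nx k

lemma Sx_nonneg (M : ℕ) : 0 ≤ Sx M := sum_nonneg fun k _ => Nx_nonneg k

lemma Sx_mono {M M' : ℕ} (h : M ≤ M') : Sx M ≤ Sx M' :=
  sum_le_sum_of_subset_of_nonneg (Icc_subset_Icc_right h) fun k _ _ => Nx_nonneg k

lemma Sx_range : ∃ C : ℝ, 1 ≤ C ∧ ∀ M : ℕ, 1 ≤ M → ∑ k ∈ range (M + 1), Nx k ≤ C * Sx M := by
  have h1 := Nx_one
  have h0 := Nx_nonneg 0
  refine ⟨1 + Nx 0 / Nx 1, by have : 0 ≤ Nx 0 / Nx 1 := by positivity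
                              linarith, fun M hM => ?_⟩
  have e : ∑ k ∈ range (M + 1), Nx k = Sx M + Nx 0 := by
    rw [sum_range_succ']
    congr 1
    unfold Sx
    rw [range_eq_Ico, sum_Ico_add' (fun k => Nx k) 0 M 1]
    rfl
  have h2 : Nx 1 ≤ Sx M := single_le_sum (f := Nx) (fun k _ => Nx_nonneg k) (mem_Icc.2 ⟨le_rfl, hM⟩)
  have h3 : Nx 0 ≤ Nx 0 / Nx 1 * Sx M := by
    calc Nx 0 = Nx 0 / Nx 1 * Nx 1 := by field_simp
      _ ≤ _ := by gcongr
  rw [e]
  linarith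

lemma NAl_le (d lam : ℕ) : gf {W | W ∈ BAR.NA d ∧ W.length ≤ lam} ≤
    ENNReal.ofReal (∑ k ∈ range (lam + 1), Nx k) := by
  have h1 : {W | W ∈ BAR.NA d ∧ W.length ≤ lam} ⊆ ⋃ k ∈ range (lam + 1), BAR.HiN k := by
    rintro t ⟨ht, hl⟩
    rw [Set.mem_iUnion₂]
    have h2 := BAR.mem_SSt.1 ht.1
    refine ⟨t.length, Finset.mem_range.2 (by omega), ?_, BAR.NA_cuts ht⟩
    exact BAR.HpN_iff.2 ⟨rfl, BAR.pos_SSt ht.1, h2.2⟩
  refine (gf_mono h1).trans ((BAR.gf_bi_le _ _).trans ?_)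
  rw [ENNReal.ofReal_sum_of_nonneg fun k _ => Nx_nonneg k]
  exact sum_le_sum fun k _ => le_of_eq (BAR.gf_HiN k)

/-- the half plane words against the words without a cut -/
lemma bl_le : ∃ K : ℝ, 1 ≤ K ∧ ∀ lam L : ℕ, 1 ≤ lam → bl lam L ≤ ENNReal.ofReal (K * Sx lam) := by
  obtain ⟨K, hK, h1⟩ := lowM2
  obtain ⟨C, hC, h2⟩ := Sx_range
  refine ⟨K * C, by nlinarith, fun lam L hlam => ?_⟩
  unfold bl
  refine iSup_le fun i => ?_
  have hU : 0 < UU (2 ^ i.1) := Num2Aux.UU_pos _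
  rw [ENNReal.div_le_iff (by simpa using hU) ENNReal.ofReal_ne_top]
  have h3 := (NAl_le (2 ^ i.1) lam).trans (ENNReal.ofReal_le_ofReal (h2 lam hlam))
  have h4 := Sx_nonneg lam
  calc HHl (2 ^ i.1) lam ≤ ENNReal.ofReal (K * UU (2 ^ i.1)) * gf {W | W ∈ BAR.NA (2 ^ i.1) ∧ W.length ≤ lam} := h1 i.1 lam
    _ ≤ ENNReal.ofReal (K * UU (2 ^ i.1)) * ENNReal.ofReal (C * Sx lam) := mul_le_mul_right h3 _
    _ = ENNReal.ofReal (K * C * Sx lam) * ENNReal.ofReal (UU (2 ^ i.1)) := by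
        rw [← ENNReal.ofReal_mul (by positivity), ← ENNReal.ofReal_mul (by positivity)]
        congr 1
        ring

/-! ### 3. Bridges -/

/-- weight of the bridges with less than 2 m letters -/
noncomputable def Ux (m : ℕ) : ℝ := ∑ j ∈ range m, BrL.ub j

lemma ub_nonneg (j : ℕ) : 0 ≤ BrL.ub j := by
  unfold BrL.ub
  exact ENNReal.toReal_nonneg

lemma Ux_mono {m m' : ℕ} (h : m ≤ m') : Ux m ≤ Ux m' :=
  sum_le_sum_of_subset_of_nonneg (range_mono h) fun j _ _ => ub_nonneg j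

/-- the bridges with few letters, by letters -/
lemma gf_le_Ux (q : ℕ) : gf {X | (∃ n, X ∈ Brd n) ∧ X.length < 2 * q} ≤ ENNReal.ofReal (Ux q) := by
  have h1 : {X | (∃ n, X ∈ Brd n) ∧ X.length < 2 * q} ⊆ ⋃ i ∈ range q, BrL.BLs (2 * i) := by
    rintro X ⟨⟨n, hX⟩, hl⟩
    obtain ⟨r, hr⟩ := BrL.even_length hX
    rw [Set.mem_iUnion₂]
    exact ⟨r, Finset.mem_range.2 (by omega), ⟨n, hX⟩, by omega⟩
  refine (gf_mono h1).trans ((BAR.gf_bi_le _ _).trans (le_of_eq ?_))
  unfold Ux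
  rw [ENNReal.ofReal_sum_of_nonneg fun j _ => ub_nonneg j]
  refine sum_congr rfl fun i _ => ?_
  unfold BrL.ub
  exact (ENNReal.ofReal_toReal (BrL.BLs_ne_top _)).symm

lemma Ux_ge {k N : ℕ} (h : ENNReal.ofReal (Ub k) ≤ 2 * gf {X | (∃ n, n ≤ 2 ^ k ∧ X ∈ Brd n) ∧ X.length ≤ N}) {q : ℕ}
    (hq : N < 2 * q) : Ub k / 2 ≤ Ux q := by
  have h2 : gf {X | (∃ n, n ≤ 2 ^ k ∧ X ∈ Brd n) ∧ X.length ≤ N} ≤ ENNReal.ofReal (Ux q) := by
    refine (gf_mono ?_).trans (gf_le_Ux q)
    rintro X ⟨⟨n, -, hX⟩, hXl⟩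
    exact ⟨⟨n, hX⟩, by omega⟩
  have h0 : 0 ≤ Ux q := sum_nonneg fun j _ => ub_nonneg j
  have h4 := h.trans (mul_le_mul_right h2 _)
  rw [show (2 : ℝ≥0∞) = ENNReal.ofReal 2 by norm_num, ← ENNReal.ofReal_mul (by norm_num),
    ENNReal.ofReal_le_ofReal_iff (by positivity)] at h4
  linarith

lemma Ux_low {θ : ℝ} {l : ℕ → ℕ} (hl : Seq θ l) (hθ : θ ≤ 1 / 2) {j m : ℕ} (h : l j < 2 * m) : Ub j / 2 ≤ Ux m :=
  Ux_ge (QL_seq hl hθ j j le_rfl) h

/-! ### 4. One number of steps -/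

lemma one_num (hI : BrL.IndB) : ∃ c : ℝ, 0 < c ∧ ∀ n : ℕ, 1 ≤ n → c * (Ux (n / 4) * Sx (n / 4) ^ 2) ≤ n * ww n := by
  obtain ⟨c, hc, hub⟩ := BrL.ub_low hI
  -- odd numbers
  have hodd : ∀ n : ℕ, n % 2 = 1 → c / 24 * (Ux (n / 4) * Sx (n / 4) ^ 2) ≤ n * ww n := by
    intro n hn
    have hn0 : 0 < n := by omega
    have hnR : (0 : ℝ) < n := by exact_mod_cast hn0
    have hU := Ux_mono (Nat.zero_le (n / 4))
    have hU0 : 0 ≤ Ux (n / 4) := sum_nonneg fun j _ => ub_nonneg j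
    have h1 := PtC.conv_low (N := Nx) (u := BrL.ub) Nx_nonneg (s := (cS n : ℝ) * xc ^ n)
      (v := c * (Ux (n / 4) / n)) (D := 12) (n := n) (M := n / 4) hn (by omega) (by
        intro j hj hj1 hjn
        refine le_trans ?_ (hub j hj1)
        have hj0 : (0 : ℝ) < j := by exact_mod_cast hj1
        have hjR : (j : ℝ) ≤ n := by exact_mod_cast hjn
        refine mul_le_mul_of_nonneg_left ?_ hc.le
        have h2 : Ux (n / 4) ≤ ∑ i ∈ range j, BrL.ub i := Ux_mono hj
        have h3 : 0 ≤ ∑ i ∈ range j, BrL.ub i := sum_nonneg fun i _ => ub_nonneg i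
        calc Ux (n / 4) / n ≤ (∑ i ∈ range j, BrL.ub i) / n := by gcongr
          _ ≤ (∑ i ∈ range j, BrL.ub i) / j := by gcongr)
      (fun F hF => BAR.conv_cS n F hF) (by positivity)
    have h2 := cS_le_ww hn0
    have h3 : c * (Ux (n / 4) / n) * (Sx (n / 4) ^ 2 / 2) ≤ 12 * ww n := by
      refine h1.trans ?_
      linarith
    calc c / 24 * (Ux (n / 4) * Sx (n / 4) ^ 2) = n * (c * (Ux (n / 4) / n) * (Sx (n / 4) ^ 2 / 2)) / 12 := by
          field_simp
          ring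
      _ ≤ n * (12 * ww n) / 12 := by gcongr
      _ = n * ww n := by ring
  refine ⟨c / 24 / 6, by positivity, fun n hn => ?_⟩
  have hnR : (1 : ℝ) ≤ n := by exact_mod_cast hn
  have hU0 : 0 ≤ Ux (n / 4) := sum_nonneg fun j _ => ub_nonneg j
  have hS0 := Sx_nonneg (n / 4)
  have hw := ww_pos n
  rcases Nat.mod_two_eq_zero_or_one n with h0 | h0
  · have h1 := hodd (n + 1) (by omega)
    have h2 := ww_succ n
    have h3 : Ux (n / 4) ≤ Ux ((n + 1) / 4) := Ux_mono (by omega)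
    have h4 : Sx (n / 4) ≤ Sx ((n + 1) / 4) := Sx_mono (by omega)
    push_cast at h1
    have h5 : c / 24 * (Ux (n / 4) * Sx (n / 4) ^ 2) ≤ c / 24 * (Ux ((n + 1) / 4) * Sx ((n + 1) / 4) ^ 2) := by
      have hU1 : 0 ≤ Ux ((n + 1) / 4) := hU0.trans h3
      gcongr
    have h6 : ((n : ℝ) + 1) * ww (n + 1) ≤ (2 * n) * (3 * ww n) := by
      have := ww_pos (n + 1)
      gcongr
      linarith
    have h7 : c / 24 * (Ux (n / 4) * Sx (n / 4) ^ 2) ≤ 6 * (n * ww n) := by linarith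
    linarith
  · have h1 := hodd n h0
    have h2 : 0 ≤ c / 24 * (Ux (n / 4) * Sx (n / 4) ^ 2) := by positivity
    linarith

lemma ww_min (N : ℕ) : ∃ c : ℝ, 0 < c ∧ ∀ n : ℕ, n ≤ N → c ≤ ww n := by
  induction N with
  | zero => exact ⟨ww 0, ww_pos 0, fun n hn => by rw [Nat.le_zero.1 hn]⟩
  | succ N ih =>
    obtain ⟨c, hc, h⟩ := ih
    refine ⟨min c (ww (N + 1)), lt_min hc (ww_pos _), fun n hn => ?_⟩
    rcases Nat.lt_or_ge n (N + 1) with h1 | h1
    · exact (min_le_left _ _).trans (h n (by omega))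
    · rw [show n = N + 1 by omega]
      exact min_le_right _ _

end Pt

open Pt in
/-- **every number of steps, from below**: the weight of the self-avoiding walks with exactly `n` steps is at least a
constant times the mean weight of the numbers of steps up to `n` -/
theorem pt_low {θ : ℝ} {l : ℕ → ℕ} (hl : Seq θ l) (h0 : 0 < θ) (h1 : θ ≤ 1 / 2) (hS : ScaleP l Set.univ)
    (_hup1 : ∃ C : ℝ, ∀ k, (l (k + 1) : ℝ) ≤ C * l k) (hI : BrL.IndB) :
    ∃ c : ℝ, 0 < c ∧ ∀ n : ℕ, 1 ≤ n → c * weight n Set.univ ≤ n * ww n := by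
  obtain ⟨Ci, δi, hIn⟩ := inp_exists
  have hA : SsA := ssA hIn
  have hT : TailP l := tailP' hA rep_two hl h0 h1
  have hE : ExtP l := extP_of hl h0 h1 hA ssDP (coverTwo rep_two) pivotEx
  obtain ⟨K, q, L0, hK, htot⟩ := tot_le hl.mono hT hE
  obtain ⟨s, k0, hs⟩ := seq_mul hl h0 (by linarith : θ < 1) 16
  obtain ⟨C, L1, hC, hsc⟩ := hS (1 + q + s + q)
  obtain ⟨Kb, hKb, hbl⟩ := bl_le
  obtain ⟨c1, hc1, hnum⟩ := one_num hI
  obtain ⟨k3, hk3⟩ : ∃ k3 : ℕ, k3 = L0 + L1 + k0 + s + q := ⟨_, rfl⟩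
  obtain ⟨c2, hc2, hmin⟩ := ww_min (l k3)
  obtain ⟨R, hR⟩ : ∃ R : ℝ, R = 3 / 2 * (K * (2 ^ (s + 1) * 2)) * (C * K) * Kb ^ 2 := ⟨_, rfl⟩
  have hR0 : 0 < R := by
    rw [hR]
    positivity
  -- large numbers
  have hlarge : ∀ n : ℕ, l k3 ≤ n → weight n Set.univ ≤ R * (Ux (n / 4) * Sx (n / 4) ^ 2) := by
    intro n hn
    obtain ⟨L, hL3, hLn, hnL⟩ := scale_of hl.low hn
    obtain ⟨L', hL'⟩ : ∃ L', L = L' + q + s := ⟨L - q - s, by omega⟩
    have b1 := hs (L' + q) (by omega)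
    rw [← hL'] at b1
    have b2 := hl.one (L' + q)
    have b3 : 2 * l (L' + q) ≤ n / 4 := by omega
    have a1 := htot (L + 1) (by omega)
    have a2 : BB l (L + 1) q ≤ BB l L' (1 + q + s + q) := BB_mono hl.mono (by omega)
    have a3 := hsc L' (Set.mem_univ _) (by omega)
    have a4 := htot L' (by omega)
    have hUL := Ub_pos L'
    have a5 : BB l L' (1 + q + s + q) ≤ ENNReal.ofReal (C * K) * BB l L' q := by
      have a6 : ENNReal.ofReal (Ub L') * BB l L' (1 + q + s + q) ≤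
          ENNReal.ofReal (Ub L') * (ENNReal.ofReal (C * K) * BB l L' q) := by
        refine a3.trans ((mul_le_mul_right a4 _).trans (le_of_eq ?_))
        rw [← mul_assoc, ← mul_assoc, ← ENNReal.ofReal_mul hC.le, ← ENNReal.ofReal_mul hUL.le]
        congr 2
        ring
      exact (ENNReal.mul_le_mul_iff_right (by simpa using hUL) ENNReal.ofReal_ne_top).1 a6
    have a7 : BB l L' q ≤ ENNReal.ofReal ((Kb * Sx (n / 4)) ^ 2) := by
      unfold BB
      rw [ENNReal.ofReal_pow (mul_nonneg (by linarith) (Sx_nonneg _))]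
      refine pow_le_pow_left' ((hbl _ _ (by omega)).trans (ENNReal.ofReal_le_ofReal ?_)) 2
      exact mul_le_mul_of_nonneg_left (Sx_mono b3) (by linarith)
    have a8 := Ux_low hl h1 (j := L' + q) (m := n / 4) (by omega)
    have a9 : Ub (L + 1) ≤ 2 ^ (s + 1) * Ub (L' + q) := by
      rw [show L + 1 = (L' + q) + (s + 1) by omega]
      exact Sc.Ub_shift _ _
    have hUx : 0 ≤ Ux (n / 4) := sum_nonneg fun j _ => ub_nonneg j
    have a10 : Ub (L + 1) ≤ 2 ^ (s + 1) * 2 * Ux (n / 4) := by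
      refine a9.trans ?_
      have : (0 : ℝ) < 2 ^ (s + 1) := by positivity
      nlinarith
    have a11 : gf (SAL (l (L + 1))) ≤ ENNReal.ofReal (2 / 3 * (R * (Ux (n / 4) * Sx (n / 4) ^ 2))) := by
      refine a1.trans ((mul_le_mul' (ENNReal.ofReal_le_ofReal (mul_le_mul_of_nonneg_left a10 hK.le))
        (a2.trans (a5.trans (mul_le_mul_right a7 _)))).trans (le_of_eq ?_))
      rw [← ENNReal.ofReal_mul (by positivity), ← ENNReal.ofReal_mul (by positivity)]
      congr 1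
      rw [hR]
      ring
    have a12 := weight_le (l (L + 1)) Set.univ
    have e : {t | t ∈ SAL (l (L + 1)) ∧ t.length ∈ Set.univ} = SAL (l (L + 1)) := by
      ext t
      exact ⟨fun h => h.1, fun h => ⟨h, Set.mem_univ _⟩⟩
    rw [e] at a12
    have a13 := a12.trans a11
    have hSx := Sx_nonneg (n / 4)
    rw [ENNReal.ofReal_le_ofReal_iff (by positivity)] at a13
    have a14 := weight_mono_N hnL.le Set.univ
    linarith
  -- the end
  obtain ⟨c, hc⟩ : ∃ c : ℝ, c = min (c1 / R) (c2 / weight (l k3) Set.univ) := ⟨_, rfl⟩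
  have hW := weight_univ_pos (l k3)
  refine ⟨c, ?_, fun n hn => ?_⟩
  · rw [hc]
    exact lt_min (by positivity) (by positivity)
  · have hnR : (1 : ℝ) ≤ n := by exact_mod_cast hn
    have hwn := ww_pos n
    have hwt := weight_nonneg n Set.univ
    rcases Nat.lt_or_ge n (l k3) with h2 | h2
    · have h3 : c ≤ c2 / weight (l k3) Set.univ := by
        rw [hc]
        exact min_le_right _ _
      have h4 := weight_mono_N h2.le Set.univ
      calc c * weight n Set.univ ≤ c2 / weight (l k3) Set.univ * weight (l k3) Set.univ := by gcongr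
        _ = c2 := by field_simp
        _ ≤ ww n := hmin n h2.le
        _ = 1 * ww n := (one_mul _).symm
        _ ≤ _ := by gcongr
    · have h3 : c ≤ c1 / R := by
        rw [hc]
        exact min_le_left _ _
      have h4 := hlarge n h2
      calc c * weight n Set.univ ≤ c1 / R * (R * (Ux (n / 4) * Sx (n / 4) ^ 2)) := by gcongr
        _ = c1 * (Ux (n / 4) * Sx (n / 4) ^ 2) := by field_simp
        _ ≤ _ := hnum n hn

end NTSF
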