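import Pool.Agent.NTA.StepT
import Pool.Agent.NTW.CrdC
import Pool.Agent.SDN.DimMain

/-!
NTA (natural time, all scales): a run of interior leaves of t in a box is a chain of the class CS (few block pairs of caps).
-/

set_option autoImplicit false

namespace HexObs

namespace NTA

open Finset TS SDN NTW

open scoped ENNReal

/-- the height of a leaf in a box -/
lemma leaf_box {dir : Bool} {b μ m u x y i : ℕ} {t : List Bool} {e : ℕ → ℕ} (ht : t ∈ SA) (hb : 3 ≤ b)
    (hF : Lf dir b t m u e) (hbx : Bx (b + μ) t x y) (hx : x ≤ e i) (hy : e (i + 1) ≤ y) (h1 : 1 ≤ i) (h2 : i + 2 ≤ m) :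
    ∃ n : ℕ, 2 ^ (b - 1) ≤ n ∧ n ≤ 2 ^ (b + μ) ∧ lw t (e i) (e (i + 1)) ∈ Brd n := by
  obtain ⟨n, n1, n2, n3⟩ := lw_brd ht (by omega : 1 ≤ b) hF h1 h2
  have hlt := lf_mono hF (i := i) (j := i + 1) (by omega) (by omega)
  have h3 := hbx.2.2 dir (e (i + 1)) (e i) (by omega) hy hx (by omega)
  have h4 := hbx.2.2 dir (e i) (e (i + 1)) hx (by omega) (by omega) hy
  refine ⟨n, ?_, ?_, n1⟩
  · have h5 : 2 ^ b = 2 * 2 ^ (b - 1) := by
      rw [← pow_succ']
      congr 1
      omega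
    have h6 := Nat.one_le_two_pow (n := b - 1)
    omega
  · have h5 : |lvl dir (vx oo up t (e (i + 1))) - lvl dir (vx oo up t (e i))| ≤ 3 * 2 ^ (b + μ) :=
      abs_le.2 ⟨by linarith, h3⟩
    rw [n3] at h5
    have h6 : (n : ℤ) ≤ ((2 ^ (b + μ) : ℕ) : ℤ) := by
      push_cast
      linarith
    exact_mod_cast h6

/-- the heights of a run in a box -/
lemma run_box {dir : Bool} {k μ m u x y l d : ℕ} {t : List Bool} {e : ℕ → ℕ} (ht : t ∈ SA)
    (hF : Lf dir (k + 5) t m u e) (hbx : Bx (k + 5 + μ) t x y) (hx : x ≤ e l) (hy : e (l + d) ≤ y) (hl : 1 ≤ l)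
    (hm : l + d + 1 ≤ m) : ∀ g ∈ lws t e l d, g ∈ BrR (2 ^ (k + 4)) (2 ^ (k + 5 + μ)) := by
  intro g hg
  unfold lws at hg
  rw [List.mem_map] at hg
  obtain ⟨i, hi, rfl⟩ := hg
  rw [List.mem_range] at hi
  obtain ⟨n, n1, n2, n3⟩ := leaf_box ht (by omega : 3 ≤ k + 5) hF hbx (i := l + i)
    (hx.trans (lf_mono hF (by omega) (by omega))) ((lf_mono hF (by omega) (by omega)).trans hy) (by omega) (by omega)
  exact ⟨n, by simpa using n1, n2, n3⟩

/-- **a run of interior leaves in a box is in CS** -/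
theorem run_cs : ∃ Cc : ℕ, 1 ≤ Cc ∧ ∀ (dir : Bool) (k w0 μ m u l d n x y : ℕ) (t : List Bool) (e : ℕ → ℕ), t ∈ SA →
    w0 ≤ k → Lf dir (k + 5) t m u e → Bx (k + 5 + μ) t x y → x ≤ e l → e (l + d) ≤ y → 1 ≤ l → l + d + 1 ≤ m → 6 ≤ d →
    Cc * 2 ^ w0 * 4 ^ μ ≤ n → lws t e l d ∈ CS (2 ^ (k + 4)) (2 ^ (k + 5 + μ)) (k + 2) (2 ^ (k - w0)) n d := by
  obtain ⟨C, hC⟩ := caps_card
  refine ⟨C * 4 ^ 5 + 1, by omega, fun dir k w0 μ m u l d n x y t e ht hw0 hlf hbx hx hy hl hm hd hn => ?_⟩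
  have h := hlf
  unfold Lf at h
  obtain ⟨J, hJ⟩ : ∃ J, J = 2 * ((d - 4) / 2) := ⟨_, rfl⟩
  have hJ1 : 1 ≤ J := by omega
  have hmono : ∀ i j, i ≤ j → j ≤ m → e i ≤ e j := fun i j hij hj => lf_mono hlf hij hj
  -- the heights
  have hBr := run_box ht hlf hbx hx hy hl hm
  have hmid : ((lws t e l d).drop 1).take J = lws t e (l + 1) J := by
    apply List.ext_getElem
    · rw [PE.lws_length, List.length_take, List.length_drop, PE.lws_length]
      omega
    · intro i h1 h2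
      rw [PE.lws_length] at h2
      rw [List.getElem_take, List.getElem_drop]
      unfold lws
      rw [List.getElem_map, List.getElem_range, List.getElem_map, List.getElem_range]
      congr 2
      · ring
      · ring
  obtain ⟨w1, w2, w3⟩ := lws_word ht (by omega : 1 ≤ k + 5) hlf (j := l + 1) (n := J) (by omega) hJ1 (by omega)
  obtain ⟨v1, v2, v3⟩ := lws_word ht (by omega : 1 ≤ k + 5) hlf (j := l) (n := d) hl (by omega) (by omega)
  have hle1 : e (l + 1) ≤ t.length := lf_le hlf (by omega)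
  have hle2 : e (l + 1 + J) ≤ t.length := lf_le hlf (by omega)
  have hlt1 : e (l + 1) < e (l + 1 + J) := by
    have a1 := h.lt (l + 1) (by omega)
    have a2 := hmono (l + 1 + 1) (l + 1 + J) (by omega) (by omega)
    omega
  have hlt2 : e (l + 1) + 2 ≤ e (l + 1 + J) := by
    have a1 := h.lt (l + 1) (by omega)
    have a2 := h.lt (l + 1 + 1) (by omega)
    have a3 := hmono (l + 1 + 1 + 1) (l + 1 + J) (by omega) (by omega)
    omega
  obtain ⟨q, hq⟩ : ∃ q, q = (unf (lws t e (l + 1) J)).dropLast := ⟨_, rfl⟩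
  rw [← hq] at w1
  have hqlen : q.length + 1 + 1 + e (l + 1) = e (l + 1 + J) := by
    have := congrArg List.length w1
    rw [List.length_append, List.length_append, List.length_take, List.length_drop] at this
    omega
  have hqt : q = (t.drop (e (l + 1) + 1)).take (e (l + 1 + J) - 1 - (e (l + 1) + 1)) := by
    have htk : (t.take (e (l + 1) + 1)).length = e (l + 1) + 1 := by
      rw [List.length_take]
      omega
    conv_rhs => rw [w1]
    rw [List.drop_left' htk, List.take_append_of_le_length (by omega), List.take_of_length_le (by omega)]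
  have hqW : q ∈ WL (k + 5 + μ + 1 + 2) := by
    rw [hqt]
    apply T2.infix_WL ht (by omega) (by omega)
    intro dir i j hi hi' hj hj'
    have a1 := hmono l (l + 1) (by omega) (by omega)
    have a2 := hmono (l + 1 + J) (l + d) (by omega) (by omega)
    have := hbx.2.2 dir i j (by omega) (by omega) (by omega) (by omega)
    unfold row
    have hp : (1 : ℤ) ≤ 2 ^ (k + 5 + μ) := by exact_mod_cast Nat.one_le_two_pow
    rw [pow_succ]
    omega
  have hqs : q ∈ SA := hqW.1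
  have hHB : ∀ g ∈ lws t e (l + 1) J, g ∈ HB (2 ^ (k + 4)) := by
    intro g hg
    rw [← hmid] at hg
    obtain ⟨x, x1, _, x3⟩ := hBr g (List.mem_of_mem_drop (List.mem_of_mem_take hg))
    exact ⟨x, x1, x3⟩
  have hq2 : q = (unf (lws t e (l + 1) J)).dropLast ++ [] := by rw [List.append_nil, hq]
  obtain ⟨c1, c2⟩ := caps_nc (k := k) (w := 2 ^ (k - w0)) Nat.one_le_two_pow hqs hq2 hHB
    (by rw [PE.lws_length, hJ]; exact ⟨(d - 4) / 2, by ring⟩)
  have hcard := hC k (k - w0) q (caps (k + 2) (2 ^ (k - w0)) 0 0 (lws t e (l + 1) J)).toFinset (by omega) c1 (by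
    intro x hx
    rw [List.mem_toFinset] at hx
    obtain ⟨i, j, hij, hj, l1, l2, l3, l4⟩ := c2 x hx
    refine ⟨i, j, by omega, hj, l1, l2, l3, ?_⟩
    rw [l4]
    push_cast
    rfl)
  refine ⟨PE.lws_length _ _ _ _, v2, hBr, ?_, ?_⟩
  · rw [← hJ, hmid]
    exact c1
  · rw [← hJ, hmid]
    refine hcard.trans (le_trans ?_ hn)
    have h1 : nb (k + 5) q ≤ 4 ^ (μ + 5) := SDN.DimMain.nb_box hqW (μ + 4) (k + 5) (by ring)
    have h2 : k - (k - w0) = w0 := by omega
    rw [h2]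
    calc C * 2 ^ w0 * nb (k + 5) q ≤ C * 2 ^ w0 * 4 ^ (μ + 5) := by gcongr
      _ = C * 4 ^ 5 * 2 ^ w0 * 4 ^ μ := by rw [pow_add]; ring
      _ ≤ (C * 4 ^ 5 + 1) * 2 ^ w0 * 4 ^ μ := by gcongr; omega

end NTA

end HexObs
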