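import Pool.Agent.NTW.QDefs

/-!
NTA (natural time, all scales): walks with a marked run of consecutive leaves.
-/

set_option autoImplicit false

namespace HexObs

namespace NTA

open Finset TS SDN NTW

open scoped ENNReal

open Classical in
/-- the runs of R beginning with the leaf g, with the functional Φ behind the last leaf -/
noncomputable def runF (R : Set (List (List Bool))) (Φ : List Bool → ℝ≥0∞) (g : List Bool) : ℝ≥0∞ :=
  ∑' ms : List (List Bool), if (g :: ms) ∈ R ∧ (g :: ms).IsChain LFold then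
    SDN.wl ms * Φ ((g :: ms).getLastD []) else 0

/-- a class of runs of small norm at the scale kc + 5 -/
structure SmR (Dm : ℕ → ℝ≥0∞ → (List Bool → ℝ≥0∞) → Prop) (kc : ℕ) (R : Set (List (List Bool))) (δ : ℝ) : Prop where
  near : ∀ (x : ℝ≥0∞) (Φ : List Bool → ℝ≥0∞), Dm kc x Φ →
    xT (2 ^ (kc + 4)) kc (vA (2 ^ (kc + 4)) (HB (2 ^ (kc + 4))) (runF R Φ)) ≤ ENNReal.ofReal δ * x
  free : ∀ (y x : ℝ≥0∞) (Ψ Φ : List Bool → ℝ≥0∞), Dm kc y Ψ → Flp (2 ^ (kc + 4)) Ψ → Dm kc x Φ →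
    Rec8.sw (HB (2 ^ (kc + 4))) (fun g => Ψ (rev g) * runF R Φ g) ≤ ENNReal.ofReal (δ * Ub kc) * (y * x)

/-- walks of the box with a marked run in R -/
def ER (kc J : ℕ) (R : Set (List (List Bool))) : Set (List Bool) :=
  {t | t ∈ WL (kc + J) ∧ ∃ (m u : ℕ) (e : ℕ → ℕ), Fd (kc + 5) t m u e ∧ ∃ l d : ℕ, 1 ≤ d ∧ l + d ≤ m ∧
    ∀ ms : List (List Bool), ms.length = d → (∀ (i : ℕ) (hi : i < ms.length), PosL t u e (l + i) ms[i]) →
      (∀ (i : ℕ) (hi : i < ms.length), 1 ≤ l + i → l + i + 2 ≤ m → ms[i] = lw t (e (l + i)) (e (l + i + 1))) →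
      ms.IsChain LFold → (∀ g ∈ ms, g ∈ BrR (2 ^ (kc + 4)) (2 ^ (kc + J + 2))) → ms ∈ R}

/-- the event theorem for runs -/
def EventR (Dm : ℕ → ℝ≥0∞ → (List Bool → ℝ≥0∞) → Prop) : Prop := ∃ (C : ℝ) (k0 : ℕ), 1 ≤ C ∧
  ∀ (kc J lam lam' : ℕ) (R : Set (List (List Bool))) (δ : ℝ), k0 ≤ kc → 6 ≤ J → 0 < δ → QL (kc + J + 8) lam' →
    SmR Dm kc R δ →
    gf {t | t ∈ SAL lam ∧ t ∈ ER kc J R} ≤
      ENNReal.ofReal (C ^ J * δ * Ub (kc + J)) * (bl (lam + lam' + 40) (kc + J + 8)) ^ 2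

/-- the monotone chain through the run of the leaves l, ..., l + d: the ranges decrease before the run and increase after
it -/
def GeoRun : Prop := ∀ (b m u : ℕ) (t : List Bool) (e : ℕ → ℕ), 1 ≤ b → t ∈ SA → Fd b t m u e → ∀ l d, l + d < m →
  ∃ (r u' p : ℕ) (E : ℕ → ℕ), p + d < r ∧ FoldG t r u' E ∧
    (∀ i, i ≤ d + 1 → E (p + i) = e (l + i)) ∧
    (∀ i, i ≤ d → ∀ g, PosL t u' E (p + i) g → PosL t u e (l + i) g) ∧
    (p = 0 → l = 0) ∧ (r = p + d + 1 → m = l + d + 1) ∧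
    (∀ q, q < r → RR b ≤ RG t u' E q) ∧
    (∀ q, q + 1 < p → RG t u' E (q + 1) ≤ RG t u' E q) ∧
    (∀ q, p + d < q → q + 1 < r → RG t u' E q ≤ RG t u' E (q + 1)) ∧
    (∀ i, i < E 0 → Tight.sg u' (lev t i) - Tight.sg u' (lev t (E 0)) ≤ if p = 0 then RR b else RG t u' E 0) ∧
    (∀ i, E r < i → i ≤ t.length → Tight.sg (u' + (r - 1)) (lev t (E r)) - Tight.sg (u' + (r - 1)) (lev t i) ≤
      if p + d + 1 = r then RR b else RG t u' E (r - 1))

end NTA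

end HexObs
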