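import Pool.Agent.T2.OneStep
import Pool.Agent.NTW.QDefs
import Pool.Agent.NTA.RunDefs
import Pool.Agent.SDN.Peierls1M

/-!
NTA (natural time, all scales): one step with the leaves of t. A time interval [x, y] of t in a box of the scale b + μ is
cut in both directions by the folds of t of the scale b.
-/

set_option autoImplicit false

namespace HexObs

namespace NTA

open Finset TS SDN NTW

open scoped ENNReal

/-- the times x, ..., y of the walk t lie in a box of size 2 ^ q -/
def Bx (q : ℕ) (t : List Bool) (x y : ℕ) : Prop :=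
  x ≤ y ∧ y ≤ t.length ∧ ∀ dir i j, x ≤ i → i ≤ y → x ≤ j → j ≤ y →
    lvl dir (vx oo up t i) - lvl dir (vx oo up t j) ≤ 3 * 2 ^ q

/-- the times x, ..., y are cut into at most K pieces without backtracks R of f, all but N of them of length at most h -/
def Part (f : ℕ → ℤ) (x y : ℕ) (R : ℤ) (K N : ℕ) (h : ℝ) : Prop :=
  ∃ (k : ℕ) (c : ℕ → ℕ) (S : Finset ℕ), k ≤ K ∧ S.card ≤ N ∧ c 0 = 0 ∧ c k = y - x ∧
    (∀ p, p < k → c p ≤ c (p + 1)) ∧ (∀ p, p ≤ k → c p ≤ y - x) ∧
    (∀ p, p < k → p ∉ S → (c (p + 1) : ℝ) - c p ≤ h) ∧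
    (∀ p, p < k → ∃ s : ℤ, (s = 1 ∨ s = -1) ∧ ∀ i j, c p ≤ i → i ≤ j → j ≤ c (p + 1) →
      s * f (x + i) - s * f (x + j) < R)

/-- one step -/
theorem step_box {t : List Bool} {b μ K N x y : ℕ} {h S1 : ℝ} (hb : 5 ≤ b) (hbx : Bx (b + μ) t x y) (hh : 0 ≤ h)
    (hS1p : 0 ≤ S1)
    (hS1 : ∀ x' y', x ≤ x' → y' ≤ y → Bx (b + 1) t x' y' → (y' : ℝ) - x' ≤ S1)
    (h0 : Part (fun i => lvl false (vx oo up t i)) x y (RR b) K N h)
    (h1 : Part (fun i => lvl true (vx oo up t i)) x y (RR b) K N h) :
    (y : ℝ) - x ≤ 2 * K * h + N ^ 2 * (2 ^ (μ + 5) * (S1 + 1)) := by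
  obtain ⟨hxy, hyn, hV⟩ := hbx
  obtain ⟨k0, c0, T0, hk0, hT0, h00, h0n, hm0, hl0, hn0, hs0⟩ := h0
  obtain ⟨k1, c1, T1, hk1, hT1, h10, h1n, hm1, hl1, hn1, hs1⟩ := h1
  have hB : (0 : ℝ) ≤ 2 ^ (μ + 5) * (S1 + 1) := by positivity
  have hpw : (32 : ℤ) ≤ 2 ^ b := by
    calc (32 : ℤ) = 2 ^ 5 := by norm_num
      _ ≤ 2 ^ b := by exact_mod_cast Nat.pow_le_pow_right (by norm_num) hb
  have hmu : (1 : ℤ) ≤ 2 ^ μ := by exact_mod_cast Nat.one_le_two_pow
  have hV' : ∀ dir i j, x ≤ i → i ≤ y → x ≤ j → j ≤ y →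
      lvl dir (vx oo up t i) - lvl dir (vx oo up t j) ≤ ((2 ^ (μ + 2) : ℕ) : ℤ) * RR b := by
    intro dir i j hi hi' hj hj'
    have h1 := hV dir i j hi hi' hj hj'
    rw [pow_add] at h1
    have h3 : ((2 ^ (μ + 2) : ℕ) : ℤ) * RR b = 12 * (2 ^ b * 2 ^ μ) - 8 * 2 ^ μ := by
      unfold RR
      push_cast
      ring
    rw [h3]
    have h4 : 8 * (2 : ℤ) ^ μ ≤ 6 * (2 ^ b * 2 ^ μ) := by nlinarith
    omega
  have key := T2.two_partitions (n := y - x) h00 h0n h10 h1n hm0 hm1 (S0 := T0) (S1 := T1)
    (l := h) (B := 2 ^ (μ + 5) * (S1 + 1)) hh hB hn0 hn1 (by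
      intro p hp q hq hpk hqk hxy'
      obtain ⟨s0, hs0', hq0⟩ := hs0 p hpk
      obtain ⟨s1, hs1', hq1⟩ := hs1 q hqk
      obtain ⟨x', hx⟩ : ∃ x', x' = max (c0 p) (c1 q) := ⟨_, rfl⟩
      obtain ⟨y', hy⟩ : ∃ y', y' = min (c0 (p + 1)) (c1 (q + 1)) := ⟨_, rfl⟩
      rw [← hx, ← hy] at hxy' ⊢
      have hx0 : c0 p ≤ x' := by rw [hx]; exact le_max_left _ _
      have hx1 : c1 q ≤ x' := by rw [hx]; exact le_max_right _ _
      have hy0 : y' ≤ c0 (p + 1) := by rw [hy]; exact min_le_left _ _
      have hy1 : y' ≤ c1 (q + 1) := by rw [hy]; exact min_le_right _ _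
      have hyn' : y' ≤ y - x := hy0.trans (hl0 _ (by omega))
      have hR : 1 ≤ RR b := by unfold RR; omega
      have h := T2.bimono_cut (f0 := fun i => lvl false (vx oo up t (x + i))) (f1 := fun i => lvl true (vx oo up t (x + i)))
        (R := RR b) hR (V := 2 ^ (μ + 2)) (x := x') (y := y') hxy' hs0' hs1'
        (fun i j hi hij hj => hq0 i j (hx0.trans hi) hij (hj.trans hy0))
        (fun i j hi hij hj => hq1 i j (hx1.trans hi) hij (hj.trans hy1))
        (fun i j _ hi _ hj => hV' false (x + i) (x + j) (by omega) (by omega) (by omega) (by omega))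
        (fun i j _ hi _ hj => hV' true (x + i) (x + j) (by omega) (by omega) (by omega) (by omega)) (S := S1) (by
          intro x'' y'' hx' hxy'' hy' hf0 hf1
          have h1 : Bx (b + 1) t (x + x'') (x + y'') := by
            refine ⟨by omega, by omega, ?_⟩
            intro dir i j hi hi' hj hj'
            have e1 : x + (i - x) = i := by omega
            have e2 : x + (j - x) = j := by omega
            have h2 : lvl dir (vx oo up t i) - lvl dir (vx oo up t j) < 2 * RR b := by
              cases dir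
              · have := hf0 (i - x) (j - x) (by omega) (by omega) (by omega) (by omega)
                simp only [e1, e2] at this
                exact this
              · have := hf1 (i - x) (j - x) (by omega) (by omega) (by omega) (by omega)
                simp only [e1, e2] at this
                exact this
            unfold RR at h2
            rw [pow_succ]
            omega
          have h2 := hS1 (x + x'') (x + y'') (by omega) (by omega) h1
          push_cast at h2
          linarith)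
      refine h.trans ?_
      have h6 : (1 : ℝ) ≤ 2 ^ μ := one_le_pow₀ (by norm_num)
      have h7 : (0 : ℝ) ≤ S1 + 1 := by positivity
      have h8 : (2 * ((2 ^ (μ + 2) : ℕ) : ℝ) + 1) ≤ 2 ^ (μ + 5) := by
        push_cast
        rw [pow_add, pow_add]
        nlinarith
      exact mul_le_mul_of_nonneg_right h8 h7)
  rw [Nat.cast_sub hxy] at key
  refine key.trans ?_
  have hk : (k0 : ℝ) + k1 ≤ 2 * K := by
    have : k0 + k1 ≤ 2 * K := by omega
    exact_mod_cast this
  have hc0 : (T0.card : ℝ) ≤ N := by exact_mod_cast hT0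
  have hc1 : (T1.card : ℝ) ≤ N := by exact_mod_cast hT1
  apply add_le_add
  · exact mul_le_mul_of_nonneg_right hk hh
  · rw [sq]
    apply mul_le_mul_of_nonneg_right _ hB
    exact mul_le_mul hc0 hc1 (by positivity) (by positivity)

/-- restriction of a partition of the times 0, ..., n to the times x, ..., y -/
theorem cut_restrict {M n x y : ℕ} {a : ℕ → ℕ} (h0 : a 0 = 0) (hM : a M = n) (hmono : ∀ p, p < M → a p ≤ a (p + 1))
    (hxy : x < y) (hyn : y ≤ n) :
    ∃ p0 d : ℕ, p0 + d < M ∧ a p0 ≤ x ∧ x < a (p0 + 1) ∧ a (p0 + d) < y ∧ y ≤ a (p0 + d + 1) := by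
  obtain ⟨p, hp, hp1, hp2⟩ := T2.part_of h0 hM (t := x) (by omega)
  obtain ⟨q, hq, hq1, hq2⟩ := T2.part_of h0 hM (t := y - 1) (by omega)
  have hmm : ∀ i j, i ≤ j → j ≤ M → a i ≤ a j := by
    intro i j hij
    induction j, hij using Nat.le_induction with
    | base => intro _; exact le_rfl
    | succ j hj ih => intro hjM; exact (ih (by omega)).trans (hmono j (by omega))
  have hpq : p ≤ q := by
    by_contra hcon
    have := hmm (q + 1) p (by omega) (by omega)
    omega
  refine ⟨p, q - p, by omega, hp1, hp2, ?_, ?_⟩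
  · rw [Nat.add_sub_cancel' hpq]
    omega
  · rw [Nat.add_sub_cancel' hpq]
    omega

lemma lw_length_ge {t : List Bool} {a b : ℕ} (hb : b ≤ t.length) (hab : a < b) : b - a ≤ (lw t a b).length + 1 := by
  unfold lw
  rw [List.length_append, List.length_take, List.length_drop, List.length_singleton]
  omega

/-- the pieces have no backtracks -/
lemma lf_piece {dir : Bool} {b m u : ℕ} {t : List Bool} {e : ℕ → ℕ} (hF : Lf dir b t m u e) {p : ℕ} (hp : p < m + 2) :
    ∃ s : ℤ, (s = 1 ∨ s = -1) ∧ ∀ i j, T2.cpt t.length m e p ≤ i → i ≤ j → j ≤ T2.cpt t.length m e (p + 1) →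
      s * lvl dir (vx oo up t i) - s * lvl dir (vx oo up t j) < RR b := by
  have hF' := hF
  unfold Lf at hF'
  rcases Nat.eq_zero_or_pos p with h0 | h0
  · subst h0
    refine ⟨1, Or.inl rfl, ?_⟩
    intro i j _ hij hj
    rw [zero_add, show (1 : ℕ) = 0 + 1 from rfl, T2.cpt_mid _ _ _ (by omega)] at hj
    rw [one_mul, one_mul]
    exact hF'.start i j (hij.trans hj) hj
  · obtain ⟨i, rfl⟩ : ∃ i, p = i + 1 := ⟨p - 1, by omega⟩
    by_cases h1 : i + 1 ≤ m
    · refine ⟨if Even (u + i) then -1 else 1, ?_, ?_⟩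
      · by_cases h2 : Even (u + i)
        · right
          rw [if_pos h2]
        · left
          rw [if_neg h2]
      · intro x y hx hxy hy
        rw [T2.cpt_mid _ _ _ (by omega)] at hx
        rw [T2.cpt_mid _ _ _ h1] at hy
        have h2 := hF'.small i (by omega) x y hx hxy hy
        unfold Tight.sg at h2
        by_cases h3 : Even (u + i)
        · rw [if_pos h3, if_pos h3] at h2
          rw [if_pos h3]
          linarith
        · rw [if_neg h3, if_neg h3] at h2
          rw [if_neg h3]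
          linarith
    · have h2 : i = m := by omega
      subst h2
      refine ⟨1, Or.inl rfl, ?_⟩
      intro x y hx hxy hy
      rw [T2.cpt_mid _ _ _ le_rfl] at hx
      rw [T2.cpt_end] at hy
      have h1 := hF'.fin x y hx (by omega) (by omega) hy
      rw [one_mul, one_mul]
      exact h1

lemma lf_mono {dir : Bool} {b m u : ℕ} {t : List Bool} {e : ℕ → ℕ} (hF : Lf dir b t m u e) {i j : ℕ} (hij : i ≤ j)
    (hj : j ≤ m) : e i ≤ e j := by
  have hF' := hF
  unfold Lf at hF'
  induction j, hij using Nat.le_induction with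
  | base => exact le_rfl
  | succ j hj' ih => exact (ih (by omega)).trans (hF'.lt j (by omega)).le

lemma lf_le {dir : Bool} {b m u : ℕ} {t : List Bool} {e : ℕ → ℕ} (hF : Lf dir b t m u e) {i : ℕ} (hi : i ≤ m) :
    e i ≤ t.length := by
  have h := lf_mono hF hi le_rfl
  unfold Lf at hF
  exact h.trans hF.le

lemma cpt_mono {dir : Bool} {b m u : ℕ} {t : List Bool} {e : ℕ → ℕ} (hF : Lf dir b t m u e) {p : ℕ} (hp : p < m + 2) :
    T2.cpt t.length m e p ≤ T2.cpt t.length m e (p + 1) := by
  rcases Nat.eq_zero_or_pos p with h0 | h0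
  · subst h0
    rw [T2.cpt_zero]
    omega
  · obtain ⟨i, rfl⟩ : ∃ i, p = i + 1 := ⟨p - 1, by omega⟩
    rw [T2.cpt_mid _ _ _ (by omega)]
    by_cases h1 : i + 1 ≤ m
    · rw [T2.cpt_mid _ _ _ h1]
      exact lf_mono hF (by omega) h1
    · have h2 : i = m := by omega
      subst h2
      rw [T2.cpt_end]
      exact lf_le hF le_rfl

open Classical in
/-- the times x, ..., y are cut by the folds of t; l, ..., l + d - 1 are the interior leaves of t (without the first two)
between x and y -/
theorem part_run {dir : Bool} {b m u x y : ℕ} {t : List Bool} {e : ℕ → ℕ} (hF : Lf dir b t m u e) (hxy : x < y)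
    (hy : y ≤ t.length) :
    ∃ l d : ℕ, (d = 0 ∨ (2 ≤ l ∧ l + d + 1 ≤ m ∧ x ≤ e l ∧ e (l + d) ≤ y)) ∧
      ∀ (n0 J0 : ℕ) (LS : Set (List Bool)) (h : ℝ), (∀ g, g ∉ LS → (g.length : ℝ) ≤ h) → d ≤ n0 →
        ((range d).filter (fun i => 1 ≤ i ∧ lw t (e (l + i)) (e (l + i + 1)) ∈ LS)).card ≤ J0 →
        Part (fun i => lvl dir (vx oo up t i)) x y (RR b) (n0 + 5) (J0 + 6) (h + 1) := by
  have hF' := hF
  unfold Lf at hF'
  obtain ⟨a, ha⟩ : ∃ a, a = T2.cpt t.length m e := ⟨_, rfl⟩
  have a0 : a 0 = 0 := by rw [ha]; exact T2.cpt_zero _ _ _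
  have aM : a (m + 2) = t.length := by rw [ha]; exact T2.cpt_end _ _ _
  have am : ∀ p, p < m + 2 → a p ≤ a (p + 1) := by
    intro p hp
    rw [ha]
    exact cpt_mono hF hp
  have ai : ∀ i, i ≤ m → a (i + 1) = e i := by
    intro i hi
    rw [ha]
    exact T2.cpt_mid _ _ _ hi
  have amm : ∀ i j, i ≤ j → j ≤ m + 2 → a i ≤ a j := by
    intro i j hij
    induction j, hij using Nat.le_induction with
    | base => intro _; exact le_rfl
    | succ j hj ih => intro hjM; exact (ih (by omega)).trans (am j (by omega))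
  obtain ⟨p0, d, hpd, hx1, hx2, hy1, hy2⟩ := cut_restrict a0 aM am hxy hy
  -- the run
  obtain ⟨la, hla⟩ : ∃ la, la = max p0 2 := ⟨_, rfl⟩
  obtain ⟨lb, hlb⟩ : ∃ lb, lb = min (p0 + d - 1) (m - 1) := ⟨_, rfl⟩
  obtain ⟨d', hd'⟩ : ∃ d', d' = lb - la := ⟨_, rfl⟩
  refine ⟨la, d', ?_, ?_⟩
  · rcases Nat.eq_zero_or_pos d' with h0 | h0
    · exact Or.inl h0
    · right
      have e1 : la ≤ m - 1 := by omega
      have e2 : la + d' ≤ m - 1 := by omega
      refine ⟨by omega, by omega, ?_, ?_⟩
      · rw [← ai la (by omega)]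
        exact hx2.le.trans (amm _ _ (by omega) (by omega))
      · rw [← ai (la + d') (by omega)]
        exact (amm _ (p0 + d) (by omega) (by omega)).trans hy1.le
  · intro n0 J0 LS h hLS hdn hJ
    obtain ⟨c, hc⟩ : ∃ c : ℕ → ℕ, c = fun j => if j = 0 then 0 else if j ≤ d then a (p0 + j) - x else y - x := ⟨_, rfl⟩
    have c0 : c 0 = 0 := by rw [hc]; simp
    have cj : ∀ j, 1 ≤ j → j ≤ d → c j = a (p0 + j) - x := by
      intro j h1 h2
      rw [hc]
      simp only
      rw [if_neg (by omega), if_pos h2]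
    have cd : c (d + 1) = y - x := by
      rw [hc]
      simp only
      rw [if_neg (by omega), if_neg (by omega)]
    have hlt : ∀ j, j ≤ d → a (p0 + j) < y := fun j hj => lt_of_le_of_lt (amm _ _ (by omega) (by omega)) hy1
    have hgt : ∀ j, 1 ≤ j → x < a (p0 + j) ∨ d < j := by
      intro j hj
      rcases Nat.lt_or_ge d j with h1 | h1
      · exact Or.inr h1
      · exact Or.inl (lt_of_lt_of_le hx2 (amm _ _ (by omega) (by omega)))
    obtain ⟨L1, hL1⟩ : ∃ L1 : Finset ℕ, L1 = (range d').filter (fun i => 1 ≤ i ∧ lw t (e (la + i)) (e (la + i + 1)) ∈ LS) :=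
      ⟨_, rfl⟩
    rw [← hL1] at hJ
    obtain ⟨S, hS⟩ : ∃ S : Finset ℕ, S = ({0, d, 1 - p0, 2 - p0, m - p0, la + 1 - p0} : Finset ℕ) ∪
      L1.image (fun i => la + i + 1 - p0) := ⟨_, rfl⟩
    refine ⟨d + 1, c, S, ?_, ?_, c0, cd, ?_, ?_, ?_, ?_⟩
    · omega
    · rw [hS]
      calc _ ≤ ({0, d, 1 - p0, 2 - p0, m - p0, la + 1 - p0} : Finset ℕ).card +
            (L1.image (fun i => la + i + 1 - p0)).card := Finset.card_union_le _ _
        _ ≤ 6 + L1.card := Nat.add_le_add Finset.card_le_six Finset.card_image_le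
        _ ≤ J0 + 6 := by omega
    · intro p hp
      rcases Nat.eq_zero_or_pos p with h0 | h0
      · rw [h0, c0]
        omega
      · rcases Nat.lt_or_ge p d with h1 | h1
        · rw [cj p h0 (by omega), cj (p + 1) (by omega) (by omega)]
          have := am (p0 + p) (by omega)
          rw [show p0 + (p + 1) = p0 + p + 1 by ring]
          omega
        · have h2 : p = d := by omega
          rw [h2, cj d (by omega) le_rfl, cd]
          have := hlt d le_rfl
          omega
    · intro p hp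
      rcases Nat.eq_zero_or_pos p with h0 | h0
      · rw [h0, c0]
        omega
      · rcases Nat.lt_or_ge p (d + 1) with h1 | h1
        · rw [cj p h0 (by omega)]
          have := hlt p (by omega)
          omega
        · have h2 : p = d + 1 := by omega
          rw [h2, cd]
    · intro p hp hpS
      rw [hS] at hpS
      simp only [Finset.mem_union, Finset.mem_insert, Finset.mem_singleton, Finset.mem_image, not_or, not_exists,
        not_and] at hpS
      obtain ⟨⟨q1, q2, q3, q3', q4, q5⟩, q6⟩ := hpS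
      have h1 : 1 ≤ p := by omega
      have h2 : p < d := by omega
      -- the leaf number p0 + p - 1
      obtain ⟨i, hi⟩ : ∃ i, p0 + p = i + 1 := ⟨p0 + p - 1, by omega⟩
      have hi1 : 2 ≤ i := by omega
      have hi2 : i + 2 ≤ m := by omega
      have hia : la ≤ i := by omega
      have hib : i < lb := by omega
      obtain ⟨r, hr⟩ : ∃ r, i = la + r := ⟨i - la, by omega⟩
      have hr1 : 1 ≤ r := by omega
      have hr2 : r < d' := by omega
      have hlong : lw t (e (la + r)) (e (la + r + 1)) ∉ LS := by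
        intro hcon
        refine q6 r ?_ (by omega)
        rw [hL1, Finset.mem_filter, Finset.mem_range]
        exact ⟨hr2, hr1, hcon⟩
      have h3 := hLS _ hlong
      rw [← hr] at h3
      have h4 := lw_length_ge (lf_le hF (i := i + 1) (by omega)) (hF'.lt i (by omega))
      rw [cj p h1 h2.le, cj (p + 1) (by omega) (by omega), show p0 + (p + 1) = p0 + p + 1 by ring, hi,
        ai i (by omega), ai (i + 1) (by omega)]
      have h5 : x ≤ e i := by
        rw [← ai i (by omega), ← hi]
        rcases hgt p h1 with h6 | h6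
        · exact h6.le
        · omega
      have h6 := hF'.lt i (by omega)
      rw [Nat.cast_sub h5, Nat.cast_sub (h5.trans h6.le)]
      have h7 : (e (i + 1) : ℝ) ≤ e i + ((lw t (e i) (e (i + 1))).length + 1) := by
        have : e (i + 1) ≤ e i + ((lw t (e i) (e (i + 1))).length + 1) := by omega
        exact_mod_cast this
      linarith
    · intro p hp
      obtain ⟨s, hs, hs2⟩ := lf_piece hF (p := p0 + p) (by omega)
      refine ⟨s, hs, fun i j hi hij hj => ?_⟩
      rw [← ha] at hs2
      apply hs2 (x + i) (x + j) _ (by omega) _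
      · rcases Nat.eq_zero_or_pos p with h0 | h0
        · rw [h0, add_zero]
          omega
        · rw [cj p h0 (by omega)] at hi
          rcases hgt p h0 with h6 | h6 <;> omega
      · rcases Nat.lt_or_ge p d with h1 | h1
        · rw [cj (p + 1) (by omega) (by omega)] at hj
          rcases hgt (p + 1) (by omega) with h6 | h6
          · rw [show p0 + (p + 1) = p0 + p + 1 by ring] at hj h6
            omega
          · omega
        · have h2 : p = d := by omega
          rw [h2, cd] at hj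
          rw [h2]
          omega

/-- no folds: one piece -/
theorem part_one {f : ℕ → ℤ} {x y : ℕ} {R : ℤ} {K N : ℕ} {h : ℝ} (hK : 1 ≤ K) (hN : 1 ≤ N)
    (hf : ∀ i j, x ≤ i → i ≤ j → j ≤ y → f i - f j < R) (hxy : x ≤ y) : Part f x y R K N h := by
  refine ⟨1, fun p => if p = 0 then 0 else y - x, {0}, hK, by simpa using hN, by simp, by simp, ?_, ?_, ?_, ?_⟩
  · intro p hp
    have h0 : p = 0 := by omega
    subst h0
    simp
  · intro p hp
    dsimp only
    split_ifs <;> omega
  · intro p hp hpS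
    have h0 : p = 0 := by omega
    subst h0
    exact absurd (Finset.mem_singleton_self 0) hpS
  · intro p hp
    have h0 : p = 0 := by omega
    subst h0
    refine ⟨1, Or.inl rfl, fun i j _ hij hj => ?_⟩
    simp only [Nat.zero_add, one_ne_zero, if_false] at hj
    rw [one_mul, one_mul]
    exact hf _ _ (by omega) (by omega) (by omega)

end NTA

end HexObs
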