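import Pool.Agent.NTA.TITail

/-!
NTA: the tail of the lengths of the infixes for the ensembles of words with the event theorem for runs.
-/

set_option autoImplicit false

namespace HexObs

namespace NTA

open Finset TS SDN NTW

open scoped ENNReal

/-- the crowded runs of the class SmR, with a threshold Q (n + 1) ≤ m only -/
theorem smR_crowd' (mu : ℕ) : ∃ (k0 w0 Q : ℕ) (C0 : ℝ), w0 ≤ k0 ∧ 0 < C0 ∧ ∀ kc m n : ℕ, k0 ≤ kc → Q * (n + 1) ≤ m →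
    SmR DmJ kc (CS (2 ^ (kc + 4)) (2 ^ (kc + 5 + mu)) (kc + 2) (2 ^ (kc - w0)) n m) (C0 / 4 ^ m) := by
  obtain ⟨k0, w0, Q, C0, hw, hQ, hC0, h⟩ := smR_crowd mu
  refine ⟨k0, w0, 2 * Q, C0, hw, hC0, fun kc m n hk hm => h kc m n hk ?_ hm⟩
  have h1 : 2 * Q * 1 ≤ 2 * Q * (n + 1) := Nat.mul_le_mul_left _ (by omega)
  omega

/-- an ensemble of words is an ensemble with the norm SmR of the runs -/
theorem ensR_of_ens {E : ℕ → Set (List Bool)} {nu : ℕ → ℝ≥0∞} (hE : Ens E nu) :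
    EnsR (fun _ : Unit => E) nu (SmR DmJ) := by
  refine ⟨fun _ K => hE.sub K, ?_, ?_, fun mu => smR_crowd' mu, ?_, ?_, ?_⟩
  · obtain ⟨C, k0, hC, h⟩ := hE.run
    exact ⟨C, k0, hC, fun _ => h⟩
  · exact fun kc R δ δ' h1 h2 => TI.SmR_mono h1 h2
  · obtain ⟨K, hK, h⟩ := smR_fill
    exact ⟨K, 0, 1, 0, hK, fun kc mu m1 J S δ _ hδ hS => h kc mu m1 J S δ hδ hS⟩
  · obtain ⟨C, hC, h⟩ := hE.tot
    refine ⟨C, hC, fun _ K => (h K).trans (mul_le_mul_left (ENNReal.ofReal_le_ofReal ?_) _)⟩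
    calc C = C ^ 1 := (pow_one C).symm
      _ ≤ C ^ (K + 1) := pow_le_pow_right₀ hC (by omega)
  · obtain ⟨c, hc, h⟩ := hE.low
    refine ⟨max 1 (1 / c), le_max_left _ _, fun K => le_trans (ENNReal.ofReal_le_ofReal ?_) (h K)⟩
    have h1 : 1 / c ≤ max 1 (1 / c) := le_max_right _ _
    have h2 : max 1 (1 / c) ≤ max 1 (1 / c) ^ (K + 1) := by
      calc max 1 (1 / c) = max 1 (1 / c) ^ 1 := (pow_one _).symm
        _ ≤ _ := pow_le_pow_right₀ (le_max_left _ _) (by omega)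
    have h3 : 0 < max 1 (1 / c) ^ (K + 1) := by positivity
    rw [div_le_iff₀ h3]
    have h4 : 1 / c ≤ max 1 (1 / c) ^ (K + 1) := h1.trans h2
    rw [div_le_iff₀ hc] at h4
    linarith

/-- **the tail of the lengths of the infixes, ensembles of words** -/
theorem ti_ens {m : ℕ → ℝ} (hm : MLow m) (hu : MUp m) (hp : MPow m) (hL : LongN m) (hB : TB m)
    {E : ℕ → Set (List Bool)} {nu : ℕ → ℝ≥0∞} (hE : Ens E nu) : ∃ C : ℝ, 1 ≤ C ∧ ∀ Q : ℕ, ∃ A : ℝ, 1 ≤ A ∧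
    ∀ (K l : ℕ) (lam : ℝ), l ≤ K → 1 ≤ lam →
      gf {t | t ∈ E K ∧ ∃ u z, Bx (l + 2) t u z ∧ lam * m l ≤ (z : ℝ) - u} ≤
        ENNReal.ofReal (A / lam ^ Q * C ^ (K - l)) * nu K := by
  obtain ⟨C, hC, h⟩ := infix_tail hm hu hp hL hB (ensR_of_ens hE)
  refine ⟨C, hC, fun Q => ?_⟩
  obtain ⟨A, hA, h⟩ := h Q
  exact ⟨A, hA, fun K l lam hl hlam => h () K l lam hl hlam⟩

/-- **the tail of the lengths of the infixes of the words of the box** -/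
theorem ti_WL {m : ℕ → ℝ} (hm : MLow m) (hu : MUp m) (hp : MPow m) (hL : LongN m) (hB : TB m) :
    ∃ C : ℝ, 1 ≤ C ∧ ∀ Q : ℕ, ∃ A : ℝ, 1 ≤ A ∧ ∀ (K l : ℕ) (lam : ℝ), l ≤ K → 1 ≤ lam →
      gf {t | t ∈ WL K ∧ ∃ u z, Bx (l + 2) t u z ∧ lam * m l ≤ (z : ℝ) - u} ≤
        ENNReal.ofReal (A / lam ^ Q * C ^ (K - l)) * (ENNReal.ofReal (Ub K) * Xb K ^ 2) :=
  ti_ens hm hu hp hL hB ens_WL

end NTA

end HexObs
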