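import Pool.Agent.NTA.TIDefs
import Pool.Agent.NTA.TailTA

/-!
NTA: the tail of the lengths of the infixes at every scale, the main range.
-/

set_option autoImplicit false

namespace HexObs

namespace NTA

open Finset TS SDN NTW

open scoped ENNReal

namespace TIx

open TI TN

variable {ι : Type}

/-- the fill number, more leaves -/
lemma fill_num' {K c2 y : ℝ} {kf Q ν a q a1 : ℕ} (hK : 1 ≤ K) (hKf : K ≤ 2 ^ kf) (hc2 : 0 < c2)
    (ha : (2 * (Q + 2) * (8 + kf) : ℝ) ≤ c2 * a) (hq : a1 ≤ q) (hy : (2 : ℝ) ^ (1 / 2 * (q : ℝ)) ≤ y) :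
    (K * 2 ^ (8 * ν + 1 + 3)) ^ ((Q + 1) * q + a1) * (y ^ (-c2)) ^ (a * (ν + 1) + 1) ≤ 1 / 4 ^ ((Q + 1) * q) := by
  rcases Nat.eq_zero_or_pos q with h0 | h0
  · subst h0
    have ha1 : a1 = 0 := by omega
    subst ha1
    have hy1 : (1 : ℝ) ≤ y := by simpa using hy
    simp only [mul_zero, add_zero, pow_zero, one_mul, div_one]
    refine pow_le_one₀ (by positivity) ?_
    exact Real.rpow_le_one_of_one_le_of_nonpos hy1 (by linarith)
  have hb : (1 : ℝ) ≤ K * 2 ^ (8 * ν + 1 + 3) := by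
    have : (1 : ℝ) ≤ 2 ^ (8 * ν + 1 + 3) := one_le_pow₀ (by norm_num)
    nlinarith
  have hy1 : (1 : ℝ) ≤ y := (Real.one_le_rpow (by norm_num) (by positivity)).trans hy
  have h1 : (K * 2 ^ (8 * ν + 1 + 3)) ^ ((Q + 1) * q + a1) ≤
      (2 : ℝ) ^ (((kf + (8 * ν + 4) : ℕ) : ℝ) * ((Q + 2 : ℕ) * q)) := by
    have h2 : K * 2 ^ (8 * ν + 1 + 3) ≤ 2 ^ (kf + (8 * ν + 4)) := by
      rw [pow_add 2 kf (8 * ν + 4), show 8 * ν + 1 + 3 = 8 * ν + 4 by ring]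
      gcongr
    have h3 : (Q + 1) * q + a1 ≤ (Q + 2) * q := by nlinarith
    calc (K * 2 ^ (8 * ν + 1 + 3)) ^ ((Q + 1) * q + a1) ≤ (K * 2 ^ (8 * ν + 1 + 3)) ^ ((Q + 2) * q) :=
          pow_le_pow_right₀ hb h3
      _ ≤ (2 ^ (kf + (8 * ν + 4))) ^ ((Q + 2) * q) := pow_le_pow_left₀ (by positivity) h2 _
      _ = _ := by
          rw [← pow_mul, ← Real.rpow_natCast]
          congr 1
          push_cast
          ring
  have h4 : (y ^ (-c2)) ^ (a * (ν + 1) + 1) ≤ (2 : ℝ) ^ (-(c2 * (1 / 2 * q)) * ((a * (ν + 1) : ℕ) : ℝ)) := by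
    have h5 : y ^ (-c2) ≤ (2 : ℝ) ^ (-(c2 * (1 / 2 * q))) := by
      calc y ^ (-c2) ≤ ((2 : ℝ) ^ (1 / 2 * (q : ℝ))) ^ (-c2) :=
            Real.rpow_le_rpow_of_nonpos (by positivity) hy (by linarith)
        _ = _ := by
            rw [← Real.rpow_mul (by norm_num)]
            congr 1
            ring
    have h6 : (2 : ℝ) ^ (-(c2 * (1 / 2 * q))) ≤ 1 :=
      Real.rpow_le_one_of_one_le_of_nonpos (by norm_num) (by have : 0 ≤ c2 * (1 / 2 * (q : ℝ)) := by positivity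
                                                             linarith)
    calc (y ^ (-c2)) ^ (a * (ν + 1) + 1) ≤ ((2 : ℝ) ^ (-(c2 * (1 / 2 * q)))) ^ (a * (ν + 1) + 1) :=
          pow_le_pow_left₀ (by positivity) h5 _
      _ ≤ ((2 : ℝ) ^ (-(c2 * (1 / 2 * q)))) ^ (a * (ν + 1)) :=
          pow_le_pow_of_le_one (by positivity) h6 (Nat.le_succ _)
      _ = _ := by rw [← Real.rpow_natCast, ← Real.rpow_mul (by norm_num)]
  have h7 : (1 : ℝ) / 4 ^ ((Q + 1) * q) = (2 : ℝ) ^ (-(2 * ((Q + 1) * q : ℝ))) := by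
    rw [Real.rpow_neg (by norm_num), one_div]
    congr 1
    rw [Real.rpow_mul (by norm_num), show ((Q : ℝ) + 1) * q = (((Q + 1) * q : ℕ) : ℝ) by push_cast; ring, Real.rpow_natCast]
    norm_num
  rw [h7]
  calc (K * 2 ^ (8 * ν + 1 + 3)) ^ ((Q + 1) * q + a1) * (y ^ (-c2)) ^ (a * (ν + 1) + 1)
      ≤ (2 : ℝ) ^ (((kf + (8 * ν + 4) : ℕ) : ℝ) * ((Q + 2 : ℕ) * q)) *
        (2 : ℝ) ^ (-(c2 * (1 / 2 * q)) * ((a * (ν + 1) : ℕ) : ℝ)) := by
        have h8 : 0 ≤ y ^ (-c2) := by positivity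
        gcongr
    _ = (2 : ℝ) ^ (((kf + (8 * ν + 4) : ℕ) : ℝ) * ((Q + 2 : ℕ) * q) + -(c2 * (1 / 2 * q)) * ((a * (ν + 1) : ℕ) : ℝ)) := by
        rw [← Real.rpow_add (by norm_num)]
    _ ≤ _ := by
        apply Real.rpow_le_rpow_of_exponent_le (by norm_num)
        push_cast
        have hν : (0 : ℝ) ≤ ν := Nat.cast_nonneg _
        have hkf : (0 : ℝ) ≤ kf := Nat.cast_nonneg _
        have hQ : (0 : ℝ) ≤ Q := Nat.cast_nonneg _
        have e1 : 2 * ((Q : ℝ) + 2) * (8 + kf) * (ν + 1) ≤ c2 * a * (ν + 1) := by gcongr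
        have e2 : ((kf : ℝ) + (8 * ν + 4)) * (Q + 2) + 2 * (Q + 1) ≤ ((Q : ℝ) + 2) * (8 + kf) * (ν + 1) := by
          nlinarith [mul_nonneg hQ hν, mul_nonneg hQ hkf, mul_nonneg hν hkf, mul_nonneg (mul_nonneg hQ hν) hkf]
        have e3 : (((kf : ℝ) + (8 * ν + 4)) * (Q + 2) + 2 * (Q + 1)) ≤ c2 * a * (ν + 1) / 2 := by linarith
        have e4 : (((kf : ℝ) + (8 * ν + 4)) * (Q + 2) + 2 * (Q + 1)) * q ≤ c2 * a * (ν + 1) / 2 * q := by gcongr
        nlinarith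

/-- the tail of the bridges in the form of the interface -/
lemma tbk_of_tb {m : ℕ → ℝ} (hB : TB m) (Q : ℕ) : ∃ (r0 : ℕ) (CQ C4 c5 : ℝ), 1 ≤ CQ ∧ 0 < C4 ∧ 0 < c5 ∧
    ∀ K : ℕ, TBk m Q r0 CQ C4 c5 1 K := by
  obtain ⟨r0, CQ, C4, c5, h1, h2, h3, h⟩ := tbof_of_tb hB (fun _ => ∅) (fun _ => 0) Q
  refine ⟨r0, CQ, C4, c5, h1, h2, h3, fun K => h 1 K le_rfl fun k lam _ _ => ?_⟩
  have : {t : List Bool | t ∈ (∅ : Set (List Bool)) ∧ lam * m k ≤ (t.length : ℝ)} = ∅ := by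
    ext t
    simp
  rw [this]
  unfold gf
  rw [tsum_empty]
  exact zero_le

/-- no infix with so many letters -/
lemma LB_empty {E : Set (List Bool)} {k l : ℕ} {x : ℝ} (hE : E ⊆ WL k) (h : (100 : ℝ) * 4 ^ (l + 5) < x) :
    gf (LB E l x) = 0 := by
  have hemp : LB E l x = ∅ := by
    rw [Set.eq_empty_iff_forall_notMem]
    rintro t ⟨ht, u, z, hb, hx⟩
    have h1 := bx_len (hE ht).1 hb
    rw [show l + 2 + 3 = l + 5 by ring] at h1
    linarith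
  rw [hemp]
  unfold gf
  rw [tsum_empty]

/-- the crude range: the box of the infix is small against the box of the word -/
lemma crude_num {Cr C : ℝ} {k l p Q : ℕ} (hCr : 1 ≤ Cr) (hC : 2 * Cr ^ 2 ≤ C) (hkl : (6 * Q + 4) * l ≤ k) (hlk : l ≤ k)
    (hp : p ≤ 3 * l) : Cr ^ (k + 1) ≤ Cr / 2 ^ (p * Q) * C ^ (k - l) := by
  have h1 : k ≤ 2 * (k - l) := by
    have : 2 * l ≤ k := le_trans (Nat.mul_le_mul_right l (by omega)) hkl
    omega
  have h2 : p * Q ≤ k - l := by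
    have h3 : 2 * (3 * l * Q) + 2 * l ≤ k := by
      calc 2 * (3 * l * Q) + 2 * l ≤ (6 * Q + 4) * l := by nlinarith
        _ ≤ k := hkl
    have h4 : p * Q ≤ 3 * l * Q := Nat.mul_le_mul_right _ hp
    omega
  rw [div_mul_eq_mul_div, le_div_iff₀ (by positivity), pow_succ]
  have h5 : Cr ^ k ≤ (Cr ^ 2) ^ (k - l) := by
    rw [← pow_mul]
    exact pow_le_pow_right₀ hCr h1
  have h6 : (2 : ℝ) ^ (p * Q) ≤ 2 ^ (k - l) := pow_le_pow_right₀ (by norm_num) h2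
  calc Cr ^ k * Cr * 2 ^ (p * Q) ≤ (Cr ^ 2) ^ (k - l) * Cr * 2 ^ (k - l) := by gcongr
    _ = Cr * (2 * Cr ^ 2) ^ (k - l) := by rw [mul_pow]; ring
    _ ≤ Cr * C ^ (k - l) := by gcongr

/-- **the tail of the lengths of the infixes, long infixes** -/
theorem ti_big {m : ℕ → ℝ} {E : ι → ℕ → Set (List Bool)} {nu : ℕ → ℝ≥0∞}
    {SR : ℕ → Set (List (List Bool)) → ℝ → Prop} (hm : MLow m) (hu : MUp m) (hp : MPow m)
    (hL : LongN m) (hB : TB m) (hE : EnsR E nu SR) : ∃ C : ℝ, 1 ≤ C ∧ ∃ Q2 : ℕ, ∀ Q : ℕ, Q2 ≤ Q →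
    ∃ (A : ℝ) (p0 : ℕ), 1 ≤ A ∧ ∀ (x : ι) (k l p : ℕ), l ≤ k → p0 ≤ p →
      gf (LB (E x k) l (2 ^ p * m l)) ≤ ENNReal.ofReal (A / 2 ^ (p * Q) * C ^ (k - l)) * nu k := by
  obtain ⟨c2, η, ε, hc2, hη, hη8, hε, Q1, hlong⟩ := hL
  obtain ⟨Ce, ke, hCe, hrun⟩ := hE.run
  obtain ⟨Kf, a0, a1, kfi, hKf, hfill⟩ := hE.fill
  obtain ⟨Cr, hCr, hcrude⟩ := hE.crude
  obtain ⟨Cl, hCl, hlow⟩ := hE.low
  obtain ⟨Cc, hCc, hstep⟩ := step_scale
  obtain ⟨Cm, hCm, hmup⟩ := mup_pow hu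
  obtain ⟨qe, hqe⟩ := pow_unbounded_of_one_lt Ce (one_lt_two (α := ℝ))
  obtain ⟨kf, hkf⟩ := pow_unbounded_of_one_lt Kf (one_lt_two (α := ℝ))
  obtain ⟨qm, hqm⟩ := pow_unbounded_of_one_lt Cm (one_lt_two (α := ℝ))
  obtain ⟨ql, hql⟩ := pow_unbounded_of_one_lt Cl (one_lt_two (α := ℝ))
  obtain ⟨e2, he2⟩ : ∃ e2 : ℝ, e2 = min (ε / 8) (1 / 64) := ⟨_, rfl⟩
  have he20 : 0 < e2 := by rw [he2]; exact lt_min (by positivity) (by norm_num)
  have he2ε : e2 ≤ ε / 8 := by rw [he2]; exact min_le_left _ _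
  have he264 : e2 ≤ 1 / 64 := by rw [he2]; exact min_le_right _ _
  obtain ⟨e, he⟩ : ∃ e : ℝ, e = min (η / 3) (e2 / 4) := ⟨_, rfl⟩
  have he0 : 0 < e := by rw [he]; exact lt_min (by positivity) (by positivity)
  have heη : 3 * e ≤ η := by
    have : e ≤ η / 3 := by rw [he]; exact min_le_left _ _
    linarith
  have hee2 : 4 * e ≤ e2 := by
    have : e ≤ e2 / 4 := by rw [he]; exact min_le_right _ _
    linarith
  obtain ⟨C, hC⟩ : ∃ C : ℝ, C = max Ce (2 * Cr ^ 2) := ⟨_, rfl⟩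
  have hCCe : Ce ≤ C := by rw [hC]; exact le_max_left _ _
  have hCCr : 2 * Cr ^ 2 ≤ C := by rw [hC]; exact le_max_right _ _
  have hC1 : 1 ≤ C := hCe.trans hCCe
  refine ⟨C, hC1, max (max Q1 (4 * qe)) 1, fun Q hQ => ?_⟩
  have hQ1 : Q1 ≤ Q := ((le_max_left _ _).trans (le_max_left _ _)).trans hQ
  have hQe : 4 * qe ≤ Q := ((le_max_right _ _).trans (le_max_left _ _)).trans hQ
  have hQ0 : 1 ≤ Q := (le_max_right _ _).trans hQ
  obtain ⟨a, ha⟩ := exists_nat_ge ((2 * (Q + 2) * (8 + kf) : ℝ) / c2)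
  rw [div_le_iff₀ hc2, mul_comm _ c2] at ha
  obtain ⟨ν, hν, hJ⟩ := choose_nu a (a0 + 6)
  obtain ⟨J0, hJ0⟩ : ∃ J0, J0 = a * (ν + 1) + a0 := ⟨_, rfl⟩
  have hJ' : (512 : ℝ) * (J0 + 6) ^ 2 ≤ 2 ^ ν := by
    rw [hJ0]
    push_cast at hJ ⊢
    rw [← add_assoc] at hJ
    exact hJ
  obtain ⟨kr, w0, Qc, C0, hw0, hC0, hcrowd⟩ := hE.crowd (8 * ν + 1)
  obtain ⟨nb, hnb⟩ : ∃ nb, nb = Cc * 2 ^ w0 * 4 ^ (8 * ν + 1) := ⟨_, rfl⟩
  obtain ⟨r0, CQ, C4, c5, hCQ, hC4, hc5, hTB⟩ := tbk_of_tb hB Q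
  obtain ⟨y0, b1, hlg⟩ := hlong Q hQ1 (8 * ν + 1) r0 CQ C4 c5 hCQ hC4 hc5
  obtain ⟨l0, hl0⟩ := hp e he0
  obtain ⟨l1, hl1⟩ := ff_num hη hη8 he0 heη
  obtain ⟨M, hM⟩ : ∃ M : ℕ, M = 2 * (6 * Q + 4) := ⟨_, rfl⟩
  obtain ⟨K1, hK1⟩ := longSpM (β := 4 / 3 + e) (M := M) hη hη8
  obtain ⟨K2, hK2⟩ := deepM (η := η) (β := 4 / 3 + e) (Q := ((3 * Q + 2 * ql + 1 : ℕ) : ℝ)) (M := 2 * M) hη hη8
    (by linarith) (by positivity) (by omega)
  obtain ⟨c, hc⟩ : ∃ c : ℝ, c = 1 / 2 := ⟨_, rfl⟩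
  have hc0 : 0 < c := by rw [hc]; positivity
  -- the scales
  have hm0 := hm.pos 0
  obtain ⟨Ka, hKa⟩ := lin_ge (50 / 3) he20
  obtain ⟨Kc, hKc⟩ := exp_ge (100 * 4 ^ 5 / m 0) one_pos
  obtain ⟨Kd, hKd⟩ := lin_ge ((qm : ℝ) * (8 * ν)) (show 0 < 3 * ε / 8 by positivity)
  obtain ⟨K0, hK0⟩ : ∃ K0, K0 = 2 * (ke + kr + b1 + w0 + l0 + l1 + kfi) + 64 * ν + 64 + K1 + K2 + Ka + Kc + Kd := ⟨_, rfl⟩
  obtain ⟨pa, hpa⟩ := lin_exp (32 * ((Q : ℝ) + 1)) 160 hc0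
  obtain ⟨pb, hpb⟩ := exp_ge y0 (show (0 : ℝ) < 1 / 2 by norm_num)
  obtain ⟨pd, hpd⟩ := exp_ge ((100 * 4 ^ (K0 + 5) + 1) / m 0) one_pos
  obtain ⟨p0, hp0⟩ : ∃ p0, p0 = pa + pb + pd + 6 + a1 + Qc * (nb + 1) := ⟨_, rfl⟩
  obtain ⟨Cf, hCf⟩ : ∃ Cf : ℝ, Cf = 4 * (C0 + 1) * Ce ^ (8 * ν + 4) + 1 := ⟨_, rfl⟩
  obtain ⟨A, hA⟩ : ∃ A : ℝ, A = max Cr Cf := ⟨_, rfl⟩
  have hA1 : Cr ≤ A := by rw [hA]; exact le_max_left _ _
  have hA2 : Cf ≤ A := by rw [hA]; exact le_max_right _ _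
  have hCe0 : 0 ≤ Ce := by linarith
  refine ⟨A, p0, hCr.trans hA1, fun x k l p hlk hpp => ?_⟩
  have hpm : 100 * 4 ^ (K0 + 5) + 1 ≤ 2 ^ p * m 0 := by
    have h1 := hpd p (by omega)
    rw [one_mul, Real.rpow_natCast, div_le_iff₀ hm0] at h1
    exact h1
  rcases lt_or_ge (100 * 4 ^ (l + 5) : ℝ) (2 ^ p * m l) with hbig | hbig
  · -- no such words
    rw [LB_empty (hE.sub x k) hbig]
    exact zero_le
  have hml : m 0 ≤ m l := mlow_mono hm (Nat.zero_le l)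
  have hlK : K0 ≤ l := by
    by_contra hcon
    rw [not_le] at hcon
    have h1 : (100 : ℝ) * 4 ^ (l + 5) ≤ 100 * 4 ^ (K0 + 5) := by
      have : (4 : ℝ) ^ (l + 5) ≤ 4 ^ (K0 + 5) := pow_le_pow_right₀ (by norm_num) (by omega)
      linarith
    have h2 : 2 ^ p * m 0 ≤ 2 ^ p * m l := by gcongr
    linarith
  have hp3 : p ≤ 3 * l := by
    have h1 := hKc l (by omega)
    rw [one_mul, Real.rpow_natCast, div_le_iff₀ hm0] at h1
    have h2 : 2 ^ p * m 0 ≤ 2 ^ p * m l := by gcongr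
    have h3 : 2 ^ p * m 0 ≤ 2 ^ (3 * l) * m 0 := by
      calc 2 ^ p * m 0 ≤ 100 * 4 ^ (l + 5) := h2.trans hbig
        _ = 100 * 4 ^ 5 * 4 ^ l := by rw [pow_add]; ring
        _ ≤ 2 ^ l * m 0 * 4 ^ l := by gcongr
        _ = 2 ^ (3 * l) * m 0 := by
            have e4 : (4 : ℝ) ^ l = 2 ^ l * 2 ^ l := by rw [← mul_pow]; norm_num
            rw [e4, show 3 * l = l + l + l by ring, pow_add, pow_add]
            ring
    have h4 : (2 : ℝ) ^ p ≤ 2 ^ (3 * l) := le_of_mul_le_mul_right h3 hm0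
    exact (pow_le_pow_iff_right₀ (by norm_num)).1 h4
  rcases le_or_gt ((6 * Q + 4) * l) k with hkl | hkl
  · -- the crude range
    have h1 : LB (E x k) l (2 ^ p * m l) ⊆ E x k := fun t ht => ht.1
    refine (gf_mono h1).trans ((hcrude x k).trans (mul_le_mul_left (ENNReal.ofReal_le_ofReal ?_) _))
    refine (crude_num hCr hCCr hkl hlk hp3).trans ?_
    gcongr
  have hlr : (0 : ℝ) ≤ l := Nat.cast_nonneg _
  -- the number of steps
  have hex : ∃ i : ℕ, e2 * l ≤ ((p + ν * i : ℕ) : ℝ) := by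
    obtain ⟨i, hi⟩ := exists_nat_ge (e2 * l)
    refine ⟨i, hi.trans ?_⟩
    have : i ≤ p + ν * i := (Nat.le_mul_of_pos_left i hν).trans (Nat.le_add_left _ _)
    exact_mod_cast this
  classical
  obtain ⟨I, hI⟩ : ∃ I, I = Nat.find hex := ⟨_, rfl⟩
  have hI1 : e2 * l ≤ ((p + ν * I : ℕ) : ℝ) := by
    rw [hI]
    exact Nat.find_spec hex
  have hI2 : ∀ i, i < I → ((p + ν * i : ℕ) : ℝ) < e2 * l := by
    intro i hi
    rw [hI] at hi
    have := Nat.find_min hex hi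
    rwa [not_le] at this
  have hI4 : ∀ i, i < I → 4 * (8 * ν * (i + 1)) ≤ l := by
    intro i hi
    exact TI.a1 hlr he264 (hI2 i hi) (by exact_mod_cast (by omega : 64 * ν ≤ l))
  have hkc : ∀ i kc : ℕ, i < I → l = kc + 4 + 8 * ν * (i + 1) → l ≤ 2 * kc := by
    intro i kc hi hk
    have := hI4 i hi
    omega
  have hkM : ∀ b : ℕ, l ≤ 2 * b → k ≤ M * b := by
    intro b hb
    rw [hM]
    calc k ≤ (6 * Q + 4) * l := hkl.le
      _ ≤ (6 * Q + 4) * (2 * b) := Nat.mul_le_mul_left _ hb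
      _ = _ := by ring
  -- the numbers of one step
  have hnum : ∀ i kc q : ℕ, i < I → l = kc + 4 + 8 * ν * (i + 1) → q = p + ν * i →
      (2 : ℝ) ^ ((1 - c) * q) ≤ yy m ν Q kc q ∧ yy m ν Q kc q ≤ 2 ^ (ε * ((kc + 5 : ℕ) : ℝ)) ∧
      1 ≤ 2 ^ ν * 2 ^ q * m (kc + 4) ∧
      2 * (2 : ℝ) ^ ((4 / 3 + e) * ((T2.ff η (kc + 5) + 2 : ℕ) : ℝ)) + 5 ≤ yy m ν Q kc q * m (kc + 5) := by
    intro i kc q hi hk hq
    have hk2 := hkc i kc hi hk
    have hqp : p ≤ q := by rw [hq]; exact Nat.le_add_right _ _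
    have hMb := hm.pos (kc + 5)
    have hM0 := hm.pos (kc + 4 + 8 * ν)
    have hMM : m (kc + 5) ≤ m (kc + 4 + 8 * ν) := mlow_mono hm (by omega)
    have hpa' := hpa q (by omega)
    have hq32 : 32 * ((Q + 1 : ℝ) * q + 5) ≤ (2 : ℝ) ^ (c * q) := by linarith
    have hcq : (2 : ℝ) ^ (c * q) ≤ 2 ^ q := by
      rw [← Real.rpow_natCast]
      apply Real.rpow_le_rpow_of_exponent_le (by norm_num)
      exact mul_le_of_le_one_left (Nat.cast_nonneg _) (by rw [hc]; norm_num)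
    have hN0 : (0 : ℝ) < 32 * ((((Q + 1) * q : ℕ) : ℝ) + 5) := by positivity
    have hyM : yy m ν Q kc q * m (kc + 5) = 2 ^ q * m (kc + 4 + 8 * ν) / (32 * ((((Q + 1) * q : ℕ) : ℝ) + 5)) := by
      unfold yy
      field_simp
    refine ⟨?_, ?_, ?_, ?_⟩
    · exact y_big (N := (Q + 1) * q) (Q := Q) (q := q) (P := 2 ^ q) (M0 := m (kc + 4 + 8 * ν)) (Mb := m (kc + 5)) rfl rfl
        hMb hMM rfl hq32
    · have h1 : m (kc + 4 + 8 * ν) ≤ Cm ^ (8 * ν) * m (kc + 5) := by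
        have h2 := hmup (kc + 5) (8 * ν - 1)
        rw [show kc + 5 + (8 * ν - 1) = kc + 4 + 8 * ν by omega] at h2
        refine h2.trans ?_
        have h3 : Cm ^ (8 * ν - 1) ≤ Cm ^ (8 * ν) := pow_le_pow_right₀ hCm (by omega)
        gcongr
      refine (y_up (N := (Q + 1) * q) (P := 2 ^ q) (M0 := m (kc + 4 + 8 * ν)) (Mb := m (kc + 5)) (C := Cm ^ (8 * ν))
        (by positivity) hMb h1 (by positivity) rfl).trans ?_
      have h4 : Cm ^ (8 * ν) ≤ (2 : ℝ) ^ ((qm : ℝ) * (8 * ν)) := by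
        calc Cm ^ (8 * ν) ≤ (2 ^ qm) ^ (8 * ν) := pow_le_pow_left₀ (by linarith) hqm.le _
          _ = _ := by
              rw [← pow_mul, ← Real.rpow_natCast]
              congr 1
              push_cast
              ring
      have h5 : (2 : ℝ) ^ q ≤ (2 : ℝ) ^ (e2 * l) := by
        rw [← Real.rpow_natCast]
        apply Real.rpow_le_rpow_of_exponent_le (by norm_num)
        rw [hq]
        exact (hI2 i hi).le
      calc (2 : ℝ) ^ q * Cm ^ (8 * ν) ≤ (2 : ℝ) ^ (e2 * l) * (2 : ℝ) ^ ((qm : ℝ) * (8 * ν)) := by gcongr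
        _ = (2 : ℝ) ^ (e2 * l + (qm : ℝ) * (8 * ν)) := by rw [Real.rpow_add (by norm_num)]
        _ ≤ _ := by
            apply Real.rpow_le_rpow_of_exponent_le (by norm_num)
            exact TI.a2 he2ε hε (hKd l (by omega)) (by exact_mod_cast hk2)
    · have h1 : m 0 ≤ m (kc + 4) := mlow_mono hm (Nat.zero_le _)
      have h2 : (2 : ℝ) ^ p ≤ 2 ^ q := pow_le_pow_right₀ (by norm_num) hqp
      have h3 : (1 : ℝ) ≤ 2 ^ ν := one_le_pow₀ (by norm_num)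
      have h4 : (1 : ℝ) ≤ 2 ^ p * m 0 := by
        have : (0 : ℝ) ≤ 100 * 4 ^ (K0 + 5) := by positivity
        linarith
      calc (1 : ℝ) ≤ 1 * (2 ^ p * m 0) := by linarith
        _ ≤ 2 ^ ν * (2 ^ q * m (kc + 4)) := by gcongr
        _ = _ := by ring
    · refine (hl1 (kc + 4 + 8 * ν) (kc + 5) (by omega) (by omega)).trans ((hl0 (kc + 4 + 8 * ν) (by omega)).trans ?_)
      rw [hyM, le_div_iff₀ hN0]
      have h1 : 32 * ((((Q + 1) * q : ℕ) : ℝ) + 5) ≤ 2 ^ q := by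
        refine le_trans (le_of_eq ?_) (hq32.trans hcq)
        push_cast
        ring
      calc m (kc + 4 + 8 * ν) * (32 * ((((Q + 1) * q : ℕ) : ℝ) + 5)) ≤ m (kc + 4 + 8 * ν) * 2 ^ q := by gcongr
        _ = _ := by ring
  -- the weights of the bad runs
  have hbad : ∀ i, i < I → gf (BadR (E x k) m η Q ν J0 w0 nb (l - 8 * ν * (i + 1) - 4) (p + ν * i)) ≤
      ENNReal.ofReal (2 * (C0 + 1) * Ce ^ (8 * ν + 4) * C ^ (k - l) / 4 ^ ((Q + 1) * p) *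
        (Ce ^ (8 * ν) / 4 ^ ((Q + 1) * ν)) ^ i) * nu k := by
    intro i hi
    obtain ⟨kc, hkce⟩ : ∃ kc, kc = l - 8 * ν * (i + 1) - 4 := ⟨_, rfl⟩
    obtain ⟨q, hq⟩ : ∃ q, q = p + ν * i := ⟨_, rfl⟩
    have hIi := hI4 i hi
    have hk : l = kc + 4 + 8 * ν * (i + 1) := by omega
    have hk2 := hkc i kc hi hk
    have hqp : p ≤ q := by rw [hq]; exact Nat.le_add_right _ _
    rw [← hkce, ← hq]
    obtain ⟨n1, n2, n3, n5⟩ := hnum i kc q hi hk hq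
    have hyhalf : (2 : ℝ) ^ (1 / 2 * (q : ℝ)) ≤ yy m ν Q kc q := by
      refine le_trans (le_of_eq ?_) n1
      rw [hc]
      norm_num
    have hy0 : y0 ≤ yy m ν Q kc q := (hpb q (by omega)).trans hyhalf
    have hypos : 0 < yy m ν Q kc q := lt_of_lt_of_le (by positivity) hyhalf
    have hy1 : 1 ≤ yy m ν Q kc q := (Real.one_le_rpow (by norm_num) (by positivity)).trans hyhalf
    have hqQ : q ≤ (Q + 1) * q := Nat.le_mul_of_pos_left q (Nat.succ_pos Q)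
    have hcr := hcrowd kc ((Q + 1) * q) nb (by omega) (by omega)
    have hSD := hlg (kc + 5) (by omega) 1 (yy m ν Q kc q) one_pos hy0 n2 (Real.one_le_rpow hy1 (by positivity))
      (hTB (kc + 5))
    have hSD' : SmD DmJ kc (BrR (2 ^ (kc + 4)) (2 ^ (kc + (8 * ν + 1 + 3) + 2)) ∩
        T2.Sp (T2.ee η (kc + 5)) (yy m ν Q kc q * m (kc + 5))) (yy m ν Q kc q ^ (-c2)) := by
      refine SmD_anti hSD ?_
      rintro g ⟨⟨h, a1, a2, a3⟩, hg⟩
      refine ⟨⟨h, a1, a2.trans ?_, a3⟩, hg⟩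
      exact Nat.pow_le_pow_right (by norm_num) (by omega)
    have hfl := hfill kc (8 * ν + 1 + 3) ((Q + 1) * q) (a * (ν + 1) + 1) _ _ (by omega) (by positivity) hSD'
    have hfl' := hE.mono _ _ _ _ hfl (fill_num' hKf hkf.le hc2 ha (by omega) hyhalf)
    rw [show a * (ν + 1) + 1 + a0 = J0 + 1 by rw [hJ0]; ring] at hfl'
    have h9 := bad_gfR (E := E) (nu := nu) (SR := SR) (m := m) (η := η) (Ce := Ce) (C0 := C0) (Q := Q) (ν := ν)
      (J0 := J0) (w0 := w0) (nb := nb) (k := k) (kc := kc) (J := (k - l) + (4 + 8 * ν * (i + 1))) (q := q) (a := x) hCe0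
      hC0 (by omega) (fun dir R δ hδ hR => hrun x dir kc _ R δ (by omega) (by
        have := TI.a3 (i := i) hν
        omega) hδ hR) hcr hfl'
    refine h9.trans (mul_le_mul_left (ENNReal.ofReal_le_ofReal ?_) _)
    have e1 : Ce ^ ((k - l) + (4 + 8 * ν * (i + 1))) ≤ C ^ (k - l) * (Ce ^ (8 * ν + 4) * (Ce ^ (8 * ν)) ^ i) := by
      rw [← pow_mul, ← pow_add, pow_add Ce (k - l)]
      have : Ce ^ (4 + 8 * ν * (i + 1)) = Ce ^ (8 * ν + 4 + 8 * ν * i) := by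
        congr 1
        ring
      rw [this]
      gcongr
    have e2' : (4 : ℝ) ^ ((Q + 1) * q) = 4 ^ ((Q + 1) * p) * (4 ^ ((Q + 1) * ν)) ^ i := by
      rw [← pow_mul, ← pow_add, hq]
      congr 1
      ring
    rw [e2', div_pow]
    calc 2 * (C0 + 1) * Ce ^ ((k - l) + (4 + 8 * ν * (i + 1))) / (4 ^ ((Q + 1) * p) * (4 ^ ((Q + 1) * ν)) ^ i)
        ≤ 2 * (C0 + 1) * (C ^ (k - l) * (Ce ^ (8 * ν + 4) * (Ce ^ (8 * ν)) ^ i)) /
          (4 ^ ((Q + 1) * p) * (4 ^ ((Q + 1) * ν)) ^ i) := by gcongr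
      _ = _ := by field_simp
  -- the deep events
  have hdeep : gf (DeepM η (4 / 3 + e) (2 * M) k) ≤ ENNReal.ofReal (1 / 2 ^ (p * Q)) * nu k := by
    have h1 := hK2 k (by omega)
    refine h1.trans (le_trans ?_ (mul_le_mul_right (hlow k) _))
    rw [← ENNReal.ofReal_mul (show (0 : ℝ) ≤ 1 / 2 ^ (p * Q) by positivity)]
    refine ENNReal.ofReal_le_ofReal ?_
    have h3 : (2 : ℝ) ^ (-(((3 * Q + 2 * ql + 1 : ℕ) : ℝ) * k)) = 1 / 2 ^ ((3 * Q + 2 * ql + 1) * k) := by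
      rw [Real.rpow_neg (by norm_num), one_div]
      congr 1
      rw [← Real.rpow_natCast]
      congr 1
      push_cast
      ring
    have h4 : Cl ^ (k + 1) ≤ 2 ^ (ql * (k + 1)) := by
      rw [pow_mul]
      exact pow_le_pow_left₀ (by linarith) hql.le _
    have h5 : (2 : ℝ) ^ (p * Q) * Cl ^ (k + 1) ≤ 2 ^ ((3 * Q + 2 * ql + 1) * k) := by
      calc (2 : ℝ) ^ (p * Q) * Cl ^ (k + 1) ≤ 2 ^ (p * Q) * 2 ^ (ql * (k + 1)) := by gcongr
        _ = 2 ^ (p * Q + ql * (k + 1)) := by rw [pow_add]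
        _ ≤ _ := by
            refine pow_le_pow_right₀ (by norm_num) ?_
            have h6 : p * Q ≤ 3 * k * Q := Nat.mul_le_mul_right _ (hp3.trans (Nat.mul_le_mul_left 3 hlk))
            have h7 : ql * (k + 1) ≤ 2 * ql * k := by
              have : 1 ≤ k := by omega
              calc ql * (k + 1) ≤ ql * (2 * k) := Nat.mul_le_mul_left _ (by omega)
                _ = _ := by ring
            calc p * Q + ql * (k + 1) ≤ 3 * k * Q + 2 * ql * k := add_le_add h6 h7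
              _ ≤ 3 * k * Q + 2 * ql * k + k := Nat.le_add_right _ _
              _ = _ := by ring
    rw [h3, one_div_mul_one_div]
    exact one_div_le_one_div_of_le (by positivity) h5
  -- the covering
  have hcov := coverI (m := m) (E := E x k) (η := η) (β := 4 / 3 + e) (Cc := Cc) (Q := Q) (ν := ν) (J0 := J0) (w0 := w0)
    (nb := nb) (k := k) (l := l) (p := p) (I := I) (M := M) (hstep hm) hν hnb.ge hJ' hlk
    (fun i hi => by have := hI4 i hi; omega)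
    (fun i kc q hi hk hq => by
      obtain ⟨n1, n2, n3, n5⟩ := hnum i kc q hi hk hq
      have hk2 := hkc i kc hi hk
      have hqp : p ≤ q := by rw [hq]; exact Nat.le_add_right _ _
      have hqQ : q ≤ (Q + 1) * q := Nat.le_mul_of_pos_left q (Nat.succ_pos Q)
      exact ⟨by omega, by omega, hkM _ (by omega), n3, n5⟩)
    (fun kc mu m0 J dir y t b1' b2 b4 b5 b6 => hK1 k kc mu m0 J dir y t (by omega) b1' b2 b4 b5 b6)
    (hE.sub x k)
    (by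
      have h1 : 4 * (8 * ν * I) ≤ l := by
        rcases Nat.eq_zero_or_pos I with h0 | h0
        · rw [h0]
          omega
        · have h2 := hI4 (I - 1) (by omega)
          rwa [show I - 1 + 1 = I by omega] at h2
      refine ⟨by omega, ?_, ?_⟩
      · refine (hkM (l - 8 * ν * I + 5) (by omega)).trans ?_
        exact Nat.mul_le_mul_right _ (Nat.le_mul_of_pos_left M (show 0 < 2 by norm_num))
      · refine end_num he0 (by linarith) hee2 (by omega) (hKa l (by omega)) ?_ (hl0 _ (by omega))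
        refine le_trans (Real.rpow_le_rpow_of_exponent_le (by norm_num) hI1) (le_of_eq ?_)
        rw [Real.rpow_natCast])
  -- the sum
  refine (gf_mono hcov).trans ((gf_union_le _ _).trans ((add_le_add (gf_bU _ _) hdeep).trans ?_))
  have hx : Ce ^ (8 * ν) / 4 ^ ((Q + 1) * ν) ≤ 1 / 2 := by
    rw [div_le_div_iff₀ (by positivity) (by norm_num), one_mul]
    have h1 : Ce ^ (8 * ν) ≤ 2 ^ (qe * (8 * ν)) := by
      rw [pow_mul 2]
      exact pow_le_pow_left₀ hCe0 hqe.le _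
    have h2 : (4 : ℝ) ^ ((Q + 1) * ν) = 2 ^ (2 * ((Q + 1) * ν)) := by
      rw [pow_mul 2]
      norm_num
    rw [h2]
    calc Ce ^ (8 * ν) * 2 ≤ 2 ^ (qe * (8 * ν)) * 2 := by gcongr
      _ = 2 ^ (qe * (8 * ν) + 1) := by rw [pow_succ]
      _ ≤ _ := pow_le_pow_right₀ (by norm_num) (a5 hQe hν)
  have hsum : ∑ i ∈ range I, gf (BadR (E x k) m η Q ν J0 w0 nb (l - 8 * ν * (i + 1) - 4) (p + ν * i)) ≤
      ENNReal.ofReal (2 * (2 * (C0 + 1) * Ce ^ (8 * ν + 4) * C ^ (k - l) / 4 ^ ((Q + 1) * p))) * nu k := by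
    refine (Finset.sum_le_sum fun i hi => hbad i (Finset.mem_range.1 hi)).trans ?_
    rw [← Finset.sum_mul, ← ENNReal.ofReal_sum_of_nonneg (fun i _ => by positivity)]
    exact mul_le_mul_left (ENNReal.ofReal_le_ofReal (geo_le (by positivity) (by positivity) hx I)) _
  refine (add_le_add hsum le_rfl).trans ?_
  rw [← add_mul, ← ENNReal.ofReal_add (by positivity) (by positivity)]
  refine mul_le_mul_left (ENNReal.ofReal_le_ofReal ?_) _
  have h1 : (2 : ℝ) ^ (p * Q) ≤ 4 ^ ((Q + 1) * p) := by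
    calc (2 : ℝ) ^ (p * Q) ≤ 2 ^ (2 * ((Q + 1) * p)) := pow_le_pow_right₀ (by norm_num) a6
      _ = _ := by
          rw [pow_mul 2 2]
          norm_num
  have h2 : 1 ≤ C ^ (k - l) := one_le_pow₀ hC1
  calc 2 * (2 * (C0 + 1) * Ce ^ (8 * ν + 4) * C ^ (k - l) / 4 ^ ((Q + 1) * p)) + 1 / 2 ^ (p * Q)
      ≤ 2 * (2 * (C0 + 1) * Ce ^ (8 * ν + 4) * C ^ (k - l) / 2 ^ (p * Q)) + C ^ (k - l) / 2 ^ (p * Q) := by gcongr
    _ = Cf / 2 ^ (p * Q) * C ^ (k - l) := by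
        rw [hCf]
        field_simp
        ring
    _ ≤ A / 2 ^ (p * Q) * C ^ (k - l) := by gcongr

end TIx

end NTA

end HexObs
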