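import Pool.Agent.NTA.TIMain

/-!
NTA: the tail of the lengths of the infixes at every scale.
-/

set_option autoImplicit false

namespace HexObs

namespace NTA

open Finset TS SDN NTW

open scoped ENNReal

namespace TIx

open TI TN

variable {ι : Type}

/-- the box has a finite norm -/
theorem smD_boxT : ∃ K : ℝ, 1 ≤ K ∧ ∀ kc mu : ℕ, SmD DmJ kc (BrR (2 ^ (kc + 4)) (2 ^ (kc + mu + 2))) (K * 2 ^ mu) := by
  obtain ⟨C, δ0, hI⟩ := inp_exists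
  obtain ⟨K, hK, h⟩ := EX.allG dmP (ssA hI) ss3P ssDP
  refine ⟨K * 4, by linarith, fun kc mu => ?_⟩
  have e1 : K * 2 ^ (mu + 2) = K * 4 * 2 ^ mu := by ring
  rw [← e1]
  have h0 : HerD (2 ^ (kc + 4)) (fun _ => (0 : ℝ≥0∞)) := ⟨fun _ _ _ => le_rfl, fun _ _ _ _ => le_rfl⟩
  exact ⟨fun x Φ hΦ => (h kc mu _ _ (dmP.dm kc _ h0)).near x Φ hΦ, fun y x Ψ Φ hΨ _ hΦ => (h kc mu Ψ y hΨ).free x Φ hΦ⟩

/-- the numbers of the first step -/
lemma first_num {a0 p0 m0 ν : ℕ} {M0 M1 : ℝ} (hν : a0 + 6 + 9 + p0 ≤ ν) (hM : 2 ^ (10 * ν) * M1 ≤ M0)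
    (h1 : 1 ≤ 2 ^ p0 * M1) (h2 : 8 * ((m0 : ℝ) + 5) < M0) :
    2 * ((m0 : ℝ) + 5) * ((0 : ℝ) + 1) + ((a0 : ℝ) + 6) ^ 2 * (2 ^ (8 * ν + 1 + 5) * (2 ^ p0 * M1 + 1)) < M0 := by
  have hM0 : 0 < M0 := lt_of_le_of_lt (by positivity) h2
  have e0 : ((a0 : ℝ) + 6) ^ 2 * 2 ^ (9 + p0) ≤ 2 ^ (2 * ν) := by
    have e1 : ((a0 : ℝ) + 6) ≤ 2 ^ (a0 + 6) := by
      have : a0 + 6 < 2 ^ (a0 + 6) := Nat.lt_two_pow_self
      exact_mod_cast this.le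
    calc ((a0 : ℝ) + 6) ^ 2 * 2 ^ (9 + p0) ≤ (2 ^ (a0 + 6)) ^ 2 * 2 ^ (9 + p0) := by gcongr
      _ = 2 ^ (2 * (a0 + 6) + (9 + p0)) := by
          rw [← pow_mul, ← pow_add]
          congr 1
          ring
      _ ≤ 2 ^ (2 * ν) := pow_le_pow_right₀ (by norm_num) (by omega)
  have e2 : ((a0 : ℝ) + 6) ^ 2 * (2 ^ (8 * ν + 1 + 5) * (2 ^ p0 * M1 + 1)) ≤ M0 / 4 := by
    have e3 : (2 : ℝ) ^ p0 * M1 + 1 ≤ 2 * (2 ^ p0 * M1) := by linarith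
    have e4 : (2 : ℝ) ^ (8 * ν + 1 + 5) * (2 * (2 ^ p0 * M1)) = 2 ^ (7 + p0) * (2 ^ (8 * ν) * M1) := by
      rw [show 8 * ν + 1 + 5 = 8 * ν + 6 by ring, pow_add, pow_add]
      ring
    have e5 : (2 : ℝ) ^ (2 * ν) * (2 ^ (8 * ν) * M1) ≤ M0 := by
      refine le_trans (le_of_eq ?_) hM
      rw [← mul_assoc, ← pow_add]
      congr 2
      ring
    have e6 : 0 ≤ 2 ^ (8 * ν) * M1 := by
      have : 0 ≤ 2 ^ p0 * M1 := by linarith
      have h7 : 0 ≤ M1 := by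
        by_contra hc
        rw [not_le] at hc
        have h8 : (2 : ℝ) ^ p0 * M1 < 0 := mul_neg_of_pos_of_neg (by positivity) hc
        linarith
      positivity
    calc ((a0 : ℝ) + 6) ^ 2 * (2 ^ (8 * ν + 1 + 5) * (2 ^ p0 * M1 + 1))
        ≤ ((a0 : ℝ) + 6) ^ 2 * (2 ^ (8 * ν + 1 + 5) * (2 * (2 ^ p0 * M1))) := by gcongr
      _ = (((a0 : ℝ) + 6) ^ 2 * 2 ^ (9 + p0)) * (2 ^ (8 * ν) * M1) / 4 := by
          rw [e4, pow_add 2 7, pow_add 2 9]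
          ring
      _ ≤ 2 ^ (2 * ν) * (2 ^ (8 * ν) * M1) / 4 := by gcongr
      _ ≤ M0 / 4 := by gcongr
  linarith

/-- the infixes with at least m l letters -/
theorem ti_small {m : ℕ → ℝ} {E : ι → ℕ → Set (List Bool)} {nu : ℕ → ℝ≥0∞}
    {SR : ℕ → Set (List (List Bool)) → ℝ → Prop} (hm : MLow m) (hE : EnsR E nu SR) {C A1 : ℝ} {p0 Q : ℕ}
    (hC : 1 ≤ C) (hA1 : 1 ≤ A1)
    (h : ∀ (x : ι) (k l p : ℕ), l ≤ k → p0 ≤ p →
      gf (LB (E x k) l (2 ^ p * m l)) ≤ ENNReal.ofReal (A1 / 2 ^ (p * Q) * C ^ (k - l)) * nu k)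
    (hrC : ∃ ke : ℕ, ∀ (a : ι) (dir : Bool) (kc J : ℕ) (R : Set (List (List Bool))) (δ : ℝ), ke ≤ kc →
      6 ≤ J → 0 < δ → SR kc R δ → gf {t | t ∈ E a (kc + J) ∧ HasRun dir kc R t} ≤ ENNReal.ofReal (C ^ J * δ) * nu (kc + J))
    (hcC : ∀ (a : ι) (K : ℕ), gf (E a K) ≤ ENNReal.ofReal (C ^ (K + 1)) * nu K) :
    ∃ A2 : ℝ, 1 ≤ A2 ∧ ∀ (x : ι) (k l : ℕ), l ≤ k →
      gf (LB (E x k) l (m l)) ≤ ENNReal.ofReal (A2 * C ^ (k - l)) * nu k := by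
  obtain ⟨ke, hrun⟩ := hrC
  obtain ⟨Kf, a0, a1, kfi, hKf, hfill⟩ := hE.fill
  obtain ⟨Cc, hCc, hstep⟩ := step_all
  obtain ⟨Kb, hKb, hbox⟩ := smD_boxT
  obtain ⟨ν, hν⟩ : ∃ ν, ν = a0 + 6 + 9 + p0 := ⟨_, rfl⟩
  obtain ⟨kr, w0, Qc, C0, hw0, hC0, hcrowd⟩ := hE.crowd (8 * ν + 1)
  obtain ⟨nb, hnb⟩ : ∃ nb, nb = Cc * 2 ^ w0 * 4 ^ (8 * ν + 1) := ⟨_, rfl⟩
  obtain ⟨m0, hm0⟩ : ∃ m0, m0 = Qc * (nb + 1) + 6 := ⟨_, rfl⟩
  have hmp := hm.pos 0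
  obtain ⟨La, hLa⟩ := exp_ge (8 * ((m0 : ℝ) + 5) / m 0 + 1) one_pos
  obtain ⟨Lb, hLb⟩ := exp_ge (1 / m 0) one_pos
  obtain ⟨L1, hL1⟩ : ∃ L1, L1 = La + Lb + ke + kr + w0 + kfi + 8 * ν + 4 := ⟨_, rfl⟩
  have hmge : ∀ l : ℕ, (2 : ℝ) ^ l * m 0 ≤ m l := by
    intro l
    have h1 := hm.low 0 l
    rw [zero_add] at h1
    refine le_trans ?_ h1
    refine mul_le_mul_of_nonneg_right ?_ hmp.le
    rw [← Real.rpow_natCast]
    apply Real.rpow_le_rpow_of_exponent_le (by norm_num)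
    have : (0 : ℝ) ≤ l := Nat.cast_nonneg _
    linarith
  obtain ⟨F, hF⟩ : ∃ F : ℝ, F = (Kf * 2 ^ (8 * ν + 1 + 3)) ^ (m0 + a1) * (Kb * 2 ^ (8 * ν + 1 + 3)) ^ 1 := ⟨_, rfl⟩
  have hF0 : 0 < F := by rw [hF]; positivity
  obtain ⟨G, hG⟩ : ∃ G : ℝ, G = 2 * (C0 / 4 ^ m0 + F) * C ^ (8 * ν + 4) := ⟨_, rfl⟩
  have hG0 : 0 ≤ G := by rw [hG]; positivity
  refine ⟨G + A1 * C ^ (8 * ν) + C ^ (L1 + 1), ?_, fun x k l hlk => ?_⟩
  · have b1 : 1 ≤ C ^ (L1 + 1) := one_le_pow₀ hC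
    have b2 : 0 ≤ A1 * C ^ (8 * ν) := by positivity
    linarith
  rcases Nat.lt_or_ge l L1 with hl | hl
  · -- small scales
    have h1 : LB (E x k) l (m l) ⊆ E x k := fun t ht => ht.1
    refine (gf_mono h1).trans ((hcC x k).trans (mul_le_mul_left (ENNReal.ofReal_le_ofReal ?_) _))
    have b2 : 0 ≤ A1 * C ^ (8 * ν) := by positivity
    calc C ^ (k + 1) = C ^ (l + 1) * C ^ (k - l) := by rw [← pow_add]; congr 1; omega
      _ ≤ C ^ (L1 + 1) * C ^ (k - l) := by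
          have := pow_le_pow_right₀ hC (show l + 1 ≤ L1 + 1 by omega)
          gcongr
      _ ≤ _ := by
          have : 0 ≤ C ^ (k - l) := by positivity
          nlinarith
  obtain ⟨kc, hkc⟩ : ∃ kc, l = kc + 4 + 8 * ν := ⟨l - 4 - 8 * ν, by omega⟩
  -- the covering
  have hS : SmD DmJ kc (LongL kc (8 * ν + 1 + 3) 0) (Kb * 2 ^ (8 * ν + 1 + 3)) :=
    SmD_anti (hbox kc (8 * ν + 1 + 3)) fun g hg => hg.1
  have hfl := hfill kc (8 * ν + 1 + 3) m0 1 _ _ (by omega) (by positivity) hS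
  rw [← hF, add_comm 1 a0] at hfl
  have hcr := hcrowd kc m0 nb (by omega) (by omega)
  have hM1 : 2 ^ (10 * ν) * m (kc + 4) ≤ m l := by
    rw [hkc]
    refine le_trans (le_of_eq ?_) (hm.low (kc + 4) (8 * ν))
    rw [← Real.rpow_natCast]
    congr 2
    push_cast
    ring
  have hcov : LB (E x k) l (m l) ⊆
      (({t | t ∈ E x k ∧ HasRun false kc (CS (2 ^ (kc + 4)) (2 ^ (kc + 5 + (8 * ν + 1))) (kc + 2) (2 ^ (kc - w0)) nb m0) t} ∪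
        {t | t ∈ E x k ∧ HasRun true kc (CS (2 ^ (kc + 4)) (2 ^ (kc + 5 + (8 * ν + 1))) (kc + 2) (2 ^ (kc - w0)) nb m0) t}) ∪
      ({t | t ∈ E x k ∧ HasRun false kc (RFill kc (8 * ν + 1 + 3) m0 (a0 + 1) (LongL kc (8 * ν + 1 + 3) 0)) t} ∪
        {t | t ∈ E x k ∧ HasRun true kc (RFill kc (8 * ν + 1 + 3) m0 (a0 + 1) (LongL kc (8 * ν + 1 + 3) 0)) t})) ∪
      LB (E x k) (kc + 4) (2 ^ p0 * m (kc + 4)) := by
    rintro t ⟨htE, u, z, hb, hlen⟩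
    by_contra hcon
    rw [Set.mem_union, not_or, Set.mem_union, not_or] at hcon
    obtain ⟨⟨hn1, hn2⟩, hn3⟩ := hcon
    have hnc : ∀ dir, ¬ HasRun dir kc (CS (2 ^ (kc + 4)) (2 ^ (kc + 5 + (8 * ν + 1))) (kc + 2) (2 ^ (kc - w0)) nb m0) t := by
      intro dir hr
      apply hn1
      cases dir
      · exact Or.inl ⟨htE, hr⟩
      · exact Or.inr ⟨htE, hr⟩
    have hnf : ∀ dir, ¬ HasRun dir kc (RFill kc (8 * ν + 1 + 3) m0 (a0 + 1) (LongL kc (8 * ν + 1 + 3) 0)) t := by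
      intro dir hr
      apply hn2
      cases dir
      · exact Or.inl ⟨htE, hr⟩
      · exact Or.inr ⟨htE, hr⟩
    have hx1 : 1 ≤ 2 ^ p0 * m (kc + 4) := by
      have b1 := hLb (kc + 4) (by omega)
      rw [one_mul, Real.rpow_natCast, div_le_iff₀ hmp] at b1
      have b2 := hmge (kc + 4)
      have b3 : (1 : ℝ) ≤ 2 ^ p0 := one_le_pow₀ (by norm_num)
      nlinarith
    have hx2 : 8 * ((m0 : ℝ) + 5) < m l := by
      have b1 := hLa l (by omega)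
      rw [one_mul, Real.rpow_natCast] at b1
      have b2 : 8 * ((m0 : ℝ) + 5) / m 0 < 2 ^ l := by linarith
      rw [div_lt_iff₀ hmp] at b2
      exact b2.trans_le (hmge l)
    have h5 := hstep kc w0 (8 * ν + 1) nb m0 a0 u z 0 (2 ^ p0 * m (kc + 4)) t (hE.sub x k htE).1 (by omega) (by omega)
      hnb.ge le_rfl (by linarith) hnc hnf (fun x' z' hb' => by
        by_contra hc
        rw [not_le] at hc
        exact hn3 ⟨htE, x', z', hb', hc.le⟩) (by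
        rw [hkc] at hb
        rwa [show kc + 4 + 8 * ν + 2 = kc + 5 + (8 * ν + 1) by ring] at hb)
    have h6 := first_num (m0 := m0) hν.ge hM1 hx1 hx2
    linarith
  obtain ⟨J, hJ⟩ : ∃ J, k = kc + J := ⟨k - kc, by omega⟩
  have h1 := fun dir => hrun x dir kc J _ _ (by omega) (by omega) (by positivity) hcr
  have h2 := fun dir => hrun x dir kc J _ _ (by omega) (by omega) hF0 hfl
  rw [← hJ] at h1 h2
  have h3 := h x k (kc + 4) p0 (by omega) le_rfl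
  refine (gf_mono hcov).trans ((gf_union_le _ _).trans ((add_le_add ((gf_union_le _ _).trans
    (add_le_add (gf_union_le _ _) (gf_union_le _ _))) le_rfl).trans ((add_le_add (add_le_add (add_le_add (h1 false) (h1 true))
      (add_le_add (h2 false) (h2 true))) h3).trans ?_)))
  rw [← add_mul, ← add_mul, ← add_mul, ← add_mul, ← ENNReal.ofReal_add (by positivity) (by positivity),
    ← ENNReal.ofReal_add (by positivity) (by positivity), ← ENNReal.ofReal_add (by positivity) (by positivity),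
    ← ENNReal.ofReal_add (by positivity) (by positivity)]
  refine mul_le_mul_left (ENNReal.ofReal_le_ofReal ?_) _
  have e1 : C ^ J = C ^ (8 * ν + 4) * C ^ (k - l) := by rw [← pow_add]; congr 1; omega
  have e2 : C ^ (k - (kc + 4)) = C ^ (8 * ν) * C ^ (k - l) := by rw [← pow_add]; congr 1; omega
  have e3 : A1 / 2 ^ (p0 * Q) ≤ A1 := div_le_self (by linarith) (one_le_pow₀ (by norm_num))
  rw [e1, e2, hG]
  have b1 : 0 ≤ C ^ (k - l) := by positivity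
  have b2 : 0 ≤ C ^ (L1 + 1) := by positivity
  calc C ^ (8 * ν + 4) * C ^ (k - l) * (C0 / 4 ^ m0) + C ^ (8 * ν + 4) * C ^ (k - l) * (C0 / 4 ^ m0) +
        (C ^ (8 * ν + 4) * C ^ (k - l) * F + C ^ (8 * ν + 4) * C ^ (k - l) * F) +
        A1 / 2 ^ (p0 * Q) * (C ^ (8 * ν) * C ^ (k - l))
      ≤ C ^ (8 * ν + 4) * C ^ (k - l) * (C0 / 4 ^ m0) + C ^ (8 * ν + 4) * C ^ (k - l) * (C0 / 4 ^ m0) +
        (C ^ (8 * ν + 4) * C ^ (k - l) * F + C ^ (8 * ν + 4) * C ^ (k - l) * F) +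
        A1 * (C ^ (8 * ν) * C ^ (k - l)) := by gcongr
    _ = (2 * (C0 / 4 ^ m0 + F) * C ^ (8 * ν + 4) + A1 * C ^ (8 * ν)) * C ^ (k - l) := by ring
    _ ≤ _ := by
        refine mul_le_mul_of_nonneg_right ?_ b1
        linarith

end TIx

open TIx TI in
/-- **the tail of the lengths of the infixes at every scale** -/
theorem infix_tail {ι : Type} {m : ℕ → ℝ} {E : ι → ℕ → Set (List Bool)} {nu : ℕ → ℝ≥0∞}
    {SR : ℕ → Set (List (List Bool)) → ℝ → Prop} (hm : MLow m) (hu : MUp m) (hp : MPow m)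
    (hL : LongN m) (hB : TB m) (hE : EnsR E nu SR) : ∃ C : ℝ, 1 ≤ C ∧ ∀ Q : ℕ, ∃ A : ℝ, 1 ≤ A ∧
    ∀ (x : ι) (K l : ℕ) (lam : ℝ), l ≤ K → 1 ≤ lam →
      gf {t | t ∈ E x K ∧ ∃ u z, Bx (l + 2) t u z ∧ lam * m l ≤ (z : ℝ) - u} ≤
        ENNReal.ofReal (A / lam ^ Q * C ^ (K - l)) * nu K := by
  obtain ⟨C1, hC1, Q2, hbig⟩ := ti_big hm hu hp hL hB hE
  obtain ⟨Ce, ke, hCe, hrun⟩ := hE.run
  obtain ⟨Cr, hCr, hcrude⟩ := hE.crude
  obtain ⟨C, hC⟩ : ∃ C, C = max C1 (max Ce Cr) := ⟨_, rfl⟩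
  have hCC1 : C1 ≤ C := by rw [hC]; exact le_max_left _ _
  have hCCe : Ce ≤ C := by rw [hC]; exact (le_max_left _ _).trans (le_max_right _ _)
  have hCCr : Cr ≤ C := by rw [hC]; exact (le_max_right _ _).trans (le_max_right _ _)
  have hC0 : 1 ≤ C := hC1.trans hCC1
  refine ⟨C, hC0, fun Q0 => ?_⟩
  obtain ⟨Q, hQ⟩ : ∃ Q, Q = max Q0 Q2 := ⟨_, rfl⟩
  have hQ0 : Q0 ≤ Q := by rw [hQ]; exact le_max_left _ _
  obtain ⟨A1, p0, hA1, h1⟩ := hbig Q (by rw [hQ]; exact le_max_right _ _)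
  have h1' : ∀ (x : ι) (k l p : ℕ), l ≤ k → p0 ≤ p →
      gf (LB (E x k) l (2 ^ p * m l)) ≤ ENNReal.ofReal (A1 / 2 ^ (p * Q) * C ^ (k - l)) * nu k := by
    intro x k l p hlk hpp
    refine (h1 x k l p hlk hpp).trans (mul_le_mul_left (ENNReal.ofReal_le_ofReal ?_) _)
    gcongr
  obtain ⟨A2, hA2, h2⟩ := ti_small hm hE hC0 hA1 h1' ⟨ke, fun a dir kc J R δ b1 b2 b3 b4 => by
      refine (hrun a dir kc J R δ b1 b2 b3 b4).trans (mul_le_mul_left (ENNReal.ofReal_le_ofReal ?_) _)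
      gcongr⟩ (fun a K => by
      refine (hcrude a K).trans (mul_le_mul_left (ENNReal.ofReal_le_ofReal ?_) _)
      gcongr)
  refine ⟨A1 * 2 ^ Q + A2 * 2 ^ (p0 * Q), ?_, fun x K l lam hlK hlam => ?_⟩
  · have b1 : (1 : ℝ) ≤ 2 ^ Q := one_le_pow₀ (by norm_num)
    have b2 : 0 ≤ A2 * 2 ^ (p0 * Q) := by positivity
    nlinarith
  have hml := hm.pos l
  have hCk : 0 ≤ C ^ (K - l) := by positivity
  have hlQ : 0 < lam ^ Q := by positivity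
  have hfin : ∀ B : ℝ, 0 ≤ B → B ≤ A1 * 2 ^ Q + A2 * 2 ^ (p0 * Q) → B / lam ^ Q * C ^ (K - l) ≤
      (A1 * 2 ^ Q + A2 * 2 ^ (p0 * Q)) / lam ^ Q0 * C ^ (K - l) := by
    intro B hB0 hB1
    refine mul_le_mul_of_nonneg_right ?_ hCk
    have b3 : lam ^ Q0 ≤ lam ^ Q := pow_le_pow_right₀ hlam hQ0
    calc B / lam ^ Q ≤ (A1 * 2 ^ Q + A2 * 2 ^ (p0 * Q)) / lam ^ Q := by gcongr
      _ ≤ _ := by gcongr
  obtain ⟨p, hp1, hp2⟩ := exists_nat_pow_near hlam one_lt_two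
  have hsub : ∀ y : ℝ, y ≤ lam → {t | t ∈ E x K ∧ ∃ u z, Bx (l + 2) t u z ∧ lam * m l ≤ (z : ℝ) - u} ⊆
      LB (E x K) l (y * m l) := by
    rintro y hy t ⟨htE, u, z, hb, hz⟩
    refine ⟨htE, u, z, hb, le_trans ?_ hz⟩
    gcongr
  rcases Nat.lt_or_ge p p0 with hpp | hpp
  · have h3 := hsub 1 hlam
    rw [one_mul] at h3
    refine (gf_mono h3).trans ((h2 x K l hlK).trans (mul_le_mul_left (ENNReal.ofReal_le_ofReal ?_) _))
    have b1 : lam ^ Q ≤ 2 ^ (p0 * Q) := by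
      rw [pow_mul]
      refine pow_le_pow_left₀ (by linarith) ?_ Q
      exact hp2.le.trans (pow_le_pow_right₀ (by norm_num) hpp)
    refine le_trans ?_ (hfin (A2 * 2 ^ (p0 * Q)) (by positivity) (by
      have : 0 ≤ A1 * 2 ^ Q := by positivity
      linarith))
    refine mul_le_mul_of_nonneg_right ?_ hCk
    rw [le_div_iff₀ hlQ]
    gcongr
  · refine (gf_mono (hsub (2 ^ p) hp1)).trans ((h1' x K l p hlK hpp).trans
      (mul_le_mul_left (ENNReal.ofReal_le_ofReal ?_) _))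
    refine le_trans ?_ (hfin (A1 * 2 ^ Q) (by positivity) (by
      have : 0 ≤ A2 * 2 ^ (p0 * Q) := by positivity
      linarith))
    refine mul_le_mul_of_nonneg_right ?_ hCk
    rw [div_le_div_iff₀ (by positivity) hlQ]
    have b1 : lam ^ Q ≤ 2 ^ Q * 2 ^ (p * Q) := by
      calc lam ^ Q ≤ (2 ^ (p + 1)) ^ Q := pow_le_pow_left₀ (by linarith) hp2.le Q
        _ = _ := by rw [← pow_mul, add_mul, one_mul, pow_add, mul_comm]
    calc A1 * lam ^ Q ≤ A1 * (2 ^ Q * 2 ^ (p * Q)) := by gcongr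
      _ = _ := by ring

end NTA

end HexObs
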