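import Pool.Agent.NTA.TailDefs
import Pool.Agent.T2.RecNum

/-!
NTA: the numbers of the induction over the scales.
-/

set_option autoImplicit false

namespace HexObs

namespace NTA

open Finset TS SDN NTW Filter Topology

open scoped ENNReal

namespace TN

/-- an exponential beats the square of a linear function -/
lemma choose_nu (a c : ℕ) : ∃ ν : ℕ, 1 ≤ ν ∧ (512 : ℝ) * ((a * (ν + 1) + c : ℕ) : ℝ) ^ 2 ≤ 2 ^ ν := by
  have h1 : Tendsto (fun n : ℕ => (n : ℝ) ^ 2 / 2 ^ n) atTop (𝓝 0) :=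
    tendsto_pow_const_div_const_pow_of_one_lt 2 one_lt_two
  obtain ⟨B, hB⟩ : ∃ B : ℝ, B = 512 * (2 * a + c + 1) ^ 2 := ⟨_, rfl⟩
  have hB0 : 0 < B := by
    rw [hB]
    positivity
  obtain ⟨n0, hn0⟩ := eventually_atTop.1 (h1.eventually (gt_mem_nhds (show (0 : ℝ) < 1 / B by positivity)))
  obtain ⟨ν, hν⟩ : ∃ ν, ν = max n0 1 := ⟨_, rfl⟩
  have h2 := hn0 ν (by rw [hν]; exact le_max_left _ _)
  have h3 : 1 ≤ ν := by
    rw [hν]
    exact le_max_right _ _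
  have h3' : (1 : ℝ) ≤ ν := by exact_mod_cast h3
  refine ⟨ν, h3, ?_⟩
  have hp : (0 : ℝ) < 2 ^ ν := by positivity
  rw [div_lt_div_iff₀ hp hB0] at h2
  have h4 : (((a * (ν + 1) + c : ℕ) : ℝ)) ≤ (2 * a + c + 1) * ν := by
    push_cast
    have ha : (0 : ℝ) ≤ a := Nat.cast_nonneg _
    have hc : (0 : ℝ) ≤ c := Nat.cast_nonneg _
    nlinarith
  calc (512 : ℝ) * ((a * (ν + 1) + c : ℕ) : ℝ) ^ 2 ≤ 512 * ((2 * a + c + 1) * ν) ^ 2 := by gcongr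
    _ = (ν : ℝ) ^ 2 * B := by rw [hB]; ring
    _ ≤ 1 * 2 ^ ν := h2.le
    _ = 2 ^ ν := one_mul _

/-- one step: the box at the next scale is smaller by κ -/
lemma step_num {N J0 ν : ℕ} {P M0 M1 y Mb S2 : ℝ} (hP : 0 < P) (hM0 : 0 < M0)
    (hMb : 0 < Mb) (hM : 2 ^ (10 * ν) * M1 ≤ M0) (h1 : 1 ≤ 2 ^ ν * P * M1) (hJ : (512 : ℝ) * (J0 + 6) ^ 2 ≤ 2 ^ ν)
    (hy : y = P * M0 / (32 * (N + 5) * Mb)) (hS2 : 2 * S2 + 5 ≤ y * Mb) :
    2 * ((N : ℝ) + 5) * ((y * Mb + 2 * S2 + 4) + 1) + ((J0 : ℝ) + 6) ^ 2 * (2 ^ (8 * ν + 1 + 5) * (2 ^ ν * P * M1 + 1)) <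
      P * M0 := by
  have hN : (0 : ℝ) ≤ N := Nat.cast_nonneg _
  have hyM : y * Mb = P * M0 / (32 * (N + 5)) := by
    rw [hy]
    field_simp
  have hPM : 0 < P * M0 := by positivity
  have h2 : 2 * ((N : ℝ) + 5) * ((y * Mb + 2 * S2 + 4) + 1) ≤ P * M0 / 8 := by
    have h3 : (y * Mb + 2 * S2 + 4) + 1 ≤ 2 * (y * Mb) := by linarith
    calc 2 * ((N : ℝ) + 5) * ((y * Mb + 2 * S2 + 4) + 1) ≤ 2 * ((N : ℝ) + 5) * (2 * (y * Mb)) := by gcongr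
      _ = P * M0 / 8 := by
          rw [hyM]
          field_simp
          norm_num
  have h4 : ((J0 : ℝ) + 6) ^ 2 * (2 ^ (8 * ν + 1 + 5) * (2 ^ ν * P * M1 + 1)) ≤ P * M0 / 4 := by
    have h5 : 2 ^ ν * P * M1 + 1 ≤ 2 * (2 ^ ν * P * M1) := by linarith
    have h6 : (2 : ℝ) ^ (8 * ν + 1 + 5) * (2 * (2 ^ ν * P * M1)) = 2 ^ 7 * (2 ^ (10 * ν) * M1) * P / 2 ^ ν := by
      rw [eq_div_iff (by positivity)]
      have e1 : (2 : ℝ) ^ (8 * ν + 1 + 5) = 2 ^ (8 * ν) * 2 ^ 6 := by rw [add_assoc, pow_add]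
      have e2 : (2 : ℝ) ^ (10 * ν) = 2 ^ (8 * ν) * (2 ^ ν * 2 ^ ν) := by
        rw [← pow_add, ← pow_add]
        congr 1
        ring
      rw [e1, e2]
      ring
    calc ((J0 : ℝ) + 6) ^ 2 * (2 ^ (8 * ν + 1 + 5) * (2 ^ ν * P * M1 + 1))
        ≤ (2 ^ ν / 512) * (2 ^ (8 * ν + 1 + 5) * (2 * (2 ^ ν * P * M1))) := by
          apply mul_le_mul
          · rw [le_div_iff₀ (by norm_num)]
            linarith
          · gcongr
          · have : 0 ≤ 2 ^ ν * P * M1 + 1 := by linarith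
            positivity
          · positivity
      _ = (2 ^ ν / 512) * (2 ^ 7 * (2 ^ (10 * ν) * M1) * P / 2 ^ ν) := by rw [h6]
      _ ≤ (2 ^ ν / 512) * (2 ^ 7 * M0 * P / 2 ^ ν) := by gcongr
      _ = P * M0 / 4 := by
          field_simp
          norm_num
  linarith

/-- a linear function of q against an exponential -/
lemma lin_exp (a b : ℝ) {c : ℝ} (hc : 0 < c) : ∃ q0 : ℕ, ∀ q : ℕ, q0 ≤ q → a * q + b ≤ (2 : ℝ) ^ (c * q) := by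
  obtain ⟨L0, hL0⟩ := T2.RN.lin_small a b hc one_pos
  refine ⟨L0, fun q hq => ?_⟩
  have h1 := hL0 q hq
  have h2 : (0 : ℝ) < (2 : ℝ) ^ (c * q) := by positivity
  have h3 : (2 : ℝ) ^ (-(c * q)) * (2 : ℝ) ^ (c * q) = 1 := by
    rw [← Real.rpow_add (by norm_num)]
    simp
  calc a * q + b = (a * q + b) * (2 : ℝ) ^ (-(c * q)) * (2 : ℝ) ^ (c * q) := by rw [mul_assoc, h3, mul_one]
    _ ≤ 1 * (2 : ℝ) ^ (c * q) := by gcongr
    _ = _ := one_mul _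

/-- the fill number -/
lemma fill_num {K c2 y : ℝ} {kf Q ν a q : ℕ} (hK : 0 ≤ K) (hKf : K ≤ 2 ^ kf) (hc2 : 0 < c2)
    (ha : (2 * (Q + 2) * (8 + kf) : ℝ) ≤ c2 * a) (hq : 1 ≤ q) (hy : (2 : ℝ) ^ (1 / 2 * (q : ℝ)) ≤ y) :
    (K * 2 ^ (8 * ν + 1 + 3)) ^ ((Q + 1) * q + 1) * (y ^ (-c2)) ^ (a * (ν + 1) + 1) ≤ 1 / 4 ^ ((Q + 1) * q) := by
  have hq1 : (1 : ℝ) ≤ q := by exact_mod_cast hq
  have hy1 : (1 : ℝ) ≤ y := (Real.one_le_rpow (by norm_num) (by positivity)).trans hy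
  have h1 : (K * 2 ^ (8 * ν + 1 + 3)) ^ ((Q + 1) * q + 1) ≤ (2 : ℝ) ^ (((kf + (8 * ν + 4) : ℕ) : ℝ) * ((Q + 2 : ℕ) * q)) := by
    have h2 : K * 2 ^ (8 * ν + 1 + 3) ≤ 2 ^ (kf + (8 * ν + 4)) := by
      rw [pow_add 2 kf (8 * ν + 4), show 8 * ν + 1 + 3 = 8 * ν + 4 by ring]
      gcongr
    have h3 : (Q + 1) * q + 1 ≤ (Q + 2) * q := by nlinarith
    calc (K * 2 ^ (8 * ν + 1 + 3)) ^ ((Q + 1) * q + 1) ≤ (2 ^ (kf + (8 * ν + 4))) ^ ((Q + 1) * q + 1) :=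
          pow_le_pow_left₀ (by positivity) h2 _
      _ ≤ (2 ^ (kf + (8 * ν + 4))) ^ ((Q + 2) * q) := pow_le_pow_right₀ (one_le_pow₀ (by norm_num)) h3
      _ = _ := by
          rw [← pow_mul, ← Real.rpow_natCast]
          congr 1
          push_cast
          ring
  have h4 : (y ^ (-c2)) ^ (a * (ν + 1) + 1) ≤ (2 : ℝ) ^ (-(c2 * (1 / 2 * q)) * ((a * (ν + 1) : ℕ) : ℝ)) := by
    have h5 : y ^ (-c2) ≤ (2 : ℝ) ^ (-(c2 * (1 / 2 * q))) := by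
      calc y ^ (-c2) ≤ ((2 : ℝ) ^ (1 / 2 * (q : ℝ))) ^ (-c2) :=
            Real.rpow_le_rpow_of_nonpos (by positivity) hy (by linarith)
        _ = _ := by
            rw [← Real.rpow_mul (by norm_num)]
            congr 1
            ring
    have h6 : (2 : ℝ) ^ (-(c2 * (1 / 2 * q))) ≤ 1 :=
      Real.rpow_le_one_of_one_le_of_nonpos (by norm_num) (by have : 0 ≤ c2 * (1 / 2 * (q : ℝ)) := by positivity
                                                             linarith)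
    calc (y ^ (-c2)) ^ (a * (ν + 1) + 1) ≤ ((2 : ℝ) ^ (-(c2 * (1 / 2 * q)))) ^ (a * (ν + 1) + 1) :=
          pow_le_pow_left₀ (by positivity) h5 _
      _ ≤ ((2 : ℝ) ^ (-(c2 * (1 / 2 * q)))) ^ (a * (ν + 1)) :=
          pow_le_pow_of_le_one (by positivity) h6 (Nat.le_succ _)
      _ = _ := by rw [← Real.rpow_natCast, ← Real.rpow_mul (by norm_num)]
  have h7 : (1 : ℝ) / 4 ^ ((Q + 1) * q) = (2 : ℝ) ^ (-(2 * ((Q + 1) * q : ℝ))) := by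
    rw [Real.rpow_neg (by norm_num), one_div]
    congr 1
    rw [Real.rpow_mul (by norm_num), show ((Q : ℝ) + 1) * q = (((Q + 1) * q : ℕ) : ℝ) by push_cast; ring, Real.rpow_natCast]
    norm_num
  rw [h7]
  calc (K * 2 ^ (8 * ν + 1 + 3)) ^ ((Q + 1) * q + 1) * (y ^ (-c2)) ^ (a * (ν + 1) + 1)
      ≤ (2 : ℝ) ^ (((kf + (8 * ν + 4) : ℕ) : ℝ) * ((Q + 2 : ℕ) * q)) *
        (2 : ℝ) ^ (-(c2 * (1 / 2 * q)) * ((a * (ν + 1) : ℕ) : ℝ)) := by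
        have h8 : 0 ≤ y ^ (-c2) := by positivity
        gcongr
    _ = (2 : ℝ) ^ (((kf + (8 * ν + 4) : ℕ) : ℝ) * ((Q + 2 : ℕ) * q) + -(c2 * (1 / 2 * q)) * ((a * (ν + 1) : ℕ) : ℝ)) := by
        rw [← Real.rpow_add (by norm_num)]
    _ ≤ _ := by
        apply Real.rpow_le_rpow_of_exponent_le (by norm_num)
        push_cast
        have hν : (0 : ℝ) ≤ ν := Nat.cast_nonneg _
        have hkf : (0 : ℝ) ≤ kf := Nat.cast_nonneg _
        have hQ : (0 : ℝ) ≤ Q := Nat.cast_nonneg _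
        have e1 : 2 * ((Q : ℝ) + 2) * (8 + kf) * (ν + 1) ≤ c2 * a * (ν + 1) := by gcongr
        have e2 : ((kf : ℝ) + (8 * ν + 4)) * (Q + 2) + 2 * (Q + 1) ≤ ((Q : ℝ) + 2) * (8 + kf) * (ν + 1) := by
          nlinarith [mul_nonneg hQ hν, mul_nonneg hQ hkf, mul_nonneg hν hkf, mul_nonneg (mul_nonneg hQ hν) hkf]
        have e3 : (((kf : ℝ) + (8 * ν + 4)) * (Q + 2) + 2 * (Q + 1)) ≤ c2 * a * (ν + 1) / 2 := by linarith
        have e4 : (((kf : ℝ) + (8 * ν + 4)) * (Q + 2) + 2 * (Q + 1)) * q ≤ c2 * a * (ν + 1) / 2 * q := by gcongr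
        nlinarith

/-- the threshold y is large -/
lemma y_big {N Q q : ℕ} {P M0 y Mb c : ℝ} (hP : P = 2 ^ q) (hN : N = (Q + 1) * q) (hMb : 0 < Mb)
    (hM : Mb ≤ M0) (hy : y = P * M0 / (32 * (N + 5) * Mb))
    (hq : 32 * ((Q + 1 : ℝ) * q + 5) ≤ (2 : ℝ) ^ (c * q)) : (2 : ℝ) ^ ((1 - c) * q) ≤ y := by
  have hN0 : (0 : ℝ) ≤ N := Nat.cast_nonneg _
  have hNc : (N : ℝ) = (Q + 1) * q := by rw [hN]; push_cast; ring
  have h1 : (2 : ℝ) ^ ((1 - c) * q) * (2 : ℝ) ^ (c * q) = P := by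
    rw [← Real.rpow_add (by norm_num), hP, ← Real.rpow_natCast]
    congr 1
    ring
  have hM0 : 0 < M0 := by linarith
  have h2 : (2 : ℝ) ^ ((1 - c) * q) * (32 * (N + 5)) ≤ P := by
    rw [← h1, hNc]
    gcongr
  rw [hy, le_div_iff₀ (by positivity)]
  calc (2 : ℝ) ^ ((1 - c) * q) * (32 * (N + 5) * Mb) = ((2 : ℝ) ^ ((1 - c) * q) * (32 * (N + 5))) * Mb := by ring
    _ ≤ P * Mb := by gcongr
    _ ≤ P * M0 := by
        have : 0 ≤ P := by rw [hP]; positivity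
        gcongr

/-- the threshold y is not too large -/
lemma y_up {N : ℕ} {P M0 y Mb C : ℝ} (hP : 0 < P) (hMb : 0 < Mb) (hC : M0 ≤ C * Mb) (hC0 : 0 ≤ C)
    (hy : y = P * M0 / (32 * (N + 5) * Mb)) : y ≤ P * C := by
  have hN0 : (0 : ℝ) ≤ N := Nat.cast_nonneg _
  rw [hy, div_le_iff₀ (by positivity)]
  have h1 : (1 : ℝ) ≤ 32 * (N + 5) := by linarith
  calc P * M0 ≤ P * (C * Mb) := by gcongr
    _ = P * C * (1 * Mb) := by ring
    _ ≤ P * C * (32 * (N + 5) * Mb) := by gcongr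

/-- a geometric sum -/
lemma geo_le {C : ℝ} {x : ℝ} (hC : 0 ≤ C) (hx0 : 0 ≤ x) (hx : x ≤ 1 / 2) (I : ℕ) :
    ∑ i ∈ range I, C * x ^ i ≤ 2 * C := by
  rw [← Finset.mul_sum]
  have h1 : ∑ i ∈ range I, x ^ i ≤ 2 := by
    have h2 : ∑ i ∈ range I, x ^ i ≤ ∑ i ∈ range I, (1 / 2 : ℝ) ^ i :=
      Finset.sum_le_sum fun i _ => pow_le_pow_left₀ hx0 hx i
    refine h2.trans ?_
    have h3 := geom_sum_eq (by norm_num : (1 / 2 : ℝ) ≠ 1) I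
    rw [h3]
    have : (0 : ℝ) ≤ (1 / 2) ^ I := by positivity
    rw [div_le_iff_of_neg (by norm_num)]
    linarith
  nlinarith

end TN

end NTA

end HexObs
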