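import Pool.Agent.NTA.TailEns
import Pool.Agent.NTA.TailNum

/-!
NTA: the descent over the scales: one step with its numbers, the deep scales.
-/

set_option autoImplicit false

namespace HexObs

namespace NTA

open Finset TS SDN NTW

open scoped ENNReal

namespace TN

/-- one step of the descent with its numbers: the box 2 ^ (kc + 8 ν + 6), then the box 2 ^ (kc + 6) -/
lemma step_scale : ∃ Cc : ℕ, 1 ≤ Cc ∧ ∀ {m : ℕ → ℝ}, MLow m → ∀ {ν J0 w0 nb N q kc : ℕ} {y S2 : ℝ} {t : List Bool},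
    t ∈ SA → w0 ≤ kc → 6 ≤ N → Cc * 2 ^ w0 * 4 ^ (8 * ν + 1) ≤ nb → (512 : ℝ) * (J0 + 6) ^ 2 ≤ 2 ^ ν →
    y = 2 ^ q * m (kc + 4 + 8 * ν) / (32 * (N + 5) * m (kc + 5)) → 0 ≤ S2 → 2 * S2 + 5 ≤ y * m (kc + 5) →
    1 ≤ 2 ^ ν * 2 ^ q * m (kc + 4) →
    (∀ dir, ¬ HasRun dir kc (CS (2 ^ (kc + 4)) (2 ^ (kc + 5 + (8 * ν + 1))) (kc + 2) (2 ^ (kc - w0)) nb N) t) →
    (∀ dir, ¬ HasRun dir kc (RFill kc (8 * ν + 1 + 3) N (J0 + 1) (LongL kc (8 * ν + 1 + 3)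
      (y * m (kc + 5) + 2 * S2 + 4))) t) →
    ∀ x z, Bx (kc + 5 + (8 * ν + 1)) t x z → 2 ^ q * m (kc + 4 + 8 * ν) ≤ (z : ℝ) - x →
    ∃ x1 z1, Bx (kc + 6) t x1 z1 ∧ 2 ^ (q + ν) * m (kc + 4) ≤ (z1 : ℝ) - x1 := by
  obtain ⟨Cc, hCc, hstep⟩ := step_all
  refine ⟨Cc, hCc, fun {m} hm {ν J0 w0 nb N q kc y S2 t} ht hw0 hN hnb hJ hy hS0 hS2 h1 hc hf x z hb hlen => ?_⟩
  by_contra hcon
  push Not at hcon
  have hM0 := hm.pos (kc + 4 + 8 * ν)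
  have hMb := hm.pos (kc + 5)
  have hM1 := hm.pos (kc + 4)
  have hyM : 0 ≤ y * m (kc + 5) := by linarith
  have h2 := hstep kc w0 (8 * ν + 1) nb N J0 x z (y * m (kc + 5) + 2 * S2 + 4) (2 ^ ν * 2 ^ q * m (kc + 4)) t ht hw0 hN
    hnb (by linarith) (by linarith) hc hf (fun x' z' hb' => by
      have := hcon x' z' hb'
      rw [pow_add] at this
      linarith) hb
  have h3 : (2 : ℝ) ^ (10 * ν) * m (kc + 4) ≤ m (kc + 4 + 8 * ν) := by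
    refine le_trans (le_of_eq ?_) (hm.low (kc + 4) (8 * ν))
    rw [← Real.rpow_natCast]
    congr 2
    push_cast
    ring
  have h4 := step_num (N := N) (J0 := J0) (ν := ν) (P := 2 ^ q) (M0 := m (kc + 4 + 8 * ν)) (M1 := m (kc + 4)) (y := y)
    (Mb := m (kc + 5)) (S2 := S2) (by positivity) hM0 hMb h3 h1 hJ hy hS2
  linarith

/-- the infixes of the scale ff are short -/
lemma ff_num {η e : ℝ} (hη : 0 < η) (hη8 : η ≤ 1 / 8) (he : 0 < e) (h3 : 3 * e ≤ η) : ∃ l1 : ℕ, ∀ l b : ℕ, l1 ≤ l →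
    b ≤ l → 2 * (2 : ℝ) ^ ((4 / 3 + e) * ((T2.ff η b + 2 : ℕ) : ℝ)) + 5 ≤ (2 : ℝ) ^ ((4 / 3 - e) * l) := by
  obtain ⟨l1, hl1⟩ := exists_nat_gt (7 / e)
  refine ⟨l1, fun l b hl hb => ?_⟩
  have h7 : 7 ≤ e * l := by
    have h1 : 7 / e < l := lt_of_lt_of_le hl1 (by exact_mod_cast hl)
    rw [div_lt_iff₀ he] at h1
    linarith
  have hff := T2.RN.ff_real hη hη8 b
  have hbl : (b : ℝ) ≤ l := by exact_mod_cast hb
  have hb0 : (0 : ℝ) ≤ b := Nat.cast_nonneg _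
  have hl0 : (0 : ℝ) ≤ l := Nat.cast_nonneg _
  have h2 : (4 / 3 + e) * ((T2.ff η b + 2 : ℕ) : ℝ) ≤ (4 / 3 - 2 * e) * l + 5 := by
    push_cast
    have h4 : (T2.ff η b : ℝ) + 2 ≤ (1 - η) * l + 3 := by nlinarith
    have h5 : (4 / 3 + e) * ((T2.ff η b : ℝ) + 2) ≤ (4 / 3 + e) * ((1 - η) * l + 3) :=
      mul_le_mul_of_nonneg_left h4 (by linarith)
    have h6 : (4 / 3 + e) * (1 - η) ≤ 4 / 3 - 2 * e := by nlinarith
    nlinarith [mul_le_mul_of_nonneg_right h6 hl0]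
  have h8 : (2 : ℝ) ^ ((4 / 3 + e) * ((T2.ff η b + 2 : ℕ) : ℝ)) ≤ 32 * (2 : ℝ) ^ ((4 / 3 - 2 * e) * l) := by
    calc (2 : ℝ) ^ ((4 / 3 + e) * ((T2.ff η b + 2 : ℕ) : ℝ)) ≤ (2 : ℝ) ^ ((4 / 3 - 2 * e) * l + 5) :=
          Real.rpow_le_rpow_of_exponent_le (by norm_num) h2
      _ = _ := by
          rw [Real.rpow_add (by norm_num)]
          norm_num
          ring
  have h9 : (1 : ℝ) ≤ (2 : ℝ) ^ ((4 / 3 - 2 * e) * l) := by
    apply Real.one_le_rpow (by norm_num)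
    apply mul_nonneg _ hl0
    linarith
  have h10 : (128 : ℝ) ≤ (2 : ℝ) ^ (e * l) := by
    calc (128 : ℝ) = (2 : ℝ) ^ (7 : ℝ) := by norm_num
      _ ≤ _ := Real.rpow_le_rpow_of_exponent_le (by norm_num) h7
  calc 2 * (2 : ℝ) ^ ((4 / 3 + e) * ((T2.ff η b + 2 : ℕ) : ℝ)) + 5
      ≤ 2 * (32 * (2 : ℝ) ^ ((4 / 3 - 2 * e) * l)) + 5 * (2 : ℝ) ^ ((4 / 3 - 2 * e) * l) := by linarith
    _ ≤ 128 * (2 : ℝ) ^ ((4 / 3 - 2 * e) * l) := by linarith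
    _ ≤ (2 : ℝ) ^ (e * l) * (2 : ℝ) ^ ((4 / 3 - 2 * e) * l) := by gcongr
    _ = _ := by
        rw [← Real.rpow_add (by norm_num)]
        congr 1
        ring

/-- at the last scale the box contains too many letters -/
lemma end_num {e e2 : ℝ} (he : 0 < e) (he1 : e ≤ 1 / 3) (h4 : 4 * e ≤ e2) {k l : ℕ} (hl : l ≤ k) (hk : 50 / 3 ≤ e2 * k) {P M : ℝ}
    (hP : (2 : ℝ) ^ (e2 * k) ≤ P) (hM : (2 : ℝ) ^ ((4 / 3 - e) * l) ≤ M) :
    (2 : ℝ) ^ ((4 / 3 + e) * ((l + 5 : ℕ) : ℝ)) ≤ P * M := by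
  have hlk : (l : ℝ) ≤ k := by exact_mod_cast hl
  have hl0 : (0 : ℝ) ≤ l := Nat.cast_nonneg _
  calc (2 : ℝ) ^ ((4 / 3 + e) * ((l + 5 : ℕ) : ℝ)) ≤ (2 : ℝ) ^ (e2 * k + (4 / 3 - e) * l) := by
        apply Real.rpow_le_rpow_of_exponent_le (by norm_num)
        push_cast
        nlinarith
    _ = (2 : ℝ) ^ (e2 * k) * (2 : ℝ) ^ ((4 / 3 - e) * l) := by rw [Real.rpow_add (by norm_num)]
    _ ≤ P * M := mul_le_mul hP hM (by positivity) (le_trans (by positivity) hP)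

/-- many letters in a box, deep event -/
lemma deep_of {η β : ℝ} {k l x z : ℕ} {t : List Bool} (ht : t ∈ WL k) (hb : Bx (l + 2) t x z) (h1 : k ≤ 4 * (l + 5))
    (h2 : l + 5 ≤ k) (h : (2 : ℝ) ^ (β * ((l + 5 : ℕ) : ℝ)) ≤ (z : ℝ) - x) : t ∈ Deep η β k := by
  refine ⟨ht, l + 5, h1, h2, Or.inr ⟨(t.drop x).take (z - x), ?_, ?_, ?_⟩⟩
  · exact (List.take_prefix _ _).isInfix.trans (List.drop_suffix _ _).isInfix
  · have h3 : (t.drop x).take (z - x) ∈ WL (l + 3 + 2) := by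
      apply T2.infix_WL ht.1 hb.1 hb.2.1
      intro dir i j hi hi' hj hj'
      have := hb.2.2 dir i j hi hi' hj hj'
      unfold row
      have hp : (1 : ℤ) ≤ 2 ^ (l + 2) := by exact_mod_cast Nat.one_le_two_pow
      rw [show l + 3 = l + 2 + 1 by ring, pow_succ]
      omega
    exact h3
  · have h4 : ((t.drop x).take (z - x)).length = z - x := by
      rw [List.length_take, List.length_drop]
      have := hb.1
      have := hb.2.1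
      omega
    rw [h4, Nat.cast_sub hb.1]
    exact h

end TN

end NTA

end HexObs
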