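import Pool.Agent.NTA.TailInd

/-!
NTA: the tail of the lengths of the bridges at every scale, from the tail of an ensemble.
-/

set_option autoImplicit false

namespace HexObs

namespace NTA

open Finset TS SDN NTW

open scoped ENNReal

open TI in
/-- **the tail of the lengths of the bridges at every scale** -/
theorem tb_of {m : ℕ → ℝ} {E : ℕ → Set (List Bool)} {nu : ℕ → ℝ≥0∞} (hT : ∀ Q : ℕ, ∃ A : ℝ, 1 ≤ A ∧
    ∀ K, TAk m E nu Q A K) (hB : TBof m E nu) : TB m := by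
  intro q
  obtain ⟨A, hA, h1⟩ := hT (q + 1)
  obtain ⟨r0, CQ, C4, c5, hCQ, hC4, hc5, h2⟩ := hB (q + 1)
  obtain ⟨d, hd⟩ := pow_unbounded_of_one_lt CQ (one_lt_two (α := ℝ))
  obtain ⟨s1, hs1⟩ := TN.lin_exp ((q : ℝ) * (d + 1) / (2 * c5)) ((q : ℝ) * (d + 1) / (2 * c5)) one_pos
  obtain ⟨s0, hs0⟩ : ∃ s0, s0 = s1 + 1 := ⟨_, rfl⟩
  refine ⟨CQ ^ (s0 + 1) * A + C4, by positivity, fun k y hy => ?_⟩
  obtain ⟨p, hp1, hp2⟩ := exists_nat_pow_near hy one_lt_two
  obtain ⟨s, hs⟩ : ∃ s, s = p / (d + 1) + s0 := ⟨_, rfl⟩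
  refine (h2 A (k + s + r0) hA (h1 _) k s le_rfl y hy).trans (ENNReal.ofReal_le_ofReal ?_)
  refine mul_le_mul_of_nonneg_right ?_ (Ub_pos k).le
  have hyq : 0 < y ^ q := by positivity
  have h3 : CQ ^ (s + 1) * A / y ^ (q + 1) ≤ CQ ^ (s0 + 1) * A / y ^ q := by
    have e1 : CQ ^ (s + 1) ≤ CQ ^ (s0 + 1) * 2 ^ p := by
      have e2 : CQ ^ (p / (d + 1)) ≤ 2 ^ p := by
        calc CQ ^ (p / (d + 1)) ≤ (2 ^ d) ^ (p / (d + 1)) := pow_le_pow_left₀ (by linarith) hd.le _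
          _ = 2 ^ (d * (p / (d + 1))) := by rw [← pow_mul]
          _ ≤ 2 ^ p := by
              refine pow_le_pow_right₀ (by norm_num) ?_
              have := Nat.div_mul_le_self p (d + 1)
              nlinarith [Nat.zero_le (p / (d + 1))]
      rw [hs, show p / (d + 1) + s0 + 1 = (s0 + 1) + p / (d + 1) by ring, pow_add]
      gcongr
    rw [div_le_div_iff₀ (by positivity) hyq]
    calc CQ ^ (s + 1) * A * y ^ q ≤ (CQ ^ (s0 + 1) * 2 ^ p) * A * y ^ q := by gcongr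
      _ ≤ (CQ ^ (s0 + 1) * y) * A * y ^ q := by gcongr
      _ = _ := by ring
  have h4 : C4 * (4 : ℝ) ^ (-(c5 * 2 ^ s)) ≤ C4 / y ^ q := by
    rw [div_eq_mul_inv]
    refine mul_le_mul_of_nonneg_left ?_ hC4.le
    rw [Real.rpow_neg (by norm_num)]
    refine inv_anti₀ hyq ?_
    have e1 : y ^ q ≤ (2 : ℝ) ^ ((q : ℝ) * (p + 1)) := by
      calc y ^ q ≤ (2 ^ (p + 1)) ^ q := pow_le_pow_left₀ (by linarith) hp2.le q
        _ = _ := by
            rw [← pow_mul, ← Real.rpow_natCast]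
            congr 1
            push_cast
            ring
    refine e1.trans ?_
    have e2 : (4 : ℝ) ^ (c5 * 2 ^ s) = (2 : ℝ) ^ (2 * (c5 * 2 ^ s)) := by
      rw [Real.rpow_mul (by norm_num) 2 (c5 * 2 ^ s)]
      norm_num
    rw [e2]
    apply Real.rpow_le_rpow_of_exponent_le (by norm_num)
    have e3 := hs1 s (by
      have e31 : s0 ≤ s := by
        rw [hs]
        exact Nat.le_add_left _ _
      omega)
    rw [one_mul, Real.rpow_natCast] at e3
    have e4 : (p : ℝ) + 1 ≤ (d + 1) * (s + 1) := by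
      have e5 : p + 1 ≤ (d + 1) * (s + 1) := by
        have e6 := Nat.div_add_mod p (d + 1)
        have e7 := Nat.mod_lt p (show 0 < d + 1 by omega)
        rw [hs]
        have e8 : (d + 1) * (p / (d + 1) + s0 + 1) = (d + 1) * (p / (d + 1)) + (d + 1) * (s0 + 1) := by ring
        rw [e8]
        have e9 : d + 1 ≤ (d + 1) * (s0 + 1) := by nlinarith
        linarith
      exact_mod_cast e5
    have e10 : (q : ℝ) * (d + 1) / (2 * c5) * s + (q : ℝ) * (d + 1) / (2 * c5) = q * ((d + 1) * (s + 1)) / (2 * c5) := by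
      ring
    rw [e10, div_le_iff₀ (by positivity)] at e3
    calc (q : ℝ) * (p + 1) ≤ q * ((d + 1) * (s + 1)) := by gcongr
      _ ≤ 2 ^ s * (2 * c5) := e3
      _ = _ := by ring
  calc CQ ^ (s + 1) * A / y ^ (q + 1) + C4 * (4 : ℝ) ^ (-(c5 * 2 ^ s)) ≤ CQ ^ (s0 + 1) * A / y ^ q + C4 / y ^ q :=
        add_le_add h3 h4
    _ = (CQ ^ (s0 + 1) * A + C4) / y ^ q := by ring

end NTA

end HexObs
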